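import Pool.Agent.CRt.Skeleton

/-!
# Disjoint curves from the left to the right column preserve the order
-/

set_option autoImplicit false

namespace Pool.Agent.CRt

open Set

variable {N : ℕ} {T : List STriple} {D : LDraw (gEdges N T)}

/-- The union of the chosen paths of a set of connections. -/
def Skel.U (K : Skel D) (Q : Set (ℕ × ℕ × Vx × Vx)) : Set Plane := ⋃ q ∈ Q, K.Sg q

theorem Skel.U_disj (K : Skel D) {Q Q' : Set (ℕ × ℕ × Vx × Vx)} (hQ : ∀ q ∈ Q, q ∈ conns N)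
    (hQ' : ∀ q ∈ Q', q ∈ conns N)
    (h : ∀ q ∈ Q, ∀ q' ∈ Q', ∀ v, EndOf v q.2.2 → ¬ EndOf v q'.2.2) :
    Disjoint (K.U Q) (K.U Q') := by
  unfold Skel.U
  rw [Set.disjoint_iUnion₂_left]
  intro q hq
  rw [Set.disjoint_iUnion₂_right]
  intro q' hq'
  exact K.disj (hQ q hq) (hQ' q' hq') (h q hq q' hq')

/-- the connections on the way from `lv p` over the top to `rv q` -/
def topQ (p q : ℕ) : Set (ℕ × ℕ × Vx × Vx) :=
  {x | (∃ i < p, x = (4, i, lv i, lv (i + 1))) ∨ (∃ i < q, x = (5, i, rv i, rv (i + 1))) ∨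
    x = (8, 0, lv 0, rv 0)}

/-- the connections on the way from `lv p` over the bottom to `rv q` -/
def botQ (N p q : ℕ) : Set (ℕ × ℕ × Vx × Vx) :=
  {x | (∃ i < 3 * N + 1, p ≤ i ∧ x = (4, i, lv i, lv (i + 1))) ∨
    (∃ i < 3 * N + 1, q ≤ i ∧ x = (5, i, rv i, rv (i + 1))) ∨
    x = (9, 0, lv (3 * N + 1), rv (3 * N + 1))}

theorem topQ_conns {p q : ℕ} (hp : p < 3 * N + 2) (hq : q < 3 * N + 2) :
    ∀ x ∈ topQ p q, x ∈ conns N := by
  rintro x (⟨i, hi, rfl⟩ | ⟨i, hi, rfl⟩ | rfl)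
  · exact mem_conns.2 (Or.inl ⟨i, by omega, rfl⟩)
  · exact mem_conns.2 (Or.inr (Or.inl ⟨i, by omega, rfl⟩))
  · exact mem_conns.2 (by simp)

theorem botQ_conns {p q : ℕ} : ∀ x ∈ botQ N p q, x ∈ conns N := by
  rintro x (⟨i, hi, -, rfl⟩ | ⟨i, hi, -, rfl⟩ | rfl)
  · exact mem_conns.2 (Or.inl ⟨i, by omega, rfl⟩)
  · exact mem_conns.2 (Or.inr (Or.inl ⟨i, by omega, rfl⟩))
  · exact mem_conns.2 (by simp)

theorem Skel.joined_top (K : Skel D) {p q : ℕ} (hp : p < 3 * N + 2) (hq : q < 3 * N + 2) :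
    JoinedIn (K.U (topQ p q)) (D.pos (lv p)) (D.pos (rv q)) := by
  have hsub : ∀ x ∈ topQ p q, K.Sg x ⊆ K.U (topQ p q) := fun x hx =>
    Set.subset_biUnion_of_mem (u := K.Sg) hx
  have h8 : ((8, 0, lv 0, rv 0) : ℕ × ℕ × Vx × Vx) ∈ topQ p q := Or.inr (Or.inr rfl)
  have j8 : JoinedIn (K.U (topQ p q)) (D.pos (lv 0)) (D.pos (rv 0)) :=
    (K.conn _ (topQ_conns hp hq _ h8)).mono (hsub _ h8)
  have jl : ∀ i ≤ p, JoinedIn (K.U (topQ p q)) (D.pos (lv i)) (D.pos (lv 0)) := by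
    intro i
    induction i with
    | zero => intro _; exact JoinedIn.refl j8.source_mem
    | succ i ih =>
      intro hi
      have hx : ((4, i, lv i, lv (i + 1)) : ℕ × ℕ × Vx × Vx) ∈ topQ p q :=
        Or.inl ⟨i, by omega, rfl⟩
      exact ((K.conn _ (topQ_conns hp hq _ hx)).mono (hsub _ hx)).symm.trans (ih (by omega))
  have jr : ∀ i ≤ q, JoinedIn (K.U (topQ p q)) (D.pos (rv 0)) (D.pos (rv i)) := by
    intro i
    induction i with
    | zero => intro _; exact JoinedIn.refl j8.target_mem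
    | succ i ih =>
      intro hi
      have hx : ((5, i, rv i, rv (i + 1)) : ℕ × ℕ × Vx × Vx) ∈ topQ p q :=
        Or.inr (Or.inl ⟨i, by omega, rfl⟩)
      exact (ih (by omega)).trans ((K.conn _ (topQ_conns hp hq _ hx)).mono (hsub _ hx))
  exact (jl p le_rfl).trans (j8.trans (jr q le_rfl))

theorem Skel.joined_bot (K : Skel D) {p q : ℕ} (hp : p < 3 * N + 2) (hq : q < 3 * N + 2) :
    JoinedIn (K.U (botQ N p q)) (D.pos (lv p)) (D.pos (rv q)) := by
  have hsub : ∀ x ∈ botQ N p q, K.Sg x ⊆ K.U (botQ N p q) := fun x hx =>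
    Set.subset_biUnion_of_mem (u := K.Sg) hx
  have h9 : ((9, 0, lv (3 * N + 1), rv (3 * N + 1)) : ℕ × ℕ × Vx × Vx) ∈ botQ N p q :=
    Or.inr (Or.inr rfl)
  have j9 : JoinedIn (K.U (botQ N p q)) (D.pos (lv (3 * N + 1))) (D.pos (rv (3 * N + 1))) :=
    (K.conn _ (botQ_conns _ h9)).mono (hsub _ h9)
  have jl : ∀ j i, i + j = 3 * N + 1 → p ≤ i →
      JoinedIn (K.U (botQ N p q)) (D.pos (lv i)) (D.pos (lv (3 * N + 1))) := by
    intro j
    induction j with
    | zero =>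
      intro i hi _
      have : i = 3 * N + 1 := by omega
      subst this
      exact JoinedIn.refl j9.source_mem
    | succ j ih =>
      intro i hi hpi
      have hx : ((4, i, lv i, lv (i + 1)) : ℕ × ℕ × Vx × Vx) ∈ botQ N p q :=
        Or.inl ⟨i, by omega, hpi, rfl⟩
      exact ((K.conn _ (botQ_conns _ hx)).mono (hsub _ hx)).trans (ih (i + 1) (by omega) (by omega))
  have jr : ∀ j i, i + j = 3 * N + 1 → q ≤ i →
      JoinedIn (K.U (botQ N p q)) (D.pos (rv (3 * N + 1))) (D.pos (rv i)) := by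
    intro j
    induction j with
    | zero =>
      intro i hi _
      have : i = 3 * N + 1 := by omega
      subst this
      exact JoinedIn.refl j9.target_mem
    | succ j ih =>
      intro i hi hpi
      have hx : ((5, i, rv i, rv (i + 1)) : ℕ × ℕ × Vx × Vx) ∈ botQ N p q :=
        Or.inr (Or.inl ⟨i, by omega, hpi, rfl⟩)
      exact (ih (i + 1) (by omega) (by omega)).trans
        ((K.conn _ (botQ_conns _ hx)).mono (hsub _ hx)).symm
  exact (jl (3 * N + 1 - p) p (by omega) le_rfl).trans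
    (j9.trans (jr (3 * N + 1 - q) q (by omega) le_rfl))

/-- a set of vertices not containing the hubs, `lv p` and `rv q` -/
def NoV (V : Set Vx) (p q : ℕ) : Prop :=
  hub 0 ∉ V ∧ hub 1 ∉ V ∧ lv p ∉ V ∧ rv q ∉ V

theorem Skel.alt (K : Skel D) {p₁ p₂ q₁ q₂ : ℕ} (hp : p₁ < p₂) (hp₂ : p₂ < 3 * N + 2)
    (hq₁ : q₁ < 3 * N + 2) (hq₂ : q₂ < 3 * N + 2) {A B : Set Plane}
    (hA : JoinedIn A (D.pos (lv p₁)) (D.pos (rv q₁)))
    (hB : JoinedIn B (D.pos (lv p₂)) (D.pos (rv q₂))) (hAB : Disjoint A B) {V W : Set Vx}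
    (hA' : K.Avoids A V) (hV : NoV V p₂ q₂) (hB' : K.Avoids B W) (hW : NoV W p₁ q₁) :
    q₁ < q₂ := by
  obtain ⟨hV0, hV1, hV2, hV3⟩ := hV
  obtain ⟨hW0, hW1, hW2, hW3⟩ := hW
  by_contra hcon
  have hne : q₁ ≠ q₂ := by
    rintro rfl
    exact Set.disjoint_left.1 hAB hA.target_mem hB.target_mem
  have hq : q₂ < q₁ := by omega
  have hp₁ : p₁ < 3 * N + 2 := by omega
  have hs : ∀ p < 3 * N + 2, ((6, p, hub 0, lv p) : ℕ × ℕ × Vx × Vx) ∈ conns N := fun p hp =>
    mem_conns.2 (by simp [hp])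
  have hr : ∀ p < 3 * N + 2, ((7, p, hub 1, rv p) : ℕ × ℕ × Vx × Vx) ∈ conns N := fun p hp =>
    mem_conns.2 (by simp [hp])
  have hh : ((10, 0, hub 0, hub 1) : ℕ × ℕ × Vx × Vx) ∈ conns N := mem_conns.2 (by simp)
  have isl : ∀ p < 3 * N + 2, IsSk N (lv p) := fun p hp => Or.inl ⟨p, hp, rfl⟩
  have isr : ∀ p < 3 * N + 2, IsSk N (rv p) := fun p hp => Or.inr (Or.inl ⟨p, hp, rfl⟩)
  have ish0 : IsSk N (hub 0) := Or.inr (Or.inr (Or.inl rfl))
  have ish1 : IsSk N (hub 1) := Or.inr (Or.inr (Or.inr rfl))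
  have hT := topQ_conns (N := N) hp₁ hq₂
  have hBt := botQ_conns (N := N) (p := p₂) (q := q₁)
  -- single connections
  have sing : ∀ x, K.U {x} = K.Sg x := by
    intro x
    simp [Skel.U]
  have hsing : ∀ x ∈ conns N, ∀ y ∈ ({x} : Set (ℕ × ℕ × Vx × Vx)), y ∈ conns N := by
    rintro x hx y rfl
    exact hx
  set P : Fin 3 → Plane := ![D.pos (lv p₁), D.pos (lv p₂), D.pos (hub 1)] with hP
  set Q : Fin 3 → Plane := ![D.pos (rv q₁), D.pos (rv q₂), D.pos (hub 0)] with hQ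
  set S : Fin 3 → Fin 3 → Set Plane :=
    ![![A, K.U (topQ p₁ q₂), K.Sg (6, p₁, hub 0, lv p₁)],
      ![K.U (botQ N p₂ q₁), B, K.Sg (6, p₂, hub 0, lv p₂)],
      ![K.Sg (7, q₁, hub 1, rv q₁), K.Sg (7, q₂, hub 1, rv q₂), K.Sg (10, 0, hub 0, hub 1)]] with hS
  have d1 : Disjoint A (K.Sg (6, p₂, hub 0, lv p₂)) := hA'.disj (hs _ hp₂) (by
    rintro v hv (rfl | rfl)
    · exact hV0 hv
    · exact hV2 hv)
  have d2 : Disjoint A (K.Sg (7, q₂, hub 1, rv q₂)) := hA'.disj (hr _ hq₂) (by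
    rintro v hv (rfl | rfl)
    · exact hV1 hv
    · exact hV3 hv)
  have d3 : Disjoint A (K.Sg (10, 0, hub 0, hub 1)) := hA'.disj hh (by
    rintro v hv (rfl | rfl)
    · exact hV0 hv
    · exact hV1 hv)
  have d4 : Disjoint B (K.Sg (6, p₁, hub 0, lv p₁)) := hB'.disj (hs _ hp₁) (by
    rintro v hv (rfl | rfl)
    · exact hW0 hv
    · exact hW2 hv)
  have d5 : Disjoint B (K.Sg (7, q₁, hub 1, rv q₁)) := hB'.disj (hr _ hq₁) (by
    rintro v hv (rfl | rfl)
    · exact hW1 hv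
    · exact hW3 hv)
  have d6 : Disjoint B (K.Sg (10, 0, hub 0, hub 1)) := hB'.disj hh (by
    rintro v hv (rfl | rfl)
    · exact hW0 hv
    · exact hW1 hv)
  have d7 : Disjoint (K.U (topQ p₁ q₂)) (K.U (botQ N p₂ q₁)) := K.U_disj hT hBt (by
    rintro x (⟨i, hi, rfl⟩ | ⟨i, hi, rfl⟩ | rfl) y (⟨j, hj, hj', rfl⟩ | ⟨j, hj, hj', rfl⟩ | rfl) v
      (rfl | rfl) (h | h) <;> simp only [lv, rv, Prod.mk.injEq] at h <;> omega)
  have tops : ∀ x ∈ conns N, (∀ i ≤ p₁, ¬ EndOf (lv i) x.2.2) → (∀ i ≤ q₂, ¬ EndOf (rv i) x.2.2) →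
      Disjoint (K.U (topQ p₁ q₂)) (K.Sg x) := by
    intro x hx h1 h2
    rw [← sing x]
    refine K.U_disj hT (hsing x hx) ?_
    rintro y (⟨i, hi, rfl⟩ | ⟨i, hi, rfl⟩ | rfl) z rfl v (rfl | rfl) h
    · exact h1 _ (by omega) h
    · exact h1 _ (by omega) h
    · exact h2 _ (by omega) h
    · exact h2 _ (by omega) h
    · exact h1 _ (by omega) h
    · exact h2 _ (by omega) h
  have bots : ∀ x ∈ conns N, (∀ i, p₂ ≤ i → ¬ EndOf (lv i) x.2.2) →
      (∀ i, q₁ ≤ i → ¬ EndOf (rv i) x.2.2) → Disjoint (K.U (botQ N p₂ q₁)) (K.Sg x) := by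
    intro x hx h1 h2
    rw [← sing x]
    refine K.U_disj hBt (hsing x hx) ?_
    rintro y (⟨i, hi, hi', rfl⟩ | ⟨i, hi, hi', rfl⟩ | rfl) z rfl v (rfl | rfl) h
    · exact h1 _ (by omega) h
    · exact h1 _ (by omega) h
    · exact h2 _ (by omega) h
    · exact h2 _ (by omega) h
    · exact h1 _ (by omega) h
    · exact h2 _ (by omega) h
  have d8 := tops _ (hs _ hp₂) (by
    rintro i hi (h | h) <;> simp only [lv, hub, Prod.mk.injEq] at h <;> omega) (by
    rintro i hi (h | h) <;> simp only [lv, rv, hub, Prod.mk.injEq] at h <;> omega)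
  have d9 := tops _ (hr _ hq₁) (by
    rintro i hi (h | h) <;> simp only [lv, rv, hub, Prod.mk.injEq] at h <;> omega) (by
    rintro i hi (h | h) <;> simp only [rv, hub, Prod.mk.injEq] at h <;> omega)
  have d10 := tops _ hh (by
    rintro i hi (h | h) <;> simp only [lv, hub, Prod.mk.injEq] at h <;> omega) (by
    rintro i hi (h | h) <;> simp only [rv, hub, Prod.mk.injEq] at h <;> omega)
  have d11 := bots _ (hs _ hp₁) (by
    rintro i hi (h | h) <;> simp only [lv, hub, Prod.mk.injEq] at h <;> omega) (by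
    rintro i hi (h | h) <;> simp only [lv, rv, hub, Prod.mk.injEq] at h <;> omega)
  have d12 := bots _ (hr _ hq₂) (by
    rintro i hi (h | h) <;> simp only [lv, rv, hub, Prod.mk.injEq] at h <;> omega) (by
    rintro i hi (h | h) <;> simp only [rv, hub, Prod.mk.injEq] at h <;> omega)
  have d13 := bots _ hh (by
    rintro i hi (h | h) <;> simp only [lv, hub, Prod.mk.injEq] at h <;> omega) (by
    rintro i hi (h | h) <;> simp only [rv, hub, Prod.mk.injEq] at h <;> omega)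
  have sr : ∀ p < 3 * N + 2, ∀ q < 3 * N + 2, Disjoint (K.Sg (6, p, hub 0, lv p))
      (K.Sg (7, q, hub 1, rv q)) := by
    intro p hp q hq
    refine K.disj (hs _ hp) (hr _ hq) ?_
    rintro v (rfl | rfl) (h | h) <;> simp only [lv, rv, hub, Prod.mk.injEq] at h <;> omega
  have d14 := sr p₁ hp₁ q₁ hq₁
  have d15 := sr p₁ hp₁ q₂ hq₂
  have d16 := sr p₂ hp₂ q₁ hq₁
  have d17 := sr p₂ hp₂ q₂ hq₂
  have pinj : Function.Injective P := by
    have e1 : lv p₁ ≠ lv p₂ := by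
      intro h; simp only [lv, Prod.mk.injEq] at h; omega
    have e2 : lv p₁ ≠ hub 1 := by
      intro h; simp only [lv, hub, Prod.mk.injEq] at h; omega
    have e3 : lv p₂ ≠ hub 1 := by
      intro h; simp only [lv, hub, Prod.mk.injEq] at h; omega
    have f1 : D.pos (lv p₁) ≠ D.pos (lv p₂) := fun h => e1 (pos_inj_sk D (isl _ hp₁) (isl _ hp₂) h)
    have f2 : D.pos (lv p₁) ≠ D.pos (hub 1) := fun h => e2 (pos_inj_sk D (isl _ hp₁) ish1 h)
    have f3 : D.pos (lv p₂) ≠ D.pos (hub 1) := fun h => e3 (pos_inj_sk D (isl _ hp₂) ish1 h)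
    intro i j hij
    fin_cases i <;> fin_cases j <;>
      first | rfl | exact absurd hij f1 | exact absurd hij.symm f1 | exact absurd hij f2 |
        exact absurd hij.symm f2 | exact absurd hij f3 | exact absurd hij.symm f3
  have qinj : Function.Injective Q := by
    have e1 : rv q₁ ≠ rv q₂ := by
      intro h; simp only [rv, Prod.mk.injEq] at h; omega
    have e2 : rv q₁ ≠ hub 0 := by
      intro h; simp only [rv, hub, Prod.mk.injEq] at h; omega
    have e3 : rv q₂ ≠ hub 0 := by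
      intro h; simp only [rv, hub, Prod.mk.injEq] at h; omega
    have f1 : D.pos (rv q₁) ≠ D.pos (rv q₂) := fun h => e1 (pos_inj_sk D (isr _ hq₁) (isr _ hq₂) h)
    have f2 : D.pos (rv q₁) ≠ D.pos (hub 0) := fun h => e2 (pos_inj_sk D (isr _ hq₁) ish0 h)
    have f3 : D.pos (rv q₂) ≠ D.pos (hub 0) := fun h => e3 (pos_inj_sk D (isr _ hq₂) ish0 h)
    intro i j hij
    fin_cases i <;> fin_cases j <;>
      first | rfl | exact absurd hij f1 | exact absurd hij.symm f1 | exact absurd hij f2 |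
        exact absurd hij.symm f2 | exact absurd hij f3 | exact absurd hij.symm f3
  have pq : ∀ i j, P i ≠ Q j := by
    have g : ∀ u v : Vx, IsSk N u → IsSk N v → u ≠ v → D.pos u ≠ D.pos v := fun u v hu hv h h' =>
      h (pos_inj_sk D hu hv h')
    intro i j
    fin_cases i <;> fin_cases j
    · exact g _ _ (isl _ hp₁) (isr _ hq₁) (by simp [lv, rv])
    · exact g _ _ (isl _ hp₁) (isr _ hq₂) (by simp [lv, rv])
    · exact g _ _ (isl _ hp₁) ish0 (by simp [lv, hub])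
    · exact g _ _ (isl _ hp₂) (isr _ hq₁) (by simp [lv, rv])
    · exact g _ _ (isl _ hp₂) (isr _ hq₂) (by simp [lv, rv])
    · exact g _ _ (isl _ hp₂) ish0 (by simp [lv, hub])
    · exact g _ _ ish1 (isr _ hq₁) (by simp [rv, hub])
    · exact g _ _ ish1 (isr _ hq₂) (by simp [rv, hub])
    · exact g _ _ ish1 ish0 (by simp [hub])
  refine no_K33_sets P Q pinj qinj pq S ?_ ?_
  · intro i j
    fin_cases i <;> fin_cases j
    · exact hA
    · exact K.joined_top hp₁ hq₂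
    · exact (K.conn _ (hs _ hp₁)).symm
    · exact K.joined_bot hp₂ hq₁
    · exact hB
    · exact (K.conn _ (hs _ hp₂)).symm
    · exact K.conn _ (hr _ hq₁)
    · exact K.conn _ (hr _ hq₂)
    · exact (K.conn _ hh).symm
  · intro i j k l hik hjl
    fin_cases i <;> fin_cases j <;> fin_cases k <;> fin_cases l <;>
      first
      | exact absurd rfl hik
      | exact absurd rfl hjl
      | exact hAB | exact hAB.symm
      | exact d1 | exact d1.symm | exact d2 | exact d2.symm | exact d3 | exact d3.symm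
      | exact d4 | exact d4.symm | exact d5 | exact d5.symm | exact d6 | exact d6.symm
      | exact d7 | exact d7.symm | exact d8 | exact d8.symm | exact d9 | exact d9.symm
      | exact d10 | exact d10.symm | exact d11 | exact d11.symm | exact d12 | exact d12.symm
      | exact d13 | exact d13.symm | exact d14 | exact d14.symm | exact d15 | exact d15.symm
      | exact d16 | exact d16.symm | exact d17 | exact d17.symm

/-- `x` is above `y` (on the left and on the right, if `b`; the mirror image otherwise) -/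
def Ab (b : Bool) (x y : ℕ) : Prop := if b then x < y else y < x

theorem Skel.altb (K : Skel D) (b : Bool) {p₁ p₂ q₁ q₂ : ℕ} (hp : Ab b p₁ p₂)
    (hp₁ : p₁ < 3 * N + 2) (hp₂ : p₂ < 3 * N + 2)
    (hq₁ : q₁ < 3 * N + 2) (hq₂ : q₂ < 3 * N + 2) {A B : Set Plane}
    (hA : JoinedIn A (D.pos (lv p₁)) (D.pos (rv q₁)))
    (hB : JoinedIn B (D.pos (lv p₂)) (D.pos (rv q₂))) (hAB : Disjoint A B) {V W : Set Vx}
    (hA' : K.Avoids A V) (hV : NoV V p₂ q₂) (hB' : K.Avoids B W) (hW : NoV W p₁ q₁) :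
    Ab b q₁ q₂ := by
  cases b
  · exact K.alt (by simpa [Ab] using hp) hp₁ hq₂ hq₁ hB hA hAB.symm hB' hW hA' hV
  · exact K.alt (by simpa [Ab] using hp) hp₂ hq₁ hq₂ hA hB hAB hA' hV hB' hW

end Pool.Agent.CRt
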