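import Pool.Agent.CRt.Basic

/-!
# Parametrization of paths with two segments
-/

set_option autoImplicit false

namespace Pool.Agent.CRt

open Set

theorem chordPt_zero (P : Fin 3 → Plane) : chordPt P 0 = P 0 := by simp [chordPt]

theorem chordPt_one (P : Fin 3 → Plane) : chordPt P 1 = P 1 := by simp [chordPt]

theorem chordPt_two (P : Fin 3 → Plane) : chordPt P 2 = P 2 := by
  unfold chordPt
  rw [if_neg (by norm_num)]
  norm_num

theorem continuous_chordPt (P : Fin 3 → Plane) : Continuous (chordPt P) := by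
  unfold chordPt
  refine Continuous.if_le (by fun_prop) (by fun_prop) continuous_id continuous_const ?_
  intro t ht
  subst ht
  simp

theorem chordPt_mem_left {P : Fin 3 → Plane} {t : ℝ} (h0 : 0 ≤ t) (h1 : t ≤ 1) :
    chordPt P t ∈ segment ℝ (P 0) (P 1) := by
  rw [segment_eq_image']
  refine ⟨t, ⟨h0, h1⟩, ?_⟩
  simp [chordPt, h1]

theorem chordPt_mem_right {P : Fin 3 → Plane} {t : ℝ} (h0 : 1 ≤ t) (h1 : t ≤ 2) :
    chordPt P t ∈ segment ℝ (P 1) (P 2) := by
  rw [segment_eq_image']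
  refine ⟨t - 1, ⟨by linarith, by linarith⟩, ?_⟩
  by_cases h : t ≤ 1
  · have : t = 1 := le_antisymm h h0
    subst this
    simp [chordPt]
  · simp [chordPt, h]

theorem chordPt_image (P : Fin 3 → Plane) : chordPt P '' Icc 0 2 = pathSet P := by
  rw [pathSet_two]
  ext z
  constructor
  · rintro ⟨t, ⟨h0, h2⟩, rfl⟩
    rcases le_total t 1 with h | h
    · exact Or.inl (chordPt_mem_left h0 h)
    · exact Or.inr (chordPt_mem_right h h2)
  · rintro (h | h)
    · rw [segment_eq_image'] at h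
      obtain ⟨t, ⟨h0, h1⟩, rfl⟩ := h
      refine ⟨t, ⟨h0, by linarith⟩, ?_⟩
      simp [chordPt, h1]
    · rw [segment_eq_image'] at h
      obtain ⟨t, ⟨h0, h1⟩, rfl⟩ := h
      refine ⟨t + 1, ⟨by linarith, by linarith⟩, ?_⟩
      rcases eq_or_lt_of_le h0 with h | h
      · subst h
        simp [chordPt]
      · have : ¬ t + 1 ≤ 1 := by linarith
        simp [chordPt, this]

theorem chordPt_injOn {P : Fin 3 → Plane} (hP : IsPolyPath P) : InjOn (chordPt P) (Icc 0 2) := by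
  have h01 := poly01 hP
  have h12 := poly12 hP
  -- injectivity on each half
  have inj1 : ∀ s t : ℝ, s ≤ 1 → t ≤ 1 → chordPt P s = chordPt P t → s = t := by
    intro s t hs ht h
    simp only [chordPt, hs, ht, if_true] at h
    have h2 : (s - t) • (P 1 - P 0) = 0 := by
      rw [sub_smul, sub_eq_zero]
      exact add_left_cancel h
    rcases smul_eq_zero.1 h2 with h3 | h3
    · linarith
    · exact absurd (sub_eq_zero.1 h3).symm h01
  have val2 : ∀ t : ℝ, 1 ≤ t → chordPt P t = P 1 + (t - 1) • (P 2 - P 1) := by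
    intro t ht
    rcases eq_or_lt_of_le ht with h | h
    · subst h
      simp [chordPt]
    · simp [chordPt, not_le.2 h]
  have inj2 : ∀ s t : ℝ, 1 ≤ s → 1 ≤ t → chordPt P s = chordPt P t → s = t := by
    intro s t hs ht h
    rw [val2 s hs, val2 t ht] at h
    have h2 : ((s - 1) - (t - 1)) • (P 2 - P 1) = 0 := by
      rw [sub_smul, sub_eq_zero]
      exact add_left_cancel h
    rcases smul_eq_zero.1 h2 with h3 | h3
    · linarith
    · exact absurd (sub_eq_zero.1 h3).symm h12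
  have cross : ∀ s t : ℝ, 0 ≤ s → s ≤ 1 → 1 ≤ t → t ≤ 2 → chordPt P s = chordPt P t → s = t := by
    intro s t h0 h1 h1' h2 h
    have hz := poly_simple hP (chordPt_mem_left (P := P) h0 h1)
      (by rw [h]; exact chordPt_mem_right h1' h2)
    have e1 : s = 1 := inj1 s 1 h1 le_rfl (by rw [hz, chordPt_one])
    have e2 : t = 1 := inj2 t 1 h1' le_rfl (by rw [← h, hz, chordPt_one])
    rw [e1, e2]
  intro s hs t ht h
  rcases le_total s 1 with h1 | h1 <;> rcases le_total t 1 with h2 | h2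
  · exact inj1 s t h1 h2 h
  · exact cross s t hs.1 h1 h2 ht.2 h
  · exact (cross t s ht.1 h2 h1 hs.2 h.symm).symm
  · exact inj2 s t h1 h2 h

/-- Part of an arc. -/
def arc (P : Fin 3 → Plane) (a b : ℝ) : Set Plane := chordPt P '' Icc a b

theorem joined_arc (P : Fin 3 → Plane) {a b : ℝ} (h : a ≤ b) :
    JoinedIn (arc P a b) (chordPt P a) (chordPt P b) := by
  have h1 : IsPathConnected (Icc a b) := (convex_Icc a b).isPathConnected ⟨a, le_rfl, h⟩
  have h2 : IsPathConnected (arc P a b) := h1.image (continuous_chordPt P)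
  exact h2.joinedIn _ ⟨a, ⟨le_rfl, h⟩, rfl⟩ _ ⟨b, ⟨h, le_rfl⟩, rfl⟩

theorem arc_sub {P : Fin 3 → Plane} {a b : ℝ} (ha : 0 ≤ a) (hb : b ≤ 2) :
    arc P a b ⊆ pathSet P := by
  rw [← chordPt_image]
  exact image_mono (Icc_subset_Icc ha hb)

theorem mem_arc_iff {P : Fin 3 → Plane} (hP : IsPolyPath P) {a b t : ℝ} (ha : 0 ≤ a)
    (hb : b ≤ 2) (ht : 0 ≤ t) (ht' : t ≤ 2) : chordPt P t ∈ arc P a b ↔ a ≤ t ∧ t ≤ b := by
  constructor
  · rintro ⟨s, ⟨h1, h2⟩, h⟩
    have := chordPt_injOn hP ⟨ha.trans h1, h2.trans hb⟩ ⟨ht, ht'⟩ h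
    subst this
    exact ⟨h1, h2⟩
  · rintro ⟨h1, h2⟩
    exact ⟨t, ⟨h1, h2⟩, rfl⟩

theorem exists_param {P : Fin 3 → Plane} {z : Plane} (hz : z ∈ pathSet P) :
    ∃ t, 0 ≤ t ∧ t ≤ 2 ∧ chordPt P t = z := by
  rw [← chordPt_image] at hz
  obtain ⟨t, ⟨h1, h2⟩, h⟩ := hz
  exact ⟨t, h1, h2, h⟩

end Pool.Agent.CRt
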