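import Pool.Agent.CRt.Inter

/-!
# Arithmetic intermediate problems of the reduction from `ETR` to `CR 2`
-/

set_option autoImplicit false

namespace Pool.Agent.CRt

/-! ## Systems of gates -/

/-- `(true, i, j, k)` is the equation `yᵢ yⱼ = yₖ` and `(false, i, j, k)` is `yᵢ + yⱼ = yₖ`. -/
abbrev Gate := Bool × ℕ × ℕ × ℕ

/-- The residual of a gate. -/
def resG (y : ℕ → ℝ) (g : Gate) : ℝ :=
  (if g.1 then y g.2.1 * y g.2.2.1 else y g.2.1 + y g.2.2.1) - y g.2.2.2

/-- Solvability of a system of gates (the variable `y 0` is the constant `1`). -/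
def GateSat (G : List Gate) : Prop := ∃ y : ℕ → ℝ, y 0 = 1 ∧ ∀ g ∈ G, resG y g = 0

/-- All variables of the gates have indices at most `n`. -/
def GValid (n : ℕ) (G : List Gate) : Prop := ∀ g ∈ G, g.2.1 ≤ n ∧ g.2.2.1 ≤ n ∧ g.2.2.2 ≤ n

/-- The sum of the squares of the residuals. -/
def FF (G : List Gate) (y : ℕ → ℝ) : ℝ := (G.map fun g => resG y g ^ 2).sum

/-- The sum of the sixth powers of the variables `y 1, …, y n`. -/
def NN (n : ℕ) (y : ℕ → ℝ) : ℝ := ∑ i ∈ Finset.range n, y (i + 1) ^ 6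

/-- exponents -/
def pp (n m : ℕ) : ℕ := 5 * n + m + 10
def qq (n m : ℕ) : ℕ := 8 * n + m + 20

/-- `R = 4 ^ (2 ^ p)`. -/
noncomputable def RR (n m : ℕ) : ℝ := 4 ^ 2 ^ pp n m
/-- `S = 4 R ^ 2 4 ^ (2 ^ q)`. -/
noncomputable def SS (n m : ℕ) : ℝ := 4 * RR n m ^ 2 * 4 ^ 2 ^ qq n m

/-! ## Straight-line programs

A program is a list of blocks `(a, b)`, where `a` and `b` are registers. The registers are: `0` with
value `0`, `1` with value `-1/2`, and for the block `t` the registers `3 t + 2` (input, free),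
`3 t + 3` (the product of the operands) and `3 t + 4` (with value `2 v(a) - v(b)`). -/

/-- The operands of the block `t`. -/
def opA (P : List (ℕ × ℕ)) (t : ℕ) : ℕ := (P.getD t (0, 0)).1
def opB (P : List (ℕ × ℕ)) (t : ℕ) : ℕ := (P.getD t (0, 0)).2

def SLPValid (P : List (ℕ × ℕ)) : Prop :=
  ∀ t < P.length, opA P t < 3 * t + 2 ∧ opB P t < 3 * t + 2

def SLPSat (P : List (ℕ × ℕ)) (v : ℕ → ℝ) : Prop :=
  v 0 = 0 ∧ v 1 = -1 / 2 ∧ ∀ t < P.length,
    v (3 * t + 3) = v (opA P t) * v (opB P t) ∧ v (3 * t + 4) = 2 * v (opA P t) - v (opB P t)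

/-- The operands and the inputs have absolute values less than one. -/
def SLPBdd (P : List (ℕ × ℕ)) (v : ℕ → ℝ) : Prop :=
  ∀ t < P.length, |v (opA P t)| < 1 ∧ |v (opB P t)| < 1 ∧ |v (3 * t + 2)| < 1

/-! ## The configuration of a straight-line program

Exact points of the configuration have ranks; rank `r` is represented by the four vectors with the
indices `4 r + 1, …, 4 r + 4`. Coordinates: a vector `(w, x, y)` with `w ≠ 0` is the point
`(x / w, y / w)`. The frame:
`0 : V = (0,0,-1)`, `1 : H = (0,-1,0)`, `2 : D = (0,-1,1)`, `3 : (0,0)`, `4 : (0,2)`, `5 : (0,5)`,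
`6 : (1,1)`, `7 : (1,9/2)`, `8 : (2,0)`, `9 : (2,2)`, `10 : (4,0)`, `11 : (4,1)`, `12 : (4,2)`,
`13 : (6,0)`, `14 : (6,2)`, `15 : (6,5)`. The block `t` has the ranks `16 + 26 t, …`, and its first
column has the abscissa `8 + 16 t`. A register with value `v` is a point with ordinate `5 + v`. -/

/-- A step `(s, a, b, c, d)`: the point `s` is the intersection of the lines `a b` and `c d`. -/
abbrev Step := ℕ × ℕ × ℕ × ℕ × ℕ

/-- The first rank of the block `t`. -/
def bas (t : ℕ) : ℕ := 16 + 26 * t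

/-- The rank of a register. -/
def regRank (i : ℕ) : ℕ :=
  if i = 0 then 5 else if i = 1 then 7 else
    bas ((i - 2) / 3) + (if (i - 2) % 3 = 0 then 25 else if (i - 2) % 3 = 1 then 18 else 21)

def frameSteps : List Step :=
  [(8, 1, 3, 9, 0), (4, 1, 9, 3, 0), (2, 4, 8, 1, 0), (6, 4, 8, 9, 3), (10, 2, 9, 3, 1),
   (11, 1, 6, 10, 0), (12, 1, 9, 10, 0), (5, 2, 11, 3, 0), (13, 2, 12, 3, 1), (14, 1, 9, 13, 0),
   (7, 5, 14, 6, 0), (15, 1, 5, 13, 0)]

/-- The steps of a block with first rank `r` and operands with ranks `ra`, `rb`. -/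
def blockSteps (r ra rb : ℕ) : List Step :=
  [(r, 2, r - 2, 3, 1), (r + 1, 1, 9, r, 0), (r + 2, 1, rb, r, 0),
   (r + 3, 2, r + 1, 3, 1), (r + 4, 1, 9, r + 3, 0),
   (r + 5, 2, r + 4, 3, 1), (r + 6, 1, 9, r + 5, 0), (r + 7, 1, 5, r + 5, 0),
   (r + 8, 2, r + 2, 3, 1),
   (r + 10, 2, r + 6, 3, 1), (r + 11, 1, 9, r + 10, 0), (r + 12, 1, ra, r + 10, 0),
   (r + 9, r + 7, r + 12, r + 8, 0),
   (r + 13, 2, r + 11, 3, 1), (r + 14, 1, 9, r + 13, 0), (r + 15, 1, r + 9, r + 13, 0),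
   (r + 16, 2, r + 14, 3, 1), (r + 17, 1, 9, r + 16, 0), (r + 18, r + 12, r + 15, r + 16, 0),
   (r + 19, 2, r + 17, 3, 1), (r + 20, 1, 9, r + 19, 0), (r + 21, r + 2, r + 12, r + 19, 0),
   (r + 23, 2, r + 20, 3, 1), (r + 24, 1, 9, r + 23, 0), (r + 25, 1, r + 22, r + 23, 0)]

/-- All steps of the configuration of a program. -/
def allSteps (P : List (ℕ × ℕ)) : List Step :=
  frameSteps ++ (List.range P.length).flatMap fun t =>
    blockSteps (bas t) (regRank (opA P t)) (regRank (opB P t))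

/-- Triples of exact points which are required to be positively oriented. -/
def sides (P : List (ℕ × ℕ)) (out : ℕ) : List (ℕ × ℕ × ℕ) :=
  [(1, 0, 3), (1, 0, 9), (3, 0, 9), (1, 3, 9), (1, 0, 5), (1, 0, regRank out),
    (5, 1, regRank out)] ++ (List.range P.length).map fun t => (1, 0, bas t + 22)

/-- The indices of the representatives of the point with rank `r`. -/
def repsOf (r : ℕ) : List ℕ := [4 * r + 1, 4 * r + 2, 4 * r + 3, 4 * r + 4]

/-- The representatives of `s` lie in the four quadrants of the lines `a b` and `c d`. -/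
def stepCons (s : Step) : List (ℕ × ℕ × ℕ) :=
  (List.range 4).flatMap fun q =>
    ((repsOf s.2.1).flatMap fun i => (repsOf s.2.2.1).map fun j =>
      if 2 ≤ q then (i, j, 4 * s.1 + 1 + q) else (j, i, 4 * s.1 + 1 + q)) ++
    ((repsOf s.2.2.2.1).flatMap fun i => (repsOf s.2.2.2.2).map fun j =>
      if q % 2 = 1 then (i, j, 4 * s.1 + 1 + q) else (j, i, 4 * s.1 + 1 + q))

def sideCons (c : ℕ × ℕ × ℕ) : List (ℕ × ℕ × ℕ) :=
  (repsOf c.1).flatMap fun i => (repsOf c.2.1).flatMap fun j => (repsOf c.2.2).map fun k =>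
    (i, j, k)

/-- The triples of the instance of `PCH`. -/
def slpCons (P : List (ℕ × ℕ)) (out : ℕ) : List (ℕ × ℕ × ℕ) :=
  (allSteps P).flatMap stepCons ++ (sides P out).flatMap sideCons

/-- The number of the vectors. -/
def slpN (P : List (ℕ × ℕ)) : ℕ := 4 * bas P.length

end Pool.Agent.CRt
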