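import Pool.Agent.CRt.Topo

/-!
# Basic facts on drawings with one bend per edge
-/

set_option autoImplicit false

namespace Pool.Agent.CRt

open Set

theorem pathSet_two (P : Fin 3 → Plane) :
    pathSet P = segment ℝ (P 0) (P 1) ∪ segment ℝ (P 1) (P 2) := by
  ext z
  simp only [pathSet, mem_iUnion, mem_union]
  constructor
  · rintro ⟨i, hi⟩
    fin_cases i
    · exact Or.inl hi
    · exact Or.inr hi
  · rintro (h | h)
    · exact ⟨0, h⟩
    · exact ⟨1, h⟩

theorem poly01 {P : Fin 3 → Plane} (h : IsPolyPath P) : P 0 ≠ P 1 := h.ne 0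

theorem poly12 {P : Fin 3 → Plane} (h : IsPolyPath P) : P 1 ≠ P 2 := h.ne 1

theorem poly_simple {P : Fin 3 → Plane} (h : IsPolyPath P) {z : Plane}
    (h1 : z ∈ segment ℝ (P 0) (P 1)) (h2 : z ∈ segment ℝ (P 1) (P 2)) : z = P 1 :=
  (h.simple 0 1 (by decide) z ⟨h1, h2⟩).2

theorem poly02 {P : Fin 3 → Plane} (h : IsPolyPath P) : P 0 ≠ P 2 := by
  intro h02
  have h1 : P 0 ∈ segment ℝ (P 0) (P 1) := left_mem_segment ℝ _ _
  have h2 : P 0 ∈ segment ℝ (P 1) (P 2) := by
    rw [h02]; exact right_mem_segment ℝ _ _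
  exact poly01 h (poly_simple h h1 h2)

theorem isPolyPath_iff {P : Fin 3 → Plane} : IsPolyPath P ↔ P 0 ≠ P 1 ∧ P 1 ≠ P 2 ∧
    ∀ z, z ∈ segment ℝ (P 0) (P 1) → z ∈ segment ℝ (P 1) (P 2) → z = P 1 := by
  constructor
  · intro h
    exact ⟨poly01 h, poly12 h, fun z h1 h2 => poly_simple h h1 h2⟩
  · rintro ⟨h1, h2, h3⟩
    refine ⟨?_, ?_⟩
    · intro i
      fin_cases i
      · exact h1
      · exact h2
    · intro i j hij z hz
      fin_cases i <;> fin_cases j
      · exact absurd hij (by decide)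
      · exact ⟨rfl, h3 z hz.1 hz.2⟩
      · exact absurd hij (by decide)
      · exact absurd hij (by decide)

theorem endpoint_not_open {P : Fin 3 → Plane} (h : IsPolyPath P) {z : Plane}
    (hz : z = P 0 ∨ z = P 2) (i : Fin 2) : z ∉ openSegment ℝ (P i.castSucc) (P i.succ) := by
  intro ho
  have ne_left : ∀ {a b : Plane}, a ≠ b → a ∉ openSegment ℝ a b := by
    intro a b hab hm
    rw [left_mem_openSegment_iff] at hm
    exact hab hm
  have ne_right : ∀ {a b : Plane}, a ≠ b → b ∉ openSegment ℝ a b := by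
    intro a b hab hm
    rw [right_mem_openSegment_iff] at hm
    exact hab hm
  fin_cases i
  · have ho' : z ∈ openSegment ℝ (P 0) (P 1) := ho
    rcases hz with rfl | rfl
    · exact ne_left (poly01 h) ho'
    · have := poly_simple h (openSegment_subset_segment ℝ _ _ ho') (right_mem_segment ℝ _ _)
      exact poly12 h this.symm
  · have ho' : z ∈ openSegment ℝ (P 1) (P 2) := ho
    rcases hz with rfl | rfl
    · have := poly_simple h (left_mem_segment ℝ _ _) (openSegment_subset_segment ℝ _ _ ho')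
      exact poly01 h this
    · exact ne_right (poly12 h) ho'

/-! ### Endpoints -/

section
variable {Es : List (Vx × Vx)} (D : LDraw Es)

/-- The point set of an edge. -/
def LDraw.S (d : Vx × Vx) : Set Plane := pathSet (dpath D.pos D.bend d)

/-- `v` is an endpoint of `d` -/
def EndOf (v : Vx) (d : Vx × Vx) : Prop := v = d.1 ∨ v = d.2

theorem dpath_zero (pos : Vx → Plane) (bend : Vx × Vx → Plane) (d : Vx × Vx) :
    dpath pos bend d 0 = pos d.1 := rfl

theorem dpath_one (pos : Vx → Plane) (bend : Vx × Vx → Plane) (d : Vx × Vx) :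
    dpath pos bend d 1 = bend d := rfl

theorem dpath_two (pos : Vx → Plane) (bend : Vx × Vx → Plane) (d : Vx × Vx) :
    dpath pos bend d 2 = pos d.2 := rfl

variable {D}

theorem LDraw.S_eq (d : Vx × Vx) :
    D.S d = segment ℝ (D.pos d.1) (D.bend d) ∪ segment ℝ (D.bend d) (D.pos d.2) :=
  pathSet_two _

theorem LDraw.end_mem {v : Vx} {d : Vx × Vx} (h : EndOf v d) : D.pos v ∈ D.S d := by
  rw [LDraw.S_eq]
  rcases h with rfl | rfl
  · exact Or.inl (left_mem_segment ℝ _ _)
  · exact Or.inr (right_mem_segment ℝ _ _)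

theorem LDraw.ends_ne {d : Vx × Vx} (hd : d ∈ Es) : D.pos d.1 ≠ D.pos d.2 :=
  poly02 (D.arcs d hd)

theorem LDraw.ends_inj {d : Vx × Vx} (hd : d ∈ Es) {u v : Vx} (hu : EndOf u d) (hv : EndOf v d)
    (h : D.pos u = D.pos v) : u = v := by
  have := D.ends_ne hd
  rcases hu with rfl | rfl <;> rcases hv with rfl | rfl
  · rfl
  · exact absurd h this
  · exact absurd h.symm this
  · rfl

theorem LDraw.not_proper {d : Vx × Vx} (hd : d ∈ Es) {v : Vx} (hv : EndOf v d)
    {Q : Fin 3 → Plane} : ¬ ProperAt (dpath D.pos D.bend d) Q (D.pos v) := by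
  rintro ⟨i, j, h1, -, -⟩
  refine endpoint_not_open (D.arcs d hd) ?_ i h1
  rcases hv with rfl | rfl
  · exact Or.inl rfl
  · exact Or.inr rfl

/-- A vertex point on an edge is the point of an endpoint. -/
theorem LDraw.avoid {d dv : Vx × Vx} (hd : d ∈ Es) (hdv : dv ∈ Es) {v : Vx} (hv : EndOf v dv)
    (h : D.pos v ∈ D.S d) : EndOf v d := by
  by_cases hdd : dv = d
  · rw [← hdd]; exact hv
  rcases D.inter dv hdv d hd hdd (D.pos v) ⟨D.end_mem hv, h⟩ with ⟨w, h1, h2, h3⟩ | h1
  · have : v = w := D.ends_inj hdv hv h1 h3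
    rw [this]
    exact h2
  · exact absurd h1 (D.not_proper hdv hv)

theorem LDraw.pos_inj {du dv : Vx × Vx} (hdu : du ∈ Es) (hdv : dv ∈ Es) {u v : Vx}
    (hu : EndOf u du) (hv : EndOf v dv) (h : D.pos u = D.pos v) : u = v := by
  have h1 : D.pos v ∈ D.S du := by rw [← h]; exact D.end_mem hu
  exact D.ends_inj hdu hu (D.avoid hdu hdv hv h1) h

theorem LDraw.joined (d : Vx × Vx) : JoinedIn (D.S d) (D.pos d.1) (D.pos d.2) := by
  rw [LDraw.S_eq]
  refine JoinedIn.trans (y := D.bend d) ?_ ?_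
  · exact JoinedIn.of_segment_subset subset_union_left
  · exact JoinedIn.of_segment_subset subset_union_right

end

end Pool.Agent.CRt
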