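import Pool.Agent.CRt.Pappus

/-!
# From families of one-bend paths for the copies to a partial chirotope
-/

set_option autoImplicit false
set_option maxHeartbeats 4000000

namespace Pool.Agent.CRt

open Set

/-! ### Membership in `copyTriples` -/

theorem mem_allC {a : ℕ × ℕ × ℕ} : a ∈ allC ↔ a.1 < 8 ∧ a.2.1 < 8 ∧ a.2.2 < 8 := by
  obtain ⟨x, y, z⟩ := a
  simp only [allC, List.mem_flatMap, List.mem_map, List.mem_range, Prod.mk.injEq]
  constructor
  · rintro ⟨a, ha, b, hb, c, hc, rfl, rfl, rfl⟩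
    exact ⟨ha, hb, hc⟩
  · rintro ⟨ha, hb, hc⟩
    exact ⟨x, ha, y, hb, z, hc, rfl, rfl, rfl⟩

theorem mem_copyTriples {n : ℕ} {T : List (ℕ × ℕ × ℕ)} {x : STriple} :
    x ∈ copyTriples n T ↔
    (∃ k ≤ n, ∃ j < k, 0 < j ∧ ∃ a < 8, ∃ b < 8, ∃ c < 8, x = (a, 8 * j + b, 8 * k + c, true)) ∨
    (∃ t ∈ T, ∃ a < 8, ∃ b < 8, ∃ c < 8, x = (8 * (sortT t).1 + a, 8 * (sortT t).2.1 + b,
      8 * (sortT t).2.2.1 + c, (sortT t).2.2.2)) ∨
    (∃ i ≤ n, ∃ p ∈ pat, x = (8 * i + p.1, 8 * i + p.2.1, 8 * i + p.2.2.1, p.2.2.2)) ∨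
    (∃ j ≤ n, ∃ i < j, ∃ a < 8, ∃ b < 8, ∃ c < 8, a < b ∧
      (x = (8 * i + a, 8 * i + b, 8 * j + c, false) ∨
        x = (8 * i + c, 8 * j + a, 8 * j + b, true))) := by
  simp only [copyTriples, List.mem_append, List.mem_flatMap, List.mem_map, List.mem_range,
    or_assoc]
  refine or_congr ?_ (or_congr ?_ (or_congr ?_ ?_))
  · constructor
    · rintro ⟨k, hk, j, hj, h⟩
      split_ifs at h with h0
      · rw [List.mem_map] at h
        obtain ⟨a, ha, rfl⟩ := h
        obtain ⟨h1, h2, h3⟩ := mem_allC.1 ha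
        exact ⟨k, by omega, j, hj, h0, _, h1, _, h2, _, h3, rfl⟩
      · simp at h
    · rintro ⟨k, hk, j, hj, h0, a, ha, b, hb, c, hc, rfl⟩
      refine ⟨k, by omega, j, hj, ?_⟩
      rw [if_pos h0, List.mem_map]
      exact ⟨(a, b, c), mem_allC.2 ⟨ha, hb, hc⟩, rfl⟩
  · constructor
    · rintro ⟨t, ht, a, ha, rfl⟩
      obtain ⟨h1, h2, h3⟩ := mem_allC.1 ha
      exact ⟨t, ht, _, h1, _, h2, _, h3, rfl⟩
    · rintro ⟨t, ht, a, ha, b, hb, c, hc, rfl⟩
      exact ⟨t, ht, (a, b, c), mem_allC.2 ⟨ha, hb, hc⟩, rfl⟩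
  · constructor
    · rintro ⟨i, hi, p, hp, rfl⟩
      exact ⟨i, by omega, p, hp, rfl⟩
    · rintro ⟨i, hi, p, hp, rfl⟩
      exact ⟨i, by omega, p, hp, rfl⟩
  · constructor
    · rintro ⟨j, hj, i, hi, a, ha, h⟩
      obtain ⟨h1, h2, h3⟩ := mem_allC.1 ha
      split_ifs at h with h0
      · simp only [List.mem_cons, List.not_mem_nil, or_false] at h
        exact ⟨j, by omega, i, hi, _, h1, _, h2, _, h3, h0, h⟩
      · simp at h
    · rintro ⟨j, hj, i, hi, a, ha, b, hb, c, hc, hab, h⟩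
      refine ⟨j, by omega, i, hi, (a, b, c), mem_allC.2 ⟨ha, hb, hc⟩, ?_⟩
      rw [if_pos (by exact hab)]
      simp only [List.mem_cons, List.not_mem_nil, or_false]
      exact h

theorem sortT_sorted {c : ℕ × ℕ × ℕ} (h1 : c.1 ≠ c.2.1) (h2 : c.1 ≠ c.2.2)
    (h3 : c.2.1 ≠ c.2.2) : (sortT c).1 < (sortT c).2.1 ∧ (sortT c).2.1 < (sortT c).2.2.1 := by
  obtain ⟨i, j, k⟩ := c
  simp only at h1 h2 h3
  simp only [sortT]
  split_ifs <;> simp only <;> omega

theorem sortT_mem {c : ℕ × ℕ × ℕ} {Q : ℕ → Prop} (h1 : Q c.1) (h2 : Q c.2.1) (h3 : Q c.2.2) :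
    Q (sortT c).1 ∧ Q (sortT c).2.1 ∧ Q (sortT c).2.2.1 := by
  obtain ⟨i, j, k⟩ := c
  simp only at h1 h2 h3
  simp only [sortT]
  split_ifs <;> exact ⟨by assumption, by assumption, by assumption⟩

theorem sortT_D3 (v : ℕ → V3) (c : ℕ × ℕ × ℕ) : D3 (v c.1) (v c.2.1) (v c.2.2) =
    (if (sortT c).2.2.2 then 1 else -1) *
      D3 (v (sortT c).1) (v (sortT c).2.1) (v (sortT c).2.2.1) := by
  obtain ⟨i, j, k⟩ := c
  by_cases h1 : i < j <;> by_cases h2 : j < k <;> by_cases h3 : i < k <;>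
    simp [sortT, h1, h2, h3] <;> unfold D3 <;> ring

theorem pat_lt : ∀ p ∈ pat, p.1 < p.2.1 ∧ p.2.1 < p.2.2.1 ∧ p.2.2.1 < 8 := by decide

theorem copy_valid {n : ℕ} {T : List (ℕ × ℕ × ℕ)} (hT : TValid n T) :
    SValid (8 * (n + 1)) (copyTriples n T) := by
  intro x hx
  rcases mem_copyTriples.1 hx with ⟨k, hk, j, hj, h0, a, ha, b, hb, c, hc, rfl⟩ |
    ⟨t, ht, a, ha, b, hb, c, hc, rfl⟩ | ⟨i, hi, p, hp, rfl⟩ |
    ⟨j, hj, i, hi, a, ha, b, hb, c, hc, hab, rfl | rfl⟩
  · simp only; omega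
  · obtain ⟨t1, t2, t3, t4, t5, t6, t7, t8, t9⟩ := hT t ht
    have s1 := sortT_sorted t7 t8 t9
    have s2 := sortT_mem (c := t) (Q := fun i => i ≤ n) t4 t5 t6
    simp only
    omega
  · have := pat_lt p hp
    simp only
    omega
  · simp only; omega
  · simp only; omega

/-! ### The theorem -/

theorem chord_pch {n : ℕ} {T : List (ℕ × ℕ × ℕ)} (hT : TValid n T)
    (h : ChordReal (8 * (n + 1)) (copyTriples n T)) : PCH n T := by
  classical
  obtain ⟨P, τ, hτ, hc⟩ := h
  -- first segments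
  have first : ∀ x y, x < 8 * (n + 1) → y < 8 * (n + 1) → x ≠ y → τ x y < 1 → τ y x < 1 →
      P x 0 + τ x y • (P x 1 - P x 0) = P y 0 + τ y x • (P y 1 - P y 0) ∧
      det2 (P x 1 - P x 0) (P y 1 - P y 0) ≠ 0 := by
    intro x y hx hy hxy h1 h2
    obtain ⟨a1, a2, a3, a4⟩ := hτ x y hx hy hxy
    obtain ⟨b1, b2, -, -⟩ := hτ y x hy hx hxy.symm
    have e : P x 0 + τ x y • (P x 1 - P x 0) = P y 0 + τ y x • (P y 1 - P y 0) := by
      have := a3
      unfold chordPt at this
      rw [if_pos h1.le, if_pos h2.le] at this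
      exact this
    refine ⟨e, not_parallel e (δ := min (min (τ x y) (1 - τ x y)) (min (τ y x) (1 - τ y x)))
      (by simp only [lt_min_iff]; exact ⟨⟨a1, by linarith⟩, ⟨b1, by linarith⟩⟩) ?_⟩
    intro s' t' hs ht hst
    simp only [lt_min_iff, abs_lt] at hs ht
    obtain ⟨⟨⟨q1, q2⟩, ⟨q3, q4⟩⟩, -⟩ := hs
    obtain ⟨-, ⟨q5, q6⟩, ⟨q7, q8⟩⟩ := ht
    refine a4 s' t' (by linarith) (by linarith) (by linarith) (by linarith) ?_
    unfold chordPt
    rw [if_pos (by linarith), if_pos (by linarith)]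
    exact hst
  -- second segments
  have second : ∀ x y, x < 8 * (n + 1) → y < 8 * (n + 1) → x ≠ y → 1 < τ x y → 1 < τ y x →
      P x 1 + (τ x y - 1) • (P x 2 - P x 1) = P y 1 + (τ y x - 1) • (P y 2 - P y 1) ∧
      det2 (P x 2 - P x 1) (P y 2 - P y 1) ≠ 0 := by
    intro x y hx hy hxy h1 h2
    obtain ⟨a1, a2, a3, a4⟩ := hτ x y hx hy hxy
    obtain ⟨b1, b2, -, -⟩ := hτ y x hy hx hxy.symm
    have e : P x 1 + (τ x y - 1) • (P x 2 - P x 1) =
        P y 1 + (τ y x - 1) • (P y 2 - P y 1) := by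
      have := a3
      unfold chordPt at this
      rw [if_neg (not_le.2 h1), if_neg (not_le.2 h2)] at this
      exact this
    refine ⟨e, not_parallel e
      (δ := min (min (τ x y - 1) (2 - τ x y)) (min (τ y x - 1) (2 - τ y x)))
      (by simp only [lt_min_iff]
          exact ⟨⟨by linarith, by linarith⟩, ⟨by linarith, by linarith⟩⟩) ?_⟩
    intro s' t' hs ht hst
    simp only [lt_min_iff, abs_lt] at hs ht
    obtain ⟨⟨⟨q1, q2⟩, ⟨q3, q4⟩⟩, -⟩ := hs
    obtain ⟨-, ⟨q5, q6⟩, ⟨q7, q8⟩⟩ := ht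
    have := a4 (s' + 1) (t' + 1) (by linarith) (by linarith) (by linarith) (by linarith) (by
      unfold chordPt
      rw [if_neg (by linarith), if_neg (by linarith), add_sub_cancel_right, add_sub_cancel_right]
      exact hst)
    exact ⟨by linarith [this.1], by linarith [this.2]⟩
  -- in every bundle some copy is straight up to its first crossing with another copy
  have bundle : ∀ i ≤ n, ∃ a < 8, ∃ b < 8, a ≠ b ∧ τ (8 * i + a) (8 * i + b) ≤ 1 := by
    intro i hi
    by_contra hcon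
    push Not at hcon
    have hb : ∀ a b, a < 8 → b < 8 → a ≠ b → 1 < τ (8 * i + a) (8 * i + b) :=
      fun a b ha hb hab => hcon a ha b hb hab
    have sec : ∀ a b, a < 8 → b < 8 → a ≠ b → _ := fun a b ha hb' hab =>
      second (8 * i + a) (8 * i + b) (by omega) (by omega) (by omega) (hb a b ha hb' hab)
        (hb b a hb' ha hab.symm)
    set v : ℕ → V3 := fun a => lvec (P (8 * i + a) 1) (P (8 * i + a) 2 - P (8 * i + a) 1) with hv
    set d : ℕ → Plane := fun a => P (8 * i + a) 2 - P (8 * i + a) 1 with hd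
    have tri : ∀ p ∈ pat, 0 < det2 (d p.1) (d p.2.1) * det2 (d p.1) (d p.2.2.1) ∧
        0 < det2 (d p.1) (d p.2.1) * det2 (d p.2.1) (d p.2.2.1) ∧
        0 < det2 (d p.1) (d p.2.2.1) * det2 (d p.2.1) (d p.2.2.1) ∧
        if p.2.2.2 then 0 < D3 (v p.1) (v p.2.1) (v p.2.2.1)
        else D3 (v p.1) (v p.2.1) (v p.2.2.1) < 0 := by
      intro p hp
      obtain ⟨l1, l2, l3⟩ := pat_lt p hp
      have hm := hc (8 * i + p.1, 8 * i + p.2.1, 8 * i + p.2.2.1, p.2.2.2)
        (mem_copyTriples.2 (Or.inr (Or.inr (Or.inl ⟨i, hi, p, hp, rfl⟩))))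
      simp only at hm
      obtain ⟨e12, n12⟩ := sec p.1 p.2.1 (by omega) (by omega) (by omega)
      obtain ⟨e13, n13⟩ := sec p.1 p.2.2.1 (by omega) (by omega) (by omega)
      obtain ⟨e23, n23⟩ := sec p.2.1 p.2.2.1 (by omega) (by omega) (by omega)
      refine tri_sign e12 e13 e23 n12 n13 n23 p.2.2.2 ?_
      split_ifs at hm ⊢
      · exact ⟨by linarith [hm.1], by linarith [hm.2.1], by linarith [hm.2.2]⟩
      · exact ⟨by linarith [hm.1], by linarith [hm.2.1], by linarith [hm.2.2]⟩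
    -- the signs of all the determinants are equal
    have t2 := tri (0, 1, 2, true) (by decide)
    have t3 := tri (0, 1, 3, true) (by decide)
    have t4 := tri (0, 1, 4, true) (by decide)
    have t5 := tri (0, 1, 5, true) (by decide)
    have t6 := tri (0, 1, 6, true) (by decide)
    have t7 := tri (0, 1, 7, true) (by decide)
    have s34 := tri (0, 3, 4, true) (by decide)
    have s27 := tri (0, 2, 7, false) (by decide)
    have s56 := tri (0, 5, 6, true) (by decide)
    have u25 := tri (1, 2, 5, true) (by decide)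
    have u36 := tri (1, 3, 6, false) (by decide)
    have u47 := tri (1, 4, 7, true) (by decide)
    have w23 := tri (0, 2, 3, false) (by decide)
    have w45 := tri (0, 4, 5, true) (by decide)
    have w67 := tri (0, 6, 7, false) (by decide)
    simp only [if_true, Bool.false_eq_true, if_false] at t2 t3 t4 t5 t6 t7 s34 s27 s56
    simp only [if_true, Bool.false_eq_true, if_false] at u25 u36 u47 w23 w45 w67
    -- orientation vector
    have nz : det2 (d 0) (d 1) ≠ 0 := (sec 0 1 (by norm_num) (by norm_num) (by norm_num)).2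
    set s : ℝ := det2 (d 0) (d 1) with hs
    have hw : ∀ a b, D3 ((0, 0, s) : V3) (v a) (v b) = s * det2 (d a) (d b) := by
      intro a b
      simp only [hv, hd]
      unfold D3 lvec det2
      ring
    have ss : 0 < s * s := mul_self_pos.2 nz
    have pos_of : ∀ {x y : ℝ}, 0 < s * x → 0 < x * y → 0 < s * y := by
      intro x y h1 h2
      rcases lt_or_gt_of_ne nz with hs' | hs'
      · have hx : x < 0 := by
          by_contra hx
          have := mul_nonpos_of_nonpos_of_nonneg hs'.le (not_lt.1 hx)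
          linarith
        have hy : y < 0 := by
          by_contra hy
          have := mul_nonpos_of_nonpos_of_nonneg hx.le (not_lt.1 hy)
          linarith
        exact mul_pos_of_neg_of_neg hs' hy
      · have hx : 0 < x := (pos_iff_pos_of_mul_pos h1).1 hs'
        have hy : 0 < y := (pos_iff_pos_of_mul_pos h2).1 hx
        exact mul_pos hs' hy
    have p0 : ∀ a, 2 ≤ a → a < 8 → 0 < s * det2 (d 0) (d a) := by
      intro a h2 h8
      interval_cases a
      · exact t2.1
      · exact t3.1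
      · exact t4.1
      · exact t5.1
      · exact t6.1
      · exact t7.1
    have p1 : ∀ a, 2 ≤ a → a < 8 → 0 < s * det2 (d 1) (d a) := by
      intro a h2 h8
      interval_cases a
      · exact t2.2.1
      · exact t3.2.1
      · exact t4.2.1
      · exact t5.2.1
      · exact t6.2.1
      · exact t7.2.1
    refine no_pappus v (0, 0, s) ?_ ?_ ?_ ?_ ?_ ?_ ?_ s34.2.2.2 s27.2.2.2 s56.2.2.2 u25.2.2.2
      u36.2.2.2 u47.2.2.2
    · rw [hw]; exact ss
    · intro a h2 h8
      rw [hw]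
      exact p0 a h2 h8
    · intro a h2 h8
      rw [hw]
      exact p1 a h2 h8
    · rw [hw]
      exact pos_of (p0 2 (by norm_num) (by norm_num)) w23.2.1
    · rw [hw]
      exact pos_of (p0 4 (by norm_num) (by norm_num)) w45.2.1
    · rw [hw]
      exact pos_of (p0 6 (by norm_num) (by norm_num)) w67.2.1
    · intro a h2 h8
      interval_cases a
      · exact t2.2.2.2
      · exact t3.2.2.2
      · exact t4.2.2.2
      · exact t5.2.2.2
      · exact t6.2.2.2
      · exact t7.2.2.2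
  -- the selected copy of every line
  have hsel : ∀ i, ∃ a, a < 8 ∧ (i ≤ n → ∃ b < 8, a ≠ b ∧ τ (8 * i + a) (8 * i + b) ≤ 1) := by
    intro i
    by_cases hi : i ≤ n
    · obtain ⟨a, ha, b, hb, hab, h1⟩ := bundle i hi
      exact ⟨a, ha, fun _ => ⟨b, hb, hab, h1⟩⟩
    · exact ⟨0, by norm_num, fun h => absurd h hi⟩
  choose sel hsel8 hselb using hsel
  have hlt : ∀ i j, i ≤ n → j ≤ n → i ≠ j → ∀ c < 8,
      τ (8 * i + sel i) (8 * j + c) < 1 := by
    intro i j hi hj hij c hc8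
    obtain ⟨b, hb, hab, h1⟩ := hselb i hi
    have ha := hsel8 i
    rcases lt_or_gt_of_ne hij with hlt | hgt
    · rcases lt_or_gt_of_ne hab with h3 | h3
      · have hm := hc (8 * i + sel i, 8 * i + b, 8 * j + c, false) (mem_copyTriples.2
          (Or.inr (Or.inr (Or.inr ⟨j, hj, i, hlt, _, ha, _, hb, _, hc8, h3, Or.inl rfl⟩))))
        simp only [Bool.false_eq_true, if_false] at hm
        linarith [hm.1]
      · have hm := hc (8 * i + b, 8 * i + sel i, 8 * j + c, false) (mem_copyTriples.2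
          (Or.inr (Or.inr (Or.inr ⟨j, hj, i, hlt, _, hb, _, ha, _, hc8, h3, Or.inl rfl⟩))))
        simp only [Bool.false_eq_true, if_false] at hm
        linarith [hm.2.1]
    · rcases lt_or_gt_of_ne hab with h3 | h3
      · have hm := hc (8 * j + c, 8 * i + sel i, 8 * i + b, true) (mem_copyTriples.2
          (Or.inr (Or.inr (Or.inr ⟨i, hi, j, hgt, _, ha, _, hb, _, hc8, h3, Or.inr rfl⟩))))
        simp only [if_true] at hm
        linarith [hm.2.1]
      · have hm := hc (8 * j + c, 8 * i + b, 8 * i + sel i, true) (mem_copyTriples.2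
          (Or.inr (Or.inr (Or.inr ⟨i, hi, j, hgt, _, hb, _, ha, _, hc8, h3, Or.inr rfl⟩))))
        simp only [if_true] at hm
        linarith [hm.2.2]
  set X : ℕ → ℕ := fun i => 8 * i + sel i with hX
  have main : ∀ i j k, i < j → j < k → k ≤ n → ∀ σ : Bool,
      (X i, X j, X k, σ) ∈ copyTriples n T →
      if σ then 0 < D3 (lvec (P (X i) 0) (P (X i) 1 - P (X i) 0))
        (lvec (P (X j) 0) (P (X j) 1 - P (X j) 0)) (lvec (P (X k) 0) (P (X k) 1 - P (X k) 0))
      else D3 (lvec (P (X i) 0) (P (X i) 1 - P (X i) 0))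
        (lvec (P (X j) 0) (P (X j) 1 - P (X j) 0))
        (lvec (P (X k) 0) (P (X k) 1 - P (X k) 0)) < 0 := by
    intro i j k hij hjk hk σ hmem
    have hm := hc _ hmem
    simp only at hm
    have hXlt : ∀ i ≤ n, X i < 8 * (n + 1) := by
      intro i hi
      have := hsel8 i
      simp only [hX]
      omega
    have hXne : ∀ i j, i < j → X i ≠ X j := by
      intro i j hij
      have := hsel8 i
      have := hsel8 j
      simp only [hX]
      omega
    obtain ⟨e12, n12⟩ := first (X i) (X j) (hXlt i (by omega)) (hXlt j (by omega)) (hXne i j hij)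
      (hlt i j (by omega) (by omega) (by omega) _ (hsel8 j))
      (hlt j i (by omega) (by omega) (by omega) _ (hsel8 i))
    obtain ⟨e13, n13⟩ := first (X i) (X k) (hXlt i (by omega)) (hXlt k (by omega))
      (hXne i k (by omega)) (hlt i k (by omega) (by omega) (by omega) _ (hsel8 k))
      (hlt k i (by omega) (by omega) (by omega) _ (hsel8 i))
    obtain ⟨e23, n23⟩ := first (X j) (X k) (hXlt j (by omega)) (hXlt k (by omega))
      (hXne j k hjk) (hlt j k (by omega) (by omega) (by omega) _ (hsel8 k))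
      (hlt k j (by omega) (by omega) (by omega) _ (hsel8 j))
    exact (tri_sign e12 e13 e23 n12 n13 n23 σ hm).2.2.2
  refine ⟨fun i => lvec (P (X i) 0) (P (X i) 1 - P (X i) 0), ?_, ?_⟩
  · intro j k hj hjk hk
    have := main 0 j k hj hjk hk true (mem_copyTriples.2 (Or.inl ⟨k, hk, j, hjk, hj, sel 0,
      hsel8 0, sel j, hsel8 j, sel k, hsel8 k, by simp [hX]⟩))
    simpa using this
  · intro c hcT
    obtain ⟨t1, t2, t3, t4, t5, t6, t7, t8, t9⟩ := hT c hcT
    have s1 := sortT_sorted t7 t8 t9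
    have s2 := sortT_mem (c := c) (Q := fun i => i ≤ n) t4 t5 t6
    have := main (sortT c).1 (sortT c).2.1 (sortT c).2.2.1 s1.1 s1.2 s2.2.2 (sortT c).2.2.2
      (mem_copyTriples.2 (Or.inr (Or.inl ⟨c, hcT, _, hsel8 _, _, hsel8 _, _, hsel8 _, rfl⟩)))
    have e := sortT_D3 (fun i => lvec (P (X i) 0) (P (X i) 1 - P (X i) 0)) c
    simp only at e ⊢
    rw [e]
    split_ifs at this ⊢ with h0
    · simpa [h0] using this
    · simp only [neg_mul, one_mul, Left.neg_pos_iff]
      simpa [h0] using this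

end Pool.Agent.CRt
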