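import Pool.Agent.CRt.ConfPert

/-!
# The exact configuration of a straight-line program: completeness
-/

set_option autoImplicit false
set_option linter.unusedSimpArgs false

namespace Pool.Agent.CRt.Cf

open Filter Topology

/-- The points of the frame. -/
noncomputable def framePt : ℕ → V3
  | 0 => (0, 0, -1)
  | 1 => (0, -1, 0)
  | 2 => (0, -1, 1)
  | 3 => (1, 0, 0)
  | 4 => (1, 0, 2)
  | 5 => (1, 0, 5)
  | 6 => (1, 1, 1)
  | 7 => (1, 1, 9 / 2)
  | 8 => (1, 2, 0)
  | 9 => (1, 2, 2)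
  | 10 => (1, 4, 0)
  | 11 => (1, 4, 1)
  | 12 => (1, 4, 2)
  | 13 => (1, 6, 0)
  | 14 => (1, 6, 2)
  | _ => (1, 6, 5)

/-- The points of a block. -/
noncomputable def blockPt (X a b z : ℝ) : ℕ → V3
  | 0 => (1, X, 0)
  | 1 => (1, X, 2)
  | 2 => (1, X, 5 + b)
  | 3 => (1, X + 2, 0)
  | 4 => (1, X + 2, 2)
  | 5 => (1, X + 4, 0)
  | 6 => (1, X + 4, 2)
  | 7 => (1, X + 4, 5)
  | 8 => (1, X + 5 + b, 0)
  | 9 => (1, X + 5 + b, 5 + a * (1 + b) / 2)
  | 10 => (1, X + 6, 0)
  | 11 => (1, X + 6, 2)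
  | 12 => (1, X + 6, 5 + a)
  | 13 => (1, X + 8, 0)
  | 14 => (1, X + 8, 2)
  | 15 => (1, X + 8, 5 + a * (1 + b) / 2)
  | 16 => (1, X + 10, 0)
  | 17 => (1, X + 10, 2)
  | 18 => (1, X + 10, 5 + a * b)
  | 19 => (1, X + 12, 0)
  | 20 => (1, X + 12, 2)
  | 21 => (1, X + 12, 5 + (2 * a - b))
  | 22 => (1, X + 13, 5 + z)
  | 23 => (1, X + 14, 0)
  | 24 => (1, X + 14, 2)
  | _ => (1, X + 14, 5 + z)

/-- The exact configuration of a program with register values `v`. -/
noncomputable def exactPt (P : List (ℕ × ℕ)) (v : ℕ → ℝ) (r : ℕ) : V3 :=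
  if r < 16 then framePt r else
    blockPt (8 + 16 * (((r - 16) / 26 : ℕ) : ℝ)) (v (opA P ((r - 16) / 26)))
      (v (opB P ((r - 16) / 26))) (v (3 * ((r - 16) / 26) + 2)) ((r - 16) % 26)

theorem exactPt_frame (P : List (ℕ × ℕ)) (v : ℕ → ℝ) {r : ℕ} (h : r < 16) :
    exactPt P v r = framePt r := if_pos h

theorem exactPt_bas (P : List (ℕ × ℕ)) (v : ℕ → ℝ) (t : ℕ) {k : ℕ} (hk : k < 26) :
    exactPt P v (bas t + k) =
      blockPt (8 + 16 * (t : ℝ)) (v (opA P t)) (v (opB P t)) (v (3 * t + 2)) k := by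
  have h1 : (bas t + k - 16) / 26 = t := by unfold bas; omega
  have h2 : (bas t + k - 16) % 26 = k := by unfold bas; omega
  have h3 : ¬ bas t + k < 16 := by unfold bas; omega
  unfold exactPt
  rw [if_neg h3, h1, h2]

theorem exactPt_prev (P : List (ℕ × ℕ)) (v : ℕ → ℝ) (t : ℕ) :
    exactPt P v (bas t - 2) = (1, (8 + 16 * (t : ℝ)) - 2, 2) := by
  cases t with
  | zero =>
    have : bas 0 - 2 = 14 := by unfold bas; omega
    rw [this, exactPt_frame P v (by omega)]
    simp only [framePt, Nat.cast_zero]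
    norm_num
  | succ t =>
    have : bas (t + 1) - 2 = bas t + 24 := by unfold bas; omega
    rw [this, exactPt_bas P v t (by omega)]
    simp only [blockPt, Prod.mk.injEq, true_and, Nat.cast_add, Nat.cast_one]
    constructor
    · ring
    · trivial

theorem exactPt_reg {P : List (ℕ × ℕ)} {v : ℕ → ℝ} (hv : SLPSat P v) {i : ℕ}
    (hi : i < 3 * P.length + 2) : ∃ x : ℝ, exactPt P v (regRank i) = (1, x, 5 + v i) := by
  obtain ⟨h0, h1, h2⟩ := hv
  by_cases e0 : i = 0
  · subst e0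
    refine ⟨0, ?_⟩
    have : regRank 0 = 5 := rfl
    rw [this, exactPt_frame P v (by omega), h0]
    simp only [framePt, add_zero]
  by_cases e1 : i = 1
  · subst e1
    refine ⟨1, ?_⟩
    have : regRank 1 = 7 := rfl
    rw [this, exactPt_frame P v (by omega), h1]
    simp only [framePt]
    norm_num
  obtain ⟨t, k, hk, rfl⟩ : ∃ t k, k < 3 ∧ i = 3 * t + 2 + k :=
    ⟨(i - 2) / 3, (i - 2) % 3, by omega, by omega⟩
  have ht : t < P.length := by omega
  have a1 : (3 * t + 2 + k - 2) / 3 = t := by omega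
  have a2 : (3 * t + 2 + k - 2) % 3 = k := by omega
  unfold regRank
  rw [if_neg e0, if_neg e1, a1, a2]
  interval_cases k
  · refine ⟨(8 + 16 * (t : ℝ)) + 14, ?_⟩
    simp only [if_true]
    rw [exactPt_bas P v t (by omega)]
    simp only [blockPt, add_zero]
  · refine ⟨(8 + 16 * (t : ℝ)) + 10, ?_⟩
    simp only [one_ne_zero, if_false, if_true]
    rw [exactPt_bas P v t (by omega), (h2 t ht).1]
    simp only [blockPt]
  · refine ⟨(8 + 16 * (t : ℝ)) + 12, ?_⟩
    simp only [OfNat.ofNat_ne_zero, OfNat.ofNat_ne_one, if_false]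
    rw [exactPt_bas P v t (by omega), (h2 t ht).2]
    simp only [blockPt]

/-! ## The geometric conditions -/

/-- The geometric conditions for a step, with the signs given by the ranks. -/
def StepGeo' (e : ℕ → V3) (s : Step) : Prop :=
  D3 (e s.2.1) (e s.2.2.1) (e s.1) = 0 ∧ D3 (e s.2.2.2.1) (e s.2.2.2.2) (e s.1) = 0 ∧
  (0 < D3 (e s.2.1) (e s.2.2.1) (e s.2.2.2.1) ∧ s.1 < s.2.2.2.1 ∨
    D3 (e s.2.1) (e s.2.2.1) (e s.2.2.2.1) < 0 ∧ s.2.2.2.1 < s.1) ∧
  (0 < D3 (e s.2.2.2.1) (e s.2.2.2.2) (e s.2.1) ∧ s.1 < s.2.1 ∨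
    D3 (e s.2.2.2.1) (e s.2.2.2.2) (e s.2.1) < 0 ∧ s.2.1 < s.1)

theorem StepGeo'.toGeo {e : ℕ → V3} {s : Step} {W : V3} {M : ℕ} (h : StepGeo' e s)
    (hok : StepOk M s) (hW : ∀ r s, r < s → s < M → 0 < D3 W (e r) (e s)) : StepGeo W e s := by
  obtain ⟨h1, h2, h3, h4⟩ := h
  obtain ⟨k1, k2, k3, k4, k5, -⟩ := hok
  refine ⟨h1, h2, ?_, ?_⟩
  · rcases h3 with ⟨h3, h5⟩ | ⟨h3, h5⟩
    · exact Or.inl ⟨h3, hW _ _ h5 k4⟩
    · refine Or.inr ⟨h3, ?_⟩
      have := hW _ _ h5 k1
      rw [D3_swap₂₃]; linarith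
  · rcases h4 with ⟨h3, h5⟩ | ⟨h3, h5⟩
    · exact Or.inl ⟨h3, hW _ _ h5 k2⟩
    · refine Or.inr ⟨h3, ?_⟩
      have := hW _ _ h5 k1
      rw [D3_swap₂₃]; linarith

theorem frame_geo {e : ℕ → V3} (he : ∀ r < 16, e r = framePt r) :
    ∀ s ∈ frameSteps, StepGeo' e s := by
  intro s hs
  simp only [frameSteps, List.mem_cons, List.not_mem_nil, or_false] at hs
  unfold StepGeo'
  rcases hs with rfl | rfl | rfl | rfl | rfl | rfl | rfl | rfl | rfl | rfl | rfl | rfl <;>
  dsimp only <;>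
  simp only [he _ (show 0 < 16 by norm_num), he _ (show 1 < 16 by norm_num),
    he _ (show 2 < 16 by norm_num), he _ (show 3 < 16 by norm_num),
    he _ (show 4 < 16 by norm_num), he _ (show 5 < 16 by norm_num),
    he _ (show 6 < 16 by norm_num), he _ (show 7 < 16 by norm_num),
    he _ (show 8 < 16 by norm_num), he _ (show 9 < 16 by norm_num),
    he _ (show 10 < 16 by norm_num), he _ (show 11 < 16 by norm_num),
    he _ (show 12 < 16 by norm_num), he _ (show 13 < 16 by norm_num),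
    he _ (show 14 < 16 by norm_num), he _ (show 15 < 16 by norm_num), framePt, D3] <;>
  norm_num

theorem block_geo {e : ℕ → V3} {r ra rb : ℕ} {X a b z xa xb : ℝ} (hr : 16 ≤ r)
    (he : ∀ r < 16, e r = framePt r) (hp : e (r - 2) = (1, X - 2, 2))
    (hea : e ra = (1, xa, 5 + a)) (heb : e rb = (1, xb, 5 + b))
    (hk : ∀ k < 26, e (r + k) = blockPt X a b z k) (hX : 8 ≤ X)
    (ha : -1 < a) (ha' : a < 1) (hb : -1 < b) (hb' : b < 1) (hz : -1 < z) :
    ∀ s ∈ blockSteps r ra rb, StepGeo' e s := by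
  have k0 : e r = (1, X, 0) := hk 0 (by norm_num)
  have e0 : e 0 = (0, 0, -1) := he 0 (by norm_num)
  have e1 : e 1 = (0, -1, 0) := he 1 (by norm_num)
  have e2 : e 2 = (0, -1, 1) := he 2 (by norm_num)
  have e3 : e 3 = (1, 0, 0) := he 3 (by norm_num)
  have e5 : e 5 = (1, 0, 5) := he 5 (by norm_num)
  have e9 : e 9 = (1, 2, 2) := he 9 (by norm_num)
  have w1 : -1 < a * (1 + b) / 2 := by nlinarith
  have w2 : a * (1 + b) / 2 < 1 := by nlinarith
  intro s hs
  simp only [blockSteps, List.mem_cons, List.not_mem_nil, or_false] at hs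
  unfold StepGeo'
  rcases hs with rfl | rfl | rfl | rfl | rfl | rfl | rfl | rfl | rfl | rfl | rfl | rfl | rfl |
    rfl | rfl | rfl | rfl | rfl | rfl | rfl | rfl | rfl | rfl | rfl | rfl <;>
  dsimp only
  all_goals
    simp only [k0, e0, e1, e2, e3, e5, e9, hp, hea, heb, hk 1 (by norm_num), hk 2 (by norm_num),
      hk 3 (by norm_num), hk 4 (by norm_num), hk 5 (by norm_num), hk 6 (by norm_num),
      hk 7 (by norm_num), hk 8 (by norm_num), hk 9 (by norm_num), hk 10 (by norm_num),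
      hk 11 (by norm_num), hk 12 (by norm_num), hk 13 (by norm_num), hk 14 (by norm_num),
      hk 15 (by norm_num), hk 16 (by norm_num), hk 17 (by norm_num), hk 18 (by norm_num),
      hk 19 (by norm_num), hk 20 (by norm_num), hk 21 (by norm_num), hk 22 (by norm_num),
      hk 23 (by norm_num), hk 24 (by norm_num), hk 25 (by norm_num), blockPt, D3]
  all_goals
    refine ⟨by ring, by ring, ?_, ?_⟩
  all_goals
    refine Or.inr ⟨?_, by omega⟩
  all_goals
    nlinarith

/-! ## The order of the points -/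

/-- Lexicographic order of affine points. -/
def Lex (p q : V3) : Prop :=
  p.1 = 1 ∧ q.1 = 1 ∧ (p.2.1 < q.2.1 ∨ p.2.1 = q.2.1 ∧ p.2.2 < q.2.2)

theorem Lex.trans {p q r : V3} (h1 : Lex p q) (h2 : Lex q r) : Lex p r := by
  obtain ⟨a1, a2, a3⟩ := h1
  obtain ⟨b1, b2, b3⟩ := h2
  refine ⟨a1, b2, ?_⟩
  rcases a3 with a3 | ⟨a3, a4⟩ <;> rcases b3 with b3 | ⟨b3, b4⟩
  · exact Or.inl (a3.trans b3)
  · exact Or.inl (b3 ▸ a3)
  · exact Or.inl (a3 ▸ b3)
  · exact Or.inr ⟨a3.trans b3, a4.trans b4⟩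

theorem lex_block {X a b z : ℝ} (ha : -1 < a) (ha' : a < 1) (hb : -1 < b) (hb' : b < 1)
    (hz : -1 < z) {k : ℕ} (hk : k < 25) :
    Lex (blockPt X a b z k) (blockPt X a b z (k + 1)) := by
  have w1 : -1 < a * (1 + b) / 2 := by nlinarith
  have w2 : a * (1 + b) / 2 < 1 := by nlinarith
  have w3 : -1 < a * b := by nlinarith
  interval_cases k <;> refine ⟨rfl, rfl, ?_⟩ <;> simp only [blockPt]
  all_goals
    first
    | (left; linarith)
    | (right; exact ⟨trivial, by linarith⟩)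

theorem lex_succ {P : List (ℕ × ℕ)} {v : ℕ → ℝ} (hb : SLPBdd P v) {r : ℕ} (hr : 3 ≤ r)
    (hr' : r + 1 < bas P.length) : Lex (exactPt P v r) (exactPt P v (r + 1)) := by
  have cast1 : ∀ t : ℕ, (8 : ℝ) + 16 * ((t + 1 : ℕ) : ℝ) = (8 + 16 * (t : ℝ)) + 16 := by
    intro t; push_cast; ring
  by_cases h1 : r < 15
  · rw [exactPt_frame P v (by omega), exactPt_frame P v (by omega)]
    interval_cases r <;> refine ⟨rfl, rfl, ?_⟩ <;> simp only [framePt] <;> norm_num
  by_cases h2 : r = 15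
  · subst h2
    rw [exactPt_frame P v (by omega)]
    have e : 15 + 1 = bas 0 + 0 := by unfold bas; omega
    rw [e, exactPt_bas P v 0 (by omega)]
    refine ⟨rfl, rfl, ?_⟩
    simp only [framePt, blockPt]
    norm_num
  · obtain ⟨t, k, hk, rfl⟩ : ∃ t k, k < 26 ∧ r = bas t + k := by
      refine ⟨(r - 16) / 26, (r - 16) % 26, by omega, ?_⟩
      unfold bas; omega
    have ht : t < P.length := by unfold bas at hr'; omega
    obtain ⟨b1, b2, b3⟩ := hb t ht
    rw [abs_lt] at b1 b2 b3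
    by_cases h3 : k < 25
    · rw [exactPt_bas P v t (by omega), add_assoc, exactPt_bas P v t (by omega)]
      exact lex_block b1.1 b1.2 b2.1 b2.2 b3.1 h3
    · obtain rfl : k = 25 := by omega
      have e : bas t + 25 + 1 = bas (t + 1) + 0 := by unfold bas; omega
      rw [exactPt_bas P v t (by omega), e, exactPt_bas P v (t + 1) (by omega), cast1]
      refine ⟨rfl, rfl, Or.inl ?_⟩
      simp only [blockPt]
      linarith

theorem lex_of_lt {P : List (ℕ × ℕ)} {v : ℕ → ℝ} (hb : SLPBdd P v) {r : ℕ} (hr : 3 ≤ r) :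
    ∀ s, r < s → s < bas P.length → Lex (exactPt P v r) (exactPt P v s) := by
  intro s hrs
  induction s, hrs using Nat.le_induction with
  | base => intro h; exact lex_succ hb hr h
  | succ s hs ih =>
    intro h
    exact (ih (by omega)).trans (lex_succ hb (by omega) h)

/-- The pencil point. -/
def WW (h : ℝ) : V3 := (-(h ^ 2), -h, 1)

theorem ev0 {c0 : ℝ} (h : 0 < c0) (c1 c2 : ℝ) :
    ∀ᶠ x : ℝ in 𝓝[>] 0, 0 < c0 + x * c1 + x ^ 2 * c2 := by
  have h2 : Continuous fun x : ℝ => c0 + x * c1 + x ^ 2 * c2 := by fun_prop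
  refine nhdsWithin_le_nhds (h2.continuousAt.eventually_const_lt ?_)
  simpa using h

theorem ev1 {c1 : ℝ} (h : 0 < c1) (c2 : ℝ) :
    ∀ᶠ x : ℝ in 𝓝[>] 0, 0 < x * c1 + x ^ 2 * c2 := by
  filter_upwards [ev0 h c2 0, self_mem_nhdsWithin] with x hx hx'
  have h3 : x * c1 + x ^ 2 * c2 = x * (c1 + x * c2 + x ^ 2 * 0) := by ring
  rw [h3]
  exact mul_pos hx' hx

theorem ev_lex {p q : V3} (h : Lex p q) : ∀ᶠ x : ℝ in 𝓝[>] 0, 0 < D3 (WW x) p q := by
  obtain ⟨h1, h2, h3⟩ := h
  obtain ⟨p1, p2, p3⟩ := p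
  obtain ⟨q1, q2, q3⟩ := q
  simp only at h1 h2 h3
  subst h1 h2
  have e : ∀ x : ℝ, D3 (WW x) (1, p2, p3) (1, q2, q3) =
      (q2 - p2) + x * (q3 - p3) + x ^ 2 * (p3 * q2 - p2 * q3) := by
    intro x; simp only [D3, WW]; ring
  simp only [e]
  rcases h3 with h3 | ⟨rfl, h4⟩
  · exact ev0 (by linarith) _ _
  · simp only [sub_self, zero_add]
    exact ev1 (by linarith) _

theorem ev_small {q : V3} (h : q.1 = 1) {r : ℕ} (hr : r < 3) :
    ∀ᶠ x : ℝ in 𝓝[>] 0, 0 < D3 (WW x) (framePt r) q := by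
  obtain ⟨q1, q2, q3⟩ := q
  simp only at h
  subst h
  interval_cases r
  · have e : ∀ x : ℝ, D3 (WW x) (framePt 0) (1, q2, q3) = x * 1 + x ^ 2 * (-q2) := by
      intro x; simp only [D3, WW, framePt]; ring
    simp only [e]
    exact ev1 one_pos _
  · have e : ∀ x : ℝ, D3 (WW x) (framePt 1) (1, q2, q3) = 1 + x * 0 + x ^ 2 * q3 := by
      intro x; simp only [D3, WW, framePt]; ring
    simp only [e]
    exact ev0 one_pos _ _
  · have e : ∀ x : ℝ, D3 (WW x) (framePt 2) (1, q2, q3) =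
        1 + x * (-1) + x ^ 2 * (q2 + q3) := by
      intro x; simp only [D3, WW, framePt]; ring
    simp only [e]
    exact ev0 one_pos _ _

theorem ev_tiny {r s : ℕ} (hrs : r < s) (hs : s < 3) :
    ∀ᶠ x : ℝ in 𝓝[>] 0, 0 < D3 (WW x) (framePt r) (framePt s) := by
  have hr : r < 2 := by omega
  filter_upwards [self_mem_nhdsWithin] with x hx
  have h2 : 0 < x ^ 2 := by
    have : 0 < x := hx
    positivity
  interval_cases s <;> interval_cases r <;> simp only [D3, WW, framePt] <;> first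
    | omega
    | nlinarith

theorem ev_pair {P : List (ℕ × ℕ)} {v : ℕ → ℝ} (hb : SLPBdd P v) {r s : ℕ} (hrs : r < s)
    (hs : s < bas P.length) :
    ∀ᶠ x : ℝ in 𝓝[>] 0, 0 < D3 (WW x) (exactPt P v r) (exactPt P v s) := by
  by_cases h1 : 3 ≤ r
  · exact ev_lex (lex_of_lt hb h1 s hrs hs)
  · rw [exactPt_frame P v (show r < 16 by omega)]
    by_cases h2 : s < 3
    · rw [exactPt_frame P v (show s < 16 by omega)]
      exact ev_tiny hrs h2
    · refine ev_small ?_ (by omega)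
      by_cases h3 : s = 3
      · subst h3
        rw [exactPt_frame P v (by omega)]; rfl
      · exact (lex_of_lt hb (le_refl 3) s (by omega) hs).2.1

theorem exists_W {P : List (ℕ × ℕ)} {v : ℕ → ℝ} (hb : SLPBdd P v) :
    ∃ W : V3, ∀ r s, r < s → s < bas P.length → 0 < D3 W (exactPt P v r) (exactPt P v s) := by
  have h : ∀ᶠ x : ℝ in 𝓝[>] 0, ∀ r ∈ Finset.range (bas P.length),
      ∀ s ∈ Finset.range (bas P.length), r < s →
      0 < D3 (WW x) (exactPt P v r) (exactPt P v s) := by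
    rw [eventually_all_finset]; intro r hr
    rw [eventually_all_finset]; intro s hs
    by_cases hrs : r < s
    · filter_upwards [ev_pair hb hrs (Finset.mem_range.1 hs)] with x hx _
      exact hx
    · exact Eventually.of_forall fun x h => absurd h hrs
  obtain ⟨x, hx⟩ := h.exists
  exact ⟨WW x, fun r s hrs hs => hx r (Finset.mem_range.2 (by omega)) s
    (Finset.mem_range.2 hs) hrs⟩

theorem slp_complete_aux {P : List (ℕ × ℕ)} {out : ℕ} (hP : SLPValid P)
    (ho' : out < 3 * P.length + 2) :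
    (∃ v, SLPSat P v ∧ SLPBdd P v ∧ v out < 0) → PCH (slpN P) (slpCons P out) := by
  rintro ⟨v, hv, hb, hout⟩
  obtain ⟨W, hW⟩ := exists_W hb
  have he : ∀ r < 16, exactPt P v r = framePt r := fun r hr => exactPt_frame P v hr
  have hgeo : ∀ s ∈ allSteps P, StepGeo' (exactPt P v) s := by
    intro s hs
    unfold allSteps at hs
    rcases List.mem_append.1 hs with hs | hs
    · exact frame_geo he s hs
    · obtain ⟨t, ht, hs⟩ := List.mem_flatMap.1 hs
      replace ht := List.mem_range.1 ht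
      obtain ⟨b1, b2, b3⟩ := hb t ht
      rw [abs_lt] at b1 b2 b3
      obtain ⟨xa, hxa⟩ := exactPt_reg hv (i := opA P t) (by have := (hP t ht).1; omega)
      obtain ⟨xb, hxb⟩ := exactPt_reg hv (i := opB P t) (by have := (hP t ht).2; omega)
      have h16 : 16 ≤ bas t := by unfold bas; omega
      have hX : (8 : ℝ) ≤ 8 + 16 * (t : ℝ) := by
        have : (0 : ℝ) ≤ (t : ℝ) := Nat.cast_nonneg t
        linarith
      exact block_geo h16 he (exactPt_prev P v t) hxa hxb
        (fun k hk => exactPt_bas P v t hk) hX b1.1 b1.2 b2.1 b2.2 b3.1 s hs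
  have hM : 2 ≤ bas P.length := by unfold bas; omega
  unfold slpN slpCons
  refine pch_of_exact hM hW (fun s hs => (hgeo s hs).toGeo (allSteps_ok hP s hs) hW)
    (allSteps_pairwise hP) (allSteps_ok hP) ?_
  obtain ⟨xo, hxo⟩ := exactPt_reg hv ho'
  intro c hc
  unfold sides at hc
  rcases List.mem_append.1 hc with hc | hc
  · simp only [List.mem_cons, List.not_mem_nil, or_false] at hc
    rcases hc with rfl | rfl | rfl | rfl | rfl | rfl | rfl <;> dsimp only <;>
    simp only [he 0 (by norm_num), he 1 (by norm_num), he 3 (by norm_num), he 5 (by norm_num),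
      he 9 (by norm_num), hxo, framePt, D3] <;> (norm_num; try linarith)
  · obtain ⟨t, ht, rfl⟩ := List.mem_map.1 hc
    dsimp only
    rw [exactPt_bas P v t (by omega), he 0 (by norm_num), he 1 (by norm_num)]
    simp only [framePt, blockPt, D3]
    norm_num

end Pool.Agent.CRt.Cf
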