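import Pool.Agent.CRt.ConfPert

/-!
# Soundness of the configuration of a straight-line program
-/

set_option autoImplicit false

namespace Pool.Agent.CRt.Cf

/-! ## Convexity -/

theorem hull_pos {S : Set V3} (l : V3 →ₗ[ℝ] ℝ) (h : ∀ x ∈ S, 0 < l x) :
    ∀ u ∈ convexHull ℝ S, 0 < l u := by
  have h1 : Convex ℝ {u : V3 | 0 < l u} := convex_halfSpace_gt l.isLinear 0
  exact fun u hu => convexHull_min (fun x hx => h x hx) h1 hu

theorem D3_rot (u v w : V3) : D3 u v w = D3 v w u := by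
  simp only [D3]; ring

theorem hull3 {A B C : Set V3} (h : ∀ a ∈ A, ∀ b ∈ B, ∀ c ∈ C, 0 < D3 a b c) :
    ∀ a ∈ convexHull ℝ A, ∀ b ∈ convexHull ℝ B, ∀ c ∈ convexHull ℝ C, 0 < D3 a b c := by
  have h1 : ∀ a ∈ A, ∀ b ∈ B, ∀ c ∈ convexHull ℝ C, 0 < D3 a b c := by
    intro a ha b hb c hc
    exact hull_pos (D3L a b) (fun x hx => h a ha b hb x hx) c hc
  have h2 : ∀ a ∈ A, ∀ b ∈ convexHull ℝ B, ∀ c ∈ convexHull ℝ C, 0 < D3 a b c := by
    intro a ha b hb c hc
    rw [D3_rot, D3_rot]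
    refine hull_pos (D3L c a) (fun x hx => ?_) b hb
    have := h1 a ha x hx c hc
    rw [D3_rot, D3_rot] at this
    exact this
  intro a ha b hb c hc
  rw [D3_rot]
  refine hull_pos (D3L b c) (fun x hx => ?_) a ha
  have := h2 x hx b hb c hc
  rw [D3_rot] at this
  exact this

theorem exists_zero {C : Set V3} (hC : Convex ℝ C) (f : V3 →ₗ[ℝ] ℝ) {p q : V3} (hp : p ∈ C)
    (hq : q ∈ C) (h1 : f p < 0) (h2 : 0 < f q) :
    ∃ u ∈ C, f u = 0 ∧ ∀ g : V3 →ₗ[ℝ] ℝ, 0 < g p → 0 < g q → 0 < g u := by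
  have h3 : 0 < f q - f p := by linarith
  have ha : 0 < f q / (f q - f p) := div_pos h2 h3
  have hb : 0 < -(f p) / (f q - f p) := div_pos (by linarith) h3
  have hab : f q / (f q - f p) + -(f p) / (f q - f p) = 1 := by
    field_simp; ring
  refine ⟨(f q / (f q - f p)) • p + (-(f p) / (f q - f p)) • q,
    hC hp hq ha.le hb.le hab, ?_, ?_⟩
  · rw [map_add, map_smul, map_smul, smul_eq_mul, smul_eq_mul]
    field_simp; ring
  · intro g g1 g2
    rw [map_add, map_smul, map_smul, smul_eq_mul, smul_eq_mul]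
    exact add_pos (mul_pos ha g1) (mul_pos hb g2)

theorem exists_cross {C : Set V3} (hC : Convex ℝ C) (f g : V3 →ₗ[ℝ] ℝ) (p : ℕ → V3)
    (hp : ∀ q < 4, p q ∈ C) (hf : ∀ q < 4, if 2 ≤ q then 0 < f (p q) else f (p q) < 0)
    (hg : ∀ q < 4, if q % 2 = 1 then 0 < g (p q) else g (p q) < 0) :
    ∃ u ∈ C, f u = 0 ∧ g u = 0 := by
  have f0 := hf 0 (by norm_num)
  have f1 := hf 1 (by norm_num)
  have f2 := hf 2 (by norm_num)
  have f3 := hf 3 (by norm_num)
  have g0 := hg 0 (by norm_num)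
  have g1 := hg 1 (by norm_num)
  have g2 := hg 2 (by norm_num)
  have g3 := hg 3 (by norm_num)
  norm_num at f0 f1 f2 f3 g0 g1 g2 g3
  obtain ⟨A, hA, fA, gA⟩ := exists_zero hC f (hp 1 (by norm_num)) (hp 3 (by norm_num)) f1 f3
  obtain ⟨B, hB, fB, gB⟩ := exists_zero hC f (hp 0 (by norm_num)) (hp 2 (by norm_num)) f0 f2
  have gA' := gA g g1 g3
  have gB' := gB (-g) (by simpa using g0) (by simpa using g2)
  rw [LinearMap.neg_apply] at gB'
  have h3 : 0 < g A - g B := by linarith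
  have ha : 0 < g A / (g A - g B) := div_pos gA' h3
  have hb : 0 < -(g B) / (g A - g B) := div_pos (by linarith) h3
  have hab : g A / (g A - g B) + -(g B) / (g A - g B) = 1 := by
    field_simp; ring
  refine ⟨(g A / (g A - g B)) • B + (-(g B) / (g A - g B)) • A,
    hC hB hA ha.le hb.le hab, ?_, ?_⟩
  · rw [map_add, map_smul, map_smul, fA, fB, smul_zero, smul_zero, add_zero]
  · rw [map_add, map_smul, map_smul, smul_eq_mul, smul_eq_mul]
    field_simp; ring

/-! ## Exact vectors -/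

theorem exists_exact (H : ℕ → Set V3) (hne : ∀ r, (H r).Nonempty) : ∀ (L : List Step),
    L.Pairwise Fresh →
    (∀ s ∈ L, s.1 ≠ s.2.1 ∧ s.1 ≠ s.2.2.1 ∧ s.1 ≠ s.2.2.2.1 ∧ s.1 ≠ s.2.2.2.2) →
    (∀ s ∈ L, ∀ a ∈ H s.2.1, ∀ b ∈ H s.2.2.1, ∀ c ∈ H s.2.2.2.1, ∀ d ∈ H s.2.2.2.2,
      ∃ u ∈ H s.1, D3 a b u = 0 ∧ D3 c d u = 0) →
    ∃ e : ℕ → V3, (∀ r, e r ∈ H r) ∧ ∀ s ∈ L, D3 (e s.2.1) (e s.2.2.1) (e s.1) = 0 ∧
      D3 (e s.2.2.2.1) (e s.2.2.2.2) (e s.1) = 0 := by
  intro L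
  induction L using List.reverseRecOn with
  | nil =>
    intro _ _ _
    choose e he using hne
    exact ⟨e, he, fun s hs => by simp at hs⟩
  | append_singleton L s ih =>
    intro hfr hself hcr
    have hs : s ∈ L ++ [s] := by simp
    have hL : ∀ s' ∈ L, s' ∈ L ++ [s] := fun s' hs' => List.mem_append_left _ hs'
    rw [List.pairwise_append] at hfr
    obtain ⟨hfr1, -, hfr2⟩ := hfr
    obtain ⟨e, he, he'⟩ := ih hfr1 (fun s' hs' => hself s' (hL s' hs'))
      (fun s' hs' => hcr s' (hL s' hs'))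
    obtain ⟨u, hu, hu1, hu2⟩ := hcr s hs _ (he _) _ (he _) _ (he _) _ (he _)
    obtain ⟨n1, n2, n3, n4⟩ := hself s hs
    refine ⟨Function.update e s.1 u, ?_, ?_⟩
    · intro r
      by_cases hr : r = s.1
      · subst hr
        rw [Function.update_self]; exact hu
      · rw [Function.update_of_ne hr]; exact he r
    · intro s' hs'
      rcases List.mem_append.1 hs' with hs' | hs'
      · obtain ⟨f1, f2, f3, f4, f5⟩ := hfr2 s' hs' s (by simp)
        rw [Function.update_of_ne f1.symm, Function.update_of_ne f2.symm,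
          Function.update_of_ne f3.symm, Function.update_of_ne f4.symm,
          Function.update_of_ne f5.symm]
        exact he' s' hs'
      · rw [List.mem_singleton.1 hs', Function.update_self, Function.update_of_ne n1.symm,
          Function.update_of_ne n2.symm, Function.update_of_ne n3.symm,
          Function.update_of_ne n4.symm]
        exact ⟨hu1, hu2⟩

/-- The exact vectors of a solution of the `PCH` instance. -/
theorem exists_exact_of_pch {M : ℕ} {L : List Step} {S : List (ℕ × ℕ × ℕ)} (hM : 1 ≤ M)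
    (hfr : L.Pairwise Fresh) (hok : ∀ s ∈ L, StepOk M s)
    (h : PCH (4 * M) (L.flatMap stepCons ++ S.flatMap sideCons)) :
    ∃ e : ℕ → V3, (∀ r < M, e r ≠ 0) ∧
      (∀ s ∈ L, D3 (e s.2.1) (e s.2.2.1) (e s.1) = 0 ∧
        D3 (e s.2.2.2.1) (e s.2.2.2.2) (e s.1) = 0) ∧
      ∀ c ∈ S, 0 < D3 (e c.1) (e c.2.1) (e c.2.2) := by
  obtain ⟨v, hv, hT⟩ := h
  let H : ℕ → Set V3 := fun r => convexHull ℝ {u | ∃ i ∈ repsOf r, u = v i}
  have hmem : ∀ r, ∀ i ∈ repsOf r, v i ∈ H r := fun r i hi => subset_convexHull _ _ ⟨i, hi, rfl⟩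
  obtain ⟨e, he, he'⟩ := exists_exact H (fun r => ⟨v (4 * r + 1 + 0), hmem r _
      (mem_repsOf.2 ⟨0, by norm_num, rfl⟩)⟩) L hfr
    (fun s hs => by
      obtain ⟨-, -, -, -, -, g1, g2, g3, g4, -⟩ := hok s hs
      exact ⟨g1, g2, g3, g4⟩) (by
    intro s hs a ha b hb c hc d hd
    have hs' : ∀ t ∈ stepCons s, 0 < D3 (v t.1) (v t.2.1) (v t.2.2) := fun t ht =>
      hT t (List.mem_append_left _ (List.mem_flatMap.2 ⟨s, hs, ht⟩))
    rw [forall_stepCons (p := fun t => 0 < D3 (v t.1) (v t.2.1) (v t.2.2))] at hs'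
    have key : ∀ (x y : ℕ), ∀ q, (∀ i ∈ repsOf x, ∀ j ∈ repsOf y,
        0 < D3 (v i) (v j) (v (4 * s.1 + 1 + q))) → ∀ a ∈ H x, ∀ b ∈ H y,
        0 < D3 a b (v (4 * s.1 + 1 + q)) := by
      intro x y q hq a ha b hb
      refine hull3 (A := {u | ∃ i ∈ repsOf x, u = v i}) (B := {u | ∃ i ∈ repsOf y, u = v i})
        (C := {v (4 * s.1 + 1 + q)}) ?_ a ha b hb _ (subset_convexHull _ _ rfl)
      rintro a ⟨i, hi, rfl⟩ b ⟨j, hj, rfl⟩ c hc
      rw [Set.mem_singleton_iff.1 hc]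
      exact hq i hi j hj
    refine exists_cross (convex_convexHull ℝ _) (D3L a b) (D3L c d)
      (fun q => v (4 * s.1 + 1 + q)) (fun q hq => hmem s.1 _ (mem_repsOf.2 ⟨q, hq, rfl⟩)) ?_ ?_
    · intro q hq
      have h1 := (hs' q hq).1
      split_ifs with h2
      · simp only [if_pos h2] at h1
        exact key _ _ q h1 a ha b hb
      · simp only [if_neg h2] at h1
        have := key _ _ q (fun i hi j hj => h1 j hj i hi) b hb a ha
        rw [D3L_apply, D3_swap₁₂]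
        linarith
    · intro q hq
      have h1 := (hs' q hq).2
      split_ifs with h2
      · simp only [if_pos h2] at h1
        exact key _ _ q h1 c hc d hd
      · simp only [if_neg h2] at h1
        have := key _ _ q (fun i hi j hj => h1 j hj i hi) d hd c hc
        rw [D3L_apply, D3_swap₁₂]
        linarith)
  refine ⟨e, ?_, he', ?_⟩
  · intro r hr h0
    -- a functional which is positive on all vectors
    let l : V3 →ₗ[ℝ] ℝ := D3L (v (4 * M)) (v 0) + D3L (v 0) (v 1)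
    have hl : ∀ i, 0 < i → i ≤ 4 * M → 0 < l (v i) := by
      intro i hi hi'
      have e1 : l (v i) = D3 (v 0) (v i) (v (4 * M)) + D3 (v 0) (v 1) (v i) := by
        change D3 _ _ _ + D3 _ _ _ = _
        rw [D3_rot (v (4 * M))]
      rw [e1]
      by_cases h1 : i = 1
      · subst h1
        rw [D3_self₂₃, add_zero]
        exact hv 1 (4 * M) (by omega) (by omega) le_rfl
      · by_cases h2 : i = 4 * M
        · subst h2
          rw [D3_self₂₃, zero_add]
          exact hv 1 (4 * M) (by omega) (by omega) le_rfl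
        · exact add_pos (hv i (4 * M) hi (by omega) le_rfl) (hv 1 i (by omega) (by omega) hi')
    have := hull_pos l (S := {u | ∃ i ∈ repsOf r, u = v i}) (by
      rintro x ⟨i, hi, rfl⟩
      obtain ⟨q, hq, rfl⟩ := mem_repsOf.1 hi
      exact hl _ (by omega) (by omega)) (e r) (he r)
    rw [h0, map_zero] at this
    exact lt_irrefl _ this
  · intro c hc
    refine hull3 (A := {u | ∃ i ∈ repsOf c.1, u = v i}) (B := {u | ∃ i ∈ repsOf c.2.1, u = v i})
      (C := {u | ∃ i ∈ repsOf c.2.2, u = v i}) ?_ _ (he _) _ (he _) _ (he _)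
    rintro _ ⟨i, hi, rfl⟩ _ ⟨j, hj, rfl⟩ _ ⟨k, hk, rfl⟩
    exact hT (i, j, k) (List.mem_append_right _ (List.mem_flatMap.2
      ⟨c, hc, mem_sideCons.2 ⟨hi, hj, hk⟩⟩))

/-! ## Normalisation -/

theorem cramer (a b c u : V3) : D3 a b c • u = D3 u b c • a + D3 a u c • b + D3 a b u • c := by
  simp only [D3]
  ext <;> simp only [Prod.smul_fst, Prod.smul_snd, Prod.fst_add, Prod.snd_add, smul_eq_mul] <;>
    ring

theorem exists_normal {e : ℕ → V3} (h1 : 0 < D3 (e 1) (e 0) (e 3))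
    (h2 : 0 < D3 (e 1) (e 0) (e 9)) (h3 : 0 < D3 (e 3) (e 0) (e 9))
    (h4 : 0 < D3 (e 1) (e 3) (e 9)) :
    ∃ Y : ℕ → V3, (∃ K : ℝ, 0 < K ∧ ∀ i j k, D3 (Y i) (Y j) (Y k) = K * D3 (e i) (e j) (e k)) ∧
      (∀ r, e r ≠ 0 → Y r ≠ 0) ∧
      (∃ c : ℝ, 0 < c ∧ Y 0 = (0, 0, -c)) ∧ (∃ c : ℝ, 0 < c ∧ Y 1 = (0, -c, 0)) ∧
      (∃ c : ℝ, 0 < c ∧ Y 3 = (c, 0, 0)) ∧ Y 9 = (1, 2, 2) := by
  set p := D3 (e 1) (e 0) (e 3) with hp
  set α := D3 (e 1) (e 0) (e 9) with hα
  set β := D3 (e 3) (e 0) (e 9) with hβ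
  set γ := D3 (e 1) (e 3) (e 9) with hγ
  refine ⟨fun r => (D3 (e 1) (e 0) (e r) / α, 2 * D3 (e 3) (e 0) (e r) / β,
    2 * D3 (e 1) (e 3) (e r) / γ), ⟨4 * p ^ 2 / (α * β * γ), by positivity, ?_⟩, ?_,
    ⟨2 * p / γ, by positivity, ?_⟩, ⟨2 * p / β, by positivity, ?_⟩,
    ⟨p / α, by positivity, ?_⟩, ?_⟩
  · intro i j k
    have key : ∀ u v w : V3,
        D3 (D3 (e 1) (e 0) u, D3 (e 3) (e 0) u, D3 (e 1) (e 3) u)
          (D3 (e 1) (e 0) v, D3 (e 3) (e 0) v, D3 (e 1) (e 3) v)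
          (D3 (e 1) (e 0) w, D3 (e 3) (e 0) w, D3 (e 1) (e 3) w) = p ^ 2 * D3 u v w := by
      intro u v w
      rw [hp]
      simp only [D3]
      ring
    have key2 : ∀ a1 a2 a3 b1 b2 b3 c1 c2 c3 : ℝ,
        D3 (a1 / α, 2 * a2 / β, 2 * a3 / γ) (b1 / α, 2 * b2 / β, 2 * b3 / γ)
          (c1 / α, 2 * c2 / β, 2 * c3 / γ) =
        4 / (α * β * γ) * D3 (a1, a2, a3) (b1, b2, b3) (c1, c2, c3) := by
      intro a1 a2 a3 b1 b2 b3 c1 c2 c3
      simp only [D3]
      field_simp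
      ring
    rw [key2, key]
    ring
  · intro r hr h0
    simp only [Prod.mk_eq_zero, div_eq_zero_iff, mul_eq_zero, OfNat.ofNat_ne_zero, false_or,
      h2.ne', h3.ne', h4.ne', or_false] at h0
    obtain ⟨q1, q2, q3⟩ := h0
    have := cramer (e 1) (e 0) (e 3) (e r)
    have r1 : D3 (e r) (e 0) (e 3) = 0 := by
      rw [D3_rot, D3_swap₁₂, q2, neg_zero]
    have r2 : D3 (e 1) (e r) (e 3) = 0 := by
      rw [D3_swap₂₃, q3, neg_zero]
    rw [r1, r2, q1, zero_smul, zero_smul, zero_smul, add_zero, add_zero] at this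
    rcases smul_eq_zero.1 this with h | h
    · exact h1.ne' h
    · exact hr h
  · have r1 : D3 (e 1) (e 0) (e 0) = 0 := D3_self₂₃ _ _
    have r2 : D3 (e 3) (e 0) (e 0) = 0 := D3_self₂₃ _ _
    have r3 : D3 (e 1) (e 3) (e 0) = -p := by rw [D3_swap₂₃]
    simp only [r1, r2, r3, Prod.mk.injEq]
    refine ⟨by simp, by simp, by ring⟩
  · have r1 : D3 (e 1) (e 0) (e 1) = 0 := D3_self₁₃ _ _
    have r2 : D3 (e 3) (e 0) (e 1) = -p := by rw [D3_rot, D3_rot, D3_swap₂₃]
    have r3 : D3 (e 1) (e 3) (e 1) = 0 := D3_self₁₃ _ _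
    simp only [r1, r2, r3, Prod.mk.injEq]
    refine ⟨by simp, by ring, by simp⟩
  · have r2 : D3 (e 3) (e 0) (e 3) = 0 := D3_self₁₃ _ _
    have r3 : D3 (e 1) (e 3) (e 3) = 0 := D3_self₂₃ _ _
    simp only [r2, r3, Prod.mk.injEq, ← hp]
    refine ⟨by simp, by simp, by simp⟩
  · simp only [Prod.mk.injEq, ← hα, ← hβ, ← hγ]
    refine ⟨div_self h2.ne', ?_, ?_⟩
    · field_simp
    · field_simp

/-! ## Lines in the normalised configuration -/

/-- The vector `u` represents the affine point `(x, y)`. -/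
def Aff (u : V3) (x y : ℝ) : Prop := u.1 ≠ 0 ∧ u.2.1 = x * u.1 ∧ u.2.2 = y * u.1

theorem Aff.mk' {u : V3} {x y : ℝ} (h : u ≠ 0) (h1 : u.2.1 = x * u.1) (h2 : u.2.2 = y * u.1) :
    Aff u x y := by
  refine ⟨fun h0 => h ?_, h1, h2⟩
  rw [h0, mul_zero] at h1 h2
  exact Prod.ext h0 (Prod.ext h1 h2)

theorem line_vert {u c o : V3} {x y k : ℝ} (hc : Aff c x y) (ho : o = (0, 0, -k)) (hk : 0 < k)
    (h : D3 c o u = 0) : u.2.1 = x * u.1 := by
  obtain ⟨h1, h2, h3⟩ := hc
  subst ho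
  simp only [D3] at h
  rw [h2] at h
  have : (k * c.1) * (u.2.1 - x * u.1) = 0 := by linear_combination h
  rcases mul_eq_zero.1 this with h | h
  · exact absurd h (mul_ne_zero hk.ne' h1)
  · linarith

theorem line_horiz {u c o : V3} {x y k : ℝ} (hc : Aff c x y) (ho : o = (0, -k, 0)) (hk : 0 < k)
    (h : D3 o c u = 0) : u.2.2 = y * u.1 := by
  obtain ⟨h1, h2, h3⟩ := hc
  subst ho
  simp only [D3] at h
  rw [h3] at h
  have : (k * c.1) * (u.2.2 - y * u.1) = 0 := by linear_combination h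
  rcases mul_eq_zero.1 this with h | h
  · exact absurd h (mul_ne_zero hk.ne' h1)
  · linarith

theorem line_base {u c o : V3} {l k : ℝ} (hc : c = (l, 0, 0)) (hl : 0 < l) (ho : o = (0, -k, 0))
    (hk : 0 < k) (h : D3 c o u = 0) : u.2.2 = 0 := by
  subst ho hc
  simp only [D3] at h
  have : (k * l) * u.2.2 = 0 := by linear_combination -h
  rcases mul_eq_zero.1 this with h | h
  · exact absurd h (mul_ne_zero hk.ne' hl.ne')
  · exact h

theorem line_diag {u c o : V3} {x y : ℝ} (hc : Aff c x y) (ho : o.1 = 0) (ho' : o.2.2 = -o.2.1)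
    (ho'' : o.2.1 ≠ 0) (h : D3 o c u = 0) : u.2.1 + u.2.2 = (x + y) * u.1 := by
  obtain ⟨h1, h2, h3⟩ := hc
  simp only [D3] at h
  rw [h3, h2, ho, ho'] at h
  have : (o.2.1 * c.1) * (u.2.1 + u.2.2 - (x + y) * u.1) = 0 := by linear_combination -h
  rcases mul_eq_zero.1 this with h | h
  · exact absurd h (mul_ne_zero ho'' h1)
  · linarith

theorem line_gen {u a b : V3} {xa ya xb yb x y : ℝ} (ha : Aff a xa ya) (hb : Aff b xb yb)
    (h : D3 a b u = 0) (hx : u.2.1 = x * u.1) (hne : xb - xa ≠ 0)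
    (hy : (xb - xa) * y = ya * (xb - x) + yb * (x - xa)) : u.2.2 = y * u.1 := by
  obtain ⟨a1, a2, a3⟩ := ha
  obtain ⟨b1, b2, b3⟩ := hb
  simp only [D3] at h
  rw [a3, a2, b2, b3, hx] at h
  have : (a.1 * b.1 * (xb - xa)) * (u.2.2 - y * u.1) = 0 := by
    linear_combination h - (a.1 * b.1 * u.1) * hy
  rcases mul_eq_zero.1 this with h | h
  · exact absurd h (mul_ne_zero (mul_ne_zero a1 b1) hne)
  · linarith

/-! ## Reading off the program -/

/-- The normalised exact vectors of a program. -/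
structure NormConf (L : List Step) (M : ℕ) (Y : ℕ → V3) : Prop where
  ne : ∀ r < M, Y r ≠ 0
  inc : ∀ s ∈ L, D3 (Y s.2.1) (Y s.2.2.1) (Y s.1) = 0 ∧
    D3 (Y s.2.2.2.1) (Y s.2.2.2.2) (Y s.1) = 0
  y0 : ∃ c : ℝ, 0 < c ∧ Y 0 = (0, 0, -c)
  y1 : ∃ c : ℝ, 0 < c ∧ Y 1 = (0, -c, 0)
  y3 : ∃ c : ℝ, 0 < c ∧ Y 3 = (c, 0, 0)
  y9 : Y 9 = (1, 2, 2)

namespace NormConf

variable {L : List Step} {M : ℕ} {Y : ℕ → V3}

theorem vert (h : NormConf L M Y) {c : ℕ} {u : V3} {x y : ℝ} (hc : Aff (Y c) x y)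
    (hu : D3 (Y c) (Y 0) u = 0) : u.2.1 = x * u.1 := by
  obtain ⟨k, hk, h0⟩ := h.y0
  exact line_vert hc h0 hk hu

theorem horiz (h : NormConf L M Y) {c : ℕ} {u : V3} {x y : ℝ} (hc : Aff (Y c) x y)
    (hu : D3 (Y 1) (Y c) u = 0) : u.2.2 = y * u.1 := by
  obtain ⟨k, hk, h0⟩ := h.y1
  exact line_horiz hc h0 hk hu

theorem base (h : NormConf L M Y) {u : V3} (hu : D3 (Y 3) (Y 1) u = 0) : u.2.2 = 0 := by
  obtain ⟨k, hk, h1⟩ := h.y1
  obtain ⟨l, hl, h3⟩ := h.y3
  exact line_base h3 hl h1 hk hu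

/-- intersection of a horizontal and a vertical line -/
theorem step_hv (h : NormConf L M Y) {s b c : ℕ} {xb yb xc yc : ℝ} (hs : s < M)
    (hstep : (s, 1, b, c, 0) ∈ L) (hb : Aff (Y b) xb yb) (hc : Aff (Y c) xc yc) :
    Aff (Y s) xc yb := by
  obtain ⟨i1, i2⟩ := h.inc _ hstep
  exact Aff.mk' (h.ne s hs) (h.vert hc i2) (h.horiz hb i1)

end NormConf

/-- The direction of slope `-1`. -/
def Diag (Y : ℕ → V3) : Prop := (Y 2).1 = 0 ∧ (Y 2).2.2 = -(Y 2).2.1 ∧ (Y 2).2.1 ≠ 0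

namespace NormConf

variable {L : List Step} {M : ℕ} {Y : ℕ → V3}

/-- intersection of a line of slope `-1` with the base line -/
theorem step_db (h : NormConf L M Y) (hD : Diag Y) {s b : ℕ} {xb yb : ℝ} (hs : s < M)
    (hstep : (s, 2, b, 3, 1) ∈ L) (hb : Aff (Y b) xb yb) : Aff (Y s) (xb + yb) 0 := by
  obtain ⟨i1, i2⟩ := h.inc _ hstep
  obtain ⟨d1, d2, d3⟩ := hD
  have e1 : (Y s).2.2 = 0 := h.base i2
  have e2 := line_diag hb d1 d2 d3 i1
  rw [e1, add_zero] at e2
  exact Aff.mk' (h.ne s hs) e2 (by rw [e1, zero_mul])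

/-- intersection of a line of slope `-1` with a vertical line -/
theorem step_dv (h : NormConf L M Y) (hD : Diag Y) {s b c : ℕ} {xb yb xc yc : ℝ} (hs : s < M)
    (hstep : (s, 2, b, c, 0) ∈ L) (hb : Aff (Y b) xb yb) (hc : Aff (Y c) xc yc) :
    Aff (Y s) xc (xb + yb - xc) := by
  obtain ⟨i1, i2⟩ := h.inc _ hstep
  obtain ⟨d1, d2, d3⟩ := hD
  have e1 := h.vert hc i2
  have e2 := line_diag hb d1 d2 d3 i1
  exact Aff.mk' (h.ne s hs) e1 (by linarith)

/-- intersection of a line with a vertical line -/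
theorem step_gv (h : NormConf L M Y) {s a b c : ℕ} {xa ya xb yb xc yc y : ℝ} (hs : s < M)
    (hstep : (s, a, b, c, 0) ∈ L) (ha : Aff (Y a) xa ya) (hb : Aff (Y b) xb yb)
    (hc : Aff (Y c) xc yc) (hne : xb - xa ≠ 0)
    (hy : (xb - xa) * y = ya * (xb - xc) + yb * (xc - xa)) : Aff (Y s) xc y := by
  obtain ⟨i1, i2⟩ := h.inc _ hstep
  have e1 := h.vert hc i2
  exact Aff.mk' (h.ne s hs) e1 (line_gen ha hb i1 e1 hne hy)

end NormConf

theorem Aff.congr {u : V3} {x y x' y' : ℝ} (h : Aff u x y) (hx : x = x') (hy : y = y') :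
    Aff u x' y' := hx ▸ hy ▸ h

/-- The frame in the normalised configuration. -/
theorem frame_forms {L : List Step} {M : ℕ} {Y : ℕ → V3} (h : NormConf L M Y) (hM : 16 ≤ M)
    (hL : ∀ s ∈ frameSteps, s ∈ L) :
    Diag Y ∧ Aff (Y 5) 0 5 ∧ Aff (Y 7) 1 (9 / 2) ∧ Aff (Y 9) 2 2 ∧ Aff (Y 14) 6 2 := by
  have a3 : Aff (Y 3) 0 0 := by
    obtain ⟨k, hk, h0⟩ := h.y3
    rw [h0]
    exact ⟨hk.ne', by simp, by simp⟩
  have a9 : Aff (Y 9) 2 2 := by
    rw [h.y9]
    exact ⟨by simp, by simp, by simp⟩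
  have a8 : Aff (Y 8) 2 0 := h.step_hv (by omega) (hL _ (by simp [frameSteps])) a3 a9
  have a4 : Aff (Y 4) 0 2 := h.step_hv (by omega) (hL _ (by simp [frameSteps])) a9 a3
  have hD : Diag Y := by
    obtain ⟨i1, i2⟩ := h.inc (2, 4, 8, 1, 0) (hL _ (by simp [frameSteps]))
    simp only at i1 i2
    obtain ⟨k, hk, y0⟩ := h.y0
    obtain ⟨l, hl, y1⟩ := h.y1
    have e1 : (Y 2).1 = 0 := by
      rw [y0, y1] at i2
      simp only [D3] at i2
      have : (k * l) * (Y 2).1 = 0 := by linear_combination i2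
      rcases mul_eq_zero.1 this with h | h
      · exact absurd h (mul_ne_zero hk.ne' hl.ne')
      · exact h
    obtain ⟨p1, p2, p3⟩ := a4
    obtain ⟨q1, q2, q3⟩ := a8
    have e2 : (Y 2).2.2 = -(Y 2).2.1 := by
      simp only [D3] at i1
      rw [p2, p3, q2, q3, e1] at i1
      have : ((Y 4).1 * (Y 8).1) * ((Y 2).2.2 + (Y 2).2.1) = 0 := by linear_combination i1 / 2
      rcases mul_eq_zero.1 this with h | h
      · exact absurd h (mul_ne_zero p1 q1)
      · linarith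
    refine ⟨e1, e2, fun e3 => h.ne 2 (by omega) ?_⟩
    rw [e3, neg_zero] at e2
    exact Prod.ext e1 (Prod.ext e3 e2)
  have a6 : Aff (Y 6) 1 1 := by
    obtain ⟨i1, i2⟩ := h.inc (6, 4, 8, 9, 3) (hL _ (by simp [frameSteps]))
    simp only at i1 i2
    obtain ⟨k, hk, y3⟩ := h.y3
    obtain ⟨p1, p2, p3⟩ := a4
    obtain ⟨q1, q2, q3⟩ := a8
    have e1 : (Y 6).2.2 = (Y 6).2.1 := by
      rw [h.y9, y3] at i2
      simp only [D3] at i2
      have : k * ((Y 6).2.1 - (Y 6).2.2) = 0 := by linear_combination i2 / 2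
      rcases mul_eq_zero.1 this with h | h
      · exact absurd h hk.ne'
      · linarith
    have e2 : (Y 6).2.1 = (Y 6).1 := by
      simp only [D3] at i1
      rw [p2, p3, q2, q3, e1] at i1
      have : ((Y 4).1 * (Y 8).1) * ((Y 6).2.1 - (Y 6).1) = 0 := by linear_combination i1 / 4
      rcases mul_eq_zero.1 this with h | h
      · exact absurd h (mul_ne_zero p1 q1)
      · linarith
    refine Aff.mk' (h.ne 6 (by omega)) ?_ ?_
    · rw [e2, one_mul]
    · rw [e1, e2, one_mul]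
  have a10 := h.step_db hD (s := 10) (by omega) (hL _ (by simp [frameSteps])) a9
  have a11 := h.step_hv (s := 11) (by omega) (hL _ (by simp [frameSteps])) a6 a10
  have a12 := h.step_hv (s := 12) (by omega) (hL _ (by simp [frameSteps])) a9 a10
  have a5 := h.step_dv hD (s := 5) (by omega) (hL _ (by simp [frameSteps])) a11 a3
  have a13 := h.step_db hD (s := 13) (by omega) (hL _ (by simp [frameSteps])) a12
  have a14 := h.step_hv (s := 14) (by omega) (hL _ (by simp [frameSteps])) a9 a13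
  have a7 := h.step_gv (s := 7) (y := 9 / 2) (by omega) (hL _ (by simp [frameSteps])) a5 a14 a6
    (by norm_num) (by norm_num)
  exact ⟨hD, a5.congr rfl (by norm_num), a7, a9, a14.congr (by norm_num) rfl⟩

/-- A block in the normalised configuration. -/
theorem block_forms {L : List Step} {M : ℕ} {Y : ℕ → V3} (h : NormConf L M Y) (hD : Diag Y)
    {r ra rb : ℕ} {X xa a xb b xz z : ℝ} (hM : r + 26 ≤ M)
    (hL : ∀ s ∈ blockSteps r ra rb, s ∈ L)
    (a5 : Aff (Y 5) 0 5) (a9 : Aff (Y 9) 2 2) (hp : Aff (Y (r - 2)) (X - 2) 2)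
    (ha : Aff (Y ra) xa (5 + a)) (hb : Aff (Y rb) xb (5 + b))
    (hz : Aff (Y (r + 22)) xz (5 + z)) :
    Aff (Y (r + 18)) (X + 10) (5 + a * b) ∧ Aff (Y (r + 21)) (X + 12) (5 + (2 * a - b)) ∧
      Aff (Y (r + 24)) (X + 14) 2 ∧ Aff (Y (r + 25)) (X + 14) (5 + z) := by
  have b0 := h.step_db hD (s := r) (by omega) (hL _ (by simp [blockSteps])) hp
  have b1 := h.step_hv (s := r + 1) (by omega) (hL _ (by simp [blockSteps])) a9 b0
  have b2 := h.step_hv (s := r + 2) (by omega) (hL _ (by simp [blockSteps])) hb b0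
  have b3 := h.step_db hD (s := r + 3) (by omega) (hL _ (by simp [blockSteps])) b1
  have b4 := h.step_hv (s := r + 4) (by omega) (hL _ (by simp [blockSteps])) a9 b3
  have b5 := h.step_db hD (s := r + 5) (by omega) (hL _ (by simp [blockSteps])) b4
  have b6 := h.step_hv (s := r + 6) (by omega) (hL _ (by simp [blockSteps])) a9 b5
  have b7 := h.step_hv (s := r + 7) (by omega) (hL _ (by simp [blockSteps])) a5 b5
  have b8 := h.step_db hD (s := r + 8) (by omega) (hL _ (by simp [blockSteps])) b2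
  have b10 := h.step_db hD (s := r + 10) (by omega) (hL _ (by simp [blockSteps])) b6
  have b11 := h.step_hv (s := r + 11) (by omega) (hL _ (by simp [blockSteps])) a9 b10
  have b12 := h.step_hv (s := r + 12) (by omega) (hL _ (by simp [blockSteps])) ha b10
  have b9 := h.step_gv (s := r + 9) (y := 5 + a * (1 + b) / 2) (by omega)
    (hL _ (by simp [blockSteps])) b7 b12 b8 (by ring_nf; norm_num) (by ring)
  have b13 := h.step_db hD (s := r + 13) (by omega) (hL _ (by simp [blockSteps])) b11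
  have b14 := h.step_hv (s := r + 14) (by omega) (hL _ (by simp [blockSteps])) a9 b13
  have b15 := h.step_hv (s := r + 15) (by omega) (hL _ (by simp [blockSteps])) b9 b13
  have b16 := h.step_db hD (s := r + 16) (by omega) (hL _ (by simp [blockSteps])) b14
  have b17 := h.step_hv (s := r + 17) (by omega) (hL _ (by simp [blockSteps])) a9 b16
  have b18 := h.step_gv (s := r + 18) (y := 5 + a * b) (by omega)
    (hL _ (by simp [blockSteps])) b12 b15 b16 (by ring_nf; norm_num) (by ring)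
  have b19 := h.step_db hD (s := r + 19) (by omega) (hL _ (by simp [blockSteps])) b17
  have b20 := h.step_hv (s := r + 20) (by omega) (hL _ (by simp [blockSteps])) a9 b19
  have b21 := h.step_gv (s := r + 21) (y := 5 + (2 * a - b)) (by omega)
    (hL _ (by simp [blockSteps])) b2 b12 b19 (by ring_nf; norm_num) (by ring)
  have b23 := h.step_db hD (s := r + 23) (by omega) (hL _ (by simp [blockSteps])) b20
  have b24 := h.step_hv (s := r + 24) (by omega) (hL _ (by simp [blockSteps])) a9 b23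
  have b25 := h.step_hv (s := r + 25) (by omega) (hL _ (by simp [blockSteps])) hz b23
  exact ⟨b18.congr (by ring) rfl, b21.congr (by ring) rfl, b24.congr (by ring) rfl,
    b25.congr (by ring) rfl⟩

/-- The value of a register, read off from the normalised configuration. -/
noncomputable def readOff (Y : ℕ → V3) (i : ℕ) : ℝ :=
  (Y (regRank i)).2.2 / (Y (regRank i)).1 - 5

theorem readOff_eq {Y : ℕ → V3} {i : ℕ} {x w : ℝ} (h : Aff (Y (regRank i)) x (5 + w)) :
    readOff Y i = w := by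
  obtain ⟨h1, h2, h3⟩ := h
  unfold readOff
  rw [h3, mul_div_assoc, div_self h1]
  ring

theorem regRank_inp (t : ℕ) : regRank (3 * t + 2) = bas t + 25 := by
  unfold regRank
  have a1 : (3 * t + 2 - 2) / 3 = t := by omega
  have a2 : (3 * t + 2 - 2) % 3 = 0 := by omega
  rw [if_neg (by omega), if_neg (by omega), a1, a2]
  simp

theorem regRank_mul (t : ℕ) : regRank (3 * t + 3) = bas t + 18 := by
  unfold regRank
  have a1 : (3 * t + 3 - 2) / 3 = t := by omega
  have a2 : (3 * t + 3 - 2) % 3 = 1 := by omega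
  rw [if_neg (by omega), if_neg (by omega), a1, a2]
  simp

theorem regRank_ext (t : ℕ) : regRank (3 * t + 4) = bas t + 21 := by
  unfold regRank
  have a1 : (3 * t + 4 - 2) / 3 = t := by omega
  have a2 : (3 * t + 4 - 2) % 3 = 2 := by omega
  rw [if_neg (by omega), if_neg (by omega), a1, a2]
  simp

theorem program_forms {P : List (ℕ × ℕ)} (hP : SLPValid P) {Y : ℕ → V3}
    (h : NormConf (allSteps P) (bas P.length) Y)
    (hz : ∀ t < P.length, (Y (bas t + 22)).1 ≠ 0) :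
    ∀ n ≤ P.length, (Aff (Y (bas n - 2)) (8 + 16 * (n : ℝ) - 2) 2) ∧
      (∀ i < 3 * n + 2, ∃ x, Aff (Y (regRank i)) x (5 + readOff Y i)) ∧
      readOff Y 0 = 0 ∧ readOff Y 1 = -1 / 2 ∧
      ∀ t < n, readOff Y (3 * t + 3) = readOff Y (opA P t) * readOff Y (opB P t) ∧
        readOff Y (3 * t + 4) = 2 * readOff Y (opA P t) - readOff Y (opB P t) := by
  have hM : 16 ≤ bas P.length := by unfold bas; omega
  obtain ⟨hD, a5, a7, a9, a14⟩ := frame_forms h hM fun s hs => List.mem_append_left _ hs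
  intro n
  induction n with
  | zero =>
    intro _
    have r0 : readOff Y 0 = 0 := readOff_eq (x := 0) (w := 0) (by
      have : regRank 0 = 5 := rfl
      rw [this]; exact a5.congr rfl (by norm_num))
    have r1 : readOff Y 1 = -1 / 2 := readOff_eq (x := 1) (w := -1 / 2) (by
      have : regRank 1 = 7 := rfl
      rw [this]; exact a7.congr rfl (by norm_num))
    refine ⟨?_, ?_, r0, r1, fun t ht => by omega⟩
    · have : bas 0 - 2 = 14 := rfl
      rw [this]
      exact a14.congr (by norm_num) rfl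
    · intro i hi
      have : i = 0 ∨ i = 1 := by omega
      rcases this with rfl | rfl
      · refine ⟨0, ?_⟩
        have : regRank 0 = 5 := rfl
        rw [this, r0]; exact a5.congr rfl (by norm_num)
      · refine ⟨1, ?_⟩
        have : regRank 1 = 7 := rfl
        rw [this, r1]; exact a7.congr rfl (by norm_num)
  | succ n ih =>
    intro hn
    obtain ⟨i1, i2, i3, i4, i5⟩ := ih (by omega)
    obtain ⟨xa, ha⟩ := i2 (opA P n) (hP n (by omega)).1
    obtain ⟨xb, hb⟩ := i2 (opB P n) (hP n (by omega)).2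
    have hzz : Aff (Y (bas n + 22)) ((Y (bas n + 22)).2.1 / (Y (bas n + 22)).1)
        (5 + ((Y (bas n + 22)).2.2 / (Y (bas n + 22)).1 - 5)) := by
      have h0 := hz n (by omega)
      refine ⟨h0, ?_, ?_⟩
      · field_simp
      · field_simp
        ring
    have hb26 : bas n + 26 ≤ bas P.length := by
      have e : bas (n + 1) = bas n + 26 := by unfold bas; omega
      rw [← e]; exact bas_le hn
    obtain ⟨c1, c2, c3, c4⟩ := block_forms h hD hb26 (ra := regRank (opA P n))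
      (rb := regRank (opB P n)) (fun s hs => List.mem_append_right _
        (List.mem_flatMap.2 ⟨n, List.mem_range.2 (by omega), hs⟩)) a5 a9 i1 ha hb hzz
    rw [← regRank_mul] at c1
    rw [← regRank_ext] at c2
    rw [← regRank_inp] at c4
    refine ⟨?_, ?_, i3, i4, ?_⟩
    · have e : bas (n + 1) - 2 = bas n + 24 := by unfold bas; omega
      rw [e]
      exact c3.congr (by push_cast; ring) rfl
    · intro i hi
      by_cases h1 : i < 3 * n + 2
      · exact i2 i h1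
      · have : i = 3 * n + 2 ∨ i = 3 * n + 3 ∨ i = 3 * n + 4 := by omega
        rcases this with rfl | rfl | rfl
        · rw [readOff_eq c4]; exact ⟨_, c4⟩
        · rw [readOff_eq c1]; exact ⟨_, c1⟩
        · rw [readOff_eq c2]; exact ⟨_, c2⟩
    · intro t ht
      by_cases h1 : t < n
      · exact i5 t h1
      · obtain rfl : t = n := by omega
        exact ⟨readOff_eq c1, readOff_eq c2⟩

theorem slp_sound_aux {P : List (ℕ × ℕ)} {out : ℕ} (hP : SLPValid P)
    (ho' : out < 3 * P.length + 2) :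
    PCH (slpN P) (slpCons P out) → ∃ v, SLPSat P v ∧ v out < 0 := by
  intro h
  unfold slpN slpCons at h
  obtain ⟨e, he0, he1, he2⟩ := exists_exact_of_pch (by unfold bas; omega)
    (allSteps_pairwise hP) (allSteps_ok hP) h
  have hside : ∀ c ∈ [(1, 0, 3), (1, 0, 9), (3, 0, 9), (1, 3, 9), (1, 0, 5),
      (1, 0, regRank out), (5, 1, regRank out)], 0 < D3 (e c.1) (e c.2.1) (e c.2.2) :=
    fun c hc => he2 c (List.mem_append_left _ hc)
  have s1 := hside (1, 0, 3) (by simp)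
  have s2 := hside (1, 0, 9) (by simp)
  have s3 := hside (3, 0, 9) (by simp)
  have s4 := hside (1, 3, 9) (by simp)
  have s5 := hside (1, 0, 5) (by simp)
  have s6 := hside (1, 0, regRank out) (by simp)
  have s7 := hside (5, 1, regRank out) (by simp)
  have s8 : ∀ t < P.length, 0 < D3 (e 1) (e 0) (e (bas t + 22)) := fun t ht =>
    he2 (1, 0, bas t + 22) (List.mem_append_right _
      (List.mem_map.2 ⟨t, List.mem_range.2 ht, rfl⟩))
  simp only at s1 s2 s3 s4 s5 s6 s7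
  obtain ⟨Y, ⟨K, hK, hY⟩, hne, y0, y1, y3, y9⟩ := exists_normal s1 s2 s3 s4
  have hN : NormConf (allSteps P) (bas P.length) Y := by
    refine ⟨fun r hr => hne r (he0 r hr), fun s hs => ?_, y0, y1, y3, y9⟩
    obtain ⟨t1, t2⟩ := he1 s hs
    exact ⟨by rw [hY, t1, mul_zero], by rw [hY, t2, mul_zero]⟩
  obtain ⟨c0, hc0, y0⟩ := y0
  obtain ⟨c1, hc1, y1⟩ := y1
  have pos1 : ∀ r, 0 < D3 (e 1) (e 0) (e r) → 0 < (Y r).1 := by
    intro r hr
    have h1 : 0 < D3 (Y 1) (Y 0) (Y r) := by rw [hY]; exact mul_pos hK hr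
    rw [y0, y1] at h1
    simp only [D3] at h1
    have h2 : 0 < (c0 * c1) * (Y r).1 := by
      have e1 : (c0 * c1) * (Y r).1 = 0 * (0 * (Y r).2.2 - -c0 * (Y r).2.1) -
        -c1 * (0 * (Y r).2.2 - -c0 * (Y r).1) + 0 * (0 * (Y r).2.1 - 0 * (Y r).1) := by ring
      rw [e1]; exact h1
    exact (mul_pos_iff_of_pos_left (mul_pos hc0 hc1)).1 h2
  obtain ⟨-, g2, g3, g4, g5⟩ := program_forms hP hN (fun t ht => (pos1 _ (s8 t ht)).ne')
    P.length le_rfl
  refine ⟨readOff Y, ⟨g3, g4, g5⟩, ?_⟩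
  obtain ⟨xo, o1, o2, o3⟩ := g2 out ho'
  obtain ⟨x5, f1, f2, f3⟩ := g2 0 (by omega)
  have hr5 : regRank 0 = 5 := rfl
  rw [hr5, g3] at f3
  rw [hr5] at f1 f2
  have p5 := pos1 5 s5
  have po := pos1 _ s6
  have h1 : 0 < D3 (Y 5) (Y 1) (Y (regRank out)) := by rw [hY]; exact mul_pos hK s7
  rw [y1] at h1
  simp only [D3] at h1
  rw [o3, f3] at h1
  have h2 : 0 < (c1 * (Y 5).1 * (Y (regRank out)).1) * (-readOff Y out) := by
    refine lt_of_lt_of_eq h1 ?_
    ring
  have h3 := (mul_pos_iff_of_pos_left (mul_pos (mul_pos hc1 p5) po)).1 h2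
  linarith

end Pool.Agent.CRt.Cf
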