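import Pool.Agent.CRt.ConfPoly
import Pool.Agent.CRt.ConfExact
import Pool.Agent.CRt.ConfSound

/-!
# The configuration of a straight-line program

The main facts are `slp_valid`, `slp_complete`, `slp_sound`, `poly_slpCons` and `poly_slpN`.
-/

set_option autoImplicit false

namespace Pool.Agent.CRt

theorem slp_valid {P : List (ℕ × ℕ)} {out : ℕ} (hP : SLPValid P) (ho : 2 ≤ out)
    (ho' : out < 3 * P.length + 2) : TValid (slpN P) (slpCons P out) :=
  Cf.slp_valid hP ho ho'

theorem slp_complete {P : List (ℕ × ℕ)} {out : ℕ} (hP : SLPValid P) (_ho : 2 ≤ out)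
    (ho' : out < 3 * P.length + 2) :
    (∃ v, SLPSat P v ∧ SLPBdd P v ∧ v out < 0) → PCH (slpN P) (slpCons P out) :=
  Cf.slp_complete_aux hP ho'

theorem slp_sound {P : List (ℕ × ℕ)} {out : ℕ} (hP : SLPValid P) (_ho : 2 ≤ out)
    (ho' : out < 3 * P.length + 2) :
    PCH (slpN P) (slpCons P out) → ∃ v, SLPSat P v ∧ v out < 0 :=
  Cf.slp_sound_aux hP ho'

theorem poly_slpCons : FP.Poly (fun p : List (ℕ × ℕ) × ℕ => slpCons p.1 p.2) :=
  Cf.poly_slpCons

theorem poly_slpN : FP.Poly (fun P : List (ℕ × ℕ) => slpN P) := Cf.poly_slpN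

end Pool.Agent.CRt
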