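import Pool.Agent.CRt.Arith

/-!
# Combinatorics of the configuration of a straight-line program
-/

set_option autoImplicit false

namespace Pool.Agent.CRt.Cf

/-- The point of the step `s` does not occur in the step `s'`. -/
def Fresh (s' s : Step) : Prop :=
  s.1 ≠ s'.1 ∧ s.1 ≠ s'.2.1 ∧ s.1 ≠ s'.2.2.1 ∧ s.1 ≠ s'.2.2.2.1 ∧ s.1 ≠ s'.2.2.2.2

/-- The ranks of a step are less than `M` and distinct where necessary. -/
def StepOk (M : ℕ) (s : Step) : Prop :=
  s.1 < M ∧ s.2.1 < M ∧ s.2.2.1 < M ∧ s.2.2.2.1 < M ∧ s.2.2.2.2 < M ∧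
    s.1 ≠ s.2.1 ∧ s.1 ≠ s.2.2.1 ∧ s.1 ≠ s.2.2.2.1 ∧ s.1 ≠ s.2.2.2.2 ∧
    s.2.1 ≠ s.2.2.1 ∧ s.2.2.2.1 ≠ s.2.2.2.2

instance : DecidableRel Fresh := fun s' s => by unfold Fresh; infer_instance
instance (M : ℕ) : DecidablePred (StepOk M) := fun s => by unfold StepOk; infer_instance

theorem StepOk.mono {M M' : ℕ} {s : Step} (h : StepOk M s) (hM : M ≤ M') : StepOk M' s := by
  obtain ⟨h1, h2, h3, h4, h5, h6⟩ := h
  exact ⟨by omega, by omega, by omega, by omega, by omega, h6⟩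

theorem frame_ok : ∀ s ∈ frameSteps, StepOk 16 s := by decide

theorem frame_pairwise : frameSteps.Pairwise Fresh := by decide

theorem regRank_lt {i t : ℕ} (h : i < 3 * t + 2) : regRank i < bas t := by
  unfold regRank bas
  split_ifs <;> omega

theorem le_regRank (i : ℕ) : 5 ≤ regRank i := by
  unfold regRank bas
  split_ifs <;> omega

theorem bas_le {t t' : ℕ} (h : t ≤ t') : bas t ≤ bas t' := by unfold bas; omega

theorem block_ok (r ra rb : ℕ) (hr : 16 ≤ r) (ha : 5 ≤ ra) (ha' : ra < r) (hb : 5 ≤ rb)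
    (hb' : rb < r) : ∀ s ∈ blockSteps r ra rb, r ≤ s.1 ∧ StepOk (r + 26) s := by
  intro s hs
  simp only [blockSteps, List.mem_cons, List.not_mem_nil, or_false] at hs
  unfold StepOk
  rcases hs with rfl | rfl | rfl | rfl | rfl | rfl | rfl | rfl | rfl | rfl | rfl | rfl | rfl |
    rfl | rfl | rfl | rfl | rfl | rfl | rfl | rfl | rfl | rfl | rfl | rfl <;>
  refine ⟨?_, ?_, ?_, ?_, ?_, ?_, ?_, ?_, ?_, ?_, ?_, ?_⟩ <;> dsimp only <;> omega

theorem block_pairwise (r ra rb : ℕ) (hr : 16 ≤ r) (ha' : ra < r) (hb' : rb < r) : (blockSteps r ra rb).Pairwise Fresh := by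
  unfold blockSteps
  repeat' first
    | exact List.Pairwise.nil
    | refine List.Pairwise.cons ?_ ?_
  all_goals
    intro s hs
    simp only [List.mem_cons, List.not_mem_nil, or_false] at hs
  all_goals
    unfold Fresh
  all_goals
    repeat' (first | (rcases hs with rfl | hs) | (rcases hs with rfl))
  all_goals
    first
    | (refine ⟨?_, ?_, ?_, ?_, ?_⟩ <;> dsimp only <;> omega)

/-- The steps of the block `t` of the program `P`. -/
def blk (P : List (ℕ × ℕ)) (t : ℕ) : List Step :=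
  blockSteps (bas t) (regRank (opA P t)) (regRank (opB P t))

/-- The steps of the first `n` blocks. -/
def stepsUpTo (P : List (ℕ × ℕ)) (n : ℕ) : List Step :=
  frameSteps ++ (List.range n).flatMap (blk P)

theorem allSteps_eq (P : List (ℕ × ℕ)) : allSteps P = stepsUpTo P P.length := rfl

theorem stepsUpTo_zero (P : List (ℕ × ℕ)) : stepsUpTo P 0 = frameSteps := by
  simp [stepsUpTo]

theorem stepsUpTo_succ (P : List (ℕ × ℕ)) (n : ℕ) :
    stepsUpTo P (n + 1) = stepsUpTo P n ++ blk P n := by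
  simp [stepsUpTo, List.range_succ]

theorem blk_ok {P : List (ℕ × ℕ)} (hP : SLPValid P) {t : ℕ} (ht : t < P.length) :
    ∀ s ∈ blk P t, bas t ≤ s.1 ∧ StepOk (bas (t + 1)) s := by
  have h := block_ok (bas t) (regRank (opA P t)) (regRank (opB P t)) (by unfold bas; omega)
    (le_regRank _) (regRank_lt (hP t ht).1) (le_regRank _) (regRank_lt (hP t ht).2)
  have e : bas (t + 1) = bas t + 26 := by unfold bas; omega
  rw [e]
  exact h

theorem blk_pairwise {P : List (ℕ × ℕ)} (hP : SLPValid P) {t : ℕ} (ht : t < P.length) :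
    (blk P t).Pairwise Fresh :=
  block_pairwise (bas t) (regRank (opA P t)) (regRank (opB P t)) (by unfold bas; omega)
    (regRank_lt (hP t ht).1) (regRank_lt (hP t ht).2)

theorem stepsUpTo_good {P : List (ℕ × ℕ)} (hP : SLPValid P) : ∀ n ≤ P.length,
    (∀ s ∈ stepsUpTo P n, StepOk (bas n) s) ∧ (stepsUpTo P n).Pairwise Fresh := by
  intro n
  induction n with
  | zero =>
    intro _
    rw [stepsUpTo_zero]
    exact ⟨frame_ok, frame_pairwise⟩
  | succ n ih =>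
    intro hn
    obtain ⟨h1, h2⟩ := ih (by omega)
    rw [stepsUpTo_succ]
    have h3 := blk_ok hP (t := n) (by omega)
    refine ⟨?_, ?_⟩
    · intro s hs
      rcases List.mem_append.1 hs with hs | hs
      · exact (h1 s hs).mono (bas_le (by omega))
      · exact (h3 s hs).2
    · rw [List.pairwise_append]
      refine ⟨h2, blk_pairwise hP (by omega), ?_⟩
      intro s' hs' s hs
      obtain ⟨a1, a2, a3, a4, a5, -⟩ := h1 s' hs'
      have b := (h3 s hs).1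
      refine ⟨?_, ?_, ?_, ?_, ?_⟩ <;> omega

theorem allSteps_ok {P : List (ℕ × ℕ)} (hP : SLPValid P) :
    ∀ s ∈ allSteps P, StepOk (bas P.length) s := (stepsUpTo_good hP _ le_rfl).1

theorem allSteps_pairwise {P : List (ℕ × ℕ)} (hP : SLPValid P) :
    (allSteps P).Pairwise Fresh := (stepsUpTo_good hP _ le_rfl).2

theorem mem_repsOf {i r : ℕ} : i ∈ repsOf r ↔ ∃ q < 4, i = 4 * r + 1 + q := by
  unfold repsOf
  simp only [List.mem_cons, List.not_mem_nil, or_false]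
  constructor
  · rintro (h | h | h | h)
    · exact ⟨0, by omega, h⟩
    · exact ⟨1, by omega, h⟩
    · exact ⟨2, by omega, h⟩
    · exact ⟨3, by omega, h⟩
  · rintro ⟨q, hq, rfl⟩
    omega

theorem forall_repsOf {p : ℕ → Prop} {r : ℕ} :
    (∀ i ∈ repsOf r, p i) ↔ ∀ q < 4, p (4 * r + 1 + q) := by
  constructor
  · intro h q hq
    exact h _ (mem_repsOf.2 ⟨q, hq, rfl⟩)
  · intro h i hi
    obtain ⟨q, hq, rfl⟩ := mem_repsOf.1 hi
    exact h q hq

theorem mem_sideCons {c t : ℕ × ℕ × ℕ} :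
    t ∈ sideCons c ↔ t.1 ∈ repsOf c.1 ∧ t.2.1 ∈ repsOf c.2.1 ∧ t.2.2 ∈ repsOf c.2.2 := by
  unfold sideCons
  simp only [List.mem_flatMap, List.mem_map]
  constructor
  · rintro ⟨i, hi, j, hj, k, hk, rfl⟩
    exact ⟨hi, hj, hk⟩
  · rintro ⟨hi, hj, hk⟩
    exact ⟨_, hi, _, hj, _, hk, rfl⟩

/-- The condition imposed by a step, for an arbitrary predicate of triples. -/
theorem forall_stepCons {s : Step} {p : ℕ × ℕ × ℕ → Prop} : (∀ t ∈ stepCons s, p t) ↔
    ∀ q < 4,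
      (∀ i ∈ repsOf s.2.1, ∀ j ∈ repsOf s.2.2.1,
        p (if 2 ≤ q then (i, j, 4 * s.1 + 1 + q) else (j, i, 4 * s.1 + 1 + q))) ∧
      (∀ i ∈ repsOf s.2.2.2.1, ∀ j ∈ repsOf s.2.2.2.2,
        p (if q % 2 = 1 then (i, j, 4 * s.1 + 1 + q) else (j, i, 4 * s.1 + 1 + q))) := by
  unfold stepCons
  constructor
  · intro h q hq
    refine ⟨fun i hi j hj => h _ ?_, fun i hi j hj => h _ ?_⟩
    · refine List.mem_flatMap.2 ⟨q, List.mem_range.2 hq, List.mem_append_left _ ?_⟩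
      exact List.mem_flatMap.2 ⟨i, hi, List.mem_map.2 ⟨j, hj, rfl⟩⟩
    · refine List.mem_flatMap.2 ⟨q, List.mem_range.2 hq, List.mem_append_right _ ?_⟩
      exact List.mem_flatMap.2 ⟨i, hi, List.mem_map.2 ⟨j, hj, rfl⟩⟩
  · intro h t ht
    obtain ⟨q, hq, ht⟩ := List.mem_flatMap.1 ht
    obtain ⟨h1, h2⟩ := h q (List.mem_range.1 hq)
    rcases List.mem_append.1 ht with ht | ht
    · obtain ⟨i, hi, ht⟩ := List.mem_flatMap.1 ht
      obtain ⟨j, hj, rfl⟩ := List.mem_map.1 ht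
      exact h1 i hi j hj
    · obtain ⟨i, hi, ht⟩ := List.mem_flatMap.1 ht
      obtain ⟨j, hj, rfl⟩ := List.mem_map.1 ht
      exact h2 i hi j hj

/-- The triples of ranks are triples of distinct ranks less than `M`. -/
def SideOk (M : ℕ) (c : ℕ × ℕ × ℕ) : Prop :=
  c.1 < M ∧ c.2.1 < M ∧ c.2.2 < M ∧ c.1 ≠ c.2.1 ∧ c.1 ≠ c.2.2 ∧ c.2.1 ≠ c.2.2

theorem sides_ok {P : List (ℕ × ℕ)} {out : ℕ} (ho : 2 ≤ out)
    (ho' : out < 3 * P.length + 2) : ∀ c ∈ sides P out, SideOk (bas P.length) c := by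
  have h1 : regRank out < bas P.length := regRank_lt ho'
  have h2 : 16 ≤ regRank out := by
    unfold regRank bas
    split_ifs <;> omega
  have h3 : 16 ≤ bas P.length := by unfold bas; omega
  intro c hc
  unfold sides at hc
  rcases List.mem_append.1 hc with hc | hc
  · simp only [List.mem_cons, List.not_mem_nil, or_false] at hc
    unfold SideOk
    rcases hc with rfl | rfl | rfl | rfl | rfl | rfl | rfl <;>
    refine ⟨?_, ?_, ?_, ?_, ?_, ?_⟩ <;> dsimp only <;> omega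
  · obtain ⟨t, ht, rfl⟩ := List.mem_map.1 hc
    have ht' := List.mem_range.1 ht
    unfold SideOk
    unfold bas
    refine ⟨?_, ?_, ?_, ?_, ?_, ?_⟩ <;> dsimp only <;> omega

theorem stepCons_valid {M : ℕ} {s : Step} (hs : StepOk M s) : ∀ c ∈ stepCons s,
    0 < c.1 ∧ 0 < c.2.1 ∧ 0 < c.2.2 ∧ c.1 ≤ 4 * M ∧ c.2.1 ≤ 4 * M ∧ c.2.2 ≤ 4 * M ∧
    c.1 ≠ c.2.1 ∧ c.1 ≠ c.2.2 ∧ c.2.1 ≠ c.2.2 := by
  obtain ⟨h1, h2, h3, h4, h5, h6, h7, h8, h9, h10, h11⟩ := hs
  refine forall_stepCons.2 ?_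
  intro q hq
  refine ⟨?_, ?_⟩
  · intro i hi j hj
    obtain ⟨a, ha, rfl⟩ := mem_repsOf.1 hi
    obtain ⟨b, hb, rfl⟩ := mem_repsOf.1 hj
    split_ifs <;> refine ⟨?_, ?_, ?_, ?_, ?_, ?_, ?_, ?_, ?_⟩ <;> dsimp only <;> omega
  · intro i hi j hj
    obtain ⟨a, ha, rfl⟩ := mem_repsOf.1 hi
    obtain ⟨b, hb, rfl⟩ := mem_repsOf.1 hj
    split_ifs <;> refine ⟨?_, ?_, ?_, ?_, ?_, ?_, ?_, ?_, ?_⟩ <;> dsimp only <;> omega

theorem slp_valid {P : List (ℕ × ℕ)} {out : ℕ} (hP : SLPValid P) (ho : 2 ≤ out)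
    (ho' : out < 3 * P.length + 2) : TValid (slpN P) (slpCons P out) := by
  intro c hc
  unfold slpCons at hc
  unfold slpN
  rcases List.mem_append.1 hc with hc | hc
  · obtain ⟨s, hs, hc⟩ := List.mem_flatMap.1 hc
    exact stepCons_valid (allSteps_ok hP s hs) c hc
  · obtain ⟨s, hs, hc⟩ := List.mem_flatMap.1 hc
    obtain ⟨h1, h2, h3, h4, h5, h6⟩ := sides_ok ho ho' s hs
    obtain ⟨k1, k2, k3⟩ := mem_sideCons.1 hc
    obtain ⟨a, ha, e1⟩ := mem_repsOf.1 k1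
    obtain ⟨b, hb, e2⟩ := mem_repsOf.1 k2
    obtain ⟨d, hd, e3⟩ := mem_repsOf.1 k3
    rw [e1, e2, e3]
    refine ⟨?_, ?_, ?_, ?_, ?_, ?_, ?_, ?_, ?_⟩ <;> omega

end Pool.Agent.CRt.Cf
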