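import Pool.Agent.CRt.ConfComb

/-!
# Perturbation of an exact configuration
-/

set_option autoImplicit false
set_option linter.unusedSimpArgs false

namespace Pool.Agent.CRt.Cf

open Filter Topology

/-! ## Linearity and continuity of the determinant -/

theorem D3_add₃ (u v w w' : V3) : D3 u v (w + w') = D3 u v w + D3 u v w' := by
  simp only [D3, Prod.fst_add, Prod.snd_add]; ring

theorem D3_smul₃ (u v w : V3) (a : ℝ) : D3 u v (a • w) = a * D3 u v w := by
  simp only [D3, Prod.smul_fst, Prod.smul_snd, smul_eq_mul]; ring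

theorem D3_add₂ (u v w w' : V3) : D3 u (w + w') v = D3 u w v + D3 u w' v := by
  simp only [D3, Prod.fst_add, Prod.snd_add]; ring

theorem D3_smul₂ (u v w : V3) (a : ℝ) : D3 u (a • w) v = a * D3 u w v := by
  simp only [D3, Prod.smul_fst, Prod.smul_snd, smul_eq_mul]; ring

theorem D3_add₁ (u v w w' : V3) : D3 (w + w') u v = D3 w u v + D3 w' u v := by
  simp only [D3, Prod.fst_add, Prod.snd_add]; ring

theorem D3_smul₁ (u v w : V3) (a : ℝ) : D3 (a • w) u v = a * D3 w u v := by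
  simp only [D3, Prod.smul_fst, Prod.smul_snd, smul_eq_mul]; ring

theorem D3_swap₂₃ (u v w : V3) : D3 u w v = - D3 u v w := by
  simp only [D3]; ring

theorem D3_swap₁₂ (u v w : V3) : D3 v u w = - D3 u v w := by
  simp only [D3]; ring

theorem D3_self₂₃ (u v : V3) : D3 u v v = 0 := by
  simp only [D3]; ring

theorem D3_self₁₃ (u v : V3) : D3 u v u = 0 := by
  simp only [D3]; ring

/-- The determinant as a linear functional of the third argument. -/
def D3L (u v : V3) : V3 →ₗ[ℝ] ℝ where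
  toFun w := D3 u v w
  map_add' w w' := D3_add₃ u v w w'
  map_smul' a w := by simpa using D3_smul₃ u v w a

theorem D3L_apply (u v w : V3) : D3L u v w = D3 u v w := rfl

theorem continuous_D3 (i j k : ℕ) : Continuous fun c : ℕ → V3 => D3 (c i) (c j) (c k) := by
  unfold D3
  fun_prop

theorem continuous_D3' (W : V3) (j k : ℕ) : Continuous fun c : ℕ → V3 => D3 W (c j) (c k) := by
  unfold D3
  fun_prop

theorem eventually_list {α β : Type*} {f : Filter β} {l : List α} {p : α → β → Prop}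
    (h : ∀ a ∈ l, ∀ᶠ x in f, p a x) : ∀ᶠ x in f, ∀ a ∈ l, p a x := by
  induction l with
  | nil => exact Eventually.of_forall fun x a ha => by simp at ha
  | cons b l ih =>
    have h1 := ih fun a ha => h a (List.mem_cons_of_mem _ ha)
    filter_upwards [h b List.mem_cons_self, h1] with x hx hy a ha
    rcases List.mem_cons.1 ha with rfl | ha
    · exact hx
    · exact hy a ha

/-- Directions in the four quadrants of two functionals, sorted by a third functional. -/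
theorem exists_deltas (f g h : V3 →ₗ[ℝ] ℝ) (c a : V3) (hfc : 0 < f c) (hgc : g c = 0)
    (hhc : 0 < h c) (hfa : f a = 0) (hga : 0 < g a) (hha : 0 < h a) :
    ∃ δ : ℕ → V3, (∀ q < 4, if 2 ≤ q then 0 < f (δ q) else f (δ q) < 0) ∧
      (∀ q < 4, if q % 2 = 1 then 0 < g (δ q) else g (δ q) < 0) ∧
      (∀ q q', q < q' → q' < 4 → h (δ q) < h (δ q')) := by
  have hc' : h ((h c)⁻¹ • c) = 1 := by
    rw [map_smul, smul_eq_mul]; exact inv_mul_cancel₀ hhc.ne'
  have ha' : h ((h a)⁻¹ • a) = 1 := by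
    rw [map_smul, smul_eq_mul]; exact inv_mul_cancel₀ hha.ne'
  have fc' : 0 < f ((h c)⁻¹ • c) := by
    rw [map_smul, smul_eq_mul]; exact mul_pos (inv_pos.2 hhc) hfc
  have gc' : g ((h c)⁻¹ • c) = 0 := by
    rw [map_smul, smul_eq_mul, hgc, mul_zero]
  have ga' : 0 < g ((h a)⁻¹ • a) := by
    rw [map_smul, smul_eq_mul]; exact mul_pos (inv_pos.2 hha) hga
  have fa' : f ((h a)⁻¹ • a) = 0 := by
    rw [map_smul, smul_eq_mul, hfa, mul_zero]
  generalize (h c)⁻¹ • c = c' at *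
  generalize (h a)⁻¹ • a = a' at *
  refine ⟨fun q => if q = 0 then -(c' + a') else if q = 1 then -((2 : ℝ) • c' - a')
    else if q = 2 then (2 : ℝ) • c' - a' else c' + a', ?_, ?_, ?_⟩
  · intro q hq
    interval_cases q <;>
    simp only [map_neg, map_add, map_sub, map_smul, smul_eq_mul, fa', if_true, if_false,
      reduceCtorEq, Nat.reduceEqDiff, Nat.reduceLeDiff, OfNat.ofNat_ne_zero, OfNat.ofNat_ne_one,
      one_ne_zero, zero_ne_one, le_refl, zero_add] <;> norm_num <;> linarith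
  · intro q hq
    interval_cases q <;>
    simp only [map_neg, map_add, map_sub, map_smul, smul_eq_mul, gc', if_true, if_false,
      reduceCtorEq, Nat.reduceEqDiff, Nat.reduceLeDiff, OfNat.ofNat_ne_zero, OfNat.ofNat_ne_one,
      one_ne_zero, zero_ne_one, le_refl, zero_add] <;> norm_num <;> linarith
  · intro q q' hqq hq'
    have hq : q < 4 := by omega
    interval_cases q' <;> interval_cases q <;>
    first
    | omega
    | (simp only [map_neg, map_add, map_sub, map_smul, smul_eq_mul, hc', ha', if_true, if_false,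
      reduceCtorEq, Nat.reduceEqDiff, Nat.reduceLeDiff, OfNat.ofNat_ne_zero, OfNat.ofNat_ne_one,
      one_ne_zero, zero_ne_one, le_refl, zero_add]; norm_num)

/-- The geometric conditions for a step which allow the perturbation. -/
def StepGeo (W : V3) (e : ℕ → V3) (s : Step) : Prop :=
  D3 (e s.2.1) (e s.2.2.1) (e s.1) = 0 ∧ D3 (e s.2.2.2.1) (e s.2.2.2.2) (e s.1) = 0 ∧
  (0 < D3 (e s.2.1) (e s.2.2.1) (e s.2.2.2.1) ∧ 0 < D3 W (e s.1) (e s.2.2.2.1) ∨
    D3 (e s.2.1) (e s.2.2.1) (e s.2.2.2.1) < 0 ∧ D3 W (e s.1) (e s.2.2.2.1) < 0) ∧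
  (0 < D3 (e s.2.2.2.1) (e s.2.2.2.2) (e s.2.1) ∧ 0 < D3 W (e s.1) (e s.2.1) ∨
    D3 (e s.2.2.2.1) (e s.2.2.2.2) (e s.2.1) < 0 ∧ D3 W (e s.1) (e s.2.1) < 0)

/-- The constraints on the representatives of the point of a step. -/
def StepGood (W : V3) (s : Step) (c : ℕ → V3) : Prop :=
  (∀ t ∈ stepCons s, 0 < D3 (c t.1) (c t.2.1) (c t.2.2)) ∧
    ∀ q < 4, ∀ q' < 4, q < q' → 0 < D3 W (c (4 * s.1 + 1 + q)) (c (4 * s.1 + 1 + q'))

theorem exists_signed {f g h : V3 →ₗ[ℝ] ℝ} {c : V3}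
    (h1 : 0 < f c ∧ 0 < h c ∨ f c < 0 ∧ h c < 0) (h2 : g c = 0) :
    ∃ c' : V3, 0 < f c' ∧ g c' = 0 ∧ 0 < h c' := by
  rcases h1 with ⟨h1, h3⟩ | ⟨h1, h3⟩
  · exact ⟨c, h1, h2, h3⟩
  · refine ⟨-c, ?_, ?_, ?_⟩
    · rw [map_neg]; linarith
    · rw [map_neg, h2, neg_zero]
    · rw [map_neg]; linarith

theorem exists_deltas_step {W : V3} {e : ℕ → V3} {s : Step} (hs : StepGeo W e s) :
    ∃ δ : ℕ → V3,
      (∀ q < 4, if 2 ≤ q then 0 < D3 (e s.2.1) (e s.2.2.1) (δ q)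
        else D3 (e s.2.1) (e s.2.2.1) (δ q) < 0) ∧
      (∀ q < 4, if q % 2 = 1 then 0 < D3 (e s.2.2.2.1) (e s.2.2.2.2) (δ q)
        else D3 (e s.2.2.2.1) (e s.2.2.2.2) (δ q) < 0) ∧
      (∀ q q', q < q' → q' < 4 → D3 W (e s.1) (δ q) < D3 W (e s.1) (δ q')) := by
  obtain ⟨h1, h2, h3, h4⟩ := hs
  obtain ⟨c', c1, c2, c3⟩ := exists_signed (f := D3L (e s.2.1) (e s.2.2.1))
    (g := D3L (e s.2.2.2.1) (e s.2.2.2.2)) (h := D3L W (e s.1)) (c := e s.2.2.2.1) h3
    (D3_self₁₃ _ _)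
  obtain ⟨a', a1, a2, a3⟩ := exists_signed (f := D3L (e s.2.2.2.1) (e s.2.2.2.2))
    (g := D3L (e s.2.1) (e s.2.2.1)) (h := D3L W (e s.1)) (c := e s.2.1) h4
    (D3_self₁₃ _ _)
  exact exists_deltas (D3L (e s.2.1) (e s.2.2.1)) (D3L (e s.2.2.2.1) (e s.2.2.2.2))
    (D3L W (e s.1)) c' a' c1 c2 c3 a2 a1 a3

theorem eventually_inside {W u d d' : V3} (h : D3 W u d < D3 W u d') :
    ∀ᶠ ε : ℝ in 𝓝[>] 0, 0 < D3 W (u + ε • d) (u + ε • d') := by
  have h1 : ∀ ε : ℝ, D3 W (u + ε • d) (u + ε • d') =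
      ε * ((D3 W u d' - D3 W u d) + ε * D3 W d d') := by
    intro ε
    rw [D3_add₂, D3_add₃, D3_add₃, D3_smul₂, D3_smul₃, D3_smul₃, D3_smul₂, D3_self₂₃,
      D3_swap₂₃ W u d]
    ring
  have h2 : Tendsto (fun ε : ℝ => (D3 W u d' - D3 W u d) + ε * D3 W d d') (𝓝[>] 0)
      (𝓝 ((D3 W u d' - D3 W u d) + 0 * D3 W d d')) := by
    refine Tendsto.mono_left ?_ nhdsWithin_le_nhds
    exact (continuous_const.add (continuous_id.mul continuous_const)).tendsto 0
  have h3 : ∀ᶠ ε : ℝ in 𝓝[>] 0, 0 < (D3 W u d' - D3 W u d) + ε * D3 W d d' :=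
    h2.eventually_const_lt (by linarith)
  filter_upwards [h3, self_mem_nhdsWithin] with ε h4 h5
  rw [h1]
  exact mul_pos h5 h4

theorem pert_step {W : V3} {e : ℕ → V3} {s : Step} (hs : StepGeo W e s)
    (hself : s.1 ≠ s.2.1 ∧ s.1 ≠ s.2.2.1 ∧ s.1 ≠ s.2.2.2.1 ∧ s.1 ≠ s.2.2.2.2)
    (c0 : ℕ → V3)
    (h0 : ∀ r, r = s.1 ∨ r = s.2.1 ∨ r = s.2.2.1 ∨ r = s.2.2.2.1 ∨ r = s.2.2.2.2 →
      ∀ q < 4, c0 (4 * r + 1 + q) = e r)
    (Q : (ℕ → V3) → Prop) (hQ : ∀ᶠ c in 𝓝 c0, Q c) :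
    ∃ c1 : ℕ → V3, (∀ i, i ∉ repsOf s.1 → c1 i = c0 i) ∧
      ∀ᶠ c in 𝓝 c1, Q c ∧ StepGood W s c := by
  obtain ⟨δ, hδ1, hδ2, hδ3⟩ := exists_deltas_step hs
  obtain ⟨g1, g2, -, -⟩ := hs
  let cc : ℝ → ℕ → V3 := fun ε i =>
    if i ∈ repsOf s.1 then c0 i + ε • δ (i - (4 * s.1 + 1)) else c0 i
  have hcont : Continuous cc := by
    refine continuous_pi fun i => ?_
    by_cases hi : i ∈ repsOf s.1
    · simp only [cc, if_pos hi]
      fun_prop
    · simp only [cc, if_neg hi]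
      fun_prop
  have hcc0 : cc 0 = c0 := by
    funext i
    by_cases hi : i ∈ repsOf s.1
    · simp only [cc, if_pos hi, zero_smul, add_zero]
    · simp only [cc, if_neg hi]
  have hA : ∀ᶠ ε : ℝ in 𝓝[>] 0, ∀ᶠ c in 𝓝 (cc ε), Q c := by
    have h1 : ∀ᶠ c1 in 𝓝 (cc 0), ∀ᶠ c in 𝓝 c1, Q c := by
      rw [hcc0]; exact eventually_eventually_nhds.2 hQ
    exact nhdsWithin_le_nhds (hcont.continuousAt.eventually h1)
  have hB : ∀ᶠ ε : ℝ in 𝓝[>] 0, ∀ q ∈ Finset.range 4, ∀ q' ∈ Finset.range 4, q < q' →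
      0 < D3 W (e s.1 + ε • δ q) (e s.1 + ε • δ q') := by
    rw [eventually_all_finset]
    intro q hq
    rw [eventually_all_finset]
    intro q' hq'
    by_cases hqq : q < q'
    · filter_upwards [eventually_inside (hδ3 q q' hqq (Finset.mem_range.1 hq'))] with ε h _
      exact h
    · exact Eventually.of_forall fun ε h => absurd h hqq
  obtain ⟨ε, ⟨hεA, hεB⟩, hε⟩ := ((hA.and hB).and self_mem_nhdsWithin).exists
  replace hε : 0 < ε := hε
  have hrep : ∀ q < 4, cc ε (4 * s.1 + 1 + q) = e s.1 + ε • δ q := by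
    intro q hq
    have h1 : 4 * s.1 + 1 + q ∈ repsOf s.1 := mem_repsOf.2 ⟨q, hq, rfl⟩
    simp only [cc, if_pos h1, h0 s.1 (Or.inl rfl) q hq, Nat.add_sub_cancel_left]
  have hnot : ∀ r, r ≠ s.1 → ∀ i ∈ repsOf r, i ∉ repsOf s.1 := by
    intro r hr i hi hi'
    obtain ⟨q, hq, rfl⟩ := mem_repsOf.1 hi
    obtain ⟨q', hq', h⟩ := mem_repsOf.1 hi'
    omega
  have hop : ∀ r, r ≠ s.1 → (r = s.2.1 ∨ r = s.2.2.1 ∨ r = s.2.2.2.1 ∨ r = s.2.2.2.2) →
      ∀ i ∈ repsOf r, cc ε i = e r := by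
    intro r hr hr' i hi
    simp only [cc, if_neg (hnot r hr i hi)]
    obtain ⟨q, hq, rfl⟩ := mem_repsOf.1 hi
    exact h0 r (Or.inr hr') q hq
  refine ⟨cc ε, fun i hi => by simp only [cc, if_neg hi], hεA.and ?_⟩
  refine Eventually.and ?_ ?_
  · refine eventually_list fun t ht => ?_
    refine (continuous_D3 t.1 t.2.1 t.2.2).continuousAt.eventually_const_lt ?_
    revert t
    refine forall_stepCons.2 fun q hq => ⟨fun i hi j hj => ?_, fun i hi j hj => ?_⟩
    · have hi' := hop _ hself.1.symm (Or.inl rfl) i hi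
      have hj' := hop _ hself.2.1.symm (Or.inr (Or.inl rfl)) j hj
      have h5 := hδ1 q hq
      split_ifs with h6
      · simp only [if_pos h6] at h5
        dsimp only
        rw [hi', hj', hrep q hq, D3_add₃, D3_smul₃, g1, zero_add]
        exact mul_pos hε h5
      · simp only [if_neg h6] at h5
        dsimp only
        rw [hi', hj', hrep q hq, D3_swap₁₂, D3_add₃, D3_smul₃, g1, zero_add]
        nlinarith [mul_pos hε (neg_pos.2 h5)]
    · have hi' := hop _ hself.2.2.1.symm (Or.inr (Or.inr (Or.inl rfl))) i hi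
      have hj' := hop _ hself.2.2.2.symm (Or.inr (Or.inr (Or.inr rfl))) j hj
      have h5 := hδ2 q hq
      split_ifs with h6
      · simp only [if_pos h6] at h5
        dsimp only
        rw [hi', hj', hrep q hq, D3_add₃, D3_smul₃, g2, zero_add]
        exact mul_pos hε h5
      · simp only [if_neg h6] at h5
        dsimp only
        rw [hi', hj', hrep q hq, D3_swap₁₂, D3_add₃, D3_smul₃, g2, zero_add]
        nlinarith [mul_pos hε (neg_pos.2 h5)]
  · have h1 : ∀ᶠ c in 𝓝 (cc ε), ∀ q ∈ Finset.range 4, ∀ q' ∈ Finset.range 4, q < q' →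
        0 < D3 W (c (4 * s.1 + 1 + q)) (c (4 * s.1 + 1 + q')) := by
      rw [eventually_all_finset]
      intro q hq
      rw [eventually_all_finset]
      intro q' hq'
      by_cases hqq : q < q'
      · have h2 : 0 < D3 W (cc ε (4 * s.1 + 1 + q)) (cc ε (4 * s.1 + 1 + q')) := by
          rw [hrep q (Finset.mem_range.1 hq), hrep q' (Finset.mem_range.1 hq')]
          exact hεB q hq q' hq' hqq
        filter_upwards [(continuous_D3' W (4 * s.1 + 1 + q)
          (4 * s.1 + 1 + q')).continuousAt.eventually_const_lt h2] with c hc _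
        exact hc
      · exact Eventually.of_forall fun ε h => absurd h hqq
    filter_upwards [h1] with c hc q hq q' hq' hqq
    exact hc q (Finset.mem_range.2 hq) q' (Finset.mem_range.2 hq') hqq

theorem pert_list {W : V3} {e : ℕ → V3} : ∀ (L : List Step), (∀ s ∈ L, StepGeo W e s) →
    L.Pairwise Fresh →
    (∀ s ∈ L, s.1 ≠ s.2.1 ∧ s.1 ≠ s.2.2.1 ∧ s.1 ≠ s.2.2.2.1 ∧ s.1 ≠ s.2.2.2.2) →
    ∀ (c0 : ℕ → V3),
    (∀ s ∈ L, ∀ r, r = s.1 ∨ r = s.2.1 ∨ r = s.2.2.1 ∨ r = s.2.2.2.1 ∨ r = s.2.2.2.2 →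
      ∀ q < 4, c0 (4 * r + 1 + q) = e r) →
    ∀ (Q : (ℕ → V3) → Prop), (∀ᶠ c in 𝓝 c0, Q c) →
    ∃ c1 : ℕ → V3, (∀ i, (∀ s ∈ L, i ∉ repsOf s.1) → c1 i = c0 i) ∧
      ∀ᶠ c in 𝓝 c1, Q c ∧ ∀ s ∈ L, StepGood W s c := by
  intro L
  induction L using List.reverseRecOn with
  | nil =>
    intro _ _ _ c0 _ Q hQ
    exact ⟨c0, fun _ _ => rfl, hQ.mono fun c hc => ⟨hc, fun s hs => by simp at hs⟩⟩
  | append_singleton L s ih =>
    intro hgeo hfr hself c0 h0 Q hQ
    have hs : s ∈ L ++ [s] := by simp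
    have hL : ∀ s' ∈ L, s' ∈ L ++ [s] := fun s' hs' => List.mem_append_left _ hs'
    obtain ⟨c1, h1, h2⟩ := pert_step (hgeo s hs) (hself s hs) c0 (h0 s hs) Q hQ
    rw [List.pairwise_append] at hfr
    obtain ⟨hfr1, -, hfr2⟩ := hfr
    obtain ⟨c2, h3, h4⟩ := ih (fun s' hs' => hgeo s' (hL s' hs')) hfr1
      (fun s' hs' => hself s' (hL s' hs')) c1 (by
        intro s' hs' r hr q hq
        rw [h1, h0 s' (hL s' hs') r hr q hq]
        intro hmem
        obtain ⟨q', hq', he⟩ := mem_repsOf.1 hmem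
        obtain ⟨f1, f2, f3, f4, f5⟩ := hfr2 s' hs' s (by simp)
        rcases hr with hr | hr | hr | hr | hr <;> omega)
      (fun c => Q c ∧ StepGood W s c) h2
    refine ⟨c2, ?_, ?_⟩
    · intro i hi
      rw [h3 i fun s' hs' => hi s' (hL s' hs'), h1 i (hi s hs)]
    · filter_upwards [h4] with c hc
      refine ⟨hc.1.1, fun s' hs' => ?_⟩
      rcases List.mem_append.1 hs' with hs' | hs'
      · exact hc.2 s' hs'
      · rw [List.mem_singleton.1 hs']
        exact hc.1.2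

/-- The perturbation theorem. -/
theorem pert_all {W : V3} {e : ℕ → V3} {M : ℕ} {L : List Step} {S : List (ℕ × ℕ × ℕ)}
    (hM : 2 ≤ M)
    (hW : ∀ r s, r < s → s < M → 0 < D3 W (e r) (e s)) (hgeo : ∀ s ∈ L, StepGeo W e s)
    (hfr : L.Pairwise Fresh) (hok : ∀ s ∈ L, StepOk M s)
    (hS : ∀ c ∈ S, 0 < D3 (e c.1) (e c.2.1) (e c.2.2)) :
    ∃ c : ℕ → V3, (∀ j k, 0 < j → j < k → k ≤ 4 * M → 0 < D3 W (c j) (c k)) ∧
      (∀ s ∈ L, ∀ t ∈ stepCons s, 0 < D3 (c t.1) (c t.2.1) (c t.2.2)) ∧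
      (∀ s ∈ S, ∀ t ∈ sideCons s, 0 < D3 (c t.1) (c t.2.1) (c t.2.2)) := by
  classical
  -- the exact configuration
  let c0 : ℕ → V3 := fun i => e ((i - 1) / 4)
  have hc0 : ∀ r, ∀ q < 4, c0 (4 * r + 1 + q) = e r := by
    intro r q hq
    have : (4 * r + 1 + q - 1) / 4 = r := by omega
    simp only [c0, this]
  -- open conditions
  let Q : (ℕ → V3) → Prop := fun c =>
    (∀ r ∈ Finset.range M, ∀ s ∈ Finset.range M, r < s → ∀ q ∈ Finset.range 4,
      ∀ q' ∈ Finset.range 4, 0 < D3 W (c (4 * r + 1 + q)) (c (4 * s + 1 + q'))) ∧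
    ∀ s ∈ S, ∀ t ∈ sideCons s, 0 < D3 (c t.1) (c t.2.1) (c t.2.2)
  have hQ : ∀ᶠ c in 𝓝 c0, Q c := by
    refine Eventually.and ?_ ?_
    · rw [eventually_all_finset]; intro r hr
      rw [eventually_all_finset]; intro s hs
      by_cases hrs : r < s
      · have h1 : ∀ᶠ c in 𝓝 c0, ∀ q ∈ Finset.range 4,
            ∀ q' ∈ Finset.range 4, 0 < D3 W (c (4 * r + 1 + q)) (c (4 * s + 1 + q')) := by
          rw [eventually_all_finset]; intro q hq
          rw [eventually_all_finset]; intro q' hq'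
          refine (continuous_D3' W _ _).continuousAt.eventually_const_lt ?_
          dsimp only
          rw [hc0 r q (Finset.mem_range.1 hq), hc0 s q' (Finset.mem_range.1 hq')]
          exact hW r s hrs (Finset.mem_range.1 hs)
        filter_upwards [h1] with c hc _
        exact hc
      · exact Eventually.of_forall fun c h => absurd h hrs
    · refine eventually_list fun s hs => eventually_list fun t ht => ?_
      obtain ⟨k1, k2, k3⟩ := mem_sideCons.1 ht
      obtain ⟨a, ha, e1⟩ := mem_repsOf.1 k1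
      obtain ⟨b, hb, e2⟩ := mem_repsOf.1 k2
      obtain ⟨d, hd, e3⟩ := mem_repsOf.1 k3
      refine (continuous_D3 _ _ _).continuousAt.eventually_const_lt ?_
      rw [e1, e2, e3]
      dsimp only
      rw [hc0 _ _ ha, hc0 _ _ hb, hc0 _ _ hd]
      exact hS s hs
  obtain ⟨c1, h1, h2⟩ := pert_list L hgeo hfr (fun s hs => by
    obtain ⟨-, -, -, -, -, g1, g2, g3, g4, -⟩ := hok s hs
    exact ⟨g1, g2, g3, g4⟩) c0 (fun s _ r _ q hq => hc0 r q hq) Q hQ
  -- free ranks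
  let Free : ℕ → Prop := fun r => ∀ s ∈ L, s.1 ≠ r
  have hc1 : ∀ r, Free r → ∀ q < 4, c1 (4 * r + 1 + q) = e r := by
    intro r hr q hq
    rw [h1, hc0 r q hq]
    intro s hs hmem
    obtain ⟨q', hq', he⟩ := mem_repsOf.1 hmem
    exact hr s hs (by omega)
  let d : ℕ → V3 := fun r => if r = 0 then e 1 else -(e 0)
  have hd : ∀ r < M, 0 < D3 W (e r) (d r) := by
    intro r hr
    by_cases h : r = 0
    · subst h
      simp only [d, if_pos rfl]
      exact hW 0 1 (by omega) (by omega)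
    · have h3 := hW 0 r (by omega) hr
      simp only [d, if_neg h]
      have h4 : D3 W (e r) (-(e 0)) = D3 W (e 0) (e r) := by
        have : -(e 0) = (-1 : ℝ) • (e 0) := by simp
        rw [this, D3_smul₃, D3_swap₂₃ W (e 0) (e r)]; ring
      rw [h4]; exact h3
  let cc : ℝ → ℕ → V3 := fun ε i =>
    if Free ((i - 1) / 4) then c1 i + (ε * (((i - 1) % 4 : ℕ) : ℝ)) • d ((i - 1) / 4) else c1 i
  have hcont : Continuous cc := by
    refine continuous_pi fun i => ?_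
    by_cases hi : Free ((i - 1) / 4)
    · simp only [cc, if_pos hi]
      fun_prop
    · simp only [cc, if_neg hi]
      fun_prop
  have hcc0 : cc 0 = c1 := by
    funext i
    by_cases hi : Free ((i - 1) / 4)
    · simp only [cc, if_pos hi, zero_mul, zero_smul, add_zero]
    · simp only [cc, if_neg hi]
  have hA : ∀ᶠ ε : ℝ in 𝓝[>] 0, Q (cc ε) ∧ ∀ s ∈ L, StepGood W s (cc ε) := by
    have h3 : ∀ᶠ c in 𝓝 (cc 0), Q c ∧ ∀ s ∈ L, StepGood W s c := by
      rw [hcc0]; exact h2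
    exact nhdsWithin_le_nhds (hcont.continuousAt.eventually h3)
  obtain ⟨ε, ⟨hεQ, hεL⟩, hε⟩ := (hA.and self_mem_nhdsWithin).exists
  replace hε : 0 < ε := hε
  refine ⟨cc ε, ?_, fun s hs => (hεL s hs).1, hεQ.2⟩
  intro j k hj hjk hk
  obtain ⟨r, q, hq, rfl⟩ : ∃ r q, q < 4 ∧ j = 4 * r + 1 + q :=
    ⟨(j - 1) / 4, (j - 1) % 4, by omega, by omega⟩
  obtain ⟨s, q', hq', rfl⟩ : ∃ s q', q' < 4 ∧ k = 4 * s + 1 + q' :=
    ⟨(k - 1) / 4, (k - 1) % 4, by omega, by omega⟩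
  by_cases hrs : r < s
  · exact hεQ.1 r (Finset.mem_range.2 (by omega)) s (Finset.mem_range.2 (by omega)) hrs
      q (Finset.mem_range.2 hq) q' (Finset.mem_range.2 hq')
  · obtain rfl : r = s := by omega
    have hqq : q < q' := by omega
    by_cases hf : Free r
    · have key : ∀ q < 4, cc ε (4 * r + 1 + q) = e r + (ε * (q : ℝ)) • d r := by
        intro q hq
        have e1 : (4 * r + 1 + q - 1) / 4 = r := by omega
        have e2 : (4 * r + 1 + q - 1) % 4 = q := by omega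
        simp only [cc, e1, e2, if_pos hf, hc1 r hf q hq]
      rw [key q hq, key q' hq', D3_add₂, D3_add₃, D3_add₃, D3_smul₂, D3_smul₃, D3_smul₂,
        D3_smul₃, D3_self₂₃, D3_self₂₃, D3_swap₂₃ W (e r) (d r)]
      have h5 : (q : ℝ) < (q' : ℝ) := by exact_mod_cast hqq
      have h6 := hd r (by omega)
      nlinarith [mul_pos (mul_pos hε (sub_pos.2 h5)) h6]
    · simp only [Free, not_forall, not_not] at hf
      obtain ⟨s, hs, rfl⟩ := hf
      exact (hεL s hs).2 q hq q' hq' hqq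

theorem pch_of_exact {W : V3} {e : ℕ → V3} {M : ℕ} {L : List Step} {S : List (ℕ × ℕ × ℕ)}
    (hM : 2 ≤ M)
    (hW : ∀ r s, r < s → s < M → 0 < D3 W (e r) (e s)) (hgeo : ∀ s ∈ L, StepGeo W e s)
    (hfr : L.Pairwise Fresh) (hok : ∀ s ∈ L, StepOk M s)
    (hS : ∀ c ∈ S, 0 < D3 (e c.1) (e c.2.1) (e c.2.2)) :
    PCH (4 * M) (L.flatMap stepCons ++ S.flatMap sideCons) := by
  obtain ⟨c, h1, h2, h3⟩ := pert_all hM hW hgeo hfr hok hS
  have hne : ∀ i, 0 < i → (if i = 0 then W else c i) = c i := fun i hi => if_neg (by omega)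
  refine ⟨fun i => if i = 0 then W else c i, ?_, ?_⟩
  · intro j k hj hjk hk
    simp only [if_true]
    rw [hne j hj, hne k (by omega)]
    exact h1 j k hj hjk hk
  · intro t ht
    rcases List.mem_append.1 ht with ht | ht
    · obtain ⟨s, hs, ht⟩ := List.mem_flatMap.1 ht
      obtain ⟨p1, p2, p3, -⟩ := stepCons_valid (hok s hs) t ht
      simp only [hne _ p1, hne _ p2, hne _ p3]
      exact h2 s hs t ht
    · obtain ⟨s, hs, ht⟩ := List.mem_flatMap.1 ht
      obtain ⟨k1, k2, k3⟩ := mem_sideCons.1 ht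
      have p : ∀ {i r : ℕ}, i ∈ repsOf r → 0 < i := by
        intro i r hi
        obtain ⟨q, hq, rfl⟩ := mem_repsOf.1 hi
        omega
      simp only [hne _ (p k1), hne _ (p k2), hne _ (p k3)]
      exact h3 s hs t ht

end Pool.Agent.CRt.Cf
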