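import Pool.Agent.CRt.Arith
import Pool.Agent.PolyTime.Tags

/-!
# `slpCons` and `slpN` are computable in polynomial time
-/

set_option autoImplicit false

namespace Pool.Agent.CRt.Cf

open FP

theorem poly_slpN : Poly (fun P : List (ℕ × ℕ) => slpN P) := by
  unfold slpN bas
  fun_prop

@[fun_prop]
theorem poly_repsOf' {α : Type} [Code α] {f : α → ℕ} (hf : Poly f) :
    Poly (fun a => repsOf (f a)) := by
  unfold repsOf
  fun_prop

theorem poly_sideCons : Poly (fun c : ℕ × ℕ × ℕ => sideCons c) := by
  unfold sideCons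
  fun_prop

theorem poly_stepCons : Poly (fun c : Step => stepCons c) := by
  unfold stepCons
  fun_prop

@[fun_prop]
theorem poly_regRank' {α : Type} [Code α] {f : α → ℕ} (hf : Poly f) :
    Poly (fun a => regRank (f a)) := by
  have h : Poly (fun i : ℕ => regRank i) := by
    unfold regRank bas
    fun_prop
  exact h.comp hf

theorem poly_mk5 {α : Type} [Code α] {f g h k l : α → ℕ} (hf : Poly f) (hg : Poly g)
    (hh : Poly h) (hk : Poly k) (hl : Poly l) :
    Poly (fun a => ((f a, g a, h a, k a, l a) : Step)) :=
  hf.pair (hg.pair (hh.pair (hk.pair hl)))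

theorem poly_blockSteps {α : Type} [Code α] {f g h : α → ℕ} (hf : Poly f) (hg : Poly g)
    (hh : Poly h) : Poly (fun a => blockSteps (f a) (g a) (h a)) := by
  have key : ∀ (r : α → ℕ), Poly r → ∀ n : ℕ, Poly (fun a => r a + n) :=
    fun r hr n => FP.Poly.add hr (FP.Poly.const n)
  have key' : Poly (fun a => f a - 2) := FP.Poly.sub hf (FP.Poly.const 2)
  have kc : ∀ n : ℕ, Poly (fun _ : α => n) := fun n => FP.Poly.const n
  unfold blockSteps
  repeat' first
    | with_reducible exact hf
    | with_reducible exact hg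
    | with_reducible exact hh
    | with_reducible exact key'
    | with_reducible exact kc _
    | with_reducible exact key _ hf _
    | with_reducible exact FP.Poly.const _
    | with_reducible refine poly_mk5 ?_ ?_ ?_ ?_ ?_
    | with_reducible refine Poly.cons ?_ ?_

theorem poly_allSteps : Poly (fun P : List (ℕ × ℕ) => allSteps P) := by
  unfold allSteps
  refine Poly.append (FP.Poly.const _) (Poly.flatMap (by fun_prop) ?_)
  refine poly_blockSteps (f := fun p : List (ℕ × ℕ) × ℕ => bas p.2)
    (g := fun p : List (ℕ × ℕ) × ℕ => regRank (opA p.1 p.2))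
    (h := fun p : List (ℕ × ℕ) × ℕ => regRank (opB p.1 p.2)) ?_ ?_ ?_
  · unfold bas; fun_prop
  · unfold opA; fun_prop
  · unfold opB; fun_prop

theorem poly_sides : Poly (fun p : List (ℕ × ℕ) × ℕ => sides p.1 p.2) := by
  unfold sides
  have h : Poly (fun p : List (ℕ × ℕ) × ℕ => regRank p.2) := by fun_prop
  have k : ∀ (u v : ℕ), Poly (fun p : List (ℕ × ℕ) × ℕ => (u, v, regRank p.2)) :=
    fun u v => FP.Poly.pair (FP.Poly.const u) (FP.Poly.pair (FP.Poly.const v) h)
  refine Poly.append ?_ ?_
  · repeat' first
      | with_reducible exact k _ _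
      | with_reducible exact FP.Poly.const _
      | with_reducible refine Poly.cons ?_ ?_
  · unfold bas
    fun_prop

theorem poly_slpCons : Poly (fun p : List (ℕ × ℕ) × ℕ => slpCons p.1 p.2) := by
  unfold slpCons
  refine Poly.append ?_ ?_
  · exact Poly.flatMap (poly_allSteps.comp (by fun_prop)) (poly_stepCons.comp (by fun_prop))
  · exact Poly.flatMap poly_sides (poly_sideCons.comp (by fun_prop))

end Pool.Agent.CRt.Cf
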