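import Pool.Agent.CRt.Alt

/-!
# Every forced pair of curves crosses exactly once, and there are no other crossings
-/

set_option autoImplicit false

namespace Pool.Agent.CRt

open Set

variable {N : ℕ} {T : List STriple} {D : LDraw (gEdges N T)}

/-- The point set of a curve. -/
def LDraw.Cu (D : LDraw (gEdges N T)) (c : Cv) : Set Plane :=
  {z | ∃ d ∈ curveEdges N c, z ∈ D.S d}

theorem edge_sub_Cu {c : Cv} {d : Vx × Vx} (hd : d ∈ curveEdges N c) : D.S d ⊆ D.Cu c :=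
  fun _ hz => ⟨d, hd, hz⟩

theorem joined_Cu (c : Cv) : JoinedIn (D.Cu c) (D.pos (lend c)) (D.pos (rend N c)) := by
  by_cases h : c.2.1 = 0
  · have hd : (lend c, rend N c) ∈ curveEdges N c := mem_curveEdges.2 (Or.inl ⟨h, rfl⟩)
    exact (D.joined _).mono (edge_sub_Cu hd)
  · have hd : (lend c, star (c.2.1 - 1)) ∈ curveEdges N c :=
      mem_curveEdges.2 (Or.inr ⟨h, Or.inl rfl⟩)
    have hd' : (star (c.2.1 - 1), rend N c) ∈ curveEdges N c :=
      mem_curveEdges.2 (Or.inr ⟨h, Or.inr rfl⟩)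
    exact ((D.joined _).mono (edge_sub_Cu hd)).trans ((D.joined _).mono (edge_sub_Cu hd'))

theorem Skel.avoids_mono {K : Skel D} {A B : Set Plane} {V W : Set Vx} (h : K.Avoids B W)
    (hAB : A ⊆ B) (hV : ∀ v ∈ W, v.1 < 3 → D.pos v ∈ A → v ∈ V) : K.Avoids A V := by
  intro q hq z hz
  obtain ⟨v, h1, h2, h3⟩ := h q hq z ⟨hz.1, hAB hz.2⟩
  refine ⟨v, hV v h1 ?_ (by rw [← h3]; exact hz.2), h2, h3⟩
  have := conn_ends hq
  rcases h2 with h2 | h2 <;> rw [h2] <;> omega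

theorem Skel.avoids_edge (K : Skel D) {c : Cv} (hc : c ∈ curves N T) {d : Vx × Vx}
    (hd : d ∈ curveEdges N c) : K.Avoids (D.S d) {v | EndOf v d} := by
  intro q hq z hz
  obtain ⟨v, h1, h2, h3⟩ := K.curve q hq c hc d hd z hz
  exact ⟨v, h2, h1, h3⟩

theorem Skel.avoids_union {K : Skel D} {A B : Set Plane} {V W : Set Vx} (hA : K.Avoids A V)
    (hB : K.Avoids B W) : K.Avoids (A ∪ B) (V ∪ W) := by
  intro q hq z hz
  rcases hz.2 with h | h
  · obtain ⟨v, h1, h2⟩ := hA q hq z ⟨hz.1, h⟩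
    exact ⟨v, Or.inl h1, h2⟩
  · obtain ⟨v, h1, h2⟩ := hB q hq z ⟨hz.1, h⟩
    exact ⟨v, Or.inr h1, h2⟩

theorem curve_ends_tag {c : Cv} {d : Vx × Vx} (hd : d ∈ curveEdges N c) {v : Vx}
    (hv : EndOf v d) (h3 : v.1 < 3) : v = lend c ∨ v = rend N c := by
  rcases mem_curveEdges.1 hd with ⟨h0, rfl⟩ | ⟨h0, rfl | rfl⟩ <;> rcases hv with rfl | rfl
  · exact Or.inl rfl
  · exact Or.inr rfl
  · exact Or.inl rfl
  · simp [star] at h3
  · simp [star] at h3
  · exact Or.inr rfl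

theorem Skel.avoids_Cu (K : Skel D) {c : Cv} (hc : c ∈ curves N T) :
    K.Avoids (D.Cu c) {lend c, rend N c} := by
  rintro q hq z ⟨hz, d, hd, hzd⟩
  obtain ⟨v, h1, h2, h3⟩ := K.curve q hq c hc d hd z ⟨hz, hzd⟩
  have h4 : v.1 < 3 := by
    have := conn_ends hq
    rcases h1 with h1 | h1 <;> rw [h1] <;> omega
  exact ⟨v, curve_ends_tag hd h2 h4, h1, h3⟩

/-- Forced pairs cross. -/
theorem Skel.forced_meet (K : Skel D) (hT : SValid N T) {c c' : Cv} (hc : c ∈ curves N T)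
    (hc' : c' ∈ curves N T) (hf : Forced c c') : ∃ z, z ∈ D.Cu c ∧ z ∈ D.Cu c' := by
  by_contra hcon
  push Not at hcon
  have l1 := curve_line hT hc
  have l2 := curve_line hT hc'
  have o1 := curve_off hc
  have o2 := curve_off hc'
  have := K.alt (p₁ := 3 * c.1 + c.2.2.2 + 1) (p₂ := 3 * c'.1 + c'.2.2.2 + 1)
    (q₁ := 3 * (N - 1 - c.1) + c.2.2.2 + 1) (q₂ := 3 * (N - 1 - c'.1) + c'.2.2.2 + 1)
    (by have := hf.1; omega) (by omega) (by omega) (by omega) (joined_Cu c) (joined_Cu c')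
    (Set.disjoint_left.2 hcon) (K.avoids_Cu hc) (by
      have := hf.1
      refine ⟨?_, ?_, ?_, ?_⟩ <;> rintro (h | h) <;>
        simp only [lend, rend, lv, rv, hub, Set.mem_singleton_iff, Prod.mk.injEq] at h <;> omega) (K.avoids_Cu hc') (by
      have := hf.1
      refine ⟨?_, ?_, ?_, ?_⟩ <;> rintro (h | h) <;>
        simp only [lend, rend, lv, rv, hub, Set.mem_singleton_iff, Prod.mk.injEq] at h <;> omega)
  have := hf.1
  omega

/-- The data obtained by counting. -/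
structure Tight (D : LDraw (gEdges N T)) : Prop where
  /-- forced pairs of curves meet in exactly one point -/
  uniq : ∀ c ∈ curves N T, ∀ c' ∈ curves N T, Forced c c' → ∀ z w, z ∈ D.Cu c → z ∈ D.Cu c' →
    w ∈ D.Cu c → w ∈ D.Cu c' → z = w
  /-- all other pairs of edges have no crossings -/
  none : ∀ d ∈ gEdges N T, ∀ d' ∈ gEdges N T, d ≠ d' → ∀ z ∈ D.S d ∩ D.S d',
    CommonEnd D.pos d d' z ∨ ∃ c ∈ curves N T, ∃ c' ∈ curves N T, Forced c c' ∧
      ((d ∈ curveEdges N c ∧ d' ∈ curveEdges N c') ∨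
        (d' ∈ curveEdges N c ∧ d ∈ curveEdges N c'))

theorem tight (hT : SValid N T) (K : Skel D) (h : D.crossings.encard ≤ kk N T) : Tight D := by
  classical
  have hfin : D.crossings.Finite := Set.finite_of_encard_le_coe h
  have hcard : hfin.toFinset.card ≤ kk N T := by
    have := h
    rw [hfin.encard_eq_coe_toFinset_card] at this
    exact_mod_cast this
  -- the chosen crossing of a forced pair
  have hch : ∀ p : Cv × Cv, ∃ x : (Vx × Vx) × (Vx × Vx) × Plane, p ∈ forcedPairs N T →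
      x.1 ∈ curveEdges N p.1 ∧ x.2.1 ∈ curveEdges N p.2 ∧ x.2.2 ∈ D.S x.1 ∧ x.2.2 ∈ D.S x.2.1 := by
    intro p
    by_cases hp : p ∈ forcedPairs N T
    · obtain ⟨h1, h2, h3⟩ := mem_forcedPairs.1 hp
      obtain ⟨z, ⟨d, hd, hz⟩, ⟨d', hd', hz'⟩⟩ := K.forced_meet hT h1 h2 h3
      exact ⟨(d, d', z), fun _ => ⟨hd, hd', hz, hz'⟩⟩
    · exact ⟨((lv 0, lv 0), (lv 0, lv 0), 0), fun h => absurd h hp⟩
  choose x hx using hch
  have hgE : ∀ c ∈ curves N T, ∀ d ∈ curveEdges N c, d ∈ gEdges N T := fun c hc d hd =>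
    mem_gEdges.2 (Or.inl ⟨c, hc, hd⟩)
  have hnc : ∀ c ∈ curves N T, ∀ c' ∈ curves N T, Forced c c' → ∀ d ∈ curveEdges N c,
      ∀ d' ∈ curveEdges N c', ∀ z, ¬ CommonEnd D.pos d d' z := by
    rintro c hc c' hc' hf d hd d' hd' z ⟨v, h1, h2, -⟩
    exact forced_no_common hT hc hc' hf hd hd' h1 h2
  have hnd : ∀ c ∈ curves N T, ∀ c' ∈ curves N T, Forced c c' → ∀ d ∈ curveEdges N c,
      ∀ d' ∈ curveEdges N c', d ≠ d' := by
    rintro c hc c' hc' hf d hd d' hd' rfl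
    exact forced_no_common hT hc hc' hf hd hd' (Or.inl rfl) (Or.inl rfl)
  set φ : Cv × Cv → Sym2 (Vx × Vx) × Plane := fun p => (s((x p).1, (x p).2.1), (x p).2.2) with hφ
  have hmem : ∀ p ∈ (forcedPairs N T).toFinset, φ p ∈ hfin.toFinset := by
    intro p hp
    rw [List.mem_toFinset] at hp
    obtain ⟨h1, h2, h3⟩ := mem_forcedPairs.1 hp
    obtain ⟨g1, g2, g3, g4⟩ := hx p hp
    rw [Set.Finite.mem_toFinset]
    exact ⟨(x p).1, hgE _ h1 _ g1, (x p).2.1, hgE _ h2 _ g2, hnd _ h1 _ h2 h3 _ g1 _ g2, rfl,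
      ⟨g3, g4⟩, hnc _ h1 _ h2 h3 _ g1 _ g2 _⟩
  -- the pair of edges determines the pair of curves
  have hdet : ∀ c ∈ curves N T, ∀ c' ∈ curves N T, Forced c c' → ∀ a ∈ curves N T,
      ∀ a' ∈ curves N T, Forced a a' → ∀ d ∈ curveEdges N c, ∀ d' ∈ curveEdges N c',
      ∀ b ∈ curveEdges N a, ∀ b' ∈ curveEdges N a', s(d, d') = s(b, b') →
      c = a ∧ c' = a' ∧ d = b ∧ d' = b' := by
    intro c hc c' hc' hf a ha a' ha' hf' d hd d' hd' b hb b' hb' hs
    rcases Sym2.eq_iff.1 hs with ⟨rfl, rfl⟩ | ⟨rfl, rfl⟩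
    · exact ⟨curveEdges_inj hT hc ha hd hb, curveEdges_inj hT hc' ha' hd' hb', rfl, rfl⟩
    · have e1 := curveEdges_inj hT hc ha' hd hb'
      have e2 := curveEdges_inj hT hc' ha hd' hb
      subst e1 e2
      have := hf.1
      have := hf'.1
      omega
  have hinj : Set.InjOn φ (forcedPairs N T).toFinset := by
    intro p hp p' hp' hpp
    rw [Finset.mem_coe, List.mem_toFinset] at hp hp'
    obtain ⟨h1, h2, h3⟩ := mem_forcedPairs.1 hp
    obtain ⟨g1, g2, g3, g4⟩ := hx p hp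
    obtain ⟨h1', h2', h3'⟩ := mem_forcedPairs.1 hp'
    obtain ⟨g1', g2', g3', g4'⟩ := hx p' hp'
    have := hdet _ h1 _ h2 h3 _ h1' _ h2' h3' _ g1 _ g2 _ g1' _ g2' (congrArg Prod.fst hpp)
    exact Prod.ext this.1 this.2.1
  have hk : (forcedPairs N T).toFinset.card = kk N T := by
    rw [List.toFinset_card_of_nodup (forcedPairs_nodup hT)]
    rfl
  have hsurj : ∀ y ∈ D.crossings, ∃ p ∈ forcedPairs N T, φ p = y := by
    intro y hy
    have himg : (forcedPairs N T).toFinset.image φ = hfin.toFinset := by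
      refine Finset.eq_of_subset_of_card_le ?_ ?_
      · intro z hz
        rw [Finset.mem_image] at hz
        obtain ⟨p, hp, rfl⟩ := hz
        exact hmem p hp
      · rw [Finset.card_image_of_injOn hinj, hk]
        exact hcard
    have : y ∈ (forcedPairs N T).toFinset.image φ := by
      rw [himg, Set.Finite.mem_toFinset]
      exact hy
    rw [Finset.mem_image] at this
    obtain ⟨p, hp, hpy⟩ := this
    exact ⟨p, List.mem_toFinset.1 hp, hpy⟩
  refine ⟨?_, ?_⟩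
  · -- every common point of a forced pair is the chosen one
    intro c hc c' hc' hf
    have key : ∀ z, z ∈ D.Cu c → z ∈ D.Cu c' → z = (x (c, c')).2.2 := by
      rintro z ⟨d, hd, hz⟩ ⟨d', hd', hz'⟩
      obtain ⟨p, hp, hpy⟩ := hsurj (s(d, d'), z) ⟨d, hgE _ hc _ hd, d', hgE _ hc' _ hd',
        hnd _ hc _ hc' hf _ hd _ hd', rfl, ⟨hz, hz'⟩, hnc _ hc _ hc' hf _ hd _ hd' _⟩
      obtain ⟨h1, h2, h3⟩ := mem_forcedPairs.1 hp
      obtain ⟨g1, g2, g3, g4⟩ := hx p hp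
      have := hdet _ h1 _ h2 h3 _ hc _ hc' hf _ g1 _ g2 _ hd _ hd' (congrArg Prod.fst hpy)
      have hpc : p = (c, c') := Prod.ext this.1 this.2.1
      rw [← hpc]
      exact (congrArg Prod.snd hpy).symm
    intro z w hz hz' hw hw'
    rw [key z hz hz', key w hw hw']
  · intro d hd d' hd' hne z hz
    by_cases hce : CommonEnd D.pos d d' z
    · exact Or.inl hce
    · right
      obtain ⟨p, hp, hpy⟩ := hsurj (s(d, d'), z) ⟨d, hd, d', hd', hne, rfl, hz, hce⟩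
      obtain ⟨h1, h2, h3⟩ := mem_forcedPairs.1 hp
      obtain ⟨g1, g2, g3, g4⟩ := hx p hp
      have hs : s((x p).1, (x p).2.1) = s(d, d') := congrArg Prod.fst hpy
      refine ⟨p.1, h1, p.2, h2, h3, ?_⟩
      rcases Sym2.eq_iff.1 hs with ⟨e1, e2⟩ | ⟨e1, e2⟩
      · left
        rw [← e1, ← e2]
        exact ⟨g1, g2⟩
      · right
        rw [← e1, ← e2]
        exact ⟨g1, g2⟩

end Pool.Agent.CRt
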