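import Mathlib
import Pool.Agent.NPC.Defs
import Pool.Agent.PolyTime.Decode

/-!
# The existential theory of the reals and `t`-polygonal crossing numbers: definitions

* `ETR`: the set of (encodings of) quantifier-free formulas `φ(x₁, …, xₙ)` over
  `(ℝ, +, ·, 0, 1, <)` such that `∃ x₁ … ∃ xₙ φ` is true;
* `ExistsR`: the class `∃ℝ` of the languages which are polynomial-time many-one reducible to `ETR`
  (`NPC.Reduces`, over Mathlib's Turing machines);
* `PolyDrawing t G`: `t`-polygonal drawings of the graph `G` in the plane;
* `CR t`: the decision problem of the `t`-polygonal crossing number.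
-/

set_option autoImplicit false

namespace Pool.Agent.CRt

/-! ## The existential theory of the reals -/

/-- Terms over `(ℝ, +, ·, 0, 1, <)`. -/
inductive Term : Type
  | var (i : ℕ)
  | zero
  | one
  | add (s t : Term)
  | mul (s t : Term)

/-- Quantifier-free formulas over `(ℝ, +, ·, 0, 1, <)`. -/
inductive Form : Type
  | lt (s t : Term)
  | eq (s t : Term)
  | not (φ : Form)
  | and (φ ψ : Form)
  | or (φ ψ : Form)

/-- The value of a term. -/
def Term.eval (x : ℕ → ℝ) : Term → ℝ
  | .var i => x i
  | .zero => 0
  | .one => 1
  | .add s t => s.eval x + t.eval x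
  | .mul s t => s.eval x * t.eval x

/-- The truth of a formula. -/
def Form.holds (x : ℕ → ℝ) : Form → Prop
  | .lt s t => s.eval x < t.eval x
  | .eq s t => s.eval x = t.eval x
  | .not φ => ¬ φ.holds x
  | .and φ ψ => φ.holds x ∧ ψ.holds x
  | .or φ ψ => φ.holds x ∨ ψ.holds x

/-- A term as a string of symbols in Polish notation. The symbols are the natural numbers:
`5` is `0`, `6` is `1`, `7` is `+`, `8` is `·` and `9 + i` is the variable `xᵢ`. -/
def Term.code : Term → List ℕ
  | .var i => [9 + i]
  | .zero => [5]
  | .one => [6]
  | .add s t => 7 :: (s.code ++ t.code)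
  | .mul s t => 8 :: (s.code ++ t.code)

/-- A formula as a string of symbols in Polish notation: `0` is `<`, `1` is `=`, `2` is `¬`, `3` is
`∧`, `4` is `∨`. -/
def Form.code : Form → List ℕ
  | .lt s t => 0 :: (s.code ++ t.code)
  | .eq s t => 1 :: (s.code ++ t.code)
  | .not φ => 2 :: φ.code
  | .and φ ψ => 3 :: (φ.code ++ ψ.code)
  | .or φ ψ => 4 :: (φ.code ++ ψ.code)

/-- The existential theory of the reals: the set of the strings which encode a formula
`φ(x₀, x₁, …)` such that `∃ x₀ ∃ x₁ …, φ(x₀, x₁, …)` is true. (`FP.enc` is the binary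
self-delimiting encoding of a list of natural numbers.) -/
def ETR : Set (List Bool) :=
  {w | ∃ φ : Form, FP.enc φ.code = w ∧ ∃ x : ℕ → ℝ, φ.holds x}

/-- The class `∃ℝ`: the languages which are polynomial-time many-one reducible to `ETR`. -/
def ExistsR : Set (Set (List Bool)) := {L | NPC.Reduces L ETR}

/-- `L` is `∃ℝ`-complete (with respect to polynomial-time many-one reductions). -/
def ExistsRComplete (L : Set (List Bool)) : Prop :=
  L ∈ ExistsR ∧ ∀ L' ∈ ExistsR, NPC.Reduces L' L

/-! ## Polygonal drawings -/

/-- The plane. -/
abbrev Plane := ℝ × ℝ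

/-- The point set of the polygonal path with break points `P 0, …, P t`. -/
def pathSet {t : ℕ} (P : Fin (t + 1) → Plane) : Set Plane :=
  ⋃ i : Fin t, segment ℝ (P i.castSucc) (P i.succ)

/-- The break points `P 0, …, P t` define a simple polygonal path consisting of `t` straight
(nondegenerate) segments: two of the segments only meet when they are consecutive, and then only
in their common endpoint. -/
structure IsPolyPath {t : ℕ} (P : Fin (t + 1) → Plane) : Prop where
  ne : ∀ i : Fin t, P i.castSucc ≠ P i.succ
  simple : ∀ i j : Fin t, i < j →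
    ∀ z ∈ segment ℝ (P i.castSucc) (P i.succ) ∩ segment ℝ (P j.castSucc) (P j.succ),
      (i : ℕ) + 1 = j ∧ z = P i.succ

/-- The determinant of two plane vectors. -/
def det2 (u v : Plane) : ℝ := u.1 * v.2 - u.2 * v.1

/-- The polygonal paths `P` and `Q` cross properly in the point `z`: it lies in the relative
interior of a segment of `P` and of a segment of `Q`, and the two segments are not parallel. -/
def ProperAt {t : ℕ} (P Q : Fin (t + 1) → Plane) (z : Plane) : Prop :=
  ∃ i j : Fin t, z ∈ openSegment ℝ (P i.castSucc) (P i.succ) ∧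
    z ∈ openSegment ℝ (Q j.castSucc) (Q j.succ) ∧
    det2 (P i.succ - P i.castSucc) (Q j.succ - Q j.castSucc) ≠ 0

/-- A `t`-polygonal drawing of the graph `G`: the vertices are mapped to distinct points of the
plane, every edge is mapped to a simple polygonal path consisting of `t` straight segments between
the points of its two endpoints, which does not pass through the point of any other vertex, and any
common point of the paths of two edges, except for the point of a common endpoint, is a proper
crossing. -/
structure PolyDrawing (t : ℕ) {V : Type} (G : SimpleGraph V) where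
  pos : V → Plane
  path : Sym2 V → Fin (t + 1) → Plane
  pos_inj : Function.Injective pos
  poly : ∀ e ∈ G.edgeSet, IsPolyPath (path e)
  ends : ∀ e ∈ G.edgeSet, s(path e 0, path e (Fin.last t)) = e.map pos
  avoid : ∀ e ∈ G.edgeSet, ∀ v, v ∉ e → pos v ∉ pathSet (path e)
  proper : ∀ e ∈ G.edgeSet, ∀ e' ∈ G.edgeSet, e ≠ e' →
    ∀ z ∈ pathSet (path e) ∩ pathSet (path e'),
      (∃ v, v ∈ e ∧ v ∈ e' ∧ z = pos v) ∨ ProperAt (path e) (path e') z

/-- The crossings of a drawing: the pairs consisting of an unordered pair of distinct edges and of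
a common point of their paths which is not the point of a common endpoint. -/
def PolyDrawing.crossings {t : ℕ} {V : Type} {G : SimpleGraph V} (D : PolyDrawing t G) :
    Set (Sym2 (Sym2 V) × Plane) :=
  {c | ∃ e ∈ G.edgeSet, ∃ e' ∈ G.edgeSet, e ≠ e' ∧ c.1 = s(e, e') ∧
    c.2 ∈ pathSet (D.path e) ∩ pathSet (D.path e') ∧ ¬ ∃ v, v ∈ e ∧ v ∈ e' ∧ c.2 = D.pos v}

/-- The graph with vertices `0, …, n - 1` given by a list of edges. -/
def graphOf (n : ℕ) (E : List (ℕ × ℕ)) : SimpleGraph (Fin n) :=
  SimpleGraph.fromRel fun u v => ((u : ℕ), (v : ℕ)) ∈ E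

/-- The decision problem of the `t`-polygonal crossing number: the set of the strings which encode
a graph (the number of vertices in unary and the list of the edges) and a natural number `k` such
that the graph has a `t`-polygonal drawing with at most `k` crossings. -/
def CR (t : ℕ) : Set (List Bool) :=
  {w | ∃ (n : ℕ) (E : List (ℕ × ℕ)) (k : ℕ), FP.enc (List.replicate n (), E, k) = w ∧
    ∃ D : PolyDrawing t (graphOf n E), D.crossings.encard ≤ k}

end Pool.Agent.CRt
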