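import Pool.Agent.CRt.Basic

/-!
# Drawings whose edges are graphs of functions
-/

set_option autoImplicit false
set_option maxHeartbeats 4000000

namespace Pool.Agent.CRt

open Set

/-! ### Segments as graphs -/

theorem mem_seg_graph {u v s t : ℝ} (huv : u < v) (z : Plane) :
    z ∈ segment ℝ ((u, s + t * u) : Plane) (v, s + t * v) ↔
      z.1 ∈ Icc u v ∧ z.2 = s + t * z.1 := by
  constructor
  · rintro ⟨a, b, ha, hb, hab, rfl⟩
    have ha' : a = 1 - b := by linarith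
    subst ha'
    refine ⟨⟨?_, ?_⟩, ?_⟩
    · simp only [Prod.fst_add, Prod.smul_fst, smul_eq_mul]
      nlinarith
    · simp only [Prod.fst_add, Prod.smul_fst, smul_eq_mul]
      nlinarith
    · simp only [Prod.fst_add, Prod.snd_add, Prod.smul_fst, Prod.smul_snd, smul_eq_mul]
      ring
  · rintro ⟨⟨h1, h2⟩, h3⟩
    have hd : 0 < v - u := by linarith
    refine ⟨(v - z.1) / (v - u), (z.1 - u) / (v - u), div_nonneg (by linarith) hd.le,
      div_nonneg (by linarith) hd.le, by field_simp; ring, ?_⟩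
    refine Prod.ext ?_ ?_
    · simp only [Prod.fst_add, Prod.smul_fst, smul_eq_mul]
      field_simp
      ring
    · simp only [Prod.snd_add, Prod.smul_snd, smul_eq_mul]
      rw [h3]
      field_simp
      ring

theorem mem_oseg_graph {u v s t : ℝ} {z : Plane} (h1 : u < z.1) (h2 : z.1 < v)
    (h3 : z.2 = s + t * z.1) :
    z ∈ openSegment ℝ ((u, s + t * u) : Plane) (v, s + t * v) := by
  have huv : u < v := h1.trans h2
  have hd : 0 < v - u := by linarith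
  refine ⟨(v - z.1) / (v - u), (z.1 - u) / (v - u), div_pos (by linarith) hd,
    div_pos (by linarith) hd, by field_simp; ring, ?_⟩
  refine Prod.ext ?_ ?_
  · simp only [Prod.fst_add, Prod.smul_fst, smul_eq_mul]
    field_simp
    ring
  · simp only [Prod.snd_add, Prod.smul_snd, smul_eq_mul]
    rw [h3]
    field_simp
    ring

/-! ### Edges as graphs -/

/-- An edge which is drawn as the graph of a function over `[p, q]` with the bend at `b`. -/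
structure GE where
  e : Vx × Vx
  p : ℝ
  b : ℝ
  q : ℝ
  φ : ℝ → ℝ

structure GE.Ok (pos : Vx → Plane) (g : GE) : Prop where
  pb : g.p < g.b
  bq : g.b < g.q
  aff1 : ∃ s t : ℝ, ∀ x ∈ Icc g.p g.b, g.φ x = s + t * x
  aff2 : ∃ s t : ℝ, ∀ x ∈ Icc g.b g.q, g.φ x = s + t * x
  ends : (pos g.e.1 = (g.p, g.φ g.p) ∧ pos g.e.2 = (g.q, g.φ g.q)) ∨
    (pos g.e.1 = (g.q, g.φ g.q) ∧ pos g.e.2 = (g.p, g.φ g.p))

/-- The path. -/
def GE.path (pos : Vx → Plane) (g : GE) : Fin 3 → Plane := ![pos g.e.1, (g.b, g.φ g.b), pos g.e.2]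

section
variable {pos : Vx → Plane} {g g' : GE}

theorem GE.Ok.seg1 (h : g.Ok pos) (z : Plane) :
    z ∈ segment ℝ ((g.p, g.φ g.p) : Plane) (g.b, g.φ g.b) ↔
      z.1 ∈ Icc g.p g.b ∧ z.2 = g.φ z.1 := by
  obtain ⟨s, t, hst⟩ := h.aff1
  rw [hst g.p ⟨le_rfl, h.pb.le⟩, hst g.b ⟨h.pb.le, le_rfl⟩, mem_seg_graph h.pb]
  constructor
  · rintro ⟨h1, h2⟩
    exact ⟨h1, by rw [hst _ h1, h2]⟩
  · rintro ⟨h1, h2⟩
    exact ⟨h1, by rw [← hst _ h1, h2]⟩

theorem GE.Ok.seg2 (h : g.Ok pos) (z : Plane) :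
    z ∈ segment ℝ ((g.b, g.φ g.b) : Plane) (g.q, g.φ g.q) ↔
      z.1 ∈ Icc g.b g.q ∧ z.2 = g.φ z.1 := by
  obtain ⟨s, t, hst⟩ := h.aff2
  rw [hst g.b ⟨le_rfl, h.bq.le⟩, hst g.q ⟨h.bq.le, le_rfl⟩, mem_seg_graph h.bq]
  constructor
  · rintro ⟨h1, h2⟩
    exact ⟨h1, by rw [hst _ h1, h2]⟩
  · rintro ⟨h1, h2⟩
    exact ⟨h1, by rw [← hst _ h1, h2]⟩

theorem GE.Ok.mem_path (h : g.Ok pos) (z : Plane) :
    z ∈ pathSet (g.path pos) ↔ z.1 ∈ Icc g.p g.q ∧ z.2 = g.φ z.1 := by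
  rw [pathSet_two]
  have hpb := h.pb
  have hbq := h.bq
  have key : (z ∈ segment ℝ ((g.p, g.φ g.p) : Plane) (g.b, g.φ g.b) ∨
      z ∈ segment ℝ ((g.b, g.φ g.b) : Plane) (g.q, g.φ g.q)) ↔
      z.1 ∈ Icc g.p g.q ∧ z.2 = g.φ z.1 := by
    rw [h.seg1, h.seg2]
    constructor
    · rintro (⟨⟨h1, h2⟩, h3⟩ | ⟨⟨h1, h2⟩, h3⟩)
      · exact ⟨⟨h1, by linarith⟩, h3⟩
      · exact ⟨⟨by linarith, h2⟩, h3⟩
    · rintro ⟨⟨h1, h2⟩, h3⟩
      rcases le_total z.1 g.b with h4 | h4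
      · exact Or.inl ⟨⟨h1, h4⟩, h3⟩
      · exact Or.inr ⟨⟨h4, h2⟩, h3⟩
  rcases h.ends with ⟨e1, e2⟩ | ⟨e1, e2⟩
  · show z ∈ segment ℝ (pos g.e.1) (g.b, g.φ g.b) ∪ segment ℝ (g.b, g.φ g.b) (pos g.e.2) ↔ _
    rw [e1, e2]
    exact key
  · show z ∈ segment ℝ (pos g.e.1) (g.b, g.φ g.b) ∪ segment ℝ (g.b, g.φ g.b) (pos g.e.2) ↔ _
    rw [e1, e2, segment_symm ℝ (g.q, g.φ g.q), segment_symm ℝ _ (g.p, g.φ g.p), union_comm]
    exact key

theorem GE.Ok.poly (h : g.Ok pos) : IsPolyPath (g.path pos) := by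
  rw [isPolyPath_iff]
  have hpb := h.pb
  have hbq := h.bq
  have e0 : g.path pos 0 = pos g.e.1 := rfl
  have e1 : g.path pos 1 = (g.b, g.φ g.b) := rfl
  have e2 : g.path pos 2 = pos g.e.2 := rfl
  rw [e0, e1, e2]
  have key : ∀ z, z ∈ segment ℝ ((g.p, g.φ g.p) : Plane) (g.b, g.φ g.b) →
      z ∈ segment ℝ ((g.b, g.φ g.b) : Plane) (g.q, g.φ g.q) → z = (g.b, g.φ g.b) := by
    intro z h1 h2
    rw [h.seg1] at h1
    rw [h.seg2] at h2
    have : z.1 = g.b := le_antisymm h1.1.2 h2.1.1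
    exact Prod.ext this (by rw [h1.2, this])
  rcases h.ends with ⟨e1, e2⟩ | ⟨e1, e2⟩
  · rw [e1, e2]
    refine ⟨fun h => ?_, fun h => ?_, key⟩
    · have := congrArg Prod.fst h
      simp only at this
      linarith
    · have := congrArg Prod.fst h
      simp only at this
      linarith
  · rw [e1, e2]
    refine ⟨fun h => ?_, fun h => ?_, fun z h1 h2 => ?_⟩
    · have := congrArg Prod.fst h
      simp only at this
      linarith
    · have := congrArg Prod.fst h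
      simp only at this
      linarith
    · rw [segment_symm] at h1 h2
      exact key z h2 h1

/-- The segment of the path which contains a given point. -/
theorem GE.Ok.seg (h : g.Ok pos) {x : ℝ} (h1 : g.p < x) (h2 : x < g.q) (h3 : x ≠ g.b) :
    ∃ t u v : ℝ, u < x ∧ x < v ∧ g.p ≤ u ∧ v ≤ g.q ∧
      (∀ y ∈ Icc u v, g.φ y = g.φ x + t * (y - x)) ∧
      ∃ i : Fin 2, (x, g.φ x) ∈ openSegment ℝ (g.path pos i.castSucc) (g.path pos i.succ) ∧
        ∃ k : ℝ, k ≠ 0 ∧ g.path pos i.succ - g.path pos i.castSucc = (k, k * t) := by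
  have hpb := h.pb
  have hbq := h.bq
  have e0 : g.path pos (Fin.castSucc 0) = pos g.e.1 := rfl
  have e1 : g.path pos (Fin.succ 0) = (g.b, g.φ g.b) := rfl
  have e1' : g.path pos (Fin.castSucc 1) = (g.b, g.φ g.b) := rfl
  have e2 : g.path pos (Fin.succ 1) = pos g.e.2 := rfl
  rcases lt_or_gt_of_ne h3 with h4 | h4
  · obtain ⟨s, t, hst⟩ := h.aff1
    have ep := hst g.p ⟨le_rfl, h.pb.le⟩
    have eb := hst g.b ⟨h.pb.le, le_rfl⟩
    have ex := hst x ⟨h1.le, h4.le⟩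
    have ho := mem_oseg_graph (s := s) (t := t) (z := (x, g.φ x)) h1 h4 ex
    rw [← ep, ← eb] at ho
    refine ⟨t, g.p, g.b, h1, h4, le_rfl, hbq.le, fun y hy => ?_, ?_⟩
    · rw [hst y hy, ex]; ring
    rcases h.ends with ⟨a1, a2⟩ | ⟨a1, a2⟩
    · refine ⟨0, ?_, g.b - g.p, by linarith, ?_⟩
      · rw [e0, e1, a1]
        exact ho
      · rw [e0, e1, a1, ep, eb]
        refine Prod.ext rfl ?_
        simp only [Prod.mk_sub_mk]
        ring
    · refine ⟨1, ?_, g.p - g.b, by linarith, ?_⟩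
      · rw [e1', e2, a2, openSegment_symm]
        exact ho
      · rw [e1', e2, a2, ep, eb]
        refine Prod.ext rfl ?_
        simp only [Prod.mk_sub_mk]
        ring
  · obtain ⟨s, t, hst⟩ := h.aff2
    have ep := hst g.q ⟨h.bq.le, le_rfl⟩
    have eb := hst g.b ⟨le_rfl, h.bq.le⟩
    have ex := hst x ⟨h4.le, h2.le⟩
    have ho := mem_oseg_graph (s := s) (t := t) (z := (x, g.φ x)) h4 h2 ex
    rw [← ep, ← eb] at ho
    refine ⟨t, g.b, g.q, h4, h2, hpb.le, le_rfl, fun y hy => ?_, ?_⟩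
    · rw [hst y hy, ex]; ring
    rcases h.ends with ⟨a1, a2⟩ | ⟨a1, a2⟩
    · refine ⟨1, ?_, g.q - g.b, by linarith, ?_⟩
      · rw [e1', e2, a2]
        exact ho
      · rw [e1', e2, a2, ep, eb]
        refine Prod.ext rfl ?_
        simp only [Prod.mk_sub_mk]
        ring
    · refine ⟨0, ?_, g.b - g.q, by linarith, ?_⟩
      · rw [e0, e1, a1, openSegment_symm]
        exact ho
      · rw [e0, e1, a1, ep, eb]
        refine Prod.ext rfl ?_
        simp only [Prod.mk_sub_mk]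
        ring

/-- The two graphs cross properly in the point with the abscissa `x`, and have no other common
point. -/
def GE.Cross (g g' : GE) (x : ℝ) : Prop :=
  x ∈ Ioo g.p g.q ∧ x ∈ Ioo g'.p g'.q ∧ x ≠ g.b ∧ x ≠ g'.b ∧
    ∀ y, y ∈ Icc g.p g.q → y ∈ Icc g'.p g'.q → g.φ y = g'.φ y → y = x

theorem GE.Cross.symm {x : ℝ} (h : g.Cross g' x) : g'.Cross g x :=
  ⟨h.2.1, h.1, h.2.2.2.1, h.2.2.1, fun y h1 h2 h3 => h.2.2.2.2 y h2 h1 h3.symm⟩

theorem GE.Ok.proper (h : g.Ok pos) (h' : g'.Ok pos) {x : ℝ} (hx : g.φ x = g'.φ x)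
    (hc : g.Cross g' x) : ProperAt (g.path pos) (g'.path pos) (x, g.φ x) := by
  obtain ⟨h1, h2, h3, h4, h5⟩ := hc
  obtain ⟨t, u, v, ux, xv, pu, vq, hl, i, hi, k, hk, hki⟩ := h.seg h1.1 h1.2 h3
  obtain ⟨t', u', v', ux', xv', pu', vq', hl', j, hj, k', hk', hkj⟩ := h'.seg h2.1 h2.2 h4
  refine ⟨i, j, hi, by rw [hx]; exact hj, ?_⟩
  rw [hki, hkj]
  intro hdet
  have htt : t = t' := by
    unfold det2 at hdet
    simp only at hdet
    have : k * k' * (t' - t) = 0 := by linarith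
    rcases mul_eq_zero.1 this with h6 | h6
    · rcases mul_eq_zero.1 h6 with h7 | h7
      · exact absurd h7 hk
      · exact absurd h7 hk'
    · linarith
  set y := min v v' with hy
  have hxy : x < y := lt_min xv xv'
  have hy1 : y ≤ v := min_le_left _ _
  have hy2 : y ≤ v' := min_le_right _ _
  have := h5 y ⟨by linarith, by linarith⟩ ⟨by linarith, by linarith⟩ (by
    rw [hl y ⟨by linarith, hy1⟩, hl' y ⟨by linarith, hy2⟩, hx, htt])
  linarith

theorem commonEnd_symm {d d' : Vx × Vx} {z : Plane} (h : CommonEnd pos d d' z) :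
    CommonEnd pos d' d z := by
  obtain ⟨v, h1, h2, h3⟩ := h
  exact ⟨v, h2, h1, h3⟩

end

/-- Drawings consisting of graphs of functions. -/
theorem draw_of {pos : Vx → Plane} {Es : List (Vx × Vx)} {Q : GE → Prop}
    (h1 : ∀ d ∈ Es, ∃ g, Q g ∧ g.e = d) (h2 : ∀ g, Q g → g.Ok pos)
    (h3 : ∀ g g', Q g → Q g' → g.e ≠ g'.e → ∀ x, x ∈ Icc g.p g.q → x ∈ Icc g'.p g'.q →
      g.φ x = g'.φ x → CommonEnd pos g.e g'.e (x, g.φ x) ∨ g.Cross g' x) :
    ∃ D : LDraw Es, ∀ c ∈ D.crossings, ∃ g g', Q g ∧ Q g' ∧ g.e ≠ g'.e ∧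
      c.1 = s(g.e, g'.e) ∧ c.2.1 ∈ Icc g.p g.q ∧ c.2.1 ∈ Icc g'.p g'.q ∧
      c.2.2 = g.φ c.2.1 ∧ c.2.2 = g'.φ c.2.1 ∧ ¬ CommonEnd pos g.e g'.e c.2 := by
  classical
  have : Nonempty GE := ⟨⟨((0, 0, 0), (0, 0, 0)), 0, 0, 0, fun _ => 0⟩⟩
  choose! G hG1 hG2 using h1
  set bend : Vx × Vx → Plane := fun d => ((G d).b, (G d).φ (G d).b) with hbend
  have hpath : ∀ d ∈ Es, dpath pos bend d = (G d).path pos := by
    intro d hd
    unfold dpath GE.path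
    rw [hG2 d hd]
  refine ⟨⟨pos, bend, ?_, ?_⟩, ?_⟩
  · intro d hd
    rw [hpath d hd]
    exact (h2 _ (hG1 d hd)).poly
  · intro d hd d' hd' hne z hz
    rw [hpath d hd, hpath d' hd'] at hz ⊢
    have o1 := h2 _ (hG1 d hd)
    have o2 := h2 _ (hG1 d' hd')
    obtain ⟨hz1, hz2⟩ := hz
    rw [o1.mem_path] at hz1
    rw [o2.mem_path] at hz2
    have hne' : (G d).e ≠ (G d').e := by rw [hG2 d hd, hG2 d' hd']; exact hne
    have hx : (G d).φ z.1 = (G d').φ z.1 := by rw [← hz1.2, ← hz2.2]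
    have ez : z = (z.1, (G d).φ z.1) := Prod.ext rfl hz1.2
    rcases h3 _ _ (hG1 d hd) (hG1 d' hd') hne' z.1 hz1.1 hz2.1 hx with h4 | h4
    · left
      rw [hG2 d hd, hG2 d' hd'] at h4
      rw [ez]
      exact h4
    · right
      rw [ez]
      exact o1.proper o2 hx h4
  · rintro ⟨c1, z⟩ ⟨d, hd, d', hd', hne, hc1, hz, hncom⟩
    simp only at hc1 hz hncom ⊢
    rw [hpath d hd, hpath d' hd'] at hz
    have o1 := h2 _ (hG1 d hd)
    have o2 := h2 _ (hG1 d' hd')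
    obtain ⟨hz1, hz2⟩ := hz
    rw [o1.mem_path] at hz1
    rw [o2.mem_path] at hz2
    refine ⟨G d, G d', hG1 d hd, hG1 d' hd', ?_, ?_, hz1.1, hz2.1, hz1.2, hz2.2, ?_⟩
    · rw [hG2 d hd, hG2 d' hd']; exact hne
    · rw [hG2 d hd, hG2 d' hd']; exact hc1
    · rw [hG2 d hd, hG2 d' hd']; exact hncom

/-- Straight edges. -/
theorem straight {pos : Vx → Plane} {d : Vx × Vx} (h : (pos d.1).1 ≠ (pos d.2).1) :
    ∃ g : GE, g.e = d ∧ g.Ok pos ∧ (∀ x, x ∈ Icc g.p g.q →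
      (x, g.φ x) ∈ segment ℝ (pos d.1) (pos d.2)) := by
  have aux : ∀ u v : Plane, u.1 < v.1 → ∃ s t : ℝ, u.2 = s + t * u.1 ∧ v.2 = s + t * v.1 := by
    intro u v huv
    have hd : v.1 - u.1 ≠ 0 := by linarith
    refine ⟨u.2 - (v.2 - u.2) / (v.1 - u.1) * u.1, (v.2 - u.2) / (v.1 - u.1), by ring, ?_⟩
    field_simp
    ring
  rcases lt_or_gt_of_ne h with hlt | hlt
  · obtain ⟨s, t, e1, e2⟩ := aux _ _ hlt
    have p1 : pos d.1 = ((pos d.1).1, s + t * (pos d.1).1) := Prod.ext rfl e1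
    have p2 : pos d.2 = ((pos d.2).1, s + t * (pos d.2).1) := Prod.ext rfl e2
    refine ⟨⟨d, (pos d.1).1, ((pos d.1).1 + (pos d.2).1) / 2, (pos d.2).1, fun x => s + t * x⟩,
      rfl, ⟨?_, ?_, ⟨s, t, fun _ _ => rfl⟩, ⟨s, t, fun _ _ => rfl⟩, Or.inl ⟨p1, p2⟩⟩, ?_⟩
    · simp only; linarith
    · simp only; linarith
    · intro x hx
      simp only at hx ⊢
      rw [p1, p2]
      exact (mem_seg_graph hlt _).2 ⟨hx, rfl⟩
  · obtain ⟨s, t, e1, e2⟩ := aux _ _ hlt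
    have p1 : pos d.2 = ((pos d.2).1, s + t * (pos d.2).1) := Prod.ext rfl e1
    have p2 : pos d.1 = ((pos d.1).1, s + t * (pos d.1).1) := Prod.ext rfl e2
    refine ⟨⟨d, (pos d.2).1, ((pos d.1).1 + (pos d.2).1) / 2, (pos d.1).1, fun x => s + t * x⟩,
      rfl, ⟨?_, ?_, ⟨s, t, fun _ _ => rfl⟩, ⟨s, t, fun _ _ => rfl⟩, Or.inr ⟨p2, p1⟩⟩, ?_⟩
    · simp only; linarith
    · simp only; linarith
    · intro x hx
      simp only at hx ⊢
      rw [p1, p2, segment_symm]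
      exact (mem_seg_graph hlt _).2 ⟨hx, rfl⟩

end Pool.Agent.CRt
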