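import Pool.Agent.CRt.DrawDefs

/-!
# The drawing of the graph: the curves in the strip
-/

set_option autoImplicit false

namespace Pool.Agent.CRt

open Set Filter

namespace DI

theorem ev_list {ι : Type} (L : List ι) {p : ι → ℝ → Prop}
    (h : ∀ i ∈ L, ∀ᶠ ρ in atTop, p i ρ) : ∀ᶠ ρ in atTop, ∀ i ∈ L, p i ρ :=
  (Filter.eventually_all_finite (L.finite_toSet)).2 h

theorem ev_lt (n : ℕ) {p : ℕ → ℝ → Prop}
    (h : ∀ i < n, ∀ᶠ ρ in atTop, p i ρ) : ∀ᶠ ρ in atTop, ∀ i < n, p i ρ :=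
  (Filter.eventually_all_finite (Set.finite_lt_nat n)).2 h

theorem ev_gt (a : ℝ) : ∀ᶠ ρ : ℝ in atTop, |a| < ρ := eventually_gt_atTop _

/-- The cases for a curve. -/
theorem cases {N : ℕ} {T : List STriple} {c : Cv} (hc : c ∈ curves N T) :
    (∃ l < N, c = (l, 0, 0, 1)) ∨
      (∃ t < T.length, c.2.1 = t + 1 ∧ c ∈ starCurves T ∧ c ∈ starC t (T.getD t dflt)) := by
  unfold curves at hc
  rcases List.mem_append.1 hc with h | h
  · left
    obtain ⟨l, hl, rfl⟩ := List.mem_map.1 h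
    exact ⟨l, List.mem_range.1 hl, rfl⟩
  · right
    have h' := h
    unfold starCurves at h
    obtain ⟨t, ht, hc⟩ := List.mem_flatMap.1 h
    refine ⟨t, List.mem_range.1 ht, ?_, h', hc⟩
    unfold starC at hc
    simp only [List.mem_cons, List.not_mem_nil, or_false] at hc
    rcases hc with rfl | rfl | rfl <;> rfl

theorem line_lt {N : ℕ} {T : List STriple} (hT : SValid N T) {c : Cv} (hc : c ∈ curves N T) :
    c.1 < N := by
  rcases cases hc with ⟨l, hl, rfl⟩ | ⟨t, ht, h1, h2, h3⟩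
  · exact hl
  · have hm : T.getD t dflt ∈ T := by
      rw [List.getD_eq_getElem _ _ ht]; exact List.getElem_mem ht
    have := hT _ hm
    unfold starC at h3
    simp only [List.mem_cons, List.not_mem_nil, or_false] at h3
    rcases h3 with rfl | rfl | rfl <;> simp only <;> omega

theorem off_cases {T : List STriple} {c : Cv} {t : ℕ} (h3 : c ∈ starC t (T.getD t dflt)) :
    c.2.2.2 = 0 ∨ c.2.2.2 = 2 := by
  unfold starC at h3
  simp only [List.mem_cons, List.not_mem_nil, or_false] at h3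
  rcases h3 with rfl | rfl | rfl <;> simp only <;> split_ifs <;> simp

theorem star_eq {N : ℕ} {T : List STriple} (hT : SValid N T) {c c' : Cv} {t : ℕ}
    (ht : t < T.length) (h3 : c ∈ starC t (T.getD t dflt)) (h3' : c' ∈ starC t (T.getD t dflt))
    (h : c.1 = c'.1) : c = c' := by
  have hm : T.getD t dflt ∈ T := by
    rw [List.getD_eq_getElem _ _ ht]; exact List.getElem_mem ht
  have := hT _ hm
  unfold starC at h3 h3'
  simp only [List.mem_cons, List.not_mem_nil, or_false] at h3 h3'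
  rcases h3 with rfl | rfl | rfl <;> rcases h3' with rfl | rfl | rfl <;> simp only at h <;>
    first | rfl | omega

/-! ### Tents -/

theorem tent_eq {ρ a C h x : ℝ} (ha : |a| < ρ) (hx : x ∈ Icc (-ρ) ρ) :
    tent ρ a C h x = C + (h - C) * min ((x + ρ) / (a + ρ)) ((ρ - x) / (ρ - a)) := by
  obtain ⟨ha1, ha2⟩ := abs_lt.1 ha
  obtain ⟨hx1, hx2⟩ := hx
  have h1 : 0 < a + ρ := by linarith
  have h2 : 0 < ρ - a := by linarith
  unfold tent
  split_ifs with hxa
  · rw [min_eq_left]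
    have e1 : (x + ρ) / (a + ρ) ≤ 1 := by rw [div_le_one h1]; linarith
    have e2 : 1 ≤ (ρ - x) / (ρ - a) := by rw [one_le_div h2]; linarith
    linarith
  · rw [min_eq_right]
    push Not at hxa
    have e1 : 1 ≤ (x + ρ) / (a + ρ) := by rw [one_le_div h1]; linarith
    have e2 : (ρ - x) / (ρ - a) ≤ 1 := by rw [div_le_one h2]; linarith
    linarith

theorem tent_left {ρ a C h : ℝ} (ha : |a| < ρ) : tent ρ a C h (-ρ) = C := by
  obtain ⟨ha1, ha2⟩ := abs_lt.1 ha
  unfold tent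
  rw [if_pos ha1.le]
  simp

theorem tent_right {ρ a C h : ℝ} (ha : |a| < ρ) : tent ρ a C h ρ = C := by
  obtain ⟨ha1, ha2⟩ := abs_lt.1 ha
  unfold tent
  rw [if_neg (by linarith)]
  simp

theorem tent_mid {ρ a C h : ℝ} (ha : |a| < ρ) : tent ρ a C h a = h := by
  obtain ⟨ha1, ha2⟩ := abs_lt.1 ha
  unfold tent
  rw [if_pos le_rfl, div_self (by linarith)]
  ring

theorem tent_lip {ρ a C h x y : ℝ} (ha : |a| < ρ) (hx : x ∈ Icc (-ρ) ρ) (hy : y ∈ Icc (-ρ) ρ) :
    |tent ρ a C h y - tent ρ a C h x| ≤ |h - C| / (ρ - |a|) * |y - x| := by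
  have h0 : 0 < ρ - |a| := by linarith
  have h1 : ρ - |a| ≤ a + ρ := by linarith [neg_abs_le a]
  have h2 : ρ - |a| ≤ ρ - a := by linarith [le_abs_self a]
  rw [tent_eq ha hx, tent_eq ha hy]
  have e : C + (h - C) * min ((y + ρ) / (a + ρ)) ((ρ - y) / (ρ - a)) -
      (C + (h - C) * min ((x + ρ) / (a + ρ)) ((ρ - x) / (ρ - a))) =
      (h - C) * (min ((y + ρ) / (a + ρ)) ((ρ - y) / (ρ - a)) -
        min ((x + ρ) / (a + ρ)) ((ρ - x) / (ρ - a))) := by ring
  rw [e, abs_mul, div_mul_eq_mul_div, mul_div_assoc]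
  apply mul_le_mul_of_nonneg_left _ (abs_nonneg _)
  refine (abs_min_sub_min_le_max _ _ _ _).trans (max_le ?_ ?_)
  · rw [← sub_div, abs_div, abs_of_pos (by linarith : 0 < a + ρ)]
    have : y + ρ - (x + ρ) = y - x := by ring
    rw [this]
    exact div_le_div_of_nonneg_left (abs_nonneg _) h0 h1
  · rw [← sub_div, abs_div, abs_of_pos (by linarith : 0 < ρ - a)]
    have : |ρ - y - (ρ - x)| = |y - x| := by
      rw [← abs_neg]; congr 1; ring
    rw [this]
    exact div_le_div_of_nonneg_left (abs_nonneg _) h0 h2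

theorem tent_tendsto (a C h x : ℝ) : Tendsto (fun ρ => tent ρ a C h x) atTop (nhds h) := by
  have h1 : Tendsto (fun ρ : ℝ => (x + ρ) / (a + ρ)) atTop (nhds 1) := by
    have e : (fun ρ : ℝ => 1 + (x - a) / (a + ρ)) =ᶠ[atTop] fun ρ : ℝ => (x + ρ) / (a + ρ) := by
      filter_upwards [ev_gt a] with ρ hρ
      have : a + ρ ≠ 0 := by have := abs_lt.1 hρ; linarith
      field_simp
      ring
    refine Tendsto.congr' e ?_
    have : Tendsto (fun ρ : ℝ => (x - a) / (a + ρ)) atTop (nhds 0) :=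
      Tendsto.div_atTop tendsto_const_nhds (tendsto_atTop_add_const_left _ _ tendsto_id)
    simpa using this.const_add 1
  have h2 : Tendsto (fun ρ : ℝ => (ρ - x) / (ρ - a)) atTop (nhds 1) := by
    have e : (fun ρ : ℝ => 1 + (a - x) / (-a + ρ)) =ᶠ[atTop] fun ρ : ℝ => (ρ - x) / (ρ - a) := by
      filter_upwards [ev_gt a] with ρ hρ
      have h1 : ρ - a ≠ 0 := by have := abs_lt.1 hρ; linarith
      have h2 : -a + ρ ≠ 0 := by have := abs_lt.1 hρ; linarith
      field_simp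
      ring
    refine Tendsto.congr' e ?_
    have : Tendsto (fun ρ : ℝ => (a - x) / (-a + ρ)) atTop (nhds 0) :=
      Tendsto.div_atTop tendsto_const_nhds (tendsto_atTop_add_const_left _ _ tendsto_id)
    simpa using this.const_add 1
  have h3 := ((h1.min h2).const_mul (h - C)).const_add C
  simp only [min_self, mul_one] at h3
  have e : C + (h - C) = h := by ring
  rw [e] at h3
  refine Tendsto.congr' ?_ h3
  filter_upwards [ev_gt a, ev_gt x] with ρ hρ hx
  rw [tent_eq hρ ⟨(abs_lt.1 hx).1.le, (abs_lt.1 hx).2.le⟩]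

/-- tents on the same side do not meet -/
theorem tent_lt {a a' C h h' : ℝ} (hh : h < h') (hh' : h' < C) :
    ∀ᶠ ρ in atTop, ∀ x ∈ Ioo (-ρ) ρ, tent ρ a C h x < tent ρ a' C h' x := by
  have hpos : 0 < C - h' := by linarith
  -- `(C - h) (a' + ρ) > (C - h') (a + ρ)`
  have h1 : ∀ᶠ ρ : ℝ in atTop, (C - h') * (a + ρ) < (C - h) * (a' + ρ) := by
    have : ∀ᶠ ρ : ℝ in atTop, (C - h') * a - (C - h) * a' < (h' - h) * ρ :=
      (tendsto_id.const_mul_atTop (by linarith : 0 < h' - h)).eventually_gt_atTop _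
    filter_upwards [this] with ρ hρ
    nlinarith
  have h2 : ∀ᶠ ρ : ℝ in atTop, (C - h') * (ρ - a) < (C - h) * (ρ - a') := by
    have : ∀ᶠ ρ : ℝ in atTop, (C - h) * a' - (C - h') * a < (h' - h) * ρ :=
      (tendsto_id.const_mul_atTop (by linarith : 0 < h' - h)).eventually_gt_atTop _
    filter_upwards [this] with ρ hρ
    nlinarith
  filter_upwards [ev_gt a, ev_gt a', h1, h2] with ρ ha ha' h1 h2 x hx
  have hx' : x ∈ Icc (-ρ) ρ := ⟨hx.1.le, hx.2.le⟩
  rw [tent_eq ha hx', tent_eq ha' hx']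
  obtain ⟨ha1, ha2⟩ := abs_lt.1 ha
  obtain ⟨ha1', ha2'⟩ := abs_lt.1 ha'
  obtain ⟨hx1, hx2⟩ := hx
  have p1 : 0 < a + ρ := by linarith
  have p2 : 0 < ρ - a := by linarith
  have p1' : 0 < a' + ρ := by linarith
  have p2' : 0 < ρ - a' := by linarith
  have key : (C - h') * min ((x + ρ) / (a' + ρ)) ((ρ - x) / (ρ - a')) <
      (C - h) * min ((x + ρ) / (a + ρ)) ((ρ - x) / (ρ - a)) := by
    rw [mul_min_of_nonneg _ _ hpos.le, mul_min_of_nonneg _ _ (by linarith : 0 ≤ C - h)]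
    refine lt_min ?_ ?_
    · refine (min_le_left _ _).trans_lt ?_
      rw [← mul_div_assoc, ← mul_div_assoc, div_lt_div_iff₀ p1' p1]
      nlinarith
    · refine (min_le_right _ _).trans_lt ?_
      rw [← mul_div_assoc, ← mul_div_assoc, div_lt_div_iff₀ p2' p2]
      nlinarith
  linarith

theorem tent_neg {ρ a C h x : ℝ} : tent ρ a (-C) (-h) x = - tent ρ a C h x := by
  unfold tent
  split_ifs <;> ring

theorem tent_pos {ρ a C h x : ℝ} (ha : |a| < ρ) (h0 : 0 < h) (hC : 0 < C)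
    (hx : x ∈ Icc (-ρ) ρ) : 0 < tent ρ a C h x := by
  rw [tent_eq ha hx]
  obtain ⟨ha1, ha2⟩ := abs_lt.1 ha
  obtain ⟨hx1, hx2⟩ := hx
  have p1 : 0 < a + ρ := by linarith
  have p2 : 0 < ρ - a := by linarith
  set μ := min ((x + ρ) / (a + ρ)) ((ρ - x) / (ρ - a)) with hμ
  have hμ0 : 0 ≤ μ := le_min (div_nonneg (by linarith) p1.le) (div_nonneg (by linarith) p2.le)
  have hμ1 : μ ≤ 1 := by
    rcases le_total x a with h | h
    · refine (min_le_left _ _).trans ?_
      rw [div_le_one p1]; linarith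
    · refine (min_le_right _ _).trans ?_
      rw [div_le_one p2]; linarith
  have e : C + (h - C) * μ = C * (1 - μ) + h * μ := by ring
  rw [e]
  rcases eq_or_lt_of_le hμ0 with h | h
  · rw [← h]; simpa using hC
  · have := mul_pos h0 h
    have := mul_nonneg hC.le (by linarith : 0 ≤ 1 - μ)
    linarith

theorem tent_aff {ρ a C h u v : ℝ} (ha : |a| < ρ) (huv : u < v) (h1 : a ∉ Ioo u v) :
    ∃ p q : ℝ, ∀ x ∈ Icc u v, tent ρ a C h x = p + q * x := by
  obtain ⟨ha1, ha2⟩ := abs_lt.1 ha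
  have p1 : a + ρ ≠ 0 := by linarith
  have p2 : ρ - a ≠ 0 := by linarith
  rcases le_or_gt v a with hva | hva
  · refine ⟨C + (h - C) * (ρ / (a + ρ)), (h - C) / (a + ρ), fun x hx => ?_⟩
    unfold tent
    rw [if_pos (hx.2.trans hva)]
    field_simp
    ring
  · have hau : a ≤ u := by
      by_contra h
      push Not at h
      exact h1 ⟨h, hva⟩
    refine ⟨C + (h - C) * (ρ / (ρ - a)), - (h - C) / (ρ - a), fun x hx => ?_⟩
    unfold tent
    split_ifs with hxa
    · have : x = a := le_antisymm hxa (hau.trans hx.1)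
      subst this
      rw [div_self p1]
      field_simp
      ring
    · field_simp
      ring

theorem pl_aff {α m m' u v : ℝ} (huv : u < v) (h1 : (0 : ℝ) ∉ Ioo u v) :
    ∃ p q : ℝ, ∀ x ∈ Icc u v, pl α m m' x = p + q * x := by
  rcases le_or_gt v 0 with hva | hva
  · refine ⟨α, m, fun x hx => ?_⟩
    unfold pl
    rw [min_eq_left (hx.2.trans hva), max_eq_right (hx.2.trans hva)]
    ring
  · have hau : 0 ≤ u := by
      by_contra h
      push Not at h
      exact h1 ⟨h, hva⟩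
    refine ⟨α, m', fun x hx => ?_⟩
    unfold pl
    rw [min_eq_right (hau.trans hx.1), max_eq_left (hau.trans hx.1)]
    ring

end DI

namespace Prep

open DI

variable {N : ℕ} {T : List STriple} (D : Prep N T)

theorem ev_star (hT : SValid N T) : ∀ᶠ ρ in atTop, ∀ t < T.length, |D.X t| < ρ :=
  ev_lt _ fun t _ => ev_gt _

/-- The second term of `phi`. -/
noncomputable def bump (ρ C : ℝ) (c : Cv) (x : ℝ) : ℝ :=
  if c.2.1 = 0 then 0 else
    tent ρ (D.X (c.2.1 - 1)) (C * (1 - (c.2.2.2 : ℝ))) (D.ht (c.2.1 - 1) c.1) x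

theorem phi_eq (ρ C : ℝ) (c : Cv) (x : ℝ) : D.phi ρ C c x = D.F c.1 x + D.bump ρ C c x := rfl

theorem X_lt {ρ : ℝ} (hρ : ∀ t < T.length, |D.X t| < ρ) {c : Cv} (hc : c ∈ curves N T)
    (h0 : c.2.1 ≠ 0) : |D.X (c.2.1 - 1)| < ρ := by
  rcases cases hc with ⟨l, _, rfl⟩ | ⟨t, ht, h1, _⟩
  · exact absurd rfl h0
  · rw [h1]; exact hρ t ht

/-- The Lipschitz constant of the bump. -/
noncomputable def lip (ρ C : ℝ) (c : Cv) : ℝ :=
  |D.ht (c.2.1 - 1) c.1 - C * (1 - (c.2.2.2 : ℝ))| / (ρ - |D.X (c.2.1 - 1)|)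

theorem lip_tendsto (C : ℝ) (c : Cv) : Tendsto (fun ρ => D.lip ρ C c) atTop (nhds 0) := by
  unfold lip
  refine Tendsto.div_atTop tendsto_const_nhds ?_
  simpa [sub_eq_add_neg] using
    tendsto_atTop_add_const_right atTop (-|D.X (c.2.1 - 1)|) (tendsto_id (α := ℝ))

theorem bump_lip {ρ C : ℝ} {c : Cv} (h : |D.X (c.2.1 - 1)| < ρ) {x y : ℝ}
    (hx : x ∈ Icc (-ρ) ρ) (hy : y ∈ Icc (-ρ) ρ) :
    |D.bump ρ C c y - D.bump ρ C c x| ≤ D.lip ρ C c * |y - x| := by
  unfold bump
  split_ifs with h0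
  · simp only [sub_self, abs_zero]
    refine mul_nonneg (div_nonneg (abs_nonneg _) ?_) (abs_nonneg _)
    linarith
  · exact tent_lip h hx hy

theorem F_diff {l l' : ℕ} (h : l < l') (h' : l' < N) {x y : ℝ} (hxy : x < y) :
    min (D.m l' - D.m l) (D.m' l' - D.m' l) * (y - x) ≤
      (D.F l' y - D.F l y) - (D.F l' x - D.F l x) := by
  unfold F pl
  have h1 : min (D.m l' - D.m l) (D.m' l' - D.m' l) ≤ D.m l' - D.m l := min_le_left _ _
  have h2 : min (D.m l' - D.m l) (D.m' l' - D.m' l) ≤ D.m' l' - D.m' l := min_le_right _ _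
  set δ := min (D.m l' - D.m l) (D.m' l' - D.m' l)
  have e1 : 0 ≤ min y 0 - min x 0 := sub_nonneg.2 (min_le_min_right _ hxy.le)
  have e2 : 0 ≤ max y 0 - max x 0 := sub_nonneg.2 (max_le_max_right _ hxy.le)
  have e3 : y - x = (min y 0 - min x 0) + (max y 0 - max x 0) := by
    have := min_add_max y 0
    have := min_add_max x 0
    linarith
  rw [e3]
  nlinarith [mul_nonneg e1 (sub_nonneg.2 h1), mul_nonneg e2 (sub_nonneg.2 h2)]

theorem ev_mono (hT : SValid N T) {C : ℝ} : ∀ᶠ ρ in atTop, ∀ c ∈ curves N T,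
    ∀ c' ∈ curves N T, c.1 < c'.1 →
    StrictMonoOn (fun x => D.phi ρ C c' x - D.phi ρ C c x) (Icc (-ρ) ρ) := by
  refine ev_list _ fun c hc => ev_list _ fun c' hc' => ?_
  by_cases hlt : c.1 < c'.1
  swap
  · exact Eventually.of_forall fun ρ h => absurd h hlt
  have hN := line_lt hT hc'
  set δ := min (D.m c'.1 - D.m c.1) (D.m' c'.1 - D.m' c.1) with hδ
  have hδ0 : 0 < δ := by
    have := D.slope _ _ hlt hN
    exact lt_min (by linarith [this.1]) (by linarith [this.2])
  have h1 := (D.lip_tendsto C c).eventually (gt_mem_nhds (show (0 : ℝ) < δ / 2 by positivity))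
  have h2 := (D.lip_tendsto C c').eventually (gt_mem_nhds (show (0 : ℝ) < δ / 2 by positivity))
  filter_upwards [h1, h2, ev_gt (D.X (c.2.1 - 1)), ev_gt (D.X (c'.2.1 - 1))] with ρ h1 h2 h3 h4 _
  intro x hx y hy hxy
  simp only [phi_eq]
  have b1 := D.bump_lip (C := C) h3 hx hy
  have b2 := D.bump_lip (C := C) h4 hx hy
  have b3 := D.F_diff hlt hN hxy
  rw [← hδ] at b3
  rw [abs_of_pos (sub_pos.2 hxy)] at b1 b2
  have c1 := abs_le.1 b1
  have c2 := abs_le.1 b2
  have d1 : D.lip ρ C c * (y - x) < δ / 2 * (y - x) :=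
    mul_lt_mul_of_pos_right h1 (sub_pos.2 hxy)
  have d2 : D.lip ρ C c' * (y - x) < δ / 2 * (y - x) :=
    mul_lt_mul_of_pos_right h2 (sub_pos.2 hxy)
  have e : δ * (y - x) = δ / 2 * (y - x) + δ / 2 * (y - x) := by ring
  linarith [c1.1, c1.2, c2.1, c2.2]

theorem side' {t : ℕ} {c : Cv} (h1 : c.2.1 = t + 1) (hc : c ∈ starCurves T) :
    0 < (1 - (c.2.2.2 : ℝ)) * D.ht t c.1 := by
  have := D.side c hc
  rw [h1] at this
  exact this

theorem bump_ne (hT : SValid N T) {C : ℝ} (hC : ∀ t < T.length, ∀ l < N, |D.ht t l| < C)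
    (hC0 : 0 < C) {c c' : Cv} (hc : c ∈ curves N T) (hc' : c' ∈ curves N T) (hne : c ≠ c')
    (hl : c.1 = c'.1) :
    ∀ᶠ ρ in atTop, ∀ x ∈ Ioo (-ρ) ρ, D.bump ρ C c x ≠ D.bump ρ C c' x := by
  have hs := D.ev_star hT
  have hN := line_lt hT hc
  rcases cases hc with ⟨l, _, rfl⟩ | ⟨t, ht, h1, h2, h3⟩
  · rcases cases hc' with ⟨l', _, rfl⟩ | ⟨t', ht', h1', h2', h3'⟩
    · simp only at hl
      subst hl
      exact absurd rfl hne
    · filter_upwards [hs] with ρ hρ x hx
      have hx' : x ∈ Icc (-ρ) ρ := ⟨hx.1.le, hx.2.le⟩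
      have hsd := D.side' h1' h2'
      have e1 : D.bump ρ C (l, 0, 0, 1) x = 0 := by simp [bump]
      have e2 : D.bump ρ C c' x =
          tent ρ (D.X t') (C * (1 - (c'.2.2.2 : ℝ))) (D.ht t' c'.1) x := by
        unfold bump
        rw [if_neg (by omega), h1']
        rfl
      rw [e1, e2]
      rcases off_cases h3' with ho | ho
      · rw [ho] at hsd ⊢
        simp only [Nat.cast_zero, sub_zero, mul_one, one_mul] at hsd ⊢
        exact (tent_pos (hρ t' ht') hsd hC0 hx').ne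
      · rw [ho] at hsd ⊢
        have e3 : C * (1 - ((2 : ℕ) : ℝ)) = -C := by push_cast; ring
        have e4 : D.ht t' c'.1 = - (- D.ht t' c'.1) := by ring
        rw [e3, e4, tent_neg]
        have : 0 < - D.ht t' c'.1 := by push_cast at hsd; linarith
        have := tent_pos (hρ t' ht') this hC0 hx'
        linarith
  · rcases cases hc' with ⟨l', _, rfl⟩ | ⟨t', ht', h1', h2', h3'⟩
    · filter_upwards [hs] with ρ hρ x hx
      have hx' : x ∈ Icc (-ρ) ρ := ⟨hx.1.le, hx.2.le⟩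
      have hsd := D.side' h1 h2
      have e1 : D.bump ρ C (l', 0, 0, 1) x = 0 := by simp [bump]
      have e2 : D.bump ρ C c x =
          tent ρ (D.X t) (C * (1 - (c.2.2.2 : ℝ))) (D.ht t c.1) x := by
        unfold bump
        rw [if_neg (by omega), h1]
        rfl
      rw [e1, e2]
      rcases off_cases h3 with ho | ho
      · rw [ho] at hsd ⊢
        simp only [Nat.cast_zero, sub_zero, mul_one, one_mul] at hsd ⊢
        exact (tent_pos (hρ t ht) hsd hC0 hx').ne'
      · rw [ho] at hsd ⊢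
        have e3 : C * (1 - ((2 : ℕ) : ℝ)) = -C := by push_cast; ring
        have e4 : D.ht t c.1 = - (- D.ht t c.1) := by ring
        rw [e3, e4, tent_neg]
        have : 0 < - D.ht t c.1 := by push_cast at hsd; linarith
        have := tent_pos (hρ t ht) this hC0 hx'
        linarith
    · have htt : t ≠ t' := by
        rintro rfl
        exact hne (star_eq hT ht h3 h3' hl)
      have hh : D.ht t c.1 ≠ D.ht t' c.1 := D.gen2 t ht t' ht' htt c.1 hN
      have hb := abs_lt.1 (hC t ht c.1 hN)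
      have hb' := abs_lt.1 (hC t' ht' c.1 hN)
      have hsd := D.side' h1 h2
      have hsd' := D.side' h1' h2'
      rw [← hl] at hsd'
      have ev : ∀ᶠ ρ in atTop, ∀ x ∈ Ioo (-ρ) ρ,
          tent ρ (D.X t) (C * (1 - (c.2.2.2 : ℝ))) (D.ht t c.1) x ≠
          tent ρ (D.X t') (C * (1 - (c'.2.2.2 : ℝ))) (D.ht t' c.1) x := by
        generalize D.ht t c.1 = h at *
        generalize D.ht t' c.1 = h' at *
        rcases off_cases h3 with ho | ho <;> rcases off_cases h3' with ho' | ho' <;>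
          rw [ho] at hsd ⊢ <;> rw [ho'] at hsd' ⊢
        · simp only [Nat.cast_zero, sub_zero, mul_one]
          rcases lt_or_gt_of_ne hh with hlt | hlt
          · filter_upwards [tent_lt (a := D.X t) (a' := D.X t') hlt hb'.2] with ρ hρ x hx
            exact (hρ x hx).ne
          · filter_upwards [tent_lt (a := D.X t') (a' := D.X t) hlt hb.2] with ρ hρ x hx
            exact (hρ x hx).ne'
        · have e3 : C * (1 - ((2 : ℕ) : ℝ)) = -C := by push_cast; ring
          have e4 : h' = - (- h') := by ring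
          simp only [Nat.cast_zero, sub_zero, mul_one, one_mul] at hsd ⊢
          rw [e3, e4]
          filter_upwards [hs] with ρ hρ x hx
          have hx' : x ∈ Icc (-ρ) ρ := ⟨hx.1.le, hx.2.le⟩
          rw [tent_neg]
          have i1 : 0 < - h' := by push_cast at hsd'; linarith
          have i2 := tent_pos (hρ t' ht') i1 hC0 hx'
          have i3 := tent_pos (hρ t ht) hsd hC0 hx'
          linarith
        · have e3 : C * (1 - ((2 : ℕ) : ℝ)) = -C := by push_cast; ring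
          have e4 : h = - (- h) := by ring
          simp only [Nat.cast_zero, sub_zero, mul_one, one_mul] at hsd' ⊢
          rw [e3, e4]
          filter_upwards [hs] with ρ hρ x hx
          have hx' : x ∈ Icc (-ρ) ρ := ⟨hx.1.le, hx.2.le⟩
          rw [tent_neg]
          have i1 : 0 < - h := by push_cast at hsd; linarith
          have i2 := tent_pos (hρ t ht) i1 hC0 hx'
          have i3 := tent_pos (hρ t' ht') hsd' hC0 hx'
          linarith
        · have e3 : C * (1 - ((2 : ℕ) : ℝ)) = -C := by push_cast; ring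
          have e4 : h = - (- h) := by ring
          have e4' : h' = - (- h') := by ring
          rw [e3, e4, e4']
          rcases lt_or_gt_of_ne hh with hlt | hlt
          · filter_upwards [tent_lt (a := D.X t') (a' := D.X t) (neg_lt_neg hlt)
              (by linarith [hb.1] : -h < C)] with ρ hρ x hx
            rw [tent_neg, tent_neg]
            have := hρ x hx
            linarith
          · filter_upwards [tent_lt (a := D.X t) (a' := D.X t') (neg_lt_neg hlt)
              (by linarith [hb'.1] : -h' < C)] with ρ hρ x hx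
            rw [tent_neg, tent_neg]
            have := hρ x hx
            linarith
      filter_upwards [ev] with ρ hρ x hx
      have e2 : D.bump ρ C c x =
          tent ρ (D.X t) (C * (1 - (c.2.2.2 : ℝ))) (D.ht t c.1) x := by
        unfold bump
        rw [if_neg (by omega), h1]
        rfl
      have e2' : D.bump ρ C c' x =
          tent ρ (D.X t') (C * (1 - (c'.2.2.2 : ℝ))) (D.ht t' c.1) x := by
        unfold bump
        rw [if_neg (by omega), h1', hl]
        rfl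
      rw [e2, e2']
      exact hρ x hx

theorem ev_same (hT : SValid N T) {C : ℝ} (hC : ∀ t < T.length, ∀ l < N, |D.ht t l| < C)
    (hC0 : 0 < C) :
    ∀ᶠ ρ in atTop, ∀ c ∈ curves N T, ∀ c' ∈ curves N T, c ≠ c' → c.1 = c'.1 →
      ∀ x ∈ Ioo (-ρ) ρ, D.phi ρ C c x ≠ D.phi ρ C c' x := by
  refine ev_list _ fun c hc => ev_list _ fun c' hc' => ?_
  by_cases hne : c ≠ c'
  swap
  · exact Eventually.of_forall fun ρ h => absurd h hne
  by_cases hl : c.1 = c'.1
  swap
  · exact Eventually.of_forall fun ρ _ h => absurd h hl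
  filter_upwards [D.bump_ne hT hC hC0 hc hc' hne hl] with ρ hρ _ _ x hx
  rw [phi_eq, phi_eq, hl]
  intro h
  exact hρ x hx (add_left_cancel h)

/-- The limit of `phi`. -/
noncomputable def lim (c : Cv) (x : ℝ) : ℝ :=
  D.F c.1 x + if c.2.1 = 0 then 0 else D.ht (c.2.1 - 1) c.1

theorem phi_tendsto (C : ℝ) (c : Cv) (x : ℝ) :
    Tendsto (fun ρ => D.phi ρ C c x) atTop (nhds (D.lim c x)) := by
  unfold phi lim
  refine Tendsto.const_add _ ?_
  split_ifs
  · exact tendsto_const_nhds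
  · exact tent_tendsto _ _ _ _

theorem ev_avoid (hT : SValid N T) {C : ℝ} : ∀ᶠ ρ in atTop, ∀ c ∈ curves N T,
    ∀ t < T.length, c.2.1 ≠ t + 1 → D.phi ρ C c (D.X t) ≠ D.Y t := by
  refine ev_list _ fun c hc => ev_lt _ fun t ht => ?_
  by_cases h : c.2.1 ≠ t + 1
  swap
  · exact Eventually.of_forall fun ρ h' => absurd h' h
  have hN := line_lt hT hc
  have : D.lim c (D.X t) ≠ D.Y t := by
    unfold lim
    rcases cases hc with ⟨l, _, rfl⟩ | ⟨t', ht', h1, h2, h3⟩
    · simp only [if_true, add_zero]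
      exact (D.gen1 t ht l hN).symm
    · rw [if_neg (by omega), h1]
      have htt : t' ≠ t := by omega
      have := D.gen2 t' ht' t ht htt c.1 hN
      intro h
      apply this
      simp only [Nat.add_sub_cancel, ht, F] at h
      unfold Prep.ht Prep.F at h
      linarith
  filter_upwards [(D.phi_tendsto C c (D.X t)).eventually_ne this] with ρ hρ _
  exact hρ

theorem F_zero (l : ℕ) : D.F l 0 = D.α l := by
  unfold F pl
  simp

theorem ev_zero (hT : SValid N T) {C : ℝ} : ∀ᶠ ρ in atTop, ∀ c ∈ curves N T,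
    ∀ c' ∈ curves N T, c.1 ≠ c'.1 →
    (c.2.1 = 0 ∨ c.2.1 ≠ c'.2.1) → D.phi ρ C c 0 ≠ D.phi ρ C c' 0 := by
  refine ev_list _ fun c hc => ev_list _ fun c' hc' => ?_
  by_cases hl : c.1 ≠ c'.1
  swap
  · exact Eventually.of_forall fun ρ h => absurd h hl
  by_cases ho : (c.2.1 = 0 ∨ c.2.1 ≠ c'.2.1)
  swap
  · exact Eventually.of_forall fun ρ _ h => absurd h ho
  have hN := line_lt hT hc
  have hN' := line_lt hT hc'
  have key : D.lim c 0 ≠ D.lim c' 0 := by
    unfold lim
    rw [F_zero, F_zero]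
    rcases cases hc with ⟨l, _, rfl⟩ | ⟨t, ht, h1, h2, h3⟩
    · rcases cases hc' with ⟨l', _, rfl⟩ | ⟨t', ht', h1', h2', h3'⟩
      · simp only [if_true, add_zero]
        exact D.gen0 l hN l' hN' hl
      · rw [if_neg (show ¬ c'.2.1 = 0 by omega), h1']
        simp only [if_true, add_zero]
        exact (D.gen3 t' ht' c'.1 hN' l hN (Ne.symm hl)).symm
    · rcases cases hc' with ⟨l', _, rfl⟩ | ⟨t', ht', h1', h2', h3'⟩
      · rw [if_neg (show ¬ c.2.1 = 0 by omega), h1]
        simp only [if_true, add_zero]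
        exact D.gen3 t ht c.1 hN l' hN' hl
      · rw [if_neg (show ¬ c.2.1 = 0 by omega), if_neg (show ¬ c'.2.1 = 0 by omega), h1, h1']
        have htt : t ≠ t' := by omega
        exact D.gen4 t ht t' ht' htt c.1 hN c'.1 hN' hl
  have h1 := (D.phi_tendsto C c 0).sub (D.phi_tendsto C c' 0)
  filter_upwards [h1.eventually_ne (sub_ne_zero.2 key)] with ρ hρ _ _
  exact sub_ne_zero.1 hρ

theorem ev_cols {C : ℝ} : ∀ᶠ ρ in atTop, ∀ l l', l < l' → l' < N →
    D.F l' (-ρ) + C ≤ D.F l (-ρ) ∧ D.F l ρ + C ≤ D.F l' ρ := by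
  have : ∀ᶠ ρ in atTop, ∀ l' < N, ∀ l < l',
      D.F l' (-ρ) + C ≤ D.F l (-ρ) ∧ D.F l ρ + C ≤ D.F l' ρ := by
    refine ev_lt _ fun l' hl' => ev_lt _ fun l hl => ?_
    have hs := D.slope l l' hl hl'
    have h1 : ∀ᶠ ρ : ℝ in atTop, D.α l' - D.α l + C < (D.m l' - D.m l) * ρ :=
      (tendsto_id.const_mul_atTop (by linarith [hs.1] : 0 < D.m l' - D.m l)).eventually_gt_atTop _
    have h2 : ∀ᶠ ρ : ℝ in atTop, D.α l - D.α l' + C < (D.m' l' - D.m' l) * ρ :=
      (tendsto_id.const_mul_atTop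
        (by linarith [hs.2] : 0 < D.m' l' - D.m' l)).eventually_gt_atTop _
    filter_upwards [h1, h2, eventually_gt_atTop (0 : ℝ)] with ρ h1 h2 h3
    unfold F pl
    rw [min_eq_left (by linarith : -ρ ≤ 0), max_eq_right (by linarith : -ρ ≤ 0),
      min_eq_right h3.le, max_eq_left h3.le]
    constructor <;> nlinarith
  filter_upwards [this] with ρ hρ l l' hl hl'
  exact hρ l' hl' l hl

theorem phi_left {ρ C : ℝ} (hρ : ∀ t < T.length, |D.X t| < ρ) {c : Cv} (hc : c ∈ curves N T) :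
    D.phi ρ C c (-ρ) = D.F c.1 (-ρ) + C * (1 - (c.2.2.2 : ℝ)) := by
  unfold phi
  split_ifs with h0
  · rcases cases hc with ⟨l, _, rfl⟩ | ⟨t, ht, h1, _⟩
    · simp
    · omega
  · rw [tent_left (D.X_lt hρ hc h0)]

theorem phi_right {ρ C : ℝ} (hρ : ∀ t < T.length, |D.X t| < ρ) {c : Cv} (hc : c ∈ curves N T) :
    D.phi ρ C c ρ = D.F c.1 ρ + C * (1 - (c.2.2.2 : ℝ)) := by
  unfold phi
  split_ifs with h0
  · rcases cases hc with ⟨l, _, rfl⟩ | ⟨t, ht, h1, _⟩
    · simp
    · omega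
  · rw [tent_right (D.X_lt hρ hc h0)]

theorem phi_star {ρ C : ℝ} (hρ : ∀ t < T.length, |D.X t| < ρ) {c : Cv} (hc : c ∈ curves N T)
    (h0 : c.2.1 ≠ 0) : D.phi ρ C c (D.X (c.2.1 - 1)) = D.Y (c.2.1 - 1) := by
  unfold phi
  rw [if_neg h0, tent_mid (D.X_lt hρ hc h0)]
  unfold ht
  ring

theorem phi_aff {ρ C : ℝ} (hρ : ∀ t < T.length, |D.X t| < ρ) {c : Cv} (hc : c ∈ curves N T)
    {u v : ℝ} (huv : u < v) (hu : -ρ ≤ u) (hv : v ≤ ρ) (h0 : (0 : ℝ) ∉ Ioo u v)
    (h1 : c.2.1 = 0 ∨ D.X (c.2.1 - 1) ∉ Ioo u v) :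
    ∃ a b : ℝ, ∀ x ∈ Icc u v, D.phi ρ C c x = a + b * x := by
  obtain ⟨p, q, hpq⟩ := pl_aff (α := D.α c.1) (m := D.m c.1) (m' := D.m' c.1) huv h0
  unfold phi F
  split_ifs with hc0
  · exact ⟨p, q, fun x hx => by rw [hpq x hx, add_zero]⟩
  · obtain ⟨p', q', hpq'⟩ := tent_aff (C := C * (1 - (c.2.2.2 : ℝ)))
      (h := D.ht (c.2.1 - 1) c.1) (D.X_lt hρ hc hc0) huv (h1.resolve_left hc0)
    exact ⟨p + p', q + q', fun x hx => by rw [hpq x hx, hpq' x hx]; ring⟩

end Prep

end Pool.Agent.CRt
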