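import Pool.Agent.CRt.GraphGen

/-!
# The crossing number problem for the graph of the reduction
-/

set_option autoImplicit false

namespace Pool.Agent.CRt

namespace Gr

theorem curve_props {N : ℕ} {T : List STriple} (hT : SValid N T) {c : Cv} (hc : c ∈ curves N T) :
    c.1 < N ∧ c.2.2.2 ≤ 2 ∧ c.2.1 ≤ T.length := by
  unfold curves starCurves at hc
  rcases List.mem_append.mp hc with h | h
  · obtain ⟨e, he, rfl⟩ := List.mem_map.mp h
    have := List.mem_range.mp he
    simp only [chordC]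
    omega
  · obtain ⟨t, ht, h⟩ := List.mem_flatMap.mp h
    have ht := List.mem_range.mp ht
    have hmem : T.getD t dflt ∈ T := by
      rw [List.getD_eq_getElem?_getD, List.getElem?_eq_getElem ht, Option.getD_some]
      exact List.getElem_mem ht
    have hv := hT _ hmem
    unfold starC at h
    simp only [List.mem_cons, List.not_mem_nil, or_false] at h
    rcases h with rfl | rfl | rfl
    · refine ⟨by simp only; omega, ?_, by simp only; omega⟩
      simp only; split_ifs <;> omega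
    · refine ⟨by simp only; omega, ?_, by simp only; omega⟩
      simp only; split_ifs <;> omega
    · refine ⟨by simp only; omega, ?_, by simp only; omega⟩
      simp only; split_ifs <;> omega

/-- the vertices of the skeleton -/
def IsBase (N : ℕ) (v : Vx) : Prop :=
  (∃ p < 3 * N + 2, v = lv p) ∨ (∃ p < 3 * N + 2, v = rv p) ∨ v = hub 0 ∨ v = hub 1

theorem IsBase.tag {N : ℕ} {v : Vx} (h : IsBase N v) : v.1 ≤ 2 := by
  rcases h with ⟨p, _, rfl⟩ | ⟨p, _, rfl⟩ | rfl | rfl <;> simp [lv, rv, hub]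

theorem mem_conns {N : ℕ} {q : ℕ × ℕ × Vx × Vx} : q ∈ conns N ↔
    (∃ p < 3 * N + 1, q = (4, p, lv p, lv (p + 1))) ∨
    (∃ p < 3 * N + 1, q = (5, p, rv p, rv (p + 1))) ∨
    (∃ p < 3 * N + 2, q = (6, p, hub 0, lv p)) ∨
    (∃ p < 3 * N + 2, q = (7, p, hub 1, rv p)) ∨
    q = (8, 0, lv 0, rv 0) ∨ q = (9, 0, lv (3 * N + 1), rv (3 * N + 1)) ∨
    q = (10, 0, hub 0, hub 1) := by
  unfold conns
  simp only [List.mem_append, List.mem_map, List.mem_range, List.mem_cons, List.not_mem_nil,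
    or_false, or_assoc]
  constructor
  · rintro (⟨p, h, rfl⟩ | ⟨p, h, rfl⟩ | ⟨p, h, rfl⟩ | ⟨p, h, rfl⟩ | h | h | h)
    · exact Or.inl ⟨p, h, rfl⟩
    · exact Or.inr (Or.inl ⟨p, h, rfl⟩)
    · exact Or.inr (Or.inr (Or.inl ⟨p, h, rfl⟩))
    · exact Or.inr (Or.inr (Or.inr (Or.inl ⟨p, h, rfl⟩)))
    · exact Or.inr (Or.inr (Or.inr (Or.inr (Or.inl h))))
    · exact Or.inr (Or.inr (Or.inr (Or.inr (Or.inr (Or.inl h)))))
    · exact Or.inr (Or.inr (Or.inr (Or.inr (Or.inr (Or.inr h)))))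
  · rintro (⟨p, h, rfl⟩ | ⟨p, h, rfl⟩ | ⟨p, h, rfl⟩ | ⟨p, h, rfl⟩ | h | h | h)
    · exact Or.inl ⟨p, h, rfl⟩
    · exact Or.inr (Or.inl ⟨p, h, rfl⟩)
    · exact Or.inr (Or.inr (Or.inl ⟨p, h, rfl⟩))
    · exact Or.inr (Or.inr (Or.inr (Or.inl ⟨p, h, rfl⟩)))
    · exact Or.inr (Or.inr (Or.inr (Or.inr (Or.inl h))))
    · exact Or.inr (Or.inr (Or.inr (Or.inr (Or.inr (Or.inl h)))))
    · exact Or.inr (Or.inr (Or.inr (Or.inr (Or.inr (Or.inr h)))))

theorem conn_props {N : ℕ} {q : ℕ × ℕ × Vx × Vx} (hq : q ∈ conns N) :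
    4 ≤ q.1 ∧ IsBase N q.2.2.1 ∧ IsBase N q.2.2.2 ∧ q.2.2.1 ≠ q.2.2.2 := by
  unfold IsBase
  rcases mem_conns.mp hq with ⟨p, h, rfl⟩ | ⟨p, h, rfl⟩ | ⟨p, h, rfl⟩ | ⟨p, h, rfl⟩ | rfl | rfl | rfl
  · exact ⟨le_rfl, Or.inl ⟨p, by omega, rfl⟩, Or.inl ⟨p + 1, by omega, rfl⟩, by simp [lv]⟩
  · exact ⟨by norm_num, Or.inr (Or.inl ⟨p, by omega, rfl⟩), Or.inr (Or.inl ⟨p + 1, by omega, rfl⟩),
      by simp [rv]⟩
  · exact ⟨by norm_num, Or.inr (Or.inr (Or.inl rfl)), Or.inl ⟨p, h, rfl⟩, by simp [lv, hub]⟩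
  · exact ⟨by norm_num, Or.inr (Or.inr (Or.inr rfl)), Or.inr (Or.inl ⟨p, h, rfl⟩),
      by simp [rv, hub]⟩
  · exact ⟨by norm_num, Or.inl ⟨0, by omega, rfl⟩, Or.inr (Or.inl ⟨0, by omega, rfl⟩),
      by simp [lv, rv]⟩
  · exact ⟨by norm_num, Or.inl ⟨3 * N + 1, by omega, rfl⟩,
      Or.inr (Or.inl ⟨3 * N + 1, by omega, rfl⟩), by simp [lv, rv]⟩
  · exact ⟨by norm_num, Or.inr (Or.inr (Or.inl rfl)), Or.inr (Or.inr (Or.inr rfl)),
      by simp [hub]⟩

theorem conn_key {N : ℕ} {q q' : ℕ × ℕ × Vx × Vx} (hq : q ∈ conns N) (hq' : q' ∈ conns N)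
    (h1 : q.1 = q'.1) (h2 : q.2.1 = q'.2.1) : q = q' := by
  rcases mem_conns.mp hq with ⟨p, h, rfl⟩ | ⟨p, h, rfl⟩ | ⟨p, h, rfl⟩ | ⟨p, h, rfl⟩ | rfl | rfl | rfl <;>
  rcases mem_conns.mp hq' with ⟨p', h', rfl⟩ | ⟨p', h', rfl⟩ | ⟨p', h', rfl⟩ | ⟨p', h', rfl⟩ |
    rfl | rfl | rfl <;> simp_all

theorem mem_gEdges {N : ℕ} {T : List STriple} {d : Vx × Vx} : d ∈ gEdges N T ↔
    (∃ c ∈ curves N T, c.2.1 = 0 ∧ d = (lend c, rend N c)) ∨
    (∃ c ∈ curves N T, c.2.1 ≠ 0 ∧ d = (lend c, star (c.2.1 - 1))) ∨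
    (∃ c ∈ curves N T, c.2.1 ≠ 0 ∧ d = (star (c.2.1 - 1), rend N c)) ∨
    (∃ q ∈ conns N, ∃ i < KK N T, d = (q.2.2.1, (q.1, q.2.1, i))) ∨
    (∃ q ∈ conns N, ∃ i < KK N T, d = ((q.1, q.2.1, i), q.2.2.2)) := by
  unfold gEdges
  simp only [List.mem_append, List.mem_flatMap, List.mem_range]
  constructor
  · rintro (⟨c, hc, h⟩ | ⟨q, hq, i, hi, h⟩)
    · unfold curveEdges at h
      split_ifs at h with h0
      · exact Or.inl ⟨c, hc, h0, by simpa using h⟩
      · simp only [List.mem_cons, List.not_mem_nil, or_false] at h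
        rcases h with h | h
        · exact Or.inr (Or.inl ⟨c, hc, h0, h⟩)
        · exact Or.inr (Or.inr (Or.inl ⟨c, hc, h0, h⟩))
    · unfold connEdges at h
      simp only [List.mem_cons, List.not_mem_nil, or_false] at h
      rcases h with h | h
      · exact Or.inr (Or.inr (Or.inr (Or.inl ⟨q, hq, i, hi, h⟩)))
      · exact Or.inr (Or.inr (Or.inr (Or.inr ⟨q, hq, i, hi, h⟩)))
  · rintro (⟨c, hc, h0, h⟩ | ⟨c, hc, h0, h⟩ | ⟨c, hc, h0, h⟩ | ⟨q, hq, i, hi, h⟩ | ⟨q, hq, i, hi, h⟩)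
    · left; refine ⟨c, hc, ?_⟩; unfold curveEdges; rw [if_pos h0]; simp [h]
    · left; refine ⟨c, hc, ?_⟩; unfold curveEdges; rw [if_neg h0]; simp [h]
    · left; refine ⟨c, hc, ?_⟩; unfold curveEdges; rw [if_neg h0]; simp [h]
    · right; exact ⟨q, hq, i, hi, by unfold connEdges; simp [h]⟩
    · right; exact ⟨q, hq, i, hi, by unfold connEdges; simp [h]⟩

theorem mem_gVerts {N : ℕ} {T : List STriple} {v : Vx} : v ∈ gVerts N T ↔
    IsBase N v ∨ (∃ t < T.length, v = star t) ∨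
      ∃ q ∈ conns N, ∃ i < KK N T, v = (q.1, q.2.1, i) := by
  unfold gVerts IsBase
  simp only [List.mem_append, List.mem_flatMap, List.mem_range, List.mem_map, List.mem_cons,
    List.not_mem_nil, or_false]
  constructor
  · rintro ((((⟨p, h, rfl⟩ | ⟨p, h, rfl⟩) | h) | ⟨t, h, rfl⟩) | ⟨q, hq, i, hi, rfl⟩)
    · exact Or.inl (Or.inl ⟨p, h, rfl⟩)
    · exact Or.inl (Or.inr (Or.inl ⟨p, h, rfl⟩))
    · exact Or.inl (Or.inr (Or.inr h))
    · exact Or.inr (Or.inl ⟨t, h, rfl⟩)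
    · exact Or.inr (Or.inr ⟨q, hq, i, hi, rfl⟩)
  · rintro ((⟨p, h, rfl⟩ | ⟨p, h, rfl⟩ | h) | ⟨t, h, rfl⟩ | ⟨q, hq, i, hi, rfl⟩)
    · exact Or.inl (Or.inl (Or.inl (Or.inl ⟨p, h, rfl⟩)))
    · exact Or.inl (Or.inl (Or.inl (Or.inr ⟨p, h, rfl⟩)))
    · exact Or.inl (Or.inl (Or.inr h))
    · exact Or.inl (Or.inr ⟨t, h, rfl⟩)
    · exact Or.inr ⟨q, hq, i, hi, rfl⟩

theorem lend_base {N : ℕ} {T : List STriple} (hT : SValid N T) {c : Cv} (hc : c ∈ curves N T) :
    IsBase N (lend c) := by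
  obtain ⟨h1, h2, -⟩ := curve_props hT hc
  exact Or.inl ⟨_, by omega, rfl⟩

theorem rend_base {N : ℕ} {T : List STriple} (hT : SValid N T) {c : Cv} (hc : c ∈ curves N T) :
    IsBase N (rend N c) := by
  obtain ⟨h1, h2, -⟩ := curve_props hT hc
  exact Or.inr (Or.inl ⟨_, by omega, rfl⟩)

theorem KK_pos (N : ℕ) (T : List STriple) : 0 < KK N T := by unfold KK; omega

theorem conns_keys_nodup (N : ℕ) : ((conns N).map fun q => (q.1, q.2.1)).Nodup := by
  unfold conns
  simp only [List.map_append, List.map_map, List.map_cons, List.map_nil]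
  have hinj : ∀ a : ℕ, ∀ f : ℕ → ℕ × ℕ, (∀ p, f p = (a, p)) → Function.Injective f := by
    intro a f hf p q hpq
    rw [hf, hf] at hpq
    exact (Prod.mk.inj hpq).2
  rw [List.nodup_append, List.nodup_append, List.nodup_append, List.nodup_append]
  refine ⟨⟨⟨⟨?_, ?_, ?_⟩, ?_, ?_⟩, ?_, ?_⟩, ?_, ?_⟩
  · exact List.nodup_range.map (hinj 4 _ fun p => rfl)
  · exact List.nodup_range.map (hinj 5 _ fun p => rfl)
  · intro a ha b hb
    simp only [List.mem_map, Function.comp_apply] at ha hb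
    obtain ⟨p, _, rfl⟩ := ha
    obtain ⟨q, _, rfl⟩ := hb
    simp
  · exact List.nodup_range.map (hinj 6 _ fun p => rfl)
  · intro a ha b hb
    simp only [List.mem_append, List.mem_map, Function.comp_apply] at ha hb
    obtain ⟨q, _, rfl⟩ := hb
    rcases ha with ⟨p, _, rfl⟩ | ⟨p, _, rfl⟩ <;> simp
  · exact List.nodup_range.map (hinj 7 _ fun p => rfl)
  · intro a ha b hb
    simp only [List.mem_append, List.mem_map, Function.comp_apply] at ha hb
    obtain ⟨q, _, rfl⟩ := hb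
    rcases ha with (⟨p, _, rfl⟩ | ⟨p, _, rfl⟩) | ⟨p, _, rfl⟩ <;> simp
  · simp
  · intro a ha b hb
    simp only [List.mem_append, List.mem_map, Function.comp_apply, List.mem_cons,
      List.not_mem_nil, or_false] at ha hb
    rcases hb with rfl | rfl | rfl <;>
    rcases ha with ((⟨p, _, rfl⟩ | ⟨p, _, rfl⟩) | ⟨p, _, rfl⟩) | ⟨p, _, rfl⟩ <;> simp

theorem gVerts_nodup (N : ℕ) (T : List STriple) : (gVerts N T).Nodup := by
  unfold gVerts
  rw [List.nodup_append, List.nodup_append, List.nodup_append, List.nodup_append]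
  refine ⟨⟨⟨⟨?_, ?_, ?_⟩, ?_, ?_⟩, ?_, ?_⟩, ?_, ?_⟩
  · exact List.nodup_range.map fun p q h => by simpa [lv] using h
  · exact List.nodup_range.map fun p q h => by simpa [rv] using h
  · intro a ha b hb
    obtain ⟨p, _, rfl⟩ := List.mem_map.mp ha
    obtain ⟨q, _, rfl⟩ := List.mem_map.mp hb
    simp [lv, rv]
  · simp [hub]
  · intro a ha b hb
    simp only [List.mem_append, List.mem_map, List.mem_cons, List.not_mem_nil, or_false] at ha hb
    rcases hb with rfl | rfl <;> rcases ha with ⟨p, _, rfl⟩ | ⟨p, _, rfl⟩ <;> simp [lv, rv, hub]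
  · exact List.nodup_range.map fun p q h => by simpa [star] using h
  · intro a ha b hb
    simp only [List.mem_append, List.mem_map, List.mem_cons, List.not_mem_nil, or_false] at ha hb
    obtain ⟨q, _, rfl⟩ := hb
    rcases ha with (⟨p, _, rfl⟩ | ⟨p, _, rfl⟩) | rfl | rfl <;> simp [lv, rv, hub, star]
  · rw [List.nodup_flatMap]
    refine ⟨fun q _ => List.nodup_range.map fun i j h => by simpa using h, ?_⟩
    have h := conns_keys_nodup N
    unfold List.Nodup at h
    rw [List.pairwise_map] at h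
    refine h.imp ?_
    intro q q' hne
    rw [Function.onFun, List.disjoint_left]
    intro a ha ha'
    obtain ⟨i, _, rfl⟩ := List.mem_map.mp ha
    obtain ⟨j, _, hj⟩ := List.mem_map.mp ha'
    simp only [Prod.mk.injEq] at hj
    exact hne (Prod.ext hj.1.symm hj.2.1.symm)
  · intro a ha b hb
    simp only [List.mem_append, List.mem_map, List.mem_cons, List.not_mem_nil, or_false,
      List.mem_flatMap] at ha hb
    obtain ⟨q, hq, i, _, rfl⟩ := hb
    have h4 := (conn_props hq).1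
    rcases ha with ((⟨p, _, rfl⟩ | ⟨p, _, rfl⟩) | rfl | rfl) | ⟨p, _, rfl⟩ <;>
    · intro h
      have := congrArg Prod.fst h
      simp only [lv, rv, hub, star] at this
      omega

theorem goodLists {N : ℕ} {T : List STriple} (hT : SValid N T) :
    GoodLists (gVerts N T) (gEdges N T) where
  nodup := gVerts_nodup N T
  mem1 := by
    intro d hd
    rw [mem_gVerts]
    rcases mem_gEdges.mp hd with ⟨c, hc, h0, rfl⟩ | ⟨c, hc, h0, rfl⟩ | ⟨c, hc, h0, rfl⟩ |
      ⟨q, hq, i, hi, rfl⟩ | ⟨q, hq, i, hi, rfl⟩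
    · exact Or.inl (lend_base hT hc)
    · exact Or.inl (lend_base hT hc)
    · have := (curve_props hT hc).2.2
      exact Or.inr (Or.inl ⟨_, by omega, rfl⟩)
    · exact Or.inl (conn_props hq).2.1
    · exact Or.inr (Or.inr ⟨q, hq, i, hi, rfl⟩)
  mem2 := by
    intro d hd
    rw [mem_gVerts]
    rcases mem_gEdges.mp hd with ⟨c, hc, h0, rfl⟩ | ⟨c, hc, h0, rfl⟩ | ⟨c, hc, h0, rfl⟩ |
      ⟨q, hq, i, hi, rfl⟩ | ⟨q, hq, i, hi, rfl⟩
    · exact Or.inl (rend_base hT hc)
    · have := (curve_props hT hc).2.2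
      exact Or.inr (Or.inl ⟨_, by omega, rfl⟩)
    · exact Or.inl (rend_base hT hc)
    · exact Or.inr (Or.inr ⟨q, hq, i, hi, rfl⟩)
    · exact Or.inl (conn_props hq).2.2.1
  ne := by
    intro d hd h
    have h' := congrArg Prod.fst h
    rcases mem_gEdges.mp hd with ⟨c, hc, h0, rfl⟩ | ⟨c, hc, h0, rfl⟩ | ⟨c, hc, h0, rfl⟩ |
      ⟨q, hq, i, hi, rfl⟩ | ⟨q, hq, i, hi, rfl⟩
    · simp [lend, rend, lv, rv] at h'
    · simp [lend, star, lv] at h'
    · simp [rend, star, rv] at h'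
    · have h1 := (conn_props hq).1
      have h2 := (conn_props hq).2.1.tag
      simp only at h'
      omega
    · have h1 := (conn_props hq).1
      have h2 := (conn_props hq).2.2.1.tag
      simp only at h'
      omega
  anti := by
    intro d hd hs
    rcases mem_gEdges.mp hd with ⟨c, hc, h0, rfl⟩ | ⟨c, hc, h0, rfl⟩ | ⟨c, hc, h0, rfl⟩ |
      ⟨q, hq, i, hi, rfl⟩ | ⟨q, hq, i, hi, rfl⟩ <;>
    rcases mem_gEdges.mp hs with ⟨c', hc', h0', h⟩ | ⟨c', hc', h0', h⟩ | ⟨c', hc', h0', h⟩ |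
      ⟨q', hq', i', hi', h⟩ | ⟨q', hq', i', hi', h⟩
    · simp [lend, rend, lv, rv] at h
    · simp [lend, rend, lv, rv] at h
    · simp [lend, rend, lv, rv, star] at h
    · have h1 := (conn_props hq').1
      have e := congrArg (fun x : Vx × Vx => x.2.1) h
      simp only [Prod.swap, lend, lv] at e
      omega
    · have h1 := (conn_props hq').1
      have e := congrArg (fun x : Vx × Vx => x.1.1) h
      simp only [Prod.swap, rend, rv] at e
      omega
    · simp [lend, star, lv] at h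
    · simp [lend, star, lv] at h
    · simp [lend, rend, lv, rv, star] at h
    · have h1 := (conn_props hq').1
      have e := congrArg (fun x : Vx × Vx => x.2.1) h
      simp only [Prod.swap, lend, lv] at e
      omega
    · have h1 := (conn_props hq').1
      have e := congrArg (fun x : Vx × Vx => x.1.1) h
      simp only [Prod.swap, star] at e
      omega
    · simp [lend, rend, star, lv, rv] at h
    · simp [lend, rend, star, lv, rv] at h
    · simp [rend, rv, star] at h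
    · have h1 := (conn_props hq').1
      have e := congrArg (fun x : Vx × Vx => x.2.1) h
      simp only [Prod.swap, star] at e
      omega
    · have h1 := (conn_props hq').1
      have e := congrArg (fun x : Vx × Vx => x.1.1) h
      simp only [Prod.swap, rend, rv] at e
      omega
    · have h1 := (conn_props hq).1
      have e := congrArg (fun x : Vx × Vx => x.1.1) h
      simp only [Prod.swap, lend, lv] at e
      omega
    · have h1 := (conn_props hq).1
      have e := congrArg (fun x : Vx × Vx => x.1.1) h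
      simp only [Prod.swap, lend, lv] at e
      omega
    · have h1 := (conn_props hq).1
      have e := congrArg (fun x : Vx × Vx => x.1.1) h
      simp only [Prod.swap, star] at e
      omega
    · have h1 := (conn_props hq).1
      have h2 := (conn_props hq').2.1.tag
      have e := congrArg (fun x : Vx × Vx => x.1.1) h
      simp only [Prod.swap] at e
      omega
    · -- the middle vertices agree
      have e1 := congrArg (fun x : Vx × Vx => x.1.1) h
      have e2 := congrArg (fun x : Vx × Vx => x.1.2.1) h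
      have e3 := congrArg (fun x : Vx × Vx => x.2) h
      simp only [Prod.swap] at e1 e2 e3
      have := conn_key hq hq' e1 e2
      subst this
      exact (conn_props hq).2.2.2 e3
    · have h1 := (conn_props hq).1
      have e := congrArg (fun x : Vx × Vx => x.2.1) h
      simp only [Prod.swap, rend, rv] at e
      omega
    · have h1 := (conn_props hq).1
      have e := congrArg (fun x : Vx × Vx => x.2.1) h
      simp only [Prod.swap, star] at e
      omega
    · have h1 := (conn_props hq).1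
      have e := congrArg (fun x : Vx × Vx => x.2.1) h
      simp only [Prod.swap, rend, rv] at e
      omega
    · -- the middle vertices agree
      have e1 := congrArg (fun x : Vx × Vx => x.2.1) h
      have e2 := congrArg (fun x : Vx × Vx => x.2.2.1) h
      have e3 := congrArg (fun x : Vx × Vx => x.1) h
      simp only [Prod.swap] at e1 e2 e3
      have := conn_key hq hq' e1 e2
      subst this
      exact (conn_props hq).2.2.2 e3.symm
    · have h1 := (conn_props hq).1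
      have h2 := (conn_props hq').2.2.1.tag
      have e := congrArg (fun x : Vx × Vx => x.2.1) h
      simp only [Prod.swap] at e
      omega
  inc := by
    intro v hv
    have hK := KK_pos N T
    rcases mem_gVerts.mp hv with (⟨p, hp, rfl⟩ | ⟨p, hp, rfl⟩ | rfl | rfl) | ⟨t, ht, rfl⟩ |
      ⟨q, hq, i, hi, rfl⟩
    · exact ⟨_, mem_gEdges.mpr (Or.inr (Or.inr (Or.inr (Or.inr ⟨(6, p, hub 0, lv p),
        mem_conns.mpr (Or.inr (Or.inr (Or.inl ⟨p, hp, rfl⟩))), 0, hK, rfl⟩)))), Or.inr rfl⟩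
    · exact ⟨_, mem_gEdges.mpr (Or.inr (Or.inr (Or.inr (Or.inr ⟨(7, p, hub 1, rv p),
        mem_conns.mpr (Or.inr (Or.inr (Or.inr (Or.inl ⟨p, hp, rfl⟩)))), 0, hK, rfl⟩)))),
        Or.inr rfl⟩
    · exact ⟨_, mem_gEdges.mpr (Or.inr (Or.inr (Or.inr (Or.inl ⟨(10, 0, hub 0, hub 1),
        mem_conns.mpr (Or.inr (Or.inr (Or.inr (Or.inr (Or.inr (Or.inr rfl)))))), 0, hK, rfl⟩)))),
        Or.inl rfl⟩
    · exact ⟨_, mem_gEdges.mpr (Or.inr (Or.inr (Or.inr (Or.inr ⟨(10, 0, hub 0, hub 1),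
        mem_conns.mpr (Or.inr (Or.inr (Or.inr (Or.inr (Or.inr (Or.inr rfl)))))), 0, hK, rfl⟩)))),
        Or.inr rfl⟩
    · obtain ⟨c, hc, hct⟩ : ∃ c ∈ curves N T, c.2.1 = t + 1 := by
        refine ⟨((T.getD t dflt).1, t + 1, 0, if (T.getD t dflt).2.2.2 then 0 else 2), ?_, rfl⟩
        unfold curves starCurves
        refine List.mem_append_right _ (List.mem_flatMap.mpr ⟨t, List.mem_range.mpr ht, ?_⟩)
        unfold starC
        exact List.mem_cons_self
      refine ⟨_, mem_gEdges.mpr (Or.inr (Or.inl ⟨c, hc, by omega, rfl⟩)), Or.inr ?_⟩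
      simp [hct]
    · exact ⟨_, mem_gEdges.mpr (Or.inr (Or.inr (Or.inr (Or.inl ⟨q, hq, i, hi, rfl⟩)))),
        Or.inr rfl⟩

end Gr

theorem cr_iff {N : ℕ} {T : List STriple} (hT : SValid N T) :
    FP.enc (List.replicate (gVerts N T).length (), numEdges (gVerts N T) (gEdges N T), kk N T) ∈
      CR 2 ↔ ∃ D : LDraw (gEdges N T), D.crossings.encard ≤ kk N T :=
  cr_gen (Gr.goodLists hT) _

end Pool.Agent.CRt
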