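import Pool.Agent.CRt.DrawDefs
import Pool.Agent.CRt.Graph

/-!
# The skeleton of the drawing: the part near the box, and the first coordinates
-/

set_option autoImplicit false

namespace Pool.Agent.CRt

open Set

namespace Out2

theorem seg_mem {A B z : Plane} (h : z ∈ segment ℝ A B) : ∃ s : ℝ, 0 ≤ s ∧ s ≤ 1 ∧
    z.1 = A.1 + s * (B.1 - A.1) ∧ z.2 = A.2 + s * (B.2 - A.2) := by
  rw [segment_eq_image'] at h
  obtain ⟨t, ⟨h0, h1⟩, rfl⟩ := h
  exact ⟨t, h0, h1, by simp, by simp⟩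

theorem tau_pos (K i : ℕ) : 0 < tau K i := by unfold tau; positivity

theorem mem_outEdges {N K : ℕ} {d : Vx × Vx} : d ∈ outEdges N K ↔
    ∃ q ∈ conns N, ∃ i < K, d = (q.2.2.1, (q.1, q.2.1, i)) ∨ d = ((q.1, q.2.1, i), q.2.2.2) := by
  unfold outEdges
  simp only [List.mem_flatMap, List.mem_range, connEdges, List.mem_cons, List.not_mem_nil,
    or_false]

end Out2

open Out2

section
variable {N K : ℕ} {ρ H : ℝ} {h h' : ℕ → ℝ} {S : ℕ → Plane}

theorem out_region (hρ : 0 < ρ) (hH : 0 < H) (hh : ColOk N H h) (hh' : ColOk N H h')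
    {d : Vx × Vx} (hd : d ∈ outEdges N K) {z : Plane}
    (hz : z ∈ segment ℝ (opos ρ H h h' S K d.1) (opos ρ H h h' S K d.2))
    (h1 : -ρ ≤ z.1) (h2 : z.1 ≤ ρ) (h3 : -H < z.2) (h4 : z.2 < H) :
    ∃ v, (v = d.1 ∨ v = d.2) ∧ z = opos ρ H h h' S K v ∧
      ∃ p ≤ 3 * N + 1, v = lv p ∨ v = rv p := by
  obtain ⟨q, hq, i, hi, hdq⟩ := mem_outEdges.1 hd
  obtain ⟨s, hs0, hs1, hz1, hz2⟩ := seg_mem hz
  have htau := tau_pos K i
  have hi0 : (0 : ℝ) ≤ i := Nat.cast_nonneg i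
  have hK0 : (0 : ℝ) ≤ K := Nat.cast_nonneg K
  rcases Gr.mem_conns.1 hq with ⟨p, hp, rfl⟩ | ⟨p, hp, rfl⟩ | ⟨p, hp, rfl⟩ | ⟨p, hp, rfl⟩ |
    rfl | rfl | rfl <;> rcases hdq with rfl | rfl <;>
    simp only [lv, rv, hub, opos, if_true, if_false, one_ne_zero] at hz1 hz2
  · -- 4, first half
    have hs : s = 0 := by
      by_contra hne
      have : 0 < s := lt_of_le_of_ne hs0 (Ne.symm hne)
      nlinarith [mul_pos this htau]
    subst hs
    exact ⟨lv p, Or.inl rfl, Prod.ext (by simp [lv, opos, hz1]) (by simp [lv, opos, hz2]),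
      p, by omega, Or.inl rfl⟩
  · have hs : s = 1 := by
      by_contra hne
      have : s < 1 := lt_of_le_of_ne hs1 hne
      nlinarith [mul_pos (sub_pos.2 this) htau]
    subst hs
    exact ⟨lv (p + 1), Or.inr rfl, Prod.ext (by simp [lv, opos, hz1]) (by simp [lv, opos, hz2]),
      p + 1, by omega, Or.inl rfl⟩
  · have hs : s = 0 := by
      by_contra hne
      have : 0 < s := lt_of_le_of_ne hs0 (Ne.symm hne)
      nlinarith [mul_pos this htau]
    subst hs
    exact ⟨rv p, Or.inl rfl, Prod.ext (by simp [rv, opos, hz1]) (by simp [rv, opos, hz2]),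
      p, by omega, Or.inr rfl⟩
  · have hs : s = 1 := by
      by_contra hne
      have : s < 1 := lt_of_le_of_ne hs1 hne
      nlinarith [mul_pos (sub_pos.2 this) htau]
    subst hs
    exact ⟨rv (p + 1), Or.inr rfl, Prod.ext (by simp [rv, opos, hz1]) (by simp [rv, opos, hz2]),
      p + 1, by omega, Or.inr rfl⟩
  · exfalso; linarith
  · have hs : s = 1 := by linarith
    subst hs
    exact ⟨lv p, Or.inr rfl, Prod.ext (by simp [lv, opos, hz1]) (by simp [lv, opos, hz2]),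
      p, by omega, Or.inl rfl⟩
  · exfalso; linarith
  · have hs : s = 1 := by linarith
    subst hs
    exact ⟨rv p, Or.inr rfl, Prod.ext (by simp [rv, opos, hz1]) (by simp [rv, opos, hz2]),
      p, by omega, Or.inr rfl⟩
  · exfalso
    rw [hh.top] at hz2
    nlinarith
  · exfalso
    rw [hh'.top] at hz2
    nlinarith
  · exfalso
    rw [hh.bot] at hz2
    nlinarith
  · exfalso
    rw [hh'.bot] at hz2
    nlinarith
  · exfalso
    have e1 : 2 ≤ s * (ρ + 2) := by nlinarith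
    have e2 : z.2 = s * (ρ + 2) * (H + K + 2) + s * i := by rw [hz2]; ring
    have e3 : 2 * (H + K + 2) ≤ s * (ρ + 2) * (H + K + 2) :=
      mul_le_mul_of_nonneg_right e1 (by linarith)
    have e4 : 0 ≤ s * (i : ℝ) := mul_nonneg hs0 hi0
    linarith
  · exfalso
    have e1 : 2 ≤ (1 - s) * (ρ + 2) := by nlinarith
    have e2 : z.2 = (1 - s) * (ρ + 2) * (H + K + 2) + (1 - s) * i := by rw [hz2]; ring
    have e3 : 2 * (H + K + 2) ≤ (1 - s) * (ρ + 2) * (H + K + 2) :=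
      mul_le_mul_of_nonneg_right e1 (by linarith)
    have e4 : 0 ≤ (1 - s) * (i : ℝ) := mul_nonneg (by linarith) hi0
    linarith

theorem out_ne (hρ : 0 < ρ) {d : Vx × Vx} (hd : d ∈ outEdges N K) :
    (opos ρ H h h' S K d.1).1 ≠ (opos ρ H h h' S K d.2).1 := by
  obtain ⟨q, hq, i, hi, hdq⟩ := mem_outEdges.1 hd
  have htau := tau_pos K i
  intro he
  rcases Gr.mem_conns.1 hq with ⟨p, hp, rfl⟩ | ⟨p, hp, rfl⟩ | ⟨p, hp, rfl⟩ | ⟨p, hp, rfl⟩ |
    rfl | rfl | rfl <;> rcases hdq with rfl | rfl <;>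
    simp only [lv, rv, hub, opos, if_true, if_false, one_ne_zero] at he <;> linarith

end

end Pool.Agent.CRt
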