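import Pool.Agent.CRt.DrawDefs
import Pool.Agent.CRt.DrawOuter2

/-!
# The skeleton of the drawing: two edges meet at common ends only
-/

set_option autoImplicit false

namespace Pool.Agent.CRt

open Set

namespace Out1

/-- horizontal distance of a point of an edge from the middle -/
noncomputable def qx (ρ : ℝ) (K k i : ℕ) (s : ℝ) : ℝ :=
  match k with
  | 0 => ρ + s * tau K i
  | 1 => ρ + s * tau K i
  | 2 => ρ + 2 - s
  | 3 => ρ + s
  | 4 => ρ * (1 - s)
  | 5 => ρ * (1 - s)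
  | _ => (ρ + 2) * (1 - s)

/-- height of a point of an edge -/
noncomputable def qy (ρ H : ℝ) (h : ℕ → ℝ) (K k p i : ℕ) (s : ℝ) : ℝ :=
  match k with
  | 0 => h p - s * ((h p - h (p + 1)) / 2)
  | 1 => h (p + 1) + s * ((h p - h (p + 1)) / 2)
  | 2 => s * (h p + tau K i)
  | 3 => h p + s * tau K i
  | 4 => H + s * (1 + i)
  | 5 => -(H + s * (1 + i))
  | _ => s * ((ρ + 2) * (H + K + 2) + i)

def Adm (N K k p i : ℕ) : Prop :=
  i < K ∧ ((k ≤ 1 ∧ p < 3 * N + 1) ∨ ((k = 2 ∨ k = 3) ∧ p < 3 * N + 2) ∨ (4 ≤ k ∧ k ≤ 6 ∧ p = 0))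

def vA (N σ k p : ℕ) : Vx :=
  match k with
  | 0 => (σ, p, 0)
  | 1 => (σ, p + 1, 0)
  | 2 => (2, σ, 0)
  | 3 => (σ, p, 0)
  | 4 => (σ, 0, 0)
  | 5 => (σ, 3 * N + 1, 0)
  | _ => (2, σ, 0)

def vB (σ k p i : ℕ) : Vx :=
  match k with
  | 0 => (4 + σ, p, i)
  | 1 => (4 + σ, p, i)
  | 2 => (6 + σ, p, i)
  | 3 => (6 + σ, p, i)
  | 4 => (8, 0, i)
  | 5 => (9, 0, i)
  | _ => (10, 0, i)

def mk (N σ k p i : ℕ) : Vx × Vx :=
  if k = 1 ∨ k = 3 ∨ (4 ≤ k ∧ σ = 1) then (vB σ k p i, vA N σ k p) else (vA N σ k p, vB σ k p i)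

theorem tau_le {K i : ℕ} (h : i < K) : tau K i ≤ 1 / 2 := by
  unfold tau
  have h1 : (i : ℝ) + 1 ≤ K := by exact_mod_cast h
  have h2 : (0 : ℝ) ≤ K := Nat.cast_nonneg K
  rw [div_le_iff₀ (by positivity)]
  linarith

theorem tau_inj {K i j : ℕ} (h : tau K i = tau K j) : i = j := by
  unfold tau at h
  have h2 : (0 : ℝ) < 2 * ((K : ℝ) + 1) := by positivity
  rw [div_left_inj' h2.ne'] at h
  exact_mod_cast (by linarith : (i : ℝ) = j)

variable {N K : ℕ} {ρ H : ℝ} {h h' : ℕ → ℝ} {S : ℕ → Plane}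

theorem gap (hh : ColOk N H h) {p q : ℕ} (hpq : p < q) (hq : q ≤ 3 * N + 1) : h q + 4 ≤ h p := by
  induction q with
  | zero => omega
  | succ n ih =>
    have := hh.gap n (by omega)
    rcases Nat.lt_succ_iff_lt_or_eq.1 hpq with h1 | h1
    · have := ih h1 (by omega)
      linarith
    · subst h1; linarith

theorem gap' (hh : ColOk N H h) {p q : ℕ} (hpq : p ≤ q) (hq : q ≤ 3 * N + 1) : h q ≤ h p := by
  rcases Nat.lt_or_ge p q with h1 | h1
  · have := gap hh h1 hq; linarith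
  · have : p = q := by omega
    rw [this]

theorem le_top (hh : ColOk N H h) {p : ℕ} (hp : p ≤ 3 * N + 1) : h p ≤ H := by
  have := gap' hh (Nat.zero_le p) hp
  rwa [hh.top] at this

theorem ge_bot (hh : ColOk N H h) {p : ℕ} (hp : p ≤ 3 * N + 1) : -H ≤ h p := by
  have := gap' hh hp le_rfl
  rwa [hh.bot] at this

theorem eq_top (hh : ColOk N H h) {p : ℕ} (hp : p ≤ 3 * N + 1) (e : h p = H) : p = 0 := by
  by_contra hne
  have := gap hh (Nat.pos_of_ne_zero hne) hp
  rw [hh.top] at this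
  linarith

theorem eq_bot (hh : ColOk N H h) {p : ℕ} (hp : p ≤ 3 * N + 1) (e : h p = -H) :
    p = 3 * N + 1 := by
  by_contra hne
  have := gap hh (lt_of_le_of_ne hp hne) le_rfl
  rw [hh.bot] at this
  linarith

theorem near (hh : ColOk N H h) {p q : ℕ} (hp : p ≤ 3 * N + 1) (hq : q ≤ 3 * N + 1)
    (h1 : h p < h q + 4) (h2 : h q < h p + 4) : p = q := by
  rcases lt_trichotomy p q with c | c | c
  · have := gap hh c hq; linarith
  · exact c
  · have := gap hh c hp; linarith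

/-- the conclusion for two edges of the same side -/
def Concl (N k p i k' p' i' : ℕ) (s s' : ℝ) : Prop :=
  (k = k' ∧ p = p' ∧ i = i') ∨ (s = 0 ∧ s' = 0 ∧ ∀ σ, vA N σ k p = vA N σ k' p') ∨
    (s = 1 ∧ s' = 1 ∧ ∀ σ, vB σ k p i = vB σ k' p' i')

theorem same_side (hρ : 0 < ρ) (hH : 0 < H) (hh : ColOk N H h) {k p i k' p' i' : ℕ} {s s' : ℝ}
    (hkk : k ≤ k') (ha : Adm N K k p i) (ha' : Adm N K k' p' i')
    (h0 : 0 ≤ s) (h1 : s ≤ 1) (h0' : 0 ≤ s') (h1' : s' ≤ 1)
    (hx : qx ρ K k i s = qx ρ K k' i' s') (hy : qy ρ H h K k p i s = qy ρ H h K k' p' i' s') :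
    Concl N k p i k' p' i' s s' := by
  obtain ⟨hi, ha⟩ := ha
  obtain ⟨hi', ha'⟩ := ha'
  have t0 := Out2.tau_pos K i
  have t0' := Out2.tau_pos K i'
  have t1 := tau_le hi
  have t1' := tau_le hi'
  have hK0 : (0 : ℝ) ≤ K := Nat.cast_nonneg K
  have hi0 : (0 : ℝ) ≤ i := Nat.cast_nonneg i
  have hi0' : (0 : ℝ) ≤ i' := Nat.cast_nonneg i'
  have hiK : (i : ℝ) + 1 ≤ K := by exact_mod_cast hi
  have hiK' : (i' : ℝ) + 1 ≤ K := by exact_mod_cast hi'
  have st0 : 0 ≤ s * tau K i := mul_nonneg h0 t0.le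
  have st0' : 0 ≤ s' * tau K i' := mul_nonneg h0' t0'.le
  have st1 : s * tau K i ≤ 1 / 2 := by nlinarith
  have st1' : s' * tau K i' ≤ 1 / 2 := by nlinarith
  have si0 : 0 ≤ s * (1 + i) := mul_nonneg h0 (by linarith)
  have si0' : 0 ≤ s' * (1 + (i' : ℝ)) := mul_nonneg h0' (by linarith)
  have ρs0 : 0 ≤ ρ * s := mul_nonneg hρ.le h0
  have ρs0' : 0 ≤ ρ * s' := mul_nonneg hρ.le h0'
  have hb : ∀ a b : ℝ, 0 ≤ a → 0 < b → a * b = 0 → a = 0 := by
    intro a b _ hb hab
    rcases mul_eq_zero.1 hab with e | e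
    · exact e
    · exact absurd e hb.ne'
  have key6 : ∀ c : ℝ, c ≤ s' * (ρ + 2) → c * (H + K + 2) ≤
      s' * ((ρ + 2) * (H + K + 2) + i') := by
    intro c hc
    have e1 : c * (H + K + 2) ≤ s' * (ρ + 2) * (H + K + 2) :=
      mul_le_mul_of_nonneg_right hc (by linarith)
    have e2 : 0 ≤ s' * (i' : ℝ) := mul_nonneg h0' hi0'
    nlinarith
  unfold Concl
  obtain rfl | rfl | rfl | rfl | rfl | rfl | rfl : k = 0 ∨ k = 1 ∨ k = 2 ∨ k = 3 ∨ k = 4 ∨ k = 5 ∨
      k = 6 := by omega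
  · -- k = 0
    obtain ⟨hp⟩ : Nonempty (p < 3 * N + 1) := ⟨by omega⟩
    have g := hh.gap p hp
    have hpt := le_top hh (p := p) (by omega)
    have sg0 : 0 ≤ s * ((h p - h (p + 1)) / 2) := mul_nonneg h0 (by linarith)
    have sg1 : s * ((h p - h (p + 1)) / 2) ≤ (h p - h (p + 1)) / 2 := by nlinarith
    obtain rfl | rfl | rfl | rfl | rfl | rfl | rfl : k' = 0 ∨ k' = 1 ∨ k' = 2 ∨ k' = 3 ∨ k' = 4 ∨
      k' = 5 ∨ k' = 6 := by omega
    · -- 0, 0
      obtain ⟨hp'⟩ : Nonempty (p' < 3 * N + 1) := ⟨by omega⟩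
      have g' := hh.gap p' hp'
      have sg0' : 0 ≤ s' * ((h p' - h (p' + 1)) / 2) := mul_nonneg h0' (by linarith)
      have sg1' : s' * ((h p' - h (p' + 1)) / 2) ≤ (h p' - h (p' + 1)) / 2 := by nlinarith
      simp only [qx, qy] at hx hy
      rcases lt_trichotomy p p' with c | c | c
      · have := gap' hh (show p + 1 ≤ p' by omega) (by omega)
        exfalso; linarith
      · subst c
        have e : s = s' := by
          have e1 : s * ((h p - h (p + 1)) / 2) = s' * ((h p - h (p + 1)) / 2) := by linarith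
          exact mul_right_cancel₀ (by linarith : ((h p - h (p + 1)) / 2) ≠ 0) e1
        subst e
        rcases eq_or_lt_of_le h0 with e | e
        · exact Or.inr (Or.inl ⟨e.symm, e.symm, fun _ => rfl⟩)
        · exact Or.inl ⟨rfl, rfl, tau_inj (mul_left_cancel₀ e.ne' (by linarith))⟩
      · have := gap' hh (show p' + 1 ≤ p by omega) (by omega)
        exfalso; linarith
    · -- 0, 1
      obtain ⟨hp'⟩ : Nonempty (p' < 3 * N + 1) := ⟨by omega⟩
      have g' := hh.gap p' hp'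
      have sg0' : 0 ≤ s' * ((h p' - h (p' + 1)) / 2) := mul_nonneg h0' (by linarith)
      have sg1' : s' * ((h p' - h (p' + 1)) / 2) ≤ (h p' - h (p' + 1)) / 2 := by nlinarith
      simp only [qx, qy] at hx hy
      rcases lt_trichotomy p p' with c | c | c
      · have := gap' hh (show p + 1 ≤ p' by omega) (by omega)
        exfalso; linarith
      · subst c
        have e1 : s = 1 := by nlinarith
        have e2 : s' = 1 := by nlinarith
        subst e1
        subst e2
        have : i = i' := tau_inj (by linarith)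
        subst this
        exact Or.inr (Or.inr ⟨rfl, rfl, fun _ => rfl⟩)
      · have h3 := gap' hh (show p' + 1 ≤ p by omega) (by omega)
        have e1 : s * ((h p - h (p + 1)) / 2) = 0 := by linarith
        have e2 : s' * ((h p' - h (p' + 1)) / 2) = 0 := by linarith
        have e3 : s = 0 := hb _ _ h0 (by linarith) e1
        have e4 : s' = 0 := hb _ _ h0' (by linarith) e2
        have e5 : p = p' + 1 := near hh (by omega) (by omega) (by linarith) (by linarith)
        exact Or.inr (Or.inl ⟨e3, e4, fun _ => by simp only [vA]; rw [e5]⟩)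
    · simp only [qx] at hx
      exfalso; linarith
    · -- 0, 3
      obtain ⟨hp'⟩ : Nonempty (p' < 3 * N + 2) := ⟨by omega⟩
      simp only [qx, qy] at hx hy
      have h3 : p = p' := near hh (by omega) (by omega) (by
        rcases lt_trichotomy p p' with c | c | c
        · have := gap' hh (show p + 1 ≤ p' by omega) (by omega)
          linarith
        · subst c; linarith
        · have := gap hh c (by omega)
          linarith) (by linarith)
      subst h3
      have e1 : s * ((h p - h (p + 1)) / 2) = 0 := by linarith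
      have e3 : s = 0 := hb _ _ h0 (by linarith) e1
      have e4 : s' = 0 := by rw [e3] at hx; linarith
      exact Or.inr (Or.inl ⟨e3, e4, fun _ => rfl⟩)
    · -- 0, 4
      simp only [qx, qy] at hx hy
      have e1 : s * tau K i = 0 := by nlinarith
      have e3 : s = 0 := hb _ _ h0 t0 e1
      have e4 : s' = 0 := hb _ _ h0' hρ (by nlinarith)
      have e5 : p = 0 := eq_top hh (by omega) (by rw [e3, e4] at hy; linarith)
      exact Or.inr (Or.inl ⟨e3, e4, fun _ => by simp only [vA]; rw [e5]⟩)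
    · -- 0, 5
      simp only [qx, qy] at hx hy
      have e1 : s * tau K i = 0 := by nlinarith
      have e3 : s = 0 := hb _ _ h0 t0 e1
      have e4 : s' = 0 := hb _ _ h0' hρ (by nlinarith)
      have e5 : p = 3 * N + 1 := eq_bot hh (by omega) (by rw [e3, e4] at hy; linarith)
      omega
    · -- 0, 6
      simp only [qx, qy] at hx hy
      have := key6 (3 / 2) (by nlinarith)
      exfalso; linarith
  · -- k = 1
    obtain ⟨hp⟩ : Nonempty (p < 3 * N + 1) := ⟨by omega⟩
    have g := hh.gap p hp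
    have hpt := le_top hh (p := p) (by omega)
    have sg0 : 0 ≤ s * ((h p - h (p + 1)) / 2) := mul_nonneg h0 (by linarith)
    have sg1 : s * ((h p - h (p + 1)) / 2) ≤ (h p - h (p + 1)) / 2 := by nlinarith
    obtain rfl | rfl | rfl | rfl | rfl | rfl : k' = 1 ∨ k' = 2 ∨ k' = 3 ∨ k' = 4 ∨
      k' = 5 ∨ k' = 6 := by omega
    · -- 1, 1
      obtain ⟨hp'⟩ : Nonempty (p' < 3 * N + 1) := ⟨by omega⟩
      have g' := hh.gap p' hp'
      have sg0' : 0 ≤ s' * ((h p' - h (p' + 1)) / 2) := mul_nonneg h0' (by linarith)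
      have sg1' : s' * ((h p' - h (p' + 1)) / 2) ≤ (h p' - h (p' + 1)) / 2 := by nlinarith
      simp only [qx, qy] at hx hy
      rcases lt_trichotomy p p' with c | c | c
      · have := gap' hh (show p + 1 ≤ p' by omega) (by omega)
        exfalso; linarith
      · subst c
        have e : s = s' := by
          have e1 : s * ((h p - h (p + 1)) / 2) = s' * ((h p - h (p + 1)) / 2) := by linarith
          exact mul_right_cancel₀ (by linarith : ((h p - h (p + 1)) / 2) ≠ 0) e1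
        subst e
        rcases eq_or_lt_of_le h0 with e | e
        · exact Or.inr (Or.inl ⟨e.symm, e.symm, fun _ => rfl⟩)
        · exact Or.inl ⟨rfl, rfl, tau_inj (mul_left_cancel₀ e.ne' (by linarith))⟩
      · have := gap' hh (show p' + 1 ≤ p by omega) (by omega)
        exfalso; linarith
    · simp only [qx] at hx
      exfalso; linarith
    · -- 1, 3
      obtain ⟨hp'⟩ : Nonempty (p' < 3 * N + 2) := ⟨by omega⟩
      simp only [qx, qy] at hx hy
      have h3 : p + 1 = p' := near hh (by omega) (by omega) (by linarith) (by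
        rcases lt_trichotomy p' (p + 1) with c | c | c
        · have := gap' hh (show p' ≤ p by omega) (by omega)
          linarith
        · subst c; linarith
        · have := gap hh c (by omega)
          linarith)
      subst h3
      have e1 : s * ((h p - h (p + 1)) / 2) = s' * tau K i' := by linarith
      have e2 : s * 2 ≤ s * ((h p - h (p + 1)) / 2) := mul_le_mul_of_nonneg_left (by linarith) h0
      have e3 : s = 0 := by nlinarith
      have e4 : s' = 0 := by rw [e3] at hx; linarith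
      exact Or.inr (Or.inl ⟨e3, e4, fun _ => rfl⟩)
    · -- 1, 4
      simp only [qx, qy] at hx hy
      have e1 : s * tau K i = 0 := by nlinarith
      have e3 : s = 0 := hb _ _ h0 t0 e1
      have e4 : s' = 0 := hb _ _ h0' hρ (by nlinarith)
      have e5 : p + 1 = 0 := eq_top hh (by omega) (by rw [e3, e4] at hy; linarith)
      omega
    · -- 1, 5
      simp only [qx, qy] at hx hy
      have e1 : s * tau K i = 0 := by nlinarith
      have e3 : s = 0 := hb _ _ h0 t0 e1
      have e4 : s' = 0 := hb _ _ h0' hρ (by nlinarith)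
      have e5 : p + 1 = 3 * N + 1 := eq_bot hh (by omega) (by rw [e3, e4] at hy; linarith)
      exact Or.inr (Or.inl ⟨e3, e4, fun _ => by simp only [vA]; rw [e5]⟩)
    · -- 1, 6
      simp only [qx, qy] at hx hy
      have := key6 (3 / 2) (by nlinarith)
      exfalso; linarith
  · -- k = 2
    obtain ⟨hp⟩ : Nonempty (p < 3 * N + 2) := ⟨by omega⟩
    have hpt := le_top hh (p := p) (by omega)
    obtain rfl | rfl | rfl | rfl | rfl : k' = 2 ∨ k' = 3 ∨ k' = 4 ∨ k' = 5 ∨ k' = 6 := by omega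
    · -- 2, 2
      obtain ⟨hp'⟩ : Nonempty (p' < 3 * N + 2) := ⟨by omega⟩
      simp only [qx, qy] at hx hy
      have e : s = s' := by linarith
      subst e
      rcases eq_or_lt_of_le h0 with e | e
      · exact Or.inr (Or.inl ⟨e.symm, e.symm, fun _ => rfl⟩)
      · have e1 := mul_left_cancel₀ e.ne' hy
        have h3 : p = p' := near hh (by omega) (by omega) (by linarith) (by linarith)
        subst h3
        exact Or.inl ⟨rfl, rfl, tau_inj (by linarith)⟩
    · -- 2, 3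
      obtain ⟨hp'⟩ : Nonempty (p' < 3 * N + 2) := ⟨by omega⟩
      simp only [qx, qy] at hx hy
      have e1 : s = 1 := by linarith
      have e2 : s' = 1 := by linarith
      subst e1
      subst e2
      have h3 : p = p' := near hh (by omega) (by omega) (by linarith) (by linarith)
      subst h3
      have : i = i' := tau_inj (by linarith)
      subst this
      exact Or.inr (Or.inr ⟨rfl, rfl, fun _ => rfl⟩)
    · simp only [qx] at hx
      exfalso; nlinarith
    · simp only [qx] at hx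
      exfalso; nlinarith
    · -- 2, 6
      simp only [qx, qy] at hx hy
      have e1 : s = s' * (ρ + 2) := by linarith
      have e2 : s' * ((ρ + 2) * ((H + K + 2) - (h p + tau K i)) + i') = 0 := by
        rw [e1] at hy; nlinarith
      have e3 : 0 < (ρ + 2) * ((H + K + 2) - (h p + tau K i)) + (i' : ℝ) := by
        have : 0 < (ρ + 2) * ((H + K + 2) - (h p + tau K i)) := by
          apply mul_pos <;> linarith
        linarith
      have e4 : s' = 0 := hb _ _ h0' e3 e2
      have e5 : s = 0 := by rw [e1, e4]; ring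
      exact Or.inr (Or.inl ⟨e5, e4, fun _ => rfl⟩)
  · -- k = 3
    obtain ⟨hp⟩ : Nonempty (p < 3 * N + 2) := ⟨by omega⟩
    have hpt := le_top hh (p := p) (by omega)
    obtain rfl | rfl | rfl | rfl : k' = 3 ∨ k' = 4 ∨ k' = 5 ∨ k' = 6 := by omega
    · -- 3, 3
      obtain ⟨hp'⟩ : Nonempty (p' < 3 * N + 2) := ⟨by omega⟩
      simp only [qx, qy] at hx hy
      have e : s = s' := by linarith
      subst e
      have h3 : p = p' := near hh (by omega) (by omega) (by linarith) (by linarith)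
      subst h3
      rcases eq_or_lt_of_le h0 with e | e
      · exact Or.inr (Or.inl ⟨e.symm, e.symm, fun _ => rfl⟩)
      · exact Or.inl ⟨rfl, rfl, tau_inj (mul_left_cancel₀ e.ne' (by linarith))⟩
    · -- 3, 4
      simp only [qx, qy] at hx hy
      have e3 : s = 0 := by nlinarith
      have e4 : s' = 0 := hb _ _ h0' hρ (by nlinarith)
      have e5 : p = 0 := eq_top hh (by omega) (by rw [e3, e4] at hy; linarith)
      exact Or.inr (Or.inl ⟨e3, e4, fun _ => by simp only [vA]; rw [e5]⟩)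
    · -- 3, 5
      simp only [qx, qy] at hx hy
      have e3 : s = 0 := by nlinarith
      have e4 : s' = 0 := hb _ _ h0' hρ (by nlinarith)
      have e5 : p = 3 * N + 1 := eq_bot hh (by omega) (by rw [e3, e4] at hy; linarith)
      exact Or.inr (Or.inl ⟨e3, e4, fun _ => by simp only [vA]; rw [e5]⟩)
    · -- 3, 6
      simp only [qx, qy] at hx hy
      have := key6 1 (by nlinarith)
      exfalso; linarith
  · -- k = 4
    obtain rfl : p = 0 := by omega
    obtain rfl | rfl | rfl : k' = 4 ∨ k' = 5 ∨ k' = 6 := by omega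
    · obtain rfl : p' = 0 := by omega
      simp only [qx, qy] at hx hy
      have e : s = s' := by
        have := mul_left_cancel₀ hρ.ne' hx
        linarith
      subst e
      rcases eq_or_lt_of_le h0 with e | e
      · exact Or.inr (Or.inl ⟨e.symm, e.symm, fun _ => rfl⟩)
      · have e1 : s * (1 + (i : ℝ)) = s * (1 + (i' : ℝ)) := by linarith
        have e2 := mul_left_cancel₀ e.ne' e1
        exact Or.inl ⟨rfl, rfl, by exact_mod_cast (by linarith : (i : ℝ) = i')⟩
    · simp only [qx, qy] at hx hy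
      exfalso; linarith
    · simp only [qx, qy] at hx hy
      have := key6 2 (by nlinarith)
      have : s * (1 + (i : ℝ)) ≤ K := by nlinarith
      exfalso; linarith
  · -- k = 5
    obtain rfl : p = 0 := by omega
    obtain rfl | rfl : k' = 5 ∨ k' = 6 := by omega
    · obtain rfl : p' = 0 := by omega
      simp only [qx, qy] at hx hy
      have e : s = s' := by
        have := mul_left_cancel₀ hρ.ne' hx
        linarith
      subst e
      rcases eq_or_lt_of_le h0 with e | e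
      · exact Or.inr (Or.inl ⟨e.symm, e.symm, fun _ => rfl⟩)
      · have e1 : s * (1 + (i : ℝ)) = s * (1 + (i' : ℝ)) := by linarith
        have e2 := mul_left_cancel₀ e.ne' e1
        exact Or.inl ⟨rfl, rfl, by exact_mod_cast (by linarith : (i : ℝ) = i')⟩
    · simp only [qx, qy] at hx hy
      have e1 : 0 ≤ s' * ((ρ + 2) * (H + K + 2) + i') := by
        have := key6 0 (by positivity)
        linarith
      exfalso; linarith
  · -- k = 6
    obtain rfl : p = 0 := by omega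
    obtain rfl : k' = 6 := by omega
    obtain rfl : p' = 0 := by omega
    simp only [qx, qy] at hx hy
    have e : s = s' := by
      have := mul_left_cancel₀ (by linarith : ρ + 2 ≠ 0) hx
      linarith
    subst e
    rcases eq_or_lt_of_le h0 with e | e
    · exact Or.inr (Or.inl ⟨e.symm, e.symm, fun _ => rfl⟩)
    · have e2 := mul_left_cancel₀ e.ne' hy
      exact Or.inl ⟨rfl, rfl, by exact_mod_cast (by linarith : (i : ℝ) = i')⟩

/-- sign of a side -/
def sg (σ : ℕ) : ℝ := if σ = 0 then -1 else 1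

theorem opos_vA (hh : ColOk N H h) (hh' : ColOk N H h') {σ k p i : ℕ} (hσ : σ ≤ 1)
    (ha : Adm N K k p i) :
    opos ρ H h h' S K (vA N σ k p) =
      (sg σ * qx ρ K k i 0, qy ρ H (if σ = 0 then h else h') K k p i 0) := by
  obtain ⟨hi, ha⟩ := ha
  obtain rfl | rfl | rfl | rfl | rfl | rfl | rfl : k = 0 ∨ k = 1 ∨ k = 2 ∨ k = 3 ∨ k = 4 ∨ k = 5 ∨
      k = 6 := by omega
  all_goals
    obtain rfl | rfl : σ = 0 ∨ σ = 1 := by omega
    all_goals simp [vA, opos, qx, qy, sg, hh.top, hh'.top, hh.bot, hh'.bot]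

theorem opos_vB {σ k p i : ℕ} (hσ : σ ≤ 1) (ha : Adm N K k p i) :
    opos ρ H h h' S K (vB σ k p i) =
      (sg σ * qx ρ K k i 1, qy ρ H (if σ = 0 then h else h') K k p i 1) := by
  obtain ⟨hi, ha⟩ := ha
  obtain rfl | rfl | rfl | rfl | rfl | rfl | rfl : k = 0 ∨ k = 1 ∨ k = 2 ∨ k = 3 ∨ k = 4 ∨ k = 5 ∨
      k = 6 := by omega
  all_goals
    obtain rfl | rfl : σ = 0 ∨ σ = 1 := by omega
    all_goals simp [vB, opos, qx, qy, sg] <;> ring

theorem rep {d : Vx × Vx} (hd : d ∈ outEdges N K) :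
    ∃ σ k p i, σ ≤ 1 ∧ Adm N K k p i ∧ d = mk N σ k p i := by
  obtain ⟨q, hq, i, hi, hdq⟩ := Out2.mem_outEdges.1 hd
  rcases Gr.mem_conns.1 hq with ⟨p, hp, rfl⟩ | ⟨p, hp, rfl⟩ | ⟨p, hp, rfl⟩ | ⟨p, hp, rfl⟩ |
    rfl | rfl | rfl <;> rcases hdq with rfl | rfl
  · exact ⟨0, 0, p, i, by omega, ⟨hi, by omega⟩, by simp [mk, vA, vB, lv]⟩
  · exact ⟨0, 1, p, i, by omega, ⟨hi, by omega⟩, by simp [mk, vA, vB, lv]⟩
  · exact ⟨1, 0, p, i, by omega, ⟨hi, by omega⟩, by simp [mk, vA, vB, rv]⟩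
  · exact ⟨1, 1, p, i, by omega, ⟨hi, by omega⟩, by simp [mk, vA, vB, rv]⟩
  · exact ⟨0, 2, p, i, by omega, ⟨hi, by omega⟩, by simp [mk, vA, vB, hub]⟩
  · exact ⟨0, 3, p, i, by omega, ⟨hi, by omega⟩, by simp [mk, vA, vB, lv]⟩
  · exact ⟨1, 2, p, i, by omega, ⟨hi, by omega⟩, by simp [mk, vA, vB, hub]⟩
  · exact ⟨1, 3, p, i, by omega, ⟨hi, by omega⟩, by simp [mk, vA, vB, rv]⟩
  · exact ⟨0, 4, 0, i, by omega, ⟨hi, by omega⟩, by simp [mk, vA, vB, lv]⟩
  · exact ⟨1, 4, 0, i, by omega, ⟨hi, by omega⟩, by simp [mk, vA, vB, rv]⟩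
  · exact ⟨0, 5, 0, i, by omega, ⟨hi, by omega⟩, by simp [mk, vA, vB, lv]⟩
  · exact ⟨1, 5, 0, i, by omega, ⟨hi, by omega⟩, by simp [mk, vA, vB, rv]⟩
  · exact ⟨0, 6, 0, i, by omega, ⟨hi, by omega⟩, by simp [mk, vA, vB, hub]⟩
  · exact ⟨1, 6, 0, i, by omega, ⟨hi, by omega⟩, by simp [mk, vA, vB, hub]⟩

theorem mk_ends (N σ k p i : ℕ) {v : Vx} : (v = (mk N σ k p i).1 ∨ v = (mk N σ k p i).2) ↔
    (v = vA N σ k p ∨ v = vB σ k p i) := by
  unfold mk
  split_ifs
  · exact or_comm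
  · exact Iff.rfl

theorem qx_aff (ρ : ℝ) (K : ℕ) {k i : ℕ} {s : ℝ} (hk : k ≤ 6) :
    qx ρ K k i s = qx ρ K k i 0 + s * (qx ρ K k i 1 - qx ρ K k i 0) := by
  obtain rfl | rfl | rfl | rfl | rfl | rfl | rfl : k = 0 ∨ k = 1 ∨ k = 2 ∨ k = 3 ∨ k = 4 ∨ k = 5 ∨
      k = 6 := by omega
  all_goals simp only [qx]; ring

theorem qy_aff (ρ H : ℝ) (g : ℕ → ℝ) (K : ℕ) {k p i : ℕ} {s : ℝ} (hk : k ≤ 6) :
    qy ρ H g K k p i s = qy ρ H g K k p i 0 + s * (qy ρ H g K k p i 1 - qy ρ H g K k p i 0) := by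
  obtain rfl | rfl | rfl | rfl | rfl | rfl | rfl : k = 0 ∨ k = 1 ∨ k = 2 ∨ k = 3 ∨ k = 4 ∨ k = 5 ∨
      k = 6 := by omega
  all_goals simp only [qy]; ring

theorem mk_seg (hh : ColOk N H h) (hh' : ColOk N H h') {σ k p i : ℕ} (hσ : σ ≤ 1)
    (ha : Adm N K k p i) {z : Plane}
    (hz : z ∈ segment ℝ (opos ρ H h h' S K (mk N σ k p i).1) (opos ρ H h h' S K (mk N σ k p i).2)) :
    ∃ s : ℝ, 0 ≤ s ∧ s ≤ 1 ∧ z.1 = sg σ * qx ρ K k i s ∧
      z.2 = qy ρ H (if σ = 0 then h else h') K k p i s := by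
  have hk : k ≤ 6 := by
    obtain ⟨_, ha⟩ := ha
    omega
  have hz' : z ∈ segment ℝ (opos ρ H h h' S K (vA N σ k p)) (opos ρ H h h' S K (vB σ k p i)) := by
    unfold mk at hz
    split_ifs at hz
    · rwa [segment_symm] at hz
    · exact hz
  rw [opos_vA hh hh' hσ ha, opos_vB hσ ha] at hz'
  obtain ⟨s, h0, h1, e1, e2⟩ := Out2.seg_mem hz'
  refine ⟨s, h0, h1, ?_, ?_⟩
  · rw [e1, qx_aff ρ K (i := i) (s := s) hk]
    ring
  · rw [e2, qy_aff ρ H (if σ = 0 then h else h') K (p := p) (i := i) (s := s) hk]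

theorem qx_nonneg (hρ : 0 < ρ) {k p i : ℕ} {s : ℝ} (ha : Adm N K k p i) (h0 : 0 ≤ s)
    (h1 : s ≤ 1) : 0 ≤ qx ρ K k i s ∧ (qx ρ K k i s = 0 → 4 ≤ k ∧ s = 1) := by
  obtain ⟨hi, ha⟩ := ha
  have t0 := Out2.tau_pos K i
  have st0 : 0 ≤ s * tau K i := mul_nonneg h0 t0.le
  obtain rfl | rfl | rfl | rfl | rfl | rfl | rfl : k = 0 ∨ k = 1 ∨ k = 2 ∨ k = 3 ∨ k = 4 ∨ k = 5 ∨
      k = 6 := by omega
  · exact ⟨by simp only [qx]; linarith, fun e => by simp only [qx] at e; exfalso; linarith⟩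
  · exact ⟨by simp only [qx]; linarith, fun e => by simp only [qx] at e; exfalso; linarith⟩
  · exact ⟨by simp only [qx]; linarith, fun e => by simp only [qx] at e; exfalso; linarith⟩
  · exact ⟨by simp only [qx]; linarith, fun e => by simp only [qx] at e; exfalso; linarith⟩
  · refine ⟨by simp only [qx]; exact mul_nonneg hρ.le (by linarith), fun e => ⟨by omega, ?_⟩⟩
    simp only [qx] at e
    rcases mul_eq_zero.1 e with e | e
    · exact absurd e hρ.ne'
    · linarith
  · refine ⟨by simp only [qx]; exact mul_nonneg hρ.le (by linarith), fun e => ⟨by omega, ?_⟩⟩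
    simp only [qx] at e
    rcases mul_eq_zero.1 e with e | e
    · exact absurd e hρ.ne'
    · linarith
  · refine ⟨by simp only [qx]; exact mul_nonneg (by linarith) (by linarith),
      fun e => ⟨by omega, ?_⟩⟩
    simp only [qx] at e
    rcases mul_eq_zero.1 e with e | e
    · linarith
    · linarith

theorem mid_eq (hρ : 0 < ρ) (hH : 0 < H) {g g' : ℕ → ℝ} {σ σ' k p i k' p' i' : ℕ}
    (ha : Adm N K k p i) (ha' : Adm N K k' p' i') (hk : 4 ≤ k) (hk' : 4 ≤ k')
    (hy : qy ρ H g K k p i 1 = qy ρ H g' K k' p' i' 1) : vB σ k p i = vB σ' k' p' i' := by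
  obtain ⟨hi, ha⟩ := ha
  obtain ⟨hi', ha'⟩ := ha'
  have hK0 : (0 : ℝ) ≤ K := Nat.cast_nonneg K
  have hi0 : (0 : ℝ) ≤ i := Nat.cast_nonneg i
  have hi0' : (0 : ℝ) ≤ i' := Nat.cast_nonneg i'
  have hiK : (i : ℝ) + 1 ≤ K := by exact_mod_cast hi
  have hiK' : (i' : ℝ) + 1 ≤ K := by exact_mod_cast hi'
  have e1 : 0 ≤ ρ * (H + K + 2) := mul_nonneg hρ.le (by linarith)
  obtain rfl | rfl | rfl : k = 4 ∨ k = 5 ∨ k = 6 := by omega
  all_goals
    obtain rfl | rfl | rfl : k' = 4 ∨ k' = 5 ∨ k' = 6 := by omega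
    all_goals
      simp only [qy, vB] at hy ⊢
      first
        | (exfalso; nlinarith)
        | (have : i = i' := by exact_mod_cast (by linarith : (i : ℝ) = i')
           rw [this])

end Out1

open Out1

theorem out_inter {N K : ℕ} {ρ H : ℝ} {h h' : ℕ → ℝ} {S : ℕ → Plane}
    (hρ : 0 < ρ) (hH : 0 < H) (hh : ColOk N H h) (hh' : ColOk N H h')
    {d d' : Vx × Vx} (hd : d ∈ outEdges N K) (hd' : d' ∈ outEdges N K) (hne : d ≠ d') {z : Plane}
    (hz : z ∈ segment ℝ (opos ρ H h h' S K d.1) (opos ρ H h h' S K d.2))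
    (hz' : z ∈ segment ℝ (opos ρ H h h' S K d'.1) (opos ρ H h h' S K d'.2)) :
    CommonEnd (opos ρ H h h' S K) d d' z := by
  obtain ⟨σ, k, p, i, hσ, ha, rfl⟩ := rep hd
  obtain ⟨σ', k', p', i', hσ', ha', rfl⟩ := rep hd'
  obtain ⟨s, h0, h1, x1, y1⟩ := mk_seg hh hh' hσ ha hz
  obtain ⟨s', h0', h1', x1', y1'⟩ := mk_seg hh hh' hσ' ha' hz'
  have fin : ∀ v, (v = vA N σ k p ∨ v = vB σ k p i) → (v = vA N σ' k' p' ∨ v = vB σ' k' p' i') →
      z = opos ρ H h h' S K v →
      CommonEnd (opos ρ H h h' S K) (mk N σ k p i) (mk N σ' k' p' i') z :=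
    fun v e1 e2 e3 => ⟨v, (mk_ends _ _ _ _ _).2 e1, (mk_ends _ _ _ _ _).2 e2, e3⟩
  by_cases hs : σ = σ'
  · subst hs
    have hcol : ColOk N H (if σ = 0 then h else h') := by split_ifs <;> assumption
    have hsg : sg σ ≠ 0 := by unfold sg; split_ifs <;> norm_num
    have hx : qx ρ K k i s = qx ρ K k' i' s' := mul_left_cancel₀ hsg (by rw [← x1, ← x1'])
    have hy := y1.symm.trans y1'
    have hc : Concl N k p i k' p' i' s s' := by
      rcases le_total k k' with hkk | hkk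
      · exact same_side hρ hH hcol hkk ha ha' h0 h1 h0' h1' hx hy
      · rcases same_side hρ hH hcol hkk ha' ha h0' h1' h0 h1 hx.symm hy.symm with
          ⟨e1, e2, e3⟩ | ⟨e1, e2, e3⟩ | ⟨e1, e2, e3⟩
        · exact Or.inl ⟨e1.symm, e2.symm, e3.symm⟩
        · exact Or.inr (Or.inl ⟨e2, e1, fun τ => (e3 τ).symm⟩)
        · exact Or.inr (Or.inr ⟨e2, e1, fun τ => (e3 τ).symm⟩)
    rcases hc with ⟨rfl, rfl, rfl⟩ | ⟨rfl, rfl, e3⟩ | ⟨rfl, rfl, e3⟩
    · exact absurd rfl hne
    · refine fin (vA N σ k p) (Or.inl rfl) (Or.inl (e3 σ)) ?_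
      rw [opos_vA hh hh' hσ ha]
      exact Prod.ext x1 y1
    · refine fin (vB σ k p i) (Or.inr rfl) (Or.inr (e3 σ)) ?_
      rw [opos_vB hσ ha]
      exact Prod.ext x1 y1
  · have q1 := qx_nonneg hρ ha h0 h1
    have q2 := qx_nonneg hρ ha' h0' h1'
    have hx0 : qx ρ K k i s = 0 ∧ qx ρ K k' i' s' = 0 := by
      have e := x1.symm.trans x1'
      unfold sg at e
      split_ifs at e with c1 c2 c2
      · omega
      · constructor <;> linarith [q1.1, q2.1]
      · constructor <;> linarith [q1.1, q2.1]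
      · omega
    obtain ⟨hk, rfl⟩ := q1.2 hx0.1
    obtain ⟨hk', rfl⟩ := q2.2 hx0.2
    refine fin (vB σ k p i) (Or.inr rfl)
      (Or.inr (mid_eq hρ hH ha ha' hk hk' (y1.symm.trans y1'))) ?_
    rw [opos_vB hσ ha]
    exact Prod.ext x1 y1

end Pool.Agent.CRt
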