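import Pool.Agent.CRt.Basic

/-!
# Combinatorial facts on the graph
-/

set_option autoImplicit false

namespace Pool.Agent.CRt

open Set

variable {N : ℕ} {T : List STriple}

/-! ### Curves -/

theorem mem_starC {t : ℕ} {c : STriple} {x : Cv} : x ∈ starC t c ↔
    x = (c.1, t + 1, 0, if c.2.2.2 then 0 else 2) ∨
    x = (c.2.1, t + 1, 1, if c.2.2.2 then 2 else 0) ∨
    x = (c.2.2.1, t + 1, 2, if c.2.2.2 then 0 else 2) := by
  simp [starC]

theorem mem_curves {x : Cv} : x ∈ curves N T ↔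
    (∃ e < N, x = chordC e) ∨ ∃ t < T.length, x ∈ starC t (T.getD t dflt) := by
  simp only [curves, starCurves, List.mem_append, List.mem_map, List.mem_range, List.mem_flatMap]
  constructor
  · rintro (⟨e, he, rfl⟩ | h)
    · exact Or.inl ⟨e, he, rfl⟩
    · exact Or.inr h
  · rintro (⟨e, he, rfl⟩ | h)
    · exact Or.inl ⟨e, he, rfl⟩
    · exact Or.inr h

theorem getD_mem {t : ℕ} (ht : t < T.length) : T.getD t dflt ∈ T := by
  rw [List.getD_eq_getElem _ _ ht]
  exact List.getElem_mem ht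

theorem curve_line (hT : SValid N T) {x : Cv} (hx : x ∈ curves N T) : x.1 < N := by
  rcases mem_curves.1 hx with ⟨e, he, rfl⟩ | ⟨t, ht, h⟩
  · exact he
  · have h1 := hT _ (getD_mem ht)
    rcases mem_starC.1 h with rfl | rfl | rfl <;> simp only <;> omega

theorem curve_off {x : Cv} (hx : x ∈ curves N T) : x.2.2.2 ≤ 2 := by
  rcases mem_curves.1 hx with ⟨e, he, rfl⟩ | ⟨t, ht, h⟩
  · simp [chordC]
  · rcases mem_starC.1 h with rfl | rfl | rfl <;> simp only <;> split_ifs <;> omega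

theorem curve_star_le {x : Cv} (hx : x ∈ curves N T) : x.2.1 ≤ T.length := by
  rcases mem_curves.1 hx with ⟨e, he, rfl⟩ | ⟨t, ht, h⟩
  · simp [chordC]
  · rcases mem_starC.1 h with rfl | rfl | rfl <;> simp only <;> omega

theorem curve_zero {x : Cv} (hx : x ∈ curves N T) (h0 : x.2.1 = 0) : x = chordC x.1 := by
  rcases mem_curves.1 hx with ⟨e, he, rfl⟩ | ⟨t, ht, h⟩
  · rfl
  · rcases mem_starC.1 h with rfl | rfl | rfl <;> simp at h0

/-- Curves of the same star on the same line are equal. -/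
theorem curve_ext (hT : SValid N T) {x y : Cv} (hx : x ∈ curves N T) (hy : y ∈ curves N T)
    (h1 : x.1 = y.1) (h2 : x.2.1 = y.2.1) : x = y := by
  rcases mem_curves.1 hx with ⟨e, he, rfl⟩ | ⟨t, ht, h⟩
  · rw [curve_zero hy h2.symm, ← h1]
    rfl
  · rcases mem_curves.1 hy with ⟨e', he', rfl⟩ | ⟨t', ht', h'⟩
    · rw [curve_zero hx h2, h1]
      rfl
    · have hv := hT _ (getD_mem ht)
      have htt : t = t' := by
        rcases mem_starC.1 h with rfl | rfl | rfl <;>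
          rcases mem_starC.1 h' with rfl | rfl | rfl <;> simp only at h2 <;> omega
      subst htt
      rcases mem_starC.1 h with rfl | rfl | rfl <;>
        rcases mem_starC.1 h' with rfl | rfl | rfl <;> simp only at h1 <;>
        first | rfl | (exfalso; omega)

theorem curves_nodup (hT : SValid N T) : (curves N T).Nodup := by
  unfold curves starCurves
  rw [List.nodup_append]
  refine ⟨?_, ?_, ?_⟩
  · refine List.Nodup.map ?_ List.nodup_range
    intro a b h
    exact congrArg (fun x : Cv => x.1) h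
  · rw [List.nodup_flatMap]
    refine ⟨?_, ?_⟩
    · intro t ht
      have hv := hT _ (getD_mem (List.mem_range.1 ht))
      simp only [starC, List.nodup_cons, List.mem_cons, List.not_mem_nil, or_false, not_or,
        Prod.mk.injEq, not_false_eq_true, List.nodup_nil, and_true, Prod.ext_iff]
      refine ⟨⟨?_, ?_⟩, ?_⟩ <;> omega
    · refine List.Pairwise.imp_of_mem (R := fun a b => a ≠ b) ?_ List.nodup_range
      intro a b _ _ hab
      rw [Function.onFun, List.disjoint_left]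
      intro x hx hx'
      rcases mem_starC.1 hx with rfl | rfl | rfl <;>
        rcases mem_starC.1 hx' with h | h | h <;>
        simp only [Prod.mk.injEq] at h <;> omega
  · intro x hx y hy hxy
    subst hxy
    simp only [List.mem_map, List.mem_range, List.mem_flatMap] at hx hy
    obtain ⟨e, _, rfl⟩ := hx
    obtain ⟨t, _, h⟩ := hy
    rcases mem_starC.1 h with h | h | h <;> simp [chordC] at h

theorem mem_forcedPairs {p : Cv × Cv} : p ∈ forcedPairs N T ↔
    p.1 ∈ curves N T ∧ p.2 ∈ curves N T ∧ Forced p.1 p.2 := by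
  obtain ⟨c, c'⟩ := p
  simp only [forcedPairs, List.mem_flatMap, List.mem_map, List.mem_filter, decide_eq_true_eq,
    Prod.mk.injEq]
  constructor
  · rintro ⟨a, ha, b, ⟨hb, hf⟩, rfl, rfl⟩
    exact ⟨ha, hb, hf⟩
  · rintro ⟨ha, hb, hf⟩
    exact ⟨c, ha, c', ⟨hb, hf⟩, rfl, rfl⟩

theorem forcedPairs_nodup (hT : SValid N T) : (forcedPairs N T).Nodup := by
  unfold forcedPairs
  rw [List.nodup_flatMap]
  refine ⟨?_, ?_⟩
  · intro c _
    refine List.Nodup.map ?_ ((curves_nodup hT).filter _)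
    intro a b h
    exact congrArg Prod.snd h
  · refine List.Pairwise.imp_of_mem (R := fun a b => a ≠ b) ?_ (curves_nodup hT)
    intro a b _ _ hab
    rw [Function.onFun, List.disjoint_left]
    intro x hx hx'
    simp only [List.mem_map] at hx hx'
    obtain ⟨u, _, rfl⟩ := hx
    obtain ⟨w, _, h⟩ := hx'
    exact hab (congrArg Prod.fst h).symm

/-! ### Edges of curves -/

theorem mem_curveEdges {c : Cv} {d : Vx × Vx} : d ∈ curveEdges N c ↔
    (c.2.1 = 0 ∧ d = (lend c, rend N c)) ∨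
    (c.2.1 ≠ 0 ∧ (d = (lend c, star (c.2.1 - 1)) ∨ d = (star (c.2.1 - 1), rend N c))) := by
  unfold curveEdges
  by_cases h : c.2.1 = 0 <;> simp [h]

theorem curveEdges_inj {c c' : Cv} (hT : SValid N T) (hc : c ∈ curves N T)
    (hc' : c' ∈ curves N T) {d : Vx × Vx} (hd : d ∈ curveEdges N c) (hd' : d ∈ curveEdges N c') :
    c = c' := by
  have o1 := curve_off hc
  have o2 := curve_off hc'
  have l1 := curve_line hT hc
  have l2 := curve_line hT hc'
  have key : c.1 = c'.1 ∧ c.2.1 = c'.2.1 := by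
    rcases mem_curveEdges.1 hd with ⟨h0, rfl⟩ | ⟨h0, rfl | rfl⟩ <;>
      rcases mem_curveEdges.1 hd' with ⟨h0', h⟩ | ⟨h0', h | h⟩ <;>
      simp only [lend, rend, lv, rv, star, Prod.mk.injEq] at h <;> omega
  exact curve_ext hT hc hc' key.1 key.2

/-- The edges of a forced pair of curves have no common endpoints. -/
theorem forced_no_common {c c' : Cv} (hT : SValid N T) (hc : c ∈ curves N T)
    (hc' : c' ∈ curves N T) (hf : Forced c c') {d d' : Vx × Vx} (hd : d ∈ curveEdges N c)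
    (hd' : d' ∈ curveEdges N c') {v : Vx} (hv : EndOf v d) (hv' : EndOf v d') : False := by
  have o1 := curve_off hc
  have o2 := curve_off hc'
  have l1 := curve_line hT hc
  have l2 := curve_line hT hc'
  obtain ⟨f1, f2⟩ := hf
  rcases mem_curveEdges.1 hd with ⟨h0, rfl⟩ | ⟨h0, rfl | rfl⟩ <;>
    rcases mem_curveEdges.1 hd' with ⟨h0', rfl⟩ | ⟨h0', rfl | rfl⟩ <;>
    rcases hv with rfl | rfl <;> rcases hv' with h | h <;>
    simp only [lend, rend, lv, rv, star, Prod.mk.injEq] at h <;> omega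

/-! ### Connections -/

theorem mem_conns {q : ℕ × ℕ × Vx × Vx} : q ∈ conns N ↔
    (∃ p < 3 * N + 1, q = (4, p, lv p, lv (p + 1))) ∨
    (∃ p < 3 * N + 1, q = (5, p, rv p, rv (p + 1))) ∨
    (∃ p < 3 * N + 2, q = (6, p, hub 0, lv p)) ∨
    (∃ p < 3 * N + 2, q = (7, p, hub 1, rv p)) ∨
    q = (8, 0, lv 0, rv 0) ∨ q = (9, 0, lv (3 * N + 1), rv (3 * N + 1)) ∨
    q = (10, 0, hub 0, hub 1) := by
  simp only [conns, List.mem_append, List.mem_map, List.mem_range, List.mem_cons,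
    List.not_mem_nil, or_false, or_assoc]
  constructor
  · rintro (⟨p, hp, rfl⟩ | ⟨p, hp, rfl⟩ | ⟨p, hp, rfl⟩ | ⟨p, hp, rfl⟩ | rfl | rfl | rfl)
    · exact Or.inl ⟨p, hp, rfl⟩
    · exact Or.inr (Or.inl ⟨p, hp, rfl⟩)
    · exact Or.inr (Or.inr (Or.inl ⟨p, hp, rfl⟩))
    · exact Or.inr (Or.inr (Or.inr (Or.inl ⟨p, hp, rfl⟩)))
    · simp
    · simp
    · simp
  · rintro (⟨p, hp, rfl⟩ | ⟨p, hp, rfl⟩ | ⟨p, hp, rfl⟩ | ⟨p, hp, rfl⟩ | rfl | rfl | rfl)
    · exact Or.inl ⟨p, hp, rfl⟩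
    · exact Or.inr (Or.inl ⟨p, hp, rfl⟩)
    · exact Or.inr (Or.inr (Or.inl ⟨p, hp, rfl⟩))
    · exact Or.inr (Or.inr (Or.inr (Or.inl ⟨p, hp, rfl⟩)))
    · simp
    · simp
    · simp

theorem conn_kind {q : ℕ × ℕ × Vx × Vx} (hq : q ∈ conns N) : 4 ≤ q.1 := by
  rcases mem_conns.1 hq with ⟨p, hp, rfl⟩ | ⟨p, hp, rfl⟩ | ⟨p, hp, rfl⟩ | ⟨p, hp, rfl⟩ | rfl |
    rfl | rfl <;> simp

theorem conn_ends {q : ℕ × ℕ × Vx × Vx} (hq : q ∈ conns N) :
    q.2.2.1.1 < 3 ∧ q.2.2.2.1 < 3 := by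
  rcases mem_conns.1 hq with ⟨p, hp, rfl⟩ | ⟨p, hp, rfl⟩ | ⟨p, hp, rfl⟩ | ⟨p, hp, rfl⟩ | rfl |
    rfl | rfl <;> simp [lv, rv, hub]

theorem conn_ext {q q' : ℕ × ℕ × Vx × Vx} (hq : q ∈ conns N) (hq' : q' ∈ conns N)
    (h1 : q.1 = q'.1) (h2 : q.2.1 = q'.2.1) : q = q' := by
  rcases mem_conns.1 hq with ⟨p, hp, rfl⟩ | ⟨p, hp, rfl⟩ | ⟨p, hp, rfl⟩ | ⟨p, hp, rfl⟩ | rfl |
    rfl | rfl <;>
  rcases mem_conns.1 hq' with ⟨p', hp', rfl⟩ | ⟨p', hp', rfl⟩ | ⟨p', hp', rfl⟩ |
    ⟨p', hp', rfl⟩ | rfl | rfl | rfl <;> simp only at h1 h2 <;>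
  first | (exfalso; omega) | (subst h2; rfl) | rfl

theorem mem_connEdges {q : ℕ × ℕ × Vx × Vx} {i : ℕ} {d : Vx × Vx} : d ∈ connEdges q i ↔
    d = (q.2.2.1, (q.1, q.2.1, i)) ∨ d = ((q.1, q.2.1, i), q.2.2.2) := by
  simp [connEdges]

theorem mem_gEdges {d : Vx × Vx} : d ∈ gEdges N T ↔
    (∃ c ∈ curves N T, d ∈ curveEdges N c) ∨
    ∃ q ∈ conns N, ∃ i < KK N T, d ∈ connEdges q i := by
  simp only [gEdges, List.mem_append, List.mem_flatMap, List.mem_range]

theorem curveEdges_tag {c : Cv} {d : Vx × Vx} (hd : d ∈ curveEdges N c) :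
    d.1.1 < 4 ∧ d.2.1 < 4 := by
  rcases mem_curveEdges.1 hd with ⟨h0, rfl⟩ | ⟨h0, rfl | rfl⟩ <;>
    simp [lend, rend, lv, rv, star]

theorem connEdges_not_curve {q : ℕ × ℕ × Vx × Vx} (hq : q ∈ conns N) {i : ℕ} {d : Vx × Vx}
    (hd : d ∈ connEdges q i) {c : Cv} : d ∉ curveEdges N c := by
  intro h
  have h1 := curveEdges_tag h
  have h2 := conn_kind hq
  rcases mem_connEdges.1 hd with rfl | rfl <;> simp only at h1 <;> omega

theorem connEdges_inj {q q' : ℕ × ℕ × Vx × Vx} (hq : q ∈ conns N) (hq' : q' ∈ conns N)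
    {i i' : ℕ} {d : Vx × Vx} (hd : d ∈ connEdges q i) (hd' : d ∈ connEdges q' i') :
    q = q' ∧ i = i' := by
  have e1 := conn_ends hq
  have e2 := conn_ends hq'
  have k1 := conn_kind hq
  have k2 := conn_kind hq'
  have key : q.1 = q'.1 ∧ q.2.1 = q'.2.1 ∧ i = i' := by
    rcases mem_connEdges.1 hd with rfl | rfl <;> rcases mem_connEdges.1 hd' with h | h
    · have := congrArg Prod.snd h
      simp only [Prod.mk.injEq] at this
      exact this
    · have := congrArg (fun x : Vx × Vx => x.1.1) h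
      simp only at this
      omega
    · have := congrArg (fun x : Vx × Vx => x.1.1) h
      simp only at this
      omega
    · have := congrArg Prod.fst h
      simp only [Prod.mk.injEq] at this
      exact this
  exact ⟨conn_ext hq hq' key.1 key.2.1, key.2.2⟩

end Pool.Agent.CRt
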