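import Pool.Agent.CRt.DrawPrep
import Pool.Agent.CRt.DrawInner
import Pool.Agent.CRt.DrawOuter
import Pool.Agent.CRt.DrawOuter2
import Pool.Agent.CRt.DrawGen
import Pool.Agent.CRt.GraphLem

/-!
# The drawing of the graph
-/

set_option autoImplicit false
set_option maxHeartbeats 4000000

namespace Pool.Agent.CRt

open Set Filter

variable {N : ℕ} {T : List STriple}

/-! ### The columns -/

/-- Heights of the vertices of a column. -/
noncomputable def colH (N : ℕ) (C H : ℝ) (G : ℕ → ℝ) (p : ℕ) : ℝ :=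
  if p = 0 then H else if p = 3 * N + 1 then -H else
    G ((p - 1) / 3) + C * (1 - (((p - 1) % 3 : ℕ) : ℝ))

theorem colH_val {C H : ℝ} {G : ℕ → ℝ} {l o : ℕ} (hl : l < N) (ho : o ≤ 2) :
    colH N C H G (3 * l + o + 1) = G l + C * (1 - (o : ℝ)) := by
  unfold colH
  rw [if_neg (by omega), if_neg (by omega)]
  have h1 : (3 * l + o + 1 - 1) / 3 = l := by omega
  have h2 : (3 * l + o + 1 - 1) % 3 = o := by omega
  rw [h1, h2]

theorem colH_ok {C H : ℝ} {G : ℕ → ℝ} (hN : 0 < N) (hC : 4 ≤ C)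
    (hG : ∀ l, l + 1 < N → G (l + 1) + (2 * C + 4) ≤ G l) (hB : ∀ l < N, |G l| + C + 4 ≤ H) :
    ColOk N H (colH N C H G) := by
  refine ⟨by simp [colH], ?_, ?_⟩
  · unfold colH
    rw [if_neg (by omega), if_pos rfl]
  · intro p hp
    have hval : ∀ l < N, ∀ o ≤ 2, colH N C H G (3 * l + o + 1) = G l + C * (1 - (o : ℝ)) :=
      fun l hl o ho => colH_val hl ho
    rcases Nat.eq_zero_or_pos p with rfl | hp0
    · have h1 := hval 0 hN 0 (by norm_num)
      have h2 := hB 0 hN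
      have h3 := le_abs_self (G 0)
      norm_num at h1
      rw [h1]
      have : colH N C H G 0 = H := by simp [colH]
      rw [this]
      linarith
    · rcases Nat.lt_or_ge p (3 * N) with hp1 | hp1
      · set l := (p - 1) / 3 with hl
        have hlN : l < N := by omega
        have hr : (p - 1) % 3 < 3 := Nat.mod_lt _ (by norm_num)
        have hp' : p = 3 * l + (p - 1) % 3 + 1 := by omega
        interval_cases h : (p - 1) % 3
        · have e1 := hval l hlN 0 (by norm_num)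
          have e2 := hval l hlN 1 (by norm_num)
          rw [hp', e1, show 3 * l + 0 + 1 + 1 = 3 * l + 1 + 1 by ring, e2]
          push_cast
          linarith
        · have e1 := hval l hlN 1 (by norm_num)
          have e2 := hval l hlN 2 (by norm_num)
          rw [hp', e1, show 3 * l + 1 + 1 + 1 = 3 * l + 2 + 1 by ring, e2]
          push_cast
          linarith
        · have hl1 : l + 1 < N := by omega
          have e1 := hval l hlN 2 (by norm_num)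
          have e2 := hval (l + 1) hl1 0 (by norm_num)
          have e3 := hG l hl1
          rw [hp', e1, show 3 * l + 2 + 1 + 1 = 3 * (l + 1) + 0 + 1 by ring, e2]
          push_cast
          linarith
      · have hp2 : p = 3 * (N - 1) + 2 + 1 := by omega
        have h1 := hval (N - 1) (by omega) 2 (by norm_num)
        have h2 := hB (N - 1) (by omega)
        have h3 := neg_abs_le (G (N - 1))
        have h4 : colH N C H G (p + 1) = -H := by
          unfold colH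
          rw [if_neg (by omega), if_pos (by omega)]
        rw [h4, hp2, h1]
        push_cast
        linarith

theorem ColOk.anti {H : ℝ} {h : ℕ → ℝ} (hh : ColOk N H h) {p p' : ℕ} (hp : p < p')
    (hp' : p' ≤ 3 * N + 1) : h p' < h p := by
  induction p' with
  | zero => omega
  | succ k ih =>
    have h1 := hh.gap k (by omega)
    rcases Nat.lt_or_ge p k with h2 | h2
    · have := ih h2 (by omega)
      linarith
    · have : p = k := by omega
      subst this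
      linarith

theorem ColOk.inj {H : ℝ} {h : ℕ → ℝ} (hh : ColOk N H h) {p p' : ℕ} (hp : p ≤ 3 * N + 1)
    (hp' : p' ≤ 3 * N + 1) (e : h p = h p') : p = p' := by
  rcases lt_trichotomy p p' with h1 | h1 | h1
  · have := hh.anti h1 hp'
    linarith
  · exact h1
  · have := hh.anti h1 hp
    linarith

/-! ### Bounds -/

theorem list_bound {ι : Type} (L : List ι) (P : ι → ℝ → Prop)
    (hmono : ∀ i B B', P i B → B ≤ B' → P i B') (h : ∀ i ∈ L, ∃ B, P i B) :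
    ∃ B, ∀ i ∈ L, P i B := by
  induction L with
  | nil => exact ⟨0, by simp⟩
  | cons a L ih =>
    obtain ⟨B1, h1⟩ := h a (by simp)
    obtain ⟨B2, h2⟩ := ih fun i hi => h i (by simp [hi])
    refine ⟨max B1 B2, fun i hi => ?_⟩
    rcases List.mem_cons.1 hi with rfl | hi
    · exact hmono _ _ _ h1 (le_max_left _ _)
    · exact hmono _ _ _ (h2 i hi) (le_max_right _ _)

theorem F_bound (A : Prep N T) {ρ : ℝ} (hρ : 0 < ρ) (l : ℕ) :
    ∃ B, ∀ x ∈ Icc (-ρ) ρ, |A.F l x| ≤ B := by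
  refine ⟨|A.α l| + |A.m l| * ρ + |A.m' l| * ρ, fun x hx => ?_⟩
  have h1 : |min x 0| ≤ ρ := by
    rw [abs_le]
    exact ⟨le_min hx.1 (by linarith), (min_le_right _ _).trans hρ.le⟩
  have h2 : |max x 0| ≤ ρ := by
    rw [abs_le]
    exact ⟨(by linarith : -ρ ≤ 0).trans (le_max_right _ _), max_le hx.2 hρ.le⟩
  unfold Prep.F pl
  refine (abs_add_le _ _).trans ?_
  refine add_le_add ((abs_add_le _ _).trans ?_) ?_
  · rw [abs_mul]
    exact add_le_add le_rfl (mul_le_mul_of_nonneg_left h1 (abs_nonneg _))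
  · rw [abs_mul]
    exact mul_le_mul_of_nonneg_left h2 (abs_nonneg _)

theorem tent_bound {ρ a c h x : ℝ} (ha : |a| < ρ) (hx : x ∈ Icc (-ρ) ρ) :
    |tent ρ a c h x| ≤ |c| + |h - c| := by
  obtain ⟨a1, a2⟩ := abs_lt.1 ha
  have key : ∀ r : ℝ, 0 ≤ r → r ≤ 1 → |c + (h - c) * r| ≤ |c| + |h - c| := by
    intro r h0 h1
    refine (abs_add_le _ _).trans (add_le_add le_rfl ?_)
    rw [abs_mul, abs_of_nonneg h0]
    exact mul_le_of_le_one_right (abs_nonneg _) h1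
  unfold tent
  split_ifs with hxa
  · refine key _ (div_nonneg (by linarith [hx.1]) (by linarith)) ?_
    rw [div_le_one (by linarith)]
    linarith
  · refine key _ (div_nonneg (by linarith [hx.2]) (by linarith)) ?_
    rw [div_le_one (by linarith)]
    linarith

theorem phi_bound (A : Prep N T) {ρ C : ℝ} (hρ : 0 < ρ) (hs : ∀ t < T.length, |A.X t| < ρ)
    {c : Cv} (hc : c ∈ curves N T) : ∃ B, ∀ x ∈ Icc (-ρ) ρ, |A.phi ρ C c x| ≤ B := by
  obtain ⟨B, hB⟩ := F_bound A hρ c.1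
  unfold Prep.phi
  by_cases h0 : c.2.1 = 0
  · exact ⟨B, fun x hx => by rw [if_pos h0, add_zero]; exact hB x hx⟩
  · refine ⟨B + (|C * (1 - (c.2.2.2 : ℝ))| +
      |A.ht (c.2.1 - 1) c.1 - C * (1 - (c.2.2.2 : ℝ))|), fun x hx => ?_⟩
    rw [if_neg h0]
    have := curve_star_le hc
    exact (abs_add_le _ _).trans (add_le_add (hB x hx) (tent_bound (hs _ (by omega)) hx))

/-! ### The choice of the parameters -/

structure Setup (A : Prep N T) (ρ C H : ℝ) : Prop where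
  hN : 0 < N
  hT : SValid N T
  ρ0 : 0 < ρ
  H0 : 0 < H
  C4 : 4 ≤ C
  star : ∀ t < T.length, |A.X t| < ρ
  mono : ∀ c ∈ curves N T, ∀ c' ∈ curves N T, c.1 < c'.1 →
    StrictMonoOn (fun x => A.phi ρ C c' x - A.phi ρ C c x) (Icc (-ρ) ρ)
  same : ∀ c ∈ curves N T, ∀ c' ∈ curves N T, c ≠ c' → c.1 = c'.1 →
    ∀ x ∈ Ioo (-ρ) ρ, A.phi ρ C c x ≠ A.phi ρ C c' x
  avoid : ∀ c ∈ curves N T, ∀ t < T.length, c.2.1 ≠ t + 1 → A.phi ρ C c (A.X t) ≠ A.Y t
  zero : ∀ c ∈ curves N T, ∀ c' ∈ curves N T, c.1 ≠ c'.1 →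
    (c.2.1 = 0 ∨ c.2.1 ≠ c'.2.1) → A.phi ρ C c 0 ≠ A.phi ρ C c' 0
  cols : ∀ l l', l < l' → l' < N →
    A.F l' (-ρ) + (2 * C + 4) ≤ A.F l (-ρ) ∧ A.F l ρ + (2 * C + 4) ≤ A.F l' ρ
  bL : ∀ l < N, |A.F l (-ρ)| + C + 4 ≤ H
  bR : ∀ l < N, |A.F l ρ| + C + 4 ≤ H
  bd : ∀ c ∈ curves N T, ∀ x ∈ Icc (-ρ) ρ, |A.phi ρ C c x| < H

theorem exists_setup (hN : 0 < N) (hT : SValid N T) (A : Prep N T) :
    ∃ ρ C H, Setup A ρ C H := by
  obtain ⟨C₀, hC₀⟩ := list_bound (List.range T.length)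
    (fun t B => ∀ l < N, |A.ht t l| < B) (fun t B B' h hB l hl => (h l hl).trans_le hB) (by
      intro t _
      obtain ⟨B, hB⟩ := list_bound (List.range N) (fun l B => |A.ht t l| < B)
        (fun l B B' h hB => h.trans_le hB) (fun l _ => ⟨|A.ht t l| + 1, by linarith⟩)
      exact ⟨B, fun l hl => hB l (List.mem_range.2 hl)⟩)
  set C := max C₀ 4 with hC
  have hC1 : ∀ t < T.length, ∀ l < N, |A.ht t l| < C := fun t ht l hl =>
    (hC₀ t (List.mem_range.2 ht) l hl).trans_le (le_max_left _ _)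
  have hC4 : 4 ≤ C := le_max_right _ _
  obtain ⟨ρ, h1, h2, h3, h4, h5, h6, h7⟩ := ((A.ev_star hT).and ((A.ev_mono hT (C := C)).and
    ((A.ev_same hT hC1 (by linarith)).and ((A.ev_avoid hT (C := C)).and
    ((A.ev_zero hT (C := C)).and ((A.ev_cols (C := 2 * C + 4)).and
      (eventually_gt_atTop 0))))))).exists
  obtain ⟨H1, hH1⟩ := list_bound (List.range N)
    (fun l B => |A.F l (-ρ)| + C + 4 ≤ B ∧ |A.F l ρ| + C + 4 ≤ B)
    (fun l B B' h hB => ⟨h.1.trans hB, h.2.trans hB⟩)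
    (fun l _ => ⟨max (|A.F l (-ρ)| + C + 4) (|A.F l ρ| + C + 4), le_max_left _ _,
      le_max_right _ _⟩)
  obtain ⟨H2, hH2⟩ := list_bound (curves N T)
    (fun c B => ∀ x ∈ Icc (-ρ) ρ, |A.phi ρ C c x| < B)
    (fun l B B' h hB x hx => (h x hx).trans_le hB) (fun c hc => by
      obtain ⟨B, hB⟩ := phi_bound A (C := C) h7 h1 hc
      exact ⟨B + 1, fun x hx => (hB x hx).trans_lt (by linarith)⟩)
  refine ⟨ρ, C, max (max H1 H2) 1, hN, hT, h7, by positivity, hC4, h1, h2, h3, h4, h5, h6, ?_, ?_,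
    ?_⟩
  · intro l hl
    exact (hH1 l (List.mem_range.2 hl)).1.trans ((le_max_left _ _).trans (le_max_left _ _))
  · intro l hl
    exact (hH1 l (List.mem_range.2 hl)).2.trans ((le_max_left _ _).trans (le_max_left _ _))
  · intro c hc x hx
    exact (hH2 c hc x hx).trans_le ((le_max_right _ _).trans (le_max_left _ _))

/-! ### The positions of the vertices -/

/-- The positions of the vertices. -/
noncomputable def dpos (A : Prep N T) (ρ C H : ℝ) : Vx → Plane :=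
  opos ρ H (colH N C H fun l => A.F l (-ρ)) (colH N C H fun l => A.F (N - 1 - l) ρ)
    (fun t => (A.X t, A.Y t)) (KK N T)

section
variable {A : Prep N T} {ρ C H : ℝ}

theorem Setup.okL (S : Setup A ρ C H) : ColOk N H (colH N C H fun l => A.F l (-ρ)) :=
  colH_ok S.hN S.C4 (fun l hl => (S.cols l (l + 1) (by omega) hl).1) S.bL

theorem Setup.okR (S : Setup A ρ C H) : ColOk N H (colH N C H fun l => A.F (N - 1 - l) ρ) := by
  refine colH_ok S.hN S.C4 (fun l hl => ?_) fun l hl => S.bR _ (by omega)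
  exact (S.cols (N - 1 - (l + 1)) (N - 1 - l) (by omega) (by omega)).2

theorem pos_lv (p : ℕ) : dpos A ρ C H (lv p) = (-ρ, colH N C H (fun l => A.F l (-ρ)) p) := rfl

theorem pos_rv (p : ℕ) : dpos A ρ C H (rv p) = (ρ, colH N C H (fun l => A.F (N - 1 - l) ρ) p) :=
  rfl

theorem pos_lend (S : Setup A ρ C H) {c : Cv} (hc : c ∈ curves N T) :
    dpos A ρ C H (lend c) = (-ρ, A.phi ρ C c (-ρ)) := by
  unfold lend
  rw [pos_lv, colH_val (curve_line S.hT hc) (curve_off hc), A.phi_left S.star hc]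

theorem pos_rend (S : Setup A ρ C H) {c : Cv} (hc : c ∈ curves N T) :
    dpos A ρ C H (rend N c) = (ρ, A.phi ρ C c ρ) := by
  have h1 := curve_line S.hT hc
  unfold rend
  rw [pos_rv, colH_val (by omega) (curve_off hc), A.phi_right S.star hc]
  have : N - 1 - (N - 1 - c.1) = c.1 := by omega
  rw [this]

theorem pos_star (S : Setup A ρ C H) {c : Cv} (hc : c ∈ curves N T) (h0 : c.2.1 ≠ 0) :
    dpos A ρ C H (star (c.2.1 - 1)) = (A.X (c.2.1 - 1), A.phi ρ C c (A.X (c.2.1 - 1))) := by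
  rw [A.phi_star S.star hc h0]
  rfl

theorem lend_of_eq (S : Setup A ρ C H) {c : Cv} (hc : c ∈ curves N T) {p : ℕ}
    (hp : p ≤ 3 * N + 1) (h : dpos A ρ C H (lend c) = dpos A ρ C H (lv p)) : lend c = lv p := by
  have h1 := curve_line S.hT hc
  have h2 := curve_off hc
  unfold lend at h ⊢
  rw [pos_lv, pos_lv] at h
  have e : 3 * c.1 + c.2.2.2 + 1 = p := S.okL.inj (by omega) hp (congrArg Prod.snd h)
  rw [e]

theorem rend_of_eq (S : Setup A ρ C H) {c : Cv} (hc : c ∈ curves N T) {p : ℕ}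
    (hp : p ≤ 3 * N + 1) (h : dpos A ρ C H (rend N c) = dpos A ρ C H (rv p)) :
    rend N c = rv p := by
  have h1 := curve_line S.hT hc
  have h2 := curve_off hc
  unfold rend at h ⊢
  rw [pos_rv, pos_rv] at h
  have e : 3 * (N - 1 - c.1) + c.2.2.2 + 1 = p := S.okR.inj (by omega) hp (congrArg Prod.snd h)
  rw [e]

/-! ### The inner edges -/

/-- The curve `c` has no crossing with the abscissa `b`. -/
def Free (A : Prep N T) (ρ C : ℝ) (c : Cv) (b : ℝ) : Prop :=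
  ∀ c' ∈ curves N T, c.1 ≠ c'.1 → (c.2.1 = 0 ∨ c.2.1 ≠ c'.2.1) →
    A.phi ρ C c b ≠ A.phi ρ C c' b

/-- The abscissas of the ends of an edge of the curve `c`. -/
def Kind (A : Prep N T) (ρ : ℝ) (c : Cv) (g : GE) : Prop :=
  (c.2.1 = 0 ∧ g.e = (lend c, rend N c) ∧ g.p = -ρ ∧ g.q = ρ) ∨
  (c.2.1 ≠ 0 ∧ g.e = (lend c, Pool.Agent.CRt.star (c.2.1 - 1)) ∧ g.p = -ρ ∧
    g.q = A.X (c.2.1 - 1)) ∨
  (c.2.1 ≠ 0 ∧ g.e = (Pool.Agent.CRt.star (c.2.1 - 1), rend N c) ∧ g.p = A.X (c.2.1 - 1) ∧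
    g.q = ρ)

structure Inn (A : Prep N T) (ρ C H : ℝ) (c : Cv) (g : GE) : Prop where
  mem : c ∈ curves N T
  fn : g.φ = A.phi ρ C c
  ok : g.Ok (dpos A ρ C H)
  free : Free A ρ C c g.b
  kind : Kind A ρ c g

/-- The pair of curves has at most one common point. -/
theorem Setup.uniq (S : Setup A ρ C H) {c c' : Cv} (hc : c ∈ curves N T) (hc' : c' ∈ curves N T)
    (hne : c.1 ≠ c'.1) {x y : ℝ} (hx : x ∈ Icc (-ρ) ρ) (hy : y ∈ Icc (-ρ) ρ)
    (ex : A.phi ρ C c x = A.phi ρ C c' x) (ey : A.phi ρ C c y = A.phi ρ C c' y) : x = y := by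
  rcases lt_or_gt_of_ne hne with h | h
  · refine (S.mono c hc c' hc' h).injOn hx hy ?_
    show A.phi ρ C c' x - A.phi ρ C c x = A.phi ρ C c' y - A.phi ρ C c y
    rw [ex, ey, sub_self, sub_self]
  · refine (S.mono c' hc' c hc h).injOn hx hy ?_
    show A.phi ρ C c x - A.phi ρ C c' x = A.phi ρ C c y - A.phi ρ C c' y
    rw [ex, ey, sub_self, sub_self]

theorem Setup.exists_free (S : Setup A ρ C H) {c : Cv} (hc : c ∈ curves N T) {u v : ℝ}
    (huv : u < v) (hu : -ρ ≤ u) (hv : v ≤ ρ) : ∃ b ∈ Ioo u v, Free A ρ C c b := by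
  set B : Set ℝ := ⋃ c' ∈ {c' : Cv | c' ∈ curves N T},
    {x : ℝ | x ∈ Icc (-ρ) ρ ∧ c.1 ≠ c'.1 ∧ A.phi ρ C c x = A.phi ρ C c' x} with hB
  have hfin : B.Finite := by
    refine Set.Finite.biUnion (List.finite_toSet _) fun c' hc' => ?_
    refine Set.Subsingleton.finite ?_
    intro x hx y hy
    exact S.uniq hc hc' hx.2.1 hx.1 hy.1 hx.2.2 hy.2.2
  obtain ⟨b, hb1, hb2⟩ := ((Ioo_infinite huv).sdiff hfin).nonempty
  refine ⟨b, hb1, fun c' hc' hne _ he => hb2 ?_⟩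
  simp only [hB, mem_iUnion]
  exact ⟨c', hc', ⟨by linarith [hb1.1], by linarith [hb1.2]⟩, hne, he⟩

/-- Graphs over an interval without the star vertex in the interior. -/
theorem Setup.piece (S : Setup A ρ C H) {c : Cv} (hc : c ∈ curves N T) {u v : ℝ}
    (huv : u < v) (hu : -ρ ≤ u) (hv : v ≤ ρ) (hX : c.2.1 = 0 ∨ A.X (c.2.1 - 1) ∉ Ioo u v) :
    ∃ b, u < b ∧ b < v ∧ Free A ρ C c b ∧
      (∃ s t : ℝ, ∀ x ∈ Icc u b, A.phi ρ C c x = s + t * x) ∧
      (∃ s t : ℝ, ∀ x ∈ Icc b v, A.phi ρ C c x = s + t * x) := by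
  by_cases h0 : (0 : ℝ) ∈ Ioo u v
  · refine ⟨0, h0.1, h0.2, fun c' hc' hne hor => S.zero c hc c' hc' hne hor, ?_, ?_⟩
    · refine A.phi_aff S.star hc h0.1 hu (h0.2.le.trans hv) (fun h => lt_irrefl _ h.2) ?_
      exact hX.imp id fun h h' => h ⟨h'.1, h'.2.trans h0.2⟩
    · refine A.phi_aff S.star hc h0.2 (hu.trans h0.1.le) hv (fun h => lt_irrefl _ h.1) ?_
      exact hX.imp id fun h h' => h ⟨h0.1.trans h'.1, h'.2⟩
  · obtain ⟨b, hb, hf⟩ := S.exists_free hc huv hu hv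
    refine ⟨b, hb.1, hb.2, hf, ?_, ?_⟩
    · refine A.phi_aff S.star hc hb.1 hu (hb.2.le.trans hv) (fun h => h0 ⟨h.1, h.2.trans hb.2⟩) ?_
      exact hX.imp id fun h h' => h ⟨h'.1, h'.2.trans hb.2⟩
    · refine A.phi_aff S.star hc hb.2 (hu.trans hb.1.le) hv (fun h => h0 ⟨hb.1.trans h.1, h.2⟩) ?_
      exact hX.imp id fun h h' => h ⟨hb.1.trans h'.1, h'.2⟩

theorem Setup.exists_inn (S : Setup A ρ C H) {c : Cv} (hc : c ∈ curves N T) {d : Vx × Vx}
    (hd : d ∈ curveEdges N c) : ∃ g, Inn A ρ C H c g ∧ g.e = d := by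
  have hρ := S.ρ0
  rcases mem_curveEdges.1 hd with ⟨h0, rfl⟩ | ⟨h0, rfl | rfl⟩
  · obtain ⟨b, h1, h2, h3, h4, h5⟩ := S.piece hc (u := -ρ) (v := ρ) (by linarith) le_rfl le_rfl
      (Or.inl h0)
    exact ⟨⟨(lend c, rend N c), -ρ, b, ρ, A.phi ρ C c⟩,
      ⟨hc, rfl, ⟨h1, h2, h4, h5, Or.inl ⟨pos_lend S hc, pos_rend S hc⟩⟩, h3,
        Or.inl ⟨h0, rfl, rfl, rfl⟩⟩, rfl⟩
  · have ht := curve_star_le hc
    obtain ⟨x1, x2⟩ := abs_lt.1 (S.star (c.2.1 - 1) (by omega))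
    obtain ⟨b, h1, h2, h3, h4, h5⟩ := S.piece hc (u := -ρ) (v := A.X (c.2.1 - 1)) x1 le_rfl x2.le
      (Or.inr fun h => lt_irrefl _ h.2)
    exact ⟨⟨(lend c, Pool.Agent.CRt.star (c.2.1 - 1)), -ρ, b, A.X (c.2.1 - 1), A.phi ρ C c⟩,
      ⟨hc, rfl, ⟨h1, h2, h4, h5, Or.inl ⟨pos_lend S hc, pos_star S hc h0⟩⟩, h3,
        Or.inr (Or.inl ⟨h0, rfl, rfl, rfl⟩)⟩, rfl⟩
  · have ht := curve_star_le hc
    obtain ⟨x1, x2⟩ := abs_lt.1 (S.star (c.2.1 - 1) (by omega))
    obtain ⟨b, h1, h2, h3, h4, h5⟩ := S.piece hc (u := A.X (c.2.1 - 1)) (v := ρ) x2 x1.le le_rfl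
      (Or.inr fun h => lt_irrefl _ h.1)
    exact ⟨⟨(Pool.Agent.CRt.star (c.2.1 - 1), rend N c), A.X (c.2.1 - 1), b, ρ, A.phi ρ C c⟩,
      ⟨hc, rfl, ⟨h1, h2, h4, h5, Or.inl ⟨pos_star S hc h0, pos_rend S hc⟩⟩, h3,
        Or.inr (Or.inr ⟨h0, rfl, rfl, rfl⟩)⟩, rfl⟩

section
variable {c c' : Cv} {g g' : GE}

theorem Inn.range (S : Setup A ρ C H) (h : Inn A ρ C H c g) {x : ℝ} (hx : x ∈ Icc g.p g.q) :
    x ∈ Icc (-ρ) ρ := by
  have ht := curve_star_le h.mem
  rcases h.kind with ⟨h0, -, hp, hq⟩ | ⟨h0, -, hp, hq⟩ | ⟨h0, -, hp, hq⟩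
  · rw [hp, hq] at hx
    exact hx
  · rw [hp, hq] at hx
    obtain ⟨x1, x2⟩ := abs_lt.1 (S.star (c.2.1 - 1) (by omega))
    exact ⟨hx.1, hx.2.trans x2.le⟩
  · rw [hp, hq] at hx
    obtain ⟨x1, x2⟩ := abs_lt.1 (S.star (c.2.1 - 1) (by omega))
    exact ⟨x1.le.trans hx.1, hx.2⟩

theorem Inn.left (S : Setup A ρ C H) (h : Inn A ρ C H c g) (hx : -ρ ∈ Icc g.p g.q) :
    g.e.1 = lend c := by
  have ht := curve_star_le h.mem
  rcases h.kind with ⟨h0, he, -, -⟩ | ⟨h0, he, -, -⟩ | ⟨h0, -, hp, hq⟩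
  · rw [he]
  · rw [he]
  · rw [hp, hq] at hx
    obtain ⟨x1, x2⟩ := abs_lt.1 (S.star (c.2.1 - 1) (by omega))
    linarith [hx.1]

theorem Inn.right (S : Setup A ρ C H) (h : Inn A ρ C H c g) (hx : ρ ∈ Icc g.p g.q) :
    g.e.2 = rend N c := by
  have ht := curve_star_le h.mem
  rcases h.kind with ⟨h0, he, -, -⟩ | ⟨h0, -, hp, hq⟩ | ⟨h0, he, -, -⟩
  · rw [he]
  · rw [hp, hq] at hx
    obtain ⟨x1, x2⟩ := abs_lt.1 (S.star (c.2.1 - 1) (by omega))
    linarith [hx.2]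
  · rw [he]

theorem Inn.star (h : Inn A ρ C H c g) (h0 : c.2.1 ≠ 0) :
    Pool.Agent.CRt.star (c.2.1 - 1) = g.e.1 ∨ Pool.Agent.CRt.star (c.2.1 - 1) = g.e.2 := by
  rcases h.kind with ⟨h1, -⟩ | ⟨-, he, -, -⟩ | ⟨-, he, -, -⟩
  · exact absurd h1 h0
  · rw [he]; exact Or.inr rfl
  · rw [he]; exact Or.inl rfl

/-- Points which are no ends. -/
theorem Inn.interior (h : Inn A ρ C H c g) {x : ℝ} (hx : x ∈ Icc g.p g.q)
    (h1 : x ≠ -ρ) (h2 : x ≠ ρ) (h3 : c.2.1 ≠ 0 → x ≠ A.X (c.2.1 - 1)) : x ∈ Ioo g.p g.q := by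
  obtain ⟨x1, x2⟩ := hx
  rcases h.kind with ⟨h0, -, hp, hq⟩ | ⟨h0, -, hp, hq⟩ | ⟨h0, -, hp, hq⟩
  · exact ⟨lt_of_le_of_ne x1 (by rw [hp]; exact h1.symm), lt_of_le_of_ne x2 (by rw [hq]; exact h2)⟩
  · exact ⟨lt_of_le_of_ne x1 (by rw [hp]; exact h1.symm),
      lt_of_le_of_ne x2 (by rw [hq]; exact h3 h0)⟩
  · exact ⟨lt_of_le_of_ne x1 (by rw [hp]; exact (h3 h0).symm),
      lt_of_le_of_ne x2 (by rw [hq]; exact h2)⟩

/-- Common points of inner edges. -/
theorem inn_inn (S : Setup A ρ C H) (h : Inn A ρ C H c g) (h' : Inn A ρ C H c' g')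
    (hne : g.e ≠ g'.e) {x : ℝ} (hx : x ∈ Icc g.p g.q) (hx' : x ∈ Icc g'.p g'.q)
    (he : g.φ x = g'.φ x) :
    CommonEnd (dpos A ρ C H) g.e g'.e (x, g.φ x) ∨ (g.Cross g' x ∧ c.1 ≠ c'.1 ∧
      (c.2.1 = 0 ∨ c.2.1 ≠ c'.2.1)) := by
  have hR := h.range S hx
  rw [h.fn, h'.fn] at he
  rw [h.fn]
  by_cases hcc : c = c'
  · -- the two arms of a curve
    subst hcc
    left
    have h0 : c.2.1 ≠ 0 := by
      intro h0
      rcases h.kind with ⟨-, e1, -, -⟩ | ⟨a, -⟩ | ⟨a, -⟩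
      · rcases h'.kind with ⟨-, e2, -, -⟩ | ⟨a, -⟩ | ⟨a, -⟩
        · exact hne (by rw [e1, e2])
        · exact a h0
        · exact a h0
      · exact a h0
      · exact a h0
    have hxX : x = A.X (c.2.1 - 1) := by
      rcases h.kind with ⟨a, -⟩ | ⟨-, e1, p1, q1⟩ | ⟨-, e1, p1, q1⟩
      · exact absurd a h0
      · rcases h'.kind with ⟨a, -⟩ | ⟨-, e2, p2, q2⟩ | ⟨-, e2, p2, q2⟩
        · exact absurd a h0
        · exact absurd (by rw [e1, e2]) hne
        · rw [q1] at hx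
          rw [p2] at hx'
          exact le_antisymm hx.2 hx'.1
      · rcases h'.kind with ⟨a, -⟩ | ⟨-, e2, p2, q2⟩ | ⟨-, e2, p2, q2⟩
        · exact absurd a h0
        · rw [p1] at hx
          rw [q2] at hx'
          exact le_antisymm hx'.2 hx.1
        · exact absurd (by rw [e1, e2]) hne
    refine ⟨Pool.Agent.CRt.star (c.2.1 - 1), h.star h0, h'.star h0, ?_⟩
    rw [pos_star S h.mem h0, hxX]
  by_cases hl : x = -ρ
  · left
    rw [hl] at hx hx' he ⊢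
    have e1 := h.left S hx
    have e2 := h'.left S hx'
    have e3 : lend c = lend c' := by
      have l1 := curve_line S.hT h'.mem
      have l2 := curve_off h'.mem
      refine lend_of_eq S h.mem (p := 3 * c'.1 + c'.2.2.2 + 1) (by omega) ?_
      show dpos A ρ C H (lend c) = dpos A ρ C H (lend c')
      rw [pos_lend S h.mem, pos_lend S h'.mem, he]
    refine ⟨lend c, Or.inl e1.symm, Or.inl (by rw [e2, e3]), ?_⟩
    rw [pos_lend S h.mem]
  by_cases hr : x = ρ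
  · left
    rw [hr] at hx hx' he ⊢
    have e1 := h.right S hx
    have e2 := h'.right S hx'
    have e3 : rend N c = rend N c' := by
      have l1 := curve_line S.hT h'.mem
      have l2 := curve_off h'.mem
      refine rend_of_eq S h.mem (p := 3 * (N - 1 - c'.1) + c'.2.2.2 + 1) (by omega) ?_
      show dpos A ρ C H (rend N c) = dpos A ρ C H (rend N c')
      rw [pos_rend S h.mem, pos_rend S h'.mem, he]
    refine ⟨rend N c, Or.inr e1.symm, Or.inr (by rw [e2, e3]), ?_⟩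
    rw [pos_rend S h.mem]
  have hI : x ∈ Ioo (-ρ) ρ := ⟨lt_of_le_of_ne hR.1 (Ne.symm hl), lt_of_le_of_ne hR.2 hr⟩
  have hline : c.1 ≠ c'.1 := fun e => S.same c h.mem c' h'.mem hcc e x hI he
  by_cases hst : c.2.1 = 0 ∨ c.2.1 ≠ c'.2.1
  · right
    have t1 := curve_star_le h.mem
    have t2 := curve_star_le h'.mem
    have a1 : c.2.1 ≠ 0 → x ≠ A.X (c.2.1 - 1) := by
      intro h0 hxX
      rcases hst with h1 | h1
      · exact h0 h1
      · rw [hxX, A.phi_star S.star h.mem h0] at he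
        exact S.avoid c' h'.mem (c.2.1 - 1) (by omega) (by omega) he.symm
    have a2 : c'.2.1 ≠ 0 → x ≠ A.X (c'.2.1 - 1) := by
      intro h0 hxX
      rw [hxX, A.phi_star S.star h'.mem h0] at he
      refine S.avoid c h.mem (c'.2.1 - 1) (by omega) ?_ he
      rcases hst with h1 | h1 <;> omega
    refine ⟨⟨h.interior hx hl hr a1, h'.interior hx' hl hr a2, ?_, ?_, ?_⟩, hline, hst⟩
    · intro hb
      exact h.free c' h'.mem hline hst (by rw [← hb]; exact he)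
    · intro hb
      refine h'.free c h.mem hline.symm ?_ (by rw [← hb]; exact he.symm)
      rcases hst with h1 | h1
      · by_cases h2 : c'.2.1 = 0
        · exact Or.inl h2
        · exact Or.inr (by omega)
      · exact Or.inr (Ne.symm h1)
    · intro y hy hy' hey
      rw [h.fn, h'.fn] at hey
      exact S.uniq h.mem h'.mem hline (h.range S hy) hR hey he
  · left
    push Not at hst
    obtain ⟨h0, h1⟩ := hst
    have h0' : c'.2.1 ≠ 0 := by omega
    have t1 := curve_star_le h.mem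
    have ex : A.phi ρ C c (A.X (c.2.1 - 1)) = A.phi ρ C c' (A.X (c.2.1 - 1)) := by
      rw [A.phi_star S.star h.mem h0]
      have := A.phi_star (ρ := ρ) (C := C) S.star h'.mem h0'
      rw [← h1] at this
      exact this.symm
    obtain ⟨x1, x2⟩ := abs_lt.1 (S.star (c.2.1 - 1) (by omega))
    have hxX : x = A.X (c.2.1 - 1) := S.uniq h.mem h'.mem hline hR ⟨x1.le, x2.le⟩ he ex
    refine ⟨Pool.Agent.CRt.star (c.2.1 - 1), h.star h0, ?_, ?_⟩
    · rw [h1]
      exact h'.star h0'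
    · rw [pos_star S h.mem h0, hxX]

/-- The edge is determined by the curve and an interior point. -/
theorem Inn.det (h : Inn A ρ C H c g) (h' : Inn A ρ C H c g') {x : ℝ} (hx : x ∈ Ioo g.p g.q)
    (hx' : x ∈ Ioo g'.p g'.q) : g.e = g'.e := by
  rcases h.kind with ⟨a, e1, p1, q1⟩ | ⟨a, e1, p1, q1⟩ | ⟨a, e1, p1, q1⟩ <;>
    rcases h'.kind with ⟨b, e2, p2, q2⟩ | ⟨b, e2, p2, q2⟩ | ⟨b, e2, p2, q2⟩
  · rw [e1, e2]
  · exact absurd a b
  · exact absurd a b
  · exact absurd b a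
  · rw [e1, e2]
  · rw [q1] at hx
    rw [p2] at hx'
    linarith [hx.2, hx'.1]
  · exact absurd b a
  · rw [p1] at hx
    rw [q2] at hx'
    linarith [hx'.2, hx.1]
  · rw [e1, e2]

end

/-! ### The outer edges -/

structure Out (A : Prep N T) (ρ C H : ℝ) (g : GE) : Prop where
  mem : g.e ∈ outEdges N (KK N T)
  ok : g.Ok (dpos A ρ C H)
  seg : ∀ x, x ∈ Icc g.p g.q → (x, g.φ x) ∈ segment ℝ (dpos A ρ C H g.e.1) (dpos A ρ C H g.e.2)

theorem Setup.exists_out (S : Setup A ρ C H) {d : Vx × Vx} (hd : d ∈ outEdges N (KK N T)) :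
    ∃ g, Out A ρ C H g ∧ g.e = d := by
  obtain ⟨g, h1, h2, h3⟩ := straight (pos := dpos A ρ C H) (out_ne S.ρ0 hd)
  exact ⟨g, ⟨by rw [h1]; exact hd, h2, by rw [h1]; exact h3⟩, h1⟩

theorem inn_out (S : Setup A ρ C H) {c : Cv} {g g' : GE} (h : Inn A ρ C H c g)
    (h' : Out A ρ C H g') {x : ℝ} (hx : x ∈ Icc g.p g.q) (hx' : x ∈ Icc g'.p g'.q)
    (he : g.φ x = g'.φ x) : CommonEnd (dpos A ρ C H) g.e g'.e (x, g.φ x) := by
  have hR := h.range S hx
  have hb := abs_lt.1 (S.bd c h.mem x hR)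
  rw [← h.fn] at hb
  have hseg := h'.seg x hx'
  rw [← he] at hseg
  obtain ⟨v, hv1, hv2, p, hp, rfl | rfl⟩ := out_region S.ρ0 S.H0 S.okL S.okR h'.mem hseg hR.1 hR.2
    hb.1 hb.2
  · have hv2 : (x, g.φ x) = dpos A ρ C H (lv p) := hv2
    have hxl : x = -ρ := congrArg Prod.fst hv2
    have e1 : g.e.1 = lend c := h.left S (by rw [← hxl]; exact hx)
    have e2 : dpos A ρ C H (lend c) = dpos A ρ C H (lv p) := by
      rw [pos_lend S h.mem, ← hv2, h.fn, hxl]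
    have e3 := lend_of_eq S h.mem hp e2
    exact ⟨lv p, Or.inl (by rw [e1, e3]), hv1, hv2⟩
  · have hv2 : (x, g.φ x) = dpos A ρ C H (rv p) := hv2
    have hxl : x = ρ := congrArg Prod.fst hv2
    have e1 : g.e.2 = rend N c := h.right S (by rw [← hxl]; exact hx)
    have e2 : dpos A ρ C H (rend N c) = dpos A ρ C H (rv p) := by
      rw [pos_rend S h.mem, ← hv2, h.fn, hxl]
    have e3 := rend_of_eq S h.mem hp e2
    exact ⟨rv p, Or.inr (by rw [e1, e3]), hv1, hv2⟩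

theorem out_out (S : Setup A ρ C H) {g g' : GE} (h : Out A ρ C H g) (h' : Out A ρ C H g')
    (hne : g.e ≠ g'.e) {x : ℝ} (hx : x ∈ Icc g.p g.q) (hx' : x ∈ Icc g'.p g'.q)
    (he : g.φ x = g'.φ x) : CommonEnd (dpos A ρ C H) g.e g'.e (x, g.φ x) := by
  have h1 := h.seg x hx
  have h2 := h'.seg x hx'
  rw [← he] at h2
  exact out_inter S.ρ0 S.H0 S.okL S.okR h.mem h'.mem hne h1 h2

end

/-- The drawing. -/
theorem pl_draw (hN : 0 < N) (hT : SValid N T) (h : PLReal N T) :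
    ∃ D : LDraw (gEdges N T), D.crossings.encard ≤ kk N T := by
  classical
  obtain ⟨A⟩ := exists_prep hT h
  obtain ⟨ρ, C, H, S⟩ := exists_setup hN hT A
  have q1 : ∀ d ∈ gEdges N T, ∃ g, ((∃ c, Inn A ρ C H c g) ∨ Out A ρ C H g) ∧ g.e = d := by
    intro d hd
    rcases mem_gEdges.1 hd with ⟨c, hc, hdc⟩ | ⟨q, hq, i, hi, hdi⟩
    · obtain ⟨g, hg, hge⟩ := S.exists_inn hc hdc
      exact ⟨g, Or.inl ⟨c, hg⟩, hge⟩
    · have : d ∈ outEdges N (KK N T) := by
        unfold outEdges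
        rw [List.mem_flatMap]
        refine ⟨q, hq, ?_⟩
        rw [List.mem_flatMap]
        exact ⟨i, List.mem_range.2 hi, hdi⟩
      obtain ⟨g, hg, hge⟩ := S.exists_out this
      exact ⟨g, Or.inr hg, hge⟩
  have q2 : ∀ g, ((∃ c, Inn A ρ C H c g) ∨ Out A ρ C H g) → g.Ok (dpos A ρ C H) := by
    rintro g (⟨c, hc⟩ | ho)
    · exact hc.ok
    · exact ho.ok
  have q3 : ∀ g g', ((∃ c, Inn A ρ C H c g) ∨ Out A ρ C H g) →
      ((∃ c, Inn A ρ C H c g') ∨ Out A ρ C H g') → g.e ≠ g'.e → ∀ x, x ∈ Icc g.p g.q →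
      x ∈ Icc g'.p g'.q → g.φ x = g'.φ x →
      CommonEnd (dpos A ρ C H) g.e g'.e (x, g.φ x) ∨ g.Cross g' x := by
    rintro g g' (⟨c, hc⟩ | ho) (⟨c', hc'⟩ | ho') hne x hx hx' he
    · rcases inn_inn S hc hc' hne hx hx' he with h1 | h1
      · exact Or.inl h1
      · exact Or.inr h1.1
    · exact Or.inl (inn_out S hc ho' hx hx' he)
    · left
      rw [he]
      exact commonEnd_symm (inn_out S hc' ho hx' hx he.symm)
    · exact Or.inl (out_out S ho ho' hne hx hx' he)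
  obtain ⟨D, hD⟩ := draw_of (pos := dpos A ρ C H) (Es := gEdges N T)
    (Q := fun g => (∃ c, Inn A ρ C H c g) ∨ Out A ρ C H g) q1 q2 q3
  refine ⟨D, ?_⟩
  -- every crossing comes from a forced pair
  have key : ∀ x ∈ D.crossings, ∃ p ∈ forcedPairs N T, ∃ g g', Inn A ρ C H p.1 g ∧
      Inn A ρ C H p.2 g' ∧ x.1 = s(g.e, g'.e) ∧ x.2.1 ∈ Ioo g.p g.q ∧
      x.2.1 ∈ Ioo g'.p g'.q ∧ x.2.2 = A.phi ρ C p.1 x.2.1 ∧
      x.2.2 = A.phi ρ C p.2 x.2.1 := by
    intro x hx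
    obtain ⟨g, g', hg, hg', hne, hx1, hx2, hx3, hx4, hx5, hx6⟩ := hD x hx
    have hphi : g.φ x.2.1 = g'.φ x.2.1 := by rw [← hx4, ← hx5]
    have ex : x.2 = (x.2.1, g.φ x.2.1) := Prod.ext rfl hx4
    have ex' : x.2 = (x.2.1, g'.φ x.2.1) := Prod.ext rfl hx5
    rcases hg with ⟨c, hc⟩ | ho
    · rcases hg' with ⟨c', hc'⟩ | ho'
      · rcases inn_inn S hc hc' hne hx2 hx3 hphi with h1 | ⟨⟨i1, i2, -, -, -⟩, hline, hst⟩
        · exact absurd (by rw [ex]; exact h1) hx6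
        · rcases lt_or_gt_of_ne hline with hlt | hlt
          · refine ⟨(c, c'), mem_forcedPairs.2 ⟨hc.mem, hc'.mem, hlt, hst⟩, g, g', hc, hc',
              hx1, i1, i2, ?_, ?_⟩
            · rw [hx4, hc.fn]
            · rw [hx5, hc'.fn]
          · refine ⟨(c', c), mem_forcedPairs.2 ⟨hc'.mem, hc.mem, hlt, ?_⟩, g', g, hc', hc,
              by rw [hx1]; exact Sym2.eq_swap, i2, i1, ?_, ?_⟩
            · rcases hst with h1 | h1
              · by_cases h2 : c'.2.1 = 0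
                · exact Or.inl h2
                · exact Or.inr (by show c'.2.1 ≠ c.2.1; omega)
              · exact Or.inr (Ne.symm h1)
            · rw [hx5, hc'.fn]
            · rw [hx4, hc.fn]
      · exact absurd (by rw [ex]; exact inn_out S hc ho' hx2 hx3 hphi) hx6
    · rcases hg' with ⟨c', hc'⟩ | ho'
      · exact absurd (by
          rw [ex']
          exact commonEnd_symm (inn_out S hc' ho hx3 hx2 hphi.symm)) hx6
      · exact absurd (by rw [ex]; exact out_out S ho ho' hne hx2 hx3 hphi) hx6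
  choose! f hf using key
  have hinj : InjOn f D.crossings := by
    intro x hx y hy hxy
    obtain ⟨hm, g, g', i1, i2, x1, x2, x3, x4, x5⟩ := hf x hx
    obtain ⟨-, k, k', j1, j2, y1, y2, y3, y4, y5⟩ := hf y hy
    rw [← hxy] at j1 j2 y4 y5
    have hline : (f x).1.1 ≠ (f x).2.1 := ((mem_forcedPairs.1 hm).2.2.1).ne
    have e0 : x.2.1 = y.2.1 := S.uniq i1.mem i2.mem hline
      (i1.range S ⟨x2.1.le, x2.2.le⟩) (j1.range S ⟨y2.1.le, y2.2.le⟩) (by rw [← x4, ← x5])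
      (by rw [← y4, ← y5])
    have e1 : g.e = k.e := i1.det j1 x2 (by rw [e0]; exact y2)
    have e2 : g'.e = k'.e := i2.det j2 x3 (by rw [e0]; exact y3)
    refine Prod.ext (by rw [x1, y1, e1, e2]) (Prod.ext e0 ?_)
    rw [x4, y4, e0]
  have hmaps : MapsTo f D.crossings ((forcedPairs N T).toFinset : Set (Cv × Cv)) := by
    intro x hx
    exact List.mem_toFinset.2 (hf x hx).1
  refine (Set.encard_le_encard_of_injOn hmaps hinj).trans ?_
  rw [Set.encard_coe_eq_coe_finsetCard]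
  exact_mod_cast List.toFinset_card_le _

end Pool.Agent.CRt
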