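import Pool.Agent.CRt.Inter

/-!
# The drawing of the graph: definitions
-/

set_option autoImplicit false

namespace Pool.Agent.CRt

open Set

/-- Functions with one kink together with generic positions `(X t, Y t)` for the stars. -/
structure Prep (N : ℕ) (T : List STriple) where
  α : ℕ → ℝ
  m : ℕ → ℝ
  m' : ℕ → ℝ
  X : ℕ → ℝ
  Y : ℕ → ℝ
  slope : ∀ e f, e < f → f < N → m e < m f ∧ m' e < m' f
  side : ∀ c ∈ starCurves T, 0 < (1 - (c.2.2.2 : ℝ)) *
    (Y (c.2.1 - 1) - pl (α c.1) (m c.1) (m' c.1) (X (c.2.1 - 1)))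
  gen0 : ∀ l < N, ∀ l' < N, l ≠ l' → α l ≠ α l'
  gen1 : ∀ t < T.length, ∀ l < N, Y t ≠ pl (α l) (m l) (m' l) (X t)
  gen2 : ∀ t < T.length, ∀ t' < T.length, t ≠ t' → ∀ l < N,
    Y t - pl (α l) (m l) (m' l) (X t) ≠ Y t' - pl (α l) (m l) (m' l) (X t')
  gen3 : ∀ t < T.length, ∀ l < N, ∀ l' < N, l ≠ l' →
    α l + (Y t - pl (α l) (m l) (m' l) (X t)) ≠ α l'
  gen4 : ∀ t < T.length, ∀ t' < T.length, t ≠ t' → ∀ l < N, ∀ l' < N, l ≠ l' →
    α l + (Y t - pl (α l) (m l) (m' l) (X t)) ≠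
      α l' + (Y t' - pl (α l') (m' := m' l') (m l') (X t'))

namespace Prep

variable {N : ℕ} {T : List STriple} (D : Prep N T)

/-- The function of the line `l`. -/
def F (l : ℕ) (x : ℝ) : ℝ := pl (D.α l) (D.m l) (D.m' l) x

/-- The height of the star `t` over the line `l`. -/
def ht (t l : ℕ) : ℝ := D.Y t - D.F l (D.X t)

/-- The function with value `C` at `-ρ` and at `ρ` and value `h` at `a`, linear in between. -/
noncomputable def _root_.Pool.Agent.CRt.tent (ρ a C h x : ℝ) : ℝ :=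
  if x ≤ a then C + (h - C) * ((x + ρ) / (a + ρ)) else C + (h - C) * ((ρ - x) / (ρ - a))

/-- The function of the curve `c`. -/
noncomputable def phi (ρ C : ℝ) (c : Cv) (x : ℝ) : ℝ :=
  D.F c.1 x + if c.2.1 = 0 then 0 else
    tent ρ (D.X (c.2.1 - 1)) (C * (1 - (c.2.2.2 : ℝ))) (D.ht (c.2.1 - 1) c.1) x

end Prep

/-- The offsets of the paths of a connection. -/
noncomputable def tau (K i : ℕ) : ℝ := ((i : ℝ) + 1) / (2 * ((K : ℝ) + 1))

/-- The positions of the vertices: `h` and `h'` are the heights of the vertices of the columns and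
`S` are the positions of the stars. -/
noncomputable def opos (ρ H : ℝ) (h h' : ℕ → ℝ) (S : ℕ → Plane) (K : ℕ) : Vx → Plane
  | (0, p, _) => (-ρ, h p)
  | (1, p, _) => (ρ, h' p)
  | (2, s, _) => if s = 0 then (-(ρ + 2), 0) else (ρ + 2, 0)
  | (3, t, _) => S t
  | (4, p, i) => (-(ρ + tau K i), (h p + h (p + 1)) / 2)
  | (5, p, i) => (ρ + tau K i, (h' p + h' (p + 1)) / 2)
  | (6, p, i) => (-(ρ + 1), h p + tau K i)
  | (7, p, i) => (ρ + 1, h' p + tau K i)
  | (8, _, i) => (0, H + 1 + i)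
  | (9, _, i) => (0, -(H + 1 + i))
  | (_, _, i) => (0, (ρ + 2) * (H + K + 2) + i)

/-- The edges of the connections. -/
def outEdges (N K : ℕ) : List (Vx × Vx) :=
  (conns N).flatMap fun q => (List.range K).flatMap fun i => connEdges q i

/-- The conditions on the heights of the columns. -/
structure ColOk (N : ℕ) (H : ℝ) (h : ℕ → ℝ) : Prop where
  top : h 0 = H
  bot : h (3 * N + 1) = -H
  gap : ∀ p < 3 * N + 1, h (p + 1) + 4 ≤ h p

end Pool.Agent.CRt
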