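import Pool.Agent.CRt.DrawDefs

/-!
# The drawing of the graph: generic positions for the stars
-/

set_option autoImplicit false

namespace Pool.Agent.CRt

open Set Filter Topology

theorem prep_ev_ne {A B : ℝ} (hB : B ≠ 0) : ∀ᶠ ε in 𝓝[>] (0 : ℝ), A + ε * B ≠ 0 := by
  by_cases hA : A = 0
  · filter_upwards [self_mem_nhdsWithin] with ε hε
    have : (0 : ℝ) < ε := hε
    simp [hA, hB, this.ne']
  · have hc : Tendsto (fun ε : ℝ => A + ε * B) (𝓝[>] 0) (𝓝 (A + 0 * B)) :=
      (Continuous.tendsto (by fun_prop) 0).mono_left nhdsWithin_le_nhds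
    refine hc.eventually_ne ?_
    simpa using hA

theorem prep_ev_lt {A : ℝ} (B : ℝ) (hA : 0 < A) : ∀ᶠ ε in 𝓝[>] (0 : ℝ), 0 < A + ε * B := by
  have hc : Tendsto (fun ε : ℝ => A + ε * B) (𝓝[>] 0) (𝓝 (A + 0 * B)) :=
    (Continuous.tendsto (by fun_prop) 0).mono_left nhdsWithin_le_nhds
  refine hc.eventually (lt_mem_nhds ?_)
  simpa using hA

theorem prep_ev_all {n : ℕ} {p : ℕ → ℝ → Prop}
    (h : ∀ l < n, ∀ᶠ ε in 𝓝[>] (0 : ℝ), p l ε) : ∀ᶠ ε in 𝓝[>] (0 : ℝ), ∀ l < n, p l ε := by
  have := (Finset.range n).eventually_all (l := 𝓝[>] (0 : ℝ)) (p := fun l ε => p l ε)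
  simp only [Finset.mem_range] at this
  exact this.2 h

theorem exists_prep {N : ℕ} {T : List STriple} (hT : SValid N T) (h : PLReal N T) :
    Nonempty (Prep N T) := by
  classical
  obtain ⟨α, m, m', hs, hc⟩ := h
  -- the positions of the stars
  have hx : ∀ t : ℕ, ∃ x : ℝ, t < T.length →
      pl (α (T.getD t dflt).1) (m (T.getD t dflt).1) (m' (T.getD t dflt).1) x =
        pl (α (T.getD t dflt).2.2.1) (m (T.getD t dflt).2.2.1) (m' (T.getD t dflt).2.2.1) x ∧
      if (T.getD t dflt).2.2.2 then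
        pl (α (T.getD t dflt).1) (m (T.getD t dflt).1) (m' (T.getD t dflt).1) x <
          pl (α (T.getD t dflt).2.1) (m (T.getD t dflt).2.1) (m' (T.getD t dflt).2.1) x
      else pl (α (T.getD t dflt).2.1) (m (T.getD t dflt).2.1) (m' (T.getD t dflt).2.1) x <
        pl (α (T.getD t dflt).1) (m (T.getD t dflt).1) (m' (T.getD t dflt).1) x := by
    intro t
    by_cases ht : t < T.length
    · have hm : T.getD t dflt ∈ T := by
        rw [List.getD_eq_getElem _ _ ht]
        exact List.getElem_mem ht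
      obtain ⟨x, h1, h2⟩ := hc _ hm
      exact ⟨x, fun _ => ⟨h1, h2⟩⟩
    · exact ⟨0, fun h => absurd h ht⟩
  choose X hX using hx
  -- the functions at `ε = 0`
  set F : ℕ → ℝ → ℝ := fun l x => pl (α l) (m l) (m' l) x with hF
  set Y0 : ℕ → ℝ := fun t => (F (T.getD t dflt).1 (X t) + F (T.getD t dflt).2.1 (X t)) / 2
    with hY0
  have hpl : ∀ (ε : ℝ) (l : ℕ) (x : ℝ), pl (α l + ε * l) (m l) (m' l) x = F l x + ε * l := by
    intro ε l x
    simp only [hF, pl]
    ring
  have e0 : ∀ᶠ ε in 𝓝[>] (0 : ℝ), ∀ l < N, ∀ l' < N, l ≠ l' →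
      (α l - α l') + ε * ((l : ℝ) - l') ≠ 0 := by
    refine prep_ev_all fun l _ => prep_ev_all fun l' _ => ?_
    by_cases hll : l = l'
    · exact Eventually.of_forall fun ε h => absurd hll h
    · have : ((l : ℝ) - l') ≠ 0 := by
        rw [sub_ne_zero]
        exact_mod_cast hll
      exact (prep_ev_ne this).mono fun ε h _ => h
  have e1 : ∀ᶠ ε in 𝓝[>] (0 : ℝ), ∀ t < T.length, ∀ l < N,
      (Y0 t - F l (X t)) + ε * ((N : ℝ) + t - l) ≠ 0 := by
    refine prep_ev_all fun t _ => prep_ev_all fun l hl => ?_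
    have h1 : (l : ℝ) < N := by exact_mod_cast hl
    have h2 : (0 : ℝ) ≤ t := Nat.cast_nonneg t
    exact prep_ev_ne (by linarith : (0 : ℝ) < (N : ℝ) + t - l).ne'
  have e2 : ∀ᶠ ε in 𝓝[>] (0 : ℝ), ∀ t < T.length, ∀ t' < T.length, t ≠ t' → ∀ l < N,
      ∀ l' < N, ∀ A ∈ [Y0 t - F l (X t) - (Y0 t' - F l (X t')),
        α l + (Y0 t - F l (X t)) - (α l' + (Y0 t' - F l' (X t')))],
      A + ε * ((t : ℝ) - t') ≠ 0 := by
    refine prep_ev_all fun t _ => prep_ev_all fun t' _ => ?_
    by_cases htt : t = t'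
    · exact Eventually.of_forall fun ε h => absurd htt h
    · have hne : ((t : ℝ) - t') ≠ 0 := by
        rw [sub_ne_zero]
        exact_mod_cast htt
      have : ∀ᶠ ε in 𝓝[>] (0 : ℝ), ∀ l < N, ∀ l' < N,
          ∀ A ∈ [Y0 t - F l (X t) - (Y0 t' - F l (X t')),
            α l + (Y0 t - F l (X t)) - (α l' + (Y0 t' - F l' (X t')))],
          A + ε * ((t : ℝ) - t') ≠ 0 := by
        refine prep_ev_all fun l _ => prep_ev_all fun l' _ => ?_
        simp only [List.mem_cons, List.not_mem_nil, or_false, forall_eq_or_imp, forall_eq]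
        exact (prep_ev_ne hne).and (prep_ev_ne hne)
      exact this.mono fun ε h _ => h
  have e3 : ∀ᶠ ε in 𝓝[>] (0 : ℝ), ∀ t < T.length, ∀ l < N, ∀ l' < N,
      (α l + (Y0 t - F l (X t)) - α l') + ε * ((N : ℝ) + t - l') ≠ 0 := by
    refine prep_ev_all fun t _ => prep_ev_all fun l _ => prep_ev_all fun l' hl' => ?_
    have h1 : (l' : ℝ) < N := by exact_mod_cast hl'
    have h2 : (0 : ℝ) ≤ t := Nat.cast_nonneg t
    exact prep_ev_ne (by linarith : (0 : ℝ) < (N : ℝ) + t - l').ne'
  have e4 : ∀ᶠ ε in 𝓝[>] (0 : ℝ), ∀ t < T.length, ∀ c ∈ starC t (T.getD t dflt),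
      0 < (1 - (c.2.2.2 : ℝ)) * (Y0 t - F c.1 (X t)) +
        ε * ((1 - (c.2.2.2 : ℝ)) * ((N : ℝ) + t - c.1)) := by
    refine prep_ev_all fun t ht => ?_
    obtain ⟨h1, h2⟩ := hX t ht
    have key : ∀ c ∈ starC t (T.getD t dflt), 0 < (1 - (c.2.2.2 : ℝ)) * (Y0 t - F c.1 (X t)) := by
      intro c hcm
      simp only [starC, List.mem_cons, List.not_mem_nil, or_false] at hcm
      cases hσ : (T.getD t dflt).2.2.2
      · rw [hσ] at hcm h2
        simp only [Bool.false_eq_true, if_false] at hcm h2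
        rcases hcm with rfl | rfl | rfl <;> simp only [hY0, hF] <;> push_cast <;> linarith
      · rw [hσ] at hcm h2
        simp only [if_true] at hcm h2
        rcases hcm with rfl | rfl | rfl <;> simp only [hY0, hF] <;> push_cast <;> linarith
    have k2 : ∀ c ∈ (starC t (T.getD t dflt)).toFinset, ∀ᶠ ε in 𝓝[>] (0 : ℝ),
        0 < (1 - (c.2.2.2 : ℝ)) * (Y0 t - F c.1 (X t)) +
          ε * ((1 - (c.2.2.2 : ℝ)) * ((N : ℝ) + t - c.1)) := by
      intro c hcm
      exact prep_ev_lt _ (key c (List.mem_toFinset.1 hcm))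
    have := (Finset.eventually_all _).2 k2
    exact this.mono fun ε h c hcm => h c (List.mem_toFinset.2 hcm)
  obtain ⟨ε, h0, h1, h2, h3, h4⟩ := (e0.and (e1.and (e2.and (e3.and e4)))).exists
  refine ⟨{ α := fun l => α l + ε * l
            m := m
            m' := m'
            X := X
            Y := fun t => Y0 t + ε * (N + t)
            slope := hs
            side := ?_
            gen0 := ?_
            gen1 := ?_
            gen2 := ?_
            gen3 := ?_
            gen4 := ?_ }⟩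
  · intro c hcm
    simp only [starCurves, List.mem_flatMap, List.mem_range] at hcm
    obtain ⟨t, ht, hcm⟩ := hcm
    have ht1 : c.2.1 - 1 = t := by
      simp only [starC, List.mem_cons, List.not_mem_nil, or_false] at hcm
      rcases hcm with rfl | rfl | rfl <;> simp
    have := h4 t ht c hcm
    simp only [ht1, hpl]
    have e : (1 - (c.2.2.2 : ℝ)) * (Y0 t + ε * (N + t) - (F c.1 (X t) + ε * c.1)) =
        (1 - (c.2.2.2 : ℝ)) * (Y0 t - F c.1 (X t)) +
        ε * ((1 - (c.2.2.2 : ℝ)) * ((N : ℝ) + t - c.1)) := by ring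
    rw [e]
    exact this
  · intro l hl l' hl' hne heq
    refine h0 l hl l' hl' hne ?_
    linear_combination heq
  · intro t ht l hl heq
    simp only [hpl] at heq
    refine h1 t ht l hl ?_
    linear_combination heq
  · intro t ht t' ht' hne l hl heq
    simp only [hpl] at heq
    refine h2 t ht t' ht' hne l hl l hl (Y0 t - F l (X t) - (Y0 t' - F l (X t'))) (by simp) ?_
    linear_combination heq
  · intro t ht l hl l' hl' _ heq
    simp only [hpl] at heq
    refine h3 t ht l hl l' hl' ?_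
    linear_combination heq
  · intro t ht t' ht' hne l hl l' hl' _ heq
    simp only [hpl] at heq
    refine h2 t ht t' ht' hne l hl l' hl' (α l + (Y0 t - F l (X t)) - (α l' + (Y0 t' - F l' (X t'))))
      (by simp) ?_
    linear_combination heq

end Pool.Agent.CRt
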