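import Pool.Agent.CRt.GapDet

/-!
# The minimum function of the gap theorem
-/

set_option autoImplicit false

namespace Pool.Agent.CRt.Gap

open Polynomial Finset Filter Topology

variable {n : ℕ}

theorem continuous_ev (L : PL n) : Continuous fun y => ev L y := by
  induction L with
  | nil => simpa [ev] using continuous_const
  | cons t L ih =>
    have h1 : (fun y => ev (t :: L) y) = fun y => (t.1 : ℝ) * mon t.2 y + ev L y := by
      funext y; unfold ev; rw [List.map_cons, List.sum_cons]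
    rw [h1]
    refine Continuous.add (continuous_const.mul ?_) ih
    unfold mon
    exact continuous_finsetProd _ fun i _ => (continuous_apply i).pow _

/-- the sum of the sixth powers -/
def N6 (y : Fin n → ℝ) : ℝ := ∑ i, y i ^ 6

theorem N6_nonneg (y : Fin n → ℝ) : 0 ≤ N6 y := Finset.sum_nonneg fun i _ => by positivity

theorem continuous_N6 : Continuous (N6 : (Fin n → ℝ) → ℝ) := by
  unfold N6
  exact continuous_finsetSum _ fun i _ => (continuous_apply i).pow _

theorem norm_pow_le (y : Fin n → ℝ) : ‖y‖ ^ 6 ≤ N6 y := by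
  have h1 : ∀ i, |y i| ^ 6 ≤ N6 y := by
    intro i
    have h2 : |y i| ^ 6 = y i ^ 6 := by
      rw [← abs_pow]; exact abs_of_nonneg (by positivity)
    rw [h2]
    exact Finset.single_le_sum (f := fun i => y i ^ 6) (fun j _ => by positivity)
      (Finset.mem_univ i)
  have h0 := N6_nonneg y
  have h2 : ‖y‖ ≤ (N6 y) ^ (1 / 6 : ℝ) := by
    rw [pi_norm_le_iff_of_nonneg (by positivity)]
    intro i
    rw [Real.norm_eq_abs]
    have h3 : |y i| = (|y i| ^ 6) ^ (1 / 6 : ℝ) := by
      rw [← Real.rpow_natCast, ← Real.rpow_mul (abs_nonneg _)]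
      norm_num
    rw [h3]
    exact Real.rpow_le_rpow (by positivity) (h1 i) (by norm_num)
  calc ‖y‖ ^ 6 ≤ ((N6 y) ^ (1 / 6 : ℝ)) ^ 6 := pow_le_pow_left₀ (norm_nonneg _) h2 6
    _ = N6 y := by
      rw [← Real.rpow_natCast, ← Real.rpow_mul h0]
      norm_num

/-- the penalised function -/
noncomputable def Phi (L : PL n) (s : ℝ) (y : Fin n → ℝ) : ℝ := 6 * s * ev L y + N6 y

variable {L : PL n}

theorem continuous_Phi (s : ℝ) : Continuous (Phi L s) := by
  unfold Phi
  exact (continuous_const.mul (continuous_ev L)).add continuous_N6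

theorem exists_min (hL : ∀ y, 0 ≤ ev L y) {s : ℝ} (hs : 0 ≤ s) : ∃ y, ∀ z, Phi L s y ≤ Phi L s z := by
  apply (continuous_Phi s).exists_forall_le
  have h1 : Tendsto (fun y : Fin n → ℝ => ‖y‖ ^ 6) (cocompact _) atTop :=
    (tendsto_pow_atTop (by norm_num)).comp (tendsto_norm_cocompact_atTop)
  refine tendsto_atTop_mono (fun y => ?_) h1
  have h2 := norm_pow_le y
  have h3 := mul_nonneg (mul_nonneg (by norm_num : (0:ℝ) ≤ 6) hs) (hL y)
  unfold Phi
  linarith

/-- the critical equations at a minimizer -/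
theorem crit_of_min {s : ℝ} {y : Fin n → ℝ} (hy : ∀ z, Phi L s y ≤ Phi L s z) :
    Crit (fun i => pd i L) s y := by
  intro i
  have h1 : ∀ x : ℝ, N6 (Function.update y i x) = x ^ 6 + ∑ j ∈ univ.erase i, y j ^ 6 := by
    intro x
    unfold N6
    rw [← Finset.add_sum_erase _ _ (Finset.mem_univ i), Function.update_self]
    congr 1
    apply Finset.sum_congr rfl
    intro j hj
    rw [Function.update_of_ne (Finset.ne_of_mem_erase hj)]
  have h2 : HasDerivAt (fun x => Phi L s (Function.update y i x))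
      (6 * s * ev (pd i L) y + 6 * y i ^ 5) (y i) := by
    have h3 : HasDerivAt (fun x : ℝ => x ^ 6 + ∑ j ∈ univ.erase i, y j ^ 6) (6 * y i ^ 5) (y i) := by
      have := (hasDerivAt_pow 6 (y i)).add_const (∑ j ∈ univ.erase i, y j ^ 6)
      simpa using this
    have h4 := ((hasDerivAt_ev L y i).const_mul (6 * s)).add h3
    have h5 : (fun x => Phi L s (Function.update y i x)) =
        fun x => 6 * s * ev L (Function.update y i x) + (x ^ 6 + ∑ j ∈ univ.erase i, y j ^ 6) := by
      funext x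
      unfold Phi
      rw [h1]
    rw [h5]
    exact h4
  have h3 : IsLocalMin (fun x => Phi L s (Function.update y i x)) (y i) := by
    apply Filter.Eventually.of_forall
    intro x
    show Phi L s (Function.update y i (y i)) ≤ Phi L s (Function.update y i x)
    rw [Function.update_eq_self]
    exact hy _
  have h4 := h3.hasDerivAt_eq_zero h2
  show y i ^ 5 = -s * ev (pd i L) y
  linarith

/-- the value at a minimizer -/
theorem value_of_min {s : ℝ} {y : Fin n → ℝ} (hy : ∀ z, Phi L s y ≤ Phi L s z) :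
    Phi L s y = s * ev (eg L) y := by
  have hc := crit_of_min hy
  rw [ev_eg]
  unfold Phi
  have h1 : N6 y = -s * ∑ i, y i * ev (pd i L) y := by
    unfold N6
    rw [Finset.mul_sum]
    apply Finset.sum_congr rfl
    intro i _
    have h2 := hc i
    have h3 : y i ^ 6 = y i * y i ^ 5 := by ring
    rw [h3, h2]; ring
  rw [h1]; ring

/-- the eigenvector relation at a minimizer -/
theorem eig_of_min {M : Rx n → Rx n → ℤ[X]}
    (hM : ∀ s y, Crit (fun i => pd i L) s y → ∀ β, ev (eg L) y * mon (rex β) y =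
      ∑ α, evs s (M β α) * mon (rex α) y) {s : ℝ} {y : Fin n → ℝ}
    (hy : ∀ z, Phi L s y ≤ Phi L s z) : Eig M s (Phi L s y) y := by
  intro β
  rw [value_of_min hy, ← hM s y (crit_of_min hy) β]
  ring

/-- **Bounded case**: if there is a zero then the minimum values are small. -/
theorem bounded_case (hL : ∀ y, 0 ≤ ev L y) {M : Rx n → Rx n → ℤ[X]} {W : ℝ}
    (hW : ∀ β, ∑ α, pn nz (M β α) ≤ W)
    (hM : ∀ s y, Crit (fun i => pd i L) s y → ∀ β, ev (eg L) y * mon (rex β) y =
      ∑ α, evs s (M β α) * mon (rex α) y)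
    {z : Fin n → ℝ} (hz : ev L z = 0) (s : ℝ) :
    ∃ y, Phi L s y ≤ (1 + W) ^ (5 ^ n) := by
  have h1 : ∀ k : ℕ, ∃ y, ∀ z, Phi L ((k : ℝ) + 1) y ≤ Phi L ((k : ℝ) + 1) z := fun k =>
    exists_min hL (by positivity)
  choose Y hY using h1
  set τ : ℕ → ℝ := fun k => Phi L ((k : ℝ) + 1) (Y k) with hτ
  have hmonoS : ∀ (s s' : ℝ) (y : Fin n → ℝ), s ≤ s' → Phi L s y ≤ Phi L s' y := by
    intro s s' y hss
    unfold Phi
    have := mul_le_mul_of_nonneg_right (mul_le_mul_of_nonneg_left hss (by norm_num : (0:ℝ) ≤ 6))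
      (hL y)
    linarith
  have hmono : Monotone τ := by
    intro k l hkl
    have h2 : ((k : ℝ) + 1) ≤ (l : ℝ) + 1 := by
      have : (k : ℝ) ≤ l := by exact_mod_cast hkl
      linarith
    exact (hY k (Y l)).trans (hmonoS _ _ _ h2)
  have hbdd : BddAbove (Set.range τ) := by
    refine ⟨N6 z, ?_⟩
    rintro _ ⟨k, rfl⟩
    refine (hY k z).trans ?_
    unfold Phi
    rw [hz]; simp
  have hlim := tendsto_atTop_ciSup hmono hbdd
  have hle := L_le M hW hlim fun k => eig_of_min hM (hY k)
  obtain ⟨k, hk⟩ := exists_nat_ge s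
  refine ⟨Y k, ?_⟩
  calc Phi L s (Y k) ≤ Phi L ((k : ℝ) + 1) (Y k) := hmonoS _ _ _ (by linarith)
    _ ≤ ⨆ k, τ k := le_ciSup hbdd k
    _ ≤ _ := hle

/-- **Unbounded case**: if there is no zero then the values are large. -/
theorem unbounded_case (hL : ∀ y, 0 ≤ ev L y) {M : Rx n → Rx n → ℤ[X]} {W : ℝ}
    (hW : ∀ β, ∑ α, pn nz (M β α) ≤ W)
    (hM : ∀ s y, Crit (fun i => pd i L) s y → ∀ β, ev (eg L) y * mon (rex β) y =
      ∑ α, evs s (M β α) * mon (rex α) y)
    (hz : ∀ z : Fin n → ℝ, ev L z ≠ 0) {K : ℤ} (hK : 0 < K) {s : ℝ}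
    (hs : (nz K + W) ^ (5 ^ n) < s) (y : Fin n → ℝ) : (K : ℝ) ≤ Phi L s y := by
  by_contra hcon
  push Not at hcon
  have hs0 : 0 < s := by
    refine lt_of_le_of_lt ?_ hs
    have h1 : 0 ≤ W := le_trans (Finset.sum_nonneg fun α _ => pn_nonneg isNrm_nz _)
      (hW fun _ => 0)
    have h2 := nz_nonneg K
    positivity
  -- minimizers
  have hmin : ∀ t : ℝ, ∃ y, 0 ≤ t → ∀ z, Phi L t y ≤ Phi L t z := by
    intro t
    by_cases ht : 0 ≤ t
    · obtain ⟨y, hy⟩ := exists_min hL ht
      exact ⟨y, fun _ => hy⟩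
    · exact ⟨0, fun h => absurd h ht⟩
  choose Y hY using hmin
  set τ : ℝ → ℝ := fun t => Phi L t (Y t) with hτ
  have hmonoS : ∀ (s s' : ℝ) (y : Fin n → ℝ), s ≤ s' → Phi L s y ≤ Phi L s' y := by
    intro s s' y hss
    unfold Phi
    have := mul_le_mul_of_nonneg_right (mul_le_mul_of_nonneg_left hss (by norm_num : (0:ℝ) ≤ 6))
      (hL y)
    linarith
  have hmono : ∀ t t', 0 ≤ t → t ≤ t' → τ t ≤ τ t' := by
    intro t t' ht htt
    exact (hY t ht (Y t')).trans (hmonoS _ _ _ htt)
  have hτs : τ s < K := lt_of_le_of_lt (hY s hs0.le y) hcon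
  have hτ0 : ∀ t, 0 ≤ t → 0 ≤ τ t := by
    intro t ht
    show 0 ≤ Phi L t (Y t)
    unfold Phi
    have h1 := N6_nonneg (Y t)
    have h2 := mul_nonneg (mul_nonneg (by norm_num : (0:ℝ) ≤ 6) ht) (hL (Y t))
    linarith
  -- large values exist
  have hlarge : ∃ t, s ≤ t ∧ (K : ℝ) ≤ τ t := by
    by_contra hno
    push Not at hno
    have hcomp : IsCompact {z : Fin n → ℝ | N6 z ≤ K} := by
      apply Metric.isCompact_of_isClosed_isBounded
      · exact isClosed_le continuous_N6 continuous_const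
      · rw [isBounded_iff_forall_norm_le]
        refine ⟨max 1 K, fun z hz' => ?_⟩
        by_contra hc
        push Not at hc
        have h1 : 1 < ‖z‖ := lt_of_le_of_lt (le_max_left _ _) hc
        have h2 : (K : ℝ) < ‖z‖ := lt_of_le_of_lt (le_max_right _ _) hc
        have h3 : ‖z‖ ≤ ‖z‖ ^ 6 := le_self_pow₀ h1.le (by norm_num)
        have h4 := norm_pow_le z
        have h5 : N6 z ≤ K := hz'
        linarith
    have hne : ({z : Fin n → ℝ | N6 z ≤ K}).Nonempty := by
      refine ⟨0, ?_⟩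
      show N6 0 ≤ (K : ℝ)
      unfold N6
      simp
      exact_mod_cast hK.le
    obtain ⟨z₀, _, hz₀⟩ := hcomp.exists_isMinOn hne (continuous_ev L).continuousOn
    have hδ : 0 < ev L z₀ := lt_of_le_of_ne (hL z₀) (Ne.symm (hz z₀))
    set t := max s ((K : ℝ) / (6 * ev L z₀)) with ht
    have hst : s ≤ t := le_max_left _ _
    have ht0 : 0 < t := lt_of_lt_of_le hs0 hst
    have h1 := hno t hst
    have h2 : N6 (Y t) ≤ K := by
      have h3 : Phi L t (Y t) < K := h1
      unfold Phi at h3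
      have h4 := mul_nonneg (mul_nonneg (by norm_num : (0:ℝ) ≤ 6) ht0.le) (hL (Y t))
      linarith
    have h3 : ev L z₀ ≤ ev L (Y t) := hz₀ h2
    have h4 : (K : ℝ) / (6 * ev L z₀) ≤ t := le_max_right _ _
    rw [div_le_iff₀ (by positivity)] at h4
    have h5 : Phi L t (Y t) < K := h1
    unfold Phi at h5
    have h6 := N6_nonneg (Y t)
    have h7 : 6 * t * ev L z₀ ≤ 6 * t * ev L (Y t) :=
      mul_le_mul_of_nonneg_left h3 (by positivity)
    nlinarith
  obtain ⟨t, hst, hKt⟩ := hlarge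
  -- continuity
  have hlip : ∀ a b, s ≤ a → a ≤ b → b ≤ t → τ b - τ a ≤ τ t / s * (b - a) := by
    intro a b hsa hab hbt
    have ha0 : 0 < a := lt_of_lt_of_le hs0 hsa
    have h1 : τ b ≤ Phi L b (Y a) := hY b (ha0.le.trans hab) _
    have h2 : Phi L b (Y a) = τ a + 6 * (b - a) * ev L (Y a) := by
      show Phi L b (Y a) = Phi L a (Y a) + 6 * (b - a) * ev L (Y a)
      unfold Phi; ring
    have h3 : 6 * a * ev L (Y a) ≤ τ a := by
      show 6 * a * ev L (Y a) ≤ Phi L a (Y a)
      unfold Phi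
      have := N6_nonneg (Y a)
      linarith
    have h4 : τ a ≤ τ t := hmono a t ha0.le (hab.trans hbt)
    have h5 : 6 * ev L (Y a) ≤ τ t / s := by
      rw [le_div_iff₀ hs0]
      have h6 : 6 * ev L (Y a) * s ≤ 6 * ev L (Y a) * a :=
        mul_le_mul_of_nonneg_left hsa (mul_nonneg (by norm_num) (hL _))
      linarith
    have h7 : 6 * (b - a) * ev L (Y a) ≤ τ t / s * (b - a) := by
      have := mul_le_mul_of_nonneg_right h5 (sub_nonneg.2 hab)
      linarith
    linarith
  have hC : 0 ≤ τ t / s := div_nonneg (hτ0 t (hs0.le.trans hst)) hs0.le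
  have hcont : ContinuousOn τ (Set.Icc s t) := by
    have hl : LipschitzOnWith ⟨τ t / s, hC⟩ τ (Set.Icc s t) := by
      apply LipschitzOnWith.of_dist_le_mul
      intro a ha b hb
      rw [Real.dist_eq, Real.dist_eq]
      show |τ a - τ b| ≤ τ t / s * |a - b|
      rcases le_total a b with hab | hab
      · have h1 := hlip a b ha.1 hab hb.2
        have h2 := hmono a b (hs0.le.trans ha.1) hab
        rw [abs_of_nonpos (by linarith), abs_of_nonpos (by linarith)]
        linarith
      · have h1 := hlip b a hb.1 hab ha.2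
        have h2 := hmono b a (hs0.le.trans hb.1) hab
        rw [abs_of_nonneg (by linarith), abs_of_nonneg (by linarith)]
        exact h1
    exact hl.continuousOn
  obtain ⟨r, hr, hrK⟩ := intermediate_value_Icc hst hcont ⟨hτs.le, hKt⟩
  have hr0 : 0 < r := lt_of_lt_of_le hs0 hr.1
  have hE : Eig M r (K : ℝ) (Y r) := by
    rw [← hrK]
    exact eig_of_min hM (hY r hr0.le)
  have := s_le M hW hK.ne' hE
  linarith [hr.1]

end Pool.Agent.CRt.Gap
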