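import Pool.Agent.CRt.Arith
import Pool.Agent.CRt.GapMin

/-!
# The gap theorem for systems of gates
-/

set_option autoImplicit false

namespace Pool.Agent.CRt

namespace Gap

open Polynomial

variable {n : ℕ}

/-- the variable with index `i` as a polynomial -/
def V (n i : ℕ) : PL n :=
  if h : 0 < i ∧ i ≤ n then [(1, Pi.single ⟨i - 1, by omega⟩ 1)] else [(1, 0)]

/-- the sequence of values -/
def ext (y : Fin n → ℝ) (i : ℕ) : ℝ := if h : 0 < i ∧ i ≤ n then y ⟨i - 1, by omega⟩ else 1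

theorem ev_V (y : Fin n → ℝ) (i : ℕ) : ev (V n i) y = ext y i := by
  unfold V ext ev
  split_ifs with h
  · simp only [List.map_cons, List.map_nil, List.sum_cons, List.sum_nil, add_zero, Int.cast_one,
      one_mul]
    unfold mon
    rw [Finset.prod_eq_single (⟨i - 1, by omega⟩ : Fin n)]
    · rw [Pi.single_eq_same, pow_one]
    · intro j _ hj
      rw [Pi.single_eq_of_ne hj, pow_zero]
    · intro h'; exact absurd (Finset.mem_univ _) h'
  · simp [mon]

theorem nrm_V (i : ℕ) : nrm (V n i) = 1 := by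
  unfold V nrm nz
  split_ifs <;> simp

theorem degLe_V (i : ℕ) : DegLe (V n i) 1 := by
  intro t ht
  unfold V at ht
  split_ifs at ht with h
  · rw [List.mem_singleton] at ht
    subst ht
    unfold deg
    rw [Finset.sum_eq_single (⟨i - 1, by omega⟩ : Fin n)]
    · simp
    · intro j _ hj
      exact Pi.single_eq_of_ne hj _
    · intro h'; exact absurd (Finset.mem_univ _) h'
  · rw [List.mem_singleton] at ht
    subst ht
    simp [deg]

/-- negation -/
def neg (L : PL n) : PL n := L.map fun t => (-t.1, t.2)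

theorem ev_neg (L : PL n) (y : Fin n → ℝ) : ev (neg L) y = -ev L y := by
  induction L with
  | nil => simp [neg, ev]
  | cons t L ih =>
    have h1 : ev (t :: L) y = (t.1 : ℝ) * mon t.2 y + ev L y := by
      unfold ev; rw [List.map_cons, List.sum_cons]
    have h2 : ev (neg (t :: L)) y = ((-t.1 : ℤ) : ℝ) * mon t.2 y + ev (neg L) y := by
      unfold ev neg; rw [List.map_cons, List.map_cons, List.sum_cons]
    rw [h1, h2, ih]; push_cast; ring

theorem nrm_neg (L : PL n) : nrm (neg L) = nrm L := by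
  unfold nrm neg
  rw [List.map_map]
  congr 1
  apply List.map_congr_left
  intro t _
  simp only [Function.comp]
  exact isNrm_nz.neg _

theorem degLe_neg {L : PL n} {d : ℕ} (h : DegLe L d) : DegLe (neg L) d := by
  intro t ht
  unfold neg at ht
  rw [List.mem_map] at ht
  obtain ⟨u, hu, rfl⟩ := ht
  exact h u hu

theorem ev_append (A B : PL n) (y : Fin n → ℝ) : ev (A ++ B) y = ev A y + ev B y := by
  unfold ev; rw [List.map_append, List.sum_append]

theorem nrm_append (A B : PL n) : nrm (A ++ B) = nrm A + nrm B := by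
  unfold nrm; rw [List.map_append, List.sum_append]

theorem degLe_append {A B : PL n} {d : ℕ} (hA : DegLe A d) (hB : DegLe B d) :
    DegLe (A ++ B) d := by
  intro t ht
  rcases List.mem_append.1 ht with h | h
  · exact hA t h
  · exact hB t h

theorem DegLe.mono {L : PL n} {d d' : ℕ} (h : DegLe L d) (hd : d ≤ d') : DegLe L d' :=
  fun t ht => (h t ht).trans hd

/-- the residual as a polynomial -/
def rg (n : ℕ) (g : Gate) : PL n :=
  (if g.1 then pmul (V n g.2.1) (V n g.2.2.1) else V n g.2.1 ++ V n g.2.2.1) ++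
    neg (V n g.2.2.2)

theorem ev_rg (g : Gate) (y : Fin n → ℝ) : ev (rg n g) y = resG (ext y) g := by
  unfold rg resG
  rw [ev_append, ev_neg, ev_V]
  split_ifs
  · rw [ev_pmul, ev_V, ev_V]; ring
  · rw [ev_append, ev_V, ev_V]; ring

theorem nrm_rg (g : Gate) : nrm (rg n g) ≤ 3 := by
  unfold rg
  rw [nrm_append, nrm_neg, nrm_V]
  split_ifs
  · rw [nrm_pmul, nrm_V, nrm_V]; norm_num
  · rw [nrm_append, nrm_V, nrm_V]; norm_num

theorem degLe_rg (g : Gate) : DegLe (rg n g) 2 := by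
  unfold rg
  apply degLe_append
  · split_ifs
    · exact degLe_pmul (degLe_V _) (degLe_V _)
    · exact degLe_append ((degLe_V _).mono (by norm_num)) ((degLe_V _).mono (by norm_num))
  · exact degLe_neg ((degLe_V _).mono (by norm_num))

/-- the sum of the squares of the residuals as a polynomial -/
def fl (n : ℕ) (G : List Gate) : PL n := G.flatMap fun g => pmul (rg n g) (rg n g)

theorem ev_fl (G : List Gate) (y : Fin n → ℝ) : ev (fl n G) y = FF G (ext y) := by
  unfold fl FF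
  induction G with
  | nil => simp [ev]
  | cons g G ih =>
    rw [List.flatMap_cons, ev_append, ih, List.map_cons, List.sum_cons, ev_pmul, ev_rg]
    ring

theorem nrm_fl (G : List Gate) : nrm (fl n G) ≤ 9 * G.length := by
  unfold fl
  induction G with
  | nil => simp [nrm]
  | cons g G ih =>
    rw [List.flatMap_cons, nrm_append, nrm_pmul, List.length_cons]
    have h1 := nrm_rg (n := n) g
    have h2 := nrm_nonneg (rg n g)
    have h3 : nrm (rg n g) * nrm (rg n g) ≤ 9 := by nlinarith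
    push_cast
    linarith

theorem degLe_fl (G : List Gate) : DegLe (fl n G) 4 := by
  intro t ht
  unfold fl at ht
  rw [List.mem_flatMap] at ht
  obtain ⟨g, _, ht⟩ := ht
  exact degLe_pmul (degLe_rg g) (degLe_rg g) t ht

theorem ext_zero (y : Fin n → ℝ) : ext y 0 = 1 := by
  unfold ext; rw [dif_neg (by omega)]

theorem NN_ext (y : Fin n → ℝ) : NN n (ext y) = N6 y := by
  unfold NN N6
  rw [Finset.sum_range]
  apply Finset.sum_congr rfl
  intro i _
  have : ext y ((i : ℕ) + 1) = y i := by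
    unfold ext
    rw [dif_pos ⟨by omega, i.2⟩]
    congr 1
  rw [this]

/-- restriction of a sequence -/
def rst (n : ℕ) (y : ℕ → ℝ) : Fin n → ℝ := fun i => y (i + 1)

theorem ext_rst {y : ℕ → ℝ} (h0 : y 0 = 1) {i : ℕ} (hi : i ≤ n) : ext (rst n y) i = y i := by
  unfold ext rst
  split_ifs with h
  · simp only
    congr 1
    omega
  · have : i = 0 := by omega
    rw [this, h0]

theorem resG_rst {y : ℕ → ℝ} (h0 : y 0 = 1) {g : Gate}
    (hg : g.2.1 ≤ n ∧ g.2.2.1 ≤ n ∧ g.2.2.2 ≤ n) : resG (ext (rst n y)) g = resG y g := by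
  unfold resG
  rw [ext_rst h0 hg.1, ext_rst h0 hg.2.1, ext_rst h0 hg.2.2]

theorem FF_rst {y : ℕ → ℝ} (h0 : y 0 = 1) {G : List Gate} (hG : GValid n G) :
    FF G (ext (rst n y)) = FF G y := by
  unfold FF
  congr 1
  apply List.map_congr_left
  intro g hg
  rw [resG_rst h0 (hG g hg)]

theorem NN_rst {y : ℕ → ℝ} : N6 (rst n y) = NN n y := by
  unfold NN N6 rst
  rw [Finset.sum_range]

theorem FF_nonneg (G : List Gate) (y : ℕ → ℝ) : 0 ≤ FF G y := by
  unfold FF
  apply List.sum_nonneg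
  intro x hx
  rw [List.mem_map] at hx
  obtain ⟨g, _, rfl⟩ := hx
  positivity

theorem FF_eq_zero (G : List Gate) (y : ℕ → ℝ) : FF G y = 0 ↔ ∀ g ∈ G, resG y g = 0 := by
  unfold FF
  induction G with
  | nil => simp
  | cons g G ih =>
    have h1 : 0 ≤ (G.map fun g => resG y g ^ 2).sum := FF_nonneg G y
    rw [List.map_cons, List.sum_cons]
    constructor
    · intro h
      have h2 : resG y g ^ 2 = 0 := by nlinarith [sq_nonneg (resG y g)]
      have h3 : (G.map fun g => resG y g ^ 2).sum = 0 := by nlinarith [sq_nonneg (resG y g)]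
      intro g' hg'
      rcases List.mem_cons.1 hg' with rfl | h4
      · exact pow_eq_zero_iff (n := 2) (by norm_num) |>.1 h2
      · exact ih.1 h3 g' h4
    · intro h
      rw [h g List.mem_cons_self, ih.2 fun g' hg' => h g' (List.mem_cons_of_mem _ hg')]
      simp

/-! ### Sizes -/

theorem nat_le_two_pow (m : ℕ) : (m : ℝ) + 1 ≤ 2 ^ m := by
  have : m + 1 ≤ 2 ^ m := Nat.lt_two_pow_self
  exact_mod_cast this

/-- the bound for the row norms -/
theorem W_le (n m : ℕ) : 1 + (54 * m) * (36 * (m : ℝ) + 1) ^ (4 * n + 4) ≤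
    2 ^ ((m + 7) * (4 * n + 5)) := by
  have h0 : (0 : ℝ) ≤ m := Nat.cast_nonneg _
  have h1 := nat_le_two_pow m
  have h2 : 36 * (m : ℝ) + 1 ≤ 2 ^ (m + 7) := by
    rw [pow_add]; norm_num; linarith
  have h3 : 54 * (m : ℝ) + 1 ≤ 2 ^ (m + 7) := by
    rw [pow_add]; norm_num; linarith
  have h4 : (1 : ℝ) ≤ (36 * (m : ℝ) + 1) ^ (4 * n + 4) := one_le_pow₀ (by linarith)
  calc 1 + (54 * m) * (36 * (m : ℝ) + 1) ^ (4 * n + 4)
      ≤ (54 * m + 1) * (36 * (m : ℝ) + 1) ^ (4 * n + 4) := by linarith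
    _ ≤ 2 ^ (m + 7) * (2 ^ (m + 7)) ^ (4 * n + 4) := by
        apply mul_le_mul h3 (pow_le_pow_left₀ (by linarith) h2 _) (by positivity) (by positivity)
    _ = 2 ^ ((m + 7) * (4 * n + 5)) := by
        rw [← pow_mul, ← pow_add]; congr 1; ring

theorem exp_le (n m : ℕ) : (m + 7) * (4 * n + 5) * 5 ^ n ≤ 2 ^ (4 * n + m + 6) := by
  have h1 : m + 7 ≤ 2 ^ (m + 3) := by
    have : m + 1 ≤ 2 ^ m := Nat.lt_two_pow_self
    rw [pow_add]; norm_num; omega
  have h2 : 4 * n + 5 ≤ 2 ^ (n + 3) := by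
    have : n + 1 ≤ 2 ^ n := Nat.lt_two_pow_self
    rw [pow_add]; norm_num; omega
  have h3 : 5 ^ n ≤ 2 ^ (3 * n) := by
    rw [pow_mul]; exact Nat.pow_le_pow_left (by norm_num) n
  calc (m + 7) * (4 * n + 5) * 5 ^ n ≤ 2 ^ (m + 3) * 2 ^ (n + 3) * 2 ^ (3 * n) :=
        Nat.mul_le_mul (Nat.mul_le_mul h1 h2) h3
    _ = 2 ^ (4 * n + m + 6) := by rw [← pow_add, ← pow_add]; congr 1; ring

theorem RR_eq (n m : ℕ) : RR n m = 2 ^ 2 ^ (pp n m + 1) := by
  unfold RR
  have : (4 : ℝ) = 2 ^ 2 := by norm_num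
  rw [this, ← pow_mul]
  congr 1
  rw [pow_succ]; ring

theorem size1 {n m : ℕ} {W : ℝ} (hW0 : 0 ≤ W)
    (hW : 1 + W ≤ 2 ^ ((m + 7) * (4 * n + 5))) : (1 + W) ^ (5 ^ n) < RR n m := by
  rw [RR_eq]
  calc (1 + W) ^ (5 ^ n) ≤ (2 ^ ((m + 7) * (4 * n + 5))) ^ (5 ^ n) :=
        pow_le_pow_left₀ (by linarith) hW _
    _ = 2 ^ ((m + 7) * (4 * n + 5) * 5 ^ n) := by rw [← pow_mul]
    _ < 2 ^ 2 ^ (pp n m + 1) := by
        apply pow_lt_pow_right₀ (by norm_num)
        refine lt_of_le_of_lt (exp_le n m) ?_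
        apply Nat.pow_lt_pow_right (by norm_num)
        unfold pp; omega

theorem size2 {n m : ℕ} {W : ℝ} (hW0 : 0 ≤ W) (hW : W < RR n m) :
    (RR n m + W) ^ (5 ^ n) < SS n m / 6 := by
  have hR : RR n m = 2 ^ 2 ^ (pp n m + 1) := RR_eq n m
  have hR0 : 0 < RR n m := by rw [hR]; positivity
  have hR2 : 2 ≤ RR n m := by
    rw [hR]
    calc (2 : ℝ) = 2 ^ 1 := by norm_num
      _ ≤ 2 ^ 2 ^ (pp n m + 1) := pow_le_pow_right₀ (by norm_num) Nat.one_le_two_pow
  have h1 : (RR n m + W) ^ (5 ^ n) ≤ 2 ^ 2 ^ (8 * n + m + 15) := by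
    calc (RR n m + W) ^ (5 ^ n) ≤ (2 * RR n m) ^ (5 ^ n) :=
          pow_le_pow_left₀ (by linarith) (by linarith) _
      _ = 2 ^ ((2 ^ (pp n m + 1) + 1) * 5 ^ n) := by
          rw [hR, ← pow_succ', ← pow_mul]
      _ ≤ 2 ^ 2 ^ (8 * n + m + 15) := by
          apply pow_le_pow_right₀ (by norm_num)
          have h3 : 5 ^ n ≤ 2 ^ (3 * n) := by
            rw [pow_mul]; exact Nat.pow_le_pow_left (by norm_num) n
          have h4 : 2 ^ (pp n m + 1) + 1 ≤ 2 ^ (pp n m + 2) := by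
            have : 1 ≤ 2 ^ (pp n m + 1) := Nat.one_le_two_pow
            rw [pow_succ _ (pp n m + 1)]; omega
          calc (2 ^ (pp n m + 1) + 1) * 5 ^ n ≤ 2 ^ (pp n m + 2) * 2 ^ (3 * n) :=
                Nat.mul_le_mul h4 h3
            _ = 2 ^ (pp n m + 2 + 3 * n) := by rw [← pow_add]
            _ ≤ 2 ^ (8 * n + m + 15) := by
                apply Nat.pow_le_pow_right (by norm_num)
                unfold pp; omega
  have h2 : (2 : ℝ) ^ 2 ^ (8 * n + m + 15) < 4 ^ 2 ^ qq n m := by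
    have h3 : (4 : ℝ) = 2 ^ 2 := by norm_num
    rw [h3, ← pow_mul]
    apply pow_lt_pow_right₀ (by norm_num)
    calc 2 ^ (8 * n + m + 15) < 2 ^ (qq n m + 1) := by
          apply Nat.pow_lt_pow_right (by norm_num)
          unfold qq; omega
      _ = 2 * 2 ^ qq n m := by rw [pow_succ]; ring
  have h3 : (4 : ℝ) ^ 2 ^ qq n m ≤ SS n m / 6 := by
    unfold SS
    have h4 : (0 : ℝ) < 4 ^ 2 ^ qq n m := by positivity
    have h5 : 6 ≤ 4 * RR n m ^ 2 := by nlinarith
    rw [le_div_iff₀ (by norm_num)]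
    nlinarith
  linarith

end Gap

open Gap in
/-- **Gap theorem.** -/
theorem gap {n : ℕ} {G : List Gate} (hG : GValid n G) :
    GateSat G ↔ ∃ y : ℕ → ℝ, y 0 = 1 ∧ SS n G.length * FF G y + NN n y < RR n G.length := by
  set m := G.length with hm
  set L : PL n := fl n G with hL
  have hLnn : ∀ y, 0 ≤ ev L y := fun y => by rw [ev_fl]; exact FF_nonneg _ _
  -- the matrix
  have hnrm : nrm L ≤ 9 * m := nrm_fl G
  have hdeg : DegLe L 4 := degLe_fl G
  have hc : ∀ i, nrm (pd i L) ≤ 36 * (m : ℝ) + 1 := by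
    intro i
    have h1 := nrm_pd hdeg i
    push_cast at h1
    linarith
  have hm0 : (0 : ℝ) ≤ m := Nat.cast_nonneg _
  have hc1 : (1 : ℝ) ≤ 36 * (m : ℝ) + 1 := by linarith
  obtain ⟨M, hM1, hM2⟩ := exists_matrix (fun i => pd i L) (eg L) (fun i => degLe_pd hdeg i) hc hc1
    (degLe_eg hdeg)
  set W : ℝ := (54 * m) * (36 * (m : ℝ) + 1) ^ (4 * n + 4) with hW
  have hW0 : 0 ≤ W := by positivity
  have hMW : ∀ β, ∑ α, pn nz (M β α) ≤ W := by
    intro β
    refine (hM1 β).trans ?_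
    have h1 : nrm (eg L) ≤ 54 * m := by
      have := nrm_eg hdeg
      linarith
    exact mul_le_mul_of_nonneg_right h1 (by positivity)
  have hWle : 1 + W ≤ 2 ^ ((m + 7) * (4 * n + 5)) := W_le n m
  have hs1 : (1 + W) ^ (5 ^ n) < RR n m := size1 hW0 hWle
  have hWR : W < RR n m := by
    have h1 : 1 + W ≤ (1 + W) ^ (5 ^ n) :=
      le_self_pow₀ (by linarith) (pow_ne_zero _ (by norm_num))
    linarith
  have hs2 := size2 hW0 hWR
  constructor
  · rintro ⟨y, hy0, hy⟩
    have hz : ev L (rst n y) = 0 := by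
      rw [ev_fl, FF_rst hy0 hG]
      exact (FF_eq_zero G y).2 hy
    obtain ⟨w, hw⟩ := bounded_case hLnn hMW hM2 hz (SS n m / 6)
    refine ⟨ext w, ext_zero w, ?_⟩
    have h1 : SS n m * FF G (ext w) + NN n (ext w) = Phi L (SS n m / 6) w := by
      unfold Phi
      rw [NN_ext, ev_fl]; ring
    rw [h1]
    exact lt_of_le_of_lt hw hs1
  · rintro ⟨y, hy0, hy⟩
    by_contra hno
    have hz : ∀ z : Fin n → ℝ, ev L z ≠ 0 := by
      intro z hz
      rw [ev_fl] at hz
      exact hno ⟨ext z, ext_zero z, (FF_eq_zero G _).1 hz⟩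
    have hK : (0 : ℤ) < 4 ^ 2 ^ pp n m := by positivity
    have hKR : ((4 ^ 2 ^ pp n m : ℤ) : ℝ) = RR n m := by unfold RR; push_cast; rfl
    have hKn : nz (4 ^ 2 ^ pp n m) = RR n m := by
      unfold nz
      rw [hKR, abs_of_nonneg]
      unfold RR; positivity
    have h1 := unbounded_case hLnn hMW hM2 hz hK (s := SS n m / 6) (by rw [hKn]; exact hs2)
      (rst n y)
    rw [hKR] at h1
    have h2 : Phi L (SS n m / 6) (rst n y) = SS n m * FF G y + NN n y := by
      unfold Phi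
      rw [NN_rst, ev_fl, FF_rst hy0 hG]; ring
    rw [h2] at h1
    linarith

end Pool.Agent.CRt
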