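import Pool.Agent.CRt.GapRed

/-!
# The resultant-like determinant of the gap theorem
-/

set_option autoImplicit false

namespace Pool.Agent.CRt.Gap

open Polynomial Finset Filter Topology

variable {n : ℕ}

theorem mon_zero (y : Fin n → ℝ) : mon (rex (fun _ => 0 : Rx n)) y = 1 := by
  unfold mon rex; simp

/-- the eigenvector relation -/
def Eig (M : Rx n → Rx n → ℤ[X]) (s τ : ℝ) (y : Fin n → ℝ) : Prop :=
  ∀ β, τ * mon (rex β) y = s * ∑ α, evs s (M β α) * mon (rex α) y

theorem card_Rx : Fintype.card (Rx n) = 5 ^ n := by simp [Rx]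

/-- evaluation as a ring homomorphism -/
noncomputable def evh (s : ℝ) : ℤ[X] →+* ℝ := eval₂RingHom (Int.castRingHom ℝ) s

theorem evh_apply (s : ℝ) (p : ℤ[X]) : evh s p = evs s p := rfl

/-- the real matrix -/
noncomputable def RM (M : Rx n → Rx n → ℤ[X]) (s τ : ℝ) : Matrix (Rx n) (Rx n) ℝ :=
  Matrix.of fun β α => (if β = α then τ else 0) - s * evs s (M β α)

theorem RM_apply (M : Rx n → Rx n → ℤ[X]) (s τ : ℝ) (β α : Rx n) :
    RM M s τ β α = (if β = α then τ else 0) - s * evs s (M β α) := rfl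

theorem RM_zero (M : Rx n → Rx n → ℤ[X]) (τ : ℝ) : (RM M 0 τ).det = τ ^ (5 ^ n) := by
  have h2 : RM M 0 τ = Matrix.diagonal fun _ => τ := by
    ext β α
    rw [RM_apply, Matrix.diagonal_apply, zero_mul, sub_zero]
  rw [h2, Matrix.det_diagonal, Finset.prod_const, Finset.card_univ, card_Rx]

theorem RM_det (M : Rx n → Rx n → ℤ[X]) {s τ : ℝ} {y : Fin n → ℝ} (h : Eig M s τ y) :
    (RM M s τ).det = 0 := by
  rw [← Matrix.exists_mulVec_eq_zero_iff]
  refine ⟨fun α => mon (rex α) y, ?_, ?_⟩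
  · intro h0
    have := congrFun h0 (fun _ => 0)
    simp only [Pi.zero_apply] at this
    rw [mon_zero] at this
    exact one_ne_zero this
  · ext β
    simp only [Matrix.mulVec, dotProduct, Pi.zero_apply, RM_apply]
    have h1 := h β
    have h2 : ∀ α, ((if β = α then τ else 0) - s * evs s (M β α)) * mon (rex α) y =
        (if β = α then τ * mon (rex α) y else 0) - s * (evs s (M β α) * mon (rex α) y) := by
      intro α
      split_ifs <;> ring
    rw [Finset.sum_congr rfl fun α _ => h2 α, Finset.sum_sub_distrib,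
      Finset.sum_ite_eq Finset.univ β, if_pos (Finset.mem_univ _), ← Finset.mul_sum, h1]
    ring

section fixedK

/-- the matrix for a fixed integer value -/
noncomputable def BM (M : Rx n → Rx n → ℤ[X]) (K : ℤ) : Matrix (Rx n) (Rx n) ℤ[X] :=
  Matrix.of fun β α => (if β = α then C K else 0) - X * M β α

theorem BM_apply (M : Rx n → Rx n → ℤ[X]) (K : ℤ) (β α : Rx n) :
    BM M K β α = (if β = α then C K else 0) - X * M β α := rfl

theorem pn_BM (M : Rx n → Rx n → ℤ[X]) {W : ℝ} (hW : ∀ β, ∑ α, pn nz (M β α) ≤ W) (K : ℤ) :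
    pn nz (BM M K).det ≤ (nz K + W) ^ (5 ^ n) := by
  rw [← card_Rx]
  apply (isNrm_pn isNrm_nz).det
  intro β
  have h1 : ∀ α, pn nz (BM M K β α) ≤ (if β = α then nz K else 0) + pn nz (M β α) := by
    intro α
    rw [BM_apply, sub_eq_add_neg]
    refine (pn_add isNrm_nz _ _).trans ?_
    rw [pn_neg isNrm_nz]
    apply add_le_add
    · split_ifs
      · exact (pn_C isNrm_nz K).le
      · exact pn_zero.le
    · refine (pn_mul isNrm_nz _ _).trans ?_
      have h6 := pn_X isNrm_nz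
      have h7 := pn_nonneg isNrm_nz (M β α)
      nlinarith
  refine (Finset.sum_le_sum fun α _ => h1 α).trans ?_
  rw [Finset.sum_add_distrib, Finset.sum_ite_eq Finset.univ β, if_pos (Finset.mem_univ _)]
  have := hW β
  linarith

theorem evh_BM (M : Rx n → Rx n → ℤ[X]) (K : ℤ) (s : ℝ) :
    evh s (BM M K).det = (RM M s K).det := by
  rw [RingHom.map_det]
  congr 1
  ext β α
  rw [RingHom.mapMatrix_apply, Matrix.map_apply, BM_apply, RM_apply, map_sub, map_mul]
  congr 1
  · split_ifs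
    · exact evs_C s K
    · exact map_zero _
  · rw [evh_apply, evh_apply, evs_X]

theorem BM_ne_zero (M : Rx n → Rx n → ℤ[X]) {K : ℤ} (hK : K ≠ 0) : (BM M K).det ≠ 0 := by
  intro h
  have h1 := evh_BM M K 0
  rw [h, map_zero, RM_zero] at h1
  exact pow_ne_zero _ (Int.cast_ne_zero.2 hK) h1.symm

theorem BM_root (M : Rx n → Rx n → ℤ[X]) (K : ℤ) {s : ℝ} {y : Fin n → ℝ} (h : Eig M s K y) :
    evs s (BM M K).det = 0 := by
  rw [← evh_apply, evh_BM]
  exact RM_det M h

/-- If the value `K ≥ 1` is taken at `s`, then `s` is small. -/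
theorem s_le (M : Rx n → Rx n → ℤ[X]) {W : ℝ} (hW : ∀ β, ∑ α, pn nz (M β α) ≤ W) {K : ℤ}
    (hK : K ≠ 0) {s : ℝ} {y : Fin n → ℝ} (h : Eig M s K y) : s ≤ (nz K + W) ^ (5 ^ n) := by
  by_contra hcon
  push Not at hcon
  exact no_root (BM_ne_zero M hK) (lt_of_le_of_lt (pn_BM M hW K) hcon) (BM_root M K h)

end fixedK

section limit

/-- evaluation of bivariate polynomials: the outer variable is `s`, the inner one is `τ` -/
noncomputable def ev2 (s τ : ℝ) : ℤ[X][X] →+* ℝ := eval₂RingHom (evh τ) s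

/-- the matrix with the value as a variable -/
noncomputable def AM (M : Rx n → Rx n → ℤ[X]) : Matrix (Rx n) (Rx n) ℤ[X][X] :=
  Matrix.of fun β α => (if β = α then C X else 0) - X * (M β α).map C

theorem AM_apply (M : Rx n → Rx n → ℤ[X]) (β α : Rx n) :
    AM M β α = (if β = α then C X else 0) - X * (M β α).map C := rfl

theorem pn_map_C (p : ℤ[X]) : pn (pn nz) (p.map C) = pn nz p := by
  have h1 : (p.map C : ℤ[X][X]).natDegree < p.natDegree + 1 := by
    have := natDegree_map_le (f := (C : ℤ →+* ℤ[X])) (p := p)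
    omega
  rw [pn_eq (isNrm_pn isNrm_nz) _ h1, pn_eq isNrm_nz p (n := p.natDegree + 1) (by omega)]
  apply Finset.sum_congr rfl
  intro i _
  rw [coeff_map, pn_C isNrm_nz]

theorem pn_AM (M : Rx n → Rx n → ℤ[X]) {W : ℝ} (hW : ∀ β, ∑ α, pn nz (M β α) ≤ W) :
    pn (pn nz) (AM M).det ≤ (1 + W) ^ (5 ^ n) := by
  have hn2 := isNrm_pn isNrm_nz
  rw [← card_Rx]
  apply (isNrm_pn hn2).det
  intro β
  have h1 : ∀ α, pn (pn nz) (AM M β α) ≤ (if β = α then 1 else 0) + pn nz (M β α) := by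
    intro α
    rw [AM_apply, sub_eq_add_neg]
    refine (pn_add hn2 _ _).trans ?_
    rw [pn_neg hn2]
    apply add_le_add
    · split_ifs
      · rw [pn_C hn2]; exact pn_X isNrm_nz
      · exact pn_zero.le
    · refine (pn_mul hn2 _ _).trans ?_
      rw [pn_map_C]
      have h6 := pn_X hn2
      have h7 := pn_nonneg isNrm_nz (M β α)
      nlinarith
  refine (Finset.sum_le_sum fun α _ => h1 α).trans ?_
  rw [Finset.sum_add_distrib, Finset.sum_ite_eq Finset.univ β, if_pos (Finset.mem_univ _)]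
  have := hW β
  linarith

theorem ev2_AM (M : Rx n → Rx n → ℤ[X]) (s τ : ℝ) :
    ev2 s τ (AM M).det = (RM M s τ).det := by
  rw [RingHom.map_det]
  congr 1
  ext β α
  rw [RingHom.mapMatrix_apply, Matrix.map_apply, AM_apply, RM_apply, map_sub, map_mul]
  congr 1
  · split_ifs
    · show eval₂ (evh τ) s (C X) = τ
      rw [eval₂_C]; exact evs_X τ
    · exact map_zero _
  · have h1 : ev2 s τ X = s := by show eval₂ (evh τ) s X = s; rw [eval₂_X]
    have h2 : ev2 s τ ((M β α).map C) = evs s (M β α) := by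
      show eval₂ (evh τ) s ((M β α).map C) = evs s (M β α)
      rw [eval₂_map]
      unfold evs
      have h3 : (evh τ).comp C = Int.castRingHom ℝ := RingHom.ext_int _ _
      rw [h3]
    rw [h1, h2]

theorem AM_ne_zero (M : Rx n → Rx n → ℤ[X]) : (AM M).det ≠ 0 := by
  intro h
  have h1 := ev2_AM M 0 1
  rw [h, map_zero, RM_zero, one_pow] at h1
  exact one_ne_zero h1.symm

theorem AM_root (M : Rx n → Rx n → ℤ[X]) {s τ : ℝ} {y : Fin n → ℝ} (h : Eig M s τ y) :
    ev2 s τ (AM M).det = 0 := by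
  rw [ev2_AM]
  exact RM_det M h

/-- The limit of the values is a root of the leading coefficient. -/
theorem lim_root {P : ℤ[X][X]} {τ : ℕ → ℝ} {L : ℝ} (hτ : Tendsto τ atTop (𝓝 L))
    (h : ∀ k : ℕ, ev2 ((k : ℝ) + 1) (τ k) P = 0) : evs L P.leadingCoeff = 0 := by
  set J := P.natDegree with hJ
  have hcont : ∀ p : ℤ[X], Tendsto (fun k => evs (τ k) p) atTop (𝓝 (evs L p)) := by
    intro p
    have hc : Continuous fun x : ℝ => evs x p := p.continuous_eval₂ (Int.castRingHom ℝ)
    exact (hc.tendsto L).comp hτ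
  -- the relation
  have hrel : ∀ k : ℕ, evs (τ k) (P.coeff J) =
      -∑ j ∈ range J, evs (τ k) (P.coeff j) * (1 / ((k : ℝ) + 1)) ^ (J - j) := by
    intro k
    have hs : (0 : ℝ) < (k : ℝ) + 1 := by positivity
    have h1 := h k
    have h2 : ev2 ((k : ℝ) + 1) (τ k) P =
        ∑ j ∈ range J, evs (τ k) (P.coeff j) * ((k : ℝ) + 1) ^ j +
          evs (τ k) (P.coeff J) * ((k : ℝ) + 1) ^ J := by
      show eval₂ (evh (τ k)) ((k : ℝ) + 1) P = _
      rw [eval₂_eq_sum_range, Finset.sum_range_succ]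
      rfl
    rw [h2] at h1
    have h3 : ∑ j ∈ range J, evs (τ k) (P.coeff j) * ((k : ℝ) + 1) ^ j =
        (∑ j ∈ range J, evs (τ k) (P.coeff j) * (1 / ((k : ℝ) + 1)) ^ (J - j)) *
          ((k : ℝ) + 1) ^ J := by
      rw [Finset.sum_mul]
      apply Finset.sum_congr rfl
      intro j hj
      rw [Finset.mem_range] at hj
      have : ((k : ℝ) + 1) ^ J = ((k : ℝ) + 1) ^ (J - j) * ((k : ℝ) + 1) ^ j := by
        rw [← pow_add]; congr 1; omega
      rw [this, one_div, inv_pow]
      field_simp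
    rw [h3, ← add_mul] at h1
    have h4 := (mul_eq_zero.1 h1).resolve_right (pow_pos hs J).ne'
    linarith
  have hlim : Tendsto (fun k : ℕ => -∑ j ∈ range J, evs (τ k) (P.coeff j) *
      (1 / ((k : ℝ) + 1)) ^ (J - j)) atTop (𝓝 0) := by
    have h0 : Tendsto (fun k : ℕ => ∑ j ∈ range J, evs (τ k) (P.coeff j) *
        (1 / ((k : ℝ) + 1)) ^ (J - j)) atTop (𝓝 (∑ j ∈ range J, evs L (P.coeff j) * 0)) := by
      apply tendsto_finsetSum
      intro j hj
      rw [Finset.mem_range] at hj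
      apply (hcont _).mul
      have h1 : Tendsto (fun k : ℕ => (1 / ((k : ℝ) + 1)) ^ (J - j)) atTop (𝓝 (0 ^ (J - j))) :=
        (tendsto_one_div_add_atTop_nhds_zero_nat).pow _
      rwa [zero_pow (by omega)] at h1
    simp only [mul_zero, Finset.sum_const_zero] at h0
    simpa using h0.neg
  have h5 : Tendsto (fun k => evs (τ k) (P.coeff J)) atTop (𝓝 0) := by
    refine hlim.congr fun k => ?_
    exact (hrel k).symm
  exact tendsto_nhds_unique (hcont _) h5

/-- The limit of the values is small. -/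
theorem L_le (M : Rx n → Rx n → ℤ[X]) {W : ℝ} (hW : ∀ β, ∑ α, pn nz (M β α) ≤ W)
    {τ : ℕ → ℝ} {y : ℕ → Fin n → ℝ} {L : ℝ} (hτ : Tendsto τ atTop (𝓝 L))
    (h : ∀ k : ℕ, Eig M ((k : ℝ) + 1) (τ k) (y k)) : L ≤ (1 + W) ^ (5 ^ n) := by
  have h1 := lim_root (P := (AM M).det) hτ fun k => AM_root M (h k)
  have h2 : (AM M).det.leadingCoeff ≠ 0 := leadingCoeff_ne_zero.2 (AM_ne_zero M)
  by_contra hcon
  push Not at hcon
  refine no_root h2 (lt_of_le_of_lt ?_ hcon) h1
  exact (coeff_le_pn (isNrm_pn isNrm_nz) (AM M).det _).trans (pn_AM M hW)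

end limit

end Pool.Agent.CRt.Gap
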