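import Mathlib

/-!
# Coefficient norms of polynomials and determinants (for the gap theorem)
-/

set_option autoImplicit false

namespace Pool.Agent.CRt.Gap

open Polynomial Finset

/-- a submultiplicative seminorm -/
structure IsNrm {R : Type*} [CommRing R] (ν : R → ℝ) : Prop where
  zero : ν 0 = 0
  one : ν 1 ≤ 1
  nonneg : ∀ a, 0 ≤ ν a
  add : ∀ a b, ν (a + b) ≤ ν a + ν b
  neg : ∀ a, ν (-a) = ν a
  mul : ∀ a b, ν (a * b) ≤ ν a * ν b

section general
variable {R : Type*} [CommRing R] {ν : R → ℝ}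

theorem IsNrm.sum (h : IsNrm ν) {ι : Type*} (s : Finset ι) (f : ι → R) :
    ν (∑ i ∈ s, f i) ≤ ∑ i ∈ s, ν (f i) := by
  classical
  induction s using Finset.induction_on with
  | empty => simp [h.zero]
  | insert a s ha ih =>
    rw [Finset.sum_insert ha, Finset.sum_insert ha]
    exact (h.add _ _).trans (by linarith)

theorem IsNrm.prod (h : IsNrm ν) {ι : Type*} (s : Finset ι) (f : ι → R) :
    ν (∏ i ∈ s, f i) ≤ ∏ i ∈ s, ν (f i) := by
  classical
  induction s using Finset.induction_on with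
  | empty => simpa using h.one
  | insert a s ha ih =>
    rw [Finset.prod_insert ha, Finset.prod_insert ha]
    exact (h.mul _ _).trans (mul_le_mul_of_nonneg_left ih (h.nonneg _))

/-- the determinant is bounded by the product of the row norms -/
theorem IsNrm.det (h : IsNrm ν) {κ : Type*} [Fintype κ] [DecidableEq κ] (A : Matrix κ κ R) {w : ℝ}
    (hrow : ∀ i, ∑ j, ν (A i j) ≤ w) : ν A.det ≤ w ^ Fintype.card κ := by
  classical
  have h1 : A.det = ∑ σ : Equiv.Perm κ, Equiv.Perm.sign σ • ∏ i, A i (σ i) := by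
    rw [← Matrix.det_transpose, Matrix.det_apply]
    rfl
  have h2 : ∀ σ : Equiv.Perm κ, ν (Equiv.Perm.sign σ • ∏ i, A i (σ i)) ≤ ∏ i, ν (A i (σ i)) := by
    intro σ
    have h3 : ν (Equiv.Perm.sign σ • ∏ i, A i (σ i)) = ν (∏ i, A i (σ i)) := by
      rcases Int.units_eq_one_or (Equiv.Perm.sign σ) with h4 | h4
      · rw [h4, one_smul]
      · rw [h4, Units.neg_smul, one_smul, h.neg]
    rw [h3]
    exact h.prod _ _
  have h3 : ∑ σ : Equiv.Perm κ, ∏ i, ν (A i (σ i)) ≤ ∑ f : κ → κ, ∏ i, ν (A i (f i)) := by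
    have h4 : ∑ σ : Equiv.Perm κ, ∏ i, ν (A i (σ i)) =
        ∑ f ∈ Finset.image (fun (σ : Equiv.Perm κ) (i : κ) => σ i) Finset.univ,
          ∏ i, ν (A i (f i)) := by
      rw [Finset.sum_image]
      intro a _ b _ hab
      exact DFunLike.coe_injective hab
    rw [h4]
    exact Finset.sum_le_sum_of_subset_of_nonneg (Finset.subset_univ _)
      fun f _ _ => Finset.prod_nonneg fun i _ => h.nonneg _
  have h5 : ∑ f : κ → κ, ∏ i, ν (A i (f i)) = ∏ i, ∑ j, ν (A i j) := by
    rw [Finset.prod_univ_sum]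
    simp
  rw [h1]
  calc ν (∑ σ : Equiv.Perm κ, Equiv.Perm.sign σ • ∏ i, A i (σ i))
      ≤ ∑ σ : Equiv.Perm κ, ν (Equiv.Perm.sign σ • ∏ i, A i (σ i)) := h.sum _ _
    _ ≤ ∑ σ : Equiv.Perm κ, ∏ i, ν (A i (σ i)) := Finset.sum_le_sum fun σ _ => h2 σ
    _ ≤ ∏ i, ∑ j, ν (A i j) := by rw [← h5]; exact h3
    _ ≤ ∏ _i : κ, w := Finset.prod_le_prod
        (fun i _ => Finset.sum_nonneg fun j _ => h.nonneg _) fun i _ => hrow i
    _ = w ^ Fintype.card κ := by rw [Finset.prod_const, Finset.card_univ]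

/-- the coefficient norm of a polynomial -/
noncomputable def pn (ν : R → ℝ) (p : R[X]) : ℝ := p.sum fun _ a => ν a

theorem pn_eq (h : IsNrm ν) (p : R[X]) {n : ℕ} (hn : p.natDegree < n) :
    pn ν p = ∑ i ∈ range n, ν (p.coeff i) :=
  p.sum_over_range' (fun _ => h.zero) n hn

theorem coeff_le_pn (h : IsNrm ν) (p : R[X]) (i : ℕ) : ν (p.coeff i) ≤ pn ν p := by
  rw [pn_eq h p (n := max (p.natDegree + 1) (i + 1)) (by omega)]
  exact Finset.single_le_sum (f := fun i => ν (p.coeff i)) (fun j _ => h.nonneg _)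
    (Finset.mem_range.2 (by omega))

theorem sum_coeff_le_pn (h : IsNrm ν) (p : R[X]) (n : ℕ) :
    ∑ i ∈ range n, ν (p.coeff i) ≤ pn ν p := by
  rw [pn_eq h p (n := max (p.natDegree + 1) n) (by omega)]
  exact Finset.sum_le_sum_of_subset_of_nonneg (Finset.range_mono (by omega))
    fun j _ _ => h.nonneg _

theorem pn_monomial_mul (h : IsNrm ν) (n : ℕ) (a : R) (q : R[X]) :
    pn ν (monomial n a * q) ≤ ν a * pn ν q := by
  have hdeg : (monomial n a * q).natDegree < n + (q.natDegree + 1) := by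
    have h1 : (monomial n a * q).natDegree ≤ (monomial n a).natDegree + q.natDegree :=
      natDegree_mul_le
    have h2 : (monomial n a).natDegree ≤ n := natDegree_monomial_le a
    omega
  rw [pn_eq h _ hdeg, pn_eq h q (n := q.natDegree + 1) (by omega), Finset.sum_range_add,
    Finset.mul_sum]
  have h1 : ∑ i ∈ range n, ν ((monomial n a * q).coeff i) = 0 := by
    apply Finset.sum_eq_zero
    intro i hi
    rw [Finset.mem_range] at hi
    have : (monomial n a * q).coeff i = 0 := by
      rw [← C_mul_X_pow_eq_monomial, mul_assoc, coeff_C_mul, coeff_X_pow_mul', if_neg (by omega),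
        mul_zero]
    rw [this, h.zero]
  rw [h1, zero_add]
  apply Finset.sum_le_sum
  intro i _
  have : (monomial n a * q).coeff (n + i) = a * q.coeff i := by
    rw [← C_mul_X_pow_eq_monomial, mul_assoc, coeff_C_mul, coeff_X_pow_mul', if_pos (by omega)]
    congr 2
    omega
  rw [this]
  exact h.mul _ _

theorem pn_add (h : IsNrm ν) (p q : R[X]) : pn ν (p + q) ≤ pn ν p + pn ν q := by
  set n := max p.natDegree q.natDegree + 1 with hn
  have h1 : (p + q).natDegree < n := lt_of_le_of_lt (natDegree_add_le p q) (by omega)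
  rw [pn_eq h _ h1, pn_eq h p (n := n) (by omega), pn_eq h q (n := n) (by omega),
    ← Finset.sum_add_distrib]
  apply Finset.sum_le_sum
  intro i _
  rw [coeff_add]
  exact h.add _ _

theorem pn_zero : pn ν (0 : R[X]) = 0 := by
  unfold pn; simp [Polynomial.sum]

theorem pn_nonneg (h : IsNrm ν) (p : R[X]) : 0 ≤ pn ν p :=
  Finset.sum_nonneg fun _ _ => h.nonneg _

theorem pn_neg (h : IsNrm ν) (p : R[X]) : pn ν (-p) = pn ν p := by
  have h1 : (-p).natDegree < p.natDegree + 1 := by rw [natDegree_neg]; omega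
  rw [pn_eq h _ h1, pn_eq h p (n := p.natDegree + 1) (by omega)]
  apply Finset.sum_congr rfl
  intro i _
  rw [coeff_neg, h.neg]

theorem pn_monomial (h : IsNrm ν) (n : ℕ) (a : R) : pn ν (monomial n a) = ν a := by
  unfold pn
  rw [sum_monomial_index _ _ h.zero]

theorem pn_mul (h : IsNrm ν) (p q : R[X]) : pn ν (p * q) ≤ pn ν p * pn ν q := by
  have key : ∀ s : Finset ℕ, pn ν ((∑ i ∈ s, monomial i (p.coeff i)) * q) ≤
      (∑ i ∈ s, ν (p.coeff i)) * pn ν q := by
    intro s
    induction s using Finset.induction_on with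
    | empty => simp [pn_zero]
    | insert a s ha ih =>
      rw [Finset.sum_insert ha, Finset.sum_insert ha, add_mul, add_mul]
      exact (pn_add h _ _).trans (add_le_add (pn_monomial_mul h _ _ _) ih)
  have h1 := key p.support
  have h2 : ∑ i ∈ p.support, monomial i (p.coeff i) = p := by
    conv_rhs => rw [← Polynomial.sum_monomial_eq p]
    rfl
  rw [h2] at h1
  exact h1

theorem isNrm_pn (h : IsNrm ν) : IsNrm (pn ν) where
  zero := pn_zero
  one := by
    have : (1 : R[X]) = monomial 0 1 := by simp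
    rw [this, pn_monomial h]
    exact h.one
  nonneg := pn_nonneg h
  add := pn_add h
  neg := pn_neg h
  mul := pn_mul h

theorem pn_C (h : IsNrm ν) (a : R) : pn ν (C a) = ν a := by
  rw [← monomial_zero_left, pn_monomial h]

theorem pn_X (h : IsNrm ν) : pn ν (X : R[X]) ≤ 1 := by
  rw [← monomial_one_one_eq_X, pn_monomial h]; exact h.one

end general

/-- the absolute value of an integer -/
noncomputable def nz (a : ℤ) : ℝ := |(a : ℝ)|

theorem isNrm_nz : IsNrm nz where
  zero := by simp [nz]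
  one := by simp [nz]
  nonneg a := abs_nonneg _
  add a b := by unfold nz; push_cast; exact abs_add_le _ _
  neg a := by unfold nz; push_cast; exact abs_neg _
  mul a b := by unfold nz; push_cast; exact (abs_mul _ _).le

/-- Cauchy bound: a nonzero integer polynomial has no root beyond its norm. -/
theorem no_root {p : ℤ[X]} (hp : p ≠ 0) {x : ℝ} (hx : pn nz p < x) :
    p.eval₂ (Int.castRingHom ℝ) x ≠ 0 := by
  set d := p.natDegree with hd
  have hlead : p.coeff d ≠ 0 := by
    rw [hd]; exact leadingCoeff_ne_zero.2 hp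
  have h1 : (1 : ℝ) ≤ nz (p.coeff d) := by
    unfold nz
    have : (1 : ℤ) ≤ |p.coeff d| := Int.one_le_abs hlead
    exact_mod_cast this
  have hpn : pn nz p = ∑ i ∈ range d, nz (p.coeff i) + nz (p.coeff d) := by
    rw [pn_eq isNrm_nz p (n := d + 1) (by omega), Finset.sum_range_succ]
  have hnn : 0 ≤ ∑ i ∈ range d, nz (p.coeff i) := Finset.sum_nonneg fun i _ => abs_nonneg _
  have hx1 : 1 ≤ x := by linarith
  have hx0 : 0 < x := by linarith
  have hev : p.eval₂ (Int.castRingHom ℝ) x =
      ∑ i ∈ range d, (p.coeff i : ℝ) * x ^ i + (p.coeff d : ℝ) * x ^ d := by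
    rw [eval₂_eq_sum_range, Finset.sum_range_succ]
    simp [hd]
  intro h0
  rw [hev] at h0
  have h2 : |(p.coeff d : ℝ) * x ^ d| = |∑ i ∈ range d, (p.coeff i : ℝ) * x ^ i| := by
    have : (p.coeff d : ℝ) * x ^ d = -∑ i ∈ range d, (p.coeff i : ℝ) * x ^ i := by linarith
    rw [this, abs_neg]
  have h3 : |∑ i ∈ range d, (p.coeff i : ℝ) * x ^ i| ≤ (∑ i ∈ range d, nz (p.coeff i)) * x ^ (d - 1) := by
    refine (Finset.abs_sum_le_sum_abs _ _).trans ?_
    rw [Finset.sum_mul]
    apply Finset.sum_le_sum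
    intro i hi
    rw [Finset.mem_range] at hi
    rw [abs_mul, abs_of_nonneg (pow_nonneg hx0.le i)]
    unfold nz
    exact mul_le_mul_of_nonneg_left (pow_le_pow_right₀ hx1 (by omega)) (abs_nonneg _)
  rw [← h2, abs_mul, abs_of_nonneg (pow_nonneg hx0.le d)] at h3
  have h4 : |(p.coeff d : ℝ)| = nz (p.coeff d) := rfl
  rw [h4] at h3
  rcases Nat.eq_zero_or_pos d with hd0 | hd0
  · rw [hd0] at h3
    simp at h3
    rw [hd0] at h1
    linarith
  · have h5 : x ^ d = x * x ^ (d - 1) := by
      rw [← pow_succ']; congr 1; omega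
    have h6 : 0 < x ^ (d - 1) := pow_pos hx0 _
    rw [h5, ← mul_assoc] at h3
    have h7 := le_of_mul_le_mul_right h3 h6
    nlinarith

end Pool.Agent.CRt.Gap
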