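import Pool.Agent.CRt.GapNrm

/-!
# Polynomials as lists of monomials and reduction modulo the critical equations
-/

set_option autoImplicit false

namespace Pool.Agent.CRt.Gap

open Polynomial Finset

variable {n : ℕ}

/-- exponents -/
abbrev Ex (n : ℕ) := Fin n → ℕ

/-- total degree -/
def deg (e : Ex n) : ℕ := ∑ i, e i

/-- monomials -/
def mon (e : Ex n) (y : Fin n → ℝ) : ℝ := ∏ i, y i ^ e i

/-- polynomials with integer coefficients as lists of terms -/
abbrev PL (n : ℕ) := List (ℤ × Ex n)

/-- evaluation -/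
noncomputable def ev (L : PL n) (y : Fin n → ℝ) : ℝ := (L.map fun t => (t.1 : ℝ) * mon t.2 y).sum

/-- norm -/
noncomputable def nrm (L : PL n) : ℝ := (L.map fun t => nz t.1).sum

/-- bounded degree -/
def DegLe (L : PL n) (d : ℕ) : Prop := ∀ t ∈ L, deg t.2 ≤ d

theorem nz_nonneg (a : ℤ) : 0 ≤ nz a := abs_nonneg _

theorem nrm_nonneg (L : PL n) : 0 ≤ nrm L := by
  unfold nrm
  apply List.sum_nonneg
  intro x hx
  rw [List.mem_map] at hx
  obtain ⟨t, _, rfl⟩ := hx
  exact nz_nonneg _

theorem deg_add (e f : Ex n) : deg (e + f) = deg e + deg f := by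
  unfold deg; simp [Finset.sum_add_distrib]

theorem mon_add (e f : Ex n) (y : Fin n → ℝ) : mon (e + f) y = mon e y * mon f y := by
  unfold mon; simp [pow_add, Finset.prod_mul_distrib]

/-- product with a monomial -/
def shift (f : Ex n) (L : PL n) : PL n := L.map fun t => (t.1, t.2 + f)

theorem ev_shift (f : Ex n) (L : PL n) (y : Fin n → ℝ) : ev (shift f L) y = ev L y * mon f y := by
  unfold ev shift
  rw [List.map_map, ← List.sum_map_mul_right]
  congr 1
  apply List.map_congr_left
  intro t _
  simp only [Function.comp]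
  rw [mon_add]; ring

theorem nrm_shift (f : Ex n) (L : PL n) : nrm (shift f L) = nrm L := by
  unfold nrm shift
  rw [List.map_map]
  rfl

theorem degLe_shift {f : Ex n} {L : PL n} {d : ℕ} (h : DegLe L d) :
    DegLe (shift f L) (d + deg f) := by
  intro t ht
  unfold shift at ht
  rw [List.mem_map] at ht
  obtain ⟨u, hu, rfl⟩ := ht
  simp only [deg_add]
  have := h u hu
  omega

/-- product -/
def pmul (L L' : PL n) : PL n := L.flatMap fun t => L'.map fun t' => (t.1 * t'.1, t.2 + t'.2)

theorem ev_pmul (L L' : PL n) (y : Fin n → ℝ) : ev (pmul L L') y = ev L y * ev L' y := by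
  unfold pmul
  induction L with
  | nil => simp [ev]
  | cons t L ih =>
    have h1 : ∀ A B : PL n, ev (A ++ B) y = ev A y + ev B y := by
      intro A B; unfold ev; rw [List.map_append, List.sum_append]
    rw [List.flatMap_cons, h1, ih]
    have h2 : ev (t :: L) y = (t.1 : ℝ) * mon t.2 y + ev L y := by
      unfold ev; rw [List.map_cons, List.sum_cons]
    rw [h2, add_mul]
    congr 1
    unfold ev
    rw [List.map_map, ← List.sum_map_mul_left]
    congr 1
    apply List.map_congr_left
    intro u _
    simp only [Function.comp]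
    rw [mon_add]; push_cast; ring

theorem nrm_pmul (L L' : PL n) : nrm (pmul L L') = nrm L * nrm L' := by
  unfold pmul
  induction L with
  | nil => simp [nrm]
  | cons t L ih =>
    have h1 : ∀ A B : PL n, nrm (A ++ B) = nrm A + nrm B := by
      intro A B; unfold nrm; rw [List.map_append, List.sum_append]
    rw [List.flatMap_cons, h1, ih]
    have h2 : nrm (t :: L) = nz t.1 + nrm L := by
      unfold nrm; rw [List.map_cons, List.sum_cons]
    rw [h2, add_mul]
    congr 1
    unfold nrm
    rw [List.map_map, ← List.sum_map_mul_left]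
    congr 1
    apply List.map_congr_left
    intro u _
    simp only [Function.comp]
    unfold nz
    push_cast
    exact abs_mul _ _

theorem degLe_pmul {L L' : PL n} {d d' : ℕ} (h : DegLe L d) (h' : DegLe L' d') :
    DegLe (pmul L L') (d + d') := by
  intro t ht
  unfold pmul at ht
  rw [List.mem_flatMap] at ht
  obtain ⟨u, hu, ht⟩ := ht
  rw [List.mem_map] at ht
  obtain ⟨v, hv, rfl⟩ := ht
  simp only [deg_add]
  have := h u hu
  have := h' v hv
  omega

/-- partial derivative -/
def pd (i : Fin n) (L : PL n) : PL n :=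
  L.map fun t => (t.1 * (t.2 i : ℤ), Function.update t.2 i (t.2 i - 1))

theorem mon_split (e : Ex n) (y : Fin n → ℝ) (i : Fin n) :
    mon e y = y i ^ e i * ∏ j ∈ univ.erase i, y j ^ e j := by
  unfold mon
  exact (Finset.mul_prod_erase univ (fun j => y j ^ e j) (Finset.mem_univ i)).symm

theorem mon_update_exp (e : Ex n) (y : Fin n → ℝ) (i : Fin n) (k : ℕ) :
    mon (Function.update e i k) y = y i ^ k * ∏ j ∈ univ.erase i, y j ^ e j := by
  rw [mon_split _ y i, Function.update_self]
  congr 1
  apply Finset.prod_congr rfl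
  intro j hj
  rw [Function.update_of_ne (Finset.ne_of_mem_erase hj)]

theorem mon_update_var (e : Ex n) (y : Fin n → ℝ) (i : Fin n) (x : ℝ) :
    mon e (Function.update y i x) = x ^ e i * ∏ j ∈ univ.erase i, y j ^ e j := by
  rw [mon_split e _ i, Function.update_self]
  congr 1
  apply Finset.prod_congr rfl
  intro j hj
  rw [Function.update_of_ne (Finset.ne_of_mem_erase hj)]

theorem hasDerivAt_ev (L : PL n) (y : Fin n → ℝ) (i : Fin n) :
    HasDerivAt (fun x => ev L (Function.update y i x)) (ev (pd i L) y) (y i) := by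
  induction L with
  | nil => simpa [ev, pd] using hasDerivAt_const (y i) (0 : ℝ)
  | cons t L ih =>
    have h1 : ∀ z, ev (t :: L) z = (t.1 : ℝ) * mon t.2 z + ev L z := by
      intro z; unfold ev; rw [List.map_cons, List.sum_cons]
    have h2 : ev (pd i (t :: L)) y = (t.1 : ℝ) * ((t.2 i : ℝ) * y i ^ (t.2 i - 1) *
        ∏ j ∈ univ.erase i, y j ^ t.2 j) + ev (pd i L) y := by
      unfold ev pd
      rw [List.map_cons, List.map_cons, List.sum_cons]
      congr 1
      simp only
      rw [mon_update_exp]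
      push_cast
      ring
    rw [h2]
    simp only [h1, mon_update_var]
    have h3 : HasDerivAt (fun x : ℝ => (t.1 : ℝ) * (x ^ t.2 i * ∏ j ∈ univ.erase i, y j ^ t.2 j))
        ((t.1 : ℝ) * ((t.2 i : ℝ) * y i ^ (t.2 i - 1) *
        ∏ j ∈ univ.erase i, y j ^ t.2 j)) (y i) :=
      ((hasDerivAt_pow (t.2 i) (y i)).mul_const _).const_mul _
    exact h3.add ih

theorem deg_update_le (e : Ex n) (i : Fin n) : deg (Function.update e i (e i - 1)) ≤ deg e := by
  unfold deg
  apply Finset.sum_le_sum
  intro j _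
  by_cases h : j = i
  · subst h; rw [Function.update_self]; omega
  · rw [Function.update_of_ne h]

theorem degLe_pd {L : PL n} {d : ℕ} (h : DegLe L d) (i : Fin n) : DegLe (pd i L) d := by
  intro t ht
  unfold pd at ht
  rw [List.mem_map] at ht
  obtain ⟨u, hu, rfl⟩ := ht
  exact (deg_update_le _ _).trans (h u hu)

theorem le_deg (e : Ex n) (i : Fin n) : e i ≤ deg e :=
  Finset.single_le_sum (f := fun i => e i) (fun _ _ => Nat.zero_le _) (Finset.mem_univ i)

theorem nrm_pd {L : PL n} {d : ℕ} (h : DegLe L d) (i : Fin n) : nrm (pd i L) ≤ d * nrm L := by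
  unfold nrm pd
  rw [List.map_map, ← List.sum_map_mul_left]
  apply List.sum_le_sum
  intro t ht
  simp only [Function.comp]
  unfold nz
  push_cast
  rw [abs_mul, mul_comm]
  apply mul_le_mul_of_nonneg_right _ (abs_nonneg _)
  rw [abs_of_nonneg (Nat.cast_nonneg _)]
  exact_mod_cast (le_deg t.2 i).trans (h t ht)

/-- `6 L - ∑ y_i ∂_i L` -/
def eg (L : PL n) : PL n := L.map fun t => (t.1 * (6 - (deg t.2 : ℤ)), t.2)

theorem ev_eg (L : PL n) (y : Fin n → ℝ) :
    ev (eg L) y = 6 * ev L y - ∑ i, y i * ev (pd i L) y := by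
  induction L with
  | nil => simp [ev, eg, pd]
  | cons t L ih =>
    have h1 : ev (t :: L) y = (t.1 : ℝ) * mon t.2 y + ev L y := by
      unfold ev; rw [List.map_cons, List.sum_cons]
    have h2 : ev (eg (t :: L)) y = (t.1 : ℝ) * (6 - (deg t.2 : ℝ)) * mon t.2 y + ev (eg L) y := by
      unfold ev eg
      rw [List.map_cons, List.map_cons, List.sum_cons]
      push_cast
      rfl
    have h3 : ∀ i, y i * ev (pd i (t :: L)) y =
        (t.2 i : ℝ) * ((t.1 : ℝ) * mon t.2 y) + y i * ev (pd i L) y := by
      intro i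
      have : ev (pd i (t :: L)) y = ((t.1 * (t.2 i : ℤ) : ℤ) : ℝ) *
          mon (Function.update t.2 i (t.2 i - 1)) y + ev (pd i L) y := by
        unfold ev pd
        rw [List.map_cons, List.map_cons, List.sum_cons]
      rw [this, mon_update_exp, mon_split t.2 y i]
      rcases Nat.eq_zero_or_pos (t.2 i) with h0 | h0
      · rw [h0]; simp
      · have : y i ^ t.2 i = y i * y i ^ (t.2 i - 1) := by
          rw [← pow_succ']; congr 1; omega
        rw [this]
        push_cast
        ring
    rw [h2, ih, h1, Finset.sum_congr rfl fun i _ => h3 i, Finset.sum_add_distrib,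
      ← Finset.sum_mul]
    have h4 : (deg t.2 : ℝ) = ∑ i, (t.2 i : ℝ) := by unfold deg; push_cast; rfl
    rw [h4]
    ring

theorem degLe_eg {L : PL n} {d : ℕ} (h : DegLe L d) : DegLe (eg L) d := by
  intro t ht
  unfold eg at ht
  rw [List.mem_map] at ht
  obtain ⟨u, hu, rfl⟩ := ht
  exact h u hu

theorem nrm_eg {L : PL n} (h : DegLe L 4) : nrm (eg L) ≤ 6 * nrm L := by
  unfold nrm eg
  rw [List.map_map, ← List.sum_map_mul_left]
  apply List.sum_le_sum
  intro t ht
  simp only [Function.comp]
  unfold nz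
  push_cast
  rw [abs_mul, mul_comm]
  apply mul_le_mul_of_nonneg_right _ (abs_nonneg _)
  have h1 : (deg t.2 : ℝ) ≤ 4 := by exact_mod_cast h t ht
  have h2 : (0 : ℝ) ≤ (deg t.2 : ℝ) := Nat.cast_nonneg _
  rw [abs_le]
  constructor <;> linarith

/-! ### Reduction -/

/-- reduced exponents -/
abbrev Rx (n : ℕ) := Fin n → Fin 5

/-- the exponent of a reduced exponent -/
def rex (α : Rx n) : Ex n := fun i => (α i : ℕ)

/-- real evaluation of an integer polynomial -/
noncomputable def evs (s : ℝ) (p : ℤ[X]) : ℝ := p.eval₂ (Int.castRingHom ℝ) s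

theorem evs_add (s : ℝ) (p q : ℤ[X]) : evs s (p + q) = evs s p + evs s q := eval₂_add _ _

theorem evs_mul (s : ℝ) (p q : ℤ[X]) : evs s (p * q) = evs s p * evs s q := eval₂_mul _ _

theorem evs_neg (s : ℝ) (p : ℤ[X]) : evs s (-p) = -evs s p := eval₂_neg _

theorem evs_C (s : ℝ) (a : ℤ) : evs s (C a) = a := by unfold evs; rw [eval₂_C]; rfl

theorem evs_X (s : ℝ) : evs s X = s := by unfold evs; simp

/-- The critical equations. -/
def Crit (Fd : Fin n → PL n) (s : ℝ) (y : Fin n → ℝ) : Prop := ∀ i, y i ^ 5 = -s * ev (Fd i) y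

/-- linear combination over a list of exponents -/
theorem comb {c : ℝ} {d : ℕ} {S : ℝ → (Fin n → ℝ) → Prop} {A : Ex n → Rx n → ℤ[X]}
    (hA : ∀ e, deg e ≤ d → ∑ α, pn nz (A e α) ≤ c ∧
      ∀ s y, S s y → mon e y = ∑ α, evs s (A e α) * mon (rex α) y)
    (L : PL n) (hL : DegLe L d) : ∃ a : Rx n → ℤ[X], ∑ α, pn nz (a α) ≤ nrm L * c ∧
      ∀ s y, S s y → ev L y = ∑ α, evs s (a α) * mon (rex α) y := by
  induction L with
  | nil =>
    refine ⟨fun _ => 0, ?_, fun s y _ => ?_⟩
    · simp [pn_zero, nrm]
    · simp [ev, evs]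
  | cons t L ih =>
    obtain ⟨a, ha1, ha2⟩ := ih fun u hu => hL u (List.mem_cons_of_mem _ hu)
    obtain ⟨h1, h2⟩ := hA t.2 (hL t List.mem_cons_self)
    refine ⟨fun α => C t.1 * A t.2 α + a α, ?_, fun s y hs => ?_⟩
    · have h3 : nrm (t :: L) = nz t.1 + nrm L := by
        unfold nrm; rw [List.map_cons, List.sum_cons]
      rw [h3, add_mul]
      have h4 : ∀ α, pn nz (C t.1 * A t.2 α + a α) ≤ nz t.1 * pn nz (A t.2 α) + pn nz (a α) := by
        intro α
        refine (pn_add isNrm_nz _ _).trans ?_
        have := pn_mul isNrm_nz (C t.1) (A t.2 α)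
        rw [pn_C isNrm_nz] at this
        linarith
      refine (Finset.sum_le_sum fun α _ => h4 α).trans ?_
      rw [Finset.sum_add_distrib, ← Finset.mul_sum]
      have := mul_le_mul_of_nonneg_left h1 (nz_nonneg t.1)
      linarith
    · have h3 : ev (t :: L) y = (t.1 : ℝ) * mon t.2 y + ev L y := by
        unfold ev; rw [List.map_cons, List.sum_cons]
      rw [h3, h2 s y hs, ha2 s y hs, Finset.mul_sum, ← Finset.sum_add_distrib]
      apply Finset.sum_congr rfl
      intro α _
      rw [evs_add, evs_mul, evs_C]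
      ring

theorem red (Fd : Fin n → PL n) {c : ℝ} (hdeg : ∀ i, DegLe (Fd i) 4) (hc : ∀ i, nrm (Fd i) ≤ c)
    (hc1 : 1 ≤ c) (d : ℕ) : ∀ e : Ex n, deg e ≤ d → ∃ a : Rx n → ℤ[X],
      ∑ α, pn nz (a α) ≤ c ^ d ∧
      ∀ s y, Crit Fd s y → mon e y = ∑ α, evs s (a α) * mon (rex α) y := by
  classical
  -- the reduced case
  have hred : ∀ (d : ℕ) (e : Ex n), (∀ i, e i ≤ 4) → ∃ a : Rx n → ℤ[X],
      ∑ α, pn nz (a α) ≤ c ^ d ∧
      ∀ s y, Crit Fd s y → mon e y = ∑ α, evs s (a α) * mon (rex α) y := by
    intro d e he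
    let α₀ : Rx n := fun i => ⟨e i, by have := he i; omega⟩
    refine ⟨fun α => if α = α₀ then 1 else 0, ?_, fun s y _ => ?_⟩
    · have h1 : ∀ α : Rx n, pn nz (if α = α₀ then (1 : ℤ[X]) else 0) ≤ if α = α₀ then 1 else 0 := by
        intro α
        split_ifs
        · exact (isNrm_pn isNrm_nz).one
        · exact pn_zero.le
      refine (Finset.sum_le_sum fun α _ => h1 α).trans ?_
      rw [Finset.sum_ite_eq' Finset.univ α₀, if_pos (Finset.mem_univ _)]
      exact one_le_pow₀ hc1
    · rw [Finset.sum_eq_single α₀]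
      · have : evs s (if α₀ = α₀ then (1 : ℤ[X]) else 0) = 1 := by
          rw [if_pos rfl]; unfold evs; simp
        show mon e y = evs s (if α₀ = α₀ then (1 : ℤ[X]) else 0) * mon (rex α₀) y
        rw [this, one_mul]
        rfl
      · intro α _ hα
        show evs s (if α = α₀ then (1 : ℤ[X]) else 0) * mon (rex α) y = 0
        rw [if_neg hα]
        unfold evs; simp
      · intro h; exact absurd (Finset.mem_univ _) h
  induction d with
  | zero =>
    intro e he
    exact hred 0 e fun i => by have := le_deg e i; omega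
  | succ d ih =>
    intro e he
    by_cases h4 : ∀ i, e i ≤ 4
    · exact hred _ e h4
    · push Not at h4
      obtain ⟨i, hi⟩ := h4
      choose! A hA using ih
      let f : Ex n := Function.update e i (e i - 5)
      have hf : deg f + 5 = deg e := by
        unfold deg
        rw [← Finset.add_sum_erase _ _ (Finset.mem_univ i),
          ← Finset.add_sum_erase (a := i) _ (fun j => e j) (Finset.mem_univ i)]
        have h5 : ∑ j ∈ univ.erase i, f j = ∑ j ∈ univ.erase i, e j := by
          apply Finset.sum_congr rfl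
          intro j hj
          show Function.update e i (e i - 5) j = e j
          rw [Function.update_of_ne (Finset.ne_of_mem_erase hj)]
        have h6 : f i = e i - 5 := Function.update_self ..
        rw [h5, h6]
        omega
      obtain ⟨a, ha1, ha2⟩ := comb (c := c ^ d) (d := d) (S := Crit Fd) hA (shift f (Fd i))
        (fun t ht => by
          have := degLe_shift (f := f) (hdeg i) t ht
          omega)
      refine ⟨fun α => -(X * a α), ?_, fun s y hs => ?_⟩
      · have h5 : ∀ α, pn nz (-(X * a α)) ≤ pn nz (a α) := by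
          intro α
          rw [pn_neg isNrm_nz]
          refine (pn_mul isNrm_nz _ _).trans ?_
          have h6 := pn_X isNrm_nz
          have h7 := pn_nonneg isNrm_nz (a α)
          nlinarith
        refine (Finset.sum_le_sum fun α _ => h5 α).trans (ha1.trans ?_)
        rw [nrm_shift, pow_succ, mul_comm]
        exact mul_le_mul_of_nonneg_left (hc i) (pow_nonneg (by linarith) _)
      · have h5 := ha2 s y hs
        rw [ev_shift] at h5
        have h6 : mon e y = y i ^ 5 * mon f y := by
          rw [mon_split e y i, mon_update_exp e y i (e i - 5)]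
          have : y i ^ e i = y i ^ 5 * y i ^ (e i - 5) := by
            rw [← pow_add]; congr 1; omega
          rw [this]; ring
        rw [h6, hs i]
        have h7 : -s * ev (Fd i) y * mon f y = -s * (ev (Fd i) y * mon f y) := by ring
        rw [h7, h5, Finset.mul_sum]
        apply Finset.sum_congr rfl
        intro α _
        rw [evs_neg, evs_mul, evs_X]
        ring

/-- The multiplication matrix. -/
theorem exists_matrix (Fd : Fin n → PL n) (P : PL n) {c : ℝ} (hdeg : ∀ i, DegLe (Fd i) 4)
    (hc : ∀ i, nrm (Fd i) ≤ c) (hc1 : 1 ≤ c) (hP : DegLe P 4) :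
    ∃ M : Rx n → Rx n → ℤ[X], (∀ β, ∑ α, pn nz (M β α) ≤ nrm P * c ^ (4 * n + 4)) ∧
      ∀ s y, Crit Fd s y → ∀ β, ev P y * mon (rex β) y =
        ∑ α, evs s (M β α) * mon (rex α) y := by
  have h1 : ∀ β : Rx n, ∃ a : Rx n → ℤ[X], ∑ α, pn nz (a α) ≤ nrm P * c ^ (4 * n + 4) ∧
      ∀ s y, Crit Fd s y → ev P y * mon (rex β) y = ∑ α, evs s (a α) * mon (rex α) y := by
    intro β
    have h2 := red Fd hdeg hc hc1 (4 * n + 4)
    choose! A hA using h2
    obtain ⟨a, ha1, ha2⟩ := comb (c := c ^ (4 * n + 4)) (d := 4 * n + 4) (S := Crit Fd) hA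
      (shift (rex β) P) (fun t ht => by
        have h3 := degLe_shift (f := rex β) hP t ht
        have h4 : deg (rex β) ≤ 4 * n := by
          unfold deg rex
          calc ∑ i, (β i : ℕ) ≤ ∑ _i : Fin n, 4 := Finset.sum_le_sum fun i _ => by
                have := (β i).2; omega
            _ = 4 * n := by simp [mul_comm]
        omega)
    refine ⟨a, ?_, fun s y hs => ?_⟩
    · rw [nrm_shift] at ha1; exact ha1
    · rw [← ev_shift]; exact ha2 s y hs
  choose M hM1 hM2 using h1
  exact ⟨M, hM1, fun s y hs β => hM2 β s y hs⟩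

end Pool.Agent.CRt.Gap
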