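import Pool.Agent.CRt.Basic

/-!
# Drawings of graphs given by lists of named edges
-/

set_option autoImplicit false

namespace Pool.Agent.CRt

open Set

/-! ## Reversing a path -/

def rev3 (P : Fin 3 → Plane) : Fin 3 → Plane := ![P 2, P 1, P 0]

theorem pathSet_rev (P : Fin 3 → Plane) : pathSet (rev3 P) = pathSet P := by
  rw [pathSet_two, pathSet_two]
  show segment ℝ (P 2) (P 1) ∪ segment ℝ (P 1) (P 0) = _
  rw [segment_symm ℝ (P 2) (P 1), segment_symm ℝ (P 1) (P 0), union_comm]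

theorem isPolyPath_rev {P : Fin 3 → Plane} (h : IsPolyPath P) : IsPolyPath (rev3 P) := by
  rw [isPolyPath_iff] at h ⊢
  obtain ⟨h1, h2, h3⟩ := h
  refine ⟨h2.symm, h1.symm, fun z hz1 hz2 => ?_⟩
  have hz1' : z ∈ segment ℝ (P 2) (P 1) := hz1
  have hz2' : z ∈ segment ℝ (P 1) (P 0) := hz2
  rw [segment_symm] at hz1' hz2'
  exact h3 z hz2' hz1'

theorem ProperAt.symm {P Q : Fin 3 → Plane} {z : Plane} (h : ProperAt P Q z) : ProperAt Q P z := by
  obtain ⟨i, j, h1, h2, h3⟩ := h
  refine ⟨j, i, h2, h1, fun h => h3 ?_⟩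
  unfold det2 at h ⊢
  linarith

theorem ProperAt.rev {P Q : Fin 3 → Plane} {z : Plane} (h : ProperAt P Q z) :
    ProperAt (rev3 P) Q z := by
  obtain ⟨i, j, h1, h2, h3⟩ := h
  refine ⟨i.rev, j, ?_, h2, ?_⟩
  · rw [openSegment_symm]
    fin_cases i
    · exact h1
    · exact h1
  · intro h
    apply h3
    have key : rev3 P i.rev.succ - rev3 P i.rev.castSucc = -(P i.succ - P i.castSucc) := by
      rw [neg_sub]
      fin_cases i
      · rfl
      · rfl
    rw [key] at h
    unfold det2 at h ⊢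
    simp only [Prod.fst_neg, Prod.snd_neg, Prod.fst_sub, Prod.snd_sub] at h ⊢
    linarith

/-! ## Lists of edges -/

/-- The conditions on the list of vertices and on the list of edges. -/
structure GoodLists (Vs : List Vx) (Es : List (Vx × Vx)) : Prop where
  nodup : Vs.Nodup
  mem1 : ∀ d ∈ Es, d.1 ∈ Vs
  mem2 : ∀ d ∈ Es, d.2 ∈ Vs
  ne : ∀ d ∈ Es, d.1 ≠ d.2
  anti : ∀ d ∈ Es, d.swap ∉ Es
  inc : ∀ v ∈ Vs, ∃ d ∈ Es, EndOf v d

section Gen

variable {Vs : List Vx} {Es : List (Vx × Vx)} (hG : GoodLists Vs Es)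

/-- The number of a vertex. -/
def iot {Vs : List Vx} (v : Vx) (hv : v ∈ Vs) : Fin Vs.length :=
  ⟨Vs.idxOf v, List.idxOf_lt_length_iff.mpr hv⟩

theorem get_iot {v : Vx} (hv : v ∈ Vs) : Vs[(iot v hv : ℕ)]'(iot v hv).2 = v :=
  List.getElem_idxOf _

include hG in
theorem iot_get (i : Fin Vs.length) : iot (Vs[(i : ℕ)]) (List.getElem_mem _) = i := by
  apply Fin.ext
  exact hG.nodup.idxOf_getElem _ _

theorem iot_inj {u v : Vx} {hu : u ∈ Vs} {hv : v ∈ Vs} (h : iot u hu = iot v hv) : u = v := by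
  rw [← get_iot hu, ← get_iot hv]
  simp only [h]

/-- The edge with the name `d`. -/
def edg (d : Vx × Vx) (hd : d ∈ Es) (hG : GoodLists Vs Es) : Sym2 (Fin Vs.length) :=
  s(iot d.1 (hG.mem1 d hd), iot d.2 (hG.mem2 d hd))

theorem edg_inj {d d' : Vx × Vx} (hd : d ∈ Es) (hd' : d' ∈ Es)
    (h : edg d hd hG = edg d' hd' hG) : d = d' := by
  unfold edg at h
  rw [Sym2.eq_iff] at h
  rcases h with ⟨h1, h2⟩ | ⟨h1, h2⟩
  · exact Prod.ext (iot_inj h1) (iot_inj h2)
  · exfalso
    have e : d' = d.swap := Prod.ext (iot_inj h2).symm (iot_inj h1).symm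
    exact hG.anti d hd (e ▸ hd')

theorem edg_mem {d : Vx × Vx} (hd : d ∈ Es) :
    edg d hd hG ∈ (graphOf Vs.length (numEdges Vs Es)).edgeSet := by
  unfold edg graphOf
  rw [SimpleGraph.mem_edgeSet, SimpleGraph.fromRel_adj]
  refine ⟨fun h => hG.ne d hd (iot_inj h), Or.inl ?_⟩
  exact List.mem_map.mpr ⟨d, hd, rfl⟩

theorem exists_edg {e : Sym2 (Fin Vs.length)}
    (he : e ∈ (graphOf Vs.length (numEdges Vs Es)).edgeSet) :
    ∃ d, ∃ hd : d ∈ Es, e = edg d hd hG := by
  induction e using Sym2.ind with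
  | _ a b =>
  unfold graphOf at he
  rw [SimpleGraph.mem_edgeSet, SimpleGraph.fromRel_adj] at he
  rcases he with ⟨-, h | h⟩
  · obtain ⟨d, hd, h⟩ := List.mem_map.mp h
    refine ⟨d, hd, ?_⟩
    have h1 := congrArg Prod.fst h
    have h2 := congrArg Prod.snd h
    simp only at h1 h2
    unfold edg
    rw [Sym2.eq_iff]
    exact Or.inl ⟨Fin.ext h1.symm, Fin.ext h2.symm⟩
  · obtain ⟨d, hd, h⟩ := List.mem_map.mp h
    refine ⟨d, hd, ?_⟩
    have h1 := congrArg Prod.fst h
    have h2 := congrArg Prod.snd h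
    simp only at h1 h2
    unfold edg
    rw [Sym2.eq_iff]
    exact Or.inr ⟨Fin.ext h2.symm, Fin.ext h1.symm⟩

theorem mem_edg {d : Vx × Vx} (hd : d ∈ Es) {i : Fin Vs.length} :
    i ∈ edg d hd hG ↔ EndOf (Vs[(i : ℕ)]) d := by
  unfold edg EndOf
  rw [Sym2.mem_iff]
  constructor
  · rintro (h | h)
    · left; rw [← get_iot (hG.mem1 d hd)]; simp only [h]
    · right; rw [← get_iot (hG.mem2 d hd)]; simp only [h]
  · rintro (h | h)
    · left
      rw [← iot_get hG i]
      apply Fin.ext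
      simp only [iot]
      rw [h]
    · right
      rw [← iot_get hG i]
      apply Fin.ext
      simp only [iot]
      rw [h]

/-! ### From `LDraw` to `PolyDrawing` -/

/-- the name of an edge -/
noncomputable def nam (hG : GoodLists Vs Es) (e : Sym2 (Fin Vs.length)) : Vx × Vx := by
  classical
  exact if he : e ∈ (graphOf Vs.length (numEdges Vs Es)).edgeSet then
    (exists_edg hG he).choose else ((0, 0, 0), (0, 0, 0))

theorem nam_spec {e : Sym2 (Fin Vs.length)}
    (he : e ∈ (graphOf Vs.length (numEdges Vs Es)).edgeSet) :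
    ∃ hd : nam hG e ∈ Es, e = edg (nam hG e) hd hG := by
  unfold nam
  rw [dif_pos he]
  exact (exists_edg hG he).choose_spec

theorem nam_inj {e e' : Sym2 (Fin Vs.length)}
    (he : e ∈ (graphOf Vs.length (numEdges Vs Es)).edgeSet)
    (he' : e' ∈ (graphOf Vs.length (numEdges Vs Es)).edgeSet) (h : nam hG e = nam hG e') :
    e = e' := by
  obtain ⟨h1, h2⟩ := nam_spec hG he
  obtain ⟨h1', h2'⟩ := nam_spec hG he'
  rw [h2, h2']
  congr 1

include hG in
theorem draw_of_LDraw (D : LDraw Es) : ∃ D' : PolyDrawing 2 (graphOf Vs.length (numEdges Vs Es)),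
    D'.crossings.encard ≤ D.crossings.encard := by
  refine ⟨{ pos := fun i => D.pos (Vs[(i : ℕ)])
            path := fun e => dpath D.pos D.bend (nam hG e)
            pos_inj := ?_
            poly := ?_
            ends := ?_
            avoid := ?_
            proper := ?_ }, ?_⟩
  · intro i j hij
    obtain ⟨d, hd, hi⟩ := hG.inc (Vs[(i : ℕ)]) (List.getElem_mem _)
    obtain ⟨d', hd', hj⟩ := hG.inc (Vs[(j : ℕ)]) (List.getElem_mem _)
    have h := LDraw.pos_inj hd hd' hi hj hij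
    apply Fin.ext
    exact (hG.nodup.getElem_inj_iff).mp h
  · intro e he
    obtain ⟨h1, -⟩ := nam_spec hG he
    exact D.arcs _ h1
  · intro e he
    obtain ⟨h1, h2⟩ := nam_spec hG he
    have h3 : Sym2.map (fun i : Fin Vs.length => D.pos (Vs[(i : ℕ)])) (edg (nam hG e) h1 hG) =
        s(D.pos (nam hG e).1, D.pos (nam hG e).2) := by
      unfold edg
      rw [Sym2.map_mk, Sym2.eq_iff]
      exact Or.inl ⟨congrArg D.pos (get_iot _), congrArg D.pos (get_iot _)⟩
    rw [← h2] at h3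
    rw [h3]
    rfl
  · intro e he v hv hmem
    obtain ⟨h1, h2⟩ := nam_spec hG he
    obtain ⟨d, hd, hi⟩ := hG.inc (Vs[(v : ℕ)]) (List.getElem_mem _)
    have h3 := LDraw.avoid (D := D) h1 hd hi hmem
    rw [h2] at hv
    exact hv ((mem_edg hG h1).mpr h3)
  · intro e he e' he' hne z hz
    obtain ⟨h1, h2⟩ := nam_spec hG he
    obtain ⟨h1', h2'⟩ := nam_spec hG he'
    have hne' : nam hG e ≠ nam hG e' := fun h => hne (nam_inj hG he he' h)
    rcases D.inter _ h1 _ h1' hne' z hz with ⟨v, hv1, hv2, hv3⟩ | h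
    · left
      have hvV : v ∈ Vs := by
        rcases hv1 with rfl | rfl
        · exact hG.mem1 _ h1
        · exact hG.mem2 _ h1
      refine ⟨iot v hvV, ?_, ?_, ?_⟩
      · rw [h2, mem_edg hG h1, get_iot]; exact hv1
      · rw [h2', mem_edg hG h1', get_iot]; exact hv2
      · rw [get_iot]; exact hv3
    · exact Or.inr h
  · refine Set.encard_le_encard_of_injOn (f := Prod.map (Sym2.map (nam hG)) id) ?_ ?_
    · rintro ⟨a, z⟩ ⟨e, he, e', he', hne, ha, hz, hc⟩
      obtain ⟨h1, h2⟩ := nam_spec hG he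
      obtain ⟨h1', h2'⟩ := nam_spec hG he'
      simp only at ha hz hc
      refine ⟨nam hG e, h1, nam hG e', h1', fun h => hne (nam_inj hG he he' h), ?_, hz, ?_⟩
      · simp only [Prod.map_fst, ha]
        rw [Sym2.map_mk]
      · rintro ⟨v, hv1, hv2, hv3⟩
        have hvV : v ∈ Vs := by
          rcases hv1 with rfl | rfl
          · exact hG.mem1 _ h1
          · exact hG.mem2 _ h1
        refine hc ⟨iot v hvV, ?_, ?_, ?_⟩
        · rw [h2, mem_edg hG h1, get_iot]; exact hv1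
        · rw [h2', mem_edg hG h1', get_iot]; exact hv2
        · rw [get_iot]; exact hv3
    · rintro ⟨a, z⟩ ⟨e, he, e', he', hne, ha, hz, hc⟩ ⟨b, w⟩ ⟨f, hf, f', hf', hnf, hb, hw, hc'⟩ h
      simp only at ha hb
      simp only [Prod.map_apply, id_eq, Prod.mk.injEq] at h
      obtain ⟨h1, h2⟩ := h
      rw [ha, hb, Sym2.map_mk, Sym2.map_mk, Sym2.eq_iff] at h1
      rw [ha, hb, h2]
      congr 1
      rw [Sym2.eq_iff]
      rcases h1 with ⟨h3, h4⟩ | ⟨h3, h4⟩
      · exact Or.inl ⟨nam_inj hG he hf h3, nam_inj hG he' hf' h4⟩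
      · exact Or.inr ⟨nam_inj hG he hf' h3, nam_inj hG he' hf h4⟩

/-! ### From `PolyDrawing` to `LDraw` -/

theorem nam_edg {d : Vx × Vx} (hd : d ∈ Es) : nam hG (edg d hd hG) = d := by
  obtain ⟨h1, h2⟩ := nam_spec hG (edg_mem hG hd)
  exact (edg_inj hG hd h1 h2).symm

include hG in
theorem LDraw_of_draw (D : PolyDrawing 2 (graphOf Vs.length (numEdges Vs Es))) :
    ∃ D' : LDraw Es, D'.crossings.encard ≤ D.crossings.encard := by
  classical
  obtain ⟨pos, hpos⟩ : ∃ pos : Vx → Plane, ∀ v (hv : v ∈ Vs), pos v = D.pos (iot v hv) :=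
    ⟨fun v => if h : v ∈ Vs then D.pos (iot v h) else 0, fun v hv => by simp only [dif_pos hv]⟩
  obtain ⟨bend, hbend⟩ : ∃ bend : Vx × Vx → Plane, ∀ d (hd : d ∈ Es),
      bend d = D.path (edg d hd hG) 1 :=
    ⟨fun d => if h : d ∈ Es then D.path (edg d h hG) 1 else 0,
      fun d hd => by simp only [dif_pos hd]⟩
  have hpath : ∀ d (hd : d ∈ Es), dpath pos bend d = D.path (edg d hd hG) ∨
      dpath pos bend d = rev3 (D.path (edg d hd hG)) := by
    intro d hd
    have h1 := D.ends _ (edg_mem hG hd)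
    have h2 : Sym2.map D.pos (edg d hd hG) = s(pos d.1, pos d.2) := by
      unfold edg
      rw [Sym2.map_mk, hpos _ (hG.mem1 d hd), hpos _ (hG.mem2 d hd)]
    rw [h2, Sym2.eq_iff] at h1
    rcases h1 with ⟨h3, h4⟩ | ⟨h3, h4⟩
    · left
      funext i
      fin_cases i
      · exact h3.symm
      · exact hbend d hd
      · exact h4.symm
    · right
      funext i
      fin_cases i
      · exact h4.symm
      · exact hbend d hd
      · exact h3.symm
  have hset : ∀ d (hd : d ∈ Es), pathSet (dpath pos bend d) = pathSet (D.path (edg d hd hG)) := by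
    intro d hd
    rcases hpath d hd with h | h
    · rw [h]
    · rw [h, pathSet_rev]
  have hcommon : ∀ d (hd : d ∈ Es) d' (hd' : d' ∈ Es) z, CommonEnd pos d d' z ↔
      ∃ v, v ∈ edg d hd hG ∧ v ∈ edg d' hd' hG ∧ z = D.pos v := by
    intro d hd d' hd' z
    constructor
    · rintro ⟨v, hv1, hv2, hv3⟩
      have hvV : v ∈ Vs := by
        rcases hv1 with rfl | rfl
        · exact hG.mem1 _ hd
        · exact hG.mem2 _ hd
      refine ⟨iot v hvV, ?_, ?_, ?_⟩
      · rw [mem_edg hG hd, get_iot]; exact hv1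
      · rw [mem_edg hG hd', get_iot]; exact hv2
      · rw [hv3, hpos v hvV]
    · rintro ⟨v, hv1, hv2, hv3⟩
      refine ⟨Vs[(v : ℕ)], (mem_edg hG hd).mp hv1, (mem_edg hG hd').mp hv2, ?_⟩
      rw [hv3, hpos _ (List.getElem_mem _), iot_get hG]
  have hproper : ∀ d (hd : d ∈ Es) d' (hd' : d' ∈ Es) z,
      ProperAt (D.path (edg d hd hG)) (D.path (edg d' hd' hG)) z →
      ProperAt (dpath pos bend d) (dpath pos bend d') z := by
    intro d hd d' hd' z h
    rcases hpath d hd with h1 | h1 <;> rcases hpath d' hd' with h2 | h2 <;> rw [h1, h2]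
    · exact h
    · exact h.symm.rev.symm
    · exact h.rev
    · exact h.rev.symm.rev.symm
  have hne : ∀ d (hd : d ∈ Es) d' (hd' : d' ∈ Es), d ≠ d' → edg d hd hG ≠ edg d' hd' hG :=
    fun d hd d' hd' h h' => h (edg_inj hG hd hd' h')
  refine ⟨{ pos := pos, bend := bend, arcs := ?_, inter := ?_ }, ?_⟩
  · intro d hd
    have h := D.poly _ (edg_mem hG hd)
    rcases hpath d hd with h1 | h1
    · rw [h1]; exact h
    · rw [h1]; exact isPolyPath_rev h
  · intro d hd d' hd' hdd z hz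
    rw [hset d hd, hset d' hd'] at hz
    rcases D.proper _ (edg_mem hG hd) _ (edg_mem hG hd') (hne d hd d' hd' hdd) z hz with h | h
    · exact Or.inl ((hcommon d hd d' hd' z).mpr h)
    · exact Or.inr (hproper d hd d' hd' z h)
  · refine le_trans (Set.encard_le_encard ?_)
      (Set.encard_image_le (Prod.map (Sym2.map (nam hG)) id) D.crossings)
    rintro ⟨a, z⟩ ⟨d, hd, d', hd', hdd, ha, hz, hc⟩
    simp only at ha hz hc
    refine ⟨(s(edg d hd hG, edg d' hd' hG), z), ⟨_, edg_mem hG hd, _, edg_mem hG hd',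
      hne d hd d' hd' hdd, rfl, ?_, ?_⟩, ?_⟩
    · have h : z ∈ pathSet (dpath pos bend d) ∩ pathSet (dpath pos bend d') := hz
      rw [hset d hd, hset d' hd'] at h
      exact h
    · intro h
      exact hc ((hcommon d hd d' hd' z).mpr h)
    · simp only [Prod.map_apply, id_eq, Sym2.map_mk, nam_edg, ha]

end Gen

theorem cr_gen {Vs : List Vx} {Es : List (Vx × Vx)} (hG : GoodLists Vs Es) (k : ℕ) :
    FP.enc (List.replicate Vs.length (), numEdges Vs Es, k) ∈ CR 2 ↔
      ∃ D : LDraw Es, D.crossings.encard ≤ k := by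
  constructor
  · rintro ⟨n, E, k', henc, D, hD⟩
    have h := FP.Code.inj henc
    rw [Prod.mk.injEq, Prod.mk.injEq] at h
    obtain ⟨h1, h2, h3⟩ := h
    have h1' : n = Vs.length := by
      have := congrArg List.length h1
      simpa using this
    subst h1' h2 h3
    obtain ⟨D', hD'⟩ := LDraw_of_draw hG D
    exact ⟨D', hD'.trans hD⟩
  · rintro ⟨D, hD⟩
    obtain ⟨D', hD'⟩ := draw_of_LDraw hG D
    exact ⟨_, _, _, rfl, D', hD'.trans hD⟩

end Pool.Agent.CRt
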