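import Pool.Agent.CRt.Conf
import Pool.Agent.PolyTime.More

/-!
# The construction of the graph is computable in polynomial time
-/

set_option autoImplicit false
set_option maxHeartbeats 4000000

namespace Pool.Agent.CRt

open FP

section
variable {α : Type} [Code α]

/-- Ranges with bounded length. -/
theorem poly_rangeMin {f : α → ℕ} {l : α → List Unit} (hf : Poly f) (hl : Poly l) :
    Poly (fun a => List.range (min (f a) ((l a).length + 1))) := by
  refine Poly.range (by fun_prop) ?_
  refine PolyBdd.mono (g := fun a => (l a).length + 1) ?_ fun a => min_le_right _ _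
  exact PolyBdd.add (PolyBdd.length hl) (PolyBdd.const 1)

theorem poly_rangeLen {l : α → List Unit} (hl : Poly l) :
    Poly (fun a => List.range ((l a).length + 1)) := by
  refine Poly.range (by fun_prop) ?_
  exact PolyBdd.add (PolyBdd.length hl) (PolyBdd.const 1)

end

theorem flatMap_congr' {α β : Type} {l : List α} {f g : α → List β} (h : ∀ a ∈ l, f a = g a) :
    l.flatMap f = l.flatMap g := by
  induction l with
  | nil => rfl
  | cons a l ih =>
    rw [List.flatMap_cons, List.flatMap_cons, h a (by simp), ih fun b hb => h b (by simp [hb])]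

theorem poly_sortT : Poly sortT := by
  unfold sortT
  fun_prop

theorem poly_copyTriples : Poly (fun p : List Unit × List (ℕ × ℕ × ℕ) =>
    copyTriples p.1.length p.2) := by
  have h1 : Poly (fun p : List Unit × List (ℕ × ℕ × ℕ) =>
      (List.range (p.1.length + 1)).flatMap fun k =>
        (List.range (min k (p.1.length + 1))).flatMap fun j =>
        if 0 < j then allC.map fun a => ((a.1, 8 * j + a.2.1, 8 * k + a.2.2, true) : STriple)
        else []) := by
    refine Poly.flatMap (poly_rangeLen Poly.fst') ?_
    refine Poly.flatMap (poly_rangeMin Poly.snd' (Poly.fst' (α := _) |>.comp Poly.fst')) ?_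
    have := poly_sortT
    fun_prop
  have h2 : Poly (fun p : List Unit × List (ℕ × ℕ × ℕ) =>
      p.2.flatMap fun c => allC.map fun a =>
        ((8 * (sortT c).1 + a.1, 8 * (sortT c).2.1 + a.2.1, 8 * (sortT c).2.2.1 + a.2.2,
          (sortT c).2.2.2) : STriple)) := by
    refine Poly.flatMap Poly.snd' ?_
    have := poly_sortT
    fun_prop
  have h3 : Poly (fun p : List Unit × List (ℕ × ℕ × ℕ) =>
      (List.range (p.1.length + 1)).flatMap fun i => pat.map fun q =>
        ((8 * i + q.1, 8 * i + q.2.1, 8 * i + q.2.2.1, q.2.2.2) : STriple)) := by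
    refine Poly.flatMap (poly_rangeLen Poly.fst') ?_
    fun_prop
  have h4 : Poly (fun p : List Unit × List (ℕ × ℕ × ℕ) =>
      (List.range (p.1.length + 1)).flatMap fun j =>
        (List.range (min j (p.1.length + 1))).flatMap fun i => allC.flatMap fun a =>
        if a.1 < a.2.1 then
          [((8 * i + a.1, 8 * i + a.2.1, 8 * j + a.2.2, false) : STriple),
            ((8 * i + a.2.2, 8 * j + a.1, 8 * j + a.2.1, true) : STriple)]
        else []) := by
    refine Poly.flatMap (poly_rangeLen Poly.fst') ?_
    refine Poly.flatMap (poly_rangeMin Poly.snd' (Poly.fst'.comp Poly.fst')) ?_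
    fun_prop
  refine (((h1.append h2).append h3).append h4).congr fun p => ?_
  unfold copyTriples
  have e : ∀ k ∈ List.range (p.1.length + 1), min k (p.1.length + 1) = k := by
    intro k hk
    have := List.mem_range.1 hk
    omega
  rw [flatMap_congr' (l := List.range (p.1.length + 1)) (f := fun k =>
        (List.range (min k (p.1.length + 1))).flatMap fun j =>
        if 0 < j then allC.map fun a => ((a.1, 8 * j + a.2.1, 8 * k + a.2.2, true) : STriple)
        else []) (g := fun k =>
        (List.range k).flatMap fun j =>
        if 0 < j then allC.map fun a => ((a.1, 8 * j + a.2.1, 8 * k + a.2.2, true) : STriple)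
        else []) (fun k hk => by rw [e k hk])]
  rw [flatMap_congr' (l := List.range (p.1.length + 1)) (f := fun j =>
        (List.range (min j (p.1.length + 1))).flatMap fun i => allC.flatMap fun a =>
        if a.1 < a.2.1 then
          [((8 * i + a.1, 8 * i + a.2.1, 8 * j + a.2.2, false) : STriple),
            ((8 * i + a.2.2, 8 * j + a.1, 8 * j + a.2.1, true) : STriple)]
        else []) (g := fun j =>
        (List.range j).flatMap fun i => allC.flatMap fun a =>
        if a.1 < a.2.1 then
          [((8 * i + a.1, 8 * i + a.2.1, 8 * j + a.2.2, false) : STriple),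
            ((8 * i + a.2.2, 8 * j + a.1, 8 * j + a.2.1, true) : STriple)]
        else []) (fun k hk => by rw [e k hk])]

theorem poly_starC : Poly (fun p : ℕ × STriple => starC p.1 p.2) := by
  unfold starC
  fun_prop

theorem poly_starCurves : Poly (fun T : List STriple => starCurves T) := by
  unfold starCurves
  refine Poly.flatMap (Poly.range (by fun_prop) (PolyBdd.length Poly.ident)) ?_
  have := poly_starC
  fun_prop

abbrev In := List Unit × List STriple

theorem poly_curves : Poly (fun q : In => curves q.1.length q.2) := by
  unfold curves chordC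
  have := poly_starCurves
  have : Poly (fun q : In => List.range q.1.length) :=
    Poly.range (by fun_prop) (PolyBdd.length Poly.fst')
  fun_prop

theorem poly_forced : Poly (fun p : Cv × Cv => decide (Forced p.1 p.2)) := by
  unfold Forced
  fun_prop

theorem poly_forcedPairs : Poly (fun q : In => forcedPairs q.1.length q.2) := by
  unfold forcedPairs
  refine Poly.flatMap poly_curves ?_
  refine FP.Poly.map ?_ (by fun_prop)
  refine Poly.filter (poly_curves.comp Poly.fst') ?_
  exact poly_forced.comp (Poly.pair (by fun_prop) (by fun_prop))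

theorem poly_kk : Poly (fun q : In => kk q.1.length q.2) := by
  unfold kk
  have := poly_forcedPairs
  fun_prop

theorem bdd_kk : PolyBdd (fun q : In => kk q.1.length q.2) := PolyBdd.length poly_forcedPairs

theorem poly_KKrange : Poly (fun q : In => List.range (KK q.1.length q.2)) := by
  have := poly_kk
  refine Poly.range ?_ ?_
  · unfold KK
    fun_prop
  · exact PolyBdd.add (PolyBdd.mul (PolyBdd.const 2) bdd_kk) (PolyBdd.const 1)

theorem poly_rangeN (c d : ℕ) : Poly (fun q : In => List.range (c * q.1.length + d)) :=
  Poly.range (by fun_prop) (PolyBdd.add (PolyBdd.mul (PolyBdd.const c)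
    (PolyBdd.length Poly.fst')) (PolyBdd.const d))

theorem poly_conns : Poly (fun q : In => conns q.1.length) := by
  unfold conns lv rv hub
  have := poly_rangeN 3 1
  have := poly_rangeN 3 2
  fun_prop

theorem poly_curveEdges : Poly (fun p : In × Cv => curveEdges p.1.1.length p.2) := by
  unfold curveEdges lend rend lv rv star
  fun_prop

theorem poly_gEdges : Poly (fun q : In => gEdges q.1.length q.2) := by
  unfold gEdges connEdges
  refine Poly.append (Poly.flatMap poly_curves poly_curveEdges) ?_
  refine Poly.flatMap poly_conns ?_
  refine Poly.flatMap (poly_KKrange.comp Poly.fst') ?_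
  fun_prop

theorem poly_gVerts : Poly (fun q : In => gVerts q.1.length q.2) := by
  unfold gVerts lv rv hub star
  have h1 := poly_rangeN 3 2
  have h2 : Poly (fun q : In => List.range q.2.length) :=
    Poly.range (by fun_prop) (PolyBdd.length Poly.snd')
  refine Poly.append (Poly.append (Poly.append (Poly.append ?_ ?_) (FP.Poly.const _)) ?_) ?_
  · exact FP.Poly.map h1 (by fun_prop)
  · exact FP.Poly.map h1 (by fun_prop)
  · exact FP.Poly.map h2 (by fun_prop)
  · refine Poly.flatMap poly_conns ?_
    refine FP.Poly.map (poly_KKrange.comp Poly.fst') ?_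
    fun_prop

theorem beq_inst : (instBEqProd : BEq Vx) = instBEqOfDecidableEq := lawful_beq_subsingleton _ _

theorem idxOf_inst (v : Vx) (V : List Vx) :
    @List.idxOf Vx instBEqProd v V = @List.idxOf Vx instBEqOfDecidableEq v V := by
  rw [beq_inst]

theorem poly_numEdges {α : Type} [Code α] {V : α → List Vx} {E : α → List (Vx × Vx)}
    (hV : Poly V) (hE : Poly E) : Poly (fun a => numEdges (V a) (E a)) := by
  have h3 : Poly (fun p : α × (Vx × Vx) => V p.1) := hV.comp Poly.fst'
  have h4 : Poly (fun p : α × (Vx × Vx) => p.2.1) := by fun_prop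
  have h5 : Poly (fun p : α × (Vx × Vx) => p.2.2) := by fun_prop
  have h6 := Poly.pair (Poly.idxOf h4 h3) (Poly.idxOf h5 h3)
  have h7 := FP.Poly.map (g := fun a (d : Vx × Vx) => (@List.idxOf Vx instBEqOfDecidableEq d.1 (V a),
    @List.idxOf Vx instBEqOfDecidableEq d.2 (V a))) hE h6
  refine h7.congr fun a => ?_
  unfold numEdges
  refine List.map_congr_left fun d _ => ?_
  rw [← idxOf_inst, ← idxOf_inst]

theorem poly_repl {α β : Type} [Code α] [Code β] {V : α → List β} (hV : Poly V) :
    Poly (fun a => List.replicate (V a).length ()) :=
  Poly.replicate (by fun_prop) (PolyBdd.length hV) (FP.Poly.const ())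

theorem poly_graph : Poly (fun q : List Unit × List STriple =>
    (List.replicate (gVerts q.1.length q.2).length (),
      numEdges (gVerts q.1.length q.2) (gEdges q.1.length q.2), kk q.1.length q.2)) :=
  (poly_repl poly_gVerts).pair ((poly_numEdges poly_gVerts poly_gEdges).pair poly_kk)

end Pool.Agent.CRt
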