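import Pool.Agent.CRt.Normal
import Pool.Agent.CRt.ChordPch

/-!
# From a partial chirotope to functions with one kink
-/

set_option autoImplicit false
set_option maxHeartbeats 4000000

namespace Pool.Agent.CRt

open Filter Topology

/-- Values at `0` of the pattern functions. -/
def gA : ℕ → ℝ
  | 0 => 18
  | 1 => 270
  | 2 => 7
  | 3 => 114
  | 4 => 187
  | 5 => -540
  | 6 => -1085
  | _ => -13

/-- Slopes on the left of the pattern functions. -/
def gM : ℕ → ℝ
  | 0 => 50
  | 1 => 90
  | 2 => 120
  | 3 => 121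
  | 4 => 180
  | 5 => 181
  | 6 => 360
  | _ => 361

/-- Slopes on the right of the pattern functions. -/
def gM' : ℕ → ℝ
  | 0 => -3
  | 1 => 90
  | 2 => 120
  | 3 => 121
  | 4 => 180
  | 5 => 181
  | 6 => 360
  | _ => 361

theorem g_mono (a b : ℕ) (hab : a < b) (hb : b < 8) : gM a < gM b ∧ gM' a < gM' b := by
  interval_cases b <;> interval_cases a <;> constructor <;> simp only [gM, gM'] <;> norm_num

theorem g_far (a b : ℕ) (hab : a < b) (hb : b < 8) : gA b - gA a < 1073 * (gM b - gM a) := by
  interval_cases b <;> interval_cases a <;> simp only [gM, gA] <;> norm_num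

theorem pl_neg {α m m' x : ℝ} (hx : x ≤ 0) : pl α m m' x = α + m * x := by
  unfold pl
  rw [min_eq_left hx, max_eq_right hx]
  ring

theorem pl_pos {α m m' x : ℝ} (hx : 0 ≤ x) : pl α m m' x = α + m' * x := by
  unfold pl
  rw [min_eq_right hx, max_eq_left hx]
  ring

theorem g_pat (p : STriple) (hp : p ∈ pat) : ∃ x : ℝ,
    pl (gA p.1) (gM p.1) (gM' p.1) x = pl (gA p.2.2.1) (gM p.2.2.1) (gM' p.2.2.1) x ∧
    if p.2.2.2 then pl (gA p.1) (gM p.1) (gM' p.1) x < pl (gA p.2.1) (gM p.2.1) (gM' p.2.1) x
    else pl (gA p.2.1) (gM p.2.1) (gM' p.2.1) x < pl (gA p.1) (gM p.1) (gM' p.1) x := by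
  simp only [pat, List.mem_cons, List.not_mem_nil, or_false] at hp
  rcases hp with rfl | rfl | rfl | rfl | rfl | rfl | rfl | rfl | rfl | rfl | rfl | rfl | rfl |
    rfl | rfl
  · refine ⟨11 / 123, ?_⟩
    simp only [pl_pos (show (0 : ℝ) ≤ 11 / 123 by norm_num), gA, gM', if_true]
    norm_num
  · refine ⟨-96 / 71, ?_⟩
    simp only [pl_neg (show (-96 / 71 : ℝ) ≤ 0 by norm_num), gA, gM, if_true]
    norm_num
  · refine ⟨-13 / 10, ?_⟩
    simp only [pl_neg (show (-13 / 10 : ℝ) ≤ 0 by norm_num), gA, gM, if_true]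
    norm_num
  · refine ⟨279 / 92, ?_⟩
    simp only [pl_pos (show (0 : ℝ) ≤ 279 / 92 by norm_num), gA, gM', if_true]
    norm_num
  · refine ⟨1103 / 363, ?_⟩
    simp only [pl_pos (show (0 : ℝ) ≤ 1103 / 363 by norm_num), gA, gM', if_true]
    norm_num
  · refine ⟨31 / 364, ?_⟩
    simp only [pl_pos (show (0 : ℝ) ≤ 31 / 364 by norm_num), gA, gM', if_true]
    norm_num
  · refine ⟨-13 / 10, ?_⟩
    simp only [pl_neg (show (-13 / 10 : ℝ) ≤ 0 by norm_num), gA, gM, if_true]
    norm_num
  · refine ⟨31 / 364, ?_⟩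
    simp only [pl_pos (show (0 : ℝ) ≤ 31 / 364 by norm_num), gA, gM', Bool.false_eq_true,
      if_false]
    norm_num
  · refine ⟨1103 / 363, ?_⟩
    simp only [pl_pos (show (0 : ℝ) ≤ 1103 / 363 by norm_num), gA, gM', if_true]
    norm_num
  · refine ⟨810 / 91, ?_⟩
    simp only [pl_pos (show (0 : ℝ) ≤ 810 / 91 by norm_num), gA, gM', if_true]
    norm_num
  · refine ⟨271 / 54, ?_⟩
    simp only [pl_pos (show (0 : ℝ) ≤ 271 / 54 by norm_num), gA, gM', Bool.false_eq_true,
      if_false]
    norm_num
  · refine ⟨283 / 271, ?_⟩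
    simp only [pl_pos (show (0 : ℝ) ≤ 283 / 271 by norm_num), gA, gM', if_true]
    norm_num
  · refine ⟨-96 / 71, ?_⟩
    simp only [pl_neg (show (-96 / 71 : ℝ) ≤ 0 by norm_num), gA, gM, Bool.false_eq_true,
      if_false]
    norm_num
  · refine ⟨279 / 92, ?_⟩
    simp only [pl_pos (show (0 : ℝ) ≤ 279 / 92 by norm_num), gA, gM', if_true]
    norm_num
  · refine ⟨31 / 364, ?_⟩
    simp only [pl_pos (show (0 : ℝ) ≤ 31 / 364 by norm_num), gA, gM', Bool.false_eq_true,
      if_false]
    norm_num

/-- The crossing of two lines and the position of a third line. -/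
theorem cross_neg {ae af ag me mf mg : ℝ} (hm : me < mg) (hx : 1073 * (mg - me) < ag - ae) :
    ∃ x < (-1073 : ℝ), ae + me * x = ag + mg * x ∧
      (0 < (af - ae) * (mg - me) - (mf - me) * (ag - ae) → ae + me * x < af + mf * x) ∧
      ((af - ae) * (mg - me) - (mf - me) * (ag - ae) < 0 → af + mf * x < ae + me * x) := by
  have hd : 0 < mg - me := by linarith
  have e : ∀ u v : ℝ, u + v * (-(ag - ae) / (mg - me)) =
      (u * (mg - me) - v * (ag - ae)) / (mg - me) := by
    intro u v
    field_simp
    ring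
  refine ⟨-(ag - ae) / (mg - me), ?_, ?_, ?_, ?_⟩
  · rw [div_lt_iff₀ hd]
    linarith
  · rw [e, e]
    congr 1
    ring
  · intro h
    rw [e, e]
    refine div_lt_div_of_pos_right ?_ hd
    linarith
  · intro h
    rw [e, e]
    refine div_lt_div_of_pos_right ?_ hd
    linarith

theorem pch_pl {n : ℕ} {T : List (ℕ × ℕ × ℕ)} (hT : TValid n T) (h : PCH n T) :
    PLReal (8 * (n + 1)) (copyTriples n T) := by
  obtain ⟨x, y₀, hx, h0, hTr⟩ := normal_form hT h
  -- translation
  have hs : ∀ᶠ s in atTop, ∀ i ∈ Finset.range (n + 1), ∀ j ∈ Finset.range (n + 1), i < j →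
      (y₀ j - s * x j) - (y₀ i - s * x i) < -1074 * (x j - x i) := by
    rw [Filter.eventually_all_finset]
    intro i hi
    rw [Filter.eventually_all_finset]
    intro j hj
    by_cases hij : i < j
    · have hxx := hx i j hij (by simpa [Nat.lt_succ_iff] using hj)
      filter_upwards [eventually_gt_atTop ((y₀ j - y₀ i) / (x j - x i) + 1074)] with s hs _
      have hd : 0 < x j - x i := by linarith
      have : (y₀ j - y₀ i) / (x j - x i) < s - 1074 := by linarith
      rw [div_lt_iff₀ hd] at this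
      linarith
    · exact Eventually.of_forall fun e h => absurd h hij
  obtain ⟨s, hs⟩ := hs.exists
  set y : ℕ → ℝ := fun i => y₀ i - s * x i with hy
  have hfar : ∀ i j, i < j → j ≤ n → y j - y i < -1074 * (x j - x i) := by
    intro i j hij hj
    exact hs i (by simp; omega) j (by simp; omega) hij
  set dd : ℕ → ℕ → ℕ → ℝ := fun i j k => D3 (1, x i, y i) (1, x j, y j) (1, x k, y k) with hdd
  have hdd0 : ∀ i j k, dd i j k = D3 (1, x i, y₀ i) (1, x j, y₀ j) (1, x k, y₀ k) := by
    intro i j k
    simp only [hdd, hy]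
    unfold D3
    ring
  -- the perturbed lines
  set al : ℕ → ℕ → ℝ → ℝ := fun i a e => -y i + e * gA a with hal
  set mm : ℕ → ℕ → ℝ → ℝ := fun i a e => x i + e * gM a with hmm
  set mm' : ℕ → ℕ → ℝ → ℝ := fun i a e => x i + e * gM' a with hmm'
  have hsmall : ∀ f : ℝ → ℝ, Continuous f → 0 < f 0 → ∀ᶠ e in 𝓝[>] (0 : ℝ), 0 < f e := by
    intro f hf h0
    exact ((hf.tendsto 0).eventually (lt_mem_nhds h0)).filter_mono nhdsWithin_le_nhds
  have E1 : ∀ᶠ e in 𝓝[>] (0 : ℝ), ∀ i ∈ Finset.range (n + 1), ∀ j ∈ Finset.range (n + 1),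
      ∀ a ∈ Finset.range 8, ∀ b ∈ Finset.range 8, i < j →
      0 < mm j b e - mm i a e ∧ 0 < mm' j b e - mm' i a e ∧
      0 < (al j b e - al i a e) - 1073 * (mm j b e - mm i a e) := by
    simp only [Filter.eventually_all_finset]
    intro i hi j hj a ha b hb
    by_cases hij : i < j
    · have hxx := hx i j hij (by simpa [Nat.lt_succ_iff] using hj)
      have hff := hfar i j hij (by simpa [Nat.lt_succ_iff] using hj)
      have c1 := hsmall (fun e => mm j b e - mm i a e) (by simp only [hmm]; fun_prop)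
        (by simp only [hmm]; linarith)
      have c2 := hsmall (fun e => mm' j b e - mm' i a e) (by simp only [hmm']; fun_prop)
        (by simp only [hmm']; linarith)
      have c3 := hsmall (fun e => (al j b e - al i a e) - 1073 * (mm j b e - mm i a e))
        (by simp only [hmm, hal]; fun_prop) (by simp only [hmm, hal]; linarith)
      filter_upwards [c1, c2, c3] with e h1 h2 h3 _
      exact ⟨h1, h2, h3⟩
    · exact Eventually.of_forall fun e h => absurd h hij
  have E3 : ∀ᶠ e in 𝓝[>] (0 : ℝ), ∀ i ∈ Finset.range (n + 1), ∀ j ∈ Finset.range (n + 1),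
      ∀ k ∈ Finset.range (n + 1), ∀ a ∈ Finset.range 8, ∀ b ∈ Finset.range 8,
      ∀ c ∈ Finset.range 8, dd i j k ≠ 0 →
      0 < dd i j k * ((al j b e - al i a e) * (mm k c e - mm i a e) -
        (mm j b e - mm i a e) * (al k c e - al i a e)) := by
    simp only [Filter.eventually_all_finset]
    intro i hi j hj k hk a ha b hb c hc
    by_cases h0 : dd i j k = 0
    · exact Eventually.of_forall fun e h => absurd h0 h
    · have c1 := hsmall (fun e => dd i j k * ((al j b e - al i a e) * (mm k c e - mm i a e) -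
        (mm j b e - mm i a e) * (al k c e - al i a e))) (by simp only [hmm, hal]; fun_prop)
        (by
          have e1 : (al j b 0 - al i a 0) * (mm k c 0 - mm i a 0) -
              (mm j b 0 - mm i a 0) * (al k c 0 - al i a 0) = dd i j k := by
            simp only [hmm, hal, hdd]
            unfold D3
            ring
          show 0 < dd i j k * _
          rw [e1]
          exact mul_self_pos.2 h0)
      filter_upwards [c1] with e h1 _
      exact h1
  obtain ⟨e, ⟨he1, he3⟩, he0⟩ := ((E1.and E3).and self_mem_nhdsWithin).exists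
  have he0 : 0 < e := he0
  have F1 : ∀ i j a b, i < j → j ≤ n → a < 8 → b < 8 → mm i a e < mm j b e ∧
      mm' i a e < mm' j b e ∧ 1073 * (mm j b e - mm i a e) < al j b e - al i a e := by
    intro i j a b hij hj ha hb
    obtain ⟨q1, q2, q3⟩ := he1 i (by simp; omega) j (by simp; omega) a (by simpa using ha) b
      (by simpa using hb) hij
    exact ⟨by linarith, by linarith, by linarith⟩
  have F3 : ∀ i j k a b c, i < j → j < k → k ≤ n → a < 8 → b < 8 → c < 8 → dd i j k ≠ 0 →
      0 < dd i j k * ((al j b e - al i a e) * (mm k c e - mm i a e) -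
        (mm j b e - mm i a e) * (al k c e - al i a e)) := by
    intro i j k a b c hij hjk hk ha hb hc h0
    exact he3 i (by simp; omega) j (by simp; omega) k (by simp; omega) a (by simpa using ha) b
      (by simpa using hb) c (by simpa using hc) h0
  set A : ℕ → ℝ := fun f => al (f / 8) (f % 8) e with hA
  set M : ℕ → ℝ := fun f => mm (f / 8) (f % 8) e with hM
  set M' : ℕ → ℝ := fun f => mm' (f / 8) (f % 8) e with hM'
  have div8 : ∀ i a, a < 8 → (8 * i + a) / 8 = i := fun i a ha => by omega
  have mod8 : ∀ i a, a < 8 → (8 * i + a) % 8 = a := fun i a ha => by omega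
  have hA8 : ∀ i a, a < 8 → A (8 * i + a) = al i a e := fun i a ha => by
    simp only [hA, div8 i a ha, mod8 i a ha]
  have hM8 : ∀ i a, a < 8 → M (8 * i + a) = mm i a e := fun i a ha => by
    simp only [hM, div8 i a ha, mod8 i a ha]
  have hM8' : ∀ i a, a < 8 → M' (8 * i + a) = mm' i a e := fun i a ha => by
    simp only [hM', div8 i a ha, mod8 i a ha]
  -- constraints for three different lines
  have three : ∀ i j k a b c, i < j → j < k → k ≤ n → a < 8 → b < 8 → c < 8 → ∀ σ : Bool,
      (if σ then 0 < dd i j k else dd i j k < 0) →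
      ∃ z : ℝ, pl (A (8 * i + a)) (M (8 * i + a)) (M' (8 * i + a)) z =
        pl (A (8 * k + c)) (M (8 * k + c)) (M' (8 * k + c)) z ∧
        if σ then pl (A (8 * i + a)) (M (8 * i + a)) (M' (8 * i + a)) z <
          pl (A (8 * j + b)) (M (8 * j + b)) (M' (8 * j + b)) z
        else pl (A (8 * j + b)) (M (8 * j + b)) (M' (8 * j + b)) z <
          pl (A (8 * i + a)) (M (8 * i + a)) (M' (8 * i + a)) z := by
    intro i j k a b c hij hjk hk ha hb hc σ hσ
    rw [hA8 i a ha, hM8 i a ha, hM8' i a ha, hA8 j b hb, hM8 j b hb, hM8' j b hb, hA8 k c hc,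
      hM8 k c hc, hM8' k c hc]
    obtain ⟨q1, q2, q3⟩ := F1 i k a c (by omega) hk ha hc
    obtain ⟨z, hz, ez, z1, z2⟩ := cross_neg (af := al j b e) (mf := mm j b e) q1 q3
    have hz0 : z ≤ 0 := by linarith
    refine ⟨z, ?_, ?_⟩
    · rw [pl_neg hz0, pl_neg hz0]
      exact ez
    · rw [pl_neg hz0, pl_neg hz0]
      cases σ
      · simp only [Bool.false_eq_true, if_false] at hσ ⊢
        refine z2 ?_
        have := F3 i j k a b c hij hjk hk ha hb hc hσ.ne
        by_contra hcon
        have := mul_nonpos_of_nonpos_of_nonneg hσ.le (not_lt.1 hcon)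
        linarith
      · simp only [if_true] at hσ ⊢
        refine z1 ?_
        exact (pos_iff_pos_of_mul_pos (F3 i j k a b c hij hjk hk ha hb hc hσ.ne')).1 hσ
  refine ⟨A, M, M', ?_, ?_⟩
  · intro f g hfg hg
    have hdiv : f / 8 ≤ g / 8 := Nat.div_le_div_right hfg.le
    have hgn : g / 8 ≤ n := by omega
    rcases Nat.eq_or_lt_of_le hdiv with h1 | h1
    · have hm : f % 8 < g % 8 := by omega
      have := g_mono (f % 8) (g % 8) hm (Nat.mod_lt _ (by norm_num))
      simp only [hM, hM', hmm, hmm']
      rw [h1]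
      constructor
      · have := mul_lt_mul_of_pos_left this.1 he0
        linarith
      · have := mul_lt_mul_of_pos_left this.2 he0
        linarith
    · have := F1 (f / 8) (g / 8) (f % 8) (g % 8) h1 hgn (Nat.mod_lt _ (by norm_num))
        (Nat.mod_lt _ (by norm_num))
      exact ⟨this.1, this.2.1⟩
  · intro t ht
    rcases mem_copyTriples.1 ht with ⟨k, hk, j, hj, hj0, a, ha, b, hb, c, hc, rfl⟩ |
      ⟨t, htT, a, ha, b, hb, c, hc, rfl⟩ | ⟨i, hi, p, hp, rfl⟩ |
      ⟨j, hj, i, hi, a, ha, b, hb, c, hc, hab, rfl | rfl⟩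
    · have := three 0 j k a b c hj0 hj hk ha hb hc true (by
        rw [if_pos rfl, hdd0]
        exact h0 j k hj0 hj hk)
      simpa only [Nat.mul_zero, Nat.zero_add] using this
    · obtain ⟨t1, t2, t3, t4, t5, t6, t7, t8, t9⟩ := hT t htT
      have s1 := sortT_sorted t7 t8 t9
      have s2 := sortT_mem (c := t) (Q := fun i => i ≤ n) t4 t5 t6
      refine three _ _ _ a b c s1.1 s1.2 s2.2.2 ha hb hc (sortT t).2.2.2 ?_
      have e1 := sortT_D3 (fun i => (1, x i, y₀ i)) t
      have e2 := hTr t htT
      rw [e1] at e2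
      simp only [hdd0]
      split_ifs at e2 ⊢ with hσ
      · linarith
      · linarith
    · obtain ⟨l1, l2, l3⟩ := pat_lt p hp
      obtain ⟨z, z1, z2⟩ := g_pat p hp
      have hpl : ∀ a < 8, pl (A (8 * i + a)) (M (8 * i + a)) (M' (8 * i + a)) z =
          pl (-y i) (x i) (x i) z + e * pl (gA a) (gM a) (gM' a) z := by
        intro a ha
        rw [hA8 i a ha, hM8 i a ha, hM8' i a ha]
        simp only [hal, hmm, hmm']
        unfold pl
        ring
      refine ⟨z, ?_, ?_⟩
      · simp only
        rw [hpl _ (by omega), hpl _ (by omega), z1]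
      · simp only
        rw [hpl _ (by omega), hpl _ (by omega)]
        split_ifs at z2 ⊢ with hσ
        · have := mul_lt_mul_of_pos_left z2 he0
          linarith
        · have := mul_lt_mul_of_pos_left z2 he0
          linarith
    · obtain ⟨q1, q2, q3⟩ := F1 i j a c hi hj ha hc
      obtain ⟨z, hz, ez, z1, z2⟩ := cross_neg (af := al i b e) (mf := mm i b e) q1 q3
      have hz0 : z ≤ 0 := by linarith
      refine ⟨z, ?_, ?_⟩
      · simp only
        rw [pl_neg hz0, pl_neg hz0, hA8 i a ha, hM8 i a ha, hA8 j c hc, hM8 j c hc]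
        exact ez
      · simp only [Bool.false_eq_true, if_false]
        rw [pl_neg hz0, pl_neg hz0, hA8 i a ha, hM8 i a ha, hA8 i b hb, hM8 i b hb]
        simp only [hal, hmm]
        have g1 := g_mono a b hab hb
        have g2 := g_far a b hab hb
        have g3 : (gM b - gM a) * z < (gM b - gM a) * (-1073) :=
          mul_lt_mul_of_pos_left hz (by linarith [g1.1])
        have g4 : gA b + gM b * z < gA a + gM a * z := by linarith
        have := mul_lt_mul_of_pos_left g4 he0
        linarith
    · obtain ⟨q1, q2, q3⟩ := F1 i j c b hi hj hc hb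
      obtain ⟨z, hz, ez, z1, z2⟩ := cross_neg (af := al j a e) (mf := mm j a e) q1 q3
      have hz0 : z ≤ 0 := by linarith
      refine ⟨z, ?_, ?_⟩
      · simp only
        rw [pl_neg hz0, pl_neg hz0, hA8 i c hc, hM8 i c hc, hA8 j b hb, hM8 j b hb]
        exact ez
      · simp only [if_true]
        rw [pl_neg hz0, pl_neg hz0, hA8 i c hc, hM8 i c hc, hA8 j a ha, hM8 j a ha, ez]
        simp only [hal, hmm]
        have g1 := g_mono a b hab hb
        have g2 := g_far a b hab hb
        have g3 : (gM b - gM a) * z < (gM b - gM a) * (-1073) :=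
          mul_lt_mul_of_pos_left hz (by linarith [g1.1])
        have g4 : gA b + gM b * z < gA a + gM a * z := by linarith
        have := mul_lt_mul_of_pos_left g4 he0
        linarith

end Pool.Agent.CRt
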