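import Pool.Agent.CRt.SlpBlk

/-!
# Straight-line programs for systems of gates: correctness (module M10)
-/

set_option autoImplicit false

namespace Pool.Agent.CRt

/-! ## Validity -/

lemma ureg_lt {p q m i t : ℕ} (hp : p < q) (hq : 3 * m ≤ q) (hi : i ≤ 3 * m) (ht : q < t) :
    ureg p i < 3 * t + 2 := by
  unfold ureg
  split_ifs <;> omega

lemma pq_facts (G : List Gate) : pG G < qG G ∧ 3 * G.length ≤ qG G ∧
    qG G = 25 * G.length + 20 ∧ pG G = 16 * G.length + 10 := by
  unfold pG qG pp qq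
  omega

lemma getD_valid {G : List Gate} (hG : GValid (3 * G.length) G) (c : ℕ) :
    (G.getD c (true, 0, 0, 0)).2.1 ≤ 3 * G.length ∧
    (G.getD c (true, 0, 0, 0)).2.2.1 ≤ 3 * G.length ∧
    (G.getD c (true, 0, 0, 0)).2.2.2 ≤ 3 * G.length := by
  rcases lt_or_ge c G.length with h | h
  · rw [List.getD_eq_getElem _ _ h]
    exact hG _ (List.getElem_mem h)
  · rw [List.getD_eq_default _ _ h]
    simp

lemma blk_lt {G : List Gate} (hG : GValid (3 * G.length) G) {t : ℕ} (ht : t < nblk G) :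
    (blk G t).1 < 3 * t + 2 ∧ (blk G t).2 < 3 * t + 2 := by
  obtain ⟨h1, h2, h3, h4⟩ := pq_facts G
  unfold nblk at ht
  unfold blk
  split_ifs with c1 c2 c3 c4 c5 c6
  · omega
  · simp only; omega
  · simp only; omega
  · simp only; omega
  · simp only; omega
  · simp only; omega
  · generalize hc : (t - (qG G + 4)) / 9 = c
    generalize ho : (t - (qG G + 4)) % 9 = o
    have ht' : t = qG G + 4 + 9 * c + o := by omega
    have ho9 : o < 9 := by omega
    have hcm : c ≤ 4 * G.length := by omega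
    have hv := getD_valid hG c
    have hU : ∀ i, i ≤ 3 * G.length → ureg (pG G) i < 3 * t + 2 := fun i hi =>
      ureg_lt h1 h2 hi (by omega)
    unfold pieceOp tailOp gateOp powOp lastOp
    have hU2 : c < 4 * G.length → G.length ≤ c →
        ureg (pG G) (c - G.length + 1) < 3 * t + 2 := fun h h' => hU _ (by omega)
    split_ifs with d1 d2 d3 d4 d5 d6 d7 d8 d9 d10 <;>
      simp only <;>
      first
        | omega
        | exact ⟨hU _ hv.1, hU _ hv.2.1⟩
        | exact ⟨by omega, hU _ hv.1⟩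
        | exact ⟨by omega, hU _ hv.2.1⟩
        | exact ⟨by omega, hU _ hv.2.2⟩

theorem slp_of_valid {G : List Gate} (hG : GValid (3 * G.length) G) :
    SLPValid (slpOf G).1 := by
  intro t ht
  have hlen : (slpOf G).1.length = nblk G := by simp [slpOf]
  rw [hlen] at ht
  have h : (slpOf G).1.getD t (0, 0) = blk G t := by
    rw [List.getD_eq_getElem _ _ (by rw [hlen]; exact ht)]
    simp [slpOf]
  unfold opA opB
  rw [h]
  exact blk_lt hG ht

/-! ## Values -/

/-- The equations of the program. -/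
def Sat (G : List Gate) (v : ℕ → ℝ) : Prop :=
  v 0 = 0 ∧ v 1 = -1 / 2 ∧ ∀ t < nblk G, v (3 * t + 3) = v (blk G t).1 * v (blk G t).2 ∧
    v (3 * t + 4) = 2 * v (blk G t).1 - v (blk G t).2

lemma slpOf_length (G : List Gate) : (slpOf G).1.length = nblk G := by simp [slpOf]

lemma slpOf_getD {G : List Gate} {t : ℕ} (ht : t < nblk G) :
    (slpOf G).1.getD t (0, 0) = blk G t := by
  rw [List.getD_eq_getElem _ _ (by rw [slpOf_length]; exact ht)]
  simp [slpOf]

lemma slpSat_iff (G : List Gate) (v : ℕ → ℝ) : SLPSat (slpOf G).1 v ↔ Sat G v := by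
  unfold SLPSat Sat
  rw [slpOf_length]
  refine and_congr_right fun _ => and_congr_right fun _ => forall_congr' fun t => ?_
  refine forall_congr' fun ht => ?_
  unfold opA opB
  rw [slpOf_getD ht]

noncomputable def rr (G : List Gate) : ℝ := (1 / 4) ^ 2 ^ pG G
noncomputable def th (G : List Gate) : ℝ := (1 / 4) ^ 2 ^ qG G

lemma rr_pos (G : List Gate) : 0 < rr G := by unfold rr; positivity
lemma th_pos (G : List Gate) : 0 < th G := by unfold th; positivity

noncomputable def rho (G : List Gate) (u : ℕ → ℝ) (g : Gate) : ℝ :=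
  if g.1 then u g.2.1 * u g.2.2.1 - rr G * u g.2.2.2
  else rr G * u g.2.1 + rr G * u g.2.2.1 - rr G * u g.2.2.2

noncomputable def term (G : List Gate) (u : ℕ → ℝ) (c : ℕ) : ℝ :=
  if c < G.length then (2 * rho G u (G.getD c (true, 0, 0, 0))) ^ 2
  else if c < 4 * G.length then th G * u (c - G.length + 1) ^ 6
  else -(th G) * rr G ^ 5

lemma blk_piece {G : List Gate} {c o : ℕ} (hc : c ≤ 4 * G.length) (ho : o < 9) :
    blk G (qG G + 4 + 9 * c + o) = pieceOp G c o := by
  unfold blk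
  rw [if_neg (by omega), if_neg (by omega), if_neg (by omega), if_neg (by omega),
    if_neg (by omega), if_neg (by omega)]
  congr 1 <;> omega

section
variable {G : List Gate} {v : ℕ → ℝ}

lemma sat_s (h : Sat G v) : ∀ t : ℕ, t ≤ qG G → v (3 * t + 3) = (1 / 4) ^ 2 ^ t := by
  intro t
  induction t with
  | zero =>
    intro _
    have h1 := (h.2.2 0 (by unfold nblk; omega)).1
    rw [show blk G 0 = (1, 1) from rfl] at h1
    simp only [h.2.1] at h1
    rw [h1]
    norm_num
  | succ t ih =>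
    intro ht
    have h1 := (h.2.2 (t + 1) (by unfold nblk; omega)).1
    have h2 : blk G (t + 1) = (3 * (t + 1), 3 * (t + 1)) := by
      unfold blk
      rw [if_neg (by omega), if_pos ht]
    rw [h2] at h1
    simp only at h1
    rw [h1, show 3 * (t + 1) = 3 * t + 3 by ring, ih (by omega), pow_succ, pow_mul, sq]

lemma sat_r (h : Sat G v) : v (3 * pG G + 3) = rr G := sat_s h _ (pq_facts G).1.le
lemma sat_th (h : Sat G v) : v (3 * qG G + 3) = th G := sat_s h _ le_rfl

lemma sat_blk (h : Sat G v) {t a b k k' : ℕ} (ht : t < nblk G) (hb : blk G t = (a, b))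
    (hk : k = 3 * t + 3) (hk' : k' = 3 * t + 4) : v k = v a * v b ∧ v k' = 2 * v a - v b := by
  have := h.2.2 t ht
  rw [hb] at this
  rw [hk, hk']
  exact this

lemma sat_2r (h : Sat G v) : v (3 * qG G + 7) = 2 * rr G := by
  have h2 : blk G (qG G + 1) = (3 * pG G + 3, 0) := by
    unfold blk
    rw [if_neg (by omega), if_neg (by omega), if_pos rfl]
  have := (sat_blk h (t := qG G + 1) (by unfold nblk; omega) h2 rfl
    (k' := 3 * qG G + 7) (by ring)).2
  rw [this, sat_r h, h.1]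
  ring

lemma sat_A0 (h : Sat G v) : v (3 * qG G + 10) = 0 := by
  have h2 : blk G (qG G + 2) = (0, 0) := by
    unfold blk
    rw [if_neg (by omega), if_neg (by omega), if_neg (by omega), if_pos rfl]
  have := (sat_blk h (t := qG G + 2) (by unfold nblk; omega) h2 rfl
    (k' := 3 * qG G + 10) (by ring)).2
  rw [this, h.1]
  ring

lemma sat_H0 (h : Sat G v) : v (3 * qG G + 13) = th G := by
  have h2 : blk G (qG G + 3) = (3 * qG G + 3, 3 * qG G + 3) := by
    unfold blk
    rw [if_neg (by omega), if_neg (by omega), if_neg (by omega), if_neg (by omega), if_pos rfl]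
  have := (sat_blk h (t := qG G + 3) (by unfold nblk; omega) h2 rfl
    (k' := 3 * qG G + 13) (by ring)).2
  rw [this, sat_th h]
  ring

lemma sat_piece (h : Sat G v) {c : ℕ} (hc : c ≤ 4 * G.length) (o : ℕ) {a b k k' : ℕ}
    (ho : o < 9) (hop : pieceOp G c o = (a, b)) (hk : k = 3 * qG G + 27 * c + 15 + 3 * o)
    (hk' : k' = 3 * qG G + 27 * c + 16 + 3 * o) : v k = v a * v b ∧ v k' = 2 * v a - v b :=
  sat_blk h (t := qG G + 4 + 9 * c + o) (by unfold nblk; omega) (by rw [blk_piece hc ho, hop])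
    (by omega) (by omega)

lemma pieceOp_gate {c o : ℕ} (hc : c < G.length) {g : Gate}
    (hg : G.getD c (true, 0, 0, 0) = g) (ho : ¬ 6 ≤ o) :
    pieceOp G c o = gateOp (pG G) (qG G) (3 * qG G + 27 * c) g o := by
  unfold pieceOp
  rw [if_neg ho, if_pos hc, hg]

/-- the values of the variables -/
def uu (G : List Gate) (v : ℕ → ℝ) (i : ℕ) : ℝ := v (ureg (pG G) i)

lemma sat_mul (h : Sat G v) {c : ℕ} (hc : c < G.length) {g : Gate}
    (hg : G.getD c (true, 0, 0, 0) = g) (h1 : g.1 = true) :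
    v (3 * qG G + 27 * c + 15) = uu G v g.2.1 * uu G v g.2.2.1 ∧
    v (3 * qG G + 27 * c + 18) = 2 * rr G * uu G v g.2.2.2 ∧
    v (3 * qG G + 27 * c + 28) = 2 * rho G (uu G v) g := by
  have hc' : c ≤ 4 * G.length := by omega
  have e0 := (sat_piece h hc' 0 (by norm_num) (a := ureg (pG G) g.2.1)
    (b := ureg (pG G) g.2.2.1) (by rw [pieceOp_gate hc hg (by norm_num)]; simp [gateOp, h1]) rfl rfl).1
  have e1 := (sat_piece h hc' 1 (by norm_num) (a := 3 * qG G + 7)
    (b := ureg (pG G) g.2.2.2) (by rw [pieceOp_gate hc hg (by norm_num)]; simp [gateOp, h1]) rfl rfl).1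
  have e4 := (sat_piece h hc' 4 (by norm_num) (a := 3 * qG G + 27 * c + 15)
    (b := 3 * qG G + 27 * c + 18) (by rw [pieceOp_gate hc hg (by norm_num)]; simp [gateOp, h1]) rfl rfl).2
  simp only [mul_zero, add_zero, mul_one] at e0 e1 e4
  rw [sat_2r h] at e1
  refine ⟨e0, e1, ?_⟩
  rw [e4, e0]
  rw [show 3 * qG G + 27 * c + 15 + 3 = 3 * qG G + 27 * c + 18 by ring] at e1
  rw [e1]
  unfold rho uu
  rw [if_pos h1]
  ring

lemma sat_add (h : Sat G v) {c : ℕ} (hc : c < G.length) {g : Gate}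
    (hg : G.getD c (true, 0, 0, 0) = g) (h1 : g.1 = false) :
    v (3 * qG G + 27 * c + 15) = rr G * uu G v g.2.1 ∧
    v (3 * qG G + 27 * c + 18) = rr G * uu G v g.2.2.2 ∧
    v (3 * qG G + 27 * c + 21) = 2 * rr G * uu G v g.2.2.1 ∧
    v (3 * qG G + 27 * c + 25) = 2 * (rr G * uu G v g.2.2.2) - 2 * rr G * uu G v g.2.2.1 ∧
    v (3 * qG G + 27 * c + 28) = 2 * rho G (uu G v) g := by
  have hc' : c ≤ 4 * G.length := by omega
  have e0 := (sat_piece h hc' 0 (k := 3 * qG G + 27 * c + 15) (by norm_num) (a := 3 * pG G + 3)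
    (b := ureg (pG G) g.2.1) (by rw [pieceOp_gate hc hg (by norm_num)]; simp [gateOp, h1]) (by ring) rfl).1
  have e1 := (sat_piece h hc' 1 (k := 3 * qG G + 27 * c + 18) (by norm_num) (a := 3 * pG G + 3)
    (b := ureg (pG G) g.2.2.2) (by rw [pieceOp_gate hc hg (by norm_num)]; simp [gateOp, h1]) (by ring) rfl).1
  have e2 := (sat_piece h hc' 2 (k := 3 * qG G + 27 * c + 21) (by norm_num) (a := 3 * qG G + 7)
    (b := ureg (pG G) g.2.2.1) (by rw [pieceOp_gate hc hg (by norm_num)]; simp [gateOp, h1]) (by ring) rfl).1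
  have e3 := (sat_piece h hc' 3 (k' := 3 * qG G + 27 * c + 25) (by norm_num)
    (a := 3 * qG G + 27 * c + 18)
    (b := 3 * qG G + 27 * c + 21) (by rw [pieceOp_gate hc hg (by norm_num)]; simp [gateOp, h1]) rfl (by ring)).2
  have e4 := (sat_piece h hc' 4 (k' := 3 * qG G + 27 * c + 28) (by norm_num)
    (a := 3 * qG G + 27 * c + 15)
    (b := 3 * qG G + 27 * c + 25) (by rw [pieceOp_gate hc hg (by norm_num)]; simp [gateOp, h1]) rfl (by ring)).2
  rw [sat_r h] at e0 e1
  rw [sat_2r h] at e2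
  rw [e1, e2] at e3
  rw [e0, e3] at e4
  refine ⟨e0, e1, e2, e3, ?_⟩
  rw [e4]
  unfold rho uu
  rw [h1, if_neg (by simp)]
  ring

lemma sat_pow (h : Sat G v) {c : ℕ} (hc : c < 4 * G.length) (hc2 : ¬ c < G.length) :
    v (3 * qG G + 27 * c + 15) = uu G v (c - G.length + 1) ^ 2 ∧
    v (3 * qG G + 27 * c + 18) = uu G v (c - G.length + 1) ^ 4 ∧
    v (3 * qG G + 27 * c + 21) = uu G v (c - G.length + 1) ^ 6 := by
  have hc' : c ≤ 4 * G.length := by omega
  have e0 := (sat_piece h hc' 0 (k := 3 * qG G + 27 * c + 15) (by norm_num)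
    (a := ureg (pG G) (c - G.length + 1)) (b := ureg (pG G) (c - G.length + 1))
    (by simp [pieceOp, powOp, hc, hc2]) (by ring) rfl).1
  have e1 := (sat_piece h hc' 1 (k := 3 * qG G + 27 * c + 18) (by norm_num)
    (a := 3 * qG G + 27 * c + 15) (b := 3 * qG G + 27 * c + 15)
    (by simp [pieceOp, powOp, hc, hc2]) (by ring) rfl).1
  have e2 := (sat_piece h hc' 2 (k := 3 * qG G + 27 * c + 21) (by norm_num)
    (a := 3 * qG G + 27 * c + 15) (b := 3 * qG G + 27 * c + 18)
    (by simp [pieceOp, powOp, hc, hc2]) (by ring) rfl).1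
  rw [e0] at e1
  rw [e0, e1] at e2
  unfold uu
  refine ⟨by rw [e0]; ring, by rw [e1]; ring, by rw [e2]; ring⟩

lemma sat_last (h : Sat G v) {c : ℕ} (hc : c = 4 * G.length) :
    v (3 * qG G + 27 * c + 15) = rr G ^ 2 ∧
    v (3 * qG G + 27 * c + 18) = rr G ^ 4 ∧
    v (3 * qG G + 27 * c + 21) = rr G ^ 5 ∧
    v (3 * qG G + 27 * c + 25) = -(th G) := by
  have hc' : c ≤ 4 * G.length := by omega
  have hc1 : ¬ c < G.length := by omega
  have hc2 : ¬ c < 4 * G.length := by omega
  have e0 := (sat_piece h hc' 0 (k := 3 * qG G + 27 * c + 15) (by norm_num)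
    (a := 3 * pG G + 3) (b := 3 * pG G + 3)
    (by simp [pieceOp, lastOp, hc1, hc2]) (by ring) rfl).1
  have e1 := (sat_piece h hc' 1 (k := 3 * qG G + 27 * c + 18) (by norm_num)
    (a := 3 * qG G + 27 * c + 15) (b := 3 * qG G + 27 * c + 15)
    (by simp [pieceOp, lastOp, hc1, hc2]) (by ring) rfl).1
  have e2 := (sat_piece h hc' 2 (k := 3 * qG G + 27 * c + 21) (by norm_num)
    (a := 3 * qG G + 27 * c + 18) (b := 3 * pG G + 3)
    (by simp [pieceOp, lastOp, hc1, hc2]) (by ring) rfl).1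
  have e3 := (sat_piece h hc' 3 (k' := 3 * qG G + 27 * c + 25) (by norm_num)
    (a := 0) (b := 3 * qG G + 3)
    (by simp [pieceOp, lastOp, hc1, hc2]) rfl (by ring)).2
  rw [sat_r h] at e0
  rw [e0] at e1
  rw [e1, sat_r h] at e2
  rw [h.1, sat_th h] at e3
  refine ⟨by rw [e0]; ring, by rw [e1]; ring, by rw [e2]; ring, by rw [e3]; ring⟩

lemma sat_term (h : Sat G v) {c : ℕ} (hc : c ≤ 4 * G.length) :
    v (3 * qG G + 27 * c + 30) = term G (uu G v) c := by
  unfold term
  split_ifs with h1 h2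
  · have e5 := (sat_piece h hc 5 (k := 3 * qG G + 27 * c + 30) (by norm_num)
      (a := 3 * qG G + 27 * c + 28) (b := 3 * qG G + 27 * c + 28)
      (by rw [pieceOp_gate h1 rfl (by norm_num)]; simp [gateOp]) (by ring) rfl).1
    rw [e5]
    rcases hb : (G.getD c (true, 0, 0, 0)).1 with _ | _
    · rw [(sat_add h h1 rfl hb).2.2.2.2]; ring
    · rw [(sat_mul h h1 rfl hb).2.2]; ring
  · have e5 := (sat_piece h hc 5 (k := 3 * qG G + 27 * c + 30) (by norm_num)
      (a := 3 * qG G + 3) (b := 3 * qG G + 27 * c + 21)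
      (by simp [pieceOp, powOp, h1, h2]) (by ring) rfl).1
    rw [e5, sat_th h, (sat_pow h h2 h1).2.2]
  · have e5 := (sat_piece h hc 5 (k := 3 * qG G + 27 * c + 30) (by norm_num)
      (a := 3 * qG G + 27 * c + 25) (b := 3 * qG G + 27 * c + 21)
      (by simp [pieceOp, lastOp, h1, h2]) (by ring) rfl).1
    obtain ⟨_, _, e1, e2⟩ := sat_last h (c := c) (by omega)
    rw [e5, e1, e2]

lemma sat_H (h : Sat G v) : ∀ c : ℕ, c ≤ 4 * G.length + 1 →
    v (3 * qG G + 27 * c + 13) = 2 ^ c * th G := by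
  intro c
  induction c with
  | zero => intro _; simpa using sat_H0 h
  | succ c ih =>
    intro hc
    have e := (sat_piece h (c := c) (by omega) 8
      (k' := 3 * qG G + 27 * (c + 1) + 13) (by norm_num)
      (a := 3 * qG G + 27 * c + 13) (b := 0)
      (by simp [pieceOp, tailOp]) rfl (by ring)).2
    rw [e, ih (by omega), h.1]
    ring

lemma sat_prod (h : Sat G v) {c : ℕ} (hc : c ≤ 4 * G.length) :
    v (3 * qG G + 27 * c + 33) = term G (uu G v) c * (2 ^ c * th G) := by
  have e := (sat_piece h hc 6 (k := 3 * qG G + 27 * c + 33) (by norm_num)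
    (a := 3 * qG G + 27 * c + 30) (b := 3 * qG G + 27 * c + 13)
    (by simp [pieceOp, tailOp]) (by ring) rfl).1
  rw [e, sat_term h hc, sat_H h c (by omega)]

lemma sat_A (h : Sat G v) : ∀ c : ℕ, c ≤ 4 * G.length + 1 →
    v (3 * qG G + 27 * c + 10) =
      -(2 ^ c / 2 * th G * ∑ k ∈ Finset.range c, term G (uu G v) k) := by
  intro c
  induction c with
  | zero => intro _; simpa using sat_A0 h
  | succ c ih =>
    intro hc
    have e := (sat_piece h (c := c) (by omega) 7
      (k' := 3 * qG G + 27 * (c + 1) + 10) (by norm_num)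
      (a := 3 * qG G + 27 * c + 10) (b := 3 * qG G + 27 * c + 33)
      (by simp [pieceOp, tailOp]) rfl (by ring)).2
    rw [e, ih (by omega), sat_prod h (by omega), Finset.sum_range_succ]
    ring

lemma sat_out (h : Sat G v) : v (3 * nblk G + 1) =
    2 ^ (4 * G.length + 1) / 2 * th G *
      ∑ k ∈ Finset.range (4 * G.length + 1), term G (uu G v) k := by
  have h2 : blk G (qG G + 4 + 9 * (4 * G.length + 1)) =
      (0, 3 * qG G + 27 * (4 * G.length + 1) + 10) := by
    unfold blk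
    rw [if_neg (by omega), if_neg (by omega), if_neg (by omega), if_neg (by omega),
      if_neg (by omega), if_pos rfl]
  have := (sat_blk h (t := qG G + 4 + 9 * (4 * G.length + 1)) (by unfold nblk; omega) h2 rfl
    (k' := 3 * nblk G + 1) (by unfold nblk; ring)).2
  rw [this, h.1, sat_A h _ le_rfl]
  ring

end

/-! ## The sum of the terms -/

lemma map_sum_eq (f : Gate → ℝ) : ∀ G : List Gate,
    (G.map f).sum = ∑ k ∈ Finset.range G.length, f (G.getD k (true, 0, 0, 0)) := by
  intro G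
  induction G with
  | nil => simp
  | cons g G ih =>
    rw [List.map_cons, List.sum_cons, List.length_cons, Finset.sum_range_succ', ih, add_comm]
    simp

lemma rr_RR (G : List Gate) : rr G * RR (3 * G.length) G.length = 1 := by
  unfold rr RR pG
  rw [← mul_pow]
  norm_num

lemma th_SS (G : List Gate) :
    th G * SS (3 * G.length) G.length = 4 * RR (3 * G.length) G.length ^ 2 := by
  unfold th SS qG
  have h : ((1 : ℝ) / 4) ^ 2 ^ qq (3 * G.length) G.length *
      4 ^ 2 ^ qq (3 * G.length) G.length = 1 := by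
    rw [← mul_pow]
    norm_num
  calc _ = 4 * RR (3 * G.length) G.length ^ 2 *
        (((1 : ℝ) / 4) ^ 2 ^ qq (3 * G.length) G.length *
        4 ^ 2 ^ qq (3 * G.length) G.length) := by ring
    _ = _ := by rw [h, mul_one]

lemma rho_eq {G : List Gate} {u y : ℕ → ℝ} {g : Gate} (h1 : u g.2.1 = rr G * y g.2.1)
    (h2 : u g.2.2.1 = rr G * y g.2.2.1) (h3 : u g.2.2.2 = rr G * y g.2.2.2) :
    rho G u g = rr G ^ 2 * resG y g := by
  unfold rho resG
  rw [h1, h2, h3]
  split_ifs <;> ring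

lemma sum_term {G : List Gate} (hG : GValid (3 * G.length) G) {u y : ℕ → ℝ}
    (hu : ∀ i ≤ 3 * G.length, u i = rr G * y i) :
    ∑ k ∈ Finset.range (4 * G.length + 1), term G u k =
      th G * rr G ^ 6 * (SS (3 * G.length) G.length * FF G y + NN (3 * G.length) y -
        RR (3 * G.length) G.length) := by
  have e1 : ∑ k ∈ Finset.range G.length, term G u k = 4 * rr G ^ 4 * FF G y := by
    unfold FF
    rw [map_sum_eq, Finset.mul_sum]
    refine Finset.sum_congr rfl fun k hk => ?_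
    have hk' := Finset.mem_range.1 hk
    obtain ⟨v1, v2, v3⟩ := getD_valid hG k
    unfold term
    rw [if_pos hk', rho_eq (hu _ v1) (hu _ v2) (hu _ v3)]
    ring
  have e2 : ∑ k ∈ Finset.range (3 * G.length), term G u (G.length + k) =
      th G * rr G ^ 6 * NN (3 * G.length) y := by
    unfold NN
    rw [Finset.mul_sum]
    refine Finset.sum_congr rfl fun k hk => ?_
    have hk' := Finset.mem_range.1 hk
    unfold term
    rw [if_neg (by omega), if_pos (by omega), show G.length + k - G.length + 1 = k + 1 by omega,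
      hu _ (by omega)]
    ring
  have e3 : term G u (4 * G.length) = -(th G) * rr G ^ 5 := by
    unfold term
    rw [if_neg (by omega), if_neg (by omega)]
  have h1 := rr_RR G
  have h2 := th_SS G
  rw [Finset.sum_range_succ, e3, show 4 * G.length = G.length + 3 * G.length by ring,
    Finset.sum_range_add, e1, e2]
  generalize RR (3 * G.length) G.length = R at h1 h2
  generalize SS (3 * G.length) G.length = S at h2
  have h3 : th G * rr G ^ 6 * S = 4 * rr G ^ 4 := by
    calc th G * rr G ^ 6 * S = (th G * S) * rr G ^ 6 := by ring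
      _ = 4 * rr G ^ 4 * (rr G * R) ^ 2 := by rw [h2]; ring
      _ = 4 * rr G ^ 4 := by rw [h1]; ring
  have h4 : th G * rr G ^ 6 * R = th G * rr G ^ 5 := by
    calc th G * rr G ^ 6 * R = th G * rr G ^ 5 * (rr G * R) := by ring
      _ = _ := by rw [h1, mul_one]
  calc _ = 4 * rr G ^ 4 * FF G y + th G * rr G ^ 6 * NN (3 * G.length) y - th G * rr G ^ 5 := by
        ring
    _ = _ := by rw [← h3, ← h4]; ring

lemma out_neg_iff {G : List Gate} (hG : GValid (3 * G.length) G) {v : ℕ → ℝ} (h : Sat G v)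
    {y : ℕ → ℝ} (hu : ∀ i ≤ 3 * G.length, uu G v i = rr G * y i) :
    v (3 * nblk G + 1) < 0 ↔
      SS (3 * G.length) G.length * FF G y + NN (3 * G.length) y < RR (3 * G.length) G.length := by
  rw [sat_out h, sum_term hG hu]
  have h1 := rr_pos G
  have h2 := th_pos G
  have h3 : 0 < 2 ^ (4 * G.length + 1) / 2 * th G * (th G * rr G ^ 6) :=
    mul_pos (mul_pos (div_pos (pow_pos two_pos _) two_pos) h2) (mul_pos h2 (pow_pos h1 6))
  rw [← mul_assoc, ← sub_neg (a := _ + _)]
  constructor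
  · intro h4
    by_contra hcon
    push Not at hcon
    exact absurd (mul_nonneg h3.le hcon) (not_le.2 h4)
  · intro h4
    exact mul_neg_of_pos_of_neg h3 h4

/-! ## Soundness -/

theorem slpOf_sound {G : List Gate} (hG : GValid (3 * G.length) G)
    (h : ∃ v, SLPSat (slpOf G).1 v ∧ v (slpOf G).2 < 0) :
    ∃ y : ℕ → ℝ, y 0 = 1 ∧ SS (3 * G.length) G.length * FF G y + NN (3 * G.length) y <
      RR (3 * G.length) G.length := by
  obtain ⟨v, hv, hneg⟩ := h
  rw [slpSat_iff] at hv
  have h1 := rr_pos G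
  refine ⟨fun i => uu G v i / rr G, ?_, ?_⟩
  · simp only
    rw [show uu G v 0 = rr G from sat_r hv, div_self h1.ne']
  · refine (out_neg_iff hG hv fun i _ => ?_).1 hneg
    field_simp

/-! ## Completeness -/

lemma exists_vals {op : ℕ → ℕ × ℕ} (inp : ℕ → ℝ) : ∀ T : ℕ,
    (∀ t < T, (op t).1 < 3 * t + 2 ∧ (op t).2 < 3 * t + 2) →
    ∃ v : ℕ → ℝ, v 0 = 0 ∧ v 1 = -1 / 2 ∧ ∀ t < T, v (3 * t + 2) = inp t ∧
      v (3 * t + 3) = v (op t).1 * v (op t).2 ∧ v (3 * t + 4) = 2 * v (op t).1 - v (op t).2 := by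
  intro T
  induction T with
  | zero => intro _; exact ⟨fun i => if i = 1 then -1 / 2 else 0, by simp, by simp, by simp⟩
  | succ T ih =>
    intro hop
    obtain ⟨v, h0, h1, hv⟩ := ih fun t ht => hop t (by omega)
    obtain ⟨hT1, hT2⟩ := hop T (by omega)
    refine ⟨fun k => if k < 3 * T + 2 then v k else if k = 3 * T + 2 then inp T
      else if k = 3 * T + 3 then v (op T).1 * v (op T).2 else 2 * v (op T).1 - v (op T).2,
      by simp [h0], ?_, ?_⟩
    · simp only
      rw [if_pos (by omega), h1]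
    · intro t ht
      simp only
      rcases Nat.lt_succ_iff_lt_or_eq.1 ht with h | h
      · obtain ⟨a1, a2⟩ := hop t (by omega)
        rw [if_pos (by omega : 3 * t + 2 < 3 * T + 2), if_pos (by omega : 3 * t + 3 < 3 * T + 2),
          if_pos (by omega : 3 * t + 4 < 3 * T + 2), if_pos (by omega : (op t).1 < 3 * T + 2),
          if_pos (by omega : (op t).2 < 3 * T + 2)]
        exact hv t h
      · subst h
        rw [if_neg (by omega : ¬ 3 * t + 2 < 3 * t + 2), if_pos rfl,
          if_neg (by omega : ¬ 3 * t + 3 < 3 * t + 2), if_neg (by omega : ¬ 3 * t + 3 = 3 * t + 2),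
          if_pos rfl, if_neg (by omega : ¬ 3 * t + 4 < 3 * t + 2),
          if_neg (by omega : ¬ 3 * t + 4 = 3 * t + 2), if_neg (by omega : ¬ 3 * t + 4 = 3 * t + 3),
          if_pos hT1, if_pos hT2]
        exact ⟨rfl, rfl, rfl⟩

lemma RR_ge (G : List Gate) : 16 ≤ RR (3 * G.length) G.length := by
  unfold RR
  calc (16 : ℝ) = 4 ^ 2 := by norm_num
    _ ≤ 4 ^ 2 ^ pp (3 * G.length) G.length := by
        apply pow_le_pow_right₀ (by norm_num)
        calc 2 = 2 ^ 1 := rfl
          _ ≤ 2 ^ pp (3 * G.length) G.length := by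
              apply Nat.pow_le_pow_right (by norm_num)
              unfold pp
              omega

lemma rr_le (G : List Gate) : rr G ≤ 1 / 4 := by
  have h1 := rr_RR G
  have h2 := RR_ge G
  have h3 := rr_pos G
  nlinarith

lemma th_le (G : List Gate) : 4 ^ (4 * G.length + 1) * th G < 1 := by
  unfold th
  have h1 : 4 * G.length + 1 < 2 ^ qG G := by
    have := (pq_facts G).2.2.1
    exact lt_of_lt_of_le (by omega) (Nat.lt_two_pow_self (n := qG G)).le
  obtain ⟨k, hk⟩ := Nat.exists_eq_add_of_lt h1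
  rw [hk]
  generalize 4 * G.length + 1 = a
  calc (4 : ℝ) ^ a * (1 / 4) ^ (a + k + 1) = (4 * (1 / 4)) ^ a * (1 / 4) ^ (k + 1) := by
        rw [mul_pow, add_assoc, pow_add (1 / 4 : ℝ) a (k + 1)]
        ring
    _ = (1 / 4) ^ (k + 1) := by norm_num
    _ < 1 := pow_lt_one₀ (by norm_num) (by norm_num) (by omega)

lemma small_of_ineq {G : List Gate} {y : ℕ → ℝ}
    (h : SS (3 * G.length) G.length * FF G y + NN (3 * G.length) y < RR (3 * G.length) G.length)
    {i : ℕ} (hi : 0 < i) (hi2 : i ≤ 3 * G.length) : |rr G * y i| ≤ 1 / 4 := by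
  have hF : 0 ≤ FF G y := by
    unfold FF
    apply List.sum_nonneg
    intro x hx
    obtain ⟨g, _, rfl⟩ := List.mem_map.1 hx
    positivity
  have hS : 0 < SS (3 * G.length) G.length := by
    unfold SS RR; positivity
  have hN : y i ^ 6 ≤ NN (3 * G.length) y := by
    unfold NN
    have := Finset.single_le_sum (f := fun j => y (j + 1) ^ 6)
      (s := Finset.range (3 * G.length)) (fun j _ => by positivity)
      (Finset.mem_range.2 (show i - 1 < 3 * G.length by omega))
    rwa [show i - 1 + 1 = i by omega] at this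
  have h1 := rr_RR G
  have h2 := RR_ge G
  have h3 := rr_pos G
  generalize RR (3 * G.length) G.length = R at *
  have h4 : y i ^ 6 < R := by nlinarith
  have h5 : |y i| ≤ R / 4 := by
    by_contra hcon
    push Not at hcon
    have h6 : (R / 4) ^ 6 ≤ |y i| ^ 6 := pow_le_pow_left₀ (by linarith) hcon.le 6
    have h7 : |y i| ^ 6 = y i ^ 6 := by
      rw [show (6 : ℕ) = 2 * 3 by norm_num, pow_mul, pow_mul, sq_abs]
    have h8 : R ≤ (R / 4) ^ 6 := by
      have h9 : (4 : ℝ) ^ 5 ≤ (R / 4) ^ 5 := pow_le_pow_left₀ (by norm_num) (by linarith) 5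
      have : (R / 4) ^ 6 = (R / 4) * (R / 4) ^ 5 := by ring
      rw [this]
      nlinarith
    linarith
  rw [abs_mul, abs_of_pos h3]
  calc rr G * |y i| ≤ rr G * (R / 4) := mul_le_mul_of_nonneg_left h5 h3.le
    _ = 1 / 4 := by rw [← mul_div_assoc, h1]

section
variable {G : List Gate} {v : ℕ → ℝ}

lemma rho_le {u : ℕ → ℝ} {g : Gate} (h1 : |u g.2.1| ≤ 1 / 4) (h2 : |u g.2.2.1| ≤ 1 / 4)
    (h3 : |u g.2.2.2| ≤ 1 / 4) : |2 * rho G u g| < 1 := by
  have h4 := rr_pos G
  have h5 := rr_le G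
  rw [abs_le] at h1 h2 h3
  unfold rho
  rw [abs_lt]
  split_ifs
  · constructor <;> nlinarith
  · constructor <;> nlinarith

lemma th_le_one (G : List Gate) : th G ≤ 1 := by
  unfold th
  exact pow_le_one₀ (by norm_num) (by norm_num)

lemma term_lt {u : ℕ → ℝ} (hG : GValid (3 * G.length) G)
    (hu : ∀ i ≤ 3 * G.length, |u i| ≤ 1 / 4) (c : ℕ) : |term G u c| < 1 := by
  have h4 := rr_pos G
  have h5 := rr_le G
  have h6 := th_pos G
  have h7 := th_le_one G
  unfold term
  split_ifs with h1 h2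
  · obtain ⟨v1, v2, v3⟩ := getD_valid hG c
    have := rho_le (G := G) (hu _ v1) (hu _ v2) (hu _ v3)
    rw [abs_pow]
    exact pow_lt_one₀ (abs_nonneg _) this (by norm_num)
  · have := hu (c - G.length + 1) (by omega)
    have h8 : |u (c - G.length + 1)| ^ 6 < 1 :=
      pow_lt_one₀ (abs_nonneg _) (by linarith) (by norm_num)
    rw [abs_mul, abs_of_pos h6, abs_pow]
    have h9 : 0 ≤ |u (c - G.length + 1)| ^ 6 := pow_nonneg (abs_nonneg _) _
    nlinarith
  · rw [abs_mul, abs_neg, abs_of_pos h6, abs_of_pos (pow_pos h4 5)]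
    have h8 : rr G ^ 5 < 1 := pow_lt_one₀ h4.le (by linarith) (by norm_num)
    have h9 : 0 ≤ rr G ^ 5 := pow_nonneg h4.le _
    nlinarith

lemma bdd_H (h : Sat G v) {c : ℕ} (hc : c ≤ 4 * G.length + 1) :
    |v (3 * qG G + 27 * c + 13)| < 1 := by
  rw [sat_H h c hc, abs_of_pos (mul_pos (pow_pos two_pos _) (th_pos G))]
  refine lt_of_le_of_lt ?_ (th_le G)
  apply mul_le_mul_of_nonneg_right _ (th_pos G).le
  calc (2 : ℝ) ^ c ≤ 4 ^ c := pow_le_pow_left₀ (by norm_num) (by norm_num) c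
    _ ≤ 4 ^ (4 * G.length + 1) := pow_le_pow_right₀ (by norm_num) hc

lemma bdd_A (h : Sat G v) (hG : GValid (3 * G.length) G)
    (hu : ∀ i ≤ 3 * G.length, |uu G v i| ≤ 1 / 4) {c : ℕ} (hc : c ≤ 4 * G.length + 1) :
    |v (3 * qG G + 27 * c + 10)| < 1 := by
  rw [sat_A h c hc, abs_neg, abs_mul, abs_of_pos
    (mul_pos (div_pos (pow_pos two_pos _) two_pos) (th_pos G))]
  have h1 : |∑ k ∈ Finset.range c, term G (uu G v) k| ≤ c := by
    refine (Finset.abs_sum_le_sum_abs _ _).trans ?_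
    calc ∑ k ∈ Finset.range c, |term G (uu G v) k| ≤ ∑ _k ∈ Finset.range c, (1 : ℝ) :=
          Finset.sum_le_sum fun k _ => (term_lt hG hu k).le
      _ = c := by simp
  have h2 : (c : ℝ) ≤ 2 ^ c := by
    have := (Nat.lt_two_pow_self (n := c)).le
    exact_mod_cast this
  refine lt_of_le_of_lt ?_ (th_le G)
  have h3 : (4 : ℝ) ^ c ≤ 4 ^ (4 * G.length + 1) := pow_le_pow_right₀ (by norm_num) hc
  have h4 : (4 : ℝ) ^ c = 2 ^ c * 2 ^ c := by rw [← mul_pow]; norm_num
  have h5 : (0 : ℝ) < 2 ^ c := pow_pos two_pos _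
  have h6 := th_pos G
  calc 2 ^ c / 2 * th G * |∑ k ∈ Finset.range c, term G (uu G v) k|
      ≤ 2 ^ c / 2 * th G * 2 ^ c :=
        mul_le_mul_of_nonneg_left (h1.trans h2) (mul_pos (div_pos h5 two_pos) h6).le
    _ = 4 ^ c * th G / 2 := by rw [h4]; ring
    _ ≤ 4 ^ c * th G := by
        have : 0 < 4 ^ c * th G := mul_pos (pow_pos (by norm_num) _) h6
        linarith
    _ ≤ 4 ^ (4 * G.length + 1) * th G := mul_le_mul_of_nonneg_right h3 h6.le

lemma bdd_prod (h : Sat G v) (hG : GValid (3 * G.length) G)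
    (hu : ∀ i ≤ 3 * G.length, |uu G v i| ≤ 1 / 4) {c : ℕ} (hc : c ≤ 4 * G.length) :
    |v (3 * qG G + 27 * c + 33)| < 1 := by
  have h1 := bdd_H h (c := c) (by omega)
  rw [sat_H h c (by omega)] at h1
  rw [sat_prod h hc, abs_mul]
  have h2 := term_lt hG hu c
  nlinarith [abs_nonneg (term G (uu G v) c), abs_nonneg (2 ^ c * th G)]

lemma bdd_term (h : Sat G v) (hG : GValid (3 * G.length) G)
    (hu : ∀ i ≤ 3 * G.length, |uu G v i| ≤ 1 / 4) {c : ℕ} (hc : c ≤ 4 * G.length) :
    |v (3 * qG G + 27 * c + 30)| < 1 := by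
  rw [sat_term h hc]
  exact term_lt hG hu c

lemma abs_rr_mul {x : ℝ} (hx : |x| ≤ 1 / 4) : |rr G * x| ≤ 1 / 16 := by
  have h4 := rr_pos G
  have h5 := rr_le G
  rw [abs_mul, abs_of_pos h4]
  nlinarith [abs_nonneg x]

lemma bdd_piece (h : Sat G v) (hG : GValid (3 * G.length) G)
    (hu : ∀ i ≤ 3 * G.length, |uu G v i| ≤ 1 / 4) {c o : ℕ} (hc : c ≤ 4 * G.length)
    (ho : o < 9) : |v (pieceOp G c o).1| < 1 ∧ |v (pieceOp G c o).2| < 1 := by
  have h4 := rr_pos G
  have h5 := rr_le G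
  have h0 : |v 0| < 1 := by rw [h.1]; norm_num
  have hr : |v (3 * pG G + 3)| < 1 := by
    rw [sat_r h, abs_of_pos h4]; linarith
  have h2r : |v (3 * qG G + 7)| < 1 := by
    rw [sat_2r h, abs_of_pos (by linarith)]; linarith
  have hth : |v (3 * qG G + 3)| < 1 := by
    have := bdd_H h (c := 0) (by omega)
    rw [sat_H h 0 (by omega)] at this
    rw [sat_th h]
    simpa using this
  have hU : ∀ i ≤ 3 * G.length, |v (ureg (pG G) i)| < 1 := fun i hi =>
    lt_of_le_of_lt (hu i hi) (by norm_num)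
  have hH := bdd_H h (c := c) (by omega)
  have hA := bdd_A h hG hu (c := c) (by omega)
  have hP := bdd_prod h hG hu hc
  have hT := bdd_term h hG hu hc
  unfold pieceOp
  split_ifs with h1 h2 h3
  · unfold tailOp
    split_ifs
    · exact ⟨hT, hH⟩
    · exact ⟨hA, hP⟩
    · exact ⟨hH, h0⟩
  · generalize hg : G.getD c (true, 0, 0, 0) = g
    obtain ⟨v1, v2, v3⟩ := getD_valid hG c
    rw [hg] at v1 v2 v3
    have hrho := rho_le (G := G) (hu _ v1) (hu _ v2) (hu _ v3)
    have u1 := hu _ v1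
    have u2 := hu _ v2
    have u3 := hu _ v3
    unfold gateOp
    rcases hb : g.1 with _ | _
    · obtain ⟨e1, e2, e3, e4, e5⟩ := sat_add h h2 hg hb
      have a1 := abs_le.1 (abs_rr_mul (G := G) u1)
      have a2 := abs_le.1 (abs_rr_mul (G := G) u2)
      have a3 := abs_le.1 (abs_rr_mul (G := G) u3)
      rw [if_neg (by simp)]
      split_ifs
      · exact ⟨hr, hU _ v1⟩
      · exact ⟨hr, hU _ v3⟩
      · exact ⟨h2r, hU _ v2⟩
      · refine ⟨?_, ?_⟩
        · simp only [e2]; rw [abs_lt]; constructor <;> linarith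
        · simp only [e3]; rw [abs_lt]; constructor <;> linarith
      · refine ⟨?_, ?_⟩
        · simp only [e1]; rw [abs_lt]; constructor <;> linarith
        · simp only [e4]; rw [abs_lt]; constructor <;> linarith
      · simp only [e5]; exact ⟨hrho, hrho⟩
      · exact ⟨h0, h0⟩
    · obtain ⟨e1, e2, e3⟩ := sat_mul h h2 hg hb
      have a3 := abs_le.1 (abs_rr_mul (G := G) u3)
      rw [if_pos rfl]
      split_ifs
      · exact ⟨hU _ v1, hU _ v2⟩
      · exact ⟨h2r, hU _ v3⟩
      · refine ⟨?_, ?_⟩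
        · simp only [e1]; rw [abs_mul]; nlinarith [abs_nonneg (uu G v g.2.1),
            abs_nonneg (uu G v g.2.2.1)]
        · simp only [e2]; rw [abs_lt]; constructor <;> linarith
      · simp only [e3]; exact ⟨hrho, hrho⟩
      · exact ⟨h0, h0⟩
  · obtain ⟨e1, e2, e3⟩ := sat_pow h h3 h2
    have u1 := hu (c - G.length + 1) (by omega)
    have k : ∀ n : ℕ, n ≠ 0 → |uu G v (c - G.length + 1) ^ n| < 1 := fun n hn => by
      rw [abs_pow]
      exact pow_lt_one₀ (abs_nonneg _) (by linarith) hn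
    have hUc := hU (c - G.length + 1) (by omega)
    unfold powOp
    split_ifs
    · exact ⟨hUc, hUc⟩
    · simp only [e1]; exact ⟨k 2 (by norm_num), k 2 (by norm_num)⟩
    · simp only [e1, e2]; exact ⟨k 2 (by norm_num), k 4 (by norm_num)⟩
    · simp only [e3]; exact ⟨hth, k 6 (by norm_num)⟩
    · exact ⟨h0, h0⟩
  · obtain ⟨e1, e2, e3, e4⟩ := sat_last h (c := c) (by omega)
    have k : ∀ n : ℕ, n ≠ 0 → |rr G ^ n| < 1 := fun n hn => by
      rw [abs_pow, abs_of_pos h4]
      exact pow_lt_one₀ h4.le (by linarith) hn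
    unfold lastOp
    split_ifs
    · exact ⟨hr, hr⟩
    · simp only [e1]; exact ⟨k 2 (by norm_num), k 2 (by norm_num)⟩
    · simp only [e2]; exact ⟨k 4 (by norm_num), hr⟩
    · exact ⟨h0, hth⟩
    · simp only [e3, e4, abs_neg]
      refine ⟨?_, k 5 (by norm_num)⟩
      rw [← sat_th h]; exact hth
    · exact ⟨h0, h0⟩

lemma bdd_blk (h : Sat G v) (hG : GValid (3 * G.length) G)
    (hu : ∀ i ≤ 3 * G.length, |uu G v i| ≤ 1 / 4) {t : ℕ} (ht : t < nblk G) :
    |v (blk G t).1| < 1 ∧ |v (blk G t).2| < 1 := by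
  have h4 := rr_pos G
  have h5 := rr_le G
  have h0 : |v 0| < 1 := by rw [h.1]; norm_num
  have h1 : |v 1| < 1 := by rw [h.2.1, abs_lt]; norm_num
  have hr : |v (3 * pG G + 3)| < 1 := by
    rw [sat_r h, abs_of_pos h4]; linarith
  have hs : ∀ t ≤ qG G, |v (3 * t + 3)| < 1 := fun t ht => by
    rw [sat_s h t ht, abs_of_pos (pow_pos (by norm_num) _)]
    exact pow_lt_one₀ (by norm_num) (by norm_num) (pow_pos two_pos t).ne'
  unfold nblk at ht
  unfold blk
  split_ifs with c1 c2 c3 c4 c5 c6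
  · exact ⟨h1, h1⟩
  · have := hs (t - 1) (by omega)
    rw [show 3 * (t - 1) + 3 = 3 * t by omega] at this
    exact ⟨this, this⟩
  · exact ⟨hr, h0⟩
  · exact ⟨h0, h0⟩
  · exact ⟨hs _ le_rfl, hs _ le_rfl⟩
  · exact ⟨h0, bdd_A h hG hu le_rfl⟩
  · exact bdd_piece h hG hu (by omega) (by omega)

end

theorem slpOf_complete {G : List Gate} (hG : GValid (3 * G.length) G)
    (h : ∃ y : ℕ → ℝ, y 0 = 1 ∧ SS (3 * G.length) G.length * FF G y + NN (3 * G.length) y <
      RR (3 * G.length) G.length) :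
    ∃ v, SLPSat (slpOf G).1 v ∧ SLPBdd (slpOf G).1 v ∧ v (slpOf G).2 < 0 := by
  obtain ⟨y, hy0, hy⟩ := h
  obtain ⟨v, h0, h1, hv⟩ := exists_vals (op := blk G)
    (fun t => if t ≤ 3 * G.length then rr G * y t else 0) (nblk G) (fun t ht => blk_lt hG ht)
  have hsat : Sat G v := ⟨h0, h1, fun t ht => (hv t ht).2⟩
  have hpq := pq_facts G
  have hu : ∀ i ≤ 3 * G.length, uu G v i = rr G * y i := by
    intro i hi
    unfold uu ureg
    split_ifs with hi0
    · rw [hi0, hy0, mul_one]
      exact sat_r hsat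
    · rw [(hv i (by unfold nblk; omega)).1, if_pos hi]
  have hsmall : ∀ i ≤ 3 * G.length, |rr G * y i| ≤ 1 / 4 := by
    intro i hi
    rcases Nat.eq_zero_or_pos i with h | h
    · rw [h, hy0, mul_one, abs_of_pos (rr_pos G)]
      exact rr_le G
    · exact small_of_ineq hy h hi
  refine ⟨v, (slpSat_iff G v).2 hsat, ?_, (out_neg_iff hG hsat hu).2 hy⟩
  intro t ht
  rw [slpOf_length] at ht
  unfold opA opB
  rw [slpOf_getD ht]
  obtain ⟨b1, b2⟩ := bdd_blk hsat hG (fun i hi => by rw [hu i hi]; exact hsmall i hi) ht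
  refine ⟨b1, b2, ?_⟩
  rw [(hv t ht).1]
  split_ifs with h2
  · exact lt_of_le_of_lt (hsmall t h2) (by norm_num)
  · norm_num

theorem slpOf_out (G : List Gate) :
    2 ≤ (slpOf G).2 ∧ (slpOf G).2 < 3 * (slpOf G).1.length + 2 := by
  rw [slpOf_length]
  unfold slpOf nblk
  simp only
  omega

end Pool.Agent.CRt
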