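import Pool.Agent.CRt.Star

/-!
# From drawings of the graph to families of one-bend paths
-/

set_option autoImplicit false
set_option maxHeartbeats 4000000

namespace Pool.Agent.CRt

open Set

variable {N : ℕ} {T : List STriple} {D : LDraw (gEdges N T)}

/-- not in the same star -/
def DiffStar (x y : Cv) : Prop := x.2.1 = 0 ∨ y.2.1 = 0 ∨ x.2.1 ≠ y.2.1

theorem forced_or {x y : Cv} (h1 : x.1 ≠ y.1) (h2 : DiffStar x y) : Forced x y ∨ Forced y x := by
  unfold DiffStar at h2
  unfold Forced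
  omega

theorem meet_unique (K : Skel D) (H : Tight D) (hT : SValid N T) {x y : Cv}
    (hx : x ∈ curves N T) (hy : y ∈ curves N T) (h1 : x.1 ≠ y.1) (h2 : DiffStar x y) :
    (∃ z, z ∈ D.Cu x ∧ z ∈ D.Cu y) ∧
      ∀ z w, z ∈ D.Cu x → z ∈ D.Cu y → w ∈ D.Cu x → w ∈ D.Cu y → z = w := by
  rcases forced_or h1 h2 with hf | hf
  · exact ⟨K.forced_meet hT hx hy hf, H.uniq x hx y hy hf⟩
  · obtain ⟨z, hz, hz'⟩ := K.forced_meet hT hy hx hf
    exact ⟨⟨z, hz', hz⟩, fun z w a b c d => H.uniq y hy x hx hf z w b a d c⟩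

theorem nocross (H : Tight D) (hT : SValid N T) {x y : Cv} (hx : x ∈ curves N T)
    (hy : y ∈ curves N T) (h : x.1 = y.1 ∨ ¬ DiffStar x y) {d d' : Vx × Vx}
    (hd : d ∈ curveEdges N x) (hd' : d' ∈ curveEdges N y) (hne : d ≠ d') {z : Plane}
    (hz : z ∈ D.S d) (hz' : z ∈ D.S d') : CommonEnd D.pos d d' z := by
  have g1 := mem_gEdges.2 (Or.inl ⟨x, hx, hd⟩ : (∃ c ∈ curves N T, d ∈ curveEdges N c) ∨ _)
  have g2 := mem_gEdges.2 (Or.inl ⟨y, hy, hd'⟩ : (∃ c ∈ curves N T, d' ∈ curveEdges N c) ∨ _)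
  rcases H.none d g1 d' g2 hne z ⟨hz, hz'⟩ with h0 | ⟨a, ha, a', ha', hf, ⟨h3, h4⟩ | ⟨h3, h4⟩⟩
  · exact h0
  · have e1 := curveEdges_inj hT hx ha hd h3
    have e2 := curveEdges_inj hT hy ha' hd' h4
    subst e1 e2
    exfalso
    unfold Forced at hf
    unfold DiffStar at h
    omega
  · have e1 := curveEdges_inj hT hx ha' hd h4
    have e2 := curveEdges_inj hT hy ha hd' h3
    subst e1 e2
    exfalso
    unfold Forced at hf
    unfold DiffStar at h
    omega

/-- the edge of a chord -/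
def cedge (N e : ℕ) : Vx × Vx := (lend (chordC e), rend N (chordC e))

theorem cedge_mem (e : ℕ) : cedge N e ∈ curveEdges N (chordC e) :=
  mem_curveEdges.2 (Or.inl ⟨rfl, rfl⟩)

theorem Cu_chord (e : ℕ) : D.Cu (chordC e) = D.S (cedge N e) := by
  ext z
  constructor
  · rintro ⟨d, hd, hz⟩
    rcases mem_curveEdges.1 hd with ⟨-, rfl⟩ | ⟨h0, -⟩
    · exact hz
    · exact absurd rfl h0
  · intro hz
    exact ⟨_, cedge_mem e, hz⟩

theorem chordC_mem {e : ℕ} (he : e < N) : chordC e ∈ curves N T :=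
  mem_curves.2 (Or.inl ⟨e, he, rfl⟩)

/-- the path of a chord -/
def cpath (D : LDraw (gEdges N T)) (e : ℕ) : Fin 3 → Plane := dpath D.pos D.bend (cedge N e)

theorem cedge_g {e : ℕ} (he : e < N) : cedge N e ∈ gEdges N T :=
  mem_gEdges.2 (Or.inl ⟨_, chordC_mem he, cedge_mem e⟩)

theorem mem_S_param {d : Vx × Vx} {t : ℝ} (h0 : 0 ≤ t) (h2 : t ≤ 2) :
    chordPt (dpath D.pos D.bend d) t ∈ D.S d := by
  unfold LDraw.S
  rw [← chordPt_image]
  exact ⟨t, ⟨h0, h2⟩, rfl⟩

theorem exists_tau (K : Skel D) (H : Tight D) (hT : SValid N T) :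
    ∃ τ : ℕ → ℕ → ℝ, ∀ e f, e < N → f < N → e ≠ f → 0 < τ e f ∧ τ e f < 2 ∧
      chordPt (cpath D e) (τ e f) = chordPt (cpath D f) (τ f e) ∧
      (∀ s, 0 ≤ s → s ≤ 2 → chordPt (cpath D e) s ∈ D.S (cedge N f) → s = τ e f) := by
  classical
  have key : ∀ e f, ∃ t : ℝ, e < N → f < N → e ≠ f → 0 ≤ t ∧ t ≤ 2 ∧
      chordPt (cpath D e) t ∈ D.S (cedge N f) := by
    intro e f
    by_cases h : e < N ∧ f < N ∧ e ≠ f
    · obtain ⟨h1, h2, h3⟩ := h
      obtain ⟨⟨z, hz, hz'⟩, -⟩ := meet_unique K H hT (x := chordC e) (y := chordC f)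
        (chordC_mem h1) (chordC_mem h2) h3 (Or.inl rfl)
      rw [Cu_chord] at hz hz'
      obtain ⟨t, t0, t2, rfl⟩ := exists_param hz
      exact ⟨t, fun _ _ _ => ⟨t0, t2, hz'⟩⟩
    · exact ⟨0, fun a b c => absurd ⟨a, b, c⟩ h⟩
  choose τ hτ using key
  refine ⟨τ, ?_⟩
  intro e f he hf hef
  obtain ⟨t0, t2, tm⟩ := hτ e f he hf hef
  obtain ⟨s0, s2, sm⟩ := hτ f e hf he hef.symm
  obtain ⟨-, huniq⟩ := meet_unique K H hT (x := chordC e) (y := chordC f)
    (chordC_mem he) (chordC_mem hf) hef (Or.inl rfl)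
  rw [Cu_chord, Cu_chord] at huniq
  have hP := D.arcs _ (cedge_g (T := T) he)
  have uq : ∀ s, 0 ≤ s → s ≤ 2 → chordPt (cpath D e) s ∈ D.S (cedge N f) → s = τ e f := by
    intro s hs0 hs2 hs
    have := huniq _ _ (mem_S_param hs0 hs2) hs (mem_S_param t0 t2) tm
    exact chordPt_injOn hP ⟨hs0, hs2⟩ ⟨t0, t2⟩ this
  have noend : ∀ v, EndOf v (cedge N e) → D.pos v ∉ D.S (cedge N f) := by
    intro v hv hm
    have hav := D.avoid (cedge_g (T := T) hf) (cedge_g (T := T) he) hv hm
    rcases hv with rfl | rfl <;> rcases hav with h | h <;>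
      simp only [cedge, lend, rend, chordC, lv, rv, Prod.mk.injEq] at h <;> omega
  refine ⟨?_, ?_, ?_, uq⟩
  · refine lt_of_le_of_ne t0 ?_
    intro h
    rw [← h, chordPt_zero] at tm
    exact noend _ (Or.inl rfl) tm
  · refine lt_of_le_of_ne t2 ?_
    intro h
    rw [h, chordPt_two] at tm
    exact noend _ (Or.inr rfl) tm
  · exact huniq _ _ (mem_S_param t0 t2) tm sm (mem_S_param s0 s2)

/-- The edges of the arms of a star curve. -/
def armL (s : Cv) : Vx × Vx := (lend s, star (s.2.1 - 1))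
def armR (N : ℕ) (s : Cv) : Vx × Vx := (star (s.2.1 - 1), rend N s)

theorem armL_mem {s : Cv} (h : s.2.1 ≠ 0) : armL s ∈ curveEdges N s :=
  mem_curveEdges.2 (Or.inr ⟨h, Or.inl rfl⟩)

theorem armR_mem {s : Cv} (h : s.2.1 ≠ 0) : armR N s ∈ curveEdges N s :=
  mem_curveEdges.2 (Or.inr ⟨h, Or.inr rfl⟩)

theorem mem_Cu_star {s : Cv} (h : s.2.1 ≠ 0) {z : Plane} :
    z ∈ D.Cu s ↔ z ∈ D.S (armL s) ∨ z ∈ D.S (armR N s) := by
  constructor
  · rintro ⟨d, hd, hz⟩
    rcases mem_curveEdges.1 hd with ⟨h0, -⟩ | ⟨h0, rfl | rfl⟩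
    · exact absurd h0 h
    · exact Or.inl hz
    · exact Or.inr hz
  · rintro (hz | hz)
    · exact ⟨_, armL_mem h, hz⟩
    · exact ⟨_, armR_mem h, hz⟩

/-- The star hypotheses hold. -/
theorem starHyp_of (K : Skel D) (H : Tight D) (hT : SValid N T) {τ : ℕ → ℕ → ℝ}
    (hτ : ∀ e f, e < N → f < N → e ≠ f → 0 < τ e f ∧ τ e f < 2 ∧
      chordPt (cpath D e) (τ e f) = chordPt (cpath D f) (τ f e) ∧
      (∀ s, 0 ≤ s → s ≤ 2 → chordPt (cpath D e) s ∈ D.S (cedge N f) → s = τ e f))
    (b : Bool) (sc : Fin 3 → Cv) (m : ℕ) (hsc : ∀ i, sc i ∈ curves N T)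
    (hm : ∀ i, (sc i).2.1 = m + 1) (hoff : ∀ i, (sc i).2.2.2 ≠ 1)
    (hln : ∀ i j, i ≠ j → (sc i).1 ≠ (sc j).1)
    (lc rc ls rs : Fin 3 → ℕ) (hlc : ∀ i, lc i = 3 * (sc i).1 + 1 + 1)
    (hrc : ∀ i, rc i = 3 * (N - 1 - (sc i).1) + 1 + 1)
    (hls : ∀ i, ls i = 3 * (sc i).1 + (sc i).2.2.2 + 1)
    (hrs : ∀ i, rs i = 3 * (N - 1 - (sc i).1) + (sc i).2.2.2 + 1)
    (ol : ht b (lc 0) < ht b (ls 0) ∧ ht b (lc 1) < ht b (lc 0) ∧ ht b (ls 1) < ht b (lc 1) ∧
      ht b (ls 2) < ht b (ls 1) ∧ ht b (lc 2) < ht b (ls 2))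
    (or : ht b (rc 2) < ht b (rs 2) ∧ ht b (rc 1) < ht b (rc 2) ∧ ht b (rs 1) < ht b (rc 1) ∧
      ht b (rs 0) < ht b (rs 1) ∧ ht b (rc 0) < ht b (rs 0)) :
    StarHyp K b (fun i => cpath D (sc i).1) (fun i => D.S (armL (sc i)))
      (fun i => D.S (armR N (sc i))) (D.pos (star m)) lc rc ls rs
      (fun i j => τ (sc i).1 (sc j).1) := by
  have hN : ∀ i, (sc i).1 < N := fun i => curve_line hT (hsc i)
  have hof : ∀ i, (sc i).2.2.2 ≤ 2 := fun i => curve_off (hsc i)
  have hs0 : ∀ i, (sc i).2.1 ≠ 0 := fun i => by rw [hm]; omega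
  have eL : ∀ i, armL (sc i) = (lv (ls i), star m) := by
    intro i
    simp only [armL, lend, hm, hls, Nat.add_sub_cancel]
  have eR : ∀ i, armR N (sc i) = (star m, rv (rs i)) := by
    intro i
    simp only [armR, rend, hm, hrs, Nat.add_sub_cancel]
  have eC : ∀ i, cedge N (sc i).1 = (lv (lc i), rv (rc i)) := by
    intro i
    simp only [cedge, lend, rend, chordC, hlc, hrc]
  have gL : ∀ i, armL (sc i) ∈ gEdges N T := fun i =>
    mem_gEdges.2 (Or.inl ⟨_, hsc i, armL_mem (hs0 i)⟩)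
  have gR : ∀ i, armR N (sc i) ∈ gEdges N T := fun i =>
    mem_gEdges.2 (Or.inl ⟨_, hsc i, armR_mem (hs0 i)⟩)
  have gC : ∀ i, cedge N (sc i).1 ∈ gEdges N T := fun i => cedge_g (hN i)
  have hmu := fun i j (hij : i ≠ j) => meet_unique K H hT (x := sc i) (y := chordC (sc j).1)
    (hsc i) (chordC_mem (hN j)) (hln i j hij) (Or.inr (Or.inl rfl))
  have same : ∀ i j, ¬ DiffStar (sc i) (sc j) := by
    intro i j h
    unfold DiffStar at h
    rw [hm, hm] at h
    omega
  refine
    { bd := ?_, poly := ?_, ends := ?_, avC := ?_, avL := ?_, avR := ?_, jL := ?_, jR := ?_,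
      jLp := ?_, jRp := ?_, subL := ?_, subR := ?_, disL := ?_, disR := ?_, meet := ?_,
      meet1 := ?_, LR := ?_, LL := ?_, RR := ?_, npt := ?_, τ0 := ?_, τeq := ?_, τ1 := ?_,
      ol := ol, or := or }
  · intro i
    have := hN i
    have := hof i
    rw [hlc, hrc, hls, hrs]
    omega
  · intro i
    exact D.arcs _ (gC i)
  · intro i
    refine ⟨?_, ?_⟩
    · change D.pos (cedge N (sc i).1).1 = _
      rw [eC]
    · change D.pos (cedge N (sc i).1).2 = _
      rw [eC]
  · intro i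
    have h := K.avoids_edge (chordC_mem (hN i)) (cedge_mem (N := N) (sc i).1)
    refine Skel.avoids_mono h (le_refl _) ?_
    intro v hv _ _
    rw [eC] at hv
    exact hv
  · intro i
    have h := K.avoids_edge (hsc i) (armL_mem (hs0 i))
    refine Skel.avoids_mono h (le_refl _) ?_
    intro v hv h3 _
    rw [eL] at hv
    rcases hv with rfl | rfl
    · rfl
    · simp [star] at h3
  · intro i
    have h := K.avoids_edge (hsc i) (armR_mem (hs0 i))
    refine Skel.avoids_mono h (le_refl _) ?_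
    intro v hv h3 _
    rw [eR] at hv
    rcases hv with rfl | rfl
    · simp [star] at h3
    · rfl
  · intro i
    have := D.joined (armL (sc i))
    rw [eL] at this ⊢
    exact this
  · intro i
    have := D.joined (armR N (sc i))
    rw [eR] at this ⊢
    exact this
  · intro i z hz
    obtain ⟨t, t0, t2, rfl⟩ := exists_param hz
    have := (joined_arc (dpath D.pos D.bend (armL (sc i))) t2).mono (arc_sub t0 le_rfl)
    rw [chordPt_two, dpath_two, eL] at this
    simp only [eL]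
    exact this
  · intro i z hz
    obtain ⟨t, t0, t2, rfl⟩ := exists_param hz
    have := (joined_arc (dpath D.pos D.bend (armR N (sc i))) t0).mono (arc_sub le_rfl t2)
    rw [chordPt_zero, dpath_zero, eR] at this
    simp only [eR]
    exact this
  · intro i z hz hne
    obtain ⟨t, t0, t2, rfl⟩ := exists_param hz
    refine ⟨arc (dpath D.pos D.bend (armL (sc i))) 0 t, arc_sub le_rfl t2, ?_, ?_⟩
    · have := joined_arc (dpath D.pos D.bend (armL (sc i))) t0
      rw [chordPt_zero, dpath_zero, eL] at this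
      simp only [eL] at this ⊢
      exact this
    · intro hmem
      have e2 : D.pos (star m) = chordPt (dpath D.pos D.bend (armL (sc i))) 2 := by
        rw [chordPt_two, dpath_two, eL]
      rw [e2, mem_arc_iff (D.arcs _ (gL i)) le_rfl t2 (by norm_num) le_rfl] at hmem
      apply hne
      have : t = 2 := le_antisymm t2 hmem.2
      rw [e2, this]
  · intro i z hz hne
    obtain ⟨t, t0, t2, rfl⟩ := exists_param hz
    refine ⟨arc (dpath D.pos D.bend (armR N (sc i))) t 2, arc_sub t0 le_rfl, ?_, ?_⟩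
    · have := joined_arc (dpath D.pos D.bend (armR N (sc i))) t2
      rw [chordPt_two, dpath_two, eR] at this
      simp only [eR] at this ⊢
      exact this
    · intro hmem
      have e2 : D.pos (star m) = chordPt (dpath D.pos D.bend (armR N (sc i))) 0 := by
        rw [chordPt_zero, dpath_zero, eR]
      rw [e2, mem_arc_iff (D.arcs _ (gR i)) t0 le_rfl le_rfl (by norm_num)] at hmem
      apply hne
      have : t = 0 := le_antisymm hmem.1 t0
      rw [e2, this]
  · intro i
    rw [Set.disjoint_left]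
    intro z hz hz'
    obtain ⟨v, h1, h2, -⟩ := nocross H hT (chordC_mem (hN i)) (hsc i) (Or.inl rfl)
      (cedge_mem (sc i).1) (armL_mem (hs0 i)) (by
        rw [eC, eL]; intro h; simp [rv, star] at h) hz hz'
    rw [eC] at h1
    rw [eL] at h2
    have := hoff i
    rw [hlc, hrc] at h1
    rw [hls] at h2
    rcases h1 with rfl | rfl <;> rcases h2 with h | h <;>
      simp only [lv, rv, star, Prod.mk.injEq] at h <;> omega
  · intro i
    rw [Set.disjoint_left]
    intro z hz hz'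
    obtain ⟨v, h1, h2, -⟩ := nocross H hT (chordC_mem (hN i)) (hsc i) (Or.inl rfl)
      (cedge_mem (sc i).1) (armR_mem (hs0 i)) (by
        rw [eC, eR]; intro h; simp [lv, star] at h) hz hz'
    rw [eC] at h1
    rw [eR] at h2
    have := hoff i
    rw [hlc, hrc] at h1
    rw [hrs] at h2
    rcases h1 with rfl | rfl <;> rcases h2 with h | h <;>
      simp only [lv, rv, star, Prod.mk.injEq] at h <;> omega
  · intro i j hij
    obtain ⟨⟨z, hz, hz'⟩, -⟩ := hmu i j hij
    rw [mem_Cu_star (hs0 i)] at hz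
    rw [Cu_chord] at hz'
    exact ⟨z, hz', hz⟩
  · intro i j hij z w hz hz' hw hw'
    obtain ⟨-, hu⟩ := hmu i j hij
    refine hu z w ((mem_Cu_star (hs0 i)).2 hz') ?_ ((mem_Cu_star (hs0 i)).2 hw') ?_
    · rw [Cu_chord]; exact hz
    · rw [Cu_chord]; exact hw
  · intro i j z hz hz'
    obtain ⟨v, h1, h2, h3⟩ := nocross H hT (hsc i) (hsc j) (Or.inr (same i j))
      (armL_mem (hs0 i)) (armR_mem (hs0 j)) (by
        rw [eL, eR]; intro h; simp [lv, star] at h) hz hz'
    rw [eL] at h1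
    rw [eR] at h2
    rcases h1 with rfl | rfl
    · rcases h2 with h | h <;> simp only [lv, rv, star, Prod.mk.injEq] at h <;> omega
    · exact h3
  · intro i j hij z hz hz'
    have hls' : ls i ≠ ls j := by
      have := hln i j hij
      have := hof i
      have := hof j
      rw [hls, hls]
      omega
    obtain ⟨v, h1, h2, h3⟩ := nocross H hT (hsc i) (hsc j) (Or.inr (same i j))
      (armL_mem (hs0 i)) (armL_mem (hs0 j)) (by
        rw [eL, eL]; intro h; simp [lv] at h; exact hls' h) hz hz'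
    rw [eL] at h1 h2
    rcases h1 with rfl | rfl
    · rcases h2 with h | h <;> simp only [lv, rv, star, Prod.mk.injEq] at h <;> omega
    · exact h3
  · intro i j hij z hz hz'
    have hrs' : rs i ≠ rs j := by
      have := hln i j hij
      have := hof i
      have := hof j
      have := hN i
      have := hN j
      rw [hrs, hrs]
      omega
    obtain ⟨v, h1, h2, h3⟩ := nocross H hT (hsc i) (hsc j) (Or.inr (same i j))
      (armR_mem (hs0 i)) (armR_mem (hs0 j)) (by
        rw [eR, eR]; intro h; simp [rv] at h; exact hrs' h) hz hz'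
    rw [eR] at h1 h2
    rcases h1 with rfl | rfl
    · exact h3
    · rcases h2 with h | h <;> simp only [lv, rv, star, Prod.mk.injEq] at h <;> omega
  · intro i h
    have := D.avoid (gC i) (gL i) (v := star m) (by rw [eL]; exact Or.inr rfl) h
    rw [eC] at this
    rcases this with h | h <;> simp [lv, rv, star] at h
  · intro i j hij
    have := hτ _ _ (hN i) (hN j) (hln i j hij)
    exact ⟨this.1.le, this.2.1.le⟩
  · intro i j hij
    exact (hτ _ _ (hN i) (hN j) (hln i j hij)).2.2.1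
  · intro i j hij
    exact (hτ _ _ (hN i) (hN j) (hln i j hij)).2.2.2

/-- From drawings with few crossings to families of paths. -/
theorem draw_chord (hT : SValid N T) (D : LDraw (gEdges N T))
    (h : D.crossings.encard ≤ kk N T) : ChordReal N T := by
  obtain ⟨K⟩ := exists_skel D h
  have H := tight hT K h
  obtain ⟨τ, hτ⟩ := exists_tau K H hT
  refine ⟨cpath D, τ, ?_, ?_⟩
  · intro e f he hf hef
    obtain ⟨h1, h2, h3, h4⟩ := hτ e f he hf hef
    refine ⟨h1, h2, h3, ?_⟩
    intro s t s0 s2 t0 t2 hst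
    refine ⟨h4 s s0 s2 (by rw [hst]; exact mem_S_param t0 t2), ?_⟩
    exact (hτ f e hf he hef.symm).2.2.2 t t0 t2 (by rw [← hst]; exact mem_S_param s0 s2)
  · intro c hc
    obtain ⟨t, htl, hct⟩ := List.mem_iff_getElem.1 hc
    have hgd : T.getD t dflt = c := by rw [List.getD_eq_getElem _ _ htl]; exact hct
    obtain ⟨v1, v2, v3⟩ := hT c hc
    have hin : ∀ x ∈ starC t c, x ∈ curves N T := by
      intro x hx
      refine mem_curves.2 (Or.inr ⟨t, htl, ?_⟩)
      rw [hgd]
      exact hx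
    obtain ⟨e, f, g, σ⟩ := c
    simp only at v1 v2 v3
    cases σ
    · -- the sign is false
      have S := starHyp_of K H hT hτ false
        ![(g, t + 1, 2, 2), (f, t + 1, 1, 0), (e, t + 1, 0, 2)] t
        (by intro i; fin_cases i <;> exact hin _ (by simp [starC]))
        (by intro i; fin_cases i <;> rfl) (by intro i; fin_cases i <;> simp)
        (by intro i j hij; fin_cases i <;> fin_cases j <;> simp at hij ⊢ <;> omega)
        ![3 * g + 1 + 1, 3 * f + 1 + 1, 3 * e + 1 + 1]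
        ![3 * (N - 1 - g) + 1 + 1, 3 * (N - 1 - f) + 1 + 1, 3 * (N - 1 - e) + 1 + 1]
        ![3 * g + 2 + 1, 3 * f + 0 + 1, 3 * e + 2 + 1]
        ![3 * (N - 1 - g) + 2 + 1, 3 * (N - 1 - f) + 0 + 1, 3 * (N - 1 - e) + 2 + 1]
        (by intro i; fin_cases i <;> rfl) (by intro i; fin_cases i <;> rfl)
        (by intro i; fin_cases i <;> rfl) (by intro i; fin_cases i <;> rfl)
        (by simp only [ht, Matrix.cons_val_zero, Matrix.cons_val_one, Matrix.cons_val]
            simp only [Bool.false_eq_true, if_false]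
            refine ⟨?_, ?_, ?_, ?_, ?_⟩ <;> push_cast <;> omega)
        (by simp only [ht, Matrix.cons_val_zero, Matrix.cons_val_one, Matrix.cons_val]
            simp only [Bool.false_eq_true, if_false]
            refine ⟨?_, ?_, ?_, ?_, ?_⟩ <;> omega)
      obtain ⟨r1, r2, r3⟩ := star_core S
      simp only [Bool.false_eq_true, if_false]
      exact ⟨r3, r2, r1⟩
    · have S := starHyp_of K H hT hτ true
        ![(e, t + 1, 0, 0), (f, t + 1, 1, 2), (g, t + 1, 2, 0)] t
        (by intro i; fin_cases i <;> exact hin _ (by simp [starC]))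
        (by intro i; fin_cases i <;> rfl) (by intro i; fin_cases i <;> simp)
        (by intro i j hij; fin_cases i <;> fin_cases j <;> simp at hij ⊢ <;> omega)
        ![3 * e + 1 + 1, 3 * f + 1 + 1, 3 * g + 1 + 1]
        ![3 * (N - 1 - e) + 1 + 1, 3 * (N - 1 - f) + 1 + 1, 3 * (N - 1 - g) + 1 + 1]
        ![3 * e + 0 + 1, 3 * f + 2 + 1, 3 * g + 0 + 1]
        ![3 * (N - 1 - e) + 0 + 1, 3 * (N - 1 - f) + 2 + 1, 3 * (N - 1 - g) + 0 + 1]
        (by intro i; fin_cases i <;> rfl) (by intro i; fin_cases i <;> rfl)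
        (by intro i; fin_cases i <;> rfl) (by intro i; fin_cases i <;> rfl)
        (by simp only [ht, Matrix.cons_val_zero, Matrix.cons_val_one, Matrix.cons_val]
            simp only [if_true]
            refine ⟨?_, ?_, ?_, ?_, ?_⟩ <;> push_cast <;> omega)
        (by simp only [ht, Matrix.cons_val_zero, Matrix.cons_val_one, Matrix.cons_val]
            simp only [if_true]
            refine ⟨?_, ?_, ?_, ?_, ?_⟩ <;> omega)
      obtain ⟨r1, r2, r3⟩ := star_core S
      simp only [if_true]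
      exact ⟨r1, r2, r3⟩

end Pool.Agent.CRt
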