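import Pool.Agent.CRt.Arith
import Pool.Agent.PolyTime.More

/-!
# From formulas to systems of gates
-/

set_option autoImplicit false

namespace Pool.Agent.CRt

namespace Tsei

/-! ## Parsing -/

/-- The sorts of the arguments of a symbol (`true`: term, `false`: formula). -/
def ar (t : ℕ) : List Bool :=
  if t = 0 then [true, true] else if t = 1 then [true, true] else if t = 2 then [false]
  else if t = 3 then [false, false] else if t = 4 then [false, false]
  else if t = 7 then [true, true] else if t = 8 then [true, true] else []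

/-- The sort of a symbol. -/
def srt (t : ℕ) : Bool := decide (5 ≤ t)

/-- One step of the parser. -/
def stepS (b : ℕ × ℕ) (s : Bool × List (Bool × ℕ)) : Bool × List (Bool × ℕ) :=
  if s.1 = true ∧ (s.2.take (ar b.1).length).map Prod.fst = ar b.1 then
    (true, (srt b.1, b.2) :: s.2.drop (ar b.1).length)
  else (false, [])

/-- The parser reads the string from the right. -/
def run (m : List (ℕ × ℕ)) : Bool × List (Bool × ℕ) := m.foldr stepS (true, [])

lemma ar_var (i : ℕ) : ar (9 + i) = [] := by
  unfold ar
  rw [if_neg (by omega), if_neg (by omega), if_neg (by omega), if_neg (by omega),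
    if_neg (by omega), if_neg (by omega), if_neg (by omega)]

lemma srt_var (i : ℕ) : srt (9 + i) = true := by
  unfold srt; rw [decide_eq_true_iff]; omega

lemma run_cons (b : ℕ × ℕ) (m : List (ℕ × ℕ)) : run (b :: m) = stepS b (run m) := rfl

lemma run_term (s : Term) : ∀ (k : ℕ) (m : List (ℕ × ℕ)), (run m).1 = true →
    run (s.code.zipIdx k ++ m) = (true, (true, k) :: (run m).2) := by
  induction s with
  | var i =>
    intro k m hm
    simp [Term.code, run_cons, stepS, hm, ar_var, srt_var]
  | zero =>
    intro k m hm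
    simp [Term.code, run_cons, stepS, hm, ar, srt]
  | one =>
    intro k m hm
    simp [Term.code, run_cons, stepS, hm, ar, srt]
  | add s t ihs iht =>
    intro k m hm
    have h1 := iht (k + 1 + s.code.length) m hm
    have h2 := ihs (k + 1) (t.code.zipIdx (k + 1 + s.code.length) ++ m) (by rw [h1])
    rw [h1] at h2
    simp only [Term.code, List.zipIdx_cons, List.zipIdx_append, List.cons_append,
      List.append_assoc, run_cons, h2]
    simp [stepS, ar, srt]
  | mul s t ihs iht =>
    intro k m hm
    have h1 := iht (k + 1 + s.code.length) m hm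
    have h2 := ihs (k + 1) (t.code.zipIdx (k + 1 + s.code.length) ++ m) (by rw [h1])
    rw [h1] at h2
    simp only [Term.code, List.zipIdx_cons, List.zipIdx_append, List.cons_append,
      List.append_assoc, run_cons, h2]
    simp [stepS, ar, srt]

lemma run_form (φ : Form) : ∀ (k : ℕ) (m : List (ℕ × ℕ)), (run m).1 = true →
    run (φ.code.zipIdx k ++ m) = (true, (false, k) :: (run m).2) := by
  induction φ with
  | lt s t =>
    intro k m hm
    have h1 := run_term t (k + 1 + s.code.length) m hm
    have h2 := run_term s (k + 1) (t.code.zipIdx (k + 1 + s.code.length) ++ m) (by rw [h1])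
    rw [h1] at h2
    simp only [Form.code, List.zipIdx_cons, List.zipIdx_append, List.cons_append,
      List.append_assoc, run_cons, h2]
    simp [stepS, ar, srt]
  | eq s t =>
    intro k m hm
    have h1 := run_term t (k + 1 + s.code.length) m hm
    have h2 := run_term s (k + 1) (t.code.zipIdx (k + 1 + s.code.length) ++ m) (by rw [h1])
    rw [h1] at h2
    simp only [Form.code, List.zipIdx_cons, List.zipIdx_append, List.cons_append,
      List.append_assoc, run_cons, h2]
    simp [stepS, ar, srt]
  | not φ ih =>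
    intro k m hm
    have h1 := ih (k + 1) m hm
    simp only [Form.code, List.zipIdx_cons, List.cons_append, run_cons, h1]
    simp [stepS, ar, srt]
  | and s t ihs iht =>
    intro k m hm
    have h1 := iht (k + 1 + s.code.length) m hm
    have h2 := ihs (k + 1) (t.code.zipIdx (k + 1 + s.code.length) ++ m) (by rw [h1])
    rw [h1] at h2
    simp only [Form.code, List.zipIdx_cons, List.zipIdx_append, List.cons_append,
      List.append_assoc, run_cons, h2]
    simp [stepS, ar, srt]
  | or s t ihs iht =>
    intro k m hm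
    have h1 := iht (k + 1 + s.code.length) m hm
    have h2 := ihs (k + 1) (t.code.zipIdx (k + 1 + s.code.length) ++ m) (by rw [h1])
    rw [h1] at h2
    simp only [Form.code, List.zipIdx_cons, List.zipIdx_append, List.cons_append,
      List.append_assoc, run_cons, h2]
    simp [stepS, ar, srt]

def codeTF : Term ⊕ Form → List ℕ
  | .inl s => s.code
  | .inr φ => φ.code

def sortTF : Term ⊕ Form → Bool
  | .inl _ => true
  | .inr _ => false

lemma two_terms {F : List (Term ⊕ Form)} {st : List (Bool × ℕ)} (h : st.map Prod.fst = F.map sortTF)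
    (h2 : (st.take 2).map Prod.fst = [true, true]) :
    ∃ s t F', F = .inl s :: .inl t :: F' ∧ (st.drop 2).map Prod.fst = F'.map sortTF := by
  match st, F, h, h2 with
  | a :: b :: st, .inl s :: .inl t :: F', h, _ => 
    simp only [List.map_cons, List.cons.injEq] at h
    exact ⟨s, t, F', rfl, h.2.2⟩
  | a :: b :: st, .inr s :: _, h, h2 => simp_all [sortTF]
  | a :: b :: st, .inl s :: .inr t :: F', h, h2 => simp_all [sortTF]
  | a :: b :: st, [.inl s], h, h2 => simp_all
  | a :: b :: st, [], h, h2 => simp_all
  | [a], _, h, h2 => simp_all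
  | [], _, h, h2 => simp_all [sortTF]

lemma two_forms {F : List (Term ⊕ Form)} {st : List (Bool × ℕ)} (h : st.map Prod.fst = F.map sortTF)
    (h2 : (st.take 2).map Prod.fst = [false, false]) :
    ∃ s t F', F = .inr s :: .inr t :: F' ∧ (st.drop 2).map Prod.fst = F'.map sortTF := by
  match st, F, h, h2 with
  | a :: b :: st, .inr s :: .inr t :: F', h, _ => 
    simp only [List.map_cons, List.cons.injEq] at h
    exact ⟨s, t, F', rfl, h.2.2⟩
  | a :: b :: st, .inl s :: _, h, h2 => simp_all [sortTF]
  | a :: b :: st, .inr s :: .inl t :: F', h, h2 => simp_all [sortTF]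
  | a :: b :: st, [.inr s], h, h2 => simp_all [sortTF]
  | a :: b :: st, [], h, h2 => simp_all [sortTF]
  | [a], _, h, h2 => simp_all [sortTF]
  | [], _, h, h2 => simp_all [sortTF]

lemma one_form {F : List (Term ⊕ Form)} {st : List (Bool × ℕ)} (h : st.map Prod.fst = F.map sortTF)
    (h2 : (st.take 1).map Prod.fst = [false]) :
    ∃ s F', F = .inr s :: F' ∧ (st.drop 1).map Prod.fst = F'.map sortTF := by
  match st, F, h, h2 with
  | a :: st, .inr s :: F', h, _ => 
    simp only [List.map_cons, List.cons.injEq] at h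
    exact ⟨s, F', rfl, h.2⟩
  | a :: st, .inl s :: _, h, h2 => simp_all [sortTF]
  | a :: st, [], h, h2 => simp_all [sortTF]
  | [], _, h, h2 => simp_all [sortTF]

lemma parse (l : List ℕ) : ∀ k, (run (l.zipIdx k)).1 = true →
    ∃ F : List (Term ⊕ Form), l = F.flatMap codeTF ∧
      (run (l.zipIdx k)).2.map Prod.fst = F.map sortTF := by
  induction l with
  | nil => intro k _; exact ⟨[], rfl, rfl⟩
  | cons t l ih =>
    intro k hk
    rw [List.zipIdx_cons, run_cons] at hk ⊢
    unfold stepS at hk ⊢
    split_ifs at hk ⊢ with hc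
    · obtain ⟨hc1, hc2⟩ := hc
      obtain ⟨F, hF1, hF2⟩ := ih (k + 1) hc1
      simp only at hc2 ⊢
      by_cases h0 : t = 0
      · subst h0
        obtain ⟨s, t, F', rfl, hF'⟩ := two_terms hF2 (by simpa [ar] using hc2)
        refine ⟨.inr (.lt s t) :: F', ?_, ?_⟩
        · rw [hF1]; simp [codeTF, Form.code]
        · simpa [ar, srt, sortTF] using hF'
      by_cases h1 : t = 1
      · subst h1
        obtain ⟨s, t, F', rfl, hF'⟩ := two_terms hF2 (by simpa [ar] using hc2)
        refine ⟨.inr (.eq s t) :: F', ?_, ?_⟩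
        · rw [hF1]; simp [codeTF, Form.code]
        · simpa [ar, srt, sortTF] using hF'
      by_cases h2 : t = 2
      · subst h2
        obtain ⟨s, F', rfl, hF'⟩ := one_form hF2 (by simpa [ar] using hc2)
        refine ⟨.inr (.not s) :: F', ?_, ?_⟩
        · rw [hF1]; simp [codeTF, Form.code]
        · simpa [ar, srt, sortTF] using hF'
      by_cases h3 : t = 3
      · subst h3
        obtain ⟨s, t, F', rfl, hF'⟩ := two_forms hF2 (by simpa [ar] using hc2)
        refine ⟨.inr (.and s t) :: F', ?_, ?_⟩
        · rw [hF1]; simp [codeTF, Form.code]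
        · simpa [ar, srt, sortTF] using hF'
      by_cases h4 : t = 4
      · subst h4
        obtain ⟨s, t, F', rfl, hF'⟩ := two_forms hF2 (by simpa [ar] using hc2)
        refine ⟨.inr (.or s t) :: F', ?_, ?_⟩
        · rw [hF1]; simp [codeTF, Form.code]
        · simpa [ar, srt, sortTF] using hF'
      by_cases h7 : t = 7
      · subst h7
        obtain ⟨s, t, F', rfl, hF'⟩ := two_terms hF2 (by simpa [ar] using hc2)
        refine ⟨.inl (.add s t) :: F', ?_, ?_⟩
        · rw [hF1]; simp [codeTF, Term.code]
        · simpa [ar, srt, sortTF] using hF'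
      by_cases h8 : t = 8
      · subst h8
        obtain ⟨s, t, F', rfl, hF'⟩ := two_terms hF2 (by simpa [ar] using hc2)
        refine ⟨.inl (.mul s t) :: F', ?_, ?_⟩
        · rw [hF1]; simp [codeTF, Term.code]
        · simpa [ar, srt, sortTF] using hF'
      have har : ar t = [] := by simp [ar, h0, h1, h2, h3, h4, h7, h8]
      have hsrt : srt t = true := by
        unfold srt; rw [decide_eq_true_iff]; omega
      have hFF : ((run (l.zipIdx (k + 1))).2.drop (ar t).length).map Prod.fst = F.map sortTF := by
        simpa [har] using hF2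
      by_cases h5 : t = 5
      · refine ⟨.inl .zero :: F, ?_, ?_⟩
        · rw [h5, hF1]; simp [codeTF, Term.code]
        · rw [List.map_cons, List.map_cons, hFF, hsrt]; rfl
      by_cases h6 : t = 6
      · refine ⟨.inl .one :: F, ?_, ?_⟩
        · rw [h6, hF1]; simp [codeTF, Term.code]
        · rw [List.map_cons, List.map_cons, hFF, hsrt]; rfl
      · refine ⟨.inl (.var (t - 9)) :: F, ?_, ?_⟩
        · have : t = 9 + (t - 9) := by omega
          rw [hF1]
          simp only [List.flatMap_cons, codeTF, Term.code]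
          rw [← this]; rfl
        · rw [List.map_cons, List.map_cons, hFF, hsrt]; rfl

/-! ## The gates -/

/-- fresh variables -/
def fr (p j : ℕ) : ℕ := 2 * (10 * p + j) + 1

/-- The gates of a symbol `t` at the position `p` with arguments at the positions `c` and `d`. -/
def gat (t p c d : ℕ) : List Gate :=
  if t = 0 then
    [(false, fr c 0, fr p 2, fr d 0), (true, fr p 3, fr p 3, fr p 4), (true, fr p 2, fr p 4, fr p 5),
     (false, fr p 0, 0, fr p 5), (true, fr p 6, fr p 6, fr p 7), (false, fr d 0, fr p 8, fr c 0),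
     (false, fr p 1, fr p 7, fr p 8)]
  else if t = 1 then
    [(false, fr c 0, fr p 0, fr d 0), (true, fr p 0, fr p 3, fr p 5), (false, fr p 1, 0, fr p 5)]
  else if t = 2 then
    [(true, fr c 1, 0, fr p 0), (true, fr c 0, 0, fr p 1)]
  else if t = 3 then
    [(true, fr c 0, fr c 0, fr p 2), (true, fr d 0, fr d 0, fr p 3), (false, fr p 2, fr p 3, fr p 0),
     (true, fr c 1, fr d 1, fr p 1)]
  else if t = 4 then
    [(true, fr c 1, fr c 1, fr p 2), (true, fr d 1, fr d 1, fr p 3), (false, fr p 2, fr p 3, fr p 1),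
     (true, fr c 0, fr d 0, fr p 0)]
  else if t = 5 then [(false, fr p 0, fr p 0, fr p 0)]
  else if t = 6 then [(true, 0, 0, fr p 0)]
  else if t = 7 then [(false, fr c 0, fr d 0, fr p 0)]
  else if t = 8 then [(true, fr c 0, fr d 0, fr p 0)]
  else [(true, 2 * (t - 9) + 2, 0, fr p 0)]

lemma gat_var (i p c d : ℕ) : gat (9 + i) p c d = [(true, 2 * i + 2, 0, fr p 0)] := by
  unfold gat
  rw [if_neg (by omega), if_neg (by omega), if_neg (by omega), if_neg (by omega),
    if_neg (by omega), if_neg (by omega), if_neg (by omega), if_neg (by omega),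
    if_neg (by omega), Nat.add_sub_cancel_left]

/-- The gates of the symbol `b` of the string `Z`. -/
def gAt (Z : List (ℕ × ℕ)) (b : ℕ × ℕ) : List Gate :=
  gat b.1 b.2 ((run (Z.drop (b.2 + 1))).2.getD 0 (true, 0)).2
    ((run (Z.drop (b.2 + 1))).2.getD 1 (true, 0)).2

/-- All gates. -/
def allG (Z : List (ℕ × ℕ)) : List Gate :=
  (false, fr 0 0, fr 0 0, fr 0 0) :: Z.flatMap (gAt Z)

/-- The suffix `Z.drop p` of the string consists of `c` and a list `m` of terms and formulas. -/
def Suf (Z : List (ℕ × ℕ)) (p : ℕ) (c : List ℕ) (m : List (ℕ × ℕ)) : Prop :=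
  Z.drop p = c.zipIdx p ++ m ∧ (run m).1 = true

lemma Suf.mem {Z : List (ℕ × ℕ)} {p t : ℕ} {c : List ℕ} {m : List (ℕ × ℕ)}
    (h : Suf Z p (t :: c) m) : (t, p) ∈ Z := by
  have h1 := h.1
  rw [List.zipIdx_cons, List.cons_append] at h1
  refine List.mem_of_mem_drop (i := p) ?_
  rw [h1]
  exact List.mem_cons_self

lemma Suf.drop {Z : List (ℕ × ℕ)} {p t : ℕ} {c : List ℕ} {m : List (ℕ × ℕ)}
    (h : Suf Z p (t :: c) m) : Suf Z (p + 1) c m := by
  refine ⟨?_, h.2⟩
  have h1 := h.1
  rw [List.zipIdx_cons, List.cons_append] at h1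
  rw [← List.drop_drop, h1]
  rfl

lemma Suf.split {Z : List (ℕ × ℕ)} {p : ℕ} {c d : List ℕ} {m : List (ℕ × ℕ)}
    (h : Suf Z p (c ++ d) m) : Suf Z (p + c.length) d m := by
  refine ⟨?_, h.2⟩
  have h1 := h.1
  rw [List.zipIdx_append] at h1
  rw [← List.drop_drop, h1, List.append_assoc]
  rw [List.drop_append_of_le_length (by simp)]
  have : (c.zipIdx p).drop c.length = [] := by
    rw [List.drop_eq_nil_iff]; simp
  rw [this]; rfl

lemma Suf.left {Z : List (ℕ × ℕ)} {p : ℕ} {c d : List ℕ} {m : List (ℕ × ℕ)}
    (h : Suf Z p (c ++ d) m) (hd : (run (d.zipIdx (p + c.length) ++ m)).1 = true) :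
    Suf Z p c (d.zipIdx (p + c.length) ++ m) := by
  refine ⟨?_, hd⟩
  rw [h.1, List.zipIdx_append, List.append_assoc]

/-- the two arguments of a symbol with two terms as arguments -/
lemma Suf.args_tt {Z : List (ℕ × ℕ)} {p t : ℕ} {s u : Term} {m : List (ℕ × ℕ)}
    (h : Suf Z p (t :: (s.code ++ u.code)) m) :
    Suf Z (p + 1) s.code (u.code.zipIdx (p + 1 + s.code.length) ++ m) ∧
    Suf Z (p + 1 + s.code.length) u.code m ∧
    gAt Z (t, p) = gat t p (p + 1) (p + 1 + s.code.length) := by
  have h1 := h.drop
  have h2 := run_term u (p + 1 + s.code.length) m h.2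
  have h3 : Suf Z (p + 1) s.code (u.code.zipIdx (p + 1 + s.code.length) ++ m) :=
    h1.left (by rw [h2])
  refine ⟨h3, h1.split, ?_⟩
  have h4 := run_term s (p + 1) _ h3.2
  rw [h2] at h4
  unfold gAt
  simp only [h3.1, h4]
  rfl

lemma Suf.args_ff {Z : List (ℕ × ℕ)} {p t : ℕ} {s u : Form} {m : List (ℕ × ℕ)}
    (h : Suf Z p (t :: (s.code ++ u.code)) m) :
    Suf Z (p + 1) s.code (u.code.zipIdx (p + 1 + s.code.length) ++ m) ∧
    Suf Z (p + 1 + s.code.length) u.code m ∧
    gAt Z (t, p) = gat t p (p + 1) (p + 1 + s.code.length) := by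
  have h1 := h.drop
  have h2 := run_form u (p + 1 + s.code.length) m h.2
  have h3 : Suf Z (p + 1) s.code (u.code.zipIdx (p + 1 + s.code.length) ++ m) :=
    h1.left (by rw [h2])
  refine ⟨h3, h1.split, ?_⟩
  have h4 := run_form s (p + 1) _ h3.2
  rw [h2] at h4
  unfold gAt
  simp only [h3.1, h4]
  rfl

lemma Suf.args_f {Z : List (ℕ × ℕ)} {p t : ℕ} {s : Form} {m : List (ℕ × ℕ)}
    (h : Suf Z p (t :: s.code) m) : Suf Z (p + 1) s.code m ∧
    ∃ d, gAt Z (t, p) = gat t p (p + 1) d := by
  have h1 := h.drop
  refine ⟨h1, ?_⟩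
  have h4 := run_form s (p + 1) _ h.2
  unfold gAt
  simp only [h1.1, h4]
  exact ⟨_, rfl⟩

/-! ## Soundness -/

section Sound

variable {Z : List (ℕ × ℕ)} {y : ℕ → ℝ}

lemma sound_term (h0 : y 0 = 1) (hy : ∀ b ∈ Z, ∀ g ∈ gAt Z b, resG y g = 0) (s : Term) :
    ∀ (p : ℕ) (m : List (ℕ × ℕ)), Suf Z p s.code m →
      y (fr p 0) = s.eval fun i => y (2 * i + 2) := by
  induction s with
  | var i =>
    intro p m h
    have h1 := hy _ h.mem (true, 2 * i + 2, 0, fr p 0) (by
      unfold gAt
      rw [gat_var]
      simp)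
    simp only [resG, if_true, h0, mul_one] at h1
    simp only [Term.eval]
    linarith
  | zero =>
    intro p m h
    have h1 := hy _ h.mem (false, fr p 0, fr p 0, fr p 0) (by
      unfold gAt gat
      simp)
    simp only [resG] at h1
    simp only [Term.eval]
    norm_num at h1
    linarith
  | one =>
    intro p m h
    have h1 := hy _ h.mem (true, 0, 0, fr p 0) (by
      unfold gAt gat
      simp)
    simp only [resG, if_true, h0, mul_one] at h1
    simp only [Term.eval]
    linarith
  | add s u ihs ihu =>
    intro p m h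
    have hm := h.mem
    obtain ⟨hs, hu, hg⟩ := Suf.args_tt h
    have h1 := hy _ hm (false, fr (p + 1) 0, fr (p + 1 + s.code.length) 0, fr p 0) (by
      rw [hg]; unfold gat; simp)
    have e1 := ihs _ _ hs
    have e2 := ihu _ _ hu
    simp only [resG] at h1
    simp only [Term.eval]
    norm_num at h1
    rw [← e1, ← e2]
    linarith
  | mul s u ihs ihu =>
    intro p m h
    have hm := h.mem
    obtain ⟨hs, hu, hg⟩ := Suf.args_tt h
    have h1 := hy _ hm (true, fr (p + 1) 0, fr (p + 1 + s.code.length) 0, fr p 0) (by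
      rw [hg]; unfold gat; simp)
    have e1 := ihs _ _ hs
    have e2 := ihu _ _ hu
    simp only [resG, if_true] at h1
    simp only [Term.eval]
    rw [← e1, ← e2]
    linarith

lemma sound_form (h0 : y 0 = 1) (hy : ∀ b ∈ Z, ∀ g ∈ gAt Z b, resG y g = 0) (φ : Form) :
    ∀ (p : ℕ) (m : List (ℕ × ℕ)), Suf Z p φ.code m →
      (y (fr p 0) = 0 → φ.holds fun i => y (2 * i + 2)) ∧
      (y (fr p 1) = 0 → ¬ φ.holds fun i => y (2 * i + 2)) := by
  induction φ with
  | lt s u =>
    intro p m h
    have hm := h.mem
    obtain ⟨hs, hu, hg⟩ := Suf.args_tt h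
    have e1 := sound_term h0 hy s _ _ hs
    have e2 := sound_term h0 hy u _ _ hu
    have H : ∀ g ∈ gat 0 p (p + 1) (p + 1 + s.code.length), resG y g = 0 := by
      rw [← hg]; exact hy _ hm
    simp only [gat, if_true, List.forall_mem_cons, resG, h0, mul_one] at H
    norm_num at H
    obtain ⟨H1, H2, H3, H4, H5, H6, H7⟩ := H
    simp only [Form.holds]
    rw [← e1, ← e2]
    constructor
    · intro hz
      have h3 : y (fr p 2) * y (fr p 4) = 1 := by linarith
      have h4 : 0 ≤ y (fr p 4) := by
        have : y (fr p 4) = y (fr p 3) * y (fr p 3) := by linarith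
        rw [this]; exact mul_self_nonneg _
      have h5 : 0 < y (fr p 2) := by
        by_contra hneg
        push Not at hneg
        have := mul_nonpos_of_nonpos_of_nonneg hneg h4
        linarith
      linarith
    · intro hz hlt
      have h4 : 0 ≤ y (fr p 7) := by
        have : y (fr p 7) = y (fr p 6) * y (fr p 6) := by linarith
        rw [this]; exact mul_self_nonneg _
      linarith
  | eq s u =>
    intro p m h
    have hm := h.mem
    obtain ⟨hs, hu, hg⟩ := Suf.args_tt h
    have e1 := sound_term h0 hy s _ _ hs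
    have e2 := sound_term h0 hy u _ _ hu
    have H : ∀ g ∈ gat 1 p (p + 1) (p + 1 + s.code.length), resG y g = 0 := by
      rw [← hg]; exact hy _ hm
    simp only [gat, one_ne_zero, if_false, if_true, List.forall_mem_cons, resG, h0, mul_one] at H
    norm_num at H
    obtain ⟨H1, H2, H3⟩ := H
    simp only [Form.holds]
    rw [← e1, ← e2]
    constructor
    · intro hz
      linarith
    · intro hz heq
      have h3 : y (fr p 0) = 0 := by linarith
      rw [h3, zero_mul] at H2
      linarith
  | not φ ih =>
    intro p m h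
    have hm := h.mem
    obtain ⟨hs, d, hg⟩ := Suf.args_f h
    obtain ⟨i1, i2⟩ := ih _ _ hs
    have H : ∀ g ∈ gat 2 p (p + 1) d, resG y g = 0 := by
      rw [← hg]; exact hy _ hm
    simp only [gat, OfNat.ofNat_ne_zero, OfNat.ofNat_ne_one, if_false, if_true,
      List.forall_mem_cons, resG, h0, mul_one] at H
    norm_num at H
    obtain ⟨H1, H2⟩ := H
    simp only [Form.holds]
    exact ⟨fun hz => i2 (by linarith), fun hz => not_not.mpr (i1 (by linarith))⟩
  | and φ ψ ih1 ih2 =>
    intro p m h
    have hm := h.mem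
    obtain ⟨hs, hu, hg⟩ := Suf.args_ff h
    obtain ⟨i1, i2⟩ := ih1 _ _ hs
    obtain ⟨j1, j2⟩ := ih2 _ _ hu
    have H : ∀ g ∈ gat 3 p (p + 1) (p + 1 + φ.code.length), resG y g = 0 := by
      rw [← hg]; exact hy _ hm
    simp only [gat, List.forall_mem_cons, resG, h0, mul_one] at H
    norm_num at H
    obtain ⟨H1, H2, H3, H4⟩ := H
    simp only [Form.holds]
    constructor
    · intro hz
      have a1 := mul_self_nonneg (y (fr (p + 1) 0))
      have a2 := mul_self_nonneg (y (fr (p + 1 + φ.code.length) 0))
      exact ⟨i1 (mul_self_eq_zero.mp (by linarith)), j1 (mul_self_eq_zero.mp (by linarith))⟩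
    · intro hz hh
      have a1 : y (fr (p + 1) 1) * y (fr (p + 1 + φ.code.length) 1) = 0 := by linarith
      rcases mul_eq_zero.mp a1 with a | a
      · exact i2 a hh.1
      · exact j2 a hh.2
  | or φ ψ ih1 ih2 =>
    intro p m h
    have hm := h.mem
    obtain ⟨hs, hu, hg⟩ := Suf.args_ff h
    obtain ⟨i1, i2⟩ := ih1 _ _ hs
    obtain ⟨j1, j2⟩ := ih2 _ _ hu
    have H : ∀ g ∈ gat 4 p (p + 1) (p + 1 + φ.code.length), resG y g = 0 := by
      rw [← hg]; exact hy _ hm
    simp only [gat, List.forall_mem_cons, resG, h0, mul_one] at H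
    norm_num at H
    obtain ⟨H1, H2, H3, H4⟩ := H
    simp only [Form.holds]
    constructor
    · intro hz
      have a1 : y (fr (p + 1) 0) * y (fr (p + 1 + φ.code.length) 0) = 0 := by linarith
      rcases mul_eq_zero.mp a1 with a | a
      · exact Or.inl (i1 a)
      · exact Or.inr (j1 a)
    · intro hz hh
      have a1 := mul_self_nonneg (y (fr (p + 1) 1))
      have a2 := mul_self_nonneg (y (fr (p + 1 + φ.code.length) 1))
      rcases hh with hh | hh
      · exact i2 (mul_self_eq_zero.mp (by linarith)) hh
      · exact j2 (mul_self_eq_zero.mp (by linarith)) hh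

end Sound

/-! ## Completeness -/

section Complete

variable (x : ℕ → ℝ)

/-- The values of the variables of the nodes of a term. -/
def valsT : Term → List (ℕ → ℝ)
  | .var i => [fun _ => x i]
  | .zero => [fun _ => 0]
  | .one => [fun _ => 1]
  | .add s t => (fun _ => s.eval x + t.eval x) :: (valsT s ++ valsT t)
  | .mul s t => (fun _ => s.eval x * t.eval x) :: (valsT s ++ valsT t)

/-- The values of the variables of the root of a formula. -/
noncomputable def DD : Form → ℕ → ℝ
  | .lt s t => fun j =>
      let d := t.eval x - s.eval x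
      let z := if 0 < d then 1 / Real.sqrt d else 0
      let z' := if 0 < d then 0 else Real.sqrt (-d)
      if j = 0 then d * (z * z) - 1 else if j = 1 then -d - z' * z' else if j = 2 then d
      else if j = 3 then z else if j = 4 then z * z else if j = 5 then d * (z * z)
      else if j = 6 then z' else if j = 7 then z' * z' else -d
  | .eq s t => fun j =>
      let d := t.eval x - s.eval x
      let z := if d = 0 then 0 else 1 / d
      if j = 0 then d else if j = 1 then d * z - 1 else if j = 3 then z else d * z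
  | .not φ => fun j => if j = 0 then DD φ 1 else DD φ 0
  | .and φ ψ => fun j =>
      if j = 0 then DD φ 0 * DD φ 0 + DD ψ 0 * DD ψ 0 else if j = 1 then DD φ 1 * DD ψ 1
      else if j = 2 then DD φ 0 * DD φ 0 else DD ψ 0 * DD ψ 0
  | .or φ ψ => fun j =>
      if j = 0 then DD φ 0 * DD ψ 0 else if j = 1 then DD φ 1 * DD φ 1 + DD ψ 1 * DD ψ 1
      else if j = 2 then DD φ 1 * DD φ 1 else DD ψ 1 * DD ψ 1

noncomputable def valsF : Form → List (ℕ → ℝ)
  | .lt s t => DD x (.lt s t) :: (valsT x s ++ valsT x t)
  | .eq s t => DD x (.eq s t) :: (valsT x s ++ valsT x t)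
  | .not φ => DD x (.not φ) :: valsF φ
  | .and φ ψ => DD x (.and φ ψ) :: (valsF φ ++ valsF ψ)
  | .or φ ψ => DD x (.or φ ψ) :: (valsF φ ++ valsF ψ)

lemma length_valsT (s : Term) : (valsT x s).length = s.code.length := by
  induction s <;> simp_all [valsT, Term.code]

lemma length_valsF (φ : Form) : (valsF x φ).length = φ.code.length := by
  induction φ <;> simp_all [valsF, Form.code, length_valsT]

lemma DD_holds (φ : Form) : (φ.holds x → DD x φ 0 = 0) ∧ (¬ φ.holds x → DD x φ 1 = 0) := by
  induction φ with
  | lt s t =>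
    simp only [Form.holds, DD]
    constructor
    · intro h
      have hd : 0 < t.eval x - s.eval x := sub_pos.mpr h
      simp only [if_true, hd]
      have h2 := Real.mul_self_sqrt hd.le
      have h3 : Real.sqrt (t.eval x - s.eval x) ≠ 0 := (Real.sqrt_pos.mpr hd).ne'
      have : (1 / Real.sqrt (t.eval x - s.eval x)) * (1 / Real.sqrt (t.eval x - s.eval x)) =
          1 / (t.eval x - s.eval x) := by
        rw [div_mul_div_comm, h2, one_mul]
      rw [this]
      field_simp
      ring
    · intro h
      have hd : ¬ 0 < t.eval x - s.eval x := fun h' => h (sub_pos.mp h')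
      have hd' : 0 ≤ -(t.eval x - s.eval x) := by linarith
      simp only [one_ne_zero, if_false, if_true, hd]
      rw [Real.mul_self_sqrt hd']
      ring
  | eq s t =>
    simp only [Form.holds, DD]
    constructor
    · intro h
      simp [h]
    · intro h
      have hd : t.eval x - s.eval x ≠ 0 := fun h' => h (sub_eq_zero.mp h').symm
      simp only [one_ne_zero, if_false, if_true, hd]
      field_simp
      ring
  | not φ ih =>
    simp only [Form.holds, DD]
    exact ⟨fun h => by simpa using ih.2 h, fun h => by simpa using ih.1 (not_not.mp h)⟩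
  | and φ ψ ih1 ih2 =>
    simp only [Form.holds, DD]
    constructor
    · intro h
      simp [ih1.1 h.1, ih2.1 h.2]
    · intro h
      by_cases h1 : φ.holds x
      · have h2 : ¬ ψ.holds x := fun h' => h ⟨h1, h'⟩
        simp [ih2.2 h2]
      · simp [ih1.2 h1]
  | or φ ψ ih1 ih2 =>
    simp only [Form.holds, DD]
    constructor
    · intro h
      rcases h with h | h
      · simp [ih1.1 h]
      · simp [ih2.1 h]
    · intro h
      have h1 : ¬ φ.holds x := fun h' => h (Or.inl h')
      have h2 : ¬ ψ.holds x := fun h' => h (Or.inr h')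
      simp [ih1.2 h1, ih2.2 h2]

/-- The assignment. -/
noncomputable def asg (V : List (ℕ → ℝ)) (id : ℕ) : ℝ :=
  if id = 0 then 1 else if id % 2 = 0 then x (id / 2 - 1)
  else (V.getD ((id - 1) / 2 / 10) fun _ => 0) ((id - 1) / 2 % 10)

lemma asg_zero (V : List (ℕ → ℝ)) : asg x V 0 = 1 := by simp [asg]

lemma asg_var (V : List (ℕ → ℝ)) (i : ℕ) : asg x V (2 * i + 2) = x i := by
  unfold asg
  rw [if_neg (by omega), if_pos (by omega)]
  congr 1
  omega

lemma asg_fr (V : List (ℕ → ℝ)) (p j : ℕ) (hj : j < 10) {v : ℕ → ℝ} {V' : List (ℕ → ℝ)}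
    (h : V.drop p = v :: V') : asg x V (fr p j) = v j := by
  unfold asg fr
  rw [if_neg (by omega), if_neg (by omega)]
  have e1 : (2 * (10 * p + j) + 1 - 1) / 2 / 10 = p := by omega
  have e2 : (2 * (10 * p + j) + 1 - 1) / 2 % 10 = j := by omega
  rw [e1, e2]
  have e3 : V.getD p (fun _ => 0) = v := by
    have h1 : (V.drop p)[0]? = some v := by rw [h]; rfl
    rw [List.getElem?_drop, Nat.add_zero] at h1
    rw [List.getD_eq_getElem?_getD, h1]; rfl
  rw [e3]

lemma valsT_head (s : Term) : ∃ v V', valsT x s = v :: V' ∧ v 0 = s.eval x := by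
  cases s with
  | var i => exact ⟨_, _, rfl, rfl⟩
  | zero => exact ⟨_, _, rfl, rfl⟩
  | one => exact ⟨_, _, rfl, rfl⟩
  | add s t => exact ⟨_, _, rfl, rfl⟩
  | mul s t => exact ⟨_, _, rfl, rfl⟩

lemma valsF_head (φ : Form) : ∃ V', valsF x φ = DD x φ :: V' := by
  cases φ with
  | lt s t => exact ⟨_, rfl⟩
  | eq s t => exact ⟨_, rfl⟩
  | not φ => exact ⟨_, rfl⟩
  | and φ ψ => exact ⟨_, rfl⟩
  | or φ ψ => exact ⟨_, rfl⟩

variable {Z : List (ℕ × ℕ)} {V : List (ℕ → ℝ)}

lemma drop_split {p : ℕ} {a b c : List (ℕ → ℝ)} (h : V.drop p = a ++ b ++ c) :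
    V.drop (p + a.length) = b ++ c := by
  rw [← List.drop_drop, h, List.append_assoc, List.drop_left]

lemma asgT_val {p : ℕ} {s : Term} {W : List (ℕ → ℝ)} (h : V.drop p = valsT x s ++ W) :
    asg x V (fr p 0) = s.eval x := by
  obtain ⟨v, V', h1, h2⟩ := valsT_head x s
  rw [h1, List.cons_append] at h
  rw [asg_fr x V p 0 (by norm_num) h, h2]

lemma asgF_val {p : ℕ} {φ : Form} {W : List (ℕ → ℝ)} (h : V.drop p = valsF x φ ++ W) (j : ℕ)
    (hj : j < 10) : asg x V (fr p j) = DD x φ j := by
  obtain ⟨V', h1⟩ := valsF_head x φ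
  rw [h1, List.cons_append] at h
  rw [asg_fr x V p j hj h]

lemma complete_term (s : Term) :
    ∀ (p : ℕ) (m : List (ℕ × ℕ)) (W : List (ℕ → ℝ)), Suf Z p s.code m →
      V.drop p = valsT x s ++ W → ∀ b ∈ s.code.zipIdx p, ∀ g ∈ gAt Z b, resG (asg x V) g = 0 := by
  induction s with
  | var i =>
    intro p m W h hV b hb g hg
    have e0 := asgT_val x hV
    simp only [Term.code, List.zipIdx_cons, List.zipIdx_nil, List.mem_singleton] at hb
    subst hb
    have : g = (true, 2 * i + 2, 0, fr p 0) := by
      simpa [gAt, gat_var] using hg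
    subst this
    simp only [resG, if_true, asg_zero, asg_var, e0, Term.eval]
    ring
  | zero =>
    intro p m W h hV b hb g hg
    have e0 := asgT_val x hV
    simp only [Term.code, List.zipIdx_cons, List.zipIdx_nil, List.mem_singleton] at hb
    subst hb
    have : g = (false, fr p 0, fr p 0, fr p 0) := by
      simpa [gAt, gat] using hg
    subst this
    simp only [resG, e0, Term.eval]
    norm_num
  | one =>
    intro p m W h hV b hb g hg
    have e0 := asgT_val x hV
    simp only [Term.code, List.zipIdx_cons, List.zipIdx_nil, List.mem_singleton] at hb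
    subst hb
    have : g = (true, 0, 0, fr p 0) := by
      simpa [gAt, gat] using hg
    subst this
    simp only [resG, asg_zero, e0, Term.eval]
    norm_num
  | add s u ihs ihu =>
    intro p m W h hV b hb g hg
    have e0 := asgT_val x hV
    obtain ⟨hs, hu, hgp⟩ := Suf.args_tt h
    simp only [valsT, List.cons_append] at hV
    have hV1 : V.drop (p + 1) = valsT x s ++ valsT x u ++ W := by
      rw [← List.drop_drop, hV]; rfl
    have hV2 : V.drop (p + 1 + s.code.length) = valsT x u ++ W := by
      rw [← length_valsT x s]; exact drop_split hV1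
    have hV1' : V.drop (p + 1) = valsT x s ++ (valsT x u ++ W) := by
      rw [hV1, List.append_assoc]
    simp only [Term.code, List.zipIdx_cons, List.zipIdx_append, List.mem_cons,
      List.mem_append] at hb
    rcases hb with rfl | hb | hb
    · rw [hgp] at hg
      have : g = (false, fr (p + 1) 0, fr (p + 1 + s.code.length) 0, fr p 0) := by
        simpa [gat] using hg
      subst this
      have e1 := asgT_val x hV1'
      have e2 := asgT_val x hV2
      simp only [resG, e0, e1, e2, Term.eval]
      norm_num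
    · exact ihs _ _ _ hs hV1' b hb g hg
    · exact ihu _ _ _ hu hV2 b hb g hg
  | mul s u ihs ihu =>
    intro p m W h hV b hb g hg
    have e0 := asgT_val x hV
    obtain ⟨hs, hu, hgp⟩ := Suf.args_tt h
    simp only [valsT, List.cons_append] at hV
    have hV1 : V.drop (p + 1) = valsT x s ++ valsT x u ++ W := by
      rw [← List.drop_drop, hV]; rfl
    have hV2 : V.drop (p + 1 + s.code.length) = valsT x u ++ W := by
      rw [← length_valsT x s]; exact drop_split hV1
    have hV1' : V.drop (p + 1) = valsT x s ++ (valsT x u ++ W) := by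
      rw [hV1, List.append_assoc]
    simp only [Term.code, List.zipIdx_cons, List.zipIdx_append, List.mem_cons,
      List.mem_append] at hb
    rcases hb with rfl | hb | hb
    · rw [hgp] at hg
      have : g = (true, fr (p + 1) 0, fr (p + 1 + s.code.length) 0, fr p 0) := by
        simpa [gat] using hg
      subst this
      have e1 := asgT_val x hV1'
      have e2 := asgT_val x hV2
      simp only [resG, e0, e1, e2, Term.eval]
      norm_num
    · exact ihs _ _ _ hs hV1' b hb g hg
    · exact ihu _ _ _ hu hV2 b hb g hg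

lemma complete_form (φ : Form) :
    ∀ (p : ℕ) (m : List (ℕ × ℕ)) (W : List (ℕ → ℝ)), Suf Z p φ.code m →
      V.drop p = valsF x φ ++ W → ∀ b ∈ φ.code.zipIdx p, ∀ g ∈ gAt Z b, resG (asg x V) g = 0 := by
  induction φ with
  | lt s u =>
    intro p m W h hV b hb g hg
    have e0 := asgF_val x hV
    obtain ⟨hs, hu, hgp⟩ := Suf.args_tt h
    simp only [valsF, List.cons_append] at hV
    have hV1 : V.drop (p + 1) = valsT x s ++ valsT x u ++ W := by
      rw [← List.drop_drop, hV]; rfl
    have hV2 : V.drop (p + 1 + s.code.length) = valsT x u ++ W := by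
      rw [← length_valsT x s]; exact drop_split hV1
    have hV1' : V.drop (p + 1) = valsT x s ++ (valsT x u ++ W) := by
      rw [hV1, List.append_assoc]
    simp only [Form.code, List.zipIdx_cons, List.zipIdx_append, List.mem_cons,
      List.mem_append] at hb
    rcases hb with rfl | hb | hb
    · rw [hgp] at hg
      have e1 := asgT_val x hV1'
      have e2 := asgT_val x hV2
      simp only [gat, if_true, List.mem_cons, List.not_mem_nil, or_false] at hg
      rcases hg with rfl | rfl | rfl | rfl | rfl | rfl | rfl <;>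
      · simp only [resG, e0 0 (by norm_num), e0 1 (by norm_num), e0 2 (by norm_num),
          e0 3 (by norm_num), e0 4 (by norm_num), e0 5 (by norm_num), e0 6 (by norm_num),
          e0 7 (by norm_num), e0 8 (by norm_num), e1, e2, asg_zero, DD]
        norm_num
    · exact complete_term x s _ _ _ hs hV1' b hb g hg
    · exact complete_term x u _ _ _ hu hV2 b hb g hg
  | eq s u =>
    intro p m W h hV b hb g hg
    have e0 := asgF_val x hV
    obtain ⟨hs, hu, hgp⟩ := Suf.args_tt h
    simp only [valsF, List.cons_append] at hV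
    have hV1 : V.drop (p + 1) = valsT x s ++ valsT x u ++ W := by
      rw [← List.drop_drop, hV]; rfl
    have hV2 : V.drop (p + 1 + s.code.length) = valsT x u ++ W := by
      rw [← length_valsT x s]; exact drop_split hV1
    have hV1' : V.drop (p + 1) = valsT x s ++ (valsT x u ++ W) := by
      rw [hV1, List.append_assoc]
    simp only [Form.code, List.zipIdx_cons, List.zipIdx_append, List.mem_cons,
      List.mem_append] at hb
    rcases hb with rfl | hb | hb
    · rw [hgp] at hg
      have e1 := asgT_val x hV1'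
      have e2 := asgT_val x hV2
      simp only [gat, one_ne_zero, if_false, if_true, List.mem_cons, List.not_mem_nil,
        or_false] at hg
      rcases hg with rfl | rfl | rfl <;>
      · simp only [resG, e0 0 (by norm_num), e0 1 (by norm_num), e0 2 (by norm_num),
          e0 3 (by norm_num), e0 4 (by norm_num), e0 5 (by norm_num), e1, e2, asg_zero, DD]
        norm_num
    · exact complete_term x s _ _ _ hs hV1' b hb g hg
    · exact complete_term x u _ _ _ hu hV2 b hb g hg
  | not φ ih =>
    intro p m W h hV b hb g hg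
    have e0 := asgF_val x hV
    obtain ⟨hs, d, hgp⟩ := Suf.args_f h
    simp only [valsF, List.cons_append] at hV
    have hV1 : V.drop (p + 1) = valsF x φ ++ W := by
      rw [← List.drop_drop, hV]; rfl
    simp only [Form.code, List.zipIdx_cons, List.mem_cons] at hb
    rcases hb with rfl | hb
    · rw [hgp] at hg
      have e1 := asgF_val x hV1
      simp only [gat, OfNat.ofNat_ne_zero, OfNat.ofNat_ne_one, if_false, if_true, List.mem_cons,
        List.not_mem_nil, or_false] at hg
      rcases hg with rfl | rfl <;>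
      · simp only [resG, e0 0 (by norm_num), e0 1 (by norm_num), e1 0 (by norm_num),
          e1 1 (by norm_num), asg_zero, DD]
        norm_num
    · exact ih _ _ _ hs hV1 b hb g hg
  | and φ ψ ih1 ih2 =>
    intro p m W h hV b hb g hg
    have e0 := asgF_val x hV
    obtain ⟨hs, hu, hgp⟩ := Suf.args_ff h
    simp only [valsF, List.cons_append] at hV
    have hV1 : V.drop (p + 1) = valsF x φ ++ valsF x ψ ++ W := by
      rw [← List.drop_drop, hV]; rfl
    have hV2 : V.drop (p + 1 + φ.code.length) = valsF x ψ ++ W := by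
      rw [← length_valsF x φ]; exact drop_split hV1
    have hV1' : V.drop (p + 1) = valsF x φ ++ (valsF x ψ ++ W) := by
      rw [hV1, List.append_assoc]
    simp only [Form.code, List.zipIdx_cons, List.zipIdx_append, List.mem_cons,
      List.mem_append] at hb
    rcases hb with rfl | hb | hb
    · rw [hgp] at hg
      have e1 := asgF_val x hV1'
      have e2 := asgF_val x hV2
      norm_num [gat] at hg
      rcases hg with rfl | rfl | rfl | rfl <;>
      · simp only [resG, e0 0 (by norm_num), e0 1 (by norm_num), e0 2 (by norm_num),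
          e0 3 (by norm_num), e1 0 (by norm_num), e1 1 (by norm_num), e2 0 (by norm_num),
          e2 1 (by norm_num), asg_zero, DD]
        norm_num
    · exact ih1 _ _ _ hs hV1' b hb g hg
    · exact ih2 _ _ _ hu hV2 b hb g hg
  | or φ ψ ih1 ih2 =>
    intro p m W h hV b hb g hg
    have e0 := asgF_val x hV
    obtain ⟨hs, hu, hgp⟩ := Suf.args_ff h
    simp only [valsF, List.cons_append] at hV
    have hV1 : V.drop (p + 1) = valsF x φ ++ valsF x ψ ++ W := by
      rw [← List.drop_drop, hV]; rfl
    have hV2 : V.drop (p + 1 + φ.code.length) = valsF x ψ ++ W := by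
      rw [← length_valsF x φ]; exact drop_split hV1
    have hV1' : V.drop (p + 1) = valsF x φ ++ (valsF x ψ ++ W) := by
      rw [hV1, List.append_assoc]
    simp only [Form.code, List.zipIdx_cons, List.zipIdx_append, List.mem_cons,
      List.mem_append] at hb
    rcases hb with rfl | hb | hb
    · rw [hgp] at hg
      have e1 := asgF_val x hV1'
      have e2 := asgF_val x hV2
      norm_num [gat] at hg
      rcases hg with rfl | rfl | rfl | rfl <;>
      · simp only [resG, e0 0 (by norm_num), e0 1 (by norm_num), e0 2 (by norm_num),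
          e0 3 (by norm_num), e1 0 (by norm_num), e1 1 (by norm_num), e2 0 (by norm_num),
          e2 1 (by norm_num), asg_zero, DD]
        norm_num
    · exact ih1 _ _ _ hs hV1' b hb g hg
    · exact ih2 _ _ _ hu hV2 b hb g hg

end Complete

/-! ## Renumbering -/

/-- The list of the variables of the gates. -/
def idsOf (G : List Gate) : List ℕ := G.flatMap fun g => [g.2.1, g.2.2.1, g.2.2.2]

/-- The new number of the variable `i`. -/
def ren (I : List ℕ) (i : ℕ) : ℕ := if i = 0 then 0 else I.idxOf i + 1

def renG (G : List Gate) : List Gate :=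
  G.map fun g => (g.1, ren (idsOf G) g.2.1, ren (idsOf G) g.2.2.1, ren (idsOf G) g.2.2.2)

lemma length_idsOf (G : List Gate) : (idsOf G).length = 3 * G.length := by
  unfold idsOf
  induction G with
  | nil => rfl
  | cons g G ih => simp [ih]; omega

lemma mem_idsOf {G : List Gate} {g : Gate} (hg : g ∈ G) :
    g.2.1 ∈ idsOf G ∧ g.2.2.1 ∈ idsOf G ∧ g.2.2.2 ∈ idsOf G := by
  unfold idsOf
  refine ⟨?_, ?_, ?_⟩ <;> rw [List.mem_flatMap] <;> exact ⟨g, hg, by simp⟩

lemma ren_le {I : List ℕ} {i : ℕ} (hi : i ∈ I) : ren I i ≤ I.length := by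
  unfold ren
  split_ifs
  · omega
  · have := List.idxOf_lt_length_iff.mpr hi
    omega

lemma renG_valid (G : List Gate) : GValid (3 * (renG G).length) (renG G) := by
  intro g hg
  unfold renG at hg
  obtain ⟨g', hg', rfl⟩ := List.mem_map.mp hg
  obtain ⟨h1, h2, h3⟩ := mem_idsOf hg'
  have e : 3 * (renG G).length = (idsOf G).length := by
    rw [length_idsOf]; simp [renG]
  rw [e]
  exact ⟨ren_le h1, ren_le h2, ren_le h3⟩

lemma gateSat_renG (G : List Gate) : GateSat (renG G) ↔ GateSat G := by
  constructor
  · rintro ⟨y, h0, hy⟩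
    refine ⟨fun i => y (ren (idsOf G) i), by simpa [ren] using h0, fun g hg => ?_⟩
    exact hy _ (List.mem_map_of_mem hg)
  · rintro ⟨y, h0, hy⟩
    obtain ⟨Y, hY0, key⟩ : ∃ Y : ℕ → ℝ, Y 0 = 1 ∧ ∀ i ∈ idsOf G, Y (ren (idsOf G) i) = y i := by
      refine ⟨fun i => if i = 0 then 1 else y ((idsOf G).getD (i - 1) 0), by simp,
        fun i hi => ?_⟩
      unfold ren
      by_cases h : i = 0
      · simp [h, h0]
      · simp only [h, if_false, Nat.add_eq_zero_iff, one_ne_zero, and_false,
          Nat.add_sub_cancel]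
        have h2 := List.idxOf_lt_length_iff.mpr hi
        rw [List.getD_eq_getElem?_getD, List.getElem?_eq_getElem h2, Option.getD_some]
        congr 1
        exact List.getElem_idxOf h2
    refine ⟨Y, hY0, fun g hg => ?_⟩
    unfold renG at hg
    obtain ⟨g', hg', rfl⟩ := List.mem_map.mp hg
    obtain ⟨h1, h2, h3⟩ := mem_idsOf hg'
    have h := hy g' hg'
    unfold resG at h ⊢
    simp only [key _ h1, key _ h2, key _ h3]
    exact h

/-! ## Polynomial time -/

section PolyT

open FP

@[fun_prop]
theorem poly_ar : Poly ar := by unfold ar; fun_prop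

@[fun_prop]
theorem poly_srt : Poly srt := by unfold srt; fun_prop

theorem poly_stepS : Poly (fun p : (ℕ × ℕ) × (Bool × List (Bool × ℕ)) => stepS p.1 p.2) := by
  unfold stepS
  refine Poly.ite (PolyPred.and (PolyPred.eq ?_ ?_) (PolyPred.eq ?_ ?_)) ?_ ?_
  all_goals fun_prop

theorem size_drop_le {α : Type} [Code α] (l : List α) (k : ℕ) : size (l.drop k) ≤ size l := by
  have h := size_append (l.take k) (l.drop k)
  rw [List.take_append_drop] at h
  omega

@[fun_prop]
theorem poly_run : Poly run := by
  unfold run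
  refine Poly.foldr_add (h := fun _ b s => stepS b s) (by fun_prop) (by fun_prop)
    (poly_stepS.comp (f := fun p : List (ℕ × ℕ) × (ℕ × ℕ) × (Bool × List (Bool × ℕ)) => p.2)
      (by fun_prop)) (Polynomial.C 10 * Polynomial.X + Polynomial.C 20) ?_
  intro a s b hb
  have h1 := size_le_of_mem hb
  have h2 : size b.2 ≤ size b := by
    obtain ⟨b1, b2⟩ := b
    change size b2 ≤ _
    rw [size_pair]; omega
  simp only [Polynomial.eval_add, Polynomial.eval_mul, Polynomial.eval_C, Polynomial.eval_X]
  obtain ⟨s1, s2⟩ := s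
  unfold stepS
  split_ifs
  · have h3 := size_drop_le s2 (ar b.1).length
    simp only [size_pair, size_cons, size_bool] at *
    omega
  · simp only [size_pair, size_bool, size_nil]
    omega

@[fun_prop]
theorem poly_fr (α : Type) [Code α] (f g : α → ℕ) (hf : Poly f) (hg : Poly g) : Poly (fun a => fr (f a) (g a)) := by
  unfold fr; fun_prop

theorem poly_gat : Poly (fun p : ℕ × ℕ × ℕ × ℕ => gat p.1 p.2.1 p.2.2.1 p.2.2.2) := by
  unfold gat
  fun_prop

theorem poly_gAt : Poly (fun p : List (ℕ × ℕ) × (ℕ × ℕ) => gAt p.1 p.2) := by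
  unfold gAt
  exact poly_gat.comp (f := fun p : List (ℕ × ℕ) × (ℕ × ℕ) =>
    (p.2.1, p.2.2, ((run (p.1.drop (p.2.2 + 1))).2.getD 0 (true, 0)).2,
    ((run (p.1.drop (p.2.2 + 1))).2.getD 1 (true, 0)).2)) (by fun_prop)

@[fun_prop]
theorem poly_allG : Poly allG := by
  unfold allG
  have := poly_gAt
  have h2 : Poly (fun Z : List (ℕ × ℕ) => Z.flatMap (gAt Z)) := Poly.flatMap (by fun_prop) poly_gAt
  fun_prop

@[fun_prop]
theorem poly_idsOf : Poly idsOf := by
  unfold idsOf
  fun_prop

theorem poly_ren : Poly (fun p : List ℕ × ℕ => ren p.1 p.2) := by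
  unfold ren
  fun_prop

@[fun_prop]
theorem poly_ren' (α : Type) [Code α] (f : α → List ℕ) (g : α → ℕ) (hf : Poly f) (hg : Poly g) :
    Poly (fun a => ren (f a) (g a)) := poly_ren.comp (f := fun a => (f a, g a)) (by fun_prop)

@[fun_prop]
theorem poly_renG : Poly renG := by
  unfold renG
  fun_prop

end PolyT

end Tsei

open Tsei

/-- The system of gates of the formula with the code `l`. -/
def gatesOf (l : List ℕ) : Option (List Gate) :=
  if run l.zipIdx = (true, [(false, 0)]) then some (renG (allG l.zipIdx)) else none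

theorem gatesOf_valid {l : List ℕ} {G : List Gate} (h : gatesOf l = some G) :
    GValid (3 * G.length) G := by
  unfold gatesOf at h
  split_ifs at h
  rw [Option.some.injEq] at h
  rw [← h]
  exact renG_valid _

theorem gatesOf_iff (l : List ℕ) :
    (∃ φ : Form, φ.code = l ∧ ∃ x, φ.holds x) ↔ ∃ G, gatesOf l = some G ∧ GateSat G := by
  constructor
  · rintro ⟨φ, rfl, x, hx⟩
    have h1 := run_form φ 0 [] rfl
    rw [List.append_nil] at h1
    refine ⟨renG (allG φ.code.zipIdx), ?_, ?_⟩
    · unfold gatesOf
      rw [if_pos]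
      rw [h1]; rfl
    · rw [gateSat_renG]
      refine ⟨asg x (valsF x φ), asg_zero x _, fun g hg => ?_⟩
      have hV : (valsF x φ).drop 0 = valsF x φ ++ [] := by simp
      have hS : Suf φ.code.zipIdx 0 φ.code [] := ⟨by simp, rfl⟩
      unfold allG at hg
      rcases List.mem_cons.mp hg with rfl | hg
      · have e := asgF_val x hV 0 (by norm_num)
        have e2 := (DD_holds x φ).1 hx
        simp only [resG, e, e2]
        norm_num
      · obtain ⟨b, hb, hg⟩ := List.mem_flatMap.mp hg
        exact complete_form x φ 0 [] [] hS hV b hb g hg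
  · rintro ⟨G, hG, hs⟩
    unfold gatesOf at hG
    split_ifs at hG with hrun
    rw [Option.some.injEq] at hG
    rw [← hG, gateSat_renG] at hs
    obtain ⟨y, h0, hy⟩ := hs
    obtain ⟨F, hF1, hF2⟩ := parse l 0 (by rw [hrun])
    rw [hrun] at hF2
    obtain ⟨φ, rfl⟩ : ∃ φ, F = [.inr φ] := by
      match F, hF2 with
      | [.inr φ], _ => exact ⟨φ, rfl⟩
      | [.inl s], h => simp [sortTF] at h
      | [], h => simp at h
      | _ :: _ :: _, h => simp at h
    have hl : l = φ.code := by simpa [codeTF] using hF1
    subst hl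
    have hS : Suf φ.code.zipIdx 0 φ.code [] := ⟨by simp, rfl⟩
    have h1 := sound_form (Z := φ.code.zipIdx) (y := y) h0 (fun b hb g hg => hy g (by
      unfold allG
      exact List.mem_cons_of_mem _ (List.mem_flatMap.mpr ⟨b, hb, hg⟩))) φ 0 [] hS
    have h2 := hy (false, fr 0 0, fr 0 0, fr 0 0) (by unfold allG; exact List.mem_cons_self)
    refine ⟨φ, rfl, _, h1.1 ?_⟩
    simp only [resG] at h2
    norm_num at h2
    linarith

open FP in
theorem poly_gatesOf : Poly gatesOf := by
  unfold gatesOf
  refine Poly.ite (PolyPred.eq ?_ ?_) ?_ ?_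
  all_goals fun_prop

end Pool.Agent.CRt
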