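import Pool.Agent.CRt.Gap
import Pool.Agent.CRt.Slp
import Pool.Agent.CRt.Conf
import Pool.Agent.CRt.PchPl
import Pool.Agent.CRt.ChordPch
import Pool.Agent.CRt.Sound
import Pool.Agent.CRt.Graph
import Pool.Agent.CRt.Tseitin
import Pool.Agent.CRt.Draw
import Pool.Agent.CRt.GraphPoly

/-!
# The reduction from `ETR` to `CR 2`
-/

set_option autoImplicit false
set_option maxHeartbeats 4000000

namespace Pool.Agent.CRt

open FP

/-! ### Correctness -/

/-- The number of the curves and the triples of a system of gates. -/
def numOf (G : List Gate) : ℕ := 8 * (slpN (slpOf G).1 + 1)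

def tripOf (G : List Gate) : List STriple :=
  copyTriples (slpN (slpOf G).1) (slpCons (slpOf G).1 (slpOf G).2)

/-- The instance of the crossing number problem. -/
def instOf (G : List Gate) : List Unit × List (ℕ × ℕ) × ℕ :=
  (List.replicate (gVerts (numOf G) (tripOf G)).length (),
    numEdges (gVerts (numOf G) (tripOf G)) (gEdges (numOf G) (tripOf G)),
    kk (numOf G) (tripOf G))

theorem instOf_iff {G : List Gate} (hG : GValid (3 * G.length) G) :
    enc (instOf G) ∈ CR 2 ↔ GateSat G := by
  have hP := slp_of_valid hG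
  obtain ⟨o1, o2⟩ := slpOf_out G
  have hT := slp_valid hP o1 o2
  have hS := copy_valid hT
  have h1 : enc (instOf G) ∈ CR 2 ↔
      ∃ D : LDraw (gEdges (numOf G) (tripOf G)), D.crossings.encard ≤ kk (numOf G) (tripOf G) :=
    cr_iff hS
  rw [h1, gap hG]
  constructor
  · rintro ⟨D, hD⟩
    exact slpOf_sound hG (slp_sound hP o1 o2 (chord_pch hT (draw_chord hS D hD)))
  · intro h
    exact pl_draw (by unfold numOf; omega) hS
      (pch_pl hT (slp_complete hP o1 o2 (slpOf_complete hG h)))

/-- The reduction. -/
def redCR (w : List Bool) : List Bool :=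
  if enc (dec w : List ℕ) = w then
    match gatesOf (dec w : List ℕ) with
    | some G => enc (instOf G)
    | none => []
  else []

theorem nil_not_mem_CR : [] ∉ CR 2 := by
  rintro ⟨n, E, k, h, -⟩
  rw [enc_prod] at h
  have := congrArg List.length h
  simp [prS, delim] at this

theorem redCR_iff (w : List Bool) : w ∈ ETR ↔ redCR w ∈ CR 2 := by
  constructor
  · rintro ⟨φ, rfl, x, hx⟩
    obtain ⟨G, hG, hs⟩ := (gatesOf_iff φ.code).1 ⟨φ, rfl, x, hx⟩
    unfold redCR
    rw [dec_enc, if_pos rfl, hG]
    exact (instOf_iff (gatesOf_valid hG)).2 hs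
  · intro h
    unfold redCR at h
    split_ifs at h with hw
    · rcases hg : gatesOf (dec w : List ℕ) with _ | G
      · rw [hg] at h
        exact absurd h nil_not_mem_CR
      · rw [hg] at h
        have hs := (instOf_iff (gatesOf_valid hg)).1 h
        obtain ⟨φ, e, hφ⟩ := (gatesOf_iff (dec w : List ℕ)).2 ⟨G, hg, hs⟩
        exact ⟨φ, by rw [e, hw], hφ⟩
    · exact absurd h nil_not_mem_CR

/-! ### Polynomial time -/

theorem poly_slpLen : Poly (fun G : List Gate => (slpOf G).1) := Poly.fst poly_slpOf

theorem bdd_slpN : PolyBdd (fun G : List Gate => slpN (slpOf G).1) := by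
  refine PolyBdd.mono (g := fun G => 104 * (slpOf G).1.length + 64) ?_ (fun G => ?_)
  · exact PolyBdd.add (PolyBdd.mul (PolyBdd.const 104) (PolyBdd.length poly_slpLen))
      (PolyBdd.const 64)
  · unfold slpN bas
    omega

theorem poly_unN : Poly (fun G : List Gate => List.replicate (slpN (slpOf G).1) ()) :=
  Poly.replicate (poly_slpN.comp poly_slpLen) bdd_slpN (FP.Poly.const ())

theorem poly_unNum : Poly (fun G : List Gate => List.replicate (numOf G) ()) := by
  refine Poly.replicate ?_ ?_ (FP.Poly.const ())
  · have h : Poly (fun G : List Gate => slpN (slpOf G).1) := poly_slpN.comp poly_slpLen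
    exact FP.Poly.mul (FP.Poly.const 8) (FP.Poly.add h (FP.Poly.const 1))
  · exact PolyBdd.mul (PolyBdd.const 8) (PolyBdd.add bdd_slpN (PolyBdd.const 1))

theorem poly_tripOf : Poly tripOf := by
  have h1 : Poly (fun G : List Gate => slpCons (slpOf G).1 (slpOf G).2) :=
    poly_slpCons.comp poly_slpOf
  refine (poly_copyTriples.comp (Poly.pair poly_unN h1)).congr fun G => ?_
  unfold tripOf
  rw [List.length_replicate]

theorem poly_instOf : Poly instOf := by
  refine (poly_graph.comp (Poly.pair poly_unNum poly_tripOf)).congr fun G => ?_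
  unfold instOf
  simp only [List.length_replicate]

theorem poly_redCR : Poly redCR := by
  have h1 : Poly (fun w : List Bool => (dec w : List ℕ)) := Poly.decode Poly.ident
  unfold redCR
  refine Poly.ite (PolyPred.eq (Poly.encode h1) Poly.ident) ?_ (FP.Poly.const [])
  have h2 := Poly.optionCases (f := fun w : List Bool => gatesOf (dec w : List ℕ))
    (g := fun _ => ([] : List Bool)) (h := fun _ G => enc (instOf G)) (poly_gatesOf.comp h1)
    (FP.Poly.const []) (Poly.encode (poly_instOf.comp Poly.snd'))
  refine h2.congr fun w => ?_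
  rcases gatesOf (dec w : List ℕ) with _ | G <;> rfl

/-- `ETR` is polynomial-time many-one reducible to `CR 2`. -/
theorem etr_le_cr : NPC.Reduces ETR (CR 2) := reduces redCR poly_redCR redCR_iff

/-- `CR 2` is `∃ℝ`-hard. -/
theorem cr_hard {L : Set (List Bool)} (hL : L ∈ ExistsR) : NPC.Reduces L (CR 2) := by
  obtain ⟨f, hf, h⟩ := hL
  refine reduces (fun w => redCR (f w)) (poly_redCR.comp (poly_of_polyTime_str hf)) fun w => ?_
  rw [h, redCR_iff]

end Pool.Agent.CRt
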