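import Pool.Agent.CRt.Defs

/-!
# Intermediate problems of the reduction from `ETR` to `CR 2`
-/

set_option autoImplicit false

namespace Pool.Agent.CRt

/-! ## Partial chirotopes with a pencil point -/

abbrev V3 := ℝ × ℝ × ℝ

/-- The determinant of three vectors. -/
def D3 (u v w : V3) : ℝ :=
  u.1 * (v.2.1 * w.2.2 - v.2.2 * w.2.1) - u.2.1 * (v.1 * w.2.2 - v.2.2 * w.1) +
    u.2.2 * (v.1 * w.2.1 - v.2.1 * w.1)

/-- The triples are triples of distinct elements of `{1, …, n}`. -/
def TValid (n : ℕ) (T : List (ℕ × ℕ × ℕ)) : Prop :=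
  ∀ c ∈ T, 0 < c.1 ∧ 0 < c.2.1 ∧ 0 < c.2.2 ∧ c.1 ≤ n ∧ c.2.1 ≤ n ∧ c.2.2 ≤ n ∧
    c.1 ≠ c.2.1 ∧ c.1 ≠ c.2.2 ∧ c.2.1 ≠ c.2.2

/-- Vectors `v 0, …, v n` such that `v 1, …, v n` are sorted around `v 0`, and such that the
triples in `T` are positively oriented. -/
def PCH (n : ℕ) (T : List (ℕ × ℕ × ℕ)) : Prop :=
  ∃ v : ℕ → V3, (∀ j k, 0 < j → j < k → k ≤ n → 0 < D3 (v 0) (v j) (v k)) ∧
    ∀ c ∈ T, 0 < D3 (v c.1) (v c.2.1) (v c.2.2)

/-! ## Signed sorted triples and copies of the lines -/

/-- `(e, f, g, σ)` with `e < f < g`. -/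
abbrev STriple := ℕ × ℕ × ℕ × Bool

/-- Sorting a triple; the sign is the sign of the permutation. -/
def sortT (c : ℕ × ℕ × ℕ) : STriple :=
  let i := c.1
  let j := c.2.1
  let k := c.2.2
  if i < j then
    if j < k then (i, j, k, true)
    else if i < k then (i, k, j, false)
    else (k, i, j, true)
  else
    if i < k then (j, i, k, false)
    else if j < k then (j, k, i, true)
    else (k, j, i, false)

/-- The pattern of the eight copies of a line (the non-Pappus arrangement). -/
def pat : List STriple :=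
  [(0, 1, 2, true), (0, 1, 3, true), (0, 1, 4, true), (0, 1, 5, true), (0, 1, 6, true),
   (0, 1, 7, true), (0, 3, 4, true), (0, 2, 7, false), (0, 5, 6, true), (1, 2, 5, true),
   (1, 3, 6, false), (1, 4, 7, true), (0, 2, 3, false), (0, 4, 5, true), (0, 6, 7, false)]

/-- all triples of copy indices -/
def allC : List (ℕ × ℕ × ℕ) :=
  (List.range 8).flatMap fun a => (List.range 8).flatMap fun b => (List.range 8).map fun c =>
    (a, b, c)

/-- The signed sorted triples of the `8 (n + 1)` copies of the lines `0, …, n`; the copy `a` of the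
line `i` has index `8 * i + a`. -/
def copyTriples (n : ℕ) (T : List (ℕ × ℕ × ℕ)) : List STriple :=
  ((List.range (n + 1)).flatMap fun k => (List.range k).flatMap fun j =>
    if 0 < j then allC.map fun a => (a.1, 8 * j + a.2.1, 8 * k + a.2.2, true) else []) ++
  (T.flatMap fun c => allC.map fun a =>
    ((8 * (sortT c).1 + a.1, 8 * (sortT c).2.1 + a.2.1, 8 * (sortT c).2.2.1 + a.2.2,
      (sortT c).2.2.2) : STriple)) ++
  ((List.range (n + 1)).flatMap fun i => pat.map fun p =>
    ((8 * i + p.1, 8 * i + p.2.1, 8 * i + p.2.2.1, p.2.2.2) : STriple)) ++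
  ((List.range (n + 1)).flatMap fun j => (List.range j).flatMap fun i => allC.flatMap fun a =>
    if a.1 < a.2.1 then
      [((8 * i + a.1, 8 * i + a.2.1, 8 * j + a.2.2, false) : STriple),
        ((8 * i + a.2.2, 8 * j + a.1, 8 * j + a.2.1, true) : STriple)]
    else [])

/-- The triples are sorted triples of elements of `{0, …, N - 1}`. -/
def SValid (N : ℕ) (T : List STriple) : Prop :=
  ∀ c ∈ T, c.1 < c.2.1 ∧ c.2.1 < c.2.2.1 ∧ c.2.2.1 < N

/-! ## Piecewise linear functions with one kink -/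

/-- The piecewise linear function with value `α` at `0` and slopes `m` and `m'` on the left and on
the right of `0`. -/
def pl (α m m' x : ℝ) : ℝ := α + m * min x 0 + m' * max x 0

/-- Realizability of the signed triples by graphs of piecewise linear functions with one kink:
`(e, f, g, true)` means that `f` is above the crossing of `e` and `g`. -/
def PLReal (N : ℕ) (T : List STriple) : Prop :=
  ∃ α m m' : ℕ → ℝ, (∀ e f, e < f → f < N → m e < m f ∧ m' e < m' f) ∧
    ∀ c ∈ T, ∃ x : ℝ, pl (α c.1) (m c.1) (m' c.1) x = pl (α c.2.2.1) (m c.2.2.1) (m' c.2.2.1) x ∧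
      if c.2.2.2 then pl (α c.1) (m c.1) (m' c.1) x < pl (α c.2.1) (m c.2.1) (m' c.2.1) x
      else pl (α c.2.1) (m c.2.1) (m' c.2.1) x < pl (α c.1) (m c.1) (m' c.1) x

/-! ## Families of one-bend paths -/

/-- The point of the path with break points `P 0, P 1, P 2` with parameter `t ∈ [0, 2]`. -/
noncomputable def chordPt (P : Fin 3 → Plane) (t : ℝ) : Plane :=
  if t ≤ 1 then P 0 + t • (P 1 - P 0) else P 1 + (t - 1) • (P 2 - P 1)

/-- Realizability of the signed triples by paths with two segments: any two of the paths have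
exactly one common point, with parameters `τ e f` on `e` and `τ f e` on `f`, and the order of the
three crossings on the three paths is given by the sign. -/
def ChordReal (N : ℕ) (T : List STriple) : Prop :=
  ∃ (P : ℕ → Fin 3 → Plane) (τ : ℕ → ℕ → ℝ),
    (∀ e f, e < N → f < N → e ≠ f → 0 < τ e f ∧ τ e f < 2 ∧
      chordPt (P e) (τ e f) = chordPt (P f) (τ f e) ∧
      ∀ s t, 0 ≤ s → s ≤ 2 → 0 ≤ t → t ≤ 2 → chordPt (P e) s = chordPt (P f) t →
        s = τ e f ∧ t = τ f e) ∧
    ∀ c ∈ T, if c.2.2.2 then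
        τ c.1 c.2.1 < τ c.1 c.2.2.1 ∧ τ c.2.1 c.1 < τ c.2.1 c.2.2.1 ∧ τ c.2.2.1 c.1 < τ c.2.2.1 c.2.1
      else
        τ c.1 c.2.2.1 < τ c.1 c.2.1 ∧ τ c.2.1 c.2.2.1 < τ c.2.1 c.1 ∧ τ c.2.2.1 c.2.1 < τ c.2.2.1 c.1

/-! ## The graph -/

/-- Names of the vertices. -/
abbrev Vx := ℕ × ℕ × ℕ

/-- The curves: `(line, star, role, offset)`; star `0` means the edge representing the line itself
(a chord), star `t + 1` is the star of the `t`-th triple. -/
abbrev Cv := ℕ × ℕ × ℕ × ℕ

def chordC (e : ℕ) : Cv := (e, 0, 0, 1)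

/-- The three curves of the star `t`. -/
def starC (t : ℕ) (c : STriple) : List Cv :=
  [(c.1, t + 1, 0, if c.2.2.2 then 0 else 2), (c.2.1, t + 1, 1, if c.2.2.2 then 2 else 0),
    (c.2.2.1, t + 1, 2, if c.2.2.2 then 0 else 2)]

def dflt : STriple := (0, 0, 0, true)

def starCurves (T : List STriple) : List Cv :=
  (List.range T.length).flatMap fun t => starC t (T.getD t dflt)

def curves (N : ℕ) (T : List STriple) : List Cv :=
  (List.range N).map chordC ++ starCurves T

/-- The pair of curves crosses in every drawing. -/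
def Forced (c c' : Cv) : Prop := c.1 < c'.1 ∧ (c.2.1 = 0 ∨ c.2.1 ≠ c'.2.1)

instance : DecidableRel Forced := fun c c' => by unfold Forced; infer_instance

def forcedPairs (N : ℕ) (T : List STriple) : List (Cv × Cv) :=
  (curves N T).flatMap fun c => ((curves N T).filter fun c' => decide (Forced c c')).map
    fun c' => (c, c')

/-- The number of crossings. -/
def kk (N : ℕ) (T : List STriple) : ℕ := (forcedPairs N T).length

def lv (p : ℕ) : Vx := (0, p, 0)
def rv (p : ℕ) : Vx := (1, p, 0)
def hub (s : ℕ) : Vx := (2, s, 0)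
def star (t : ℕ) : Vx := (3, t, 0)

/-- Left and right end of a curve. -/
def lend (c : Cv) : Vx := lv (3 * c.1 + c.2.2.2 + 1)
def rend (N : ℕ) (c : Cv) : Vx := rv (3 * (N - 1 - c.1) + c.2.2.2 + 1)

/-- The edge(s) of a curve. -/
def curveEdges (N : ℕ) (c : Cv) : List (Vx × Vx) :=
  if c.2.1 = 0 then [(lend c, rend N c)]
  else [(lend c, star (c.2.1 - 1)), (star (c.2.1 - 1), rend N c)]

/-- The connections of the skeleton: `(kind, index, end, end)`; every connection is replaced by
many paths of length two. The columns have the vertices `0, …, 3 N + 1`. -/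
def conns (N : ℕ) : List (ℕ × ℕ × Vx × Vx) :=
  ((List.range (3 * N + 1)).map fun p => (4, p, lv p, lv (p + 1))) ++
  ((List.range (3 * N + 1)).map fun p => (5, p, rv p, rv (p + 1))) ++
  ((List.range (3 * N + 2)).map fun p => (6, p, hub 0, lv p)) ++
  ((List.range (3 * N + 2)).map fun p => (7, p, hub 1, rv p)) ++
  [(8, 0, lv 0, rv 0), (9, 0, lv (3 * N + 1), rv (3 * N + 1)), (10, 0, hub 0, hub 1)]

/-- The two edges of the `i`-th path of a connection. -/
def connEdges (q : ℕ × ℕ × Vx × Vx) (i : ℕ) : List (Vx × Vx) :=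
  [(q.2.2.1, (q.1, q.2.1, i)), ((q.1, q.2.1, i), q.2.2.2)]

/-- The number of the paths of a connection. -/
def KK (N : ℕ) (T : List STriple) : ℕ := 2 * kk N T + 1

/-- The list of all edges. -/
def gEdges (N : ℕ) (T : List STriple) : List (Vx × Vx) :=
  (curves N T).flatMap (curveEdges N) ++
    (conns N).flatMap fun q => (List.range (KK N T)).flatMap fun i => connEdges q i

/-- The list of all vertices. -/
def gVerts (N : ℕ) (T : List STriple) : List Vx :=
  ((List.range (3 * N + 2)).map lv) ++ ((List.range (3 * N + 2)).map rv) ++ [hub 0, hub 1] ++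
    ((List.range T.length).map star) ++
    (conns N).flatMap fun q => (List.range (KK N T)).map fun i => (q.1, q.2.1, i)

/-- The graph on `{0, …, |V| - 1}`. -/
def numEdges (Vs : List Vx) (Es : List (Vx × Vx)) : List (ℕ × ℕ) :=
  Es.map fun d => (Vs.idxOf d.1, Vs.idxOf d.2)

/-! ## Drawings of lists of edges -/

/-- The path of the edge `d`. -/
def dpath (pos : Vx → Plane) (bend : Vx × Vx → Plane) (d : Vx × Vx) : Fin 3 → Plane :=
  ![pos d.1, bend d, pos d.2]

/-- `z` is the point of a common endpoint of the edges `d` and `d'`. -/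
def CommonEnd (pos : Vx → Plane) (d d' : Vx × Vx) (z : Plane) : Prop :=
  ∃ v, (v = d.1 ∨ v = d.2) ∧ (v = d'.1 ∨ v = d'.2) ∧ z = pos v

/-- Drawings with one bend per edge of the graph with the list of edges `Es`. -/
structure LDraw (Es : List (Vx × Vx)) where
  pos : Vx → Plane
  bend : Vx × Vx → Plane
  arcs : ∀ d ∈ Es, IsPolyPath (dpath pos bend d)
  inter : ∀ d ∈ Es, ∀ d' ∈ Es, d ≠ d' →
    ∀ z ∈ pathSet (dpath pos bend d) ∩ pathSet (dpath pos bend d'),
      CommonEnd pos d d' z ∨ ProperAt (dpath pos bend d) (dpath pos bend d') z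

/-- The crossings of a drawing. -/
def LDraw.crossings {Es : List (Vx × Vx)} (D : LDraw Es) : Set (Sym2 (Vx × Vx) × Plane) :=
  {c | ∃ d ∈ Es, ∃ d' ∈ Es, d ≠ d' ∧ c.1 = s(d, d') ∧
    c.2 ∈ pathSet (dpath D.pos D.bend d) ∩ pathSet (dpath D.pos D.bend d') ∧
    ¬ CommonEnd D.pos d d' c.2}

end Pool.Agent.CRt
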