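import Pool.Agent.CRt.MemGeo

/-!
# Drawings with one bend per edge as configurations of points
-/

set_option autoImplicit false

namespace Pool.Agent.CRt.Mem

open Set

/-! ### Paths with one bend -/

/-- choice of an end -/
def sel {α : Type*} (i : Bool) (a c : α) : α := bif i then c else a

/-- `P` is the path with ends `a`, `c` (in some order) and bend `b` -/
def PathOK (P : Fin 3 → Plane) (a b c : Plane) : Prop :=
  P 1 = b ∧ ((P 0 = a ∧ P 2 = c) ∨ (P 0 = c ∧ P 2 = a))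

variable {P Q : Fin 3 → Plane} {a b c a' b' c' z : Plane}

theorem seg_cases (hP : PathOK P a b c) (i : Fin 2) : ∃ i' : Bool,
    (P i.castSucc = sel i' a c ∧ P i.succ = b) ∨ (P i.castSucc = b ∧ P i.succ = sel i' a c) := by
  obtain ⟨h1, ⟨h2, h3⟩ | ⟨h2, h3⟩⟩ := hP
  · fin_cases i
    · exact ⟨false, Or.inl ⟨h2, h1⟩⟩
    · exact ⟨true, Or.inr ⟨h1, h3⟩⟩
  · fin_cases i
    · exact ⟨true, Or.inl ⟨h2, h1⟩⟩
    · exact ⟨false, Or.inr ⟨h1, h3⟩⟩

theorem seg_cases' (hP : PathOK P a b c) (i' : Bool) : ∃ i : Fin 2,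
    (P i.castSucc = sel i' a c ∧ P i.succ = b) ∨ (P i.castSucc = b ∧ P i.succ = sel i' a c) := by
  obtain ⟨h1, ⟨h2, h3⟩ | ⟨h2, h3⟩⟩ := hP
  · cases i'
    · exact ⟨0, Or.inl ⟨h2, h1⟩⟩
    · exact ⟨1, Or.inr ⟨h1, h3⟩⟩
  · cases i'
    · exact ⟨1, Or.inr ⟨h1, h3⟩⟩
    · exact ⟨0, Or.inl ⟨h2, h1⟩⟩

theorem pathSet_eq (hP : PathOK P a b c) : pathSet P = segment ℝ a b ∪ segment ℝ c b := by
  have h0 : pathSet P = segment ℝ (P 0) (P 1) ∪ segment ℝ (P 1) (P 2) := by
    ext z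
    simp only [pathSet, mem_iUnion, mem_union]
    constructor
    · rintro ⟨i, hi⟩
      fin_cases i
      · exact Or.inl hi
      · exact Or.inr hi
    · rintro (h | h)
      · exact ⟨0, h⟩
      · exact ⟨1, h⟩
  rw [h0]
  obtain ⟨h1, ⟨h2, h3⟩ | ⟨h2, h3⟩⟩ := hP
  · rw [h1, h2, h3, segment_symm ℝ b c]
  · rw [h1, h2, h3, segment_symm ℝ b a, union_comm]

theorem mem_pathSet (hP : PathOK P a b c) : z ∈ pathSet P ↔
    ∃ i : Bool, z ∈ segment ℝ (sel i a c) b := by
  rw [pathSet_eq hP, Bool.exists_bool]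
  rfl

theorem isPolyPath_iff' : IsPolyPath P ↔ P 0 ≠ P 1 ∧ P 1 ≠ P 2 ∧
    ∀ z, z ∈ segment ℝ (P 0) (P 1) → z ∈ segment ℝ (P 1) (P 2) → z = P 1 := by
  constructor
  · intro h
    exact ⟨h.ne 0, h.ne 1, fun z h1 h2 => (h.simple 0 1 (by decide) z ⟨h1, h2⟩).2⟩
  · rintro ⟨h1, h2, h3⟩
    refine ⟨?_, ?_⟩
    · intro i
      fin_cases i
      · exact h1
      · exact h2
    · intro i j hij z hz
      fin_cases i <;> fin_cases j
      · exact absurd hij (by decide)
      · exact ⟨rfl, h3 z hz.1 hz.2⟩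
      · exact absurd hij (by decide)
      · exact absurd hij (by decide)

theorem spl_symm {a x b : Plane} (h : Spl a x b) : Spl b x a := by
  rcases h with h | h
  · left
    intro h0
    apply h
    unfold det2 at *
    linarith
  · right
    unfold dot2 at *
    linarith

theorem isPolyPath_iff_spl (hP : PathOK P a b c) : IsPolyPath P ↔ a ≠ b ∧ c ≠ b ∧ Spl a b c := by
  rw [isPolyPath_iff']
  obtain ⟨h1, ⟨h2, h3⟩ | ⟨h2, h3⟩⟩ := hP
  · rw [h1, h2, h3]
    constructor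
    · rintro ⟨g1, g2, g3⟩
      refine ⟨g1, g2.symm, (spl_iff g1 g2.symm).2 fun z hz hz' => g3 z ?_ hz'⟩
      rw [segment_symm]; exact hz
    · rintro ⟨g1, g2, g3⟩
      refine ⟨g1, g2.symm, fun z hz hz' => (spl_iff g1 g2).1 g3 z ?_ hz'⟩
      rw [segment_symm]; exact hz
  · rw [h1, h2, h3]
    constructor
    · rintro ⟨g1, g2, g3⟩
      refine ⟨g2.symm, g1, (spl_iff g2.symm g1).2 fun z hz hz' => g3 z ?_ hz⟩
      rw [segment_symm]; exact hz'
    · rintro ⟨g1, g2, g3⟩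
      refine ⟨g2, g1.symm, fun z hz hz' => (spl_iff g1 g2).1 g3 z hz' ?_⟩
      rw [segment_symm]; exact hz

theorem open_eq {x y p q : Plane} (h : (x = p ∧ y = q) ∨ (x = q ∧ y = p)) :
    openSegment ℝ x y = openSegment ℝ p q := by
  rcases h with ⟨rfl, rfl⟩ | ⟨rfl, rfl⟩
  · rfl
  · exact openSegment_symm ℝ _ _

theorem det_ne {x y p q x' y' p' q' : Plane} (h : (x = p ∧ y = q) ∨ (x = q ∧ y = p))
    (h' : (x' = p' ∧ y' = q') ∨ (x' = q' ∧ y' = p')) :
    det2 (y - x) (y' - x') ≠ 0 ↔ det2 (q - p) (q' - p') ≠ 0 := by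
  rcases h with ⟨rfl, rfl⟩ | ⟨rfl, rfl⟩ <;> rcases h' with ⟨rfl, rfl⟩ | ⟨rfl, rfl⟩
  · rfl
  · rw [not_iff_not]
    unfold det2
    simp only [Prod.fst_sub, Prod.snd_sub]
    constructor <;> intro h <;> linarith
  · rw [not_iff_not]
    unfold det2
    simp only [Prod.fst_sub, Prod.snd_sub]
    constructor <;> intro h <;> linarith
  · rw [not_iff_not]
    unfold det2
    simp only [Prod.fst_sub, Prod.snd_sub]
    constructor <;> intro h <;> linarith

theorem properAt_iff (hP : PathOK P a b c) (hQ : PathOK Q a' b' c') : ProperAt P Q z ↔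
    ∃ i j : Bool, z ∈ openSegment ℝ (sel i a c) b ∧ z ∈ openSegment ℝ (sel j a' c') b' ∧
      det2 (b - sel i a c) (b' - sel j a' c') ≠ 0 := by
  constructor
  · rintro ⟨i, j, h1, h2, h3⟩
    obtain ⟨i', hi⟩ := seg_cases hP i
    obtain ⟨j', hj⟩ := seg_cases hQ j
    refine ⟨i', j', ?_, ?_, ?_⟩
    · rw [← open_eq hi]; exact h1
    · rw [← open_eq hj]; exact h2
    · rw [← det_ne hi hj]; exact h3
  · rintro ⟨i', j', h1, h2, h3⟩
    obtain ⟨i, hi⟩ := seg_cases' hP i'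
    obtain ⟨j, hj⟩ := seg_cases' hQ j'
    refine ⟨i, j, ?_, ?_, ?_⟩
    · rw [open_eq hi]; exact h1
    · rw [open_eq hj]; exact h2
    · rw [det_ne hi hj]; exact h3

/-! ### Edges and configurations -/

/-- adjacency in terms of the list of edges -/
def adjL (E : List (ℕ × ℕ)) (e : ℕ × ℕ) : Prop := e.1 < e.2 ∧ (e ∈ E ∨ (e.2, e.1) ∈ E)

instance (E : List (ℕ × ℕ)) : DecidablePred (adjL E) := fun e => by unfold adjL; infer_instance

/-- the list of the edges -/
def es (n : ℕ) (E : List (ℕ × ℕ)) : List (ℕ × ℕ) :=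
  ((List.range n).product (List.range n)).filter fun e => decide (adjL E e)

theorem mem_es {n : ℕ} {E : List (ℕ × ℕ)} {e : ℕ × ℕ} :
    e ∈ es n E ↔ e.1 < n ∧ e.2 < n ∧ adjL E e := by
  obtain ⟨u, v⟩ := e
  unfold es
  rw [List.mem_filter, List.pair_mem_product, List.mem_range, List.mem_range, decide_eq_true_eq,
    and_assoc]

theorem nodup_es (n : ℕ) (E : List (ℕ × ℕ)) : (es n E).Nodup :=
  (List.nodup_range.product List.nodup_range).filter _

/-- the end vertex of the segment `i` of the edge `e` -/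
def ve (e : ℕ × ℕ) (i : Bool) : ℕ := sel i e.1 e.2

/-- order of the edges -/
def elt (e e' : ℕ × ℕ) : Prop := e.1 < e'.1 ∨ (e.1 = e'.1 ∧ e.2 < e'.2)

instance (e e' : ℕ × ℕ) : Decidable (elt e e') := by unfold elt; infer_instance

theorem elt_ne {e e' : ℕ × ℕ} (h : elt e e') : e ≠ e' := by
  rintro rfl
  unfold elt at h
  omega

theorem elt_total {e e' : ℕ × ℕ} (h : e ≠ e') : elt e e' ∨ elt e' e := by
  obtain ⟨u, v⟩ := e
  obtain ⟨u', v'⟩ := e'
  unfold elt
  simp only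
  have : ¬ (u = u' ∧ v = v') := fun h' => h (by rw [h'.1, h'.2])
  omega

theorem elt_asymm {e e' : ℕ × ℕ} (h : elt e e') (h' : elt e' e) : False := by
  unfold elt at *
  omega

/-- pairs of segments of different edges -/
abbrev Quad := ((ℕ × ℕ) × (ℕ × ℕ)) × (Bool × Bool)

/-- all pairs of segments of different edges -/
def quads (n : ℕ) (E : List (ℕ × ℕ)) : List Quad :=
  (((es n E).product (es n E)).product ([false, true].product [false, true])).filter
    fun q => decide (elt q.1.1 q.1.2)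

theorem mem_quads {n : ℕ} {E : List (ℕ × ℕ)} {q : Quad} :
    q ∈ quads n E ↔ q.1.1 ∈ es n E ∧ q.1.2 ∈ es n E ∧ elt q.1.1 q.1.2 := by
  obtain ⟨⟨e, e'⟩, i, j⟩ := q
  unfold quads
  rw [List.mem_filter, List.pair_mem_product, List.pair_mem_product, List.pair_mem_product,
    decide_eq_true_eq]
  have h : ∀ i : Bool, i ∈ [false, true] := by decide
  simp [h, and_assoc]

theorem nodup_quads (n : ℕ) (E : List (ℕ × ℕ)) : (quads n E).Nodup :=
  (((nodup_es n E).product (nodup_es n E)).product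
    (List.Nodup.product (by decide) (by decide))).filter _

/-- the two segments have a common end vertex -/
def Shr (q : Quad) : Prop := ve q.1.1 q.2.1 = ve q.1.2 q.2.2

instance (q : Quad) : Decidable (Shr q) := by unfold Shr; infer_instance

variable (pos : ℕ → Plane) (bend : ℕ × ℕ → Plane)

/-- the segments of a pair cross properly -/
def QCross (q : Quad) : Prop :=
  Cross (pos (ve q.1.1 q.2.1)) (bend q.1.1) (pos (ve q.1.2 q.2.2)) (bend q.1.2)

/-- the segments of a pair are disjoint -/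
def QDisj (q : Quad) : Prop :=
  Disjoint (segment ℝ (pos (ve q.1.1 q.2.1)) (bend q.1.1))
    (segment ℝ (pos (ve q.1.2 q.2.2)) (bend q.1.2))

/-- A good configuration of points. -/
structure Good (n : ℕ) (E : List (ℕ × ℕ)) (k : ℕ) : Prop where
  inj : ∀ u v, u < v → v < n → pos u ≠ pos v
  ne : ∀ e ∈ es n E, ∀ i, pos (ve e i) ≠ bend e
  simple : ∀ e ∈ es n E, Spl (pos e.1) (bend e) (pos e.2)
  avoid : ∀ e ∈ es n E, ∀ w, w < n → w ≠ e.1 → w ≠ e.2 → ∀ i,
    pos w ∉ segment ℝ (pos (ve e i)) (bend e)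
  shared : ∀ q ∈ quads n E, Shr q → Spl (bend q.1.1) (pos (ve q.1.1 q.2.1)) (bend q.1.2)
  unshared : ∀ q ∈ quads n E, ¬ Shr q → QDisj pos bend q ∨ QCross pos bend q
  cnt : {q | q ∈ quads n E ∧ ¬ Shr q ∧ QCross pos bend q}.encard ≤ k

end Pool.Agent.CRt.Mem
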