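import Pool.Agent.CRt.MemDraw

/-!
# Drawings with one bend per edge as configurations of points: the equivalence
-/

set_option autoImplicit false

namespace Pool.Agent.CRt.Mem

open Set

theorem encard_le_of_rel {α β : Type*} {A : Set α} {B : Set β} (R : α → β → Prop)
    (h1 : ∀ a ∈ A, ∃ b ∈ B, R a b)
    (h2 : ∀ a ∈ A, ∀ a' ∈ A, ∀ b, R a b → R a' b → a = a') : A.encard ≤ B.encard := by
  classical
  rcases A.eq_empty_or_nonempty with rfl | ⟨a0, ha0⟩
  · simp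
  · obtain ⟨b0, -, -⟩ := h1 a0 ha0
    have : Nonempty β := ⟨b0⟩
    choose! f hf hR using h1
    exact Set.encard_le_encard_of_injOn (f := f) (fun a ha => hf a ha)
      (fun a ha a' ha' h => h2 a ha a' ha' (f a) (hR a ha) (by rw [h]; exact hR a' ha'))

/-- the edge as an unordered pair -/
def ed {n : ℕ} (e : ℕ × ℕ) (h1 : e.1 < n) (h2 : e.2 < n) : Sym2 (Fin n) :=
  s((⟨e.1, h1⟩ : Fin n), (⟨e.2, h2⟩ : Fin n))

theorem ed_mem {n : ℕ} {E : List (ℕ × ℕ)} {e : ℕ × ℕ} (h1 : e.1 < n) (h2 : e.2 < n)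
    (h : adjL E e) : ed e h1 h2 ∈ (graphOf n E).edgeSet := by
  unfold ed
  rw [SimpleGraph.mem_edgeSet, graphOf, SimpleGraph.fromRel_adj]
  refine ⟨?_, h.2⟩
  intro h'
  have := h.1
  rw [Fin.mk.injEq] at h'
  omega

theorem ed_surj {n : ℕ} {E : List (ℕ × ℕ)} {s : Sym2 (Fin n)}
    (hs : s ∈ (graphOf n E).edgeSet) : ∃ (e : ℕ × ℕ) (h1 : e.1 < n) (h2 : e.2 < n),
      adjL E e ∧ s = ed e h1 h2 := by
  induction s using Sym2.ind with
  | _ u v =>
    rw [SimpleGraph.mem_edgeSet, graphOf, SimpleGraph.fromRel_adj] at hs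
    obtain ⟨hne, h⟩ := hs
    have hne' : (u : ℕ) ≠ v := fun h => hne (Fin.ext h)
    rcases lt_or_gt_of_ne hne' with h' | h'
    · exact ⟨(u, v), u.2, v.2, ⟨h', h⟩, rfl⟩
    · exact ⟨(v, u), v.2, u.2, ⟨h', h.symm⟩, Sym2.eq_swap⟩

theorem ed_inj {n : ℕ} {e f : ℕ × ℕ} {h1 : e.1 < n} {h2 : e.2 < n} {g1 : f.1 < n} {g2 : f.2 < n}
    (he : e.1 < e.2) (hf : f.1 < f.2) (h : ed e h1 h2 = ed f g1 g2) : e = f := by
  unfold ed at h
  rw [Sym2.eq_iff] at h
  simp only [Fin.mk.injEq] at h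
  ext <;> omega

theorem mem_ed {n : ℕ} {e : ℕ × ℕ} {h1 : e.1 < n} {h2 : e.2 < n} {v : Fin n} :
    v ∈ ed e h1 h2 ↔ (v : ℕ) = e.1 ∨ (v : ℕ) = e.2 := by
  unfold ed
  rw [Sym2.mem_iff, Fin.ext_iff, Fin.ext_iff]

theorem ve_mem {n : ℕ} {e : ℕ × ℕ} {h1 : e.1 < n} {h2 : e.2 < n} {v : Fin n} :
    v ∈ ed e h1 h2 ↔ ∃ i, (v : ℕ) = ve e i := by
  rw [mem_ed, Bool.exists_bool]
  rfl

theorem ve_lt {n : ℕ} {e : ℕ × ℕ} (h1 : e.1 < n) (h2 : e.2 < n) (i : Bool) : ve e i < n := by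
  cases i
  · exact h1
  · exact h2

theorem ve_inj {e : ℕ × ℕ} (he : e.1 < e.2) {i j : Bool} (h : ve e i = ve e j) : i = j := by
  cases i <;> cases j <;> simp [ve, sel] at h ⊢ <;> omega

theorem openSegment_ne_left {a b z : Plane} (hab : a ≠ b) (hz : z ∈ openSegment ℝ a b) :
    z ≠ a := by
  rintro rfl
  exact hab ((left_mem_openSegment_iff).1 hz)

theorem openSegment_ne_right {a b z : Plane} (hab : a ≠ b) (hz : z ∈ openSegment ℝ a b) :
    z ≠ b := by
  rintro rfl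
  exact hab ((right_mem_openSegment_iff).1 hz)

/-! ### Consequences of being good -/

section conf

variable {pos : ℕ → Plane} {bend : ℕ × ℕ → Plane} {n : ℕ} {E : List (ℕ × ℕ)}

/-- the two segments of a simple path only meet in the bend -/
theorem path_meet {e : ℕ × ℕ} (hne : ∀ i, pos (ve e i) ≠ bend e)
    (hs : Spl (pos e.1) (bend e) (pos e.2)) {i j : Bool} (hij : i ≠ j) {z : Plane}
    (hz : z ∈ segment ℝ (pos (ve e i)) (bend e)) (hz' : z ∈ segment ℝ (pos (ve e j)) (bend e)) :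
    z = bend e := by
  have h := (spl_iff (hne false) (hne true)).1 hs z
  rw [segment_symm] at hz hz'
  cases i <;> cases j
  · exact absurd rfl hij
  · exact h hz hz'
  · exact h hz' hz
  · exact absurd rfl hij

end conf

/-! ### From drawings to configurations -/

section fwd

variable {n : ℕ} {E : List (ℕ × ℕ)} (D : PolyDrawing 2 (graphOf n E))

/-- positions of the vertices -/
def posD (u : ℕ) : Plane := if h : u < n then D.pos ⟨u, h⟩ else 0

/-- positions of the bends -/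
def bendD (e : ℕ × ℕ) : Plane := if h : e.1 < n ∧ e.2 < n then D.path (ed e h.1 h.2) 1 else 0

theorem posD_eq {u : ℕ} (h : u < n) : posD D u = D.pos ⟨u, h⟩ := dif_pos h

theorem posD_fin (u : Fin n) : posD D u = D.pos u := dif_pos u.2

theorem pathOK_D {e : ℕ × ℕ} (h1 : e.1 < n) (h2 : e.2 < n) (h : adjL E e) :
    PathOK (D.path (ed e h1 h2)) (posD D e.1) (bendD D e) (posD D e.2) := by
  refine ⟨by unfold bendD; rw [dif_pos (⟨h1, h2⟩ : e.1 < n ∧ e.2 < n)], ?_⟩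
  have := D.ends _ (ed_mem h1 h2 h)
  rw [posD_eq D h1, posD_eq D h2]
  have h' : Sym2.map D.pos (ed e h1 h2) = s(D.pos ⟨e.1, h1⟩, D.pos ⟨e.2, h2⟩) := rfl
  rw [h', Sym2.eq_iff] at this
  exact this

theorem sel_pos {e : ℕ × ℕ} (i : Bool) : sel i (posD D e.1) (posD D e.2) = posD D (ve e i) := by
  cases i <;> rfl

theorem mem_pathD {e : ℕ × ℕ} (h1 : e.1 < n) (h2 : e.2 < n) (h : adjL E e) {z : Plane} :
    z ∈ pathSet (D.path (ed e h1 h2)) ↔
      ∃ i, z ∈ segment ℝ (posD D (ve e i)) (bendD D e) := by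
  rw [mem_pathSet (pathOK_D D h1 h2 h)]
  simp only [sel_pos]

theorem good_ne {e : ℕ × ℕ} (h1 : e.1 < n) (h2 : e.2 < n) (h : adjL E e) (i : Bool) :
    posD D (ve e i) ≠ bendD D e := by
  have := (isPolyPath_iff_spl (pathOK_D D h1 h2 h)).1 (D.poly _ (ed_mem h1 h2 h))
  cases i
  · exact this.1
  · exact this.2.1

theorem good_simple {e : ℕ × ℕ} (h1 : e.1 < n) (h2 : e.2 < n) (h : adjL E e) :
    Spl (posD D e.1) (bendD D e) (posD D e.2) :=
  ((isPolyPath_iff_spl (pathOK_D D h1 h2 h)).1 (D.poly _ (ed_mem h1 h2 h))).2.2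

/-- the common points of segments of different edges -/
theorem meetD {e f : ℕ × ℕ} (h1 : e.1 < n) (h2 : e.2 < n) (h : adjL E e) (g1 : f.1 < n)
    (g2 : f.2 < n) (g : adjL E f) (hef : e ≠ f) {i j : Bool} {z : Plane}
    (hz : z ∈ segment ℝ (posD D (ve e i)) (bendD D e))
    (hz' : z ∈ segment ℝ (posD D (ve f j)) (bendD D f)) :
    (ve e i = ve f j ∧ z = posD D (ve e i)) ∨
      (z ∈ openSegment ℝ (posD D (ve e i)) (bendD D e) ∧
        z ∈ openSegment ℝ (posD D (ve f j)) (bendD D f) ∧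
        det2 (bendD D e - posD D (ve e i)) (bendD D f - posD D (ve f j)) ≠ 0) := by
  have hne : ed e h1 h2 ≠ ed f g1 g2 := fun h' => hef (ed_inj h.1 g.1 h')
  have hzm : z ∈ pathSet (D.path (ed e h1 h2)) ∩ pathSet (D.path (ed f g1 g2)) :=
    ⟨(mem_pathD D h1 h2 h).2 ⟨i, hz⟩, (mem_pathD D g1 g2 g).2 ⟨j, hz'⟩⟩
  rcases D.proper _ (ed_mem h1 h2 h) _ (ed_mem g1 g2 g) hne z hzm with ⟨v, hv, hv', rfl⟩ | hp
  · left
    rw [ve_mem] at hv hv'
    obtain ⟨i', hi'⟩ := hv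
    obtain ⟨j', hj'⟩ := hv'
    rw [← posD_fin] at hz hz'
    have hi : i = i' := by
      by_contra hcon
      have := path_meet (pos := posD D) (bend := bendD D) (good_ne D h1 h2 h)
        (good_simple D h1 h2 h) hcon hz (by rw [hi']; exact left_mem_segment ℝ _ _)
      rw [hi'] at this
      exact good_ne D h1 h2 h i' this
    have hj : j = j' := by
      by_contra hcon
      have := path_meet (pos := posD D) (bend := bendD D) (good_ne D g1 g2 g)
        (good_simple D g1 g2 g) hcon hz' (by rw [hj']; exact left_mem_segment ℝ _ _)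
      rw [hj'] at this
      exact good_ne D g1 g2 g j' this
    rw [hi, hj]
    refine ⟨by rw [← hi', ← hj'], ?_⟩
    rw [← hi', posD_fin]
  · right
    rw [properAt_iff (pathOK_D D h1 h2 h) (pathOK_D D g1 g2 g)] at hp
    obtain ⟨i', j', k1, k2, k3⟩ := hp
    rw [sel_pos] at k1 k3
    rw [sel_pos] at k2 k3
    have hi : i = i' := by
      by_contra hcon
      exact openSegment_ne_right (good_ne D h1 h2 h i') k1
        (path_meet (pos := posD D) (bend := bendD D) (good_ne D h1 h2 h)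
          (good_simple D h1 h2 h) hcon hz (openSegment_subset_segment ℝ _ _ k1))
    have hj : j = j' := by
      by_contra hcon
      exact openSegment_ne_right (good_ne D g1 g2 g j') k2
        (path_meet (pos := posD D) (bend := bendD D) (good_ne D g1 g2 g)
          (good_simple D g1 g2 g) hcon hz' (openSegment_subset_segment ℝ _ _ k2))
    rw [hi, hj]
    exact ⟨k1, k2, k3⟩

theorem good_of_drawing {k : ℕ} (hk : D.crossings.encard ≤ k) :
    Good (posD D) (bendD D) n E k := by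
  refine ⟨?_, ?_, ?_, ?_, ?_, ?_, ?_⟩
  · intro u v huv hv h
    rw [posD_eq D (huv.trans hv), posD_eq D hv] at h
    have := D.pos_inj h
    rw [Fin.mk.injEq] at this
    omega
  · intro e he i
    rw [mem_es] at he
    exact good_ne D he.1 he.2.1 he.2.2 i
  · intro e he
    rw [mem_es] at he
    exact good_simple D he.1 he.2.1 he.2.2
  · intro e he w hw hw1 hw2 i hcon
    rw [mem_es] at he
    obtain ⟨h1, h2, h⟩ := he
    refine D.avoid _ (ed_mem h1 h2 h) ⟨w, hw⟩ ?_ ?_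
    · rw [mem_ed]
      rintro (h' | h')
      · exact hw1 h'
      · exact hw2 h'
    · rw [mem_pathD D h1 h2 h]
      refine ⟨i, ?_⟩
      rw [← posD_eq D hw]
      exact hcon
  · rintro ⟨⟨e, f⟩, i, j⟩ hq hshr
    rw [mem_quads, mem_es, mem_es] at hq
    obtain ⟨⟨h1, h2, h⟩, ⟨g1, g2, g⟩, hlt⟩ := hq
    unfold Shr at hshr
    simp only at *
    rw [spl_iff (good_ne D h1 h2 h i).symm (by rw [hshr]; exact (good_ne D g1 g2 g j).symm)]
    intro z hz hz'
    rw [hshr] at hz'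
    rcases meetD D h1 h2 h g1 g2 g (elt_ne hlt) hz hz' with ⟨-, h'⟩ | ⟨k1, k2, k3⟩
    · exact h'
    · exfalso
      apply openSegment_ne_left (good_ne D h1 h2 h i) k1
      refine inter_unique k3 hz hz' (left_mem_segment ℝ _ _) ?_
      rw [hshr]
      exact left_mem_segment ℝ _ _
  · rintro ⟨⟨e, f⟩, i, j⟩ hq hshr
    rw [mem_quads, mem_es, mem_es] at hq
    obtain ⟨⟨h1, h2, h⟩, ⟨g1, g2, g⟩, hlt⟩ := hq
    unfold Shr at hshr
    simp only at *
    by_cases hd : QDisj (posD D) (bendD D) ((e, f), i, j)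
    · exact Or.inl hd
    · right
      unfold QDisj at hd
      rw [Set.not_disjoint_iff] at hd
      obtain ⟨z, hz, hz'⟩ := hd
      rcases meetD D h1 h2 h g1 g2 g (elt_ne hlt) hz hz' with ⟨h', -⟩ | h'
      · exact absurd h' hshr
      · exact ⟨z, h'⟩
  · refine le_trans (encard_le_of_rel (fun (q : Quad) (c : Sym2 (Sym2 (Fin n)) × Plane) =>
      (∃ (h1 : q.1.1.1 < n) (h2 : q.1.1.2 < n) (g1 : q.1.2.1 < n) (g2 : q.1.2.2 < n),
        c.1 = s(ed q.1.1 h1 h2, ed q.1.2 g1 g2)) ∧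
      c.2 ∈ openSegment ℝ (posD D (ve q.1.1 q.2.1)) (bendD D q.1.1) ∧
      c.2 ∈ openSegment ℝ (posD D (ve q.1.2 q.2.2)) (bendD D q.1.2)) ?_ ?_) hk
    · rintro ⟨⟨e, f⟩, i, j⟩ ⟨hq, hshr, z, hz, hz', hdet⟩
      rw [mem_quads, mem_es, mem_es] at hq
      obtain ⟨⟨h1, h2, h⟩, ⟨g1, g2, g⟩, hlt⟩ := hq
      simp only at *
      refine ⟨(s(ed e h1 h2, ed f g1 g2), z), ?_, ⟨h1, h2, g1, g2, rfl⟩, hz, hz'⟩
      refine ⟨ed e h1 h2, ed_mem h1 h2 h, ed f g1 g2, ed_mem g1 g2 g, ?_, rfl, ?_, ?_⟩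
      · exact fun h' => elt_ne hlt (ed_inj h.1 g.1 h')
      · exact ⟨(mem_pathD D h1 h2 h).2 ⟨i, openSegment_subset_segment ℝ _ _ hz⟩,
          (mem_pathD D g1 g2 g).2 ⟨j, openSegment_subset_segment ℝ _ _ hz'⟩⟩
      · rintro ⟨v, hv, hv', hzv⟩
        simp only at hzv
        rw [ve_mem] at hv hv'
        obtain ⟨i', hi'⟩ := hv
        obtain ⟨j', hj'⟩ := hv'
        rw [← posD_fin] at hzv
        have hi : i = i' := by
          by_contra hcon
          exact openSegment_ne_right (good_ne D h1 h2 h i) hz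
            (path_meet (pos := posD D) (bend := bendD D) (good_ne D h1 h2 h)
              (good_simple D h1 h2 h) hcon (openSegment_subset_segment ℝ _ _ hz)
              (by rw [hzv, hi']; exact left_mem_segment ℝ _ _))
        apply openSegment_ne_left (good_ne D h1 h2 h i) hz
        rw [hzv, hi, hi']
    · rintro ⟨⟨e, f⟩, i, j⟩ ⟨hq, -, -⟩ ⟨⟨e', f'⟩, i', j'⟩ ⟨hq', -, -⟩ ⟨s, z⟩
        ⟨⟨h1, h2, g1, g2, hs⟩, hz, hz'⟩ ⟨⟨h1', h2', g1', g2', hs'⟩, hw, hw'⟩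
      rw [mem_quads, mem_es, mem_es] at hq hq'
      obtain ⟨⟨-, -, h⟩, ⟨-, -, g⟩, hlt⟩ := hq
      obtain ⟨⟨-, -, h'⟩, ⟨-, -, g'⟩, hlt'⟩ := hq'
      simp only at *
      rw [hs, Sym2.eq_iff] at hs'
      have hee : e = e' ∧ f = f' := by
        rcases hs' with ⟨k1, k2⟩ | ⟨k1, k2⟩
        · exact ⟨ed_inj h.1 h'.1 k1, ed_inj g.1 g'.1 k2⟩
        · exfalso
          have := ed_inj h.1 g'.1 k1
          have := ed_inj g.1 h'.1 k2
          subst_vars
          exact elt_asymm hlt hlt'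
      obtain ⟨rfl, rfl⟩ := hee
      have hi : i = i' := by
        by_contra hcon
        exact openSegment_ne_right (good_ne D h1 h2 h i) hz
          (path_meet (pos := posD D) (bend := bendD D) (good_ne D h1 h2 h)
            (good_simple D h1 h2 h) hcon (openSegment_subset_segment ℝ _ _ hz)
            (openSegment_subset_segment ℝ _ _ hw))
      have hj : j = j' := by
        by_contra hcon
        exact openSegment_ne_right (good_ne D g1 g2 g j) hz'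
          (path_meet (pos := posD D) (bend := bendD D) (good_ne D g1 g2 g)
            (good_simple D g1 g2 g) hcon (openSegment_subset_segment ℝ _ _ hz')
            (openSegment_subset_segment ℝ _ _ hw'))
      rw [hi, hj]

end fwd

/-! ### From configurations to drawings -/

section bwd

variable {pos : ℕ → Plane} {bend : ℕ × ℕ → Plane} {n k : ℕ} {E : List (ℕ × ℕ)}

/-- the path of an edge -/
def pathG (pos : ℕ → Plane) (bend : ℕ × ℕ → Plane) {n : ℕ} (e : Sym2 (Fin n)) : Fin 3 → Plane :=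
  ![pos e.inf, bend (e.inf, e.sup), pos e.sup]

theorem pathOK_G {e : ℕ × ℕ} (h1 : e.1 < n) (h2 : e.2 < n) (h : e.1 < e.2) :
    PathOK (pathG pos bend (ed e h1 h2)) (pos e.1) (bend e) (pos e.2) := by
  have hle : (⟨e.1, h1⟩ : Fin n) ≤ ⟨e.2, h2⟩ := by
    rw [Fin.le_def]; exact h.le
  have e1 : ((ed e h1 h2).inf : Fin n) = ⟨e.1, h1⟩ := by
    unfold ed; rw [Sym2.inf_mk]; exact inf_eq_left.2 hle
  have e2 : ((ed e h1 h2).sup : Fin n) = ⟨e.2, h2⟩ := by
    unfold ed; rw [Sym2.sup_mk]; exact sup_eq_right.2 hle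
  unfold PathOK pathG
  rw [e1, e2]
  exact ⟨rfl, Or.inl ⟨rfl, rfl⟩⟩

theorem sel_posG {e : ℕ × ℕ} (i : Bool) : sel i (pos e.1) (pos e.2) = pos (ve e i) := by
  cases i <;> rfl

theorem mem_pathG {e : ℕ × ℕ} (h1 : e.1 < n) (h2 : e.2 < n) (h : e.1 < e.2) {z : Plane} :
    z ∈ pathSet (pathG pos bend (ed e h1 h2)) ↔
      ∃ i, z ∈ segment ℝ (pos (ve e i)) (bend e) := by
  rw [mem_pathSet (pathOK_G h1 h2 h)]
  simp only [sel_posG]

theorem det2_swap (u v : Plane) : det2 u v = - det2 v u := by unfold det2; ring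

/-- common points in a good configuration (ordered edges) -/
theorem meetG (hG : Good pos bend n E k) {e f : ℕ × ℕ} (h1 : e.1 < n) (h2 : e.2 < n)
    (h : adjL E e) (g1 : f.1 < n) (g2 : f.2 < n) (g : adjL E f) (hlt : elt e f) {i j : Bool}
    {z : Plane} (hz : z ∈ segment ℝ (pos (ve e i)) (bend e))
    (hz' : z ∈ segment ℝ (pos (ve f j)) (bend f)) :
    (ve e i = ve f j ∧ z = pos (ve e i)) ∨
      (ve e i ≠ ve f j ∧ z ∈ openSegment ℝ (pos (ve e i)) (bend e) ∧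
        z ∈ openSegment ℝ (pos (ve f j)) (bend f) ∧
        det2 (bend e - pos (ve e i)) (bend f - pos (ve f j)) ≠ 0) := by
  have he : e ∈ es n E := mem_es.2 ⟨h1, h2, h⟩
  have hf : f ∈ es n E := mem_es.2 ⟨g1, g2, g⟩
  have hq : ((e, f), (i, j)) ∈ quads n E := mem_quads.2 ⟨he, hf, hlt⟩
  by_cases hs : ve e i = ve f j
  · left
    refine ⟨hs, ?_⟩
    have := hG.shared _ hq hs
    simp only at this
    refine (spl_iff (hG.ne e he i).symm (by rw [hs]; exact (hG.ne f hf j).symm)).1 this z hz ?_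
    rw [hs]
    exact hz'
  · right
    rcases hG.unshared _ hq hs with hd | ⟨w, hw, hw', hdet⟩
    · exact absurd hz' (Set.disjoint_left.1 hd hz)
    · simp only at hw hw' hdet
      have : z = w := inter_unique hdet hz hz' (openSegment_subset_segment ℝ _ _ hw)
        (openSegment_subset_segment ℝ _ _ hw')
      rw [this]
      exact ⟨hs, hw, hw', hdet⟩

/-- the drawing of a good configuration -/
def drawG (hG : Good pos bend n E k) : PolyDrawing 2 (graphOf n E) where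
  pos u := pos u
  path := pathG pos bend
  pos_inj := by
    intro u v huv
    by_contra hne
    have hne' : (u : ℕ) ≠ v := fun h => hne (Fin.ext h)
    rcases lt_or_gt_of_ne hne' with h | h
    · exact hG.inj _ _ h v.2 huv
    · exact hG.inj _ _ h u.2 huv.symm
  poly := by
    intro s hs
    obtain ⟨e, h1, h2, h, rfl⟩ := ed_surj hs
    have he : e ∈ es n E := mem_es.2 ⟨h1, h2, h⟩
    exact (isPolyPath_iff_spl (pathOK_G h1 h2 h.1)).2
      ⟨hG.ne e he false, hG.ne e he true, hG.simple e he⟩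
  ends := by
    intro s hs
    obtain ⟨e, h1, h2, h, rfl⟩ := ed_surj hs
    have h' : Sym2.map (fun u : Fin n => pos u) (ed e h1 h2) = s(pos e.1, pos e.2) := rfl
    rw [h', Sym2.eq_iff]
    exact (pathOK_G h1 h2 h.1).2
  avoid := by
    intro s hs v hv
    obtain ⟨e, h1, h2, h, rfl⟩ := ed_surj hs
    have he : e ∈ es n E := mem_es.2 ⟨h1, h2, h⟩
    rw [mem_ed, not_or] at hv
    rw [mem_pathG h1 h2 h.1]
    rintro ⟨i, hi⟩
    exact hG.avoid e he v v.2 hv.1 hv.2 i hi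
  proper := by
    intro s hs s' hs' hne z hz
    obtain ⟨e, h1, h2, h, rfl⟩ := ed_surj hs
    obtain ⟨f, g1, g2, g, rfl⟩ := ed_surj hs'
    have hef : e ≠ f := by
      rintro rfl
      exact hne rfl
    rw [Set.mem_inter_iff, mem_pathG h1 h2 h.1, mem_pathG g1 g2 g.1] at hz
    obtain ⟨⟨i, hi⟩, ⟨j, hj⟩⟩ := hz
    rw [properAt_iff (pathOK_G h1 h2 h.1) (pathOK_G g1 g2 g.1)]
    rcases elt_total hef with hlt | hlt
    · rcases meetG hG h1 h2 h g1 g2 g hlt hi hj with ⟨k1, k2⟩ | ⟨-, k2, k3, k4⟩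
      · left
        refine ⟨⟨ve e i, ve_lt h1 h2 i⟩, ve_mem.2 ⟨i, rfl⟩, ve_mem.2 ⟨j, k1⟩, k2⟩
      · right
        refine ⟨i, j, ?_, ?_, ?_⟩
        · rw [sel_posG]; exact k2
        · rw [sel_posG]; exact k3
        · rw [sel_posG, sel_posG]; exact k4
    · rcases meetG hG g1 g2 g h1 h2 h hlt hj hi with ⟨k1, k2⟩ | ⟨-, k2, k3, k4⟩
      · left
        refine ⟨⟨ve f j, ve_lt g1 g2 j⟩, ve_mem.2 ⟨i, k1⟩, ve_mem.2 ⟨j, rfl⟩, k2⟩
      · right
        refine ⟨i, j, ?_, ?_, ?_⟩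
        · rw [sel_posG]; exact k3
        · rw [sel_posG]; exact k2
        · rw [sel_posG, sel_posG, det2_swap, neg_ne_zero]; exact k4

theorem drawG_crossings (hG : Good pos bend n E k) : (drawG hG).crossings.encard ≤ k := by
  refine le_trans (encard_le_of_rel (B := {q | q ∈ quads n E ∧ ¬ Shr q ∧ QCross pos bend q})
    (fun (c : Sym2 (Sym2 (Fin n)) × Plane) (q : Quad) =>
      (∃ (h1 : q.1.1.1 < n) (h2 : q.1.1.2 < n) (g1 : q.1.2.1 < n) (g2 : q.1.2.2 < n),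
        c.1 = s(ed q.1.1 h1 h2, ed q.1.2 g1 g2)) ∧
      c.2 ∈ openSegment ℝ (pos (ve q.1.1 q.2.1)) (bend q.1.1) ∧
      c.2 ∈ openSegment ℝ (pos (ve q.1.2 q.2.2)) (bend q.1.2) ∧
      det2 (bend q.1.1 - pos (ve q.1.1 q.2.1)) (bend q.1.2 - pos (ve q.1.2 q.2.2)) ≠ 0) ?_ ?_)
    hG.cnt
  · rintro ⟨c1, z⟩ ⟨s, hs, s', hs', hne, hc1, hz, hcom⟩
    simp only at *
    subst hc1
    obtain ⟨e, h1, h2, h, rfl⟩ := ed_surj hs
    obtain ⟨f, g1, g2, g, rfl⟩ := ed_surj hs'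
    have hef : e ≠ f := by
      rintro rfl
      exact hne rfl
    have hz1 : z ∈ pathSet (pathG pos bend (ed e h1 h2)) := hz.1
    have hz2 : z ∈ pathSet (pathG pos bend (ed f g1 g2)) := hz.2
    rw [mem_pathG h1 h2 h.1] at hz1
    rw [mem_pathG g1 g2 g.1] at hz2
    obtain ⟨i, hi⟩ := hz1
    obtain ⟨j, hj⟩ := hz2
    have he : e ∈ es n E := mem_es.2 ⟨h1, h2, h⟩
    have hf : f ∈ es n E := mem_es.2 ⟨g1, g2, g⟩
    rcases elt_total hef with hlt | hlt
    · rcases meetG hG h1 h2 h g1 g2 g hlt hi hj with ⟨k1, k2⟩ | ⟨k1, k2, k3, k4⟩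
      · exfalso
        exact hcom ⟨⟨ve e i, ve_lt h1 h2 i⟩, ve_mem.2 ⟨i, rfl⟩, ve_mem.2 ⟨j, k1⟩, k2⟩
      · exact ⟨((e, f), (i, j)), ⟨mem_quads.2 ⟨he, hf, hlt⟩, k1, ⟨z, k2, k3, k4⟩⟩,
          ⟨h1, h2, g1, g2, rfl⟩, k2, k3, k4⟩
    · rcases meetG hG g1 g2 g h1 h2 h hlt hj hi with ⟨k1, k2⟩ | ⟨k1, k2, k3, k4⟩
      · exfalso
        exact hcom ⟨⟨ve f j, ve_lt g1 g2 j⟩, ve_mem.2 ⟨i, k1⟩, ve_mem.2 ⟨j, rfl⟩, k2⟩
      · exact ⟨((f, e), (j, i)), ⟨mem_quads.2 ⟨hf, he, hlt⟩, k1, ⟨z, k2, k3, k4⟩⟩,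
          ⟨g1, g2, h1, h2, Sym2.eq_swap⟩, k2, k3, k4⟩
  · rintro ⟨c1, z⟩ - ⟨c2, w⟩ - ⟨⟨e, f⟩, i, j⟩ ⟨⟨h1, h2, g1, g2, hc⟩, k2, k3, k4⟩
      ⟨⟨h1', h2', g1', g2', hc'⟩, k2', k3', k4'⟩
    simp only at *
    have : z = w := inter_unique k4 (openSegment_subset_segment ℝ _ _ k2)
      (openSegment_subset_segment ℝ _ _ k3) (openSegment_subset_segment ℝ _ _ k2')
      (openSegment_subset_segment ℝ _ _ k3')
    rw [this, hc, hc']

end bwd

/-- Drawings with at most `k` crossings are good configurations of points. -/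
theorem draw_iff (n k : ℕ) (E : List (ℕ × ℕ)) :
    (∃ D : PolyDrawing 2 (graphOf n E), D.crossings.encard ≤ k) ↔
      ∃ (pos : ℕ → Plane) (bend : ℕ × ℕ → Plane), Good pos bend n E k :=
  ⟨fun ⟨D, hD⟩ => ⟨_, _, good_of_drawing D hD⟩, fun ⟨_, _, hG⟩ => ⟨drawG hG, drawG_crossings hG⟩⟩

end Pool.Agent.CRt.Mem
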