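import Pool.Agent.CRt.MemDraw2
import Pool.Agent.PolyTime.Tags

/-!
# Formulas for configurations (membership of `CR 2`)
-/

set_option autoImplicit false

namespace Pool.Agent.CRt.Mem

open Set

/-! ### The Polish notation is injective -/

theorem term_code_inj : ∀ (s t : Term) (l l' : List ℕ), s.code ++ l = t.code ++ l' →
    s = t ∧ l = l' := by
  intro s
  induction s with
  | var i =>
    intro t l l' h
    cases t with
    | var j =>
      simp only [Term.code, List.cons_append, List.nil_append, List.cons.injEq] at h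
      exact ⟨by rw [show i = j by omega], h.2⟩
    | zero => simp [Term.code] at h; omega
    | one => simp [Term.code] at h; omega
    | add s t => simp [Term.code] at h; omega
    | mul s t => simp [Term.code] at h; omega
  | zero =>
    intro t l l' h
    cases t with
    | var j => simp [Term.code] at h; omega
    | zero => simpa [Term.code] using h
    | one => simp [Term.code] at h
    | add s t => simp [Term.code] at h
    | mul s t => simp [Term.code] at h
  | one =>
    intro t l l' h
    cases t with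
    | var j => simp [Term.code] at h; omega
    | zero => simp [Term.code] at h
    | one => simpa [Term.code] using h
    | add s t => simp [Term.code] at h
    | mul s t => simp [Term.code] at h
  | add a b iha ihb =>
    intro t l l' h
    cases t with
    | var j => simp [Term.code] at h; omega
    | zero => simp [Term.code] at h
    | one => simp [Term.code] at h
    | add s t =>
      simp only [Term.code, List.cons_append, List.append_assoc, List.cons.injEq, true_and] at h
      obtain ⟨h1, h2⟩ := iha _ _ _ h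
      obtain ⟨h3, h4⟩ := ihb _ _ _ h2
      exact ⟨by rw [h1, h3], h4⟩
    | mul s t => simp [Term.code] at h
  | mul a b iha ihb =>
    intro t l l' h
    cases t with
    | var j => simp [Term.code] at h; omega
    | zero => simp [Term.code] at h
    | one => simp [Term.code] at h
    | mul s t =>
      simp only [Term.code, List.cons_append, List.append_assoc, List.cons.injEq, true_and] at h
      obtain ⟨h1, h2⟩ := iha _ _ _ h
      obtain ⟨h3, h4⟩ := ihb _ _ _ h2
      exact ⟨by rw [h1, h3], h4⟩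
    | add s t => simp [Term.code] at h

theorem form_code_inj : ∀ (s t : Form) (l l' : List ℕ), s.code ++ l = t.code ++ l' →
    s = t ∧ l = l' := by
  intro s
  induction s with
  | lt a b =>
    intro t l l' h
    cases t with
    | lt c d =>
      simp only [Form.code, List.cons_append, List.append_assoc, List.cons.injEq, true_and] at h
      obtain ⟨h1, h2⟩ := term_code_inj _ _ _ _ h
      obtain ⟨h3, h4⟩ := term_code_inj _ _ _ _ h2
      exact ⟨by rw [h1, h3], h4⟩
    | eq c d => simp [Form.code] at h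
    | not c => simp [Form.code] at h
    | and c d => simp [Form.code] at h
    | or c d => simp [Form.code] at h
  | eq a b =>
    intro t l l' h
    cases t with
    | eq c d =>
      simp only [Form.code, List.cons_append, List.append_assoc, List.cons.injEq, true_and] at h
      obtain ⟨h1, h2⟩ := term_code_inj _ _ _ _ h
      obtain ⟨h3, h4⟩ := term_code_inj _ _ _ _ h2
      exact ⟨by rw [h1, h3], h4⟩
    | lt c d => simp [Form.code] at h
    | not c => simp [Form.code] at h
    | and c d => simp [Form.code] at h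
    | or c d => simp [Form.code] at h
  | not a iha =>
    intro t l l' h
    cases t with
    | not c =>
      simp only [Form.code, List.cons_append, List.cons.injEq, true_and] at h
      obtain ⟨h1, h2⟩ := iha _ _ _ h
      exact ⟨by rw [h1], h2⟩
    | lt c d => simp [Form.code] at h
    | eq c d => simp [Form.code] at h
    | and c d => simp [Form.code] at h
    | or c d => simp [Form.code] at h
  | and a b iha ihb =>
    intro t l l' h
    cases t with
    | and c d =>
      simp only [Form.code, List.cons_append, List.append_assoc, List.cons.injEq, true_and] at h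
      obtain ⟨h1, h2⟩ := iha _ _ _ h
      obtain ⟨h3, h4⟩ := ihb _ _ _ h2
      exact ⟨by rw [h1, h3], h4⟩
    | lt c d => simp [Form.code] at h
    | not c => simp [Form.code] at h
    | eq c d => simp [Form.code] at h
    | or c d => simp [Form.code] at h
  | or a b iha ihb =>
    intro t l l' h
    cases t with
    | or c d =>
      simp only [Form.code, List.cons_append, List.append_assoc, List.cons.injEq, true_and] at h
      obtain ⟨h1, h2⟩ := iha _ _ _ h
      obtain ⟨h3, h4⟩ := ihb _ _ _ h2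
      exact ⟨by rw [h1, h3], h4⟩
    | lt c d => simp [Form.code] at h
    | not c => simp [Form.code] at h
    | eq c d => simp [Form.code] at h
    | and c d => simp [Form.code] at h

theorem term_code_injective : Function.Injective Term.code := fun s t h =>
  (term_code_inj s t [] [] (by rw [h])).1

theorem form_code_injective : Function.Injective Form.code := fun s t h =>
  (form_code_inj s t [] [] (by rw [h])).1

theorem form_code_ne (φ : Form) : φ.code ≠ [] := by
  cases φ <;> simp [Form.code]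

/-! ### Differences of terms -/

/-- differences of terms -/
abbrev ST := Term × Term

/-- value -/
def ev (x : ℕ → ℝ) (s : ST) : ℝ := s.1.eval x - s.2.eval x

/-- variable -/
def vT (i : ℕ) : ST := (.var i, .zero)
/-- one -/
def oT : ST := (.one, .zero)
/-- sum -/
def addT (a b : ST) : ST := (.add a.1 b.1, .add a.2 b.2)
/-- difference -/
def subT (a b : ST) : ST := (.add a.1 b.2, .add a.2 b.1)
/-- product -/
def mulT (a b : ST) : ST :=
  (.add (.mul a.1 b.1) (.mul a.2 b.2), .add (.mul a.1 b.2) (.mul a.2 b.1))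

variable {x : ℕ → ℝ}

@[simp] theorem ev_vT (i : ℕ) : ev x (vT i) = x i := by simp [ev, vT, Term.eval]
@[simp] theorem ev_oT : ev x oT = 1 := by simp [ev, oT, Term.eval]
@[simp] theorem ev_addT (a b : ST) : ev x (addT a b) = ev x a + ev x b := by
  simp only [ev, addT, Term.eval]; ring
@[simp] theorem ev_subT (a b : ST) : ev x (subT a b) = ev x a - ev x b := by
  simp only [ev, subT, Term.eval]; ring
@[simp] theorem ev_mulT (a b : ST) : ev x (mulT a b) = ev x a * ev x b := by
  simp only [ev, mulT, Term.eval]; ring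

/-- positive -/
def gt0 (s : ST) : Form := .lt s.2 s.1
/-- zero -/
def eq0 (s : ST) : Form := .eq s.1 s.2

@[simp] theorem holds_gt0 (s : ST) : (gt0 s).holds x ↔ 0 < ev x s := by
  simp only [gt0, Form.holds, ev, sub_pos]
@[simp] theorem holds_eq0 (s : ST) : (eq0 s).holds x ↔ ev x s = 0 := by
  simp only [eq0, Form.holds, ev, sub_eq_zero]
@[simp] theorem holds_and (a b : Form) : (Form.and a b).holds x ↔ a.holds x ∧ b.holds x :=
  Iff.rfl
@[simp] theorem holds_or (a b : Form) : (Form.or a b).holds x ↔ a.holds x ∨ b.holds x :=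
  Iff.rfl
@[simp] theorem holds_not (a : Form) : (Form.not a).holds x ↔ ¬ a.holds x := Iff.rfl

/-- points -/
abbrev PT := ST × ST

/-- the value of a point -/
def evP (x : ℕ → ℝ) (p : PT) : Plane := (ev x p.1, ev x p.2)

/-- difference of points -/
def subP (a b : PT) : PT := (subT a.1 b.1, subT a.2 b.2)

/-- determinant -/
def detT (a b : PT) : ST := subT (mulT a.1 b.2) (mulT a.2 b.1)

/-- scalar product -/
def dotT (a b : PT) : ST := addT (mulT a.1 b.1) (mulT a.2 b.2)

/-- affine function -/
def linT (p q r : ST) (z : PT) : ST := addT (addT (mulT p z.1) (mulT q z.2)) r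

/-- distinct points -/
def neF (a b : PT) : Form := .or (.not (eq0 (subT a.1 b.1))) (.not (eq0 (subT a.2 b.2)))

/-- negative -/
def lt0 (s : ST) : Form := .lt s.1 s.2

@[simp] theorem holds_lt0 (s : ST) : (lt0 s).holds x ↔ ev x s < 0 := by
  simp only [lt0, Form.holds, ev, sub_neg]

/-- `Spl` -/
def splF (a z b : PT) : Form :=
  .or (.not (eq0 (detT (subP a z) (subP b z)))) (lt0 (dotT (subP a z) (subP b z)))

/-- `SepBy` -/
def sepF (p q r : ST) (a b c d : PT) : Form :=
  .and (.and (gt0 (linT p q r a)) (gt0 (linT p q r b)))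
    (.and (lt0 (linT p q r c)) (lt0 (linT p q r d)))

/-- `CrossBy` -/
def crossF (s t : ST) (a b c d : PT) : Form :=
  .and (.and (gt0 s) (gt0 (subT oT s))) (.and (.and (gt0 t) (gt0 (subT oT t)))
    (.and (.and (eq0 (subT (addT a.1 (mulT s (subT b.1 a.1))) (addT c.1 (mulT t (subT d.1 c.1)))))
      (eq0 (subT (addT a.2 (mulT s (subT b.2 a.2))) (addT c.2 (mulT t (subT d.2 c.2))))))
      (.not (eq0 (detT (subP b a) (subP d c))))))

theorem ev_detT (a b : PT) : ev x (detT a b) = det2 (evP x a) (evP x b) := by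
  simp [detT, evP, det2]

theorem ev_dotT (a b : PT) : ev x (dotT a b) = dot2 (evP x a) (evP x b) := by
  simp [dotT, evP, dot2]

theorem evP_subP (a b : PT) : evP x (subP a b) = evP x a - evP x b := by
  simp [subP, evP]

theorem ev_linT (p q r : ST) (z : PT) :
    ev x (linT p q r z) = lin (ev x p) (ev x q) (ev x r) (evP x z) := by
  simp [linT, evP, lin]

theorem holds_neF (a b : PT) : (neF a b).holds x ↔ evP x a ≠ evP x b := by
  simp only [neF, holds_or, holds_not, holds_eq0, ev_subT, evP, ne_eq, Prod.mk.injEq, not_and_or,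
    sub_eq_zero]

theorem holds_splF (a z b : PT) : (splF a z b).holds x ↔ Spl (evP x a) (evP x z) (evP x b) := by
  simp only [splF, holds_or, holds_not, holds_eq0, holds_lt0, ev_detT, ev_dotT, evP_subP, Spl, ne_eq]

theorem holds_sepF (p q r : ST) (a b c d : PT) : (sepF p q r a b c d).holds x ↔
    SepBy (ev x p) (ev x q) (ev x r) (evP x a) (evP x b) (evP x c) (evP x d) := by
  simp only [sepF, holds_and, holds_gt0, holds_lt0, ev_linT, SepBy, and_assoc]

theorem holds_crossF (s t : ST) (a b c d : PT) : (crossF s t a b c d).holds x ↔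
    CrossBy (ev x s) (ev x t) (evP x a) (evP x b) (evP x c) (evP x d) := by
  simp only [crossF, holds_and, holds_gt0, holds_not, holds_eq0, ev_detT, ev_subT, ev_addT,
    ev_mulT, CrossBy, and_assoc, ev_oT, sub_pos, sub_eq_zero, evP, ne_eq, subP, Prod.mk_sub_mk]

/-! ### Sums and conjunctions -/

/-- sum of a list of terms -/
def sumT (l : List Term) : Term := l.foldr .add .zero

/-- conjunction of a list of formulas -/
def andL (l : List Form) : Form := l.foldr .and (.eq .zero .zero)

theorem eval_sumT (l : List Term) : (sumT l).eval x = (l.map (Term.eval x)).sum := by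
  induction l with
  | nil => rfl
  | cons a l ih => simp [sumT, Term.eval] at ih ⊢; rw [ih]

theorem holds_andL (l : List Form) : (andL l).holds x ↔ ∀ φ ∈ l, φ.holds x := by
  induction l with
  | nil => simp [andL, Form.holds]
  | cons a l ih =>
    rw [List.forall_mem_cons, ← ih]
    rfl

/-! ### The formula of a graph -/

/-- the point of a vertex -/
def vP (u : ℕ) : PT := (vT (Nat.pair 0 u), vT (Nat.pair 1 u))

/-- the bend of an edge -/
def bP (e : ℕ × ℕ) : PT := (vT (Nat.pair 2 (Nat.pair e.1 e.2)), vT (Nat.pair 3 (Nat.pair e.1 e.2)))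

/-- number of a quad -/
def qn (q : Quad) : ℕ :=
  Nat.pair (Nat.pair q.1.1.1 q.1.1.2) (Nat.pair (Nat.pair q.1.2.1 q.1.2.2)
    (bif q.2.1 then (bif q.2.2 then 3 else 2) else (bif q.2.2 then 1 else 0)))

theorem qn_injective : Function.Injective qn := by
  rintro ⟨⟨⟨a, b⟩, c, d⟩, i, j⟩ ⟨⟨⟨a', b'⟩, c', d'⟩, i', j'⟩ h
  simp only [qn, Nat.pair_eq_pair] at h
  obtain ⟨⟨rfl, rfl⟩, ⟨rfl, rfl⟩, h⟩ := h
  cases i <;> cases j <;> cases i' <;> cases j' <;> simp at h ⊢

/-- number of a pair of an edge and a vertex -/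
def an (p : (ℕ × ℕ) × ℕ) : ℕ := Nat.pair (Nat.pair p.1.1 p.1.2) p.2

theorem an_injective : Function.Injective an := by
  rintro ⟨⟨a, b⟩, c⟩ ⟨⟨a', b'⟩, c'⟩ h
  simp only [an, Nat.pair_eq_pair] at h
  obtain ⟨⟨rfl, rfl⟩, rfl⟩ := h
  rfl

/-- auxiliary variable of a quad -/
def qV (t : ℕ) (q : Quad) : ST := vT (Nat.pair t (qn q))

/-- auxiliary variable of a pair of an edge and a vertex -/
def aV (t : ℕ) (p : (ℕ × ℕ) × ℕ) : ST := vT (Nat.pair t (an p))

/-- the formula of a quad -/
def qF (q : Quad) : Form :=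
  if Shr q then
    .and (splF (bP q.1.1) (vP (ve q.1.1 q.2.1)) (bP q.1.2)) (eq0 (qV 7 q))
  else .or (.and (sepF (qV 4 q) (qV 5 q) (qV 6 q) (vP (ve q.1.1 q.2.1)) (bP q.1.1)
      (vP (ve q.1.2 q.2.2)) (bP q.1.2)) (eq0 (qV 7 q)))
    (.and (crossF (qV 4 q) (qV 5 q) (vP (ve q.1.1 q.2.1)) (bP q.1.1)
      (vP (ve q.1.2 q.2.2)) (bP q.1.2)) (eq0 (subT (qV 7 q) oT)))

/-- the formula of an edge and a vertex -/
def aF (p : (ℕ × ℕ) × ℕ) : Form :=
  .and (sepF (aV 8 p) (aV 9 p) (aV 10 p) (vP p.1.1) (bP p.1) (vP p.2) (vP p.2))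
    (sepF (aV 11 p) (aV 12 p) (aV 13 p) (vP p.1.2) (bP p.1) (vP p.2) (vP p.2))

/-- the formula of an edge -/
def eF (e : ℕ × ℕ) : Form :=
  .and (.and (neF (vP e.1) (bP e)) (neF (vP e.2) (bP e))) (splF (vP e.1) (bP e) (vP e.2))

/-- the pairs of vertices -/
def vv (n : ℕ) : List (ℕ × ℕ) :=
  ((List.range n).product (List.range n)).filter fun p => decide (p.1 < p.2)

/-- the pairs of an edge and a vertex -/
def aa (n : ℕ) (E : List (ℕ × ℕ)) : List ((ℕ × ℕ) × ℕ) :=
  ((es n E).product (List.range n)).filter fun p => decide (p.2 ≠ p.1.1 ∧ p.2 ≠ p.1.2)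

/-- the formula that bounds the number of crossings -/
def cF (n : ℕ) (E : List (ℕ × ℕ)) (k : ℕ) : Form :=
  .not (.lt (sumT ((List.range (min k (quads n E).length)).map fun _ => .one))
    (sumT ((quads n E).map fun q => .var (Nat.pair 7 (qn q)))))

/-- the formula -/
def Phi (n : ℕ) (E : List (ℕ × ℕ)) (k : ℕ) : Form :=
  andL ((vv n).map (fun p => neF (vP p.1) (vP p.2)) ++ ((es n E).map eF ++ ((aa n E).map aF ++
    ((quads n E).map qF ++ [cF n E k]))))

theorem holds_Phi (n : ℕ) (E : List (ℕ × ℕ)) (k : ℕ) : (Phi n E k).holds x ↔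
    (∀ p ∈ vv n, (neF (vP p.1) (vP p.2)).holds x) ∧ (∀ e ∈ es n E, (eF e).holds x) ∧
    (∀ p ∈ aa n E, (aF p).holds x) ∧ (∀ q ∈ quads n E, (qF q).holds x) ∧ (cF n E k).holds x := by
  unfold Phi
  rw [holds_andL]
  simp only [List.mem_append, List.mem_map, List.mem_singleton, or_imp, forall_and,
    forall_exists_index, and_imp, forall_apply_eq_imp_iff₂, forall_eq]

theorem mem_vv {n : ℕ} {p : ℕ × ℕ} : p ∈ vv n ↔ p.1 < p.2 ∧ p.2 < n := by
  obtain ⟨u, v⟩ := p
  unfold vv
  rw [List.mem_filter, List.pair_mem_product, List.mem_range, List.mem_range, decide_eq_true_eq]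
  simp only
  omega

theorem mem_aa {n : ℕ} {E : List (ℕ × ℕ)} {p : (ℕ × ℕ) × ℕ} :
    p ∈ aa n E ↔ p.1 ∈ es n E ∧ p.2 < n ∧ p.2 ≠ p.1.1 ∧ p.2 ≠ p.1.2 := by
  obtain ⟨e, v⟩ := p
  unfold aa
  rw [List.mem_filter, List.pair_mem_product, List.mem_range, decide_eq_true_eq, and_assoc]

theorem sum_ones (m : ℕ) : (sumT ((List.range m).map fun _ => .one)).eval x = m := by
  rw [eval_sumT, List.map_map]
  induction m with
  | zero => simp
  | succ m ih =>
    rw [List.range_succ, List.map_append, List.sum_append, ih]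
    simp [Term.eval]

theorem sum_ind {α : Type*} (l : List α) (f : α → ℝ) (p : α → Prop) [DecidablePred p]
    (h : ∀ a ∈ l, f a = if p a then 1 else 0) : (l.map f).sum = ((l.filter p).length : ℝ) := by
  induction l with
  | nil => simp
  | cons a l ih =>
    rw [List.map_cons, List.sum_cons, ih fun b hb => h b (List.mem_cons_of_mem _ hb),
      h a List.mem_cons_self, List.filter_cons]
    by_cases hp : p a
    · simp [hp]; ring
    · simp [hp]

theorem encard_filter {α : Type*} (l : List α) (hl : l.Nodup) (p : α → Prop) [DecidablePred p] :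
    {a | a ∈ l ∧ p a}.encard = (l.filter p).length := by
  classical
  have h : {a | a ∈ l ∧ p a} = ((l.filter p).toFinset : Set α) := by
    ext a; simp
  rw [h, Set.encard_coe_eq_coe_finsetCard, List.toFinset_card_of_nodup (hl.filter _)]

theorem not_mem_segment_iff {a b w : Plane} : w ∉ segment ℝ a b ↔ ∃ p q r, SepBy p q r a b w w := by
  rw [← disjoint_iff_sep, segment_same, Set.disjoint_singleton_right]

/-! ### Correctness -/

/-- positions read off an assignment -/
def posX (x : ℕ → ℝ) (u : ℕ) : Plane := (x (Nat.pair 0 u), x (Nat.pair 1 u))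

/-- bends read off an assignment -/
def bendX (x : ℕ → ℝ) (e : ℕ × ℕ) : Plane :=
  (x (Nat.pair 2 (Nat.pair e.1 e.2)), x (Nat.pair 3 (Nat.pair e.1 e.2)))

@[simp] theorem evP_vP (u : ℕ) : evP x (vP u) = posX x u := by simp [evP, vP, posX]
@[simp] theorem evP_bP (e : ℕ × ℕ) : evP x (bP e) = bendX x e := by simp [evP, bP, bendX]

theorem disj_not_cross {a b c d : Plane} (h : Disjoint (segment ℝ a b) (segment ℝ c d)) :
    ¬ Cross a b c d := by
  rintro ⟨z, hz, hz', -⟩
  exact Set.disjoint_left.1 h (openSegment_subset_segment ℝ _ _ hz)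
    (openSegment_subset_segment ℝ _ _ hz')

theorem holds_qF (q : Quad) : (qF q).holds x ↔
    if Shr q then
      Spl (bendX x q.1.1) (posX x (ve q.1.1 q.2.1)) (bendX x q.1.2) ∧ x (Nat.pair 7 (qn q)) = 0
    else
      (SepBy (x (Nat.pair 4 (qn q))) (x (Nat.pair 5 (qn q))) (x (Nat.pair 6 (qn q)))
        (posX x (ve q.1.1 q.2.1)) (bendX x q.1.1) (posX x (ve q.1.2 q.2.2)) (bendX x q.1.2) ∧
        x (Nat.pair 7 (qn q)) = 0) ∨
      (CrossBy (x (Nat.pair 4 (qn q))) (x (Nat.pair 5 (qn q)))
        (posX x (ve q.1.1 q.2.1)) (bendX x q.1.1) (posX x (ve q.1.2 q.2.2)) (bendX x q.1.2) ∧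
        x (Nat.pair 7 (qn q)) = 1) := by
  unfold qF
  split_ifs with h
  · simp only [holds_and, holds_splF, holds_eq0, evP_vP, evP_bP, qV, ev_vT]
  · simp only [holds_and, holds_or, holds_sepF, holds_crossF, holds_eq0, evP_vP, evP_bP, qV,
      ev_vT, ev_subT, ev_oT, sub_eq_zero]

theorem holds_aF (p : (ℕ × ℕ) × ℕ) : (aF p).holds x ↔
    SepBy (x (Nat.pair 8 (an p))) (x (Nat.pair 9 (an p))) (x (Nat.pair 10 (an p)))
        (posX x p.1.1) (bendX x p.1) (posX x p.2) (posX x p.2) ∧
      SepBy (x (Nat.pair 11 (an p))) (x (Nat.pair 12 (an p))) (x (Nat.pair 13 (an p)))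
        (posX x p.1.2) (bendX x p.1) (posX x p.2) (posX x p.2) := by
  unfold aF
  simp only [holds_and, holds_sepF, evP_vP, evP_bP, aV, ev_vT]

theorem holds_eF (e : ℕ × ℕ) : (eF e).holds x ↔
    (posX x e.1 ≠ bendX x e ∧ posX x e.2 ≠ bendX x e) ∧
      Spl (posX x e.1) (bendX x e) (posX x e.2) := by
  unfold eF
  simp only [holds_and, holds_neF, holds_splF, evP_vP, evP_bP]

theorem holds_cF (n : ℕ) (E : List (ℕ × ℕ)) (k : ℕ) : (cF n E k).holds x ↔
    ((quads n E).map fun q => x (Nat.pair 7 (qn q))).sum ≤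
      ((min k (quads n E).length : ℕ) : ℝ) := by
  unfold cF
  rw [holds_not, Form.holds, sum_ones, eval_sumT, List.map_map, not_lt]
  rfl

open Classical in
theorem good_of_holds {n : ℕ} {E : List (ℕ × ℕ)} {k : ℕ} (h : (Phi n E k).holds x) :
    Good (posX x) (bendX x) n E k := by
  rw [holds_Phi] at h
  obtain ⟨h1, h2, h3, h4, h5⟩ := h
  have key : ∀ q ∈ quads n E, x (Nat.pair 7 (qn q)) =
      if ¬ Shr q ∧ QCross (posX x) (bendX x) q then 1 else 0 := by
    intro q hq
    have := (holds_qF q).1 (h4 q hq)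
    split_ifs at this with hs
    · rw [if_neg (fun h => h.1 hs)]
      exact this.2
    · rcases this with ⟨g1, g2⟩ | ⟨g1, g2⟩
      · rw [if_neg, g2]
        rintro ⟨-, hc⟩
        exact disj_not_cross (disjoint_iff_sep.2 ⟨_, _, _, g1⟩) hc
      · rw [if_pos, g2]
        exact ⟨hs, cross_iff.2 ⟨_, _, g1⟩⟩
  refine ⟨?_, ?_, ?_, ?_, ?_, ?_, ?_⟩
  · intro u v huv hv
    have := h1 (u, v) (mem_vv.2 ⟨huv, hv⟩)
    rw [holds_neF, evP_vP, evP_vP] at this
    exact this
  · intro e he i
    have := (holds_eF e).1 (h2 e he)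
    cases i
    · exact this.1.1
    · exact this.1.2
  · intro e he
    exact ((holds_eF e).1 (h2 e he)).2
  · intro e he w hw hw1 hw2 i
    have := (holds_aF (e, w)).1 (h3 (e, w) (mem_aa.2 ⟨he, hw, hw1, hw2⟩))
    rw [not_mem_segment_iff]
    cases i
    · exact ⟨_, _, _, this.1⟩
    · exact ⟨_, _, _, this.2⟩
  · intro q hq hs
    have := (holds_qF q).1 (h4 q hq)
    rw [if_pos hs] at this
    exact this.1
  · intro q hq hs
    have := (holds_qF q).1 (h4 q hq)
    rw [if_neg hs] at this
    rcases this with ⟨g1, -⟩ | ⟨g1, -⟩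
    · exact Or.inl (disjoint_iff_sep.2 ⟨_, _, _, g1⟩)
    · exact Or.inr (cross_iff.2 ⟨_, _, g1⟩)
  · rw [encard_filter _ (nodup_quads n E)]
    rw [holds_cF, sum_ind _ _ _ key] at h5
    have h6 : ((quads n E).filter fun q => decide (¬ Shr q ∧ QCross (posX x) (bendX x) q)).length ≤
        min k (quads n E).length := by exact_mod_cast h5
    exact_mod_cast h6.trans (min_le_left _ _)

/-- values of the variables -/
noncomputable def valX (pos : ℕ → Plane) (bend : ℕ × ℕ → Plane) (A : Quad → Fin 4 → ℝ)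
    (B : (ℕ × ℕ) × ℕ → Fin 6 → ℝ) (m : ℕ) : ℝ :=
  match (Nat.unpair m).1 with
  | 0 => (pos (Nat.unpair m).2).1
  | 1 => (pos (Nat.unpair m).2).2
  | 2 => (bend (Nat.unpair (Nat.unpair m).2)).1
  | 3 => (bend (Nat.unpair (Nat.unpair m).2)).2
  | 4 => Function.extend qn (fun q => A q 0) 0 (Nat.unpair m).2
  | 5 => Function.extend qn (fun q => A q 1) 0 (Nat.unpair m).2
  | 6 => Function.extend qn (fun q => A q 2) 0 (Nat.unpair m).2
  | 7 => Function.extend qn (fun q => A q 3) 0 (Nat.unpair m).2
  | 8 => Function.extend an (fun q => B q 0) 0 (Nat.unpair m).2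
  | 9 => Function.extend an (fun q => B q 1) 0 (Nat.unpair m).2
  | 10 => Function.extend an (fun q => B q 2) 0 (Nat.unpair m).2
  | 11 => Function.extend an (fun q => B q 3) 0 (Nat.unpair m).2
  | 12 => Function.extend an (fun q => B q 4) 0 (Nat.unpair m).2
  | 13 => Function.extend an (fun q => B q 5) 0 (Nat.unpair m).2
  | _ => 0

open Classical in
theorem holds_of_good {pos : ℕ → Plane} {bend : ℕ × ℕ → Plane} {n : ℕ} {E : List (ℕ × ℕ)} {k : ℕ}
    (h : Good pos bend n E k) : ∃ x : ℕ → ℝ, (Phi n E k).holds x := by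
  have hA : ∀ q : Quad, ∃ a : Fin 4 → ℝ, q ∈ quads n E →
      if Shr q then a 3 = 0 else
      (SepBy (a 0) (a 1) (a 2) (pos (ve q.1.1 q.2.1)) (bend q.1.1) (pos (ve q.1.2 q.2.2))
        (bend q.1.2) ∧ a 3 = 0) ∨
      (CrossBy (a 0) (a 1)
        (pos (ve q.1.1 q.2.1)) (bend q.1.1) (pos (ve q.1.2 q.2.2)) (bend q.1.2) ∧ a 3 = 1) := by
    intro q
    by_cases hq : q ∈ quads n E
    · by_cases hs : Shr q
      · exact ⟨0, fun _ => by rw [if_pos hs]; rfl⟩
      · rcases h.unshared q hq hs with hd | hd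
        · obtain ⟨p, q, r, hpqr⟩ := disjoint_iff_sep.1 hd
          exact ⟨![p, q, r, 0], fun _ => by rw [if_neg hs]; exact Or.inl ⟨hpqr, rfl⟩⟩
        · obtain ⟨s, t, hst⟩ := cross_iff.1 hd
          exact ⟨![s, t, 0, 1], fun _ => by rw [if_neg hs]; exact Or.inr ⟨hst, rfl⟩⟩
    · exact ⟨0, fun h => absurd h hq⟩
  have hB : ∀ p : (ℕ × ℕ) × ℕ, ∃ b : Fin 6 → ℝ, p ∈ aa n E →
      SepBy (b 0) (b 1) (b 2) (pos p.1.1) (bend p.1) (pos p.2) (pos p.2) ∧
      SepBy (b 3) (b 4) (b 5) (pos p.1.2) (bend p.1) (pos p.2) (pos p.2) := by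
    intro p
    by_cases hp : p ∈ aa n E
    · rw [mem_aa] at hp
      obtain ⟨g1, g2, g3, g4⟩ := hp
      obtain ⟨a, b, c, h1⟩ := not_mem_segment_iff.1 (h.avoid p.1 g1 p.2 g2 g3 g4 false)
      obtain ⟨a', b', c', h2⟩ := not_mem_segment_iff.1 (h.avoid p.1 g1 p.2 g2 g3 g4 true)
      exact ⟨![a, b, c, a', b', c'], fun _ => ⟨h1, h2⟩⟩
    · exact ⟨0, fun h => absurd h hp⟩
  choose A hA using hA
  choose B hB using hB
  refine ⟨valX pos bend A B, ?_⟩
  have e0 : ∀ u, posX (valX pos bend A B) u = pos u := by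
    intro u; simp [posX, valX]
  have e1 : ∀ e, bendX (valX pos bend A B) e = bend e := by
    intro e; simp [bendX, valX]
  have q4 : ∀ q, valX pos bend A B (Nat.pair 4 (qn q)) = A q 0 := by
    intro q; simp [valX, qn_injective.extend_apply]
  have q5 : ∀ q, valX pos bend A B (Nat.pair 5 (qn q)) = A q 1 := by
    intro q; simp [valX, qn_injective.extend_apply]
  have q6 : ∀ q, valX pos bend A B (Nat.pair 6 (qn q)) = A q 2 := by
    intro q; simp [valX, qn_injective.extend_apply]
  have q7 : ∀ q, valX pos bend A B (Nat.pair 7 (qn q)) = A q 3 := by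
    intro q; simp [valX, qn_injective.extend_apply]
  have a8 : ∀ q, valX pos bend A B (Nat.pair 8 (an q)) = B q 0 := by
    intro q; simp [valX, an_injective.extend_apply]
  have a9 : ∀ q, valX pos bend A B (Nat.pair 9 (an q)) = B q 1 := by
    intro q; simp [valX, an_injective.extend_apply]
  have a10 : ∀ q, valX pos bend A B (Nat.pair 10 (an q)) = B q 2 := by
    intro q; simp [valX, an_injective.extend_apply]
  have a11 : ∀ q, valX pos bend A B (Nat.pair 11 (an q)) = B q 3 := by
    intro q; simp [valX, an_injective.extend_apply]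
  have a12 : ∀ q, valX pos bend A B (Nat.pair 12 (an q)) = B q 4 := by
    intro q; simp [valX, an_injective.extend_apply]
  have a13 : ∀ q, valX pos bend A B (Nat.pair 13 (an q)) = B q 5 := by
    intro q; simp [valX, an_injective.extend_apply]
  rw [holds_Phi]
  refine ⟨?_, ?_, ?_, ?_, ?_⟩
  · intro p hp
    rw [mem_vv] at hp
    rw [holds_neF, evP_vP, evP_vP, e0, e0]
    exact h.inj _ _ hp.1 hp.2
  · intro e he
    rw [holds_eF, e0, e0, e1]
    exact ⟨⟨h.ne e he false, h.ne e he true⟩, h.simple e he⟩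
  · intro p hp
    rw [holds_aF, e0, e0, e0, e1, a8, a9, a10, a11, a12, a13]
    exact hB p hp
  · intro q hq
    rw [holds_qF]
    have := hA q hq
    by_cases hs : Shr q
    · rw [if_pos hs] at this ⊢
      rw [e0, e1, e1, q7]
      exact ⟨h.shared q hq hs, this⟩
    · rw [if_neg hs] at this ⊢
      rw [e0, e0, e1, e1, q4, q5, q6, q7]
      exact this
  · have key : ∀ q ∈ quads n E, A q 3 = if ¬ Shr q ∧ QCross pos bend q then 1 else 0 := by
      intro q hq
      have := hA q hq
      split_ifs at this with hs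
      · rw [if_neg (fun h => h.1 hs)]
        exact this
      · rcases this with ⟨g1, g2⟩ | ⟨g1, g2⟩
        · rw [if_neg, g2]
          rintro ⟨-, hc⟩
          exact disj_not_cross (disjoint_iff_sep.2 ⟨_, _, _, g1⟩) hc
        · rw [if_pos, g2]
          exact ⟨hs, cross_iff.2 ⟨_, _, g1⟩⟩
    rw [holds_cF]
    simp only [q7]
    rw [sum_ind _ _ _ key]
    have h6 := h.cnt
    rw [encard_filter _ (nodup_quads n E)] at h6
    have h7 : ((quads n E).filter fun q => decide (¬ Shr q ∧ QCross pos bend q)).length ≤ k := by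
      exact_mod_cast h6
    exact_mod_cast le_min h7 (List.length_filter_le _ _)

theorem phi_iff (n k : ℕ) (E : List (ℕ × ℕ)) : (∃ x : ℕ → ℝ, (Phi n E k).holds x) ↔
    ∃ D : PolyDrawing 2 (graphOf n E), D.crossings.encard ≤ k := by
  rw [draw_iff]
  exact ⟨fun ⟨x, hx⟩ => ⟨_, _, good_of_holds hx⟩, fun ⟨_, _, h⟩ => holds_of_good h⟩

end Pool.Agent.CRt.Mem
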