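import Pool.Agent.CRt.Defs

/-!
# Elementary geometry of segments (membership of `CR 2` in the class)
-/

set_option autoImplicit false

namespace Pool.Agent.CRt.Mem

open Set

/-- scalar product -/
def dot2 (u v : Plane) : ℝ := u.1 * v.1 + u.2 * v.2

/-- affine function with coefficients `p, q, r` -/
def lin (p q r : ℝ) (z : Plane) : ℝ := p * z.1 + q * z.2 + r

/-- strict separation of two segments by the zero line of `lin p q r` -/
def SepBy (p q r : ℝ) (a b c d : Plane) : Prop :=
  0 < lin p q r a ∧ 0 < lin p q r b ∧ lin p q r c < 0 ∧ lin p q r d < 0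

theorem mem_segment_iff {a b z : Plane} : z ∈ segment ℝ a b ↔
    ∃ s : ℝ, 0 ≤ s ∧ s ≤ 1 ∧ z = (a.1 + s * (b.1 - a.1), a.2 + s * (b.2 - a.2)) := by
  rw [segment_eq_image']
  constructor
  · rintro ⟨s, hs, rfl⟩
    exact ⟨s, hs.1, hs.2, rfl⟩
  · rintro ⟨s, h0, h1, rfl⟩
    exact ⟨s, ⟨h0, h1⟩, rfl⟩

theorem mem_openSegment_iff {a b z : Plane} : z ∈ openSegment ℝ a b ↔
    ∃ s : ℝ, 0 < s ∧ s < 1 ∧ z = (a.1 + s * (b.1 - a.1), a.2 + s * (b.2 - a.2)) := by
  rw [openSegment_eq_image']
  constructor
  · rintro ⟨s, hs, rfl⟩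
    exact ⟨s, hs.1, hs.2, rfl⟩
  · rintro ⟨s, h0, h1, rfl⟩
    exact ⟨s, ⟨h0, h1⟩, rfl⟩

theorem lin_combo (p q r s : ℝ) (a b : Plane) :
    lin p q r (a.1 + s * (b.1 - a.1), a.2 + s * (b.2 - a.2)) =
      (1 - s) * lin p q r a + s * lin p q r b := by
  unfold lin; ring

/-- Disjoint segments are strictly separated. -/
theorem disjoint_iff_sep {a b c d : Plane} :
    Disjoint (segment ℝ a b) (segment ℝ c d) ↔ ∃ p q r, SepBy p q r a b c d := by
  constructor
  · intro h
    have hc1 : Convex ℝ (segment ℝ a b) := convex_segment a b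
    have hc2 : Convex ℝ (segment ℝ c d) := convex_segment c d
    have k1 : IsCompact (segment ℝ a b) := by
      rw [segment_eq_image_lineMap]
      exact isCompact_Icc.image (AffineMap.lineMap_continuous)
    have k2 : IsCompact (segment ℝ c d) := by
      rw [segment_eq_image_lineMap]
      exact isCompact_Icc.image (AffineMap.lineMap_continuous)
    obtain ⟨f, u, v, h1, h2, h3⟩ := geometric_hahn_banach_compact_closed hc1 k1 hc2 k2.isClosed h
    have hf : ∀ z : Plane, f z = f (1, 0) * z.1 + f (0, 1) * z.2 := by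
      intro z
      have : z = z.1 • ((1, 0) : Plane) + z.2 • ((0, 1) : Plane) := by
        ext <;> simp
      conv_lhs => rw [this]
      rw [map_add, map_smul, map_smul, smul_eq_mul, smul_eq_mul]
      ring
    refine ⟨-f (1, 0), -f (0, 1), (u + v) / 2, ?_, ?_, ?_, ?_⟩
    · have := h1 a (left_mem_segment ℝ a b)
      rw [hf] at this
      unfold lin; linarith
    · have := h1 b (right_mem_segment ℝ a b)
      rw [hf] at this
      unfold lin; linarith
    · have := h3 c (left_mem_segment ℝ c d)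
      rw [hf] at this
      unfold lin; linarith
    · have := h3 d (right_mem_segment ℝ c d)
      rw [hf] at this
      unfold lin; linarith
  · rintro ⟨p, q, r, h1, h2, h3, h4⟩
    rw [Set.disjoint_left]
    intro z hz hz'
    rw [mem_segment_iff] at hz hz'
    obtain ⟨s, hs0, hs1, rfl⟩ := hz
    obtain ⟨t, ht0, ht1, he⟩ := hz'
    have e1 := lin_combo p q r s a b
    rw [he, lin_combo] at e1
    have g1 : 0 < (1 - s) * lin p q r a + s * lin p q r b := by
      rcases hs0.eq_or_lt with h | h
      · rw [← h]; linarith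
      · have := mul_nonneg (sub_nonneg.2 hs1) h1.le
        have := mul_pos h h2
        linarith
    have g2 : (1 - t) * lin p q r c + t * lin p q r d < 0 := by
      rcases ht0.eq_or_lt with h | h
      · rw [← h]; linarith
      · have := mul_nonneg (sub_nonneg.2 ht1) (neg_nonneg.2 h3.le)
        have := mul_pos h (neg_pos.2 h4)
        linarith
    linarith

/-- Two segments with the common end `x` only meet in `x`. -/
def Spl (a x b : Plane) : Prop := det2 (a - x) (b - x) ≠ 0 ∨ dot2 (a - x) (b - x) < 0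

theorem spl_iff {a x b : Plane} (ha : a ≠ x) (hb : b ≠ x) :
    Spl a x b ↔ ∀ z, z ∈ segment ℝ x a → z ∈ segment ℝ x b → z = x := by
  have hA : 0 < dot2 (a - x) (a - x) := by
    unfold dot2
    by_contra hcon
    push Not at hcon
    apply ha
    simp only [Prod.fst_sub, Prod.snd_sub] at hcon
    have e1 : a.1 - x.1 = 0 := by nlinarith [sq_nonneg (a.1 - x.1), sq_nonneg (a.2 - x.2)]
    have e2 : a.2 - x.2 = 0 := by nlinarith [sq_nonneg (a.1 - x.1), sq_nonneg (a.2 - x.2)]
    ext
    · linarith
    · linarith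
  have hB : 0 < dot2 (b - x) (b - x) := by
    unfold dot2
    by_contra hcon
    push Not at hcon
    apply hb
    simp only [Prod.fst_sub, Prod.snd_sub] at hcon
    have e1 : b.1 - x.1 = 0 := by nlinarith [sq_nonneg (b.1 - x.1), sq_nonneg (b.2 - x.2)]
    have e2 : b.2 - x.2 = 0 := by nlinarith [sq_nonneg (b.1 - x.1), sq_nonneg (b.2 - x.2)]
    ext
    · linarith
    · linarith
  unfold Spl det2 dot2
  unfold dot2 at hA hB
  simp only [Prod.fst_sub, Prod.snd_sub] at *
  constructor
  · intro h z hz hz'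
    rw [mem_segment_iff] at hz hz'
    obtain ⟨s, hs0, hs1, rfl⟩ := hz
    obtain ⟨t, ht0, ht1, he⟩ := hz'
    rw [Prod.ext_iff] at he
    simp only at he
    obtain ⟨he1, he2⟩ := he
    have f1 : s * (a.1 - x.1) = t * (b.1 - x.1) := by linarith
    have f2 : s * (a.2 - x.2) = t * (b.2 - x.2) := by linarith
    have hs : s = 0 := by
      rcases h with h | h
      · have : s * ((a.1 - x.1) * (b.2 - x.2) - (a.2 - x.2) * (b.1 - x.1)) = 0 := by
          linear_combination (b.2 - x.2) * f1 - (b.1 - x.1) * f2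
        rcases mul_eq_zero.1 this with h' | h'
        · exact h'
        · exact absurd h' h
      · have e1 : s * ((a.1 - x.1) * (a.1 - x.1) + (a.2 - x.2) * (a.2 - x.2)) =
            t * ((a.1 - x.1) * (b.1 - x.1) + (a.2 - x.2) * (b.2 - x.2)) := by
          linear_combination (a.1 - x.1) * f1 + (a.2 - x.2) * f2
        by_contra hne
        have hspos : 0 < s := lt_of_le_of_ne hs0 (Ne.symm hne)
        have := mul_pos hspos hA
        have := mul_nonneg ht0 (neg_nonneg.2 h.le)
        linarith
    rw [hs]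
    ext <;> simp
  · intro h
    by_contra hcon
    push Not at hcon
    obtain ⟨hdet, hdot⟩ := hcon
    set A := (a.1 - x.1) * (a.1 - x.1) + (a.2 - x.2) * (a.2 - x.2) with hAdef
    set B := (b.1 - x.1) * (b.1 - x.1) + (b.2 - x.2) * (b.2 - x.2) with hBdef
    set D := (a.1 - x.1) * (b.1 - x.1) + (a.2 - x.2) * (b.2 - x.2) with hDdef
    -- `A (b - x) = D (a - x)`
    have e1 : A * (b.1 - x.1) = D * (a.1 - x.1) := by
      rw [hAdef, hDdef]
      linear_combination (-(a.2 - x.2)) * hdet
    have e2 : A * (b.2 - x.2) = D * (a.2 - x.2) := by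
      rw [hAdef, hDdef]
      linear_combination (a.1 - x.1) * hdet
    have hDpos : 0 < D := by
      rcases hdot.eq_or_lt with h0 | h0
      · rw [← h0] at e1 e2
        have g1 : b.1 - x.1 = 0 := by
          have : A * (b.1 - x.1) = 0 := by rw [e1]; ring
          exact (mul_eq_zero.1 this).resolve_left hA.ne'
        have g2 : b.2 - x.2 = 0 := by
          have : A * (b.2 - x.2) = 0 := by rw [e2]; ring
          exact (mul_eq_zero.1 this).resolve_left hA.ne'
        rw [hBdef, g1, g2] at hB
        norm_num at hB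
      · exact h0
    rcases le_total D A with hDA | hDA
    · -- `b ∈ [x, a]`
      apply hb
      apply h b
      · rw [mem_segment_iff]
        refine ⟨D / A, by positivity, by rw [div_le_one hA]; exact hDA, ?_⟩
        ext
        · simp only
          have : D / A * (a.1 - x.1) = b.1 - x.1 := by
            rw [div_mul_eq_mul_div, ← e1]; field_simp
          linarith
        · simp only
          have : D / A * (a.2 - x.2) = b.2 - x.2 := by
            rw [div_mul_eq_mul_div, ← e2]; field_simp
          linarith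
      · exact right_mem_segment ℝ x b
    · -- `a ∈ [x, b]`
      apply ha
      apply h a (right_mem_segment ℝ x a)
      rw [mem_segment_iff]
      refine ⟨A / D, by positivity, by rw [div_le_one hDpos]; exact hDA, ?_⟩
      ext
      · simp only
        have : A / D * (b.1 - x.1) = a.1 - x.1 := by
          rw [div_mul_eq_mul_div, e1]; field_simp
        linarith
      · simp only
        have : A / D * (b.2 - x.2) = a.2 - x.2 := by
          rw [div_mul_eq_mul_div, e2]; field_simp
        linarith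

/-- Proper crossing of two segments with parameters `s`, `t`. -/
def CrossBy (s t : ℝ) (a b c d : Plane) : Prop :=
  0 < s ∧ s < 1 ∧ 0 < t ∧ t < 1 ∧ a.1 + s * (b.1 - a.1) = c.1 + t * (d.1 - c.1) ∧
    a.2 + s * (b.2 - a.2) = c.2 + t * (d.2 - c.2) ∧ det2 (b - a) (d - c) ≠ 0

/-- Proper crossing of two segments. -/
def Cross (a b c d : Plane) : Prop :=
  ∃ z, z ∈ openSegment ℝ a b ∧ z ∈ openSegment ℝ c d ∧ det2 (b - a) (d - c) ≠ 0

theorem cross_iff {a b c d : Plane} : Cross a b c d ↔ ∃ s t, CrossBy s t a b c d := by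
  constructor
  · rintro ⟨z, h1, h2, h3⟩
    rw [mem_openSegment_iff] at h1 h2
    obtain ⟨s, hs0, hs1, rfl⟩ := h1
    obtain ⟨t, ht0, ht1, he⟩ := h2
    rw [Prod.ext_iff] at he
    exact ⟨s, t, hs0, hs1, ht0, ht1, he.1, he.2, h3⟩
  · rintro ⟨s, t, hs0, hs1, ht0, ht1, e1, e2, h3⟩
    refine ⟨(a.1 + s * (b.1 - a.1), a.2 + s * (b.2 - a.2)), ?_, ?_, h3⟩
    · rw [mem_openSegment_iff]; exact ⟨s, hs0, hs1, rfl⟩
    · rw [mem_openSegment_iff]
      exact ⟨t, ht0, ht1, by rw [e1, e2]⟩

/-- The point of a proper crossing is unique. -/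
theorem inter_unique {a b c d z w : Plane} (hdet : det2 (b - a) (d - c) ≠ 0)
    (hz : z ∈ segment ℝ a b) (hz' : z ∈ segment ℝ c d) (hw : w ∈ segment ℝ a b)
    (hw' : w ∈ segment ℝ c d) : z = w := by
  rw [mem_segment_iff] at *
  obtain ⟨s, -, -, rfl⟩ := hz
  obtain ⟨t, -, -, e1⟩ := hz'
  obtain ⟨s', -, -, rfl⟩ := hw
  obtain ⟨t', -, -, e2⟩ := hw'
  rw [Prod.ext_iff] at e1 e2
  simp only at e1 e2
  obtain ⟨e11, e12⟩ := e1
  obtain ⟨e21, e22⟩ := e2
  unfold det2 at hdet
  simp only [Prod.fst_sub, Prod.snd_sub] at hdet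
  have h1 : (s - s') * (b.1 - a.1) = (t - t') * (d.1 - c.1) := by linarith
  have h2 : (s - s') * (b.2 - a.2) = (t - t') * (d.2 - c.2) := by linarith
  have h3 : (s - s') * ((b.1 - a.1) * (d.2 - c.2) - (b.2 - a.2) * (d.1 - c.1)) = 0 := by
    linear_combination (d.2 - c.2) * h1 - (d.1 - c.1) * h2
  have h4 : s = s' := by
    rcases mul_eq_zero.1 h3 with h | h
    · linarith
    · exact absurd h hdet
  rw [h4]

end Pool.Agent.CRt.Mem
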