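import Pool.Agent.CRt.MemForm

/-!
# `CR 2` is in the class
-/

set_option autoImplicit false

namespace Pool.Agent.CRt.Mem

open FP

local instance : Code Term := Code.ofInj Term.code term_code_injective
local instance : Code Form := Code.ofInj Form.code form_code_injective

variable {α β : Type} [Code α] [Code β]

@[fun_prop]
theorem Poly.tCode {f : α → Term} (hf : Poly f) : Poly (fun a => (f a).code) := hf

@[fun_prop]
theorem Poly.fCode {f : α → Form} (hf : Poly f) : Poly (fun a => (f a).code) := hf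

theorem Poly.ofTCode {f : α → Term} (hf : Poly (fun a => (f a).code)) : Poly f := hf

theorem Poly.ofFCode {f : α → Form} (hf : Poly (fun a => (f a).code)) : Poly f := hf

@[fun_prop]
theorem Poly.tVar {f : α → ℕ} (hf : Poly f) : Poly (fun a => Term.var (f a)) := by
  refine Poly.ofTCode ?_
  simp only [Term.code]
  fun_prop

@[fun_prop]
theorem Poly.tAdd {f g : α → Term} (hf : Poly f) (hg : Poly g) :
    Poly (fun a => Term.add (f a) (g a)) := by
  refine Poly.ofTCode ?_
  simp only [Term.code]
  fun_prop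

@[fun_prop]
theorem Poly.tMul {f g : α → Term} (hf : Poly f) (hg : Poly g) :
    Poly (fun a => Term.mul (f a) (g a)) := by
  refine Poly.ofTCode ?_
  simp only [Term.code]
  fun_prop

@[fun_prop]
theorem Poly.fLt {f g : α → Term} (hf : Poly f) (hg : Poly g) :
    Poly (fun a => Form.lt (f a) (g a)) := by
  refine Poly.ofFCode ?_
  simp only [Form.code]
  fun_prop

@[fun_prop]
theorem Poly.fEq {f g : α → Term} (hf : Poly f) (hg : Poly g) :
    Poly (fun a => Form.eq (f a) (g a)) := by
  refine Poly.ofFCode ?_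
  simp only [Form.code]
  fun_prop

@[fun_prop]
theorem Poly.fNot {f : α → Form} (hf : Poly f) :
    Poly (fun a => Form.not (f a)) := by
  refine Poly.ofFCode ?_
  simp only [Form.code]
  fun_prop

@[fun_prop]
theorem Poly.fAnd {f g : α → Form} (hf : Poly f) (hg : Poly g) :
    Poly (fun a => Form.and (f a) (g a)) := by
  refine Poly.ofFCode ?_
  simp only [Form.code]
  fun_prop

@[fun_prop]
theorem Poly.fOr {f g : α → Form} (hf : Poly f) (hg : Poly g) :
    Poly (fun a => Form.or (f a) (g a)) := by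
  refine Poly.ofFCode ?_
  simp only [Form.code]
  fun_prop

theorem sumT_code (l : List Term) : (sumT l).code = (l.flatMap fun t => 7 :: t.code) ++ [5] := by
  induction l with
  | nil => rfl
  | cons a l ih =>
    rw [List.flatMap_cons, List.append_assoc, ← ih]
    rfl

theorem andL_code (l : List Form) :
    (andL l).code = (l.flatMap fun t => 3 :: t.code) ++ [1, 5, 5] := by
  induction l with
  | nil => rfl
  | cons a l ih =>
    rw [List.flatMap_cons, List.append_assoc, ← ih]
    rfl

@[fun_prop]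
theorem Poly.sumT {f : α → List Term} (hf : Poly f) : Poly (fun a => sumT (f a)) := by
  refine Poly.ofTCode ?_
  simp only [sumT_code]
  fun_prop

@[fun_prop]
theorem Poly.andL {f : α → List Form} (hf : Poly f) : Poly (fun a => andL (f a)) := by
  refine Poly.ofFCode ?_
  simp only [andL_code]
  fun_prop

@[fun_prop]
theorem Poly.npair {f g : α → ℕ} (hf : Poly f) (hg : Poly g) :
    Poly (fun a => Nat.pair (f a) (g a)) := by
  unfold Nat.pair
  fun_prop

@[fun_prop]
theorem Poly.vT {f : α → ℕ} (hf : Poly f) : Poly (fun a => vT (f a)) := by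
  unfold Mem.vT
  fun_prop

@[fun_prop]
theorem Poly.addT {f g : α → ST} (hf : Poly f) (hg : Poly g) : Poly (fun a => addT (f a) (g a)) := by
  unfold Mem.addT
  fun_prop

@[fun_prop]
theorem Poly.subT {f g : α → ST} (hf : Poly f) (hg : Poly g) : Poly (fun a => subT (f a) (g a)) := by
  unfold Mem.subT
  fun_prop

@[fun_prop]
theorem Poly.mulT {f g : α → ST} (hf : Poly f) (hg : Poly g) : Poly (fun a => mulT (f a) (g a)) := by
  unfold Mem.mulT
  fun_prop

@[fun_prop]
theorem Poly.gt0 {f : α → ST} (hf : Poly f) : Poly (fun a => gt0 (f a)) := by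
  unfold Mem.gt0
  fun_prop

@[fun_prop]
theorem Poly.lt0 {f : α → ST} (hf : Poly f) : Poly (fun a => lt0 (f a)) := by
  unfold Mem.lt0
  fun_prop

@[fun_prop]
theorem Poly.eq0 {f : α → ST} (hf : Poly f) : Poly (fun a => eq0 (f a)) := by
  unfold Mem.eq0
  fun_prop

@[fun_prop]
theorem Poly.subP {f g : α → PT} (hf : Poly f) (hg : Poly g) : Poly (fun a => subP (f a) (g a)) := by
  unfold Mem.subP
  fun_prop

@[fun_prop]
theorem Poly.detT {f g : α → PT} (hf : Poly f) (hg : Poly g) : Poly (fun a => detT (f a) (g a)) := by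
  unfold Mem.detT
  fun_prop

@[fun_prop]
theorem Poly.dotT {f g : α → PT} (hf : Poly f) (hg : Poly g) : Poly (fun a => dotT (f a) (g a)) := by
  unfold Mem.dotT
  fun_prop

@[fun_prop]
theorem Poly.linT {p q r : α → ST} {z : α → PT} (hp : Poly p) (hq : Poly q) (hr : Poly r)
    (hz : Poly z) : Poly (fun a => linT (p a) (q a) (r a) (z a)) := by
  unfold Mem.linT
  fun_prop

@[fun_prop]
theorem Poly.neF {f g : α → PT} (hf : Poly f) (hg : Poly g) : Poly (fun a => neF (f a) (g a)) := by
  unfold Mem.neF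
  fun_prop

@[fun_prop]
theorem Poly.splF {f g h : α → PT} (hf : Poly f) (hg : Poly g) (hh : Poly h) :
    Poly (fun a => splF (f a) (g a) (h a)) := by
  unfold Mem.splF
  fun_prop

@[fun_prop]
theorem Poly.sepF {p q r : α → ST} {a b c d : α → PT} (hp : Poly p) (hq : Poly q) (hr : Poly r)
    (ha : Poly a) (hb : Poly b) (hc : Poly c) (hd : Poly d) :
    Poly (fun i => sepF (p i) (q i) (r i) (a i) (b i) (c i) (d i)) := by
  unfold Mem.sepF
  fun_prop

@[fun_prop]
theorem Poly.crossF {p q : α → ST} {a b c d : α → PT} (hp : Poly p) (hq : Poly q)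
    (ha : Poly a) (hb : Poly b) (hc : Poly c) (hd : Poly d) :
    Poly (fun i => crossF (p i) (q i) (a i) (b i) (c i) (d i)) := by
  unfold Mem.crossF
  fun_prop

@[fun_prop]
theorem Poly.vP {f : α → ℕ} (hf : Poly f) : Poly (fun a => vP (f a)) := by
  unfold Mem.vP
  fun_prop

@[fun_prop]
theorem Poly.bP {f : α → ℕ × ℕ} (hf : Poly f) : Poly (fun a => bP (f a)) := by
  unfold Mem.bP
  fun_prop

@[fun_prop]
theorem Poly.qn {f : α → Quad} (hf : Poly f) : Poly (fun a => qn (f a)) := by
  unfold Mem.qn
  fun_prop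

@[fun_prop]
theorem Poly.an {f : α → (ℕ × ℕ) × ℕ} (hf : Poly f) : Poly (fun a => an (f a)) := by
  unfold Mem.an
  fun_prop

@[fun_prop]
theorem Poly.qV (t : ℕ) {f : α → Quad} (hf : Poly f) : Poly (fun a => qV t (f a)) := by
  unfold Mem.qV
  fun_prop

@[fun_prop]
theorem Poly.aV (t : ℕ) {f : α → (ℕ × ℕ) × ℕ} (hf : Poly f) : Poly (fun a => aV t (f a)) := by
  unfold Mem.aV
  fun_prop

@[fun_prop]
theorem Poly.ve {f : α → ℕ × ℕ} {g : α → Bool} (hf : Poly f) (hg : Poly g) :
    Poly (fun a => ve (f a) (g a)) := by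
  unfold Mem.ve sel
  fun_prop

@[fun_prop]
theorem Poly.eF {f : α → ℕ × ℕ} (hf : Poly f) : Poly (fun a => eF (f a)) := by
  unfold Mem.eF
  fun_prop

@[fun_prop]
theorem Poly.aF {f : α → (ℕ × ℕ) × ℕ} (hf : Poly f) : Poly (fun a => aF (f a)) := by
  unfold Mem.aF
  fun_prop

@[fun_prop]
theorem Poly.qF {f : α → Quad} (hf : Poly f) : Poly (fun a => qF (f a)) := by
  unfold Mem.qF Shr
  fun_prop

/-! ### The lists -/

@[fun_prop]
theorem Poly.prod {γ : Type} [Code γ] {f : α → List β} {g : α → List γ} (hf : Poly f)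
    (hg : Poly g) : Poly (fun a => (f a).product (g a)) := FP.Poly.product hf hg

theorem Poly.vv {n : α → ℕ} (hn : Poly n) (hb : PolyBdd n) : Poly (fun a => vv (n a)) := by
  unfold Mem.vv
  have := Poly.range hn hb
  fun_prop

theorem Poly.es {n : α → ℕ} {E : α → List (ℕ × ℕ)} (hn : Poly n) (hb : PolyBdd n)
    (hE : Poly E) : Poly (fun a => es (n a) (E a)) := by
  unfold Mem.es adjL
  have := Poly.range hn hb
  refine Poly.filter (g := fun a e => decide (e.1 < e.2 ∧ (e ∈ E a ∨ (e.2, e.1) ∈ E a))) ?_ ?_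
  · fun_prop
  · have h2 : Poly (fun p : α × (ℕ × ℕ) => E p.1) := hE.comp Poly.fst'
    fun_prop

theorem Poly.aa {n : α → ℕ} {E : α → List (ℕ × ℕ)} (hn : Poly n) (hb : PolyBdd n)
    (hE : Poly E) : Poly (fun a => aa (n a) (E a)) := by
  unfold Mem.aa
  have h1 := Poly.range hn hb
  have h2 := Poly.es hn hb hE
  fun_prop

theorem Poly.quads {n : α → ℕ} {E : α → List (ℕ × ℕ)} (hn : Poly n) (hb : PolyBdd n)
    (hE : Poly E) : Poly (fun a => quads (n a) (E a)) := by
  unfold Mem.quads elt
  have h2 := Poly.es hn hb hE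
  fun_prop

theorem Poly.cF {n k : α → ℕ} {E : α → List (ℕ × ℕ)} (hn : Poly n) (hb : PolyBdd n)
    (hE : Poly E) (hk : Poly k) : Poly (fun a => cF (n a) (E a) (k a)) := by
  unfold Mem.cF
  have h2 := Poly.quads hn hb hE
  have h3 : Poly (fun a => List.range (min (k a) (Mem.quads (n a) (E a)).length)) :=
    Poly.range (by fun_prop) ((PolyBdd.length h2).mono (fun a => min_le_right _ _))
  fun_prop

theorem Poly.Phi {n k : α → ℕ} {E : α → List (ℕ × ℕ)} (hn : Poly n) (hb : PolyBdd n)
    (hE : Poly E) (hk : Poly k) : Poly (fun a => Phi (n a) (E a) (k a)) := by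
  unfold Mem.Phi
  have h1 := Poly.vv hn hb
  have h2 := Poly.es hn hb hE
  have h3 := Poly.aa hn hb hE
  have h4 := Poly.quads hn hb hE
  have h5 := Poly.cF hn hb hE hk
  fun_prop

/-! ### The reduction -/

local instance : DCode Unit where
  dec := fun _ => ()
  dec_enc := fun _ => rfl
  poly_dec := FP.Poly.const _

/-- instances -/
abbrev Inst := List Unit × List (ℕ × ℕ) × ℕ

/-- decoding of an instance -/
noncomputable def decI (w : List Bool) : Inst := dec w

theorem decI_enc (a : Inst) : decI (enc a) = a := dec_enc a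

theorem poly_decI : Poly decI := Poly.decode Poly.ident

/-- the formula of an instance -/
noncomputable def frm (a : Inst) : Form := Phi a.1.length a.2.1 a.2.2

theorem poly_frm : Poly frm := by
  have h1 : Poly (fun a : Inst => a.1) := by fun_prop
  have h2 : Poly (fun a : Inst => a.2.1) := by fun_prop
  have h3 : Poly (fun a : Inst => a.2.2) := by fun_prop
  exact Poly.Phi (Poly.length h1) (PolyBdd.length h1) h2 h3

theorem frm_iff (a : Inst) : (∃ x : ℕ → ℝ, (frm a).holds x) ↔
    ∃ D : PolyDrawing 2 (graphOf a.1.length a.2.1), D.crossings.encard ≤ a.2.2 :=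
  phi_iff _ _ _

theorem mem_CR_iff (w : List Bool) : w ∈ CR 2 ↔ ∃ a : Inst, enc a = w ∧
    ∃ D : PolyDrawing 2 (graphOf a.1.length a.2.1), D.crossings.encard ≤ a.2.2 := by
  constructor
  · rintro ⟨n, E, k, rfl, hD⟩
    have key : ∀ m, m = n →
        ∃ D : PolyDrawing 2 (graphOf m E), D.crossings.encard ≤ k := by
      rintro m rfl
      exact hD
    exact ⟨(List.replicate n (), E, k), rfl, key _ List.length_replicate⟩
  · rintro ⟨⟨l, E, k⟩, rfl, hD⟩
    have e : List.replicate l.length () = l :=
      ((List.eq_replicate_length (l := l) (a := ())).2 (fun _ _ => rfl)).symm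
    refine ⟨l.length, E, k, ?_, hD⟩
    rw [e]

attribute [irreducible] decI frm

/-- the reduction -/
noncomputable def red (w : List Bool) : List Bool :=
  if (enc (decI w) : List Bool) = w then enc (frm (decI w)).code else []

theorem poly_red : Poly red := by
  unfold red
  have h4 : Poly (fun w : List Bool => (enc (decI w) : List Bool)) := Poly.encode poly_decI
  have h6 : Poly (fun w : List Bool => (frm (decI w)).code) :=
    Poly.fCode (poly_frm.comp poly_decI)
  exact Poly.ite (PolyPred.eq h4 Poly.ident) (Poly.encode h6) (FP.Poly.const [])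

theorem red_correct (w : List Bool) : w ∈ CR 2 ↔ red w ∈ ETR := by
  rw [mem_CR_iff]
  constructor
  · rintro ⟨a, rfl, hD⟩
    rw [← frm_iff] at hD
    unfold red
    rw [decI_enc, if_pos rfl]
    exact ⟨_, rfl, hD⟩
  · rintro ⟨φ, h1, h2⟩
    unfold red at h1
    split_ifs at h1 with h
    · have h3 : φ.code = (frm (decI w)).code := Code.inj (α := List ℕ) h1
      have h4 := form_code_injective h3
      rw [h4, frm_iff] at h2
      exact ⟨decI w, h, h2⟩
    · exfalso
      have h3 : φ.code = [] := by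
        apply Code.inj (α := List ℕ)
        rw [h1]
        rfl
      exact form_code_ne φ h3

end Pool.Agent.CRt.Mem

namespace Pool.Agent.CRt

/-- `CR 2` is in the class. -/
theorem cr_le_etr : NPC.Reduces (CR 2) ETR := FP.reduces Mem.red Mem.poly_red Mem.red_correct

theorem cr_mem : CR 2 ∈ ExistsR := cr_le_etr

end Pool.Agent.CRt
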