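import Pool.Agent.CRt.Inter

/-!
# Normal form of the vector configurations of `PCH`
-/

set_option autoImplicit false
set_option maxHeartbeats 4000000

namespace Pool.Agent.CRt

open Filter Topology

/-- The functional `v ↦ ⟨w, v⟩`. -/
def dot3 (w v : V3) : ℝ := w.1 * v.1 + w.2.1 * v.2.1 + w.2.2 * v.2.2

theorem D3_mul (a b c u v w : V3) :
    D3 (dot3 a u, dot3 b u, dot3 c u) (dot3 a v, dot3 b v, dot3 c v)
      (dot3 a w, dot3 b w, dot3 c w) = D3 a b c * D3 u v w := by
  unfold D3 dot3
  ring

/-- The cross product. -/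
def cr3 (u v : V3) : V3 :=
  (u.2.1 * v.2.2 - u.2.2 * v.2.1, u.2.2 * v.1 - u.1 * v.2.2, u.1 * v.2.1 - u.2.1 * v.1)

theorem normal_form {n : ℕ} {T : List (ℕ × ℕ × ℕ)} (hT : TValid n T) (h : PCH n T) :
    ∃ x y : ℕ → ℝ, (∀ i j, i < j → j ≤ n → x i < x j) ∧
      (∀ j k, 0 < j → j < k → k ≤ n → 0 < D3 (1, x 0, y 0) (1, x j, y j) (1, x k, y k)) ∧
      ∀ c ∈ T, 0 < D3 (1, x c.1, y c.1) (1, x c.2.1, y c.2.1) (1, x c.2.2, y c.2.2) := by
  rcases Nat.lt_or_ge n 2 with hn | hn
  · refine ⟨fun i => (i : ℝ), fun _ => 0, ?_, ?_, ?_⟩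
    · intro i j hij _
      exact Nat.cast_lt.2 hij
    · intro j k h0 hjk hk
      omega
    · intro c hc
      obtain ⟨t1, t2, t3, t4, t5, t6, t7, t8, t9⟩ := hT c hc
      omega
  obtain ⟨v, hv, hvT⟩ := h
  set u : V3 := ((v n).1 - (v 1).1, (v n).2.1 - (v 1).2.1, (v n).2.2 - (v 1).2.2) with hu
  set W : ℝ → V3 := fun e => ((v 0).1 + e * u.1, (v 0).2.1 + e * u.2.1, (v 0).2.2 + e * u.2.2)
    with hW
  -- the choice of epsilon
  have hev : ∀ᶠ e in 𝓝[>] (0 : ℝ), ∀ i ∈ Finset.range (n + 1), ∀ j ∈ Finset.range (n + 1),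
      0 < i → i < j → 0 < D3 (W e) (v i) (v j) := by
    rw [Filter.eventually_all_finset]
    intro i hi
    rw [Filter.eventually_all_finset]
    intro j hj
    by_cases h0 : 0 < i
    · by_cases hij : i < j
      · have hc : Continuous fun e : ℝ => D3 (W e) (v i) (v j) := by
          simp only [hW]
          unfold D3
          fun_prop
        have h1 : 0 < D3 (W 0) (v i) (v j) := by
          have := hv i j h0 hij (by simpa [Nat.lt_succ_iff] using hj)
          have e : W 0 = v 0 := by simp [hW]
          rw [e]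
          exact this
        have := (hc.tendsto 0).eventually (lt_mem_nhds h1)
        filter_upwards [this.filter_mono nhdsWithin_le_nhds] with e he _ _
        exact he
      · exact Eventually.of_forall fun e _ h => absurd h hij
    · exact Eventually.of_forall fun e h => absurd h h0
  obtain ⟨e, he, he0⟩ := (hev.and self_mem_nhdsWithin).exists
  have he0 : 0 < e := he0
  set w : V3 := W e with hw
  have key : ∀ i j, i < j → j ≤ n → 0 < D3 w (v i) (v j) := by
    intro i j hij hj
    rcases Nat.eq_zero_or_pos i with rfl | hi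
    · have e1 : D3 w (v 0) (v j) = e * (D3 (v 0) (v j) (v n) + D3 (v 0) (v 1) (v j)) := by
        simp only [hw, hW, hu]
        unfold D3
        ring
      rw [e1]
      refine mul_pos he0 ?_
      rcases Nat.lt_or_ge j n with hjn | hjn
      · have h1 := hv j n hij hjn le_rfl
        rcases Nat.lt_or_ge 1 j with h1j | h1j
        · have := hv 1 j one_pos h1j hj
          linarith
        · have : j = 1 := by omega
          subst this
          have e2 : D3 (v 0) (v 1) (v 1) = 0 := by unfold D3; ring
          linarith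
      · have : j = n := by omega
        subst this
        have h1 := hv 1 j one_pos (by omega) le_rfl
        have e2 : D3 (v 0) (v j) (v j) = 0 := by unfold D3; ring
        linarith
    · exact he i (by simp; omega) j (by simp; omega) hi hij
  have h0n := key 0 n (by omega) le_rfl
  set lam : ℕ → ℝ := fun i => D3 w (v 0) (v i) + D3 w (v i) (v n) with hlam
  set mu : ℕ → ℝ := fun i => D3 w (v 0) (v i) with hmu
  have hlp : ∀ i ≤ n, 0 < lam i := by
    intro i hi
    simp only [hlam]
    rcases Nat.eq_zero_or_pos i with rfl | hi0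
    · have e2 : D3 w (v 0) (v 0) = 0 := by unfold D3; ring
      rw [e2, zero_add]
      exact h0n
    · have h1 := key 0 i hi0 hi
      rcases Nat.lt_or_ge i n with hin | hin
      · have := key i n hin le_rfl
        linarith
      · have : i = n := by omega
        subst this
        have e2 : D3 w (v i) (v i) = 0 := by unfold D3; ring
        linarith
  have hww : 0 < dot3 w w := by
    have : w ≠ 0 := by
      intro hw0
      rw [hw0] at h0n
      simp [D3] at h0n
    unfold dot3
    rcases eq_or_ne w.1 0 with h1 | h1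
    · rcases eq_or_ne w.2.1 0 with h2 | h2
      · have h3 : w.2.2 ≠ 0 := by
          intro h3
          exact this (Prod.ext h1 (Prod.ext h2 h3))
        nlinarith [mul_self_pos.2 h3, mul_self_nonneg w.1, mul_self_nonneg w.2.1]
      · nlinarith [mul_self_pos.2 h2, mul_self_nonneg w.1, mul_self_nonneg w.2.2]
    · nlinarith [mul_self_pos.2 h1, mul_self_nonneg w.2.1, mul_self_nonneg w.2.2]
  set La : V3 := ((cr3 w (v 0)).1 - (cr3 w (v n)).1, (cr3 w (v 0)).2.1 - (cr3 w (v n)).2.1,
    (cr3 w (v 0)).2.2 - (cr3 w (v n)).2.2) with hLa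
  have hl : ∀ i, lam i = dot3 La (v i) := by
    intro i
    simp only [hlam, hLa]
    unfold D3 dot3 cr3
    ring
  have hm : ∀ i, mu i = dot3 (cr3 w (v 0)) (v i) := by
    intro i
    simp only [hmu]
    unfold D3 dot3 cr3
    ring
  have hLL : D3 La (cr3 w (v 0)) w = D3 w (v 0) (v n) * dot3 w w := by
    simp only [hLa]
    unfold D3 dot3 cr3
    ring
  have hdet : ∀ i j k, i ≤ n → j ≤ n → k ≤ n → 0 < D3 (v i) (v j) (v k) →
      0 < D3 (1, mu i / lam i, dot3 w (v i) / lam i) (1, mu j / lam j, dot3 w (v j) / lam j)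
        (1, mu k / lam k, dot3 w (v k) / lam k) := by
    intro i j k hi hj hk hpos
    have li := hlp i hi
    have lj := hlp j hj
    have lk := hlp k hk
    have e1 : D3 (1, mu i / lam i, dot3 w (v i) / lam i) (1, mu j / lam j, dot3 w (v j) / lam j)
        (1, mu k / lam k, dot3 w (v k) / lam k) =
        D3 (lam i, mu i, dot3 w (v i)) (lam j, mu j, dot3 w (v j)) (lam k, mu k, dot3 w (v k)) /
          (lam i * lam j * lam k) := by
      unfold D3
      field_simp
    have e2 : D3 (lam i, mu i, dot3 w (v i)) (lam j, mu j, dot3 w (v j))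
        (lam k, mu k, dot3 w (v k)) = D3 w (v 0) (v n) * dot3 w w * D3 (v i) (v j) (v k) := by
      rw [hl i, hl j, hl k, hm i, hm j, hm k, D3_mul, hLL]
    rw [e1, e2]
    positivity
  refine ⟨fun i => mu i / lam i, fun i => dot3 w (v i) / lam i, ?_, ?_, ?_⟩
  · intro i j hij hj
    have li := hlp i (by omega)
    have lj := hlp j hj
    show mu i / lam i < mu j / lam j
    rw [div_lt_div_iff₀ li lj]
    have e1 : mu j * lam i - mu i * lam j = D3 w (v 0) (v n) * D3 w (v i) (v j) := by
      simp only [hlam, hmu]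
      unfold D3
      ring
    have := mul_pos h0n (key i j hij hj)
    linarith
  · intro j k h0 hjk hk
    exact hdet 0 j k (by omega) (by omega) hk (hv j k h0 hjk hk)
  · intro c hc
    obtain ⟨t1, t2, t3, t4, t5, t6, t7, t8, t9⟩ := hT c hc
    exact hdet _ _ _ t4 t5 t6 (hvT c hc)

end Pool.Agent.CRt
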