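import Pool.Agent.CRt.Arc

/-!
# From families of one-bend paths to vectors: the non-Pappus bundles kill the bends
-/

set_option autoImplicit false
set_option maxHeartbeats 4000000

namespace Pool.Agent.CRt

open Set

/-- The vector of the line through `p` with direction `d`. -/
def lvec (p d : Plane) : V3 := (-d.2, d.1, p.1 * d.2 - p.2 * d.1)

theorem D3_cyc (u v w : V3) : D3 v w u = D3 u v w := by
  unfold D3; ring

theorem D3_swap (u v w : V3) : D3 v u w = -D3 u v w := by
  unfold D3; ring

theorem D3_swap' (u v w : V3) : D3 u w v = -D3 u v w := by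
  unfold D3; ring

theorem det2_swap (u v : Plane) : det2 v u = -det2 u v := by
  unfold det2; ring

/-- The determinant of three lines in terms of the crossing parameters. -/
theorem D3_lvec {p d q e r f : Plane} {s s' t t' : ℝ} (h1 : p + s • d = q + s' • e)
    (h2 : p + t • d = r + t' • f) :
    D3 (lvec p d) (lvec q e) (lvec r f) = det2 d e * det2 d f * (t - s) := by
  have a1 := congrArg Prod.fst h1
  have a2 := congrArg Prod.snd h1
  have b1 := congrArg Prod.fst h2
  have b2 := congrArg Prod.snd h2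
  simp only [Prod.fst_add, Prod.snd_add, Prod.smul_fst, Prod.smul_snd, smul_eq_mul] at a1 a2 b1 b2
  have e1 : s * det2 d e = det2 (q - p) e := by
    unfold det2
    simp only [Prod.fst_sub, Prod.snd_sub]
    linear_combination e.2 * a1 - e.1 * a2
  have e2 : t * det2 d f = det2 (r - p) f := by
    unfold det2
    simp only [Prod.fst_sub, Prod.snd_sub]
    linear_combination f.2 * b1 - f.1 * b2
  have e3 : det2 d e * det2 d f * (t - s) = det2 d e * det2 (r - p) f - det2 d f * det2 (q - p) e := by
    rw [← e1, ← e2]; ring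
  rw [e3]
  unfold D3 lvec det2
  simp only [Prod.fst_sub, Prod.snd_sub]
  ring

/-- Signs in a triple of lines. -/
theorem tri_sign {p d q e r f : Plane} {s12 s21 s13 s31 s23 s32 : ℝ}
    (h12 : p + s12 • d = q + s21 • e) (h13 : p + s13 • d = r + s31 • f)
    (h23 : q + s23 • e = r + s32 • f) (n12 : det2 d e ≠ 0) (n13 : det2 d f ≠ 0)
    (n23 : det2 e f ≠ 0) (σ : Bool)
    (ho : if σ then s12 < s13 ∧ s21 < s23 ∧ s31 < s32 else s13 < s12 ∧ s23 < s21 ∧ s32 < s31) :
    0 < det2 d e * det2 d f ∧ 0 < det2 d e * det2 e f ∧ 0 < det2 d f * det2 e f ∧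
      if σ then 0 < D3 (lvec p d) (lvec q e) (lvec r f)
      else D3 (lvec p d) (lvec q e) (lvec r f) < 0 := by
  have k1 := D3_lvec h12 h13
  have k2 := D3_lvec h23 h12.symm
  have k3 := D3_lvec h13.symm h23.symm
  rw [D3_cyc] at k2
  rw [D3_cyc, D3_cyc] at k3
  rw [det2_swap d e] at k2
  rw [det2_swap d f, det2_swap e f] at k3
  generalize D3 (lvec p d) (lvec q e) (lvec r f) = X at *
  generalize det2 d e = A at *
  generalize det2 d f = B at *
  generalize det2 e f = C at *
  cases σ
  · simp only [Bool.false_eq_true, if_false] at ho ⊢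
    obtain ⟨o1, o2, o3⟩ := ho
    have x1 : X = A * B * (s13 - s12) := k1
    have x2 : X = A * C * (s23 - s21) := by rw [k2]; ring
    have x3 : X = B * C * (s32 - s31) := by rw [k3]; ring
    rcases lt_or_gt_of_ne n12 with hA | hA <;> rcases lt_or_gt_of_ne n13 with hB | hB <;>
      rcases lt_or_gt_of_ne n23 with hC | hC
    · have := mul_pos_of_neg_of_neg hA hB
      have := mul_pos_of_neg_of_neg hA hC
      have := mul_pos_of_neg_of_neg hB hC
      exact ⟨by assumption, by assumption, by assumption, by nlinarith⟩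
    · exfalso
      have := mul_pos_of_neg_of_neg hA hB
      have := mul_neg_of_neg_of_pos hA hC
      nlinarith
    · exfalso
      have := mul_neg_of_neg_of_pos hA hB
      have := mul_pos_of_neg_of_neg hA hC
      nlinarith
    · exfalso
      have := mul_neg_of_neg_of_pos hA hB
      have := mul_pos hB hC
      nlinarith
    · exfalso
      have := mul_neg_of_pos_of_neg hA hB
      have := mul_pos_of_neg_of_neg hB hC
      nlinarith
    · exfalso
      have := mul_neg_of_pos_of_neg hA hB
      have := mul_pos hA hC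
      nlinarith
    · exfalso
      have := mul_pos hA hB
      have := mul_neg_of_pos_of_neg hA hC
      nlinarith
    · have := mul_pos hA hB
      have := mul_pos hA hC
      have := mul_pos hB hC
      exact ⟨by assumption, by assumption, by assumption, by nlinarith⟩
  · simp only [if_true] at ho ⊢
    obtain ⟨o1, o2, o3⟩ := ho
    have x1 : X = A * B * (s13 - s12) := k1
    have x2 : X = A * C * (s23 - s21) := by rw [k2]; ring
    have x3 : X = B * C * (s32 - s31) := by rw [k3]; ring
    rcases lt_or_gt_of_ne n12 with hA | hA <;> rcases lt_or_gt_of_ne n13 with hB | hB <;>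
      rcases lt_or_gt_of_ne n23 with hC | hC
    · have := mul_pos_of_neg_of_neg hA hB
      have := mul_pos_of_neg_of_neg hA hC
      have := mul_pos_of_neg_of_neg hB hC
      exact ⟨by assumption, by assumption, by assumption, by nlinarith⟩
    · exfalso
      have := mul_pos_of_neg_of_neg hA hB
      have := mul_neg_of_neg_of_pos hA hC
      nlinarith
    · exfalso
      have := mul_neg_of_neg_of_pos hA hB
      have := mul_pos_of_neg_of_neg hA hC
      nlinarith
    · exfalso
      have := mul_neg_of_neg_of_pos hA hB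
      have := mul_pos hB hC
      nlinarith
    · exfalso
      have := mul_neg_of_pos_of_neg hA hB
      have := mul_pos_of_neg_of_neg hB hC
      nlinarith
    · exfalso
      have := mul_neg_of_pos_of_neg hA hB
      have := mul_pos hA hC
      nlinarith
    · exfalso
      have := mul_pos hA hB
      have := mul_neg_of_pos_of_neg hA hC
      nlinarith
    · have := mul_pos hA hB
      have := mul_pos hA hC
      have := mul_pos hB hC
      exact ⟨by assumption, by assumption, by assumption, by nlinarith⟩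

/-- Two segments with exactly one common point, interior to both, are not parallel. -/
theorem not_parallel {p d q e : Plane} {s t : ℝ} (h : p + s • d = q + t • e) {δ : ℝ} (hδ : 0 < δ)
    (hu : ∀ s' t', |s' - s| < δ → |t' - t| < δ → p + s' • d = q + t' • e → s' = s ∧ t' = t) :
    det2 d e ≠ 0 := by
  intro h0
  obtain ⟨α, β, hab, hne⟩ : ∃ α β : ℝ, α • d = β • e ∧ ¬ (α = 0 ∧ β = 0) := by
    by_cases hd1 : d.1 = 0
    · by_cases hd2 : d.2 = 0
      · refine ⟨1, 0, ?_, by simp⟩
        apply Prod.ext <;> simp [hd1, hd2]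
      · refine ⟨e.2, d.2, ?_, fun h => hd2 h.2⟩
        unfold det2 at h0
        rw [hd1] at h0
        have h1 : e.1 = 0 := by
          have : d.2 * e.1 = 0 := by linarith
          exact (mul_eq_zero.1 this).resolve_left hd2
        apply Prod.ext
        · simp [hd1, h1]
        · simp [mul_comm]
    · refine ⟨e.1, d.1, ?_, fun h => hd1 h.2⟩
      unfold det2 at h0
      apply Prod.ext
      · simp [mul_comm]
      · simp only [Prod.smul_snd, smul_eq_mul]
        linarith
  -- a small multiple
  set M : ℝ := |α| + |β| + 1 with hM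
  have hMpos : 0 < M := by positivity
  set ε : ℝ := δ / (2 * M) with hε
  have hεpos : 0 < ε := by positivity
  have hb : ∀ γ : ℝ, |γ| ≤ M → |ε * γ| < δ := by
    intro γ hγ
    rw [abs_mul, abs_of_pos hεpos, hε]
    calc δ / (2 * M) * |γ| ≤ δ / (2 * M) * M := by gcongr
      _ = δ / 2 := by field_simp
      _ < δ := by linarith
  have key := hu (s + ε * α) (t + ε * β)
    (by rw [add_sub_cancel_left]; exact hb α (by rw [hM]; have := abs_nonneg β; linarith))
    (by rw [add_sub_cancel_left]; exact hb β (by rw [hM]; have := abs_nonneg α; linarith))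
    (by
      rw [add_smul, add_smul, mul_smul, mul_smul, hab, ← add_assoc, ← add_assoc, h])
  apply hne
  constructor
  · have := key.1
    have h1 : ε * α = 0 := by linarith
    exact (mul_eq_zero.1 h1).resolve_left hεpos.ne'
  · have := key.2
    have h1 : ε * β = 0 := by linarith
    exact (mul_eq_zero.1 h1).resolve_left hεpos.ne'

/-- The non-Pappus pattern is not realizable. -/
theorem no_pappus (v : ℕ → V3) (w : V3)
    (h01 : 0 < D3 w (v 0) (v 1))
    (h0 : ∀ i, 2 ≤ i → i < 8 → 0 < D3 w (v 0) (v i))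
    (h1 : ∀ i, 2 ≤ i → i < 8 → 0 < D3 w (v 1) (v i))
    (h23 : 0 < D3 w (v 2) (v 3)) (h45 : 0 < D3 w (v 4) (v 5)) (h67 : 0 < D3 w (v 6) (v 7))
    (hq : ∀ i, 2 ≤ i → i < 8 → 0 < D3 (v 0) (v 1) (v i))
    (a1 : 0 < D3 (v 0) (v 3) (v 4)) (a2 : D3 (v 0) (v 2) (v 7) < 0)
    (a3 : 0 < D3 (v 0) (v 5) (v 6)) (a4 : 0 < D3 (v 1) (v 2) (v 5))
    (a5 : D3 (v 1) (v 3) (v 6) < 0) (a6 : 0 < D3 (v 1) (v 4) (v 7)) : False := by
  -- Grassmann-Plücker relations
  have g0 : ∀ i j, D3 (v 0) (v i) (v j) * D3 w (v 0) (v 1) =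
      D3 w (v 0) (v i) * D3 (v 0) (v 1) (v j) - D3 w (v 0) (v j) * D3 (v 0) (v 1) (v i) := by
    intro i j; unfold D3; ring
  have g1 : ∀ i j, D3 (v 1) (v i) (v j) * D3 w (v 0) (v 1) =
      D3 w (v 1) (v i) * D3 (v 0) (v 1) (v j) - D3 w (v 1) (v j) * D3 (v 0) (v 1) (v i) := by
    intro i j; unfold D3; ring
  have gw : ∀ i j, D3 w (v i) (v j) * D3 w (v 0) (v 1) =
      D3 w (v 0) (v i) * D3 w (v 1) (v j) - D3 w (v 0) (v j) * D3 w (v 1) (v i) := by
    intro i j; unfold D3; ring
  have q1 := g0 3 4
  have q2 := g0 2 7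
  have q3 := g0 5 6
  have q4 := g1 2 5
  have q5 := g1 3 6
  have q6 := g1 4 7
  have q7 := gw 2 3
  have q8 := gw 4 5
  have q9 := gw 6 7
  have m1 := mul_pos a1 h01
  have m2 := mul_neg_of_neg_of_pos a2 h01
  have m3 := mul_pos a3 h01
  have m4 := mul_pos a4 h01
  have m5 := mul_neg_of_neg_of_pos a5 h01
  have m6 := mul_pos a6 h01
  have m7 := mul_pos h23 h01
  have m8 := mul_pos h45 h01
  have m9 := mul_pos h67 h01
  rw [q1] at m1
  rw [q2] at m2
  rw [q3] at m3
  rw [q4] at m4
  rw [q5] at m5
  rw [q6] at m6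
  rw [q7] at m7
  rw [q8] at m8
  rw [q9] at m9
  have p2 := h0 2 (by norm_num) (by norm_num)
  have p3 := h0 3 (by norm_num) (by norm_num)
  have p4 := h0 4 (by norm_num) (by norm_num)
  have p5 := h0 5 (by norm_num) (by norm_num)
  have p6 := h0 6 (by norm_num) (by norm_num)
  have p7 := h0 7 (by norm_num) (by norm_num)
  have r2 := h1 2 (by norm_num) (by norm_num)
  have r3 := h1 3 (by norm_num) (by norm_num)
  have r4 := h1 4 (by norm_num) (by norm_num)
  have r5 := h1 5 (by norm_num) (by norm_num)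
  have r6 := h1 6 (by norm_num) (by norm_num)
  have r7 := h1 7 (by norm_num) (by norm_num)
  have s2 := hq 2 (by norm_num) (by norm_num)
  have s3 := hq 3 (by norm_num) (by norm_num)
  have s4 := hq 4 (by norm_num) (by norm_num)
  have s5 := hq 5 (by norm_num) (by norm_num)
  have s6 := hq 6 (by norm_num) (by norm_num)
  have s7 := hq 7 (by norm_num) (by norm_num)
  generalize D3 w (v 0) (v 2) = P2 at *
  generalize D3 w (v 0) (v 3) = P3 at *
  generalize D3 w (v 0) (v 4) = P4 at *
  generalize D3 w (v 0) (v 5) = P5 at *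
  generalize D3 w (v 0) (v 6) = P6 at *
  generalize D3 w (v 0) (v 7) = P7 at *
  generalize D3 w (v 1) (v 2) = R2 at *
  generalize D3 w (v 1) (v 3) = R3 at *
  generalize D3 w (v 1) (v 4) = R4 at *
  generalize D3 w (v 1) (v 5) = R5 at *
  generalize D3 w (v 1) (v 6) = R6 at *
  generalize D3 w (v 1) (v 7) = R7 at *
  generalize D3 (v 0) (v 1) (v 2) = S2 at *
  generalize D3 (v 0) (v 1) (v 3) = S3 at *
  generalize D3 (v 0) (v 1) (v 4) = S4 at *
  generalize D3 (v 0) (v 1) (v 5) = S5 at *
  generalize D3 (v 0) (v 1) (v 6) = S6 at *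
  generalize D3 (v 0) (v 1) (v 7) = S7 at *
  have mm : ∀ {a b c d : ℝ}, 0 < a → 0 < c → a < b → c < d → 0 < a * c ∧ a * c < b * d :=
    fun ha hc hab hcd => ⟨mul_pos ha hc, mul_lt_mul'' hab hcd ha.le hc.le⟩
  have i1 : P4 * S3 < P3 * S4 := by linarith
  have i2 : P2 * S7 < P7 * S2 := by linarith
  have i3 : P6 * S5 < P5 * S6 := by linarith
  have i4 : R5 * S2 < R2 * S5 := by linarith
  have i5 : R3 * S6 < R6 * S3 := by linarith
  have i6 : R7 * S4 < R4 * S7 := by linarith
  have i7 : P3 * R2 < P2 * R3 := by linarith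
  have i8 : P5 * R4 < P4 * R5 := by linarith
  have i9 : P7 * R6 < P6 * R7 := by linarith
  have c1 := mm (mul_pos p4 s3) (mul_pos p2 s7) i1 i2
  have c2 := mm c1.1 (mul_pos p6 s5) c1.2 i3
  have c3 := mm c2.1 (mul_pos r5 s2) c2.2 i4
  have c4 := mm c3.1 (mul_pos r3 s6) c3.2 i5
  have c5 := mm c4.1 (mul_pos r7 s4) c4.2 i6
  have c6 := mm c5.1 (mul_pos p3 r2) c5.2 i7
  have c7 := mm c6.1 (mul_pos p5 r4) c6.2 i8
  have c8 := mm c7.1 (mul_pos p7 r6) c7.2 i9
  have := c8.2
  apply absurd this
  rw [not_lt]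
  apply le_of_eq
  ring

end Pool.Agent.CRt
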