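import Pool.Agent.CRt.GraphLem

/-!
# Uncrossed skeletons
-/

set_option autoImplicit false

namespace Pool.Agent.CRt

open Set

variable {N : ℕ} {T : List STriple}

/-- The edge is not crossed. -/
def LDraw.Uncrossed {Es : List (Vx × Vx)} (D : LDraw Es) (d : Vx × Vx) : Prop :=
  ∀ d' ∈ Es, d ≠ d' → ∀ z ∈ D.S d ∩ D.S d', CommonEnd D.pos d d' z

/-- If there are at most `k` crossings, then in every connection there is a path without
crossings. -/
theorem exists_uncrossed (D : LDraw (gEdges N T)) (h : D.crossings.encard ≤ kk N T)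
    {q : ℕ × ℕ × Vx × Vx} (hq : q ∈ conns N) :
    ∃ i < KK N T, ∀ d ∈ connEdges q i, D.Uncrossed d := by
  classical
  by_contra hcon
  push Not at hcon
  have hfin : D.crossings.Finite := Set.finite_of_encard_le_coe h
  have hcard : hfin.toFinset.card ≤ kk N T := by
    have := h
    rw [hfin.encard_eq_coe_toFinset_card] at this
    exact_mod_cast this
  -- the crossing of the i-th path
  have hch : ∀ i, ∃ x : Sym2 (Vx × Vx) × Plane, ∃ d, i < KK N T → x ∈ D.crossings ∧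
      d ∈ connEdges q i ∧ d ∈ x.1 := by
    intro i
    by_cases hi : i < KK N T
    · obtain ⟨d, hd, hun⟩ := hcon i hi
      unfold LDraw.Uncrossed at hun
      push Not at hun
      obtain ⟨d', hd', hne, z, hz, hc⟩ := hun
      refine ⟨(s(d, d'), z), d, fun _ => ⟨?_, hd, by simp⟩⟩
      exact ⟨d, mem_gEdges.2 (Or.inr ⟨q, hq, i, hi, hd⟩), d', hd', hne, rfl, hz, hc⟩
    · exact ⟨(s((lv 0, lv 0), (lv 0, lv 0)), (0, 0)), (lv 0, lv 0), fun h => absurd h hi⟩
  choose x dd hx using hch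
  have hle := Finset.card_le_mul_card_image_of_maps_to (s := Finset.range (KK N T))
    (t := hfin.toFinset) (f := x) (fun i hi => by
      rw [Set.Finite.mem_toFinset]
      exact (hx i (Finset.mem_range.1 hi)).1) 2 ?_
  · rw [Finset.card_range] at hle
    unfold KK at hle
    omega
  · rintro ⟨e, z⟩ hb
    induction e using Sym2.ind with
    | _ a b =>
      have hsub : ∀ i ∈ (Finset.range (KK N T)).filter (fun i => x i = (s(a, b), z)),
          dd i ∈ ({a, b} : Finset (Vx × Vx)) := by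
        intro i hi
        rw [Finset.mem_filter, Finset.mem_range] at hi
        have h1 := (hx i hi.1).2.2
        rw [hi.2] at h1
        simpa using h1
      have hinj : Set.InjOn dd ((Finset.range (KK N T)).filter (fun i => x i = (s(a, b), z))) := by
        intro i hi j hj hij
        rw [Finset.mem_coe, Finset.mem_filter, Finset.mem_range] at hi hj
        have h1 := (hx i hi.1).2.1
        have h2 := (hx j hj.1).2.1
        rw [hij] at h1
        exact (connEdges_inj hq hq h1 h2).2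
      exact (Finset.card_le_card_of_injOn dd hsub hinj).trans Finset.card_le_two

/-- A chosen uncrossed path of a connection. -/
structure Skel (D : LDraw (gEdges N T)) where
  Sg : (ℕ × ℕ × Vx × Vx) → Set Plane
  conn : ∀ q ∈ conns N, JoinedIn (Sg q) (D.pos q.2.2.1) (D.pos q.2.2.2)
  inter : ∀ q ∈ conns N, ∀ q' ∈ conns N, q ≠ q' → ∀ z ∈ Sg q ∩ Sg q',
    ∃ v, EndOf v q.2.2 ∧ EndOf v q'.2.2 ∧ z = D.pos v
  curve : ∀ q ∈ conns N, ∀ c ∈ curves N T, ∀ d ∈ curveEdges N c, ∀ z ∈ Sg q ∩ D.S d,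
    ∃ v, EndOf v q.2.2 ∧ EndOf v d ∧ z = D.pos v

theorem exists_skel (D : LDraw (gEdges N T)) (h : D.crossings.encard ≤ kk N T) :
    Nonempty (Skel D) := by
  classical
  have hch : ∀ q : ℕ × ℕ × Vx × Vx, ∃ i, q ∈ conns N → i < KK N T ∧
      ∀ d ∈ connEdges q i, D.Uncrossed d := by
    intro q
    by_cases hq : q ∈ conns N
    · obtain ⟨i, hi, h'⟩ := exists_uncrossed D h hq
      exact ⟨i, fun _ => ⟨hi, h'⟩⟩
    · exact ⟨0, fun h => absurd h hq⟩
  choose ι hι using hch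
  let d1 : (ℕ × ℕ × Vx × Vx) → Vx × Vx := fun q => (q.2.2.1, (q.1, q.2.1, ι q))
  let d2 : (ℕ × ℕ × Vx × Vx) → Vx × Vx := fun q => ((q.1, q.2.1, ι q), q.2.2.2)
  have hm1 : ∀ q, d1 q ∈ connEdges q (ι q) := fun q => mem_connEdges.2 (Or.inl rfl)
  have hm2 : ∀ q, d2 q ∈ connEdges q (ι q) := fun q => mem_connEdges.2 (Or.inr rfl)
  have hE : ∀ q ∈ conns N, ∀ d ∈ connEdges q (ι q), d ∈ gEdges N T := fun q hq d hd =>
    mem_gEdges.2 (Or.inr ⟨q, hq, ι q, (hι q hq).1, hd⟩)
  -- the end of an edge of a path which is not the middle vertex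
  have hends : ∀ q d, d ∈ connEdges q (ι q) → ∀ v, EndOf v d → v = (q.1, q.2.1, ι q) ∨
      EndOf v q.2.2 := by
    intro q d hd v hv
    rcases mem_connEdges.1 hd with rfl | rfl <;> rcases hv with rfl | rfl
    · exact Or.inr (Or.inl rfl)
    · exact Or.inl rfl
    · exact Or.inl rfl
    · exact Or.inr (Or.inr rfl)
  refine ⟨⟨fun q => D.S (d1 q) ∪ D.S (d2 q), ?_, ?_, ?_⟩⟩
  · intro q hq
    exact ((D.joined (d1 q)).mono subset_union_left).trans
      ((D.joined (d2 q)).mono subset_union_right)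
  · intro q hq q' hq' hne z hz
    obtain ⟨d, hd, hzd⟩ : ∃ d ∈ connEdges q (ι q), z ∈ D.S d := by
      rcases hz.1 with h | h
      · exact ⟨_, hm1 q, h⟩
      · exact ⟨_, hm2 q, h⟩
    obtain ⟨d', hd', hzd'⟩ : ∃ d ∈ connEdges q' (ι q'), z ∈ D.S d := by
      rcases hz.2 with h | h
      · exact ⟨_, hm1 q', h⟩
      · exact ⟨_, hm2 q', h⟩
    have hdd : d ≠ d' := by
      rintro rfl
      exact hne (connEdges_inj hq hq' hd hd').1
    obtain ⟨v, h1, h2, h3⟩ := (hι q hq).2 d hd d' (hE q' hq' d' hd') hdd z ⟨hzd, hzd'⟩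
    have e1 := conn_ends hq
    have e2 := conn_ends hq'
    have k1 := conn_kind hq
    have k2 := conn_kind hq'
    rcases hends q d hd v h1 with rfl | h1'
    · rcases hends q' d' hd' _ h2 with h2' | h2'
      · simp only [Prod.mk.injEq] at h2'
        exact absurd (conn_ext hq hq' h2'.1 h2'.2.1) hne
      · rcases h2' with h2' | h2'
        · rw [← h2'] at e2
          simp only at e2
          omega
        · rw [← h2'] at e2
          simp only at e2
          omega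
    · rcases hends q' d' hd' _ h2 with h2' | h2'
      · rcases h1' with h1' | h1'
        · rw [← h1', h2'] at e1
          simp only at e1
          omega
        · rw [← h1', h2'] at e1
          simp only at e1
          omega
      · exact ⟨v, h1', h2', h3⟩
  · intro q hq c hc d hd z hz
    obtain ⟨d', hd', hzd'⟩ : ∃ d ∈ connEdges q (ι q), z ∈ D.S d := by
      rcases hz.1 with h | h
      · exact ⟨_, hm1 q, h⟩
      · exact ⟨_, hm2 q, h⟩
    have hdd : d' ≠ d := by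
      rintro rfl
      exact connEdges_not_curve hq hd' hd
    obtain ⟨v, h1, h2, h3⟩ := (hι q hq).2 d' hd' d
      (mem_gEdges.2 (Or.inl ⟨c, hc, hd⟩)) hdd z ⟨hzd', hz.2⟩
    rcases hends q d' hd' v h1 with rfl | h1'
    · have t1 := curveEdges_tag hd
      have k1 := conn_kind hq
      rcases h2 with h2 | h2
      · rw [← h2] at t1
        simp only at t1
        omega
      · rw [← h2] at t1
        simp only at t1
        omega
    · exact ⟨v, h1', h2, h3⟩

/-! ### The points of the vertices -/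

theorem inc_lv (D : LDraw (gEdges N T)) {p : ℕ} (hp : p < 3 * N + 2) :
    ∃ d ∈ gEdges N T, EndOf (lv p) d :=
  ⟨_, mem_gEdges.2 (Or.inr ⟨(6, p, hub 0, lv p), mem_conns.2 (by simp [hp]), 0,
    by unfold KK; omega, mem_connEdges.2 (Or.inr rfl)⟩), Or.inr rfl⟩

theorem inc_rv (D : LDraw (gEdges N T)) {p : ℕ} (hp : p < 3 * N + 2) :
    ∃ d ∈ gEdges N T, EndOf (rv p) d :=
  ⟨_, mem_gEdges.2 (Or.inr ⟨(7, p, hub 1, rv p), mem_conns.2 (by simp [hp]), 0,
    by unfold KK; omega, mem_connEdges.2 (Or.inr rfl)⟩), Or.inr rfl⟩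

theorem inc_hub0 (D : LDraw (gEdges N T)) : ∃ d ∈ gEdges N T, EndOf (hub 0) d :=
  ⟨_, mem_gEdges.2 (Or.inr ⟨(10, 0, hub 0, hub 1), mem_conns.2 (by simp), 0,
    by unfold KK; omega, mem_connEdges.2 (Or.inl rfl)⟩), Or.inl rfl⟩

theorem inc_hub1 (D : LDraw (gEdges N T)) : ∃ d ∈ gEdges N T, EndOf (hub 1) d :=
  ⟨_, mem_gEdges.2 (Or.inr ⟨(10, 0, hub 0, hub 1), mem_conns.2 (by simp), 0,
    by unfold KK; omega, mem_connEdges.2 (Or.inr rfl)⟩), Or.inr rfl⟩

/-- a vertex of the skeleton -/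
def IsSk (N : ℕ) (v : Vx) : Prop :=
  (∃ p < 3 * N + 2, v = lv p) ∨ (∃ p < 3 * N + 2, v = rv p) ∨ v = hub 0 ∨ v = hub 1

theorem inc_sk (D : LDraw (gEdges N T)) {v : Vx} (hv : IsSk N v) :
    ∃ d ∈ gEdges N T, EndOf v d := by
  rcases hv with ⟨p, hp, rfl⟩ | ⟨p, hp, rfl⟩ | rfl | rfl
  · exact inc_lv D hp
  · exact inc_rv D hp
  · exact inc_hub0 D
  · exact inc_hub1 D

theorem pos_inj_sk (D : LDraw (gEdges N T)) {u v : Vx} (hu : IsSk N u) (hv : IsSk N v)
    (h : D.pos u = D.pos v) : u = v := by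
  obtain ⟨du, hdu, h1⟩ := inc_sk D hu
  obtain ⟨dv, hdv, h2⟩ := inc_sk D hv
  exact D.pos_inj hdu hdv h1 h2 h

theorem conn_sk {q : ℕ × ℕ × Vx × Vx} (hq : q ∈ conns N) {v : Vx} (hv : EndOf v q.2.2) :
    IsSk N v := by
  rcases mem_conns.1 hq with ⟨p, hp, rfl⟩ | ⟨p, hp, rfl⟩ | ⟨p, hp, rfl⟩ | ⟨p, hp, rfl⟩ | rfl |
    rfl | rfl <;> rcases hv with rfl | rfl <;> simp only [IsSk]
  · exact Or.inl ⟨p, by omega, rfl⟩
  · exact Or.inl ⟨p + 1, by omega, rfl⟩
  · exact Or.inr (Or.inl ⟨p, by omega, rfl⟩)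
  · exact Or.inr (Or.inl ⟨p + 1, by omega, rfl⟩)
  · simp
  · exact Or.inl ⟨p, by omega, rfl⟩
  · simp
  · exact Or.inr (Or.inl ⟨p, by omega, rfl⟩)
  · exact Or.inl ⟨0, by omega, rfl⟩
  · exact Or.inr (Or.inl ⟨0, by omega, rfl⟩)
  · exact Or.inl ⟨_, by omega, rfl⟩
  · exact Or.inr (Or.inl ⟨_, by omega, rfl⟩)
  · simp
  · simp

/-- Disjointness of two chosen paths without common endpoints. -/
theorem Skel.disj {D : LDraw (gEdges N T)} (K : Skel D) {q q' : ℕ × ℕ × Vx × Vx}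
    (hq : q ∈ conns N) (hq' : q' ∈ conns N) (h : ∀ v, EndOf v q.2.2 → ¬ EndOf v q'.2.2) :
    Disjoint (K.Sg q) (K.Sg q') := by
  rw [Set.disjoint_left]
  intro z hz hz'
  have hne : q ≠ q' := by
    rintro rfl
    exact h _ (Or.inl rfl) (Or.inl rfl)
  obtain ⟨v, h1, h2, -⟩ := K.inter q hq q' hq' hne z ⟨hz, hz'⟩
  exact h v h1 h2

/-- A set meeting the skeleton only in given vertex points. -/
def Skel.Avoids {D : LDraw (gEdges N T)} (K : Skel D) (A : Set Plane) (V : Set Vx) : Prop :=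
  ∀ q ∈ conns N, ∀ z ∈ K.Sg q ∩ A, ∃ v ∈ V, EndOf v q.2.2 ∧ z = D.pos v

theorem Skel.Avoids.disj {D : LDraw (gEdges N T)} {K : Skel D} {A : Set Plane} {V : Set Vx}
    (h : K.Avoids A V) {q : ℕ × ℕ × Vx × Vx} (hq : q ∈ conns N)
    (hV : ∀ v ∈ V, ¬ EndOf v q.2.2) : Disjoint A (K.Sg q) := by
  rw [Set.disjoint_left]
  intro z hz hz'
  obtain ⟨v, h1, h2, -⟩ := h q hq z ⟨hz', hz⟩
  exact hV v h1 h2

end Pool.Agent.CRt
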