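import Pool.Agent.CRt.Arith
import Pool.Agent.PolyTime.Tags

/-!
# Straight-line programs for systems of gates (module M10)
-/

set_option autoImplicit false

namespace Pool.Agent.CRt

open FP

/-! ## The program -/

def pG (G : List Gate) : ℕ := pp (3 * G.length) G.length
def qG (G : List Gate) : ℕ := qq (3 * G.length) G.length

/-- The register of the variable `u i`. -/
def ureg (p i : ℕ) : ℕ := if i = 0 then 3 * p + 3 else 3 * i + 2

/-- The operands of the blocks of a gate; the piece has the base `D`. -/
def gateOp (p q D : ℕ) (g : Gate) (o : ℕ) : ℕ × ℕ :=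
  if g.1 then
    if o = 0 then (ureg p g.2.1, ureg p g.2.2.1)
    else if o = 1 then (3 * q + 7, ureg p g.2.2.2)
    else if o = 4 then (D + 15, D + 18)
    else if o = 5 then (D + 28, D + 28)
    else (0, 0)
  else
    if o = 0 then (3 * p + 3, ureg p g.2.1)
    else if o = 1 then (3 * p + 3, ureg p g.2.2.2)
    else if o = 2 then (3 * q + 7, ureg p g.2.2.1)
    else if o = 3 then (D + 18, D + 21)
    else if o = 4 then (D + 15, D + 25)
    else if o = 5 then (D + 28, D + 28)
    else (0, 0)

/-- The operands of the blocks of a sixth power. -/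
def powOp (p q D i o : ℕ) : ℕ × ℕ :=
  if o = 0 then (ureg p i, ureg p i)
  else if o = 1 then (D + 15, D + 15)
  else if o = 2 then (D + 15, D + 18)
  else if o = 5 then (3 * q + 3, D + 21)
  else (0, 0)

/-- The operands of the blocks of the last term. -/
def lastOp (p q D o : ℕ) : ℕ × ℕ :=
  if o = 0 then (3 * p + 3, 3 * p + 3)
  else if o = 1 then (D + 15, D + 15)
  else if o = 2 then (D + 18, 3 * p + 3)
  else if o = 3 then (0, 3 * q + 3)
  else if o = 5 then (D + 25, D + 21)
  else (0, 0)

/-- The last three blocks of every piece. -/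
def tailOp (D o : ℕ) : ℕ × ℕ :=
  if o = 6 then (D + 30, D + 13) else if o = 7 then (D + 10, D + 33) else (D + 13, 0)

def pieceOp (G : List Gate) (c o : ℕ) : ℕ × ℕ :=
  if 6 ≤ o then tailOp (3 * qG G + 27 * c) o
  else if c < G.length then
    gateOp (pG G) (qG G) (3 * qG G + 27 * c) (G.getD c (true, 0, 0, 0)) o
  else if c < 4 * G.length then
    powOp (pG G) (qG G) (3 * qG G + 27 * c) (c - G.length + 1) o
  else lastOp (pG G) (qG G) (3 * qG G + 27 * c) o

/-- The operands of the block `t`. -/
def blk (G : List Gate) (t : ℕ) : ℕ × ℕ :=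
  if t = 0 then (1, 1)
  else if t ≤ qG G then (3 * t, 3 * t)
  else if t = qG G + 1 then (3 * pG G + 3, 0)
  else if t = qG G + 2 then (0, 0)
  else if t = qG G + 3 then (3 * qG G + 3, 3 * qG G + 3)
  else if t = qG G + 4 + 9 * (4 * G.length + 1) then
    (0, 3 * qG G + 27 * (4 * G.length + 1) + 10)
  else pieceOp G ((t - (qG G + 4)) / 9) ((t - (qG G + 4)) % 9)

def nblk (G : List Gate) : ℕ := qG G + 5 + 9 * (4 * G.length + 1)

/-- The program. -/
def slpOf (G : List Gate) : List (ℕ × ℕ) × ℕ :=
  ((List.range (nblk G)).map (blk G), 3 * nblk G + 1)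

section
variable {α : Type} [Code α] {p q D o i c : α → ℕ} {g : α → Gate} {G : α → List Gate}

theorem poly_ureg (hp : Poly p) (hi : Poly i) : Poly (fun a => ureg (p a) (i a)) := by
  unfold ureg
  fun_prop

attribute [local fun_prop] poly_ureg

theorem poly_gateOp (hp : Poly p) (hq : Poly q) (hD : Poly D) (hg : Poly g) (ho : Poly o) :
    Poly (fun a => gateOp (p a) (q a) (D a) (g a) (o a)) := by
  unfold gateOp
  fun_prop

theorem poly_powOp (hp : Poly p) (hq : Poly q) (hD : Poly D) (hi : Poly i) (ho : Poly o) :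
    Poly (fun a => powOp (p a) (q a) (D a) (i a) (o a)) := by
  unfold powOp
  fun_prop

theorem poly_lastOp (hp : Poly p) (hq : Poly q) (hD : Poly D) (ho : Poly o) :
    Poly (fun a => lastOp (p a) (q a) (D a) (o a)) := by
  unfold lastOp
  fun_prop

theorem poly_tailOp (hD : Poly D) (ho : Poly o) : Poly (fun a => tailOp (D a) (o a)) := by
  unfold tailOp
  fun_prop

theorem poly_pG (hG : Poly G) : Poly (fun a => pG (G a)) := by
  unfold pG pp
  fun_prop

theorem poly_qG (hG : Poly G) : Poly (fun a => qG (G a)) := by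
  unfold qG qq
  fun_prop

attribute [local fun_prop] poly_gateOp poly_powOp poly_lastOp poly_tailOp poly_pG poly_qG

theorem poly_pieceOp (hG : Poly G) (hc : Poly c) (ho : Poly o) :
    Poly (fun a => pieceOp (G a) (c a) (o a)) := by
  unfold pieceOp
  fun_prop

attribute [local fun_prop] poly_pieceOp

theorem poly_blk (hG : Poly G) (hc : Poly c) : Poly (fun a => blk (G a) (c a)) := by
  unfold blk
  fun_prop

attribute [local fun_prop] poly_blk

end

theorem poly_slpOf : Poly slpOf := by
  have h : FP.Poly nblk := by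
    unfold nblk
    have := poly_qG (FP.Poly.ident (α := List Gate))
    fun_prop
  have hb : PolyBdd nblk := by
    refine PolyBdd.mono (g := fun G => 61 * G.length + 34) ?_ (fun G => ?_)
    · exact PolyBdd.add (PolyBdd.mul (PolyBdd.const 61) (PolyBdd.length FP.Poly.ident))
        (PolyBdd.const 34)
    · unfold nblk qG qq
      omega
  unfold slpOf
  exact FP.Poly.pair (FP.Poly.map (FP.Poly.range h hb) (poly_blk (FP.Poly.fst FP.Poly.ident)
    (FP.Poly.snd FP.Poly.ident))) (by fun_prop)

end Pool.Agent.CRt
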