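import Pool.Agent.CRt.Count
import Pool.Agent.CRt.Arc

/-!
# The star lemma
-/

set_option autoImplicit false
set_option maxHeartbeats 4000000

namespace Pool.Agent.CRt

open Set

variable {N : ℕ} {T : List STriple} {D : LDraw (gEdges N T)}

/-- The height of a column vertex (upside down for `b = false`). -/
def ht (b : Bool) (x : ℕ) : ℤ := if b then -(x : ℤ) else x

theorem Ab_iff (b : Bool) (x y : ℕ) : Ab b x y ↔ ht b y < ht b x := by
  cases b <;> simp [Ab, ht]

theorem ht_inj {b : Bool} {x y : ℕ} : ht b x = ht b y ↔ x = y := by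
  cases b <;> simp [ht]
theorem lv_inj {b : Bool} {x y : ℕ} : lv x = lv y ↔ ht b x = ht b y := by
  rw [ht_inj]
  simp [lv]
theorem rv_inj {b : Bool} {x y : ℕ} : rv x = rv y ↔ ht b x = ht b y := by
  rw [ht_inj]
  simp [rv]
theorem lv_ne_rv {a b : ℕ} : ¬ lv a = rv b := by simp [lv, rv]
theorem rv_ne_lv {a b : ℕ} : ¬ rv a = lv b := by simp [lv, rv]
theorem hub_ne_lv {a b : ℕ} : ¬ hub a = lv b := by simp [lv, hub]
theorem hub_ne_rv {a b : ℕ} : ¬ hub a = rv b := by simp [rv, hub]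

/-- The configuration of a star: three chords `P 0, P 1, P 2` and a star with left arms `L i` and
right arms `R i`. -/
structure StarHyp (K : Skel D) (b : Bool) (P : Fin 3 → Fin 3 → Plane) (L R : Fin 3 → Set Plane)
    (pt : Plane) (lc rc ls rs : Fin 3 → ℕ) (τ : Fin 3 → Fin 3 → ℝ) : Prop where
  bd : ∀ i, lc i < 3 * N + 2 ∧ rc i < 3 * N + 2 ∧ ls i < 3 * N + 2 ∧ rs i < 3 * N + 2
  poly : ∀ i, IsPolyPath (P i)
  ends : ∀ i, P i 0 = D.pos (lv (lc i)) ∧ P i 2 = D.pos (rv (rc i))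
  avC : ∀ i, K.Avoids (pathSet (P i)) {lv (lc i), rv (rc i)}
  avL : ∀ i, K.Avoids (L i) {lv (ls i)}
  avR : ∀ i, K.Avoids (R i) {rv (rs i)}
  jL : ∀ i, JoinedIn (L i) (D.pos (lv (ls i))) pt
  jR : ∀ i, JoinedIn (R i) pt (D.pos (rv (rs i)))
  jLp : ∀ i, ∀ z ∈ L i, JoinedIn (L i) z pt
  jRp : ∀ i, ∀ z ∈ R i, JoinedIn (R i) pt z
  subL : ∀ i, ∀ z ∈ L i, z ≠ pt → ∃ A ⊆ L i, JoinedIn A (D.pos (lv (ls i))) z ∧ pt ∉ A
  subR : ∀ i, ∀ z ∈ R i, z ≠ pt → ∃ A ⊆ R i, JoinedIn A z (D.pos (rv (rs i))) ∧ pt ∉ A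
  disL : ∀ i, Disjoint (pathSet (P i)) (L i)
  disR : ∀ i, Disjoint (pathSet (P i)) (R i)
  meet : ∀ i j, i ≠ j → ∃ z, z ∈ pathSet (P j) ∧ (z ∈ L i ∨ z ∈ R i)
  meet1 : ∀ i j, i ≠ j → ∀ z w, z ∈ pathSet (P j) → (z ∈ L i ∨ z ∈ R i) →
    w ∈ pathSet (P j) → (w ∈ L i ∨ w ∈ R i) → z = w
  LR : ∀ i j, ∀ z ∈ L i, z ∈ R j → z = pt
  LL : ∀ i j, i ≠ j → ∀ z ∈ L i, z ∈ L j → z = pt
  RR : ∀ i j, i ≠ j → ∀ z ∈ R i, z ∈ R j → z = pt
  npt : ∀ i, pt ∉ pathSet (P i)
  τ0 : ∀ i j, i ≠ j → 0 ≤ τ i j ∧ τ i j ≤ 2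
  τeq : ∀ i j, i ≠ j → chordPt (P i) (τ i j) = chordPt (P j) (τ j i)
  τ1 : ∀ i j, i ≠ j → ∀ s, 0 ≤ s → s ≤ 2 → chordPt (P i) s ∈ pathSet (P j) → s = τ i j
  ol : ht b (lc 0) < ht b (ls 0) ∧ ht b (lc 1) < ht b (lc 0) ∧ ht b (ls 1) < ht b (lc 1) ∧
    ht b (ls 2) < ht b (ls 1) ∧ ht b (lc 2) < ht b (ls 2)
  or : ht b (rc 2) < ht b (rs 2) ∧ ht b (rc 1) < ht b (rc 2) ∧ ht b (rs 1) < ht b (rc 1) ∧
    ht b (rs 0) < ht b (rs 1) ∧ ht b (rc 0) < ht b (rs 0)

theorem star_core {K : Skel D} {b : Bool} {P : Fin 3 → Fin 3 → Plane} {L R : Fin 3 → Set Plane}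
    {pt : Plane} {lc rc ls rs : Fin 3 → ℕ} {τ : Fin 3 → Fin 3 → ℝ}
    (H : StarHyp K b P L R pt lc rc ls rs τ) :
    τ 0 1 < τ 0 2 ∧ τ 1 0 < τ 1 2 ∧ τ 2 0 < τ 2 1 := by
  obtain ⟨ol1, ol2, ol3, ol4, ol5⟩ := H.ol
  obtain ⟨or1, or2, or3, or4, or5⟩ := H.or
  -- the alternation principle
  have alt : ∀ {A B : Set Plane} {V W : Set Vx} {p₁ q₁ p₂ q₂ : ℕ},
      JoinedIn A (D.pos (lv p₁)) (D.pos (rv q₁)) → JoinedIn B (D.pos (lv p₂)) (D.pos (rv q₂)) →
      K.Avoids A V → K.Avoids B W → Disjoint A B → NoV V p₂ q₂ → NoV W p₁ q₁ →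
      ht b p₂ < ht b p₁ → p₁ < 3 * N + 2 → p₂ < 3 * N + 2 → q₁ < 3 * N + 2 → q₂ < 3 * N + 2 →
      ht b q₂ < ht b q₁ := by
    intro A B V W p₁ q₁ p₂ q₂ hA hB aA aB hAB nV nW hp b1 b2 b3 b4
    exact (Ab_iff b q₁ q₂).1 (K.altb b ((Ab_iff b p₁ p₂).2 hp) b1 b2 b3 b4 hA hB hAB aA nV aB nW)
  -- joining pieces
  have un : ∀ {A B : Set Plane} {V W : Set Vx}, K.Avoids A V → K.Avoids B W →
      K.Avoids (A ∪ B) (V ∪ W) := fun h h' => K.avoids_union h h'
  have tr : ∀ {A B : Set Plane} {x y z : Plane}, JoinedIn A x y → JoinedIn B y z →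
      JoinedIn (A ∪ B) x z := fun h h' =>
    (h.mono subset_union_left).trans (h'.mono subset_union_right)
  have jc : ∀ i, JoinedIn (pathSet (P i)) (D.pos (lv (lc i))) (D.pos (rv (rc i))) := by
    intro i
    have := joined_arc (P i) (a := 0) (b := 2) (by norm_num)
    rw [chordPt_zero, chordPt_two, (H.ends i).1, (H.ends i).2] at this
    exact this.mono (arc_sub le_rfl le_rfl)
  have ja0 : ∀ i t, 0 ≤ t → JoinedIn (arc (P i) 0 t) (D.pos (lv (lc i))) (chordPt (P i) t) := by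
    intro i t ht
    have := joined_arc (P i) ht
    rwa [chordPt_zero, (H.ends i).1] at this
  have ja1 : ∀ i t, t ≤ 2 → JoinedIn (arc (P i) t 2) (chordPt (P i) t) (D.pos (rv (rc i))) := by
    intro i t ht
    have := joined_arc (P i) ht
    rwa [chordPt_two, (H.ends i).2] at this
  have av0 : ∀ i t, 0 ≤ t → t ≤ 2 → K.Avoids (arc (P i) 0 t) {lv (lc i), rv (rc i)} :=
    fun i t _ h => Skel.avoids_mono (H.avC i) (arc_sub le_rfl h) (fun v hv _ _ => hv)
  have av1 : ∀ i t, 0 ≤ t → t ≤ 2 → K.Avoids (arc (P i) t 2) {lv (lc i), rv (rc i)} :=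
    fun i t h _ => Skel.avoids_mono (H.avC i) (arc_sub h le_rfl) (fun v hv _ _ => hv)
  have av0' : ∀ i t, 0 ≤ t → t < 2 → K.Avoids (arc (P i) 0 t) {lv (lc i)} := by
    intro i t h0 h2
    refine Skel.avoids_mono (H.avC i) (arc_sub le_rfl h2.le) ?_
    rintro v (rfl | rfl) _ hm
    · rfl
    · exfalso
      rw [← (H.ends i).2, ← chordPt_two (P i), mem_arc_iff (H.poly i) le_rfl h2.le (by norm_num) le_rfl]
        at hm
      linarith [hm.2]
  have av1' : ∀ i t, 0 < t → t ≤ 2 → K.Avoids (arc (P i) t 2) {rv (rc i)} := by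
    intro i t h0 h2
    refine Skel.avoids_mono (H.avC i) (arc_sub h0.le le_rfl) ?_
    rintro v (rfl | rfl) _ hm
    · exfalso
      rw [← (H.ends i).1, ← chordPt_zero (P i), mem_arc_iff (H.poly i) h0.le le_rfl le_rfl (by norm_num)]
        at hm
      linarith [hm.1]
    · rfl
  -- parts of chords which do not meet another chord
  have dis0 : ∀ i j t, i ≠ j → 0 ≤ t → t < τ i j → Disjoint (arc (P i) 0 t) (pathSet (P j)) := by
    intro i j t hij h0 ht
    rw [Set.disjoint_left]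
    rintro z ⟨s, ⟨h1, h2⟩, rfl⟩ hz
    have := H.τ1 i j hij s h1 (by have := (H.τ0 i j hij).2; linarith) hz
    linarith
  have dis1 : ∀ i j t, i ≠ j → t ≤ 2 → τ i j < t → Disjoint (arc (P i) t 2) (pathSet (P j)) := by
    intro i j t hij h0 ht
    rw [Set.disjoint_left]
    rintro z ⟨s, ⟨h1, h2⟩, rfl⟩ hz
    have := H.τ1 i j hij s (by have := (H.τ0 i j hij).1; linarith) h2 hz
    linarith
  -- which arms meet which chords
  have dich : ∀ i j, i ≠ j → (∃ z ∈ L i, z ∈ pathSet (P j)) → Disjoint (pathSet (P j)) (R i) := by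
    rintro i j hij ⟨z, hz, hz'⟩
    rw [Set.disjoint_left]
    intro w hw hw'
    have h1 := H.meet1 i j hij z w hz' (Or.inl hz) hw (Or.inr hw')
    subst h1
    have := H.LR i i z hz hw'
    subst this
    exact H.npt j hz'
  have dich' : ∀ i j, i ≠ j → (∃ z ∈ R i, z ∈ pathSet (P j)) →
      Disjoint (pathSet (P j)) (L i) := by
    rintro i j hij ⟨z, hz, hz'⟩
    rw [Set.disjoint_left]
    intro w hw hw'
    have h1 := H.meet1 i j hij z w hz' (Or.inr hz) hw (Or.inl hw')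
    subst h1
    have := H.LR i i z hw' hz
    subst this
    exact H.npt j hz'
  have orL : ∀ i j, i ≠ j → ¬ (∃ z ∈ R i, z ∈ pathSet (P j)) → ∃ z ∈ L i, z ∈ pathSet (P j) := by
    intro i j hij h
    obtain ⟨z, hz, h1 | h1⟩ := H.meet i j hij
    · exact ⟨z, h1, hz⟩
    · exact absurd ⟨z, h1, hz⟩ h
  have nR : ∀ i j, ¬ (∃ z ∈ R i, z ∈ pathSet (P j)) → Disjoint (R i) (pathSet (P j)) := by
    intro i j h
    rw [Set.disjoint_left]
    intro z hz hz'
    exact h ⟨z, hz, hz'⟩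
  have nL : ∀ i j, ¬ (∃ z ∈ L i, z ∈ pathSet (P j)) → Disjoint (L i) (pathSet (P j)) := by
    intro i j h
    rw [Set.disjoint_left]
    intro z hz hz'
    exact h ⟨z, hz, hz'⟩
  have b0 := H.bd 0
  have b1 := H.bd 1
  have b2 := H.bd 2
  -- (1) R 0 meets chord 2
  have s1 : ∃ z ∈ R 0, z ∈ pathSet (P 2) := by
    by_contra h
    have := alt (tr (H.jL 2) (H.jR 0)) (jc 2) (un (H.avL 2) (H.avR 0)) (H.avC 2)
      (Set.disjoint_union_left.2 ⟨(H.disL 2).symm, nR 0 2 h⟩)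
      (by (refine ⟨?_, ?_, ?_, ?_⟩ <;> (intro h; simp only [mem_union, mem_insert_iff,
        mem_singleton_iff, lv_inj (b := b), rv_inj (b := b), lv_ne_rv, rv_ne_lv, hub_ne_lv,
        hub_ne_rv, or_false, false_or, or_self] at h <;> omega)))
      (by (refine ⟨?_, ?_, ?_, ?_⟩ <;> (intro h; simp only [mem_union, mem_insert_iff,
        mem_singleton_iff, lv_inj (b := b), rv_inj (b := b), lv_ne_rv, rv_ne_lv, hub_ne_lv,
        hub_ne_rv, or_false, false_or, or_self] at h <;> omega)))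
      (by omega) (by omega) (by omega) (by omega) (by omega)
    omega
  -- (2) L 2 meets chord 0
  have s2 : ∃ z ∈ L 2, z ∈ pathSet (P 0) := by
    by_contra h
    have := alt (jc 0) (tr (H.jL 2) (H.jR 0)) (H.avC 0) (un (H.avL 2) (H.avR 0))
      (Set.disjoint_union_right.2 ⟨(nL 2 0 h).symm, H.disR 0⟩)
      (by (refine ⟨?_, ?_, ?_, ?_⟩ <;> (intro h; simp only [mem_union, mem_insert_iff,
        mem_singleton_iff, lv_inj (b := b), rv_inj (b := b), lv_ne_rv, rv_ne_lv, hub_ne_lv,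
        hub_ne_rv, or_false, false_or, or_self] at h <;> omega)))
      (by (refine ⟨?_, ?_, ?_, ?_⟩ <;> (intro h; simp only [mem_union, mem_insert_iff,
        mem_singleton_iff, lv_inj (b := b), rv_inj (b := b), lv_ne_rv, rv_ne_lv, hub_ne_lv,
        hub_ne_rv, or_false, false_or, or_self] at h <;> omega)))
      (by omega) (by omega) (by omega) (by omega) (by omega)
    omega
  -- (3) L 0 meets chord 1
  have s3 : ∃ z ∈ L 0, z ∈ pathSet (P 1) := by
    by_contra h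
    have := alt (tr (H.jL 0) (H.jR 1)) (jc 1) (un (H.avL 0) (H.avR 1)) (H.avC 1)
      (Set.disjoint_union_left.2 ⟨nL 0 1 h, (H.disR 1).symm⟩)
      (by (refine ⟨?_, ?_, ?_, ?_⟩ <;> (intro h; simp only [mem_union, mem_insert_iff,
        mem_singleton_iff, lv_inj (b := b), rv_inj (b := b), lv_ne_rv, rv_ne_lv, hub_ne_lv,
        hub_ne_rv, or_false, false_or, or_self] at h <;> omega)))
      (by (refine ⟨?_, ?_, ?_, ?_⟩ <;> (intro h; simp only [mem_union, mem_insert_iff,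
        mem_singleton_iff, lv_inj (b := b), rv_inj (b := b), lv_ne_rv, rv_ne_lv, hub_ne_lv,
        hub_ne_rv, or_false, false_or, or_self] at h <;> omega)))
      (by omega) (by omega) (by omega) (by omega) (by omega)
    omega
  -- (4) R 2 meets chord 1
  have s4 : ∃ z ∈ R 2, z ∈ pathSet (P 1) := by
    by_contra h
    have := alt (jc 1) (tr (H.jL 1) (H.jR 2)) (H.avC 1) (un (H.avL 1) (H.avR 2))
      (Set.disjoint_union_right.2 ⟨H.disL 1, (nR 2 1 h).symm⟩)
      (by (refine ⟨?_, ?_, ?_, ?_⟩ <;> (intro h; simp only [mem_union, mem_insert_iff,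
        mem_singleton_iff, lv_inj (b := b), rv_inj (b := b), lv_ne_rv, rv_ne_lv, hub_ne_lv,
        hub_ne_rv, or_false, false_or, or_self] at h <;> omega)))
      (by (refine ⟨?_, ?_, ?_, ?_⟩ <;> (intro h; simp only [mem_union, mem_insert_iff,
        mem_singleton_iff, lv_inj (b := b), rv_inj (b := b), lv_ne_rv, rv_ne_lv, hub_ne_lv,
        hub_ne_rv, or_false, false_or, or_self] at h <;> omega)))
      (by omega) (by omega) (by omega) (by omega) (by omega)
    omega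
  -- (5) L 1 meets chord 0
  have s5 : ∃ z ∈ L 1, z ∈ pathSet (P 0) := by
    by_contra h
    have := alt (jc 0) (tr (H.jL 1) (H.jR 0)) (H.avC 0) (un (H.avL 1) (H.avR 0))
      (Set.disjoint_union_right.2 ⟨(nL 1 0 h).symm, H.disR 0⟩)
      (by (refine ⟨?_, ?_, ?_, ?_⟩ <;> (intro h; simp only [mem_union, mem_insert_iff,
        mem_singleton_iff, lv_inj (b := b), rv_inj (b := b), lv_ne_rv, rv_ne_lv, hub_ne_lv,
        hub_ne_rv, or_false, false_or, or_self] at h <;> omega)))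
      (by (refine ⟨?_, ?_, ?_, ?_⟩ <;> (intro h; simp only [mem_union, mem_insert_iff,
        mem_singleton_iff, lv_inj (b := b), rv_inj (b := b), lv_ne_rv, rv_ne_lv, hub_ne_lv,
        hub_ne_rv, or_false, false_or, or_self] at h <;> omega)))
      (by omega) (by omega) (by omega) (by omega) (by omega)
    omega
  -- (6) R 1 meets chord 2
  have s6 : ∃ z ∈ R 1, z ∈ pathSet (P 2) := by
    by_contra h
    have := alt (tr (H.jL 2) (H.jR 1)) (jc 2) (un (H.avL 2) (H.avR 1)) (H.avC 2)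
      (Set.disjoint_union_left.2 ⟨(H.disL 2).symm, nR 1 2 h⟩)
      (by (refine ⟨?_, ?_, ?_, ?_⟩ <;> (intro h; simp only [mem_union, mem_insert_iff,
        mem_singleton_iff, lv_inj (b := b), rv_inj (b := b), lv_ne_rv, rv_ne_lv, hub_ne_lv,
        hub_ne_rv, or_false, false_or, or_self] at h <;> omega)))
      (by (refine ⟨?_, ?_, ?_, ?_⟩ <;> (intro h; simp only [mem_union, mem_insert_iff,
        mem_singleton_iff, lv_inj (b := b), rv_inj (b := b), lv_ne_rv, rv_ne_lv, hub_ne_lv,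
        hub_ne_rv, or_false, false_or, or_self] at h <;> omega)))
      (by omega) (by omega) (by omega) (by omega) (by omega)
    omega
  obtain ⟨z1, hz1, hz1'⟩ := s3
  obtain ⟨z2, hz2, hz2'⟩ := s4
  obtain ⟨w1, hw1, hw1'⟩ := s5
  obtain ⟨y1, hy1, hy1'⟩ := s2
  obtain ⟨y2, hy2, hy2'⟩ := s1
  obtain ⟨w2, hw2, hw2'⟩ := s6
  obtain ⟨a2, a20, a22, rfl⟩ := exists_param hz1'
  obtain ⟨a3, a30, a32, rfl⟩ := exists_param hz2'
  obtain ⟨e2, e20, e22, rfl⟩ := exists_param hw1'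
  obtain ⟨e3, e30, e32, rfl⟩ := exists_param hy1'
  obtain ⟨c2, c20, c22, rfl⟩ := exists_param hy2'
  obtain ⟨c3, c30, c32, rfl⟩ := exists_param hw2'
  have t01 := H.τ0 0 1 (by decide)
  have t02 := H.τ0 0 2 (by decide)
  have t10 := H.τ0 1 0 (by decide)
  have t12 := H.τ0 1 2 (by decide)
  have t20 := H.τ0 2 0 (by decide)
  have t21 := H.τ0 2 1 (by decide)
  have memP : ∀ i t, 0 ≤ t → t ≤ 2 → chordPt (P i) t ∈ pathSet (P i) := by
    intro i t h0 h2
    rw [← chordPt_image]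
    exact ⟨t, ⟨h0, h2⟩, rfl⟩
  -- points of arms are not on the own chord
  have inL : ∀ i j t, i ≠ j → chordPt (P i) t ∈ L j → t ≠ τ i j := by
    intro i j t hij hm he
    subst he
    rw [H.τeq i j hij] at hm
    have h3 := H.τ0 j i hij.symm
    exact Set.disjoint_left.1 (H.disL j) (memP j _ h3.1 h3.2) hm
  have inR : ∀ i j t, i ≠ j → chordPt (P i) t ∈ R j → t ≠ τ i j := by
    intro i j t hij hm he
    subst he
    rw [H.τeq i j hij] at hm
    have h3 := H.τ0 j i hij.symm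
    exact Set.disjoint_left.1 (H.disR j) (memP j _ h3.1 h3.2) hm
  have gen : ∀ i j a s, 0 ≤ s → s ≤ 2 → 0 ≤ a → a ≤ 2 → i ≠ j →
      (chordPt (P i) a ∈ L j ∨ chordPt (P i) a ∈ R j) →
      (chordPt (P i) s ∈ L j ∨ chordPt (P i) s ∈ R j) → s = a := by
    intro i j a s s0 s2 a0 a2 hij hm hz
    have := H.meet1 j i hij.symm (chordPt (P i) s) (chordPt (P i) a) (memP i s s0 s2) hz
      (memP i a a0 a2) hm
    exact chordPt_injOn (H.poly i) ⟨s0, s2⟩ ⟨a0, a2⟩ this
  have npt : ∀ i t, 0 ≤ t → t ≤ 2 → chordPt (P i) t ≠ pt := by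
    intro i t h0 h2 h
    apply H.npt i
    rw [← h]
    exact memP i t h0 h2
  -- (7)
  have q7 : τ 1 0 < a2 := by
    by_contra h
    have hlt : a2 < τ 1 0 := lt_of_le_of_ne (not_lt.1 h) (inL 1 0 a2 (by decide) hz1)
    have := alt (jc 0) (tr (ja0 1 a2 a20) (tr (H.jLp 0 _ hz1) (H.jR 0))) (H.avC 0)
      (un (av0 1 a2 a20 a22) (un (H.avL 0) (H.avR 0)))
      (Set.disjoint_union_right.2 ⟨(dis0 1 0 a2 (by decide) a20 hlt).symm,
        Set.disjoint_union_right.2 ⟨H.disL 0, H.disR 0⟩⟩)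
      (by (refine ⟨?_, ?_, ?_, ?_⟩ <;> (intro h; simp only [mem_union, mem_insert_iff,
        mem_singleton_iff, lv_inj (b := b), rv_inj (b := b), lv_ne_rv, rv_ne_lv, hub_ne_lv,
        hub_ne_rv, or_false, false_or, or_self] at h <;> omega))) (by (refine ⟨?_, ?_, ?_, ?_⟩ <;> (intro h; simp only [mem_union, mem_insert_iff,
        mem_singleton_iff, lv_inj (b := b), rv_inj (b := b), lv_ne_rv, rv_ne_lv, hub_ne_lv,
        hub_ne_rv, or_false, false_or, or_self] at h <;> omega))) (by omega) (by omega) (by omega) (by omega) (by omega)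
    omega
  -- (8)
  have q8 : a3 < τ 1 2 := by
    by_contra h
    have hlt : τ 1 2 < a3 := lt_of_le_of_ne (not_lt.1 h) (inR 1 2 a3 (by decide) hz2).symm
    have := alt (tr (H.jL 2) (tr (H.jRp 2 _ hz2) (ja1 1 a3 a32))) (jc 2)
      (un (H.avL 2) (un (H.avR 2) (av1 1 a3 a30 a32))) (H.avC 2)
      (Set.disjoint_union_left.2 ⟨(H.disL 2).symm,
        Set.disjoint_union_left.2 ⟨(H.disR 2).symm, dis1 1 2 a3 (by decide) a32 hlt⟩⟩)
      (by (refine ⟨?_, ?_, ?_, ?_⟩ <;> (intro h; simp only [mem_union, mem_insert_iff,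
        mem_singleton_iff, lv_inj (b := b), rv_inj (b := b), lv_ne_rv, rv_ne_lv, hub_ne_lv,
        hub_ne_rv, or_false, false_or, or_self] at h <;> omega))) (by (refine ⟨?_, ?_, ?_, ?_⟩ <;> (intro h; simp only [mem_union, mem_insert_iff,
        mem_singleton_iff, lv_inj (b := b), rv_inj (b := b), lv_ne_rv, rv_ne_lv, hub_ne_lv,
        hub_ne_rv, or_false, false_or, or_self] at h <;> omega))) (by omega) (by omega) (by omega) (by omega) (by omega)
    omega
  -- (9)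
  have q9 : a2 < a3 := by
    by_contra h
    have hne : a3 ≠ a2 := by
      rintro rfl
      exact npt 1 _ a20 a22 (H.LR 0 2 _ hz1 hz2)
    have hlt : a3 < a2 := lt_of_le_of_ne (not_lt.1 h) hne
    obtain ⟨A0, hA0, jA0, pA0⟩ := H.subL 0 _ hz1 (npt 1 _ a20 a22)
    have avA0 : K.Avoids A0 {lv (ls 0)} := Skel.avoids_mono (H.avL 0) hA0 (fun v hv _ _ => hv)
    have := alt (tr jA0 (ja1 1 a2 a22)) (tr (ja0 1 a3 a30) ((H.jRp 2 _ hz2).symm.trans (H.jR 2)))
      (un avA0 (av1' 1 a2 (by linarith) a22)) (un (av0' 1 a3 a30 (by linarith)) (H.avR 2))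
      (by
        rw [Set.disjoint_left]
        rintro z (hz | ⟨s, ⟨g1, g2⟩, rfl⟩) (hz' | hz')
        · obtain ⟨s, ⟨g1, g2⟩, rfl⟩ := hz'
          have := gen 1 0 a2 s g1 (by linarith) a20 a22 (by decide) (Or.inl hz1)
            (Or.inl (hA0 hz))
          linarith
        · have := H.LR 0 2 z (hA0 hz) hz'
          subst this
          exact pA0 hz
        · obtain ⟨s', ⟨g1', g2'⟩, hs'⟩ := hz'
          have := chordPt_injOn (H.poly 1) ⟨g1', by linarith⟩ ⟨by linarith, g2⟩ hs'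
          linarith
        · have := gen 1 2 a3 s (by linarith) g2 a30 a32 (by decide) (Or.inr hz2) (Or.inr hz')
          linarith)
      (by (refine ⟨?_, ?_, ?_, ?_⟩ <;> (intro h; simp only [mem_union, mem_insert_iff,
        mem_singleton_iff, lv_inj (b := b), rv_inj (b := b), lv_ne_rv, rv_ne_lv, hub_ne_lv,
        hub_ne_rv, or_false, false_or, or_self] at h <;> omega))) (by (refine ⟨?_, ?_, ?_, ?_⟩ <;> (intro h; simp only [mem_union, mem_insert_iff,
        mem_singleton_iff, lv_inj (b := b), rv_inj (b := b), lv_ne_rv, rv_ne_lv, hub_ne_lv,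
        hub_ne_rv, or_false, false_or, or_self] at h <;> omega))) (by omega) (by omega) (by omega) (by omega) (by omega)
    omega
  -- (10)
  have q10 : τ 0 1 < e2 := by
    by_contra h
    have hlt : e2 < τ 0 1 := lt_of_le_of_ne (not_lt.1 h) (inL 0 1 e2 (by decide) hw1)
    have := alt (tr (ja0 0 e2 e20) (tr (H.jLp 1 _ hw1) (H.jR 1))) (jc 1)
      (un (av0 0 e2 e20 e22) (un (H.avL 1) (H.avR 1))) (H.avC 1)
      (Set.disjoint_union_left.2 ⟨dis0 0 1 e2 (by decide) e20 hlt,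
        Set.disjoint_union_left.2 ⟨(H.disL 1).symm, (H.disR 1).symm⟩⟩)
      (by (refine ⟨?_, ?_, ?_, ?_⟩ <;> (intro h; simp only [mem_union, mem_insert_iff,
        mem_singleton_iff, lv_inj (b := b), rv_inj (b := b), lv_ne_rv, rv_ne_lv, hub_ne_lv,
        hub_ne_rv, or_false, false_or, or_self] at h <;> omega))) (by (refine ⟨?_, ?_, ?_, ?_⟩ <;> (intro h; simp only [mem_union, mem_insert_iff,
        mem_singleton_iff, lv_inj (b := b), rv_inj (b := b), lv_ne_rv, rv_ne_lv, hub_ne_lv,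
        hub_ne_rv, or_false, false_or, or_self] at h <;> omega))) (by omega) (by omega) (by omega) (by omega) (by omega)
    omega
  -- (11)
  have q11 : e3 < τ 0 2 := by
    by_contra h
    have hlt : τ 0 2 < e3 := lt_of_le_of_ne (not_lt.1 h) (inL 0 2 e3 (by decide) hy1).symm
    have := alt (tr ((H.jL 2).trans (H.jLp 2 _ hy1).symm) (ja1 0 e3 e32)) (jc 2)
      (un (H.avL 2) (av1 0 e3 e30 e32)) (H.avC 2)
      (Set.disjoint_union_left.2 ⟨(H.disL 2).symm, dis1 0 2 e3 (by decide) e32 hlt⟩)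
      (by (refine ⟨?_, ?_, ?_, ?_⟩ <;> (intro h; simp only [mem_union, mem_insert_iff,
        mem_singleton_iff, lv_inj (b := b), rv_inj (b := b), lv_ne_rv, rv_ne_lv, hub_ne_lv,
        hub_ne_rv, or_false, false_or, or_self] at h <;> omega))) (by (refine ⟨?_, ?_, ?_, ?_⟩ <;> (intro h; simp only [mem_union, mem_insert_iff,
        mem_singleton_iff, lv_inj (b := b), rv_inj (b := b), lv_ne_rv, rv_ne_lv, hub_ne_lv,
        hub_ne_rv, or_false, false_or, or_self] at h <;> omega))) (by omega) (by omega) (by omega) (by omega) (by omega)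
    omega
  -- (12)
  have q12 : e2 < e3 := by
    by_contra h
    have hne : e3 ≠ e2 := by
      rintro rfl
      exact npt 0 _ e20 e22 (H.LL 1 2 (by decide) _ hw1 hy1)
    have hlt : e3 < e2 := lt_of_le_of_ne (not_lt.1 h) hne
    obtain ⟨A1, hA1, jA1, pA1⟩ := H.subL 1 _ hw1 (npt 0 _ e20 e22)
    have avA1 : K.Avoids A1 {lv (ls 1)} := Skel.avoids_mono (H.avL 1) hA1 (fun v hv _ _ => hv)
    have := alt (tr jA1 (ja1 0 e2 e22)) (tr (H.jL 2) (H.jR 2))
      (un avA1 (av1 0 e2 e20 e22)) (un (H.avL 2) (H.avR 2))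
      (by
        rw [Set.disjoint_left]
        rintro z (hz | ⟨s, ⟨g1, g2⟩, rfl⟩) (hz' | hz')
        · have := H.LL 1 2 (by decide) z (hA1 hz) hz'
          subst this
          exact pA1 hz
        · have := H.LR 1 2 z (hA1 hz) hz'
          subst this
          exact pA1 hz
        · have := gen 0 2 e3 s (by linarith) g2 e30 e32 (by decide) (Or.inl hy1) (Or.inl hz')
          linarith
        · have := gen 0 2 e3 s (by linarith) g2 e30 e32 (by decide) (Or.inl hy1) (Or.inr hz')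
          linarith)
      (by (refine ⟨?_, ?_, ?_, ?_⟩ <;> (intro h; simp only [mem_union, mem_insert_iff,
        mem_singleton_iff, lv_inj (b := b), rv_inj (b := b), lv_ne_rv, rv_ne_lv, hub_ne_lv,
        hub_ne_rv, or_false, false_or, or_self] at h <;> omega))) (by (refine ⟨?_, ?_, ?_, ?_⟩ <;> (intro h; simp only [mem_union, mem_insert_iff,
        mem_singleton_iff, lv_inj (b := b), rv_inj (b := b), lv_ne_rv, rv_ne_lv, hub_ne_lv,
        hub_ne_rv, or_false, false_or, or_self] at h <;> omega))) (by omega) (by omega) (by omega) (by omega) (by omega)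
    omega
  -- (13)
  have q13 : τ 2 0 < c2 := by
    by_contra h
    have hlt : c2 < τ 2 0 := lt_of_le_of_ne (not_lt.1 h) (inR 2 0 c2 (by decide) hy2)
    have := alt (jc 0) (tr (ja0 2 c2 c20) ((H.jRp 0 _ hy2).symm.trans (H.jR 0))) (H.avC 0)
      (un (av0 2 c2 c20 c22) (H.avR 0))
      (Set.disjoint_union_right.2 ⟨(dis0 2 0 c2 (by decide) c20 hlt).symm, H.disR 0⟩)
      (by (refine ⟨?_, ?_, ?_, ?_⟩ <;> (intro h; simp only [mem_union, mem_insert_iff,
        mem_singleton_iff, lv_inj (b := b), rv_inj (b := b), lv_ne_rv, rv_ne_lv, hub_ne_lv,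
        hub_ne_rv, or_false, false_or, or_self] at h <;> omega))) (by (refine ⟨?_, ?_, ?_, ?_⟩ <;> (intro h; simp only [mem_union, mem_insert_iff,
        mem_singleton_iff, lv_inj (b := b), rv_inj (b := b), lv_ne_rv, rv_ne_lv, hub_ne_lv,
        hub_ne_rv, or_false, false_or, or_self] at h <;> omega))) (by omega) (by omega) (by omega) (by omega) (by omega)
    omega
  -- (14)
  have q14 : c3 < τ 2 1 := by
    by_contra h
    have hlt : τ 2 1 < c3 := lt_of_le_of_ne (not_lt.1 h) (inR 2 1 c3 (by decide) hw2).symm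
    have := alt (jc 1) (tr (H.jL 1) (tr (H.jRp 1 _ hw2) (ja1 2 c3 c32))) (H.avC 1)
      (un (H.avL 1) (un (H.avR 1) (av1 2 c3 c30 c32)))
      (Set.disjoint_union_right.2 ⟨H.disL 1,
        Set.disjoint_union_right.2 ⟨H.disR 1, (dis1 2 1 c3 (by decide) c32 hlt).symm⟩⟩)
      (by (refine ⟨?_, ?_, ?_, ?_⟩ <;> (intro h; simp only [mem_union, mem_insert_iff,
        mem_singleton_iff, lv_inj (b := b), rv_inj (b := b), lv_ne_rv, rv_ne_lv, hub_ne_lv,
        hub_ne_rv, or_false, false_or, or_self] at h <;> omega))) (by (refine ⟨?_, ?_, ?_, ?_⟩ <;> (intro h; simp only [mem_union, mem_insert_iff,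
        mem_singleton_iff, lv_inj (b := b), rv_inj (b := b), lv_ne_rv, rv_ne_lv, hub_ne_lv,
        hub_ne_rv, or_false, false_or, or_self] at h <;> omega))) (by omega) (by omega) (by omega) (by omega) (by omega)
    omega
  -- (15)
  have q15 : c2 < c3 := by
    by_contra h
    have hne : c3 ≠ c2 := by
      rintro rfl
      exact npt 2 _ c20 c22 (H.RR 0 1 (by decide) _ hy2 hw2)
    have hlt : c3 < c2 := lt_of_le_of_ne (not_lt.1 h) hne
    obtain ⟨A2, hA2, jA2, pA2⟩ := H.subR 1 _ hw2 (npt 2 _ c30 c32)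
    have avA2 : K.Avoids A2 {rv (rs 1)} := Skel.avoids_mono (H.avR 1) hA2 (fun v hv _ _ => hv)
    have := alt (tr (H.jL 0) (H.jR 0)) (tr (ja0 2 c3 c30) jA2)
      (un (H.avL 0) (H.avR 0)) (un (av0 2 c3 c30 c32) avA2)
      (by
        rw [Set.disjoint_left]
        rintro z (hz | hz) (⟨s, ⟨g1, g2⟩, rfl⟩ | hz')
        · have := gen 2 0 c2 s g1 (by linarith) c20 c22 (by decide) (Or.inr hy2) (Or.inl hz)
          linarith
        · have := H.LR 0 1 z hz (hA2 hz')
          subst this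
          exact pA2 hz'
        · have := gen 2 0 c2 s g1 (by linarith) c20 c22 (by decide) (Or.inr hy2) (Or.inr hz)
          linarith
        · have := H.RR 0 1 (by decide) z hz (hA2 hz')
          subst this
          exact pA2 hz')
      (by (refine ⟨?_, ?_, ?_, ?_⟩ <;> (intro h; simp only [mem_union, mem_insert_iff,
        mem_singleton_iff, lv_inj (b := b), rv_inj (b := b), lv_ne_rv, rv_ne_lv, hub_ne_lv,
        hub_ne_rv, or_false, false_or, or_self] at h <;> omega))) (by (refine ⟨?_, ?_, ?_, ?_⟩ <;> (intro h; simp only [mem_union, mem_insert_iff,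
        mem_singleton_iff, lv_inj (b := b), rv_inj (b := b), lv_ne_rv, rv_ne_lv, hub_ne_lv,
        hub_ne_rv, or_false, false_or, or_self] at h <;> omega))) (by omega) (by omega) (by omega) (by omega) (by omega)
    omega
  exact ⟨by linarith, by linarith, by linarith⟩

end Pool.Agent.CRt
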