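import Pool.Agent.CRt.Inter
import Pool.Agent.Coarse.Nonplanar

/-!
# Topological tools for drawings
-/

set_option autoImplicit false

namespace Pool.Agent.CRt

open Set unitInterval

/-- The plane as the complex plane. -/
noncomputable def toC : Plane → ℂ := fun p => ⟨p.1, p.2⟩

theorem toC_inj : Function.Injective toC := by
  intro p q h
  have h1 := congrArg Complex.re h
  have h2 := congrArg Complex.im h
  exact Prod.ext h1 h2

theorem continuous_toC : Continuous toC := by
  have : toC = fun p => Complex.equivRealProdCLM.symm p := by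
    funext p
    rfl
  rw [this]
  exact Complex.equivRealProdCLM.symm.continuous

/-- Nine connected sets which would form a drawing of `K₃,₃`. -/
theorem no_K33_sets (p q : Fin 3 → Plane) (hp : Function.Injective p) (hq : Function.Injective q)
    (hpq : ∀ i j, p i ≠ q j) (S : Fin 3 → Fin 3 → Set Plane)
    (hS : ∀ i j, JoinedIn (S i j) (p i) (q j))
    (hd : ∀ i j k l, i ≠ k → j ≠ l → Disjoint (S i j) (S k l)) : False := by
  refine Coarse.no_paths_K33 (toC ∘ p) (toC ∘ q) (toC_inj.comp hp) (toC_inj.comp hq)
    (fun i j h => hpq i j (toC_inj h)) (fun i j => (hS i j).somePath.map continuous_toC) ?_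
  intro i j k l hik hjl
  rw [Set.disjoint_left]
  rintro z ⟨s, hs⟩ ⟨t, ht⟩
  have h1 : toC ((hS i j).somePath s) = toC ((hS k l).somePath t) := by
    rw [← ht] at hs
    exact hs
  have h2 := toC_inj h1
  have h3 := (hS i j).somePath_mem s
  have h4 := (hS k l).somePath_mem t
  rw [← h2] at h4
  exact Set.disjoint_left.1 (hd i j k l hik hjl) h3 h4

end Pool.Agent.CRt
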